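import Pool.Agent.Helper83.SE.Defs
import Pool.Agent.Helper83.SD.Ring

/-!
Project SE, module AliasC: the combinatorial aliasing bound for one ring.

Ordered pairs `m ≠ m'`, `n ∣ m - m'`.  Unordered pair `{n/2, -n/2}` (`n` even): `2 F F' ≤ F^2 + F'^2`
(tie).  Every other unordered pair `{hi, lo}`, `|hi| ≥ |lo|` (if equal: `hi > 0`), has `2|hi| > n`; put
`κ = 2|hi|/n` (floor) `≥ 1`: `2 F_hi F_lo ≤ b om(κ) F_lo^2 + F_hi^2/(b om(κ))`.
For fixed `lo` the sum of `om(κ)` over the `hi` is `≤ 1`: for each level `κ` the set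
`{κ n/2 ≤ |x| < (κ+1) n/2}` contains exactly one element of the class `lo + nℤ`, except for the
classes of `0` and `n/2`, which meet only every second level, twice: sums
`≤ 2 (om 2 + om 4 + ..) ≤ 0.07`, resp. `≤ 2 (om 3 + om 5 + ..)` (`κ = 1` is the tie, excluded).
`Σ_{κ≥1} om κ = 0.95 + 0.05 = 1`.  For fixed `hi` there are at most `κ` many `lo`'s
(`|lo| ≤ |hi|`, `lo ≡ hi`, `lo ≠ hi`).
-/

set_option autoImplicit false

open MeasureTheory Real Pool.Agent.Helper83.SD

namespace Pool.Agent.Helper83.SE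

theorem om_pos' (k : ℕ) : 0 < om k := by
  unfold om
  split_ifs
  · norm_num
  · positivity

theorem om_sum_two (K : ℕ) : ∑ k ∈ Finset.Icc 2 (K + 1), om k ≤ 0.05 - 0.1 / 2 ^ (K + 1) := by
  induction K with
  | zero =>
    have h : Finset.Icc 2 (0 + 1) = (∅ : Finset ℕ) := by decide
    rw [h, Finset.sum_empty]
    norm_num
  | succ K ih =>
    rw [Finset.sum_Icc_succ_top (by omega)]
    have h1 : om (K + 1 + 1) = 0.1 / 2 ^ (K + 1 + 1) := by
      unfold om
      rw [if_neg (by omega)]
    rw [h1]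
    have h2 : (0.1 : ℝ) / 2 ^ (K + 1) = 2 * (0.1 / 2 ^ (K + 1 + 1)) := by
      rw [pow_succ (2 : ℝ) (K + 1)]
      field_simp
    rw [h2] at ih
    linarith

theorem om_sum_ge_two (s : Finset ℕ) (hs : ∀ k ∈ s, 2 ≤ k) : ∑ k ∈ s, om k ≤ 0.05 := by
  have hsub : s ⊆ Finset.Icc 2 (s.sup id + 1) := by
    intro k hk
    rw [Finset.mem_Icc]
    refine ⟨hs k hk, ?_⟩
    have := Finset.le_sup (f := id) hk
    simp only [id] at this
    omega
  have h1 : ∑ k ∈ s, om k ≤ ∑ k ∈ Finset.Icc 2 (s.sup id + 1), om k :=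
    Finset.sum_le_sum_of_subset_of_nonneg hsub (fun k _ _ => (om_pos' k).le)
  have h2 := om_sum_two (s.sup id)
  have h3 : (0 : ℝ) < 0.1 / 2 ^ (s.sup id + 1) := by positivity
  linarith

theorem om_sum_ge_one (s : Finset ℕ) (hs : ∀ k ∈ s, 1 ≤ k) : ∑ k ∈ s, om k ≤ 1 := by
  have hsub : s ⊆ insert 1 (s.filter (fun k => 2 ≤ k)) := by
    intro k hk
    rw [Finset.mem_insert, Finset.mem_filter]
    have := hs k hk
    by_cases h : k = 1
    · exact Or.inl h
    · exact Or.inr ⟨hk, by omega⟩
  have h1 : ∑ k ∈ s, om k ≤ ∑ k ∈ insert 1 (s.filter (fun k => 2 ≤ k)), om k :=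
    Finset.sum_le_sum_of_subset_of_nonneg hsub (fun k _ _ => (om_pos' k).le)
  have hnot : (1 : ℕ) ∉ s.filter (fun k => 2 ≤ k) := by
    rw [Finset.mem_filter]
    rintro ⟨_, h⟩
    omega
  rw [Finset.sum_insert hnot] at h1
  have h2 := om_sum_ge_two (s.filter (fun k => 2 ≤ k)) (fun k hk => (Finset.mem_filter.mp hk).2)
  have h3 : om 1 = 0.95 := by
    unfold om
    rw [if_pos rfl]
  rw [h3] at h1
  linarith

/-- injectivity of the level on the elements of one sign of one class -/
theorem lev_ne {n : ℕ} (hn : 1 ≤ n) {x y : ℕ} (h : x + n ≤ y) : 2 * x / n ≠ 2 * y / n := by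
  have h1 : 2 * x / n + 2 ≤ 2 * y / n := by
    rw [Nat.le_div_iff_mul_le (by omega)]
    have := Nat.div_mul_le_self (2 * x) n
    nlinarith
  omega

theorem dvd_nat {n : ℕ} {x y : ℕ} (h : (n : ℤ) ∣ (x : ℤ) - y) (hlt : y < x) : y + n ≤ x := by
  have h1 : (n : ℤ) ≤ (x : ℤ) - y := Int.le_of_dvd (by omega) h
  omega

theorem lev_inj {n : ℕ} (hn : 1 ≤ n) {x y : ℕ} (h : (n : ℤ) ∣ (x : ℤ) - y)
    (he : 2 * x / n = 2 * y / n) : x = y := by
  rcases lt_trichotomy x y with hlt | heq | hgt
  · exfalso
    have h' : (n : ℤ) ∣ (y : ℤ) - x := by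
      have := (dvd_neg (α := ℤ)).mpr h
      rwa [neg_sub] at this
    exact lev_ne hn (dvd_nat h' hlt) he
  · exact heq
  · exfalso
    exact lev_ne hn (dvd_nat h hgt) he.symm

/-- two elements of different sign on the same level -/
theorem lev_opp {n : ℕ} (hn : 1 ≤ n) {x y : ℕ} (h : n ∣ x + y)
    (he : 2 * x / n = 2 * y / n) : n ∣ 2 * x := by
  obtain ⟨q, hq⟩ := h
  set k := 2 * x / n with hk
  have h1 : k * n ≤ 2 * x := Nat.div_mul_le_self _ _
  have h2 : 2 * x < (k + 1) * n := by
    have h3 := Nat.div_add_mod (2 * x) n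
    have h4 := Nat.mod_lt (2 * x) (show n > 0 by omega)
    rw [← hk] at h3
    nlinarith
  have h1' : k * n ≤ 2 * y := by
    rw [he]
    exact Nat.div_mul_le_self _ _
  have h2' : 2 * y < (k + 1) * n := by
    have h3 := Nat.div_add_mod (2 * y) n
    have h4 := Nat.mod_lt (2 * y) (show n > 0 by omega)
    rw [← he] at h3
    nlinarith
  have h5 : q = k := by
    have h6 : k * n ≤ n * q := by nlinarith
    have h7 : n * q < (k + 1) * n := by nlinarith
    have h8 : k ≤ q := by
      by_contra hc
      push Not at hc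
      have : q + 1 ≤ k := hc
      nlinarith
    have h9 : q < k + 1 := by
      by_contra hc
      push Not at hc
      nlinarith
    omega
  refine ⟨k, ?_⟩
  rw [h5] at hq
  nlinarith

theorem lev_sum (n : ℕ) (hn : 1 ≤ n) (A : Finset ℤ) (hA : ∀ m ∈ A, n < 2 * m.natAbs)
    (hc : ∀ m ∈ A, ∀ m' ∈ A, (n : ℤ) ∣ m - m') :
    ∑ m ∈ A, om (2 * m.natAbs / n) ≤ 1 := by
  have hge1 : ∀ m ∈ A, 1 ≤ 2 * m.natAbs / n := by
    intro m hm
    rw [Nat.le_div_iff_mul_le (by omega)]
    have := hA m hm
    omega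
  by_cases hinj : Set.InjOn (fun m : ℤ => 2 * m.natAbs / n) (A : Set ℤ)
  · have h1 : ∑ m ∈ A, om (2 * m.natAbs / n)
        = ∑ k ∈ A.image (fun m : ℤ => 2 * m.natAbs / n), om k := by
      rw [Finset.sum_image hinj]
    rw [h1]
    apply om_sum_ge_one
    intro k hk
    rw [Finset.mem_image] at hk
    obtain ⟨m, hm, rfl⟩ := hk
    exact hge1 m hm
  · -- not injective
    have hdiv : ∃ m ∈ A, n ∣ 2 * m.natAbs := by
      unfold Set.InjOn at hinj
      push Not at hinj
      obtain ⟨m1, hm1, m2, hm2, he, hne⟩ := hinj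
      have hm1' : m1 ∈ A := by exact_mod_cast hm1
      have hm2' : m2 ∈ A := by exact_mod_cast hm2
      have hd := hc m1 hm1' m2 hm2'
      refine ⟨m1, hm1', ?_⟩
      rcases le_total 0 m1 with h1 | h1 <;> rcases le_total 0 m2 with h2 | h2
      · exfalso
        apply hne
        have e1 : m1 = (m1.natAbs : ℤ) := by omega
        have e2 : m2 = (m2.natAbs : ℤ) := by omega
        rw [e1, e2] at hd
        have := lev_inj hn hd he
        omega
      · have hd' : (n : ℤ) ∣ ((m1.natAbs + m2.natAbs : ℕ) : ℤ) := by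
          have : ((m1.natAbs + m2.natAbs : ℕ) : ℤ) = m1 - m2 := by omega
          rw [this]
          exact hd
        have hd2 : n ∣ m1.natAbs + m2.natAbs := by exact_mod_cast hd'
        exact lev_opp hn hd2 he
      · have hd' : (n : ℤ) ∣ ((m1.natAbs + m2.natAbs : ℕ) : ℤ) := by
          have : ((m1.natAbs + m2.natAbs : ℕ) : ℤ) = -(m1 - m2) := by omega
          rw [this]
          exact (dvd_neg (α := ℤ)).mpr hd
        have hd2 : n ∣ m1.natAbs + m2.natAbs := by exact_mod_cast hd'
        exact lev_opp hn hd2 he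
      · exfalso
        apply hne
        have hd' : (n : ℤ) ∣ (m1.natAbs : ℤ) - (m2.natAbs : ℤ) := by
          have : (m1.natAbs : ℤ) - (m2.natAbs : ℤ) = -(m1 - m2) := by omega
          rw [this]
          exact (dvd_neg (α := ℤ)).mpr hd
        have := lev_inj hn hd' he
        omega
    obtain ⟨m0, hm0, hd0⟩ := hdiv
    have hall : ∀ m ∈ A, 2 ≤ 2 * m.natAbs / n := by
      intro m hm
      have hd := hc m hm m0 hm0
      have h1 : (n : ℤ) ∣ 2 * m := by
        have h2 : (n : ℤ) ∣ 2 * m0 := by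
          have h3 : (n : ℤ) ∣ ((2 * m0.natAbs : ℕ) : ℤ) := by exact_mod_cast hd0
          rcases le_total 0 m0 with h | h
          · have : ((2 * m0.natAbs : ℕ) : ℤ) = 2 * m0 := by omega
            rwa [this] at h3
          · have : ((2 * m0.natAbs : ℕ) : ℤ) = -(2 * m0) := by omega
            rw [this] at h3
            exact (dvd_neg (α := ℤ)).mp h3
        have h4 : 2 * m = 2 * (m - m0) + 2 * m0 := by ring
        rw [h4]
        exact dvd_add (dvd_mul_of_dvd_right hd 2) h2
      have h2 : n ∣ 2 * m.natAbs := by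
        have h3 : (n : ℤ) ∣ ((2 * m.natAbs : ℕ) : ℤ) := by
          rcases le_total 0 m with h | h
          · have : ((2 * m.natAbs : ℕ) : ℤ) = 2 * m := by omega
            rwa [this]
          · have : ((2 * m.natAbs : ℕ) : ℤ) = -(2 * m) := by omega
            rw [this]
            exact (dvd_neg (α := ℤ)).mpr h1
        exact_mod_cast h3
      obtain ⟨q, hq⟩ := h2
      have h3 := hA m hm
      rw [hq] at h3 ⊢
      rw [Nat.mul_div_cancel_left _ (by omega)]
      by_contra hlt
      push Not at hlt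
      have : q ≤ 1 := by omega
      nlinarith
    have hsplit : ∑ m ∈ A, om (2 * m.natAbs / n)
        = ∑ m ∈ A.filter (fun m => 0 ≤ m), om (2 * m.natAbs / n)
          + ∑ m ∈ A.filter (fun m => ¬ 0 ≤ m), om (2 * m.natAbs / n) :=
      (Finset.sum_filter_add_sum_filter_not A (fun m => 0 ≤ m) _).symm
    have hb1 : ∑ m ∈ A.filter (fun m => 0 ≤ m), om (2 * m.natAbs / n) ≤ 0.05 := by
      have hi : Set.InjOn (fun m : ℤ => 2 * m.natAbs / n)
          ((A.filter (fun m => 0 ≤ m) : Finset ℤ) : Set ℤ) := by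
        intro m1 hm1 m2 hm2 he
        simp only [Finset.coe_filter, Set.mem_ofPred_eq] at hm1 hm2
        simp only at he
        have hd := hc m1 hm1.1 m2 hm2.1
        have e1 : m1 = (m1.natAbs : ℤ) := by omega
        have e2 : m2 = (m2.natAbs : ℤ) := by omega
        rw [e1, e2] at hd
        have := lev_inj hn hd he
        omega
      have h1 : ∑ m ∈ A.filter (fun m => 0 ≤ m), om (2 * m.natAbs / n)
          = ∑ k ∈ (A.filter (fun m => 0 ≤ m)).image (fun m : ℤ => 2 * m.natAbs / n), om k := by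
        rw [Finset.sum_image hi]
      rw [h1]
      apply om_sum_ge_two
      intro k hk
      rw [Finset.mem_image] at hk
      obtain ⟨m, hm, rfl⟩ := hk
      exact hall m (Finset.mem_filter.mp hm).1
    have hb2 : ∑ m ∈ A.filter (fun m => ¬ 0 ≤ m), om (2 * m.natAbs / n) ≤ 0.05 := by
      have hi : Set.InjOn (fun m : ℤ => 2 * m.natAbs / n)
          ((A.filter (fun m => ¬ 0 ≤ m) : Finset ℤ) : Set ℤ) := by
        intro m1 hm1 m2 hm2 he
        simp only [Finset.coe_filter, Set.mem_ofPred_eq] at hm1 hm2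
        simp only at he
        have hd := hc m1 hm1.1 m2 hm2.1
        have hd' : (n : ℤ) ∣ (m1.natAbs : ℤ) - (m2.natAbs : ℤ) := by
          have : (m1.natAbs : ℤ) - (m2.natAbs : ℤ) = -(m1 - m2) := by omega
          rw [this]
          exact (dvd_neg (α := ℤ)).mpr hd
        have := lev_inj hn hd' he
        omega
      have h1 : ∑ m ∈ A.filter (fun m => ¬ 0 ≤ m), om (2 * m.natAbs / n)
          = ∑ k ∈ (A.filter (fun m => ¬ 0 ≤ m)).image (fun m : ℤ => 2 * m.natAbs / n), om k := by
        rw [Finset.sum_image hi]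
      rw [h1]
      apply om_sum_ge_two
      intro k hk
      rw [Finset.mem_image] at hk
      obtain ⟨m, hm, rfl⟩ := hk
      exact hall m (Finset.mem_filter.mp hm).1
    rw [hsplit]
    linarith

/-- number of the lower elements -/
theorem lo_card (n : ℕ) (hn : 1 ≤ n) (I : Finset ℤ) (m : ℤ) :
    (I.filter (fun m' => m' ≠ m ∧ (n : ℤ) ∣ m - m' ∧ m'.natAbs ≤ m.natAbs)).card
      ≤ 2 * m.natAbs / n := by
  have h1 : (I.filter (fun m' => m' ≠ m ∧ (n : ℤ) ∣ m - m' ∧ m'.natAbs ≤ m.natAbs)).card
      ≤ (Finset.Icc 1 (2 * m.natAbs / n)).card := by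
    apply Finset.card_le_card_of_injOn (fun m' => (m - m').natAbs / n)
    · intro m' hm'
      simp only [Finset.coe_filter, Set.mem_ofPred_eq] at hm'
      obtain ⟨_, hne, hd, hle⟩ := hm'
      simp only [Finset.coe_Icc, Set.mem_Icc]
      constructor
      · rw [Nat.le_div_iff_mul_le (by omega)]
        have hd' : n ∣ (m - m').natAbs := by
          rw [← Int.natCast_dvd]
          exact hd
        have := Nat.le_of_dvd (by omega) hd'
        omega
      · apply Nat.div_le_div_right
        omega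
    · intro x hx y hy he
      simp only [Finset.coe_filter, Set.mem_ofPred_eq] at hx hy
      obtain ⟨_, hx1, hx2, hx3⟩ := hx
      obtain ⟨_, hy1, hy2, hy3⟩ := hy
      simp only at he
      have hdx : n ∣ (m - x).natAbs := by
        rw [← Int.natCast_dvd]
        exact hx2
      have hdy : n ∣ (m - y).natAbs := by
        rw [← Int.natCast_dvd]
        exact hy2
      have e : (m - x).natAbs = (m - y).natAbs := by
        rw [← Nat.div_mul_cancel hdx, ← Nat.div_mul_cancel hdy, he]
      omega
  rw [Nat.card_Icc, Nat.add_sub_cancel] at h1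
  exact h1

theorem alias_comb (t n : ℕ) (hn : 1 ≤ n) (F : ℤ → ℝ) (hF : ∀ m, 0 ≤ F m) {b : ℝ}
    (hb : 0 < b) :
    ∑ m ∈ Finset.Icc (-(t : ℤ)) t,
      ∑ m' ∈ (Finset.Icc (-(t : ℤ)) t).filter (fun m' => m' ≠ m ∧ (n : ℤ) ∣ m - m'),
        F m * F m' ≤
      ∑ m ∈ Finset.Icc (-(t : ℤ)) t, (if 2 * m.natAbs = n then (F m) ^ 2 else 0)
      + b * ∑ m ∈ Finset.Icc (-(t : ℤ)) t, (F m) ^ 2
      + (1 / b) * ∑ m ∈ Finset.Icc (-(t : ℤ)) t, (if n < 2 * m.natAbs then
          ((2 * m.natAbs / n : ℕ) : ℝ) / om (2 * m.natAbs / n) * (F m) ^ 2 else 0) := by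
  classical
  set I := Finset.Icc (-(t : ℤ)) t with hI
  set D : ℤ → ℤ → Prop := fun m m' => (m' ≠ m ∧ (n : ℤ) ∣ m - m') ∧
    (m'.natAbs < m.natAbs ∨ (m' = -m ∧ 0 < m)) with hD
  set T : ℤ → ℤ → ℝ := fun m m' => if D m m' then F m * F m' else 0 with hT
  set U1 : ℤ → ℤ → ℝ := fun m m' =>
    if m' = -m then (if 2 * m.natAbs = n ∧ 0 < m then (F m) ^ 2 else 0) else 0 with hU1
  set U2 : ℤ → ℤ → ℝ := fun m m' =>
    if m = -m' then (if 2 * m'.natAbs = n ∧ m' < 0 then (F m') ^ 2 else 0) else 0 with hU2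
  set V : ℤ → ℤ → ℝ := fun m m' =>
    if n < 2 * m.natAbs ∧ (n : ℤ) ∣ m - m' then b * om (2 * m.natAbs / n) * (F m') ^ 2 else 0
    with hV
  set W : ℤ → ℤ → ℝ := fun m m' =>
    if m' ≠ m ∧ (n : ℤ) ∣ m - m' ∧ m'.natAbs ≤ m.natAbs then
      (if n < 2 * m.natAbs then 1 / (b * om (2 * m.natAbs / n)) * (F m) ^ 2 else 0) else 0
    with hW
  -- step 1: symmetrisation
  have hS : ∑ m ∈ I, ∑ m' ∈ I.filter (fun m' => m' ≠ m ∧ (n : ℤ) ∣ m - m'), F m * F m'
      = ∑ m ∈ I, ∑ m' ∈ I, 2 * T m m' := by
    have h1 : ∑ m ∈ I, ∑ m' ∈ I.filter (fun m' => m' ≠ m ∧ (n : ℤ) ∣ m - m'), F m * F m'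
        = ∑ m ∈ I, ∑ m' ∈ I, (T m m' + T m' m) := by
      apply Finset.sum_congr rfl
      intro m _
      rw [Finset.sum_filter]
      apply Finset.sum_congr rfl
      intro m' _
      by_cases hp : m' ≠ m ∧ (n : ℤ) ∣ m - m'
      · rw [if_pos hp]
        have hp' : m ≠ m' ∧ (n : ℤ) ∣ m' - m := by
          refine ⟨hp.1.symm, ?_⟩
          have := (dvd_neg (α := ℤ)).mpr hp.2
          rwa [neg_sub] at this
        by_cases hd : m'.natAbs < m.natAbs ∨ (m' = -m ∧ 0 < m)
        · have e1 : T m m' = F m * F m' := by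
            simp only [hT, hD]
            rw [if_pos ⟨hp, hd⟩]
          have e2 : T m' m = 0 := by
            simp only [hT, hD]
            rw [if_neg]
            rintro ⟨_, h3 | h3⟩
            · rcases hd with h4 | h4
              · omega
              · obtain ⟨h5, _⟩ := h4
                rw [h5, Int.natAbs_neg] at h3
                omega
            · rcases hd with h4 | h4
              · obtain ⟨h5, _⟩ := h3
                rw [h5, Int.natAbs_neg] at h4
                omega
              · omega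
          rw [e1, e2]
          ring
        · have e1 : T m m' = 0 := by
            simp only [hT, hD]
            rw [if_neg]
            rintro ⟨_, h3⟩
            exact hd h3
          have e2 : T m' m = F m' * F m := by
            simp only [hT, hD]
            rw [if_pos]
            refine ⟨hp', ?_⟩
            by_contra hcon
            push Not at hd hcon
            obtain ⟨h3, h4⟩ := hd
            obtain ⟨h5, h6⟩ := hcon
            have h7 : m.natAbs = m'.natAbs := le_antisymm h3 h5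
            have h8 : m = -m' := by
              rcases Int.natAbs_eq_natAbs_iff.mp h7 with h | h
              · exact absurd h.symm hp.1
              · exact h
            have h9 : m' = -m := by omega
            have h10 := h4 h9
            have h11 := h6 h8
            have h12 : m = 0 := by omega
            exact hp.1 (by omega)
          rw [e1, e2]
          ring
      · rw [if_neg hp]
        have e1 : T m m' = 0 := by
          simp only [hT, hD]
          rw [if_neg]
          rintro ⟨h3, _⟩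
          exact hp h3
        have e2 : T m' m = 0 := by
          simp only [hT, hD]
          rw [if_neg]
          rintro ⟨h3, _⟩
          apply hp
          refine ⟨h3.1.symm, ?_⟩
          have := (dvd_neg (α := ℤ)).mpr h3.2
          rwa [neg_sub] at this
        rw [e1, e2]
        ring
    rw [h1]
    have h2 : ∑ m ∈ I, ∑ m' ∈ I, (T m m' + T m' m)
        = ∑ m ∈ I, ∑ m' ∈ I, T m m' + ∑ m ∈ I, ∑ m' ∈ I, T m' m := by
      rw [← Finset.sum_add_distrib]
      apply Finset.sum_congr rfl
      intro m _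
      rw [Finset.sum_add_distrib]
    rw [h2]
    have h3 : ∑ m ∈ I, ∑ m' ∈ I, T m' m = ∑ m ∈ I, ∑ m' ∈ I, T m m' := Finset.sum_comm
    rw [h3]
    have h4 : ∑ m ∈ I, ∑ m' ∈ I, 2 * T m m' = 2 * ∑ m ∈ I, ∑ m' ∈ I, T m m' := by
      rw [Finset.mul_sum]
      apply Finset.sum_congr rfl
      intro m _
      rw [Finset.mul_sum]
    rw [h4]
    ring
  -- step 2: the pointwise bound
  have hpt : ∀ m m' : ℤ, 2 * T m m' ≤ (U1 m m' + U2 m m') + V m m' + W m m' := by
    intro m m'
    have hU1n : 0 ≤ U1 m m' := by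
      simp only [hU1]
      split_ifs <;> positivity
    have hU2n : 0 ≤ U2 m m' := by
      simp only [hU2]
      split_ifs <;> positivity
    have hVn : 0 ≤ V m m' := by
      simp only [hV]
      have := om_pos' (2 * m.natAbs / n)
      split_ifs <;> positivity
    have hWn : 0 ≤ W m m' := by
      simp only [hW]
      have := om_pos' (2 * m.natAbs / n)
      split_ifs <;> positivity
    by_cases hd : D m m'
    · have e1 : T m m' = F m * F m' := by
        simp only [hT]
        rw [if_pos hd]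
      rw [e1]
      obtain ⟨⟨hne, hdv⟩, hor⟩ := hd
      have hle : m'.natAbs ≤ m.natAbs := by
        rcases hor with h | h
        · omega
        · rw [h.1, Int.natAbs_neg]
      have hnle : n ≤ (m - m').natAbs := by
        have hd' : n ∣ (m - m').natAbs := by
          rw [← Int.natCast_dvd]
          exact hdv
        exact Nat.le_of_dvd (by omega) hd'
      by_cases htie : 2 * m.natAbs = n
      · have hm' : m' = -m ∧ 0 < m := by
          rcases hor with h | h
          · exfalso
            omega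
          · exact h
        have f1 : U1 m m' = (F m) ^ 2 := by
          simp only [hU1]
          rw [if_pos hm'.1, if_pos ⟨htie, hm'.2⟩]
        have f2 : U2 m m' = (F m') ^ 2 := by
          simp only [hU2]
          rw [if_pos (by omega), if_pos ⟨by omega, by omega⟩]
        rw [f1, f2]
        nlinarith [sq_nonneg (F m - F m')]
      · have hlt : n < 2 * m.natAbs := by omega
        set w := om (2 * m.natAbs / n) with hw
        have hwp : 0 < w := om_pos' _
        have f1 : V m m' = b * w * (F m') ^ 2 := by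
          simp only [hV]
          rw [if_pos ⟨hlt, hdv⟩]
        have f2 : W m m' = 1 / (b * w) * (F m) ^ 2 := by
          simp only [hW]
          rw [if_pos ⟨hne, hdv, hle⟩, if_pos hlt]
        rw [f1, f2]
        have hbw : 0 < b * w := mul_pos hb hwp
        have hkey : 2 * (F m * F m') ≤ b * w * (F m') ^ 2 + 1 / (b * w) * (F m) ^ 2 := by
          have h0 : 0 ≤ 1 / (b * w) * (b * w * F m' - F m) ^ 2 := by positivity
          have h1 : 1 / (b * w) * (b * w * F m' - F m) ^ 2
              = b * w * (F m') ^ 2 - 2 * (F m * F m') + 1 / (b * w) * (F m) ^ 2 := by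
            field_simp
            ring
          rw [h1] at h0
          linarith
        linarith
    · have e1 : T m m' = 0 := by
        simp only [hT]
        rw [if_neg hd]
      rw [e1]
      linarith
  -- step 3: the sums
  have hsum : ∑ m ∈ I, ∑ m' ∈ I, 2 * T m m' ≤
      (∑ m ∈ I, ∑ m' ∈ I, U1 m m' + ∑ m ∈ I, ∑ m' ∈ I, U2 m m')
      + ∑ m ∈ I, ∑ m' ∈ I, V m m' + ∑ m ∈ I, ∑ m' ∈ I, W m m' := by
    rw [← Finset.sum_add_distrib, ← Finset.sum_add_distrib, ← Finset.sum_add_distrib]
    apply Finset.sum_le_sum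
    intro m _
    rw [← Finset.sum_add_distrib, ← Finset.sum_add_distrib, ← Finset.sum_add_distrib]
    apply Finset.sum_le_sum
    intro m' _
    exact hpt m m'
  have hUs : ∑ m ∈ I, ∑ m' ∈ I, U1 m m' + ∑ m ∈ I, ∑ m' ∈ I, U2 m m'
      ≤ ∑ m ∈ I, (if 2 * m.natAbs = n then (F m) ^ 2 else 0) := by
    have h1 : ∑ m ∈ I, ∑ m' ∈ I, U1 m m'
        ≤ ∑ m ∈ I, (if 2 * m.natAbs = n ∧ 0 < m then (F m) ^ 2 else 0) := by
      apply Finset.sum_le_sum
      intro m _
      simp only [hU1]
      rw [Finset.sum_ite_eq']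
      split_ifs
      · exact le_refl _
      · exact le_refl _
      · positivity
      · exact le_refl _
    have h2 : ∑ m ∈ I, ∑ m' ∈ I, U2 m m'
        ≤ ∑ m ∈ I, (if 2 * m.natAbs = n ∧ m < 0 then (F m) ^ 2 else 0) := by
      rw [Finset.sum_comm]
      apply Finset.sum_le_sum
      intro m _
      simp only [hU2]
      rw [Finset.sum_ite_eq']
      split_ifs
      · exact le_refl _
      · exact le_refl _
      · positivity
      · exact le_refl _
    refine (add_le_add h1 h2).trans ?_
    rw [← Finset.sum_add_distrib]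
    apply Finset.sum_le_sum
    intro m _
    by_cases h : 2 * m.natAbs = n
    · rw [if_pos h]
      rcases lt_trichotomy m 0 with hm | hm | hm
      · rw [if_neg (by omega), if_pos ⟨h, hm⟩]
        linarith
      · exfalso
        rw [hm] at h
        simp at h
        omega
      · rw [if_pos ⟨h, hm⟩, if_neg (by omega)]
        linarith
    · rw [if_neg h, if_neg (by tauto), if_neg (by tauto)]
      linarith
  have hVs : ∑ m ∈ I, ∑ m' ∈ I, V m m' ≤ b * ∑ m ∈ I, (F m) ^ 2 := by
    rw [Finset.sum_comm, Finset.mul_sum]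
    apply Finset.sum_le_sum
    intro m' _
    have h1 : ∑ m ∈ I, V m m' = (∑ m ∈ I.filter (fun m => n < 2 * m.natAbs ∧ (n : ℤ) ∣ m - m'),
        om (2 * m.natAbs / n)) * (b * (F m') ^ 2) := by
      rw [Finset.sum_mul, Finset.sum_filter]
      apply Finset.sum_congr rfl
      intro m _
      simp only [hV]
      split_ifs
      · ring
      · rfl
    rw [h1]
    have h2 : ∑ m ∈ I.filter (fun m => n < 2 * m.natAbs ∧ (n : ℤ) ∣ m - m'),
        om (2 * m.natAbs / n) ≤ 1 := by
      apply lev_sum n hn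
      · intro m hm
        exact (Finset.mem_filter.mp hm).2.1
      · intro x hx y hy
        have hx' := (Finset.mem_filter.mp hx).2.2
        have hy' := (Finset.mem_filter.mp hy).2.2
        have := dvd_sub hx' hy'
        rwa [sub_sub_sub_cancel_right] at this
    have h3 : 0 ≤ b * (F m') ^ 2 := by positivity
    nlinarith
  have hWs : ∑ m ∈ I, ∑ m' ∈ I, W m m' ≤ (1 / b) * ∑ m ∈ I, (if n < 2 * m.natAbs then
      ((2 * m.natAbs / n : ℕ) : ℝ) / om (2 * m.natAbs / n) * (F m) ^ 2 else 0) := by
    rw [Finset.mul_sum]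
    apply Finset.sum_le_sum
    intro m _
    simp only [hW]
    rw [← Finset.sum_filter, Finset.sum_const, nsmul_eq_mul]
    by_cases h : n < 2 * m.natAbs
    · rw [if_pos h, if_pos h]
      have hc := lo_card n hn I m
      have hc' : ((I.filter (fun m' => m' ≠ m ∧ (n : ℤ) ∣ m - m' ∧
          m'.natAbs ≤ m.natAbs)).card : ℝ) ≤ ((2 * m.natAbs / n : ℕ) : ℝ) := by
        exact_mod_cast hc
      have hwp := om_pos' (2 * m.natAbs / n)
      have h0 : 0 ≤ 1 / (b * om (2 * m.natAbs / n)) * (F m) ^ 2 := by positivity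
      have h1 := mul_le_mul_of_nonneg_right hc' h0
      refine h1.trans (le_of_eq ?_)
      field_simp
    · rw [if_neg h, if_neg h]
      simp
  rw [hS]
  linarith

end Pool.Agent.Helper83.SE
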