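import Pool.Agent.Helper83.SE.Defs

/-!
Project SE, module NumT: the tie weights.

`WW (2k) (7k)`: k = 1: 0.045637, k = 2: 0.019036, k = 3: 0.010108, k = 4: 0.005948, ...
In general, with `X = 4.665 (4k^2+5/42)/(7k+1)` (`2.5 k ≤ X + 0.5`, `X ≤ 2.67 k`) and
`m! ≥ √(2πm)(m/e)^m` (Mathlib Stirling) or `m! ≥ (m/e)^m`:
`(2.3376 (4k^2+5/42))^m/(m/e)^{2m} = (2.3376*4*e^2/49)^m (1+5/(168k^2))^m ≤ (1.41^m) e^{1/(k·...)}`
and `e^{-X} ≤ e^{-2.66 k + ...}`: `1.41003^7 = 11.08`, `e^{-2.6657} = 0.0695`: ratio `0.77` per step.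
-/

set_option autoImplicit false

open MeasureTheory Real Pool.Agent.Helper83.SD

namespace Pool.Agent.Helper83.SE

private theorem NumT_one : WW 2 7 ≤ 0.0498 := by
  unfold WW
  have h1 : (10.95 : ℝ) ≤ Real.exp 2.4 := by
    refine le_trans ?_ (Real.sum_le_exp_of_nonneg (by norm_num : (0 : ℝ) ≤ 2.4) 8)
    simp only [Finset.sum_range_succ, Finset.sum_range_zero, Nat.factorial]
    norm_num
  have h2 : Real.exp (-(4.665 * (((2 : ℕ) : ℝ) ^ 2 + 5 / 42) / (((7 : ℕ) : ℝ) + 1))) ≤ 0.0914 := by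
    have h3 : Real.exp (-(4.665 * (((2 : ℕ) : ℝ) ^ 2 + 5 / 42) / (((7 : ℕ) : ℝ) + 1))) ≤
        Real.exp (-2.4) := by
      apply Real.exp_le_exp.2
      norm_num
    refine h3.trans ?_
    rw [Real.exp_neg]
    have h4 : (Real.exp 2.4)⁻¹ ≤ (10.95 : ℝ)⁻¹ := inv_anti₀ (by norm_num) h1
    refine h4.trans ?_
    norm_num
  have h5 : (0 : ℝ) ≤ 4.6704 * ((2 : ℕ) : ℝ) * (2.3376 * (((2 : ℕ) : ℝ) ^ 2 + 5 / 42)) ^ 7 /
      (((7 : ℕ).factorial : ℝ) ^ 2) := by positivity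
  have h6 : (0 : ℝ) < ((7 : ℕ) : ℝ) + 1 - 4.665 * (((2 : ℕ) : ℝ) ^ 2 + 5 / 42) / (((7 : ℕ) : ℝ) + 1) := by
    norm_num
  rw [div_le_iff₀ h6]
  refine (mul_le_mul_of_nonneg_left h2 h5).trans ?_
  simp only [Nat.factorial]
  norm_num

private theorem NumT_fac (m : ℕ) :
    2 * π * (m : ℝ) * ((m : ℝ) / Real.exp 1) ^ (2 * m) ≤ (m.factorial : ℝ) ^ 2 := by
  have h1 := Stirling.le_factorial_stirling m
  have h2 : 0 ≤ √(2 * π * (m : ℝ)) * ((m : ℝ) / Real.exp 1) ^ m := by positivity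
  have h3 := pow_le_pow_left₀ h2 h1 2
  rw [mul_pow, Real.sq_sqrt (by positivity), ← pow_mul, mul_comm m 2] at h3
  exact h3

private theorem NumT_two (k : ℕ) (hk : 2 ≤ k) : WW (2 * k) (7 * k) ≤ 0.0498 := by
  have hk' : (2 : ℝ) ≤ (k : ℝ) := by exact_mod_cast hk
  have hk0 : (0 : ℝ) < (k : ℝ) := by linarith
  unfold WW
  push_cast
  set Q : ℝ := (2 * (k : ℝ)) ^ 2 + 5 / 42 with hQ
  set X : ℝ := 4.665 * Q / (7 * (k : ℝ) + 1) with hX
  have hQ0 : 0 < Q := by positivity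
  have h7 : (0 : ℝ) < 7 * (k : ℝ) + 1 := by positivity
  -- the exponential of 0.352
  have he1 : (1.4218 : ℝ) ≤ Real.exp 0.352 := by
    refine le_trans ?_ (Real.sum_le_exp_of_nonneg (by norm_num : (0 : ℝ) ≤ 0.352) 5)
    simp only [Finset.sum_range_succ, Finset.sum_range_zero, Nat.factorial]
    norm_num
  have he2 : Real.exp 1 ^ 2 ≤ 7.38907 := by
    have h1 := Real.exp_one_lt_d9
    have h2 : Real.exp 1 ^ 2 ≤ (2.7182818286 : ℝ) ^ 2 :=
      pow_le_pow_left₀ (Real.exp_pos 1).le h1.le 2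
    refine h2.trans ?_
    norm_num
  have he0 : 0 < Real.exp 1 := Real.exp_pos 1
  -- the base
  have hbase : 2.3376 * Q ≤ Real.exp 0.352 * (7 * (k : ℝ) / Real.exp 1) ^ 2 := by
    have h1 : 1.4218 * (49 * (k : ℝ) ^ 2) ≤ Real.exp 0.352 * (49 * (k : ℝ) ^ 2) :=
      mul_le_mul_of_nonneg_right he1 (by positivity)
    have h2 : 2.3376 * Q * Real.exp 1 ^ 2 ≤ 2.3376 * Q * 7.38907 :=
      mul_le_mul_of_nonneg_left he2 (by positivity)
    have h3 : 2.3376 * Q * 7.38907 ≤ 1.4218 * (49 * (k : ℝ) ^ 2) := by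
      rw [hQ]
      nlinarith
    rw [div_pow, ← mul_div_assoc, le_div_iff₀ (by positivity)]
    have h4 : Real.exp 0.352 * (7 * (k : ℝ)) ^ 2 = Real.exp 0.352 * (49 * (k : ℝ) ^ 2) := by ring
    rw [h4]
    linarith
  have hpow : (2.3376 * Q) ^ (7 * k) ≤
      Real.exp (0.352 * (7 * (k : ℝ))) * (7 * (k : ℝ) / Real.exp 1) ^ (2 * (7 * k)) := by
    have h1 := pow_le_pow_left₀ (by positivity : (0 : ℝ) ≤ 2.3376 * Q) hbase (7 * k)
    refine h1.trans (le_of_eq ?_)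
    rw [mul_pow, ← pow_mul, ← Real.exp_nat_mul]
    push_cast
    ring_nf
  have hfac := NumT_fac (7 * k)
  push_cast at hfac
  have hfacpos : (0 : ℝ) < (((7 * k).factorial : ℕ) : ℝ) ^ 2 := by positivity
  -- the quotient
  have hquot : (2.3376 * Q) ^ (7 * k) / (((7 * k).factorial : ℕ) : ℝ) ^ 2 ≤
      Real.exp (0.352 * (7 * (k : ℝ))) / (2 * π * (7 * (k : ℝ))) := by
    rw [div_le_div_iff₀ hfacpos (by positivity)]
    calc (2.3376 * Q) ^ (7 * k) * (2 * π * (7 * (k : ℝ)))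
        ≤ Real.exp (0.352 * (7 * (k : ℝ))) * (7 * (k : ℝ) / Real.exp 1) ^ (2 * (7 * k)) *
          (2 * π * (7 * (k : ℝ))) := mul_le_mul_of_nonneg_right hpow (by positivity)
      _ = Real.exp (0.352 * (7 * (k : ℝ))) *
          (2 * π * (7 * (k : ℝ)) * (7 * (k : ℝ) / Real.exp 1) ^ (2 * (7 * k))) := by ring
      _ ≤ Real.exp (0.352 * (7 * (k : ℝ))) * (((7 * k).factorial : ℕ) : ℝ) ^ 2 :=
          mul_le_mul_of_nonneg_left hfac (Real.exp_pos _).le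
  -- X
  have hX1 : 0.352 * (7 * (k : ℝ)) ≤ X := by
    rw [hX, le_div_iff₀ h7, hQ]
    nlinarith
  have hX2 : X ≤ 7 * (k : ℝ) + 1 - 5 := by
    rw [hX, div_le_iff₀ h7, hQ]
    nlinarith
  have hden : (0 : ℝ) < 7 * (k : ℝ) + 1 - X := by linarith
  rw [div_le_iff₀ hden]
  have h1 : 4.6704 * (2 * (k : ℝ)) * (2.3376 * Q) ^ (7 * k) / (((7 * k).factorial : ℕ) : ℝ) ^ 2 *
      Real.exp (-X) ≤ 4.6704 * (2 * (k : ℝ)) * (Real.exp (0.352 * (7 * (k : ℝ))) /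
        (2 * π * (7 * (k : ℝ)))) * Real.exp (-X) := by
    apply mul_le_mul_of_nonneg_right _ (Real.exp_pos _).le
    rw [mul_div_assoc]
    exact mul_le_mul_of_nonneg_left hquot (by positivity)
  have h2 : 4.6704 * (2 * (k : ℝ)) * (Real.exp (0.352 * (7 * (k : ℝ))) /
        (2 * π * (7 * (k : ℝ)))) * Real.exp (-X) =
      4.6704 / (7 * π) * Real.exp (0.352 * (7 * (k : ℝ)) - X) := by
    rw [sub_eq_add_neg, Real.exp_add]
    field_simp
  have h3 : Real.exp (0.352 * (7 * (k : ℝ)) - X) ≤ 1 := by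
    apply Real.exp_le_one_iff.2
    linarith
  have h4 : 4.6704 / (7 * π) ≤ 0.249 := by
    rw [div_le_iff₀ (by positivity)]
    nlinarith [Real.pi_gt_three]
  have h5 : 4.6704 / (7 * π) * Real.exp (0.352 * (7 * (k : ℝ)) - X) ≤ 0.249 := by
    have h6 : 0 ≤ 4.6704 / (7 * π) := by positivity
    calc 4.6704 / (7 * π) * Real.exp (0.352 * (7 * (k : ℝ)) - X)
        ≤ 4.6704 / (7 * π) * 1 := mul_le_mul_of_nonneg_left h3 h6
      _ ≤ 0.249 := by rw [mul_one]; exact h4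
  have h6 : (0.249 : ℝ) ≤ 0.0498 * (7 * (k : ℝ) + 1 - X) := by nlinarith
  linarith [h1, h2, h5, h6]

theorem tie_num (k : ℕ) (hk : 1 ≤ k) : WW (2 * k) (7 * k) ≤ 0.0498 := by
  rcases hk.eq_or_lt with h | h
  · rw [← h]
    exact NumT_one
  · exact NumT_two k h

end Pool.Agent.Helper83.SE
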