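import Pool.Agent.Helper83.SE.Defs

/-!
Project SE, module NumV: the aliasing weights of the inner rings.

The sum over `j` with `7j < 2m` of `(κ/om κ) WW j m`, `κ = 2m/(7j)` (floor).  Values: m = 4: 0.035563,
5: 0.003415, 6: 0.00023, 7: 0.000874, 8: 0.00773, 9: 0.000964, 10: 0.0001, 11: 0.013059, 12: 0.002206,
15: 0.004061, 18: 0.006761, 22: 0.0024, 25: 0.0039, 29: 0.0015, ...; the term of `j` with
`7j < 2m < 14 j` (κ = 1) is dominant.  General bound: `m! ≥ (m/e)^m √(2πm)`, `ρ = 3.0579 j/m`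
(`4*2.3376 j^2 = (3.0579 j)^2`), `WW j m ≤ 4.6704 j/(2π m (m+1-X)) *
exp(m (2 + 2 log(ρ/2) - ρ^2/2) + small)`; for `7j < 2m` the exponent is `≤ -0.037 m`, and it drops by
more than 4 when `j` decreases by 1, while the weights `κ/om κ` grow by at most a factor 80 (κ = 1 to
2) and then 3 per step of κ.
-/

set_option autoImplicit false

open MeasureTheory Real Pool.Agent.Helper83.SD

namespace Pool.Agent.Helper83.SE

theorem exp_ub {x : ℝ} (h0 : 0 ≤ x) (h1 : x ≤ 1) :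
    Real.exp x ≤ 1 + x + x ^ 2 / 2 + x ^ 3 / 6 + x ^ 4 * (5 / 96) := by
  have h := Real.exp_bound' h0 h1 (n := 4) (by norm_num)
  simp only [Finset.sum_range_succ, Finset.sum_range_zero, Nat.factorial] at h
  norm_num at h
  linarith

theorem aa_le {j m : ℕ} (h : 7 * j < 2 * m) :
    (j : ℝ) ^ 2 + 5 / 42 ≤ 4 / 49 * ((m : ℝ) ^ 2 - m + 1.7084) := by
  have h1 : (7 : ℝ) * j + 1 ≤ 2 * m := by exact_mod_cast h
  have h0 : (0 : ℝ) ≤ j := Nat.cast_nonneg j
  nlinarith [mul_nonneg (by linarith : (0 : ℝ) ≤ 2 * m - 1 - 7 * j)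
    (by linarith : (0 : ℝ) ≤ 2 * m - 1 + 7 * j)]

theorem WW_nonneg {j m : ℕ} (h : 4.665 * ((j : ℝ) ^ 2 + 5 / 42) / ((m : ℝ) + 1) ≤ m) :
    0 ≤ WW j m := by
  unfold WW
  have h1 : 0 ≤ (m : ℝ) + 1 - 4.665 * ((j : ℝ) ^ 2 + 5 / 42) / ((m : ℝ) + 1) := by linarith
  positivity

theorem om_pos (k : ℕ) : 0 < om k := by
  unfold om
  split_ifs
  · norm_num
  · positivity

/-- the step in `m` -/
theorem WW_step {j m : ℕ} {r E : ℝ} (h : 7 * j < 2 * m)
    (hr : 2.3376 * ((j : ℝ) ^ 2 + 5 / 42) ≤ r * ((m : ℝ) + 1) ^ 2)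
    (hE : Real.exp (4.665 * ((j : ℝ) ^ 2 + 5 / 42) / (((m : ℝ) + 1) * ((m : ℝ) + 2))) ≤ E) :
    WW j (m + 1) ≤ r * E * WW j m := by
  have ha := aa_le h
  have hj : (0 : ℝ) ≤ j := Nat.cast_nonneg j
  have hm : (0 : ℝ) ≤ m := Nat.cast_nonneg m
  have hm1 : (1 : ℝ) ≤ m := by
    have : 1 ≤ m := by omega
    exact_mod_cast this
  unfold WW
  set a : ℝ := (j : ℝ) ^ 2 + 5 / 42 with hadef
  have ha0 : 0 < a := by positivity
  have hy : 4.665 * a / ((m : ℝ) + 1) ≤ m := by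
    rw [div_le_iff₀ (by positivity)]
    nlinarith
  have hy' : 4.665 * a / ((m : ℝ) + 1 + 1) ≤ 4.665 * a / ((m : ℝ) + 1) := by
    apply div_le_div_of_nonneg_left (by positivity) (by positivity) (by linarith)
  rw [Nat.factorial_succ]
  push_cast
  have e1 : Real.exp (-(4.665 * a / ((m : ℝ) + 1 + 1))) =
      Real.exp (-(4.665 * a / ((m : ℝ) + 1))) *
        Real.exp (4.665 * a / (((m : ℝ) + 1) * ((m : ℝ) + 2))) := by
    rw [← Real.exp_add]
    congr 1
    field_simp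
    ring
  rw [e1]
  set x := Real.exp (-(4.665 * a / ((m : ℝ) + 1))) with hx
  set y := Real.exp (4.665 * a / (((m : ℝ) + 1) * ((m : ℝ) + 2))) with hyd
  have hx0 : 0 < x := Real.exp_pos _
  have hy0 : 0 < y := Real.exp_pos _
  have hD : 0 < (m : ℝ) + 1 - 4.665 * a / ((m : ℝ) + 1) := by linarith
  have hD' : (m : ℝ) + 1 - 4.665 * a / ((m : ℝ) + 1) ≤
      (m : ℝ) + 1 + 1 - 4.665 * a / ((m : ℝ) + 1 + 1) := by linarith
  have hf : (0 : ℝ) < (m.factorial : ℝ) := by exact_mod_cast Nat.factorial_pos m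
  have hr2 : 2.3376 * a / ((m : ℝ) + 1) ^ 2 ≤ r := by
    rw [div_le_iff₀ (by positivity)]
    exact hr
  have hr0 : 0 ≤ r := le_trans (by positivity) hr2
  calc 4.6704 * (j : ℝ) * (2.3376 * a) ^ (m + 1) / ((((m : ℝ) + 1) * (m.factorial : ℝ)) ^ 2) *
        (x * y) / ((m : ℝ) + 1 + 1 - 4.665 * a / ((m : ℝ) + 1 + 1))
      ≤ 4.6704 * (j : ℝ) * (2.3376 * a) ^ (m + 1) / ((((m : ℝ) + 1) * (m.factorial : ℝ)) ^ 2) *
        (x * y) / ((m : ℝ) + 1 - 4.665 * a / ((m : ℝ) + 1)) := by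
        gcongr
    _ = (2.3376 * a / ((m : ℝ) + 1) ^ 2) * y *
        (4.6704 * (j : ℝ) * (2.3376 * a) ^ m / ((m.factorial : ℝ) ^ 2) * x /
          ((m : ℝ) + 1 - 4.665 * a / ((m : ℝ) + 1))) := by
        rw [pow_succ]
        field_simp
    _ ≤ _ := by
        gcongr

theorem step_gen {j m : ℕ} (h : 7 * j < 2 * m) : WW j (m + 1) ≤ 0.28 * WW j m := by
  have ha := aa_le h
  have hm1 : (1 : ℝ) ≤ m := by
    have : 1 ≤ m := by omega
    exact_mod_cast this
  have h0 : 0 ≤ WW j m := by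
    apply WW_nonneg
    rw [div_le_iff₀ (by positivity)]
    nlinarith
  have h1 := WW_step (j := j) (m := m) (r := 0.19083) (E := 1.4639) h (by nlinarith) (by
    have hx : 4.665 * ((j : ℝ) ^ 2 + 5 / 42) / (((m : ℝ) + 1) * ((m : ℝ) + 2)) ≤ 0.381 := by
      rw [div_le_iff₀ (by positivity)]
      nlinarith
    refine (Real.exp_le_exp.mpr hx).trans ?_
    refine (exp_ub (by norm_num) (by norm_num)).trans ?_
    norm_num)
  refine h1.trans ?_
  apply mul_le_mul_of_nonneg_right _ h0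
  norm_num

theorem step_one {m : ℕ} (h : 4 ≤ m) : WW 1 (m + 1) ≤ 0.125 * WW 1 m := by
  have hm : (4 : ℝ) ≤ m := by exact_mod_cast h
  have h0 : 0 ≤ WW 1 m := by
    apply WW_nonneg
    rw [div_le_iff₀ (by positivity)]
    push_cast
    nlinarith
  have h1 := WW_step (j := 1) (m := m) (r := 0.10464) (E := 1.1902) (by omega) (by
    push_cast
    nlinarith) (by
    have hx : 4.665 * (((1 : ℕ) : ℝ) ^ 2 + 5 / 42) / (((m : ℝ) + 1) * ((m : ℝ) + 2)) ≤
        0.17402 := by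
      rw [div_le_iff₀ (by positivity)]
      push_cast
      nlinarith
    refine (Real.exp_le_exp.mpr hx).trans ?_
    refine (exp_ub (by norm_num) (by norm_num)).trans ?_
    norm_num)
  refine h1.trans ?_
  apply mul_le_mul_of_nonneg_right _ h0
  norm_num

theorem WW_one_four : WW 1 4 ≤ 0.035 := by
  unfold WW
  have h1 : Real.exp (-(4.665 * (((1 : ℕ) : ℝ) ^ 2 + 5 / 42) / (((4 : ℕ) : ℝ) + 1))) ≤ 0.3525 := by
    have e : (1 : ℝ) + 0.044 ≤ (4.665 * (((1 : ℕ) : ℝ) ^ 2 + 5 / 42) / (((4 : ℕ) : ℝ) + 1)) := by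
      norm_num
    have h2 : Real.exp 1 * (1 + 0.044) ≤ Real.exp (1 + 0.044) := by
      rw [Real.exp_add]
      apply mul_le_mul_of_nonneg_left _ (Real.exp_pos 1).le
      have := Real.add_one_le_exp (0.044 : ℝ)
      linarith
    have h3 := Real.exp_one_gt_d9
    have h4 : (2.8374 : ℝ) ≤ Real.exp (1 + 0.044) := by
      refine le_trans ?_ h2
      nlinarith
    calc Real.exp (-(4.665 * (((1 : ℕ) : ℝ) ^ 2 + 5 / 42) / (((4 : ℕ) : ℝ) + 1)))
        ≤ Real.exp (-(1 + 0.044)) := Real.exp_le_exp.mpr (by linarith)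
      _ = (Real.exp (1 + 0.044))⁻¹ := Real.exp_neg _
      _ ≤ (2.8374 : ℝ)⁻¹ := by gcongr
      _ ≤ 0.3525 := by norm_num
  have h2 : (0 : ℝ) ≤ 4.6704 * (((1 : ℕ) : ℝ)) * (2.3376 * ((((1 : ℕ) : ℝ)) ^ 2 + 5 / 42)) ^ 4 /
      (((4 : ℕ).factorial : ℝ) ^ 2) := by positivity
  have h3 : (0 : ℝ) < (((4 : ℕ) : ℝ)) + 1 -
      4.665 * ((((1 : ℕ) : ℝ)) ^ 2 + 5 / 42) / ((((4 : ℕ) : ℝ)) + 1) := by norm_num
  rw [div_le_iff₀ h3]
  refine (mul_le_mul_of_nonneg_left h1 h2).trans ?_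
  norm_num [Nat.factorial]

theorem exp_344 : 2.3376 * (4 / 49) * Real.exp 1 ^ 2 ≤ Real.exp 0.344 := by
  have h := Real.sum_le_exp_of_nonneg (x := 0.344) (by norm_num) 5
  simp only [Finset.sum_range_succ, Finset.sum_range_zero, Nat.factorial] at h
  norm_num at h
  have h1 := Real.exp_one_lt_d9
  have h0 := Real.exp_pos 1
  have h2 : Real.exp 1 ^ 2 ≤ 7.3891 := by nlinarith
  have e : (0.344 : ℝ) = 43 / 125 := by norm_num
  rw [e]
  refine le_trans ?_ h
  nlinarith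

theorem exp_neg3 : Real.exp (-0.3) ≤ 0.741 := by
  have h := Real.sum_le_exp_of_nonneg (x := 0.3) (by norm_num) 5
  simp only [Finset.sum_range_succ, Finset.sum_range_zero, Nat.factorial] at h
  norm_num at h
  rw [Real.exp_neg]
  rw [inv_le_comm₀ (Real.exp_pos _) (by norm_num)]
  refine le_trans ?_ (le_trans h (le_of_eq (by norm_num)))
  norm_num

theorem WW_small {j m : ℕ} (hm : 8 ≤ m) (h : 7 * j < 2 * m) : WW j m ≤ 0.025 := by
  have ha := aa_le h
  have hm8 : (8 : ℝ) ≤ m := by exact_mod_cast hm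
  have hj : (0 : ℝ) ≤ j := Nat.cast_nonneg j
  have hj2 : (7 : ℝ) * j ≤ 2 * m := by exact_mod_cast h.le
  have hf : (0 : ℝ) < (m.factorial : ℝ) := by exact_mod_cast Nat.factorial_pos m
  have hst := Stirling.le_factorial_stirling m
  unfold WW
  set a : ℝ := (j : ℝ) ^ 2 + 5 / 42 with hadef
  have ha0 : 0 < a := by positivity
  set P : ℝ := ((m : ℝ) / Real.exp 1) ^ m with hP
  have hP0 : 0 < P := by positivity
  have hst2 : 2 * π * m * P ^ 2 ≤ (m.factorial : ℝ) ^ 2 := by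
    have h1 : (√(2 * π * m) * P) ^ 2 ≤ (m.factorial : ℝ) ^ 2 := by
      apply pow_le_pow_left₀ (by positivity) hst
    rw [mul_pow, Real.sq_sqrt (by positivity)] at h1
    exact h1
  set b : ℝ := 49 / 4 * a / (m : ℝ) ^ 2 with hb
  have hb0 : 0 < b := by positivity
  have hab : a = 4 / 49 * b * (m : ℝ) ^ 2 := by
    rw [hb]
    field_simp
  -- power bound
  have hpow : (2.3376 * a) ^ m ≤ Real.exp ((m : ℝ) * (0.344 + (b - 1))) * P ^ 2 := by
    have e1 : Real.exp ((m : ℝ) * (0.344 + (b - 1))) * P ^ 2 =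
        (Real.exp (0.344 + (b - 1)) * ((m : ℝ) / Real.exp 1) ^ 2) ^ m := by
      rw [mul_pow, ← Real.exp_nat_mul, hP, ← pow_mul, ← pow_mul, mul_comm m 2]
    rw [e1]
    apply pow_le_pow_left₀ (by positivity)
    have h1 : b ≤ Real.exp (b - 1) := by
      have := Real.add_one_le_exp (b - 1)
      linarith
    have h2 := exp_344
    have h0 := Real.exp_pos 1
    have hA : 2.3376 * a = 2.3376 * (4 / 49 * b * (m : ℝ) ^ 2) := by rw [← hab]
    rw [hA, Real.exp_add, div_pow, ← mul_div_assoc (Real.exp 0.344 * Real.exp (b - 1)),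
      le_div_iff₀ (by positivity)]
    have h3 : 2.3376 * (4 / 49) * Real.exp 1 ^ 2 * b ≤ Real.exp 0.344 * Real.exp (b - 1) :=
      mul_le_mul h2 h1 hb0.le (Real.exp_pos _).le
    have h4 := mul_le_mul_of_nonneg_right h3 (by positivity : (0 : ℝ) ≤ (m : ℝ) ^ 2)
    calc 2.3376 * (4 / 49 * b * (m : ℝ) ^ 2) * Real.exp 1 ^ 2
        = 2.3376 * (4 / 49) * Real.exp 1 ^ 2 * b * (m : ℝ) ^ 2 := by ring
      _ ≤ _ := h4
  set y : ℝ := 4.665 * a / ((m : ℝ) + 1) with hy
  have hy2 : y ≤ m - 1.442 := by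
    rw [hy, div_le_iff₀ (by positivity)]
    nlinarith
  have hy1 : y + 6.55 ≤ (m : ℝ) + 1 := by
    rw [hy]
    have : 4.665 * a / ((m : ℝ) + 1) ≤ (m : ℝ) + 1 - 6.55 := by
      rw [div_le_iff₀ (by positivity)]
      nlinarith
    linarith
  -- exponent
  have hE : (m : ℝ) * (0.344 + (b - 1)) - y ≤ -0.3 := by
    have h1 : (m : ℝ) * b = 49 / 4 * a / m := by
      rw [hb]
      field_simp
    have h2 : (m : ℝ) * (0.344 + (b - 1)) - y =
        -0.656 * m + a * (49 / 4 / m - 4.665 / ((m : ℝ) + 1)) := by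
      rw [mul_add, mul_sub, h1, hy]
      field_simp
      ring
    rw [h2]
    have h3 : 0 ≤ 49 / 4 / (m : ℝ) - 4.665 / ((m : ℝ) + 1) := by
      rw [sub_nonneg, div_le_div_iff₀ (by positivity) (by positivity)]
      nlinarith
    have h4 : a * (49 / 4 / (m : ℝ) - 4.665 / ((m : ℝ) + 1)) ≤
        4 / 49 * ((m : ℝ) ^ 2 - m + 1.7084) * (49 / 4 / (m : ℝ) - 4.665 / ((m : ℝ) + 1)) :=
      mul_le_mul_of_nonneg_right ha h3
    have h5 : 4 / 49 * ((m : ℝ) ^ 2 - m + 1.7084) * (49 / 4 / (m : ℝ) - 4.665 / ((m : ℝ) + 1)) ≤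
        0.656 * m - 0.3 := by
      have e : 4 / 49 * ((m : ℝ) ^ 2 - m + 1.7084) *
          (49 / 4 / (m : ℝ) - 4.665 / ((m : ℝ) + 1)) =
          4 / 49 * ((m : ℝ) ^ 2 - m + 1.7084) * (49 / 4 * ((m : ℝ) + 1) - 4.665 * m) /
            ((m : ℝ) * ((m : ℝ) + 1)) := by
        field_simp
      rw [e, div_le_iff₀ (by positivity)]
      nlinarith [mul_nonneg (by linarith : (0 : ℝ) ≤ (m : ℝ) - 8)
        (by positivity : (0 : ℝ) ≤ (m : ℝ) ^ 2), sq_nonneg ((m : ℝ) - 8)]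
    linarith
  have hD : 0 < (m : ℝ) + 1 - y := by linarith
  have hD' : 6.55 ≤ (m : ℝ) + 1 - y := by linarith
  have hpi := Real.pi_gt_d2
  calc 4.6704 * (j : ℝ) * (2.3376 * a) ^ m / (m.factorial : ℝ) ^ 2 * Real.exp (-y) /
        ((m : ℝ) + 1 - y)
      ≤ 4.6704 * (j : ℝ) * (Real.exp ((m : ℝ) * (0.344 + (b - 1))) * P ^ 2) /
          (2 * π * m * P ^ 2) * Real.exp (-y) / 6.55 := by
        gcongr
    _ = 4.6704 * (j : ℝ) / (2 * π * m) * Real.exp ((m : ℝ) * (0.344 + (b - 1)) - y) / 6.55 := by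
        rw [sub_eq_add_neg _ y, Real.exp_add]
        field_simp
    _ ≤ 4.6704 * (j : ℝ) / (2 * π * m) * 0.741 / 6.55 := by
        have := (Real.exp_le_exp.mpr hE).trans exp_neg3
        gcongr
    _ ≤ 0.2127 * 0.741 / 6.55 := by
        have : 4.6704 * (j : ℝ) / (2 * π * m) ≤ 0.2127 := by
          rw [div_le_iff₀ (by positivity)]
          nlinarith
        gcongr
    _ ≤ 0.025 := by norm_num

theorem WW_pos' {j m : ℕ} (h : 7 * j < 2 * m) : 0 ≤ WW j m := by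
  have ha := aa_le h
  have hm1 : (1 : ℝ) ≤ m := by
    have : 1 ≤ m := by omega
    exact_mod_cast this
  apply WW_nonneg
  rw [div_le_iff₀ (by positivity)]
  nlinarith

theorem WW_iter {j m : ℕ} (h : 7 * j < 2 * m) (n : ℕ) : WW j (m + n) ≤ 0.28 ^ n * WW j m := by
  induction n with
  | zero => simp
  | succ n ih =>
    have h1 := step_gen (j := j) (m := m + n) (by omega)
    calc WW j (m + (n + 1)) ≤ 0.28 * WW j (m + n) := h1
      _ ≤ 0.28 * (0.28 ^ n * WW j m) := by gcongr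
      _ = _ := by rw [pow_succ]; ring

theorem WW_one_iter (n : ℕ) : WW 1 (4 + n) ≤ 0.125 ^ n * 0.035 := by
  induction n with
  | zero => simpa using WW_one_four
  | succ n ih =>
    have h1 := step_one (m := 4 + n) (by omega)
    calc WW 1 (4 + (n + 1)) ≤ 0.125 * WW 1 (4 + n) := h1
      _ ≤ 0.125 * (0.125 ^ n * 0.035) := by gcongr
      _ = _ := by rw [pow_succ]; ring

theorem om_ratio {k : ℕ} (hk : 2 ≤ k) : (k : ℝ) / om k = 10 * k * 2 ^ k := by
  unfold om
  rw [if_neg (by omega)]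
  field_simp
  norm_num

theorem om_grow {k : ℕ} (hk : 2 ≤ k) : (10 : ℝ) * k * 2 ^ k ≤ 1.053 * 2.07 ^ (7 * k - 8) := by
  induction k, hk using Nat.le_induction with
  | base => norm_num
  | succ n hn ih =>
    have hn' : (2 : ℝ) ≤ n := by exact_mod_cast hn
    have e : 7 * (n + 1) - 8 = (7 * n - 8) + 7 := by omega
    rw [e, pow_add (2.07 : ℝ)]
    have h7 : (3 : ℝ) ≤ 2.07 ^ 7 := by norm_num
    have hp : (0 : ℝ) < 2 ^ n := by positivity
    have hq : (0 : ℝ) < 2.07 ^ (7 * n - 8) := by positivity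
    calc (10 : ℝ) * ((n + 1 : ℕ) : ℝ) * 2 ^ (n + 1) = 10 * ((n : ℝ) + 1) * 2 * 2 ^ n := by
          push_cast
          ring
      _ ≤ 3 * (10 * n * 2 ^ n) := by nlinarith
      _ ≤ 3 * (1.053 * 2.07 ^ (7 * n - 8)) := by linarith
      _ ≤ 2.07 ^ 7 * (1.053 * 2.07 ^ (7 * n - 8)) := by gcongr
      _ = _ := by ring

theorem om_grow4 {k : ℕ} (hk : 2 ≤ k) : (10 : ℝ) * k * 2 ^ k ≤ 5 * 4 ^ k := by
  induction k, hk using Nat.le_induction with
  | base => norm_num
  | succ n hn ih =>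
    have hn' : (2 : ℝ) ≤ n := by exact_mod_cast hn
    have hp : (0 : ℝ) < 2 ^ n := by positivity
    have hq : (0 : ℝ) < (4 : ℝ) ^ n := by positivity
    calc (10 : ℝ) * ((n + 1 : ℕ) : ℝ) * 2 ^ (n + 1) = 10 * ((n : ℝ) + 1) * 2 * 2 ^ n := by
          push_cast
          ring
      _ ≤ 4 * (10 * n * 2 ^ n) := by nlinarith
      _ ≤ 4 * (5 * 4 ^ n) := by linarith
      _ = _ := by rw [pow_succ]; ring

/-- the term of `j ≥ 2` -/
theorem term_ge {j m : ℕ} (hj : 2 ≤ j) (h : 7 * j < 2 * m) :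
    ((2 * m / (7 * j) : ℕ) : ℝ) / om (2 * m / (7 * j)) * WW j m ≤
      0.026325 * 0.195 ^ ((2 * m - 1) / 7 - j) := by
  obtain ⟨n, hn⟩ : ∃ n, m = (7 * j / 2 + 1) + n := ⟨m - (7 * j / 2 + 1), by omega⟩
  have h1 := WW_iter (j := j) (m := 7 * j / 2 + 1) (by omega) n
  rw [← hn] at h1
  have h2 := WW_small (j := j) (m := 7 * j / 2 + 1) (by omega) (by omega)
  have h3 : WW j m ≤ 0.28 ^ n * 0.025 := h1.trans (by gcongr)
  have h0 := WW_pos' h
  set k := 2 * m / (7 * j) with hk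
  have hk1 : 1 ≤ k := by
    rw [hk, Nat.one_le_div_iff (by omega)]
    exact h.le
  have hkm : k * (7 * j) ≤ 2 * m := Nat.div_mul_le_self _ _
  have hw : (k : ℝ) / om k ≤ 1.053 * 2.07 ^ n := by
    rcases Nat.lt_or_ge k 2 with hlt | hge
    · have hk1' : k = 1 := by omega
      rw [hk1']
      have : (1 : ℝ) ≤ 2.07 ^ n := one_le_pow₀ (by norm_num)
      unfold om
      rw [if_pos rfl]
      norm_num at this ⊢
      linarith
    · rw [om_ratio hge]
      refine (om_grow hge).trans ?_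
      have hkn : 7 * k - 8 ≤ n := by
        obtain ⟨d, hd⟩ : ∃ d, j = 2 + d := ⟨j - 2, by omega⟩
        obtain ⟨e, he⟩ : ∃ e, k = 2 + e := ⟨k - 2, by omega⟩
        have h8 : k * (7 * j) = 7 * (4 + 2 * e + 2 * d + d * e) := by
          rw [hd, he]
          ring
        rw [h8] at hkm
        have h9 : 0 ≤ d * e := Nat.zero_le _
        omega
      have : (2.07 : ℝ) ^ (7 * k - 8) ≤ 2.07 ^ n := pow_le_pow_right₀ (by norm_num) hkn
      linarith
  have hw0 : 0 ≤ (k : ℝ) / om k := by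
    have := om_pos k
    positivity
  have hn3 : 3 * ((2 * m - 1) / 7 - j) ≤ n := by omega
  calc (k : ℝ) / om k * WW j m ≤ (1.053 * 2.07 ^ n) * (0.28 ^ n * 0.025) := by gcongr
    _ = 0.026325 * 0.5796 ^ n := by
        have : (0.5796 : ℝ) = 2.07 * 0.28 := by norm_num
        rw [this, mul_pow]
        ring
    _ ≤ 0.026325 * 0.5796 ^ (3 * ((2 * m - 1) / 7 - j)) := by
        have : (0.5796 : ℝ) ^ n ≤ 0.5796 ^ (3 * ((2 * m - 1) / 7 - j)) :=
          pow_le_pow_of_le_one (by norm_num) (by norm_num) hn3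
        linarith
    _ ≤ 0.026325 * 0.195 ^ ((2 * m - 1) / 7 - j) := by
        rw [pow_mul]
        have : ((0.5796 : ℝ) ^ 3) ^ ((2 * m - 1) / 7 - j) ≤ 0.195 ^ ((2 * m - 1) / 7 - j) :=
          pow_le_pow_left₀ (by norm_num) (by norm_num) _
        linarith

/-- the term of `j = 1`, `m ≥ 8` -/
theorem term_one {m : ℕ} (hm : 8 ≤ m) :
    ((2 * m / (7 * 1) : ℕ) : ℝ) / om (2 * m / (7 * 1)) * WW 1 m ≤ 0.0007 := by
  obtain ⟨n, hn⟩ : ∃ n, m = 4 + n := ⟨m - 4, by omega⟩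
  have h3 := WW_one_iter n
  rw [← hn] at h3
  have h0 := WW_pos' (j := 1) (m := m) (by omega)
  set k := 2 * m / (7 * 1) with hk
  have hk1 : 2 ≤ k := by omega
  have hkn : 2 * k ≤ n := by omega
  rw [om_ratio hk1]
  have hg := om_grow4 hk1
  calc 10 * (k : ℝ) * 2 ^ k * WW 1 m ≤ (5 * 4 ^ k) * (0.125 ^ n * 0.035) := by gcongr
    _ ≤ (5 * 4 ^ k) * (0.125 ^ (2 * k) * 0.035) := by
        have : (0.125 : ℝ) ^ n ≤ 0.125 ^ (2 * k) :=
          pow_le_pow_of_le_one (by norm_num) (by norm_num) hkn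
        gcongr
    _ = 0.175 * (4 * 0.125 ^ 2) ^ k := by
        rw [pow_mul, mul_pow]
        ring
    _ ≤ 0.175 * (4 * 0.125 ^ 2) ^ 2 := by
        have : ((4 : ℝ) * 0.125 ^ 2) ^ k ≤ (4 * 0.125 ^ 2) ^ 2 :=
          pow_le_pow_of_le_one (by norm_num) (by norm_num) hk1
        linarith
    _ ≤ 0.0007 := by norm_num

theorem geo_sum (J : ℕ) : ∑ j ∈ Finset.range (J + 1), (0.195 : ℝ) ^ (J - j) ≤ 1.2423 := by
  have h1 : ∑ j ∈ Finset.range (J + 1), (0.195 : ℝ) ^ (J - j) =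
      ∑ i ∈ Finset.range (J + 1), (0.195 : ℝ) ^ i := by
    rw [← Finset.sum_range_reflect]
    apply Finset.sum_congr rfl
    intro i hi
    rw [Finset.mem_range] at hi
    congr 1
    omega
  rw [h1, geom_sum_eq (by norm_num)]
  have h2 : (0 : ℝ) ≤ 0.195 ^ (J + 1) := by positivity
  rw [div_le_iff_of_neg (by norm_num)]
  have h3 : (1.2423 : ℝ) * (0.195 - 1) ≤ -1 := by norm_num
  linarith

theorem V_num (m : ℕ) (hm : 4 ≤ m) :
    ∑ j ∈ (Finset.Icc 1 m).filter (fun j => 7 * j < 2 * m),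
      ((2 * m / (7 * j) : ℕ) : ℝ) / om (2 * m / (7 * j)) * WW j m ≤ 0.0398 := by
  rcases Nat.lt_or_ge m 8 with h8 | h8
  · have e : (Finset.Icc 1 m).filter (fun j => 7 * j < 2 * m) = {1} := by
      ext j
      simp only [Finset.mem_filter, Finset.mem_Icc, Finset.mem_singleton]
      omega
    rw [e, Finset.sum_singleton]
    have h0 := WW_pos' (j := 1) (m := m) (by omega)
    obtain ⟨n, hn⟩ : ∃ n, m = 4 + n := ⟨m - 4, by omega⟩
    have h3 := WW_one_iter n
    rw [← hn] at h3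
    have hcase : n = 0 ∨ n = 1 ∨ n = 2 ∨ n = 3 := by omega
    rcases hcase with hc | hc | hc | hc
    · subst hc
      subst hn
      norm_num [om] at h3 ⊢
      linarith
    · subst hc
      subst hn
      norm_num [om] at h3 ⊢
      linarith
    · subst hc
      subst hn
      norm_num [om] at h3 ⊢
      linarith
    · subst hc
      subst hn
      norm_num [om] at h3 ⊢
      linarith
  · have hsub : (Finset.Icc 1 m).filter (fun j => 7 * j < 2 * m) ⊆
        insert 1 ((Finset.range ((2 * m - 1) / 7 + 1)).filter (fun j => 2 ≤ j)) := by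
      intro j hj
      simp only [Finset.mem_filter, Finset.mem_Icc, Finset.mem_insert, Finset.mem_range] at hj ⊢
      omega
    have hnn : ∀ j, 7 * j < 2 * m →
        0 ≤ ((2 * m / (7 * j) : ℕ) : ℝ) / om (2 * m / (7 * j)) * WW j m := by
      intro j hj
      have := om_pos (2 * m / (7 * j))
      have := WW_pos' hj
      positivity
    calc ∑ j ∈ (Finset.Icc 1 m).filter (fun j => 7 * j < 2 * m),
          ((2 * m / (7 * j) : ℕ) : ℝ) / om (2 * m / (7 * j)) * WW j m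
        ≤ ∑ j ∈ insert 1 ((Finset.range ((2 * m - 1) / 7 + 1)).filter (fun j => 2 ≤ j)),
          ((2 * m / (7 * j) : ℕ) : ℝ) / om (2 * m / (7 * j)) * WW j m := by
          apply Finset.sum_le_sum_of_subset_of_nonneg hsub
          intro j hj _
          apply hnn
          simp only [Finset.mem_filter, Finset.mem_insert, Finset.mem_range] at hj
          omega
      _ = ((2 * m / (7 * 1) : ℕ) : ℝ) / om (2 * m / (7 * 1)) * WW 1 m +
          ∑ j ∈ (Finset.range ((2 * m - 1) / 7 + 1)).filter (fun j => 2 ≤ j),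
          ((2 * m / (7 * j) : ℕ) : ℝ) / om (2 * m / (7 * j)) * WW j m := by
          rw [Finset.sum_insert]
          simp
      _ ≤ 0.0007 + ∑ j ∈ (Finset.range ((2 * m - 1) / 7 + 1)).filter (fun j => 2 ≤ j),
          0.026325 * 0.195 ^ ((2 * m - 1) / 7 - j) := by
          apply add_le_add (term_one h8)
          apply Finset.sum_le_sum
          intro j hj
          simp only [Finset.mem_filter, Finset.mem_range] at hj
          exact term_ge hj.2 (by omega)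
      _ ≤ 0.0007 + ∑ j ∈ Finset.range ((2 * m - 1) / 7 + 1),
          0.026325 * 0.195 ^ ((2 * m - 1) / 7 - j) := by
          apply add_le_add le_rfl
          apply Finset.sum_le_sum_of_subset_of_nonneg (Finset.filter_subset _ _)
          intro j _ _
          positivity
      _ = 0.0007 + 0.026325 * ∑ j ∈ Finset.range ((2 * m - 1) / 7 + 1),
          0.195 ^ ((2 * m - 1) / 7 - j) := by
          rw [Finset.mul_sum]
      _ ≤ 0.0007 + 0.026325 * 1.2423 := by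
          have := geo_sum ((2 * m - 1) / 7)
          linarith
      _ ≤ 0.0398 := by norm_num

end Pool.Agent.Helper83.SE
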