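import Pool.Agent.Helper83.SE.Inner
import Pool.Agent.Helper83.SE.AliasC
import Pool.Agent.Helper83.SE.NumT
import Pool.Agent.Helper83.SE.NumV

/-!
Project SE, module AliasI: aliasing of the inner rings.

`alias_comb` with `n = 7j`, `F m = Fm u v m z` for `z = ± zA c j`, `j ≤ J0 c`, and `inner_mass`.
Ties: `7 j = 2|m|` forces `j = 2k`, `|m| = 7k`; each `m` belongs to one `j`: `≤ 1.0021 * 0.0498 nmode`.
Third sum: for fixed `m`, `V_num`: `1.0021 * 0.0398 nmode`.  `Σ_m nmode m = mu(p^2)`.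
Middle sum: `Σ_m F_m^2 = modeA(z)`.
-/

set_option autoImplicit false

open MeasureTheory Real Pool.Agent.Helper83.SD

namespace Pool.Agent.Helper83.SE

/-- the ties of one mode -/
theorem AliasI_tie (J k : ℕ) :
    ∑ j ∈ Finset.Icc 1 J, (if 2 * k = 7 * j then WW j k else 0) ≤ 0.0498 := by
  by_cases h : ∃ i, 1 ≤ i ∧ k = 7 * i
  · obtain ⟨i, hi, hk⟩ := h
    have h1 : ∀ j ∈ Finset.Icc 1 J, (if 2 * k = 7 * j then WW j k else 0) ≤
        if j = 2 * i then (0.0498 : ℝ) else 0 := by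
      intro j _
      by_cases h2 : 2 * k = 7 * j
      · have h3 : j = 2 * i := by omega
        rw [if_pos h2, if_pos h3, h3, hk]
        exact tie_num i hi
      · rw [if_neg h2]
        split_ifs
        · norm_num
        · exact le_refl _
    refine (Finset.sum_le_sum h1).trans ?_
    rw [Finset.sum_ite_eq']
    split_ifs
    · exact le_refl _
    · norm_num
  · have h1 : ∀ j ∈ Finset.Icc 1 J, (if 2 * k = 7 * j then WW j k else 0) = 0 := by
      intro j hj
      have hj1 := (Finset.mem_Icc.mp hj).1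
      rw [if_neg]
      intro h2
      exact h ⟨j / 2, by omega, by omega⟩
    rw [Finset.sum_eq_zero h1]
    norm_num

/-- the third sum of one mode -/
theorem AliasI_V (J k : ℕ) :
    ∑ j ∈ Finset.Icc 1 J, (if 7 * j < 2 * k then
      ((2 * k / (7 * j) : ℕ) : ℝ) / om (2 * k / (7 * j)) * WW j k else 0) ≤ 0.0398 := by
  rcases Nat.lt_or_ge k 4 with hk | hk
  · have h1 : ∀ j ∈ Finset.Icc 1 J, (if 7 * j < 2 * k then
        ((2 * k / (7 * j) : ℕ) : ℝ) / om (2 * k / (7 * j)) * WW j k else 0) = 0 := by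
      intro j hj
      have hj1 := (Finset.mem_Icc.mp hj).1
      rw [if_neg]
      omega
    rw [Finset.sum_eq_zero h1]
    norm_num
  · rw [← Finset.sum_filter]
    refine le_trans ?_ (V_num k hk)
    refine Finset.sum_le_sum_of_subset_of_nonneg ?_ ?_
    · intro j hj
      rw [Finset.mem_filter, Finset.mem_Icc] at hj ⊢
      omega
    · intro j hj _
      rw [Finset.mem_filter] at hj
      have h2 := om_pos (2 * k / (7 * j))
      have h3 := WW_pos' hj.2
      positivity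

theorem alias_in {t : ℕ} {c : Cf} {p : Poly} {u v : ℤ → Polynomial ℝ} (ht : 10000 ≤ t)
    (hg : Good t c) (hk : HOK c) (h : Modes t p u v) :
    RA c (Finset.Icc 1 (J0 c)) (fun n z => cross t n u v z) / (c.N : ℝ) ≤
      (0.05 + 4 * 0.0399) * mu (p ^ 2)
      + 0.25 * (RA c (Finset.Icc 1 (J0 c)) (fun _ z => (modeA t u v).eval z) / (c.N : ℝ)) := by
  have hN : (0 : ℝ) < c.N := by exact_mod_cast hk.N0
  have hn0 : ∀ m : ℤ, 0 ≤ nmode u v m := fun m => add_nonneg (nrm_nonneg _ _) (nrm_nonneg _ _)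
  have hsq : ∀ j ∈ Finset.Icc 1 (J0 c), (zA c j) ^ 2 ≤ 1 := by
    intro j hj
    have h1 := Finset.mem_Icc.mp hj
    exact hk.A j (Finset.mem_Icc.mpr ⟨h1.1, h1.2.trans (J0_le ht hg)⟩)
  -- the mass of one mode on one pair of rings
  set E : ℕ → ℤ → ℝ := fun j m => 7 * (j : ℝ) / (c.N : ℝ) *
    ((Fm u v m (zA c j)) ^ 2 + (Fm u v m (-(zA c j))) ^ 2) with hE
  have hmass : ∀ j ∈ Finset.Icc 1 (J0 c), ∀ m ∈ Finset.Icc (-(t : ℤ)) t,
      7 * j ≤ 2 * m.natAbs → E j m ≤ 1.0021 * WW j m.natAbs * nmode u v m := by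
    intro j hj m hm hjm
    have h1 := Finset.mem_Icc.mp hj
    have h2 := Finset.mem_Icc.mp hm
    exact inner_mass ht hg h h1.1 h1.2 hjm (by omega)
  -- one pair of rings
  have hring : ∀ j ∈ Finset.Icc 1 (J0 c),
      7 * (j : ℝ) * (cross t (7 * j) u v (zA c j) + cross t (7 * j) u v (-(zA c j))) / (c.N : ℝ) ≤
      ∑ m ∈ Finset.Icc (-(t : ℤ)) t, (if 2 * m.natAbs = 7 * j then E j m else 0)
      + 0.25 * (7 * (j : ℝ) * ((modeA t u v).eval (zA c j) + (modeA t u v).eval (-(zA c j))) /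
          (c.N : ℝ))
      + 4 * ∑ m ∈ Finset.Icc (-(t : ℤ)) t, (if 7 * j < 2 * m.natAbs then
          ((2 * m.natAbs / (7 * j) : ℕ) : ℝ) / om (2 * m.natAbs / (7 * j)) * E j m else 0) := by
    intro j hj
    have hj1 := (Finset.mem_Icc.mp hj).1
    have hz := hsq j hj
    have hz' : (-(zA c j)) ^ 2 ≤ 1 := by rw [neg_sq]; exact hz
    have hA := alias_comb t (7 * j) (by omega) (fun m => Fm u v m (zA c j))
      (fun m => Real.sqrt_nonneg _) (b := 0.25) (by norm_num)
    have hB := alias_comb t (7 * j) (by omega) (fun m => Fm u v m (-(zA c j)))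
      (fun m => Real.sqrt_nonneg _) (b := 0.25) (by norm_num)
    have eA : cross t (7 * j) u v (zA c j) = ∑ m ∈ Finset.Icc (-(t : ℤ)) t,
      ∑ m' ∈ (Finset.Icc (-(t : ℤ)) t).filter (fun m' => m' ≠ m ∧ ((7 * j : ℕ) : ℤ) ∣ m - m'),
        Fm u v m (zA c j) * Fm u v m' (zA c j) := rfl
    have eB : cross t (7 * j) u v (-(zA c j)) = ∑ m ∈ Finset.Icc (-(t : ℤ)) t,
      ∑ m' ∈ (Finset.Icc (-(t : ℤ)) t).filter (fun m' => m' ≠ m ∧ ((7 * j : ℕ) : ℤ) ∣ m - m'),
        Fm u v m (-(zA c j)) * Fm u v m' (-(zA c j)) := rfl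
    rw [← eA, ← modeA_Fm hz] at hA
    rw [← eB, ← modeA_Fm hz'] at hB
    have hw : (0 : ℝ) ≤ 7 * (j : ℝ) / (c.N : ℝ) := by positivity
    have hsum := mul_le_mul_of_nonneg_left (add_le_add hA hB) hw
    have e1 : ∑ m ∈ Finset.Icc (-(t : ℤ)) t, (if 2 * m.natAbs = 7 * j then E j m else 0) =
        7 * (j : ℝ) / (c.N : ℝ) *
        (∑ m ∈ Finset.Icc (-(t : ℤ)) t,
          (if 2 * m.natAbs = 7 * j then (Fm u v m (zA c j)) ^ 2 else 0) +
        ∑ m ∈ Finset.Icc (-(t : ℤ)) t,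
          (if 2 * m.natAbs = 7 * j then (Fm u v m (-(zA c j))) ^ 2 else 0)) := by
      rw [← Finset.sum_add_distrib, Finset.mul_sum]
      refine Finset.sum_congr rfl fun m _ => ?_
      split_ifs
      · rfl
      · ring
    have e3 : ∑ m ∈ Finset.Icc (-(t : ℤ)) t, (if 7 * j < 2 * m.natAbs then
          ((2 * m.natAbs / (7 * j) : ℕ) : ℝ) / om (2 * m.natAbs / (7 * j)) * E j m else 0) =
        7 * (j : ℝ) / (c.N : ℝ) *
        (∑ m ∈ Finset.Icc (-(t : ℤ)) t, (if 7 * j < 2 * m.natAbs then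
          ((2 * m.natAbs / (7 * j) : ℕ) : ℝ) / om (2 * m.natAbs / (7 * j)) *
            (Fm u v m (zA c j)) ^ 2 else 0) +
        ∑ m ∈ Finset.Icc (-(t : ℤ)) t, (if 7 * j < 2 * m.natAbs then
          ((2 * m.natAbs / (7 * j) : ℕ) : ℝ) / om (2 * m.natAbs / (7 * j)) *
            (Fm u v m (-(zA c j))) ^ 2 else 0)) := by
      rw [← Finset.sum_add_distrib, Finset.mul_sum]
      refine Finset.sum_congr rfl fun m _ => ?_
      split_ifs
      · simp only [hE]
        ring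
      · ring
    rw [e1, e3]
    have eL : 7 * (j : ℝ) * (cross t (7 * j) u v (zA c j) + cross t (7 * j) u v (-(zA c j))) /
        (c.N : ℝ) = 7 * (j : ℝ) / (c.N : ℝ) *
          (cross t (7 * j) u v (zA c j) + cross t (7 * j) u v (-(zA c j))) := by ring
    rw [eL]
    refine hsum.trans (le_of_eq ?_)
    ring
  -- the sum over the rings
  have hLHS : RA c (Finset.Icc 1 (J0 c)) (fun n z => cross t n u v z) / (c.N : ℝ) =
      ∑ j ∈ Finset.Icc 1 (J0 c),
      7 * (j : ℝ) * (cross t (7 * j) u v (zA c j) + cross t (7 * j) u v (-(zA c j))) / (c.N : ℝ) := by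
    unfold RA
    rw [Finset.sum_div]
  have hMID : RA c (Finset.Icc 1 (J0 c)) (fun _ z => (modeA t u v).eval z) / (c.N : ℝ) =
      ∑ j ∈ Finset.Icc 1 (J0 c),
      7 * (j : ℝ) * ((modeA t u v).eval (zA c j) + (modeA t u v).eval (-(zA c j))) /
          (c.N : ℝ) := by
    unfold RA
    rw [Finset.sum_div]
  rw [hLHS, hMID]
  refine (Finset.sum_le_sum hring).trans ?_
  rw [Finset.sum_add_distrib, Finset.sum_add_distrib, ← Finset.mul_sum, ← Finset.mul_sum]
  have hS1 : ∑ j ∈ Finset.Icc 1 (J0 c), ∑ m ∈ Finset.Icc (-(t : ℤ)) t,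
      (if 2 * m.natAbs = 7 * j then E j m else 0) ≤ 0.05 * mu (p ^ 2) := by
    rw [Finset.sum_comm, mu_sq_sum h, Finset.mul_sum]
    refine Finset.sum_le_sum fun m hm => ?_
    have h1 : ∀ j ∈ Finset.Icc 1 (J0 c), (if 2 * m.natAbs = 7 * j then E j m else 0) ≤
        (if 2 * m.natAbs = 7 * j then WW j m.natAbs else 0) * (1.0021 * nmode u v m) := by
      intro j hj
      by_cases h2 : 2 * m.natAbs = 7 * j
      · rw [if_pos h2, if_pos h2]
        refine (hmass j hj m hm (by omega)).trans (le_of_eq ?_)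
        ring
      · rw [if_neg h2, if_neg h2, zero_mul]
    refine (Finset.sum_le_sum h1).trans ?_
    rw [← Finset.sum_mul]
    have h3 := AliasI_tie (J0 c) m.natAbs
    have h4 := hn0 m
    have h5 := mul_le_mul_of_nonneg_right h3 (by positivity : 0 ≤ 1.0021 * nmode u v m)
    refine h5.trans ?_
    nlinarith
  have hS3 : ∑ j ∈ Finset.Icc 1 (J0 c), ∑ m ∈ Finset.Icc (-(t : ℤ)) t,
      (if 7 * j < 2 * m.natAbs then
          ((2 * m.natAbs / (7 * j) : ℕ) : ℝ) / om (2 * m.natAbs / (7 * j)) * E j m else 0) ≤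
      0.0399 * mu (p ^ 2) := by
    rw [Finset.sum_comm, mu_sq_sum h, Finset.mul_sum]
    refine Finset.sum_le_sum fun m hm => ?_
    have h1 : ∀ j ∈ Finset.Icc 1 (J0 c), (if 7 * j < 2 * m.natAbs then
          ((2 * m.natAbs / (7 * j) : ℕ) : ℝ) / om (2 * m.natAbs / (7 * j)) * E j m else 0) ≤
        (if 7 * j < 2 * m.natAbs then
          ((2 * m.natAbs / (7 * j) : ℕ) : ℝ) / om (2 * m.natAbs / (7 * j)) * WW j m.natAbs else 0)
          * (1.0021 * nmode u v m) := by
      intro j hj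
      by_cases h2 : 7 * j < 2 * m.natAbs
      · rw [if_pos h2, if_pos h2]
        have h3 := om_pos (2 * m.natAbs / (7 * j))
        have h4 : 0 ≤ ((2 * m.natAbs / (7 * j) : ℕ) : ℝ) / om (2 * m.natAbs / (7 * j)) := by
          positivity
        refine (mul_le_mul_of_nonneg_left (hmass j hj m hm h2.le) h4).trans (le_of_eq ?_)
        ring
      · rw [if_neg h2, if_neg h2, zero_mul]
    refine (Finset.sum_le_sum h1).trans ?_
    rw [← Finset.sum_mul]
    have h3 := AliasI_V (J0 c) m.natAbs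
    have h4 := hn0 m
    have h5 := mul_le_mul_of_nonneg_right h3 (by positivity : 0 ≤ 1.0021 * nmode u v m)
    refine h5.trans ?_
    nlinarith
  linarith

end Pool.Agent.Helper83.SE
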