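import Pool.Agent.Helper83.SE.Basic2

/-!
Project SE, module CfgO: heights of the rings.

`x = √N`.  Zone 1: `1 - z^2 ≤ 2(1-z) = (14/N)(j^2 + 5/42)`, so
`2.04 t √(1-z^2) ≤ 2.04 * 0.8165 * 3.7417 * √(j^2+5/42) = 6.233 √(j^2+5/42) ≤ 7j` (`j ≥ 1`); for
`j > J0`: `1 - z ≥ 7 * 0.0169^2 = 0.0019992`, `1 - z^2 ≥ 0.0039`.
Zone 2, ring `i`, `v = i + 1/2`, mass `m = M1 + n v + 5 v^2/2`, `1 - z = (2/N)(m + 5/24)`,
`(size)^2 = (7J1 + 5/2 + 5v)^2 = 10 (m - M1) + (7J1+5/2)^2 = 5 N (2m/N) + 14 J1^2 + O(x)`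
(`49 J1^2 - 10 M1 = 14 J1^2 + O(x)`); with `X = 2m/N ∈ [0.077, 0.534]`:
`4.1616 t^2 (1-z^2) ≤ 2.7745 N X(2-X)` and `5X + 0.1543 - 2.7745 X (2-X) ≥ 0.12`.
Plateau: `(size)^2 ≥ (1.68 x - 13)^2`, `4.1616 t^2 ≤ 2.7745 N < 2.82 N`; heights between
`0.4664` and `-0.4664`.
-/

set_option autoImplicit false

open MeasureTheory Real Pool.Agent.Helper83.SD

namespace Pool.Agent.Helper83.SE

/-- the basic estimates -/
private structure Bd (t : ℕ) (c : Cf) (x : ℝ) : Prop where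
  x4 : 10000 ≤ x
  t4 : 10000 ≤ (t : ℝ)
  xx : (c.N : ℝ) = x ^ 2
  tt : 1.5 * (t : ℝ) ^ 2 ≤ x ^ 2
  a1 : 0.105 * x - 1 ≤ c.J1
  a2 : (c.J1 : ℝ) ≤ 0.105 * x
  b1 : 0.189 * x - 1 ≤ c.J2
  b2 : (c.J2 : ℝ) ≤ 0.189 * x

private theorem bd {t : ℕ} {c : Cf} (ht : (10000 : ℝ) ≤ t) (h : Good t c) :
    Bd t c (√(c.N : ℝ)) := by
  have h1 := sqrtN_large h
  have h2 := sqrtN h
  exact ⟨by linarith, ht, h2.symm, by rw [h2]; exact h.lo, h.a1, h.a2, h.b1, h.b2⟩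

private theorem nn_of {t n : ℕ} {z : ℝ} (h : 4.1616 * (t : ℝ) ^ 2 * (1 - z ^ 2) ≤ (n : ℝ) ^ 2)
    (hz : z ^ 2 ≤ 1) : 2.04 * (t : ℝ) * √(1 - z ^ 2) ≤ n := by
  apply le_of_sq_le_sq _ (Nat.cast_nonneg n)
  rw [mul_pow, mul_pow, Real.sq_sqrt (by linarith)]
  calc (2.04 : ℝ) ^ 2 * (t : ℝ) ^ 2 * (1 - z ^ 2) = 4.1616 * (t : ℝ) ^ 2 * (1 - z ^ 2) := by
        norm_num
    _ ≤ (n : ℝ) ^ 2 := h

private theorem zone1 {t : ℕ} {c : Cf} (ht : (10000 : ℝ) ≤ t) (h : Good t c) {j : ℕ}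
    (hj : 1 ≤ j) (hj1 : j ≤ c.J1) :
    0.92 ≤ zA c j ∧ zA c j ≤ 1 ∧ (J0 c < j → OutR t (7 * j) (zA c j)) := by
  have B := bd ht h
  set x := √(c.N : ℝ) with hx
  have hj0 : (1 : ℝ) ≤ j := by exact_mod_cast hj
  have hj2 : (j : ℝ) ≤ 0.105 * x := by
    have : (j : ℝ) ≤ c.J1 := by exact_mod_cast hj1
    linarith [B.a2]
  have x4 := B.x4
  have hN : (0 : ℝ) < x ^ 2 := by positivity
  set u := (7 / x ^ 2) * ((j : ℝ) ^ 2 + 5 / 42) with hu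
  have hz : zA c j = 1 - u := by
    unfold zA
    rw [B.xx]
  have hNu : x ^ 2 * u = 7 * ((j : ℝ) ^ 2 + 5 / 42) := by
    rw [hu]
    field_simp
  have hu0 : 0 ≤ u := by positivity
  have hu1 : u ≤ 0.08 := by
    rw [hu, div_mul_eq_mul_div, div_le_iff₀ hN]
    nlinarith only [hj0, hj2, x4]
  rw [hz]
  refine ⟨by linarith, by linarith, fun hJ0 => ⟨by omega, by nlinarith only [hu0, hu1], ?_, ?_⟩⟩
  · have h3 : 0.0169 * x < j := by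
      unfold J0 at hJ0
      exact (Nat.floor_lt (by positivity)).mp hJ0
    have h4 : 0.001999 ≤ u := by
      rw [hu, div_mul_eq_mul_div, le_div_iff₀ hN]
      nlinarith only [h3, x4]
    nlinarith only [h4, hu1]
  · apply nn_of _ (by nlinarith only [hu0, hu1])
    have h5 : 1 - (1 - u) ^ 2 ≤ 2 * u := by linarith [sq_nonneg u]
    have h6 : 4.1616 * (t : ℝ) ^ 2 ≤ 2.7744 * x ^ 2 := by linarith [B.tt]
    calc 4.1616 * (t : ℝ) ^ 2 * (1 - (1 - u) ^ 2) ≤ 4.1616 * (t : ℝ) ^ 2 * (2 * u) := by gcongr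
      _ ≤ 2.7744 * x ^ 2 * (2 * u) := by gcongr
      _ = 5.5488 * (x ^ 2 * u) := by ring
      _ ≤ (((7 * j : ℕ) : ℕ) : ℝ) ^ 2 := by
        rw [hNu]
        push_cast
        nlinarith only [hj0]

theorem cfg_A : ∃ T0 : ℝ, ∀ (t : ℕ) (c : Cf), T0 ≤ (t : ℝ) → Good t c → ∀ j ∈ Finset.Icc 1 c.J1,
    0.92 ≤ zA c j ∧ zA c j ≤ 1 ∧ (J0 c < j → OutR t (7 * j) (zA c j)) := by
  refine ⟨10000, fun t c ht h j hj => ?_⟩
  rw [Finset.mem_Icc] at hj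
  exact zone1 ht h hj.1 hj.2

private theorem zone2 {t : ℕ} {c : Cf} (ht : (10000 : ℝ) ≤ t) (h : Good t c) {i : ℕ}
    (hi : i < c.J2) : 0.46 ≤ zB c i ∧ zB c i ≤ 1 ∧ OutR t (7 * c.J1 + 5 * (i + 1)) (zB c i) := by
  have B := bd ht h
  set x := √(c.N : ℝ) with hx
  have x4 := B.x4
  have a1 := B.a1
  have a2 := B.a2
  have hi2 : (i : ℝ) + 1 ≤ 0.189 * x := by
    have : (i : ℝ) + 1 ≤ c.J2 := by exact_mod_cast hi
    linarith [B.b2]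
  have hi0 : (0 : ℝ) ≤ i := Nat.cast_nonneg i
  have hN : (0 : ℝ) < x ^ 2 := by positivity
  set a := (c.J1 : ℝ) with ha
  have ha0 : 0 ≤ a := by linarith
  set v := (i : ℝ) + 1 / 2 with hv
  set w := M1 c + 5 / 24 + (7 * a + 5 / 2) * v + 5 * v ^ 2 / 2 with hw
  set u := (2 / x ^ 2) * w with hu
  have hz : zB c i = 1 - u := by
    unfold zB hgt
    rw [B.xx]
  have hM : M1 c = 1 + 7 * a * (a + 1) / 2 := rfl
  have hNu : x ^ 2 * u = 2 * w := by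
    rw [hu]
    field_simp
  have hw0 : 0.0385 * x ^ 2 ≤ w + 0.01 * x ^ 2 := by
    have h1 : (0.105 * x - 1) ^ 2 ≤ a ^ 2 := by
      have : (0 : ℝ) ≤ 0.105 * x - 1 := by linarith
      gcongr
    have h2 : 0 ≤ (7 * a + 5 / 2) * v := by positivity
    have h3 : 0 ≤ 5 * v ^ 2 / 2 := by positivity
    rw [hw, hM]
    nlinarith only [h1, h2, h3, x4, ha0, a1]
  have hw1 : w ≤ 0.27 * x ^ 2 := by
    have h1 : a ^ 2 ≤ (0.105 * x) ^ 2 := by gcongr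
    have h2 : v ≤ 0.189 * x := by rw [hv]; linarith
    have hv0 : 0 ≤ v := by positivity
    have h3 : v ^ 2 ≤ (0.189 * x) ^ 2 := by gcongr
    have h4 : a * v ≤ (0.105 * x) * (0.189 * x) := by gcongr
    rw [hw, hM]
    nlinarith only [h1, h2, h3, h4, a2, x4]
  have hu0 : 0.05 ≤ u := by
    rw [hu, div_mul_eq_mul_div, le_div_iff₀ hN]
    linarith
  have hu1 : u ≤ 0.54 := by
    rw [hu, div_mul_eq_mul_div, div_le_iff₀ hN]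
    linarith
  rw [hz]
  refine ⟨by linarith, by linarith, ⟨by omega, by nlinarith only [hu0, hu1],
    by nlinarith only [hu0, hu1], ?_⟩⟩
  apply nn_of _ (by nlinarith only [hu0, hu1])
  have h6 : 4.1616 * (t : ℝ) ^ 2 ≤ 2.7744 * x ^ 2 := by linarith [B.tt]
  have h7 : 0 ≤ 1 - (1 - u) ^ 2 := by nlinarith only [hu0, hu1]
  have h8 : (((7 * c.J1 + 5 * (i + 1) : ℕ) : ℕ) : ℝ) ^ 2 =
      5 * (x ^ 2 * u) + 14 * a ^ 2 - 35 / 6 := by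
    rw [hNu, hw, hM]
    push_cast
    rw [← ha, hv]
    ring
  rw [h8]
  have h9 : (0.105 * x - 1) ^ 2 ≤ a ^ 2 := by
    have : (0 : ℝ) ≤ 0.105 * x - 1 := by linarith
    gcongr
  have h10 : 0.12 * x ^ 2 ≤ (0.15435 - 0.5488 * u + 2.7744 * u ^ 2) * x ^ 2 := by
    have : (0.12 : ℝ) ≤ 0.15435 - 0.5488 * u + 2.7744 * u ^ 2 := by
      nlinarith only [sq_nonneg (u - 0.0989)]
    gcongr
  calc 4.1616 * (t : ℝ) ^ 2 * (1 - (1 - u) ^ 2) ≤ 2.7744 * x ^ 2 * (1 - (1 - u) ^ 2) := by gcongr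
    _ ≤ 5 * (x ^ 2 * u) + 14 * a ^ 2 - 35 / 6 := by nlinarith only [h9, h10, x4]

theorem cfg_B : ∃ T0 : ℝ, ∀ (t : ℕ) (c : Cf), T0 ≤ (t : ℝ) → Good t c → ∀ i < c.J2,
    0.46 ≤ zB c i ∧ OutR t (7 * c.J1 + 5 * (i + 1)) (zB c i) := by
  refine ⟨10000, fun t c ht h i hi => ?_⟩
  have := zone2 ht h hi
  exact ⟨this.1, this.2.2⟩

private theorem plat {t : ℕ} {c : Cf} (ht : (10000 : ℝ) ≤ t) (h : Good t c) :
    (c.N : ℝ) = 2 * M2 c + (c.R : ℝ) * c.n + c.l ∧ 0.265 * (c.N : ℝ) ≤ M2 c ∧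
      2.04 * (t : ℝ) ≤ c.n ∧ 0 < (c.N : ℝ) ∧ 1 ≤ c.n ∧ 0 < c.N := by
  have B := bd ht h
  set x := √(c.N : ℝ) with hx
  have x4 := B.x4
  have a1 := B.a1
  have b1 := B.b1
  have t4 := B.t4
  have tt := B.tt
  have hn : 7 * (c.J1 : ℝ) + 5 * (c.J2 : ℝ) ≤ c.n := by exact_mod_cast h.n1
  have hn1 : 2.04 * (t : ℝ) ≤ c.n := by
    have h1 : 1.2247 * (t : ℝ) ≤ x := by nlinarith only [tt, t4, x4]
    linarith
  refine ⟨?_, ?_, hn1, ?_, ?_, ?_⟩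
  · have h1 : (c.N : ℝ) = 2 + 7 * c.J1 * (c.J1 + 1) + 14 * c.J1 * c.J2 + 5 * c.J2 * (c.J2 + 1)
        + c.R * c.n + c.l := by exact_mod_cast h.cnt
    rw [h1]
    unfold M2 M1
    ring
  · rw [B.xx]
    unfold M2 M1
    have h0 : (0 : ℝ) ≤ 0.105 * x - 1 := by linarith
    have h0' : (0 : ℝ) ≤ 0.189 * x - 1 := by linarith
    have h1 : (0.105 * x - 1) * (0.105 * x - 1) ≤ (c.J1 : ℝ) * ((c.J1 : ℝ) + 1) := by
      apply mul_le_mul a1 (by linarith) h0 (by positivity)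
    have h2 : (0.105 * x - 1) * (0.189 * x - 1) ≤ (c.J1 : ℝ) * (c.J2 : ℝ) := by
      apply mul_le_mul a1 b1 h0' (by positivity)
    have h3 : (0.189 * x - 1) * (0.189 * x - 1) ≤ (c.J2 : ℝ) * ((c.J2 : ℝ) + 1) := by
      apply mul_le_mul b1 (by linarith) h0' (by positivity)
    nlinarith only [h1, h2, h3, x4, a1, b1]
  · rw [B.xx]
    positivity
  · have : (1 : ℝ) ≤ c.n := by linarith
    exact_mod_cast this
  · have : (0 : ℝ) < c.N := by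
      rw [B.xx]
      positivity
    exact_mod_cast this

private theorem outR_of {t n : ℕ} {z : ℝ} (hn : 1 ≤ n) (h : 2.04 * (t : ℝ) ≤ n)
    (hz : |z| ≤ 0.47) : OutR t n z := by
  obtain ⟨h1, h2⟩ := abs_le.mp hz
  have h3 : z ^ 2 ≤ 0.2209 := by nlinarith only [h1, h2]
  refine ⟨hn, by linarith, by linarith, ?_⟩
  have h4 : √(1 - z ^ 2) ≤ 1 := by
    rw [Real.sqrt_le_one]
    nlinarith [sq_nonneg z]
  calc 2.04 * (t : ℝ) * √(1 - z ^ 2) ≤ 2.04 * (t : ℝ) * 1 := by gcongr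
    _ ≤ n := by linarith

private theorem abs_z {N m M : ℝ} (hN : 0 < N) (h1 : 0.265 * N ≤ M) (h2 : M ≤ m)
    (h3 : m ≤ N - M) : |1 - (2 / N) * m| ≤ 0.47 := by
  have h4 : 0.53 ≤ (2 / N) * m := by
    rw [div_mul_eq_mul_div, le_div_iff₀ hN]
    linarith
  have h5 : (2 / N) * m ≤ 1.47 := by
    rw [div_mul_eq_mul_div, div_le_iff₀ hN]
    linarith
  rw [abs_le]
  constructor <;> linarith

private theorem platC {t : ℕ} {c : Cf} (ht : (10000 : ℝ) ≤ t) (h : Good t c) {i : ℕ}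
    (hi : i < c.l) : |zC c i| ≤ 0.47 := by
  obtain ⟨h1, h2, h3, h4, h5, _⟩ := plat ht h
  have hlR : (c.l : ℝ) ≤ c.R := by exact_mod_cast h.lR
  have hi1 : (i : ℝ) + 1 ≤ c.l := by exact_mod_cast hi
  have hi0 : (0 : ℝ) ≤ i := Nat.cast_nonneg i
  have hn : (0 : ℝ) ≤ c.n := Nat.cast_nonneg _
  unfold zC hgt
  apply abs_z h4 h2
  · have : 0 ≤ ((c.n : ℝ) + 1) * ((i : ℝ) + 1 / 2) := by positivity
    linarith
  · have h6 : ((c.n : ℝ) + 1) * ((i : ℝ) + 1 / 2) ≤ ((c.n : ℝ) + 1) * c.l := by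
      gcongr
      linarith
    have h7 : (c.l : ℝ) * c.n ≤ (c.R : ℝ) * c.n := by gcongr
    linarith

private theorem platD {t : ℕ} {c : Cf} (ht : (10000 : ℝ) ≤ t) (h : Good t c) {i : ℕ}
    (hi : i < c.R - c.l) : |zD c i| ≤ 0.47 := by
  obtain ⟨h1, h2, h3, h4, h5, _⟩ := plat ht h
  have hi1 : (i : ℝ) + 1 ≤ (c.R : ℝ) - c.l := by
    rw [← Nat.cast_sub h.lR]
    exact_mod_cast hi
  have hi0 : (0 : ℝ) ≤ i := Nat.cast_nonneg i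
  have hn : (0 : ℝ) ≤ c.n := Nat.cast_nonneg _
  have hl : (0 : ℝ) ≤ c.l := Nat.cast_nonneg _
  unfold zD hgt M3
  apply abs_z h4 h2
  · have : 0 ≤ (c.n : ℝ) * ((i : ℝ) + 1 / 2) := by positivity
    have h8 : 0 ≤ (c.l : ℝ) * ((c.n : ℝ) + 1) := by positivity
    linarith
  · have h6 : (c.n : ℝ) * ((i : ℝ) + 1 / 2) ≤ (c.n : ℝ) * ((c.R : ℝ) - c.l) := by
      gcongr
      linarith
    linarith

theorem cfg_CD : ∃ T0 : ℝ, ∀ (t : ℕ) (c : Cf), T0 ≤ (t : ℝ) → Good t c →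
    (∀ i < c.l, |zC c i| ≤ 0.47 ∧ OutR t (c.n + 1) (zC c i)) ∧
    (∀ i < c.R - c.l, |zD c i| ≤ 0.47 ∧ OutR t c.n (zD c i)) := by
  refine ⟨10000, fun t c ht h => ?_⟩
  obtain ⟨_, _, h3, _, h5, _⟩ := plat ht h
  refine ⟨fun i hi => ⟨platC ht h hi, outR_of (by omega) ?_ (platC ht h hi)⟩,
    fun i hi => ⟨platD ht h hi, outR_of h5 h3 (platD ht h hi)⟩⟩
  push_cast
  linarith

theorem cfg_hok : ∃ T0 : ℝ, ∀ (t : ℕ) (c : Cf), T0 ≤ (t : ℝ) → Good t c → HOK c := by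
  refine ⟨10000, fun t c ht h => ?_⟩
  obtain ⟨_, _, h3, _, h5, h6⟩ := plat ht h
  refine ⟨h6, h5, fun j hj => ?_, fun i hi => (zone2 ht h hi).2.2.z1, fun i hi => ?_,
    fun i hi => ?_⟩
  · rw [Finset.mem_Icc] at hj
    have := zone1 ht h hj.1 hj.2
    nlinarith [this.1, this.2.1]
  · obtain ⟨h7, h8⟩ := abs_le.mp (platC ht h hi)
    nlinarith
  · obtain ⟨h7, h8⟩ := abs_le.mp (platD ht h hi)
    nlinarith

theorem outR_neg {t n : ℕ} {z : ℝ} (h : OutR t n z) : OutR t n (-z) := by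
  obtain ⟨h1, h2, h3, h4⟩ := h
  refine ⟨h1, ?_, ?_, ?_⟩
  · rwa [neg_sq]
  · rwa [neg_sq]
  · rwa [neg_sq]

end Pool.Agent.Helper83.SE
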