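import Pool.Agent.Helper83.SE.Defs
import Pool.Agent.Helper83.SD.Ring

/-!
Project SE, module Basic2: elementary facts on the configuration.
-/

set_option autoImplicit false

open MeasureTheory Real Pool.Agent.Helper83.SD

namespace Pool.Agent.Helper83.SE

/-- comparison of ring sums -/
theorem RS_mono (c : Cf) {G G' : ℕ → ℝ → ℝ}
    (hA : ∀ j ∈ Finset.Icc 1 c.J1, G (7 * j) (zA c j) + G (7 * j) (-(zA c j)) ≤
      G' (7 * j) (zA c j) + G' (7 * j) (-(zA c j)))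
    (hB : ∀ i < c.J2, G (7 * c.J1 + 5 * (i + 1)) (zB c i) + G (7 * c.J1 + 5 * (i + 1)) (-(zB c i)) ≤
      G' (7 * c.J1 + 5 * (i + 1)) (zB c i) + G' (7 * c.J1 + 5 * (i + 1)) (-(zB c i)))
    (hC : ∀ i < c.l, G (c.n + 1) (zC c i) ≤ G' (c.n + 1) (zC c i))
    (hD : ∀ i < c.R - c.l, G c.n (zD c i) ≤ G' c.n (zD c i)) : RS c G ≤ RS c G' := by
  unfold RS RA RB RC RD
  refine add_le_add (add_le_add (add_le_add ?_ ?_) ?_) ?_
  · refine Finset.sum_le_sum fun j hj => ?_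
    exact mul_le_mul_of_nonneg_left (hA j hj) (by positivity)
  · refine Finset.sum_le_sum fun i hi => ?_
    exact mul_le_mul_of_nonneg_left (hB i (Finset.mem_range.mp hi)) (by positivity)
  · refine Finset.sum_le_sum fun i hi => ?_
    exact mul_le_mul_of_nonneg_left (hC i (Finset.mem_range.mp hi)) (by positivity)
  · refine Finset.sum_le_sum fun i hi => ?_
    exact mul_le_mul_of_nonneg_left (hD i (Finset.mem_range.mp hi)) (by positivity)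

theorem RA_union (c : Cf) (G : ℕ → ℝ → ℝ) {a b : ℕ} (h : a ≤ b) :
    RA c (Finset.Icc 1 b) G = RA c (Finset.Icc 1 a) G + RA c (Finset.Ioc a b) G := by
  unfold RA
  rw [← Finset.sum_union]
  · congr 1
    ext j
    simp only [Finset.mem_Icc, Finset.mem_union, Finset.mem_Ioc]
    omega
  · rw [Finset.disjoint_left]
    intro j hj hj'
    simp only [Finset.mem_Icc, Finset.mem_Ioc] at hj hj'
    omega

/-- number of points -/
theorem RS_one (c : Cf) (hl : c.l ≤ c.R)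
    (hc : c.N = 2 + 7 * c.J1 * (c.J1 + 1) + 14 * c.J1 * c.J2 + 5 * c.J2 * (c.J2 + 1)
      + c.R * c.n + c.l) : 2 + RS c (fun _ _ => 1) = (c.N : ℝ) := by
  have hA : ∀ J : ℕ, ∑ j ∈ Finset.Icc 1 J, 7 * (j : ℝ) * (1 + 1) = 7 * (J : ℝ) * ((J : ℝ) + 1) := by
    intro J
    induction J with
    | zero => simp
    | succ J ih =>
      rw [Finset.sum_Icc_succ_top (by omega), ih]
      push_cast
      ring
  have hB : ∀ J : ℕ, ∑ i ∈ Finset.range J, (7 * (c.J1 : ℝ) + 5 * ((i : ℝ) + 1)) * (1 + 1) =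
      14 * (c.J1 : ℝ) * (J : ℝ) + 5 * (J : ℝ) * ((J : ℝ) + 1) := by
    intro J
    induction J with
    | zero => simp
    | succ J ih =>
      rw [Finset.sum_range_succ, ih]
      push_cast
      ring
  unfold RS RA RB RC RD
  rw [hA, hB, hc]
  simp only [mul_one, Finset.sum_const, Finset.card_range, nsmul_eq_mul]
  rw [Nat.cast_sub hl]
  push_cast
  ring

theorem sqrtN {t : ℕ} {c : Cf} (h : Good t c) : √(c.N : ℝ) ^ 2 = (c.N : ℝ) :=
  Real.sq_sqrt (Nat.cast_nonneg _)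

theorem T_up {t : ℕ} {c : Cf} (ht : 10000 ≤ t) (h : Good t c) :
    ((t : ℝ) + 1) ^ 2 ≤ 0.6672 * (c.N : ℝ) ∧ ((t : ℝ) + 2) ^ 2 ≤ 0.6672 * (c.N : ℝ) ∧
      1.499 * ((t : ℝ) + 1) ^ 2 ≤ (c.N : ℝ) := by
  have h1 := h.lo
  have h0 : (10000 : ℝ) ≤ t := by exact_mod_cast ht
  refine ⟨?_, ?_, ?_⟩ <;> nlinarith

theorem lam_lo {t : ℕ} {c : Cf} (ht : 10000 ≤ t) (h : Good t c) :
    0.66643 * (c.N : ℝ) ≤ lam t ∧ 0.66643 * (c.N : ℝ) ≤ lam (t + 1) ∧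
      lam (t + 1) ≤ 0.6672 * (c.N : ℝ) := by
  have h1 := h.lo
  have h2 := h.hi
  have h0 : (10000 : ℝ) ≤ t := by exact_mod_cast ht
  unfold lam
  push_cast
  refine ⟨?_, ?_, ?_⟩ <;> nlinarith

theorem sqrtN_large {t : ℕ} {c : Cf} (h : Good t c) : (t : ℝ) ≤ √(c.N : ℝ) := by
  apply Real.le_sqrt_of_sq_le
  have h1 := h.lo
  have h0 : (0 : ℝ) ≤ t := Nat.cast_nonneg t
  nlinarith

theorem J0_le {t : ℕ} {c : Cf} (ht : 10000 ≤ t) (h : Good t c) : J0 c ≤ c.J1 := by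
  have h0 : (10000 : ℝ) ≤ t := by exact_mod_cast ht
  have h1 := sqrtN_large h
  have h2 := h.a1
  have h3 : (J0 c : ℝ) ≤ 0.0169 * √(c.N : ℝ) := by
    unfold J0
    exact Nat.floor_le (by positivity)
  have : (J0 c : ℝ) ≤ c.J1 := by linarith
  exact_mod_cast this

/-- inner rings -/
theorem inner {t : ℕ} {c : Cf} (ht : 10000 ≤ t) (h : Good t c) {j : ℕ} (hj : 1 ≤ j)
    (hj0 : j ≤ J0 c) : 0.998 ≤ zA c j ∧ zA c j ≤ 1 ∧
      1 - zA c j = (7 / (c.N : ℝ)) * ((j : ℝ) ^ 2 + 5 / 42) ∧ 1 - zA c j ≤ 0.0020001 := by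
  have h0 : (10000 : ℝ) ≤ t := by exact_mod_cast ht
  have h1 := h.lo
  have hN : (150000000 : ℝ) ≤ c.N := by nlinarith
  have hN0 : (0 : ℝ) < c.N := by linarith
  have h3 : (J0 c : ℝ) ≤ 0.0169 * √(c.N : ℝ) := by
    unfold J0
    exact Nat.floor_le (by positivity)
  have h4 : (j : ℝ) ≤ 0.0169 * √(c.N : ℝ) := by
    have : (j : ℝ) ≤ (J0 c : ℝ) := by exact_mod_cast hj0
    linarith
  have h5 : (j : ℝ) ^ 2 ≤ 0.0169 ^ 2 * (c.N : ℝ) := by
    have h6 : (j : ℝ) ^ 2 ≤ (0.0169 * √(c.N : ℝ)) ^ 2 := by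
      have : (0 : ℝ) ≤ j := Nat.cast_nonneg j
      gcongr
    rw [mul_pow, sqrtN h] at h6
    exact h6
  have e : 1 - zA c j = (7 / (c.N : ℝ)) * ((j : ℝ) ^ 2 + 5 / 42) := by
    unfold zA
    ring
  have hu : (7 / (c.N : ℝ)) * ((j : ℝ) ^ 2 + 5 / 42) ≤ 0.001999999 := by
    rw [div_mul_eq_mul_div, div_le_iff₀ hN0]
    nlinarith
  have hp : 0 ≤ (7 / (c.N : ℝ)) * ((j : ℝ) ^ 2 + 5 / 42) := by positivity
  refine ⟨?_, ?_, e, ?_⟩
  · linarith
  · linarith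
  · linarith

end Pool.Agent.Helper83.SE
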