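import Pool.Agent.Helper83.SD.Basic
import Pool.Agent.Helper83.SD.Leg

/-!
Project SE (MP_a1e37a_co): spherical t-designs on the 2-sphere with exactly N points, for every
integer N at least (3/2) t^2 (t large).  Definitions.
-/

set_option autoImplicit false

open MeasureTheory Real Pool.Agent.Helper83.SD

namespace Pool.Agent.Helper83.SE

/-! ### the configuration -/

/-- parameters of a configuration of `N` points -/
structure Cf where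
  N : ℕ
  J1 : ℕ
  J2 : ℕ
  R : ℕ
  n : ℕ
  l : ℕ

/-- height of the ring with parameter `v` in a zone with start mass `M`, size `n + s v` -/
noncomputable def hgt (N M n s v : ℝ) : ℝ :=
  1 - (2 / N) * (M + s / 24 + n * v + s * v ^ 2 / 2)

/-- mass at the end of zone 1 -/
noncomputable def M1 (c : Cf) : ℝ := 1 + 7 * (c.J1 : ℝ) * ((c.J1 : ℝ) + 1) / 2

/-- mass at the end of zone 2 -/
noncomputable def M2 (c : Cf) : ℝ :=
  M1 c + 7 * (c.J1 : ℝ) * (c.J2 : ℝ) + 5 * (c.J2 : ℝ) * ((c.J2 : ℝ) + 1) / 2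

/-- mass at the end of the first part of the plateau -/
noncomputable def M3 (c : Cf) : ℝ := M2 c + (c.l : ℝ) * ((c.n : ℝ) + 1)

/-- zone 1, ring `j` (`1 ≤ j ≤ J1`), with `7 j` points -/
noncomputable def zA (c : Cf) (j : ℕ) : ℝ := 1 - (7 / (c.N : ℝ)) * ((j : ℝ) ^ 2 + 5 / 42)

/-- zone 2, ring `i` (`i < J2`), with `7 J1 + 5 (i+1)` points -/
noncomputable def zB (c : Cf) (i : ℕ) : ℝ :=
  hgt (c.N : ℝ) (M1 c) (7 * (c.J1 : ℝ) + 5 / 2) 5 ((i : ℝ) + 1 / 2)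

/-- plateau, first part, ring `i` (`i < l`), with `n + 1` points -/
noncomputable def zC (c : Cf) (i : ℕ) : ℝ :=
  hgt (c.N : ℝ) (M2 c) ((c.n : ℝ) + 1) 0 ((i : ℝ) + 1 / 2)

/-- plateau, second part, ring `i` (`i < R - l`), with `n` points -/
noncomputable def zD (c : Cf) (i : ℕ) : ℝ :=
  hgt (c.N : ℝ) (M3 c) (c.n : ℝ) 0 ((i : ℝ) + 1 / 2)

/-- weighted sum over the rings `j ∈ s` of zone 1 and their mirror images -/
noncomputable def RA (c : Cf) (s : Finset ℕ) (G : ℕ → ℝ → ℝ) : ℝ :=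
  ∑ j ∈ s, 7 * (j : ℝ) * (G (7 * j) (zA c j) + G (7 * j) (-(zA c j)))

noncomputable def RB (c : Cf) (G : ℕ → ℝ → ℝ) : ℝ :=
  ∑ i ∈ Finset.range c.J2, (7 * (c.J1 : ℝ) + 5 * ((i : ℝ) + 1)) *
    (G (7 * c.J1 + 5 * (i + 1)) (zB c i) + G (7 * c.J1 + 5 * (i + 1)) (-(zB c i)))

noncomputable def RC (c : Cf) (G : ℕ → ℝ → ℝ) : ℝ :=
  ∑ i ∈ Finset.range c.l, ((c.n : ℝ) + 1) * G (c.n + 1) (zC c i)

noncomputable def RD (c : Cf) (G : ℕ → ℝ → ℝ) : ℝ :=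
  ∑ i ∈ Finset.range (c.R - c.l), (c.n : ℝ) * G c.n (zD c i)

/-- weighted sum over all rings -/
noncomputable def RS (c : Cf) (G : ℕ → ℝ → ℝ) : ℝ :=
  RA c (Finset.Icc 1 c.J1) G + RB c G + RC c G + RD c G

/-- mean of `F` over the configuration -/
noncomputable def SC (c : Cf) (F : E3 → ℝ) : ℝ :=
  (F (sp 1 0) + F (sp (-1) 0) + RS c (fun n z => rmean n z F)) / (c.N : ℝ)

/-- the zonal version -/
noncomputable def SY (c : Cf) (B : ℝ → ℝ) : ℝ :=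
  (B 1 + B (-1) + RS c (fun _ z => B z)) / (c.N : ℝ)

/-- aliasing sum -/
noncomputable def AC (t : ℕ) (c : Cf) (u v : ℤ → Polynomial ℝ) : ℝ :=
  RS c (fun n z => cross t n u v z) / (c.N : ℝ)

/-- harmonic sum -/
noncomputable def HC (t : ℕ) (c : Cf) (u : ℤ → Polynomial ℝ) : ℝ :=
  RS c (fun n z => hsum t n u z) / (c.N : ℝ)

/-- the number of inner rings -/
noncomputable def J0 (c : Cf) : ℕ := ⌊0.0169 * √(c.N : ℝ)⌋₊

/-- the configurations used for degree `t` -/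
structure Good (t : ℕ) (c : Cf) : Prop where
  lo : 1.5 * (t : ℝ) ^ 2 ≤ c.N
  hi : (c.N : ℝ) ≤ 1.5 * ((t : ℝ) + 1) ^ 2
  a1 : 0.105 * √(c.N : ℝ) - 1 ≤ c.J1
  a2 : (c.J1 : ℝ) ≤ 0.105 * √(c.N : ℝ)
  b1 : 0.189 * √(c.N : ℝ) - 1 ≤ c.J2
  b2 : (c.J2 : ℝ) ≤ 0.189 * √(c.N : ℝ)
  cnt : c.N = 2 + 7 * c.J1 * (c.J1 + 1) + 14 * c.J1 * c.J2 + 5 * c.J2 * (c.J2 + 1)
    + c.R * c.n + c.l
  lR : c.l ≤ c.R
  n1 : 7 * c.J1 + 5 * c.J2 ≤ c.n
  n2 : c.n ≤ 7 * c.J1 + 5 * c.J2 + 7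

/-- all heights are admissible -/
structure HOK (c : Cf) : Prop where
  N0 : 0 < c.N
  n0 : 1 ≤ c.n
  A : ∀ j ∈ Finset.Icc 1 c.J1, (zA c j) ^ 2 ≤ 1
  B : ∀ i < c.J2, (zB c i) ^ 2 ≤ 1
  C : ∀ i < c.l, (zC c i) ^ 2 ≤ 1
  D : ∀ i < c.R - c.l, (zD c i) ^ 2 ≤ 1

/-- a ring with many points: outside the inner region -/
structure OutR (t n : ℕ) (z : ℝ) : Prop where
  n0 : 1 ≤ n
  z1 : z ^ 2 ≤ 1
  zz : 0.0039 ≤ 1 - z ^ 2
  nn : 2.04 * (t : ℝ) * √(1 - z ^ 2) ≤ n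

/-! ### Abel-Plana functionals -/

/-- the weight for midpoint sums -/
noncomputable def wp (y : ℝ) : ℝ := 1 / (Real.exp (2 * π * y) + 1)

noncomputable def Tm (a : ℝ) (f : Polynomial ℝ) : ℝ :=
  2 * ∫ y in Set.Ioi (0 : ℝ),
    (Polynomial.aeval ((a : ℂ) + Complex.I * (y : ℂ)) f).im * wp y

/-- complex height at the end of a zone -/
noncomputable def zet (N M n s y : ℝ) : ℂ :=
  ((1 - 2 * M / N + s * (y ^ 2 - 1 / 12) / N : ℝ) : ℂ) - ((2 * n * y / N : ℝ) : ℂ) * Complex.I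

/-- the integrand of the functional of a zone end -/
noncomputable def KI (N M n s : ℝ) (B : Polynomial ℝ) (y : ℝ) : ℝ :=
  (((n : ℂ) + Complex.I * ((s * y : ℝ) : ℂ)) * Polynomial.aeval (zet N M n s y) B).im

/-- the functional of a zone end (mass `M`, size `n`, slope `s`) -/
noncomputable def OS (N M n s : ℝ) (B : Polynomial ℝ) : ℝ :=
  2 * (∫ y in Set.Ioi (0 : ℝ), KI N M n s B y * wp y)
    + (N / 2) * ∫ z in (1 - 2 * M / N)..(1 - 2 * M / N - s / (12 * N)), B.eval z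

/-- the functional of a change from `(n1, s1)` to `(n2, s2)` -/
noncomputable def KF (N M n1 s1 n2 s2 : ℝ) (B : Polynomial ℝ) : ℝ :=
  OS N M n2 s2 B - OS N M n1 s1 B

/-- the functional of the pole -/
noncomputable def PF (N : ℝ) (B : Polynomial ℝ) : ℝ :=
  B.eval 1 - (N / 2) * (∫ z in (1 - 5 / (6 * N))..1, B.eval z)
    - 14 * ∫ y in Set.Ioi (0 : ℝ), y * B.eval (1 + (7 * y ^ 2 - 5 / 6) / N) * wt y

/-- admissible zone ends -/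
structure KOK (t : ℕ) (N M n s : ℝ) : Prop where
  s0 : 0 ≤ s
  s7 : s ≤ 7
  n0 : 0 ≤ n
  Z : |1 - 2 * M / N| ≤ 0.93
  sZ : s = 0 ∨ 0.1 ≤ 1 - 2 * M / N
  sl : 2 * (t : ℝ) * (2 * n / N) ≤ 6.25 * √(1 - (1 - 2 * M / N) ^ 2)
  cu : s * N * (1 - (1 - 2 * M / N)) ≤ 1.001 * n ^ 2

/-- derivatives of the pullback by the sine -/
def NearH (B : Polynomial ℝ) (A Λ : ℝ) : Prop :=
  ∀ k : ℕ, 1 ≤ k → ∀ ψ : ℝ, |ψ| ≤ 1.25 →
    |iteratedDeriv k (fun s => B.eval (sin s)) ψ| ≤ A * Λ ^ k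

/-! ### numerical series -/

noncomputable def Mn (n : ℕ) : ℝ := ∫ y in Set.Ioi (0 : ℝ), y * |y ^ 2 - 5 / 42| ^ n * wt y

noncomputable def al (n : ℕ) : ℝ :=
  (((2 * n).choose n : ℝ) - 2) / ((n.factorial : ℝ) ^ 2 * ((n : ℝ) + 1))

noncomputable def ee (n : ℕ) : ℝ :=
  4.6704 * al n * 2.3352 ^ n * (2 * Mn n + (5 / 42) ^ (n + 1) / (2 * ((n : ℝ) + 1)))

/-- mass of mode `m` on ring `j` of zone 1 -/
noncomputable def WW (j m : ℕ) : ℝ :=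
  4.6704 * (j : ℝ) * (2.3376 * ((j : ℝ) ^ 2 + 5 / 42)) ^ m / ((m.factorial : ℝ) ^ 2)
    * Real.exp (-(4.665 * ((j : ℝ) ^ 2 + 5 / 42) / ((m : ℝ) + 1)))
    / ((m : ℝ) + 1 - 4.665 * ((j : ℝ) ^ 2 + 5 / 42) / ((m : ℝ) + 1))

/-- weights of the levels -/
noncomputable def om (k : ℕ) : ℝ := if k = 1 then 0.95 else 0.1 / 2 ^ k

/-- coefficients of the harmonic error -/
noncomputable def h7 (k : ℕ) : ℝ :=
  ∑ j ∈ (Finset.Icc 1 k).filter (fun j => j ∣ k),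
    2 * (j : ℝ) * (2 / √(7 * (k : ℝ))) * √((2.3352 * ((j : ℝ) ^ 2 + 5 / 42)) ^ (7 * k)) /
      ((7 * k).factorial : ℝ)

/-- `(1 + X)/2` -/
noncomputable def aX : Polynomial ℝ := Polynomial.C (1 / 2) * (1 + Polynomial.X)

end Pool.Agent.Helper83.SE
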