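import Pool.Agent.Helper83.SE.Far
import Pool.Agent.Helper83.SE.Defs

/-!
Project SE, module PC: the localisation error at the pole.

`1 - aX^2 = 1 - (1+w/2)^2 = -w - w^2/4` at `1 + w`; `|w| ≤ (7y^2+1)/N`.  `far_bound` for `B`,
`int_wt` with `6.12 < 2π`; the value at 1 vanishes.  Everything is at most
`C (t/N) S ≤ C S/t`.
-/

set_option autoImplicit false

open MeasureTheory Real Pool.Agent.Helper83.SD

namespace Pool.Agent.Helper83.SE

namespace PCAux

/-- the majorant -/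
noncomputable def FmP (y : ℝ) : ℝ :=
  49 * (y ^ 5 * Real.exp (6.113 * y) * wt y) + 14 * (y ^ 3 * Real.exp (6.113 * y) * wt y)
    + y ^ 1 * Real.exp (6.113 * y) * wt y

lemma hc : (6.113 : ℝ) < 2 * π := by
  have := Real.pi_gt_d2
  norm_num at this ⊢
  linarith

lemma FmP_int : IntegrableOn FmP (Set.Ioi 0) := by
  unfold FmP
  exact (((int_wt 5 (by norm_num) hc).const_mul 49).add
    ((int_wt 3 (by norm_num) hc).const_mul 14)).add (int_wt 1 (by norm_num) hc)

lemma FmP_nonneg {y : ℝ} (hy : 0 < y) : 0 ≤ FmP y := by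
  unfold FmP
  have := wt_pos hy
  positivity

lemma eval_loc (B : Polynomial ℝ) (w : ℝ) :
    ((1 - aX ^ 2) * B).eval (1 + w) = (-w - w ^ 2 / 4) * B.eval (1 + w) := by
  unfold aX
  simp only [Polynomial.eval_mul, Polynomial.eval_sub, Polynomial.eval_one, Polynomial.eval_pow,
    Polynomial.eval_C, Polynomial.eval_add, Polynomial.eval_X]
  ring

end PCAux

open PCAux

theorem pc_bound : ∃ C T0 : ℝ, 0 < C ∧ ∀ (t : ℕ) (N S : ℝ) (B : Polynomial ℝ), T0 ≤ (t : ℝ) →
    1.499 * (t : ℝ) ^ 2 ≤ N → B.natDegree ≤ 2 * t → 0 ≤ S →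
    (∀ z : ℝ, z ^ 2 ≤ 1 → |B.eval z| ≤ S) →
    |PF N ((1 - aX ^ 2) * B)| ≤ C / (t : ℝ) * S := by
  obtain ⟨I, hI⟩ : ∃ I : ℝ, I = ∫ y in Set.Ioi (0 : ℝ), FmP y := ⟨_, rfl⟩
  have hI0 : 0 ≤ I := by
    rw [hI]
    exact setIntegral_nonneg measurableSet_Ioi fun y hy => FmP_nonneg hy
  refine ⟨1 + 70 * I, 1, by linarith, ?_⟩
  intro t N S B ht hN hB hS hBS
  have ht1 : 1 ≤ t := by exact_mod_cast ht
  have ht2 : (t : ℝ) ≤ (t : ℝ) ^ 2 := by nlinarith
  have hN1 : 1 ≤ N := by nlinarith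
  have hN0 : 0 < N := by linarith
  have ht0 : (0 : ℝ) < t := by linarith
  -- the value at 1
  have e1 : ((1 - aX ^ 2) * B).eval 1 = 0 := by
    have := eval_loc B 0
    rw [add_zero] at this
    rw [this]
    ring
  -- the short integral
  have e2 : |(N / 2) * (∫ z in (1 - 5 / (6 * N))..1, ((1 - aX ^ 2) * B).eval z)| ≤ S / N := by
    have h1 : (1 - 5 / (6 * N)) ≤ (1 : ℝ) := by
      have : (0 : ℝ) ≤ 5 / (6 * N) := by positivity
      linarith
    have h2 : ∀ z ∈ Set.uIoc (1 - 5 / (6 * N)) (1 : ℝ), ‖((1 - aX ^ 2) * B).eval z‖ ≤ (2 / N) * S := by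
      intro z hz
      rw [Set.uIoc_of_le h1] at hz
      obtain ⟨w, hw⟩ : ∃ w : ℝ, w = z - 1 := ⟨_, rfl⟩
      have hzw : z = 1 + w := by linarith
      have hwa : -(5 / (6 * N)) ≤ w := by linarith [hz.1]
      have hwb : w ≤ 0 := by linarith [hz.2]
      have h5 : 5 / (6 * N) ≤ 1 / N := by
        rw [div_le_div_iff₀ (by positivity) hN0]
        linarith
      have h6 : 1 / N ≤ 1 := by
        rw [div_le_one hN0]
        exact hN1
      have hz2 : z ^ 2 ≤ 1 := by
        rw [hzw]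
        nlinarith
      rw [Real.norm_eq_abs, hzw, eval_loc, abs_mul, ← hzw]
      have h7 : |(-w - w ^ 2 / 4)| ≤ 2 / N := by
        have h8 : 2 / N = 2 * (1 / N) := by ring
        rw [h8, abs_le]
        constructor
        · nlinarith
        · nlinarith [sq_nonneg w]
      exact mul_le_mul h7 (hBS z hz2) (abs_nonneg _) (by positivity)
    have h3 := intervalIntegral.norm_integral_le_of_norm_le_const h2
    rw [Real.norm_eq_abs] at h3
    have h4 : |(1 : ℝ) - (1 - 5 / (6 * N))| = 5 / (6 * N) := by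
      rw [abs_of_nonneg (by linarith)]
      ring
    rw [h4] at h3
    rw [abs_mul, abs_of_pos (by positivity : (0 : ℝ) < N / 2)]
    calc N / 2 * |∫ z in (1 - 5 / (6 * N))..1, ((1 - aX ^ 2) * B).eval z|
        ≤ N / 2 * ((2 / N) * S * (5 / (6 * N))) :=
          mul_le_mul_of_nonneg_left h3 (by positivity)
      _ = (5 / 6) * (S / N) := by
          field_simp
      _ ≤ S / N := by
          have : 0 ≤ S / N := by positivity
          linarith
  -- the infinite integral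
  have e3 : |∫ y in Set.Ioi (0 : ℝ), y * ((1 - aX ^ 2) * B).eval (1 + (7 * y ^ 2 - 5 / 6) / N) *
      wt y| ≤ (5 / 4) * ((4 * (t : ℝ) + 1) / N) * S * I := by
    rw [hI, ← integral_const_mul, ← Real.norm_eq_abs]
    refine norm_integral_le_of_norm_le (FmP_int.const_mul _) ?_
    refine (ae_restrict_iff' measurableSet_Ioi).2 (Filter.Eventually.of_forall fun y hy => ?_)
    have hy0 : (0 : ℝ) < y := hy
    have hw := wt_pos hy0
    obtain ⟨w, hwd⟩ : ∃ w : ℝ, w = (7 * y ^ 2 - 5 / 6) / N := ⟨_, rfl⟩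
    rw [← hwd, eval_loc, Real.norm_eq_abs, abs_mul, abs_mul, abs_mul, abs_of_pos hy0,
      abs_of_pos hw]
    have h1 := far_bound ht1 hN hN1 hB hBS hy0.le
    rw [← hwd] at h1
    have hq : 0 ≤ 7 * y ^ 2 + 1 := by positivity
    have h2 : |w| ≤ (7 * y ^ 2 + 1) / N := by
      rw [hwd, abs_div, abs_of_pos hN0]
      refine div_le_div_of_nonneg_right ?_ hN0.le
      rw [abs_le]
      constructor <;> nlinarith [sq_nonneg y]
    have h3 : |w| ≤ 7 * y ^ 2 + 1 := h2.trans (div_le_self hq hN1)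
    have h4 : |(-w - w ^ 2 / 4)| ≤ (5 / 4) * ((7 * y ^ 2 + 1) ^ 2 / N) := by
      have h5 : |(-w - w ^ 2 / 4)| ≤ |w| + |w| * |w| / 4 := by
        have h6 : (-w - w ^ 2 / 4 : ℝ) = -(w + w * w / 4) := by ring
        rw [h6, abs_neg]
        refine (abs_add_le _ _).trans ?_
        rw [abs_div, abs_mul, abs_of_pos (by norm_num : (0 : ℝ) < 4)]
      have h7 : |w| + |w| * |w| / 4 ≤ ((7 * y ^ 2 + 1) / N) * (1 + (7 * y ^ 2 + 1) / 4) := by
        have h8 : |w| * |w| ≤ ((7 * y ^ 2 + 1) / N) * (7 * y ^ 2 + 1) :=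
          mul_le_mul h2 h3 (abs_nonneg _) (by positivity)
        nlinarith
      refine h5.trans (h7.trans ?_)
      have h9 : (1 + (7 * y ^ 2 + 1) / 4) ≤ (5 / 4) * (7 * y ^ 2 + 1) := by nlinarith [sq_nonneg y]
      calc ((7 * y ^ 2 + 1) / N) * (1 + (7 * y ^ 2 + 1) / 4)
          ≤ ((7 * y ^ 2 + 1) / N) * ((5 / 4) * (7 * y ^ 2 + 1)) :=
            mul_le_mul_of_nonneg_left h9 (by positivity)
        _ = _ := by ring
    calc y * (|(-w - w ^ 2 / 4)| * |B.eval (1 + w)|) * wt y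
        ≤ y * (((5 / 4) * ((7 * y ^ 2 + 1) ^ 2 / N)) *
          ((4 * (t : ℝ) + 1) * S * Real.exp (6.113 * y))) * wt y := by
          refine mul_le_mul_of_nonneg_right ?_ hw.le
          refine mul_le_mul_of_nonneg_left ?_ hy0.le
          exact mul_le_mul h4 h1 (abs_nonneg _) (by positivity)
      _ = (5 / 4) * ((4 * (t : ℝ) + 1) / N) * S * FmP y := by
          unfold FmP
          ring
  -- conclusion
  have h10 : 1 / N ≤ 1 / t := by
    refine one_div_le_one_div_of_le ht0 ?_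
    nlinarith
  have h11 : (4 * (t : ℝ) + 1) / N ≤ 4 / t := by
    rw [div_le_div_iff₀ hN0 ht0]
    nlinarith
  have h12 : |PF N ((1 - aX ^ 2) * B)| ≤ S / N + 14 * ((5 / 4) * ((4 * (t : ℝ) + 1) / N) * S * I) := by
    unfold PF
    rw [e1, zero_sub]
    refine (abs_sub _ _).trans ?_
    rw [abs_neg]
    refine add_le_add e2 ?_
    rw [abs_mul, abs_of_pos (by norm_num : (0 : ℝ) < 14)]
    exact mul_le_mul_of_nonneg_left e3 (by norm_num)
  refine h12.trans ?_
  have h13 : S / N ≤ (1 / t) * S := by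
    calc S / N = (1 / N) * S := by ring
      _ ≤ _ := mul_le_mul_of_nonneg_right h10 hS
  have h14 : 14 * ((5 / 4) * ((4 * (t : ℝ) + 1) / N) * S * I) ≤ 14 * ((5 / 4) * (4 / t) * S * I) := by
    gcongr
  have h15 : (1 + 70 * I) / (t : ℝ) * S = (1 / t) * S + 14 * ((5 / 4) * (4 / t) * S * I) := by
    ring
  rw [h15]
  linarith

end Pool.Agent.Helper83.SE
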