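import Pool.Agent.Helper83.SE.Lin
import Pool.Agent.Helper83.SD.Growth

/-!
Project SE, module Far: polynomials beyond the pole, growth.

`w = (7y^2 - 5/6)/N`.  For `w ≥ 0` let `cosh b = 1 + w` (`b ≥ 0`), then `b ≤ √(2w) ≤ y √(14/N)`
(`cosh b ≥ 1 + b^2/2`), `2 t b ≤ 2 √(14/1.499) y ≤ 6.1123 y`; `SD.growth` with
`θ = i b` (`cos (i b) = cosh b`).  For `-5/6/N ≤ w ≤ 0` the bound is trivial.
-/

set_option autoImplicit false

open MeasureTheory Real Pool.Agent.Helper83.SD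

namespace Pool.Agent.Helper83.SE

private theorem far_cosh {b : ℝ} (hb : 0 ≤ b) : 1 + b ^ 2 / 2 ≤ Real.cosh b := by
  have h1 : b / 2 ≤ Real.sinh (b / 2) := Real.self_le_sinh_iff.2 (by linarith)
  have h2 : Real.cosh b = Real.cosh (b / 2) ^ 2 + Real.sinh (b / 2) ^ 2 := by
    rw [← Real.cosh_two_mul]; congr 1; ring
  have h3 := Real.cosh_sq (b / 2)
  have h4 : (b / 2) ^ 2 ≤ Real.sinh (b / 2) ^ 2 := pow_le_pow_left₀ (by linarith) h1 2
  nlinarith

theorem far_bound {t : ℕ} {N S : ℝ} {B : Polynomial ℝ} (ht : 1 ≤ t)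
    (hN : 1.499 * (t : ℝ) ^ 2 ≤ N) (hN1 : 1 ≤ N) (hB : B.natDegree ≤ 2 * t)
    (hS : ∀ z : ℝ, z ^ 2 ≤ 1 → |B.eval z| ≤ S) {y : ℝ} (hy : 0 ≤ y) :
    |B.eval (1 + (7 * y ^ 2 - 5 / 6) / N)| ≤ (4 * (t : ℝ) + 1) * S * Real.exp (6.113 * y) := by
  have hS0 : 0 ≤ S := (abs_nonneg _).trans (hS 0 (by norm_num))
  have hN0 : 0 < N := by linarith
  have ht0 : (0 : ℝ) ≤ t := Nat.cast_nonneg t
  set w : ℝ := (7 * y ^ 2 - 5 / 6) / N with hw
  have hwN : w * N = 7 * y ^ 2 - 5 / 6 := by rw [hw]; field_simp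
  rcases le_or_gt w 0 with h0 | h0
  · have h1 : -1 ≤ w := by
      have : -(5 / 6) ≤ w * N := by rw [hwN]; nlinarith [sq_nonneg y]
      by_contra hc
      push Not at hc
      nlinarith
    have h2 : |B.eval (1 + w)| ≤ S := hS _ (by nlinarith)
    have h3 : 1 ≤ Real.exp (6.113 * y) := Real.one_le_exp (by positivity)
    have h4 : S ≤ (4 * (t : ℝ) + 1) * S := by nlinarith
    calc |B.eval (1 + w)| ≤ S := h2
      _ ≤ (4 * (t : ℝ) + 1) * S := h4
      _ ≤ (4 * (t : ℝ) + 1) * S * Real.exp (6.113 * y) := by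
          have : 0 ≤ (4 * (t : ℝ) + 1) * S := by positivity
          nlinarith
  · obtain ⟨b, hb, hbw⟩ : ∃ b ∈ Set.Icc (0 : ℝ) (√(2 * w)), Real.cosh b = 1 + w := by
      have hc : ContinuousOn Real.cosh (Set.Icc (0 : ℝ) (√(2 * w))) :=
        Real.continuous_cosh.continuousOn
      have := intermediate_value_Icc (Real.sqrt_nonneg (2 * w)) hc
      refine this ⟨?_, ?_⟩
      · rw [Real.cosh_zero]; linarith
      · have h := far_cosh (Real.sqrt_nonneg (2 * w))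
        rw [Real.sq_sqrt (by linarith)] at h
        linarith
    have hb0 : 0 ≤ b := hb.1
    have hg := growth B (2 * t) hB hS ((b : ℂ) * Complex.I)
    have hcos : Complex.cos ((b : ℂ) * Complex.I) = ((1 + w : ℝ) : ℂ) := by
      rw [Complex.cos_mul_I, ← Complex.ofReal_cosh, hbw]
    have hev : Polynomial.aeval (((1 + w : ℝ) : ℂ)) B = ((B.eval (1 + w) : ℝ) : ℂ) := by
      have := Polynomial.aeval_algebraMap_apply ℂ (1 + w) B
      simpa using this
    rw [hcos, hev, Complex.norm_real, Real.norm_eq_abs] at hg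
    have him : ((b : ℂ) * Complex.I).im = b := by simp
    rw [him, abs_of_nonneg hb0] at hg
    have hkey : 2 * (t : ℝ) * b ≤ 6.113 * y := by
      have h1 : b ^ 2 ≤ 2 * w := by
        have := pow_le_pow_left₀ hb0 hb.2 2
        rwa [Real.sq_sqrt (by linarith)] at this
      have h2 : 2 * w * N ≤ 14 * y ^ 2 := by nlinarith
      have h3 : 1.499 * (t : ℝ) ^ 2 * b ^ 2 ≤ 14 * y ^ 2 := by
        have : (1.499 * (t : ℝ) ^ 2) * b ^ 2 ≤ N * (2 * w) := by gcongr
        linarith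
      have h4 : (2 * (t : ℝ) * b) ^ 2 ≤ (6.113 * y) ^ 2 := by
        nlinarith
      exact le_of_sq_le_sq h4 (by positivity)
    refine hg.trans ?_
    have hc : (2 * ((2 * t : ℕ) : ℝ) + 1) = 4 * (t : ℝ) + 1 := by push_cast; ring
    have hc2 : (((2 * t : ℕ) : ℝ)) * b = 2 * (t : ℝ) * b := by push_cast; ring
    rw [hc, hc2]
    have : 0 ≤ (4 * (t : ℝ) + 1) * S := by positivity
    exact mul_le_mul_of_nonneg_left (Real.exp_le_exp.2 hkey) this

end Pool.Agent.Helper83.SE
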