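import Pool.Agent.Helper83.SE.Defs
import Pool.Agent.Helper83.SD.Wt

/-!
Project SE, module NumE: a numerical series.

`ee 2 = 0.029258` with the exact value `Mn 2 = 1/504 - (10/42)/240 + (5/42)^2/24`.  For `n ≥ 3`
`Mn n ≤ ∫ y^(2n+1) wt + (5/42)^n/24` with the exact moments (`SD.moment_bern`) or
`SD.moment_le`: `∫ y^(2n+1) wt ≤ 1.01 (2n+1)!/(2π)^(2n+2)`.  This gives for `n = 3, 4, ..`
0.032208, 0.024905, 0.019796, 0.016036, 0.013232, 0.011093, 0.00942, 0.008085, 0.0070, 0.0061,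
0.00536, ... (sum up to n = 13: 0.1825), the ratio of consecutive terms of the main part is
`(2.3352/(2π)^2) * ((2n+2)(2n+1)/(n+1)^2) * ((2n+3)(2n+2)/(n+1)^2) * ((n+1)/(n+2)) * (..)
≤ 16*2.3352/(2π)^2 * (1 - 1/(n+2))..` and always `≤ 0.9465`, so the tail after `n = 13` is at most
`0.00536 * 0.9465/(1 - 0.9465) = 0.095`; total `≤ 0.28 < 0.31`.
(True value of the whole sum with these bounds: 0.2323.)
-/

set_option autoImplicit false

open MeasureTheory Real Pool.Agent.Helper83.SD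

namespace Pool.Agent.Helper83.SE

theorem mn_two : Mn 2 = 1 / 504 - (10 / 42) / 240 + (5 / 42) ^ 2 / 24 := by
  unfold Mn
  have h5 := int_wt0 5 (by norm_num)
  have h3 := int_wt0 3 (by norm_num)
  have h1 := int_wt0 1 le_rfl
  have e : ∀ y : ℝ, y * |y ^ 2 - 5 / 42| ^ 2 * wt y =
      (y ^ 5 * wt y - (10 / 42) * (y ^ 3 * wt y)) + (5 / 42) ^ 2 * (y ^ 1 * wt y) := by
    intro y
    rw [sq_abs]
    ring
  simp only [e]
  have h53 : IntegrableOn (fun y : ℝ => y ^ 5 * wt y - (10 / 42) * (y ^ 3 * wt y)) (Set.Ioi 0) :=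
    h5.sub (h3.const_mul (10 / 42))
  rw [integral_add h53 (h1.const_mul ((5 / 42) ^ 2)),
    integral_sub h5 (h3.const_mul (10 / 42)), integral_const_mul, integral_const_mul, moment_five,
    moment_three]
  simp only [pow_one]
  rw [moment_one]
  norm_num

theorem mn_le (n : ℕ) (hn : 3 ≤ n) :
    Mn n ≤ 1.01 * ((2 * n + 1).factorial : ℝ) / (2 * π) ^ (2 * n + 2) + (5 / 42) ^ n / 24 := by
  have hA := int_wt0 (2 * n + 1) (by omega)
  have hB := int_wt0 1 le_rfl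
  have hle : ∀ y : ℝ, 0 < y → y * |y ^ 2 - 5 / 42| ^ n * wt y ≤
      y ^ (2 * n + 1) * wt y + (5 / 42) ^ n * (y ^ 1 * wt y) := by
    intro y hy
    have hw := wt_pos hy
    have h0 : |y ^ 2 - 5 / 42| ^ n ≤ (y ^ 2) ^ n + (5 / 42) ^ n := by
      rcases le_total (y ^ 2) (5 / 42) with h | h
      · have h1 : |y ^ 2 - 5 / 42| ≤ 5 / 42 := by
          rw [abs_le]
          constructor <;> nlinarith [sq_nonneg y]
        have h2 : |y ^ 2 - 5 / 42| ^ n ≤ (5 / 42) ^ n := pow_le_pow_left₀ (abs_nonneg _) h1 n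
        have h3 : (0 : ℝ) ≤ (y ^ 2) ^ n := by positivity
        linarith
      · have h1 : |y ^ 2 - 5 / 42| ≤ y ^ 2 := by
          rw [abs_le]
          constructor <;> nlinarith [sq_nonneg y]
        have h2 : |y ^ 2 - 5 / 42| ^ n ≤ (y ^ 2) ^ n := pow_le_pow_left₀ (abs_nonneg _) h1 n
        have h3 : (0 : ℝ) ≤ (5 / 42) ^ n := by positivity
        linarith
    have h1 : y * |y ^ 2 - 5 / 42| ^ n * wt y ≤ y * ((y ^ 2) ^ n + (5 / 42) ^ n) * wt y := by
      gcongr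
    refine h1.trans (le_of_eq ?_)
    rw [← pow_mul, pow_succ]
    ring
  have hint : IntegrableOn (fun y : ℝ => y * |y ^ 2 - 5 / 42| ^ n * wt y) (Set.Ioi 0) := by
    refine Integrable.mono' (hA.add (hB.const_mul ((5 / 42) ^ n))) ?_ ?_
    · exact (Measurable.mul (by fun_prop) measurable_wt).aestronglyMeasurable
    · refine (ae_restrict_iff' measurableSet_Ioi).mpr (ae_of_all _ (fun y hy => ?_))
      have hy' : 0 < y := hy
      have hw := wt_pos hy'
      rw [Real.norm_of_nonneg (by positivity)]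
      exact hle y hy'
  have h1 : Mn n ≤ ∫ y in Set.Ioi (0 : ℝ),
      (y ^ (2 * n + 1) * wt y + (5 / 42) ^ n * (y ^ 1 * wt y)) := by
    unfold Mn
    exact setIntegral_mono_on hint (hA.add (hB.const_mul _)) measurableSet_Ioi
      (fun y hy => hle y hy)
  rw [integral_add hA (hB.const_mul _), integral_const_mul] at h1
  simp only [pow_one] at h1
  rw [moment_one] at h1
  have h2 := moment_le (2 * n + 1) (by omega)
  rw [show 2 * n + 1 + 1 = 2 * n + 2 by ring] at h2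
  linarith

private theorem mn_nonneg (n : ℕ) : 0 ≤ Mn n := by
  unfold Mn
  refine setIntegral_nonneg measurableSet_Ioi (fun y hy => ?_)
  have hy' : 0 < y := hy
  have hw := wt_pos hy'
  positivity

private theorem two_le_choose (n : ℕ) (hn : 2 ≤ n) : (2 : ℝ) ≤ ((2 * n).choose n : ℝ) := by
  have h := Nat.two_le_centralBinom n (by omega)
  rw [Nat.centralBinom_eq_two_mul_choose] at h
  exact_mod_cast h

theorem ee_nonneg (n : ℕ) (hn : 2 ≤ n) : 0 ≤ ee n := by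
  have h1 := mn_nonneg n
  have h2 := two_le_choose n hn
  have h3 : 0 ≤ al n := by
    unfold al
    exact div_nonneg (by linarith) (by positivity)
  unfold ee
  positivity

/-- main part -/
private noncomputable def Xm (n : ℕ) : ℝ :=
  4.6704 * (((2 * n).choose n : ℝ) / ((n.factorial : ℝ) ^ 2 * ((n : ℝ) + 1))) * 2.3352 ^ n *
    (2.02 * ((2 * n + 1).factorial : ℝ) / 39.478 ^ (n + 1))

/-- minor part -/
private noncomputable def Ym (n : ℕ) : ℝ :=
  4.6704 * (((2 * n).choose n : ℝ) / ((n.factorial : ℝ) ^ 2 * ((n : ℝ) + 1))) * 2.3352 ^ n *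
    (0.1 * (5 / 42) ^ n)

private theorem choose_rec (n : ℕ) : ((2 * (n + 1)).choose (n + 1) : ℝ) =
    2 * (2 * (n : ℝ) + 1) * ((2 * n).choose n : ℝ) / ((n : ℝ) + 1) := by
  have h := Nat.succ_mul_centralBinom_succ n
  rw [Nat.centralBinom_eq_two_mul_choose, Nat.centralBinom_eq_two_mul_choose] at h
  have h' : ((n : ℝ) + 1) * ((2 * (n + 1)).choose (n + 1) : ℝ) =
      2 * (2 * (n : ℝ) + 1) * ((2 * n).choose n : ℝ) := by exact_mod_cast h
  have h0 : (n : ℝ) + 1 ≠ 0 := by positivity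
  rw [← h']
  field_simp

private theorem Xm_succ (n : ℕ) : Xm (n + 1) = Xm n *
    (4 * (2 * (n : ℝ) + 1) * (2 * (n : ℝ) + 3) / (((n : ℝ) + 1) * ((n : ℝ) + 2)) *
      (2.3352 / 39.478)) := by
  unfold Xm
  rw [choose_rec n]
  have h1 : ((n + 1).factorial : ℝ) = ((n : ℝ) + 1) * (n.factorial : ℝ) := by
    rw [Nat.factorial_succ]; push_cast; ring
  have h2 : ((2 * (n + 1) + 1).factorial : ℝ) =
      (2 * (n : ℝ) + 3) * (2 * (n : ℝ) + 2) * ((2 * n + 1).factorial : ℝ) := by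
    rw [show 2 * (n + 1) + 1 = (2 * n + 1 + 1) + 1 by ring, Nat.factorial_succ,
      Nat.factorial_succ]
    push_cast
    ring
  rw [h1, h2]
  have h3 : (n.factorial : ℝ) ≠ 0 := by positivity
  have h4 : (n : ℝ) + 1 ≠ 0 := by positivity
  have h5 : (n : ℝ) + 2 ≠ 0 := by positivity
  have h6 : ((n : ℝ) + 1 + 1) ≠ 0 := by positivity
  push_cast
  rw [pow_succ (2.3352 : ℝ) n, pow_succ (39.478 : ℝ) (n + 1)]
  have h7 : (39.478 : ℝ) ^ (n + 1) ≠ 0 := by positivity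
  rw [show (n : ℝ) + 1 + 1 = (n : ℝ) + 2 by ring]
  field_simp
  ring

private theorem Ym_succ (n : ℕ) : Ym (n + 1) = Ym n *
    (2 * (2 * (n : ℝ) + 1) / (((n : ℝ) + 1) ^ 2 * ((n : ℝ) + 2)) * (2.3352 * (5 / 42))) := by
  unfold Ym
  rw [choose_rec n]
  have h1 : ((n + 1).factorial : ℝ) = ((n : ℝ) + 1) * (n.factorial : ℝ) := by
    rw [Nat.factorial_succ]; push_cast; ring
  rw [h1]
  have h3 : (n.factorial : ℝ) ≠ 0 := by positivity
  have h4 : (n : ℝ) + 1 ≠ 0 := by positivity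
  have h5 : (n : ℝ) + 2 ≠ 0 := by positivity
  push_cast
  rw [pow_succ (2.3352 : ℝ) n, pow_succ (5 / 42 : ℝ) n]
  rw [show (n : ℝ) + 1 + 1 = (n : ℝ) + 2 by ring]
  field_simp

private theorem Xm_nonneg (n : ℕ) : 0 ≤ Xm n := by unfold Xm; positivity
private theorem Ym_nonneg (n : ℕ) : 0 ≤ Ym n := by unfold Ym; positivity

private theorem ee_le (n : ℕ) (hn : 3 ≤ n) : ee n ≤ Xm n + Ym n := by
  have hal : al n ≤ ((2 * n).choose n : ℝ) / ((n.factorial : ℝ) ^ 2 * ((n : ℝ) + 1)) := by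
    unfold al
    gcongr
    linarith
  have hal0 : 0 ≤ al n := by
    unfold al
    have := two_le_choose n (by omega)
    exact div_nonneg (by linarith) (by positivity)
  have hM := mn_le n hn
  have hpi : (39.478 : ℝ) ≤ (2 * π) ^ 2 := by
    have := Real.pi_gt_d6
    nlinarith
  have hp : (39.478 : ℝ) ^ (n + 1) ≤ (2 * π) ^ (2 * n + 2) := by
    rw [show 2 * n + 2 = 2 * (n + 1) by ring, pow_mul]
    exact pow_le_pow_left₀ (by norm_num) hpi _
  have h1 : 1.01 * ((2 * n + 1).factorial : ℝ) / (2 * π) ^ (2 * n + 2) ≤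
      1.01 * ((2 * n + 1).factorial : ℝ) / 39.478 ^ (n + 1) := by
    gcongr
  have hn' : (3 : ℝ) ≤ n := by exact_mod_cast hn
  have h2 : (5 / 42 : ℝ) ^ (n + 1) / (2 * ((n : ℝ) + 1)) ≤ (5 / 42) ^ n * (5 / 336) := by
    rw [pow_succ, div_le_iff₀ (by positivity)]
    have : (0 : ℝ) ≤ (5 / 42) ^ n := by positivity
    nlinarith
  have h3 : 2 * Mn n + (5 / 42) ^ (n + 1) / (2 * ((n : ℝ) + 1)) ≤
      2.02 * ((2 * n + 1).factorial : ℝ) / 39.478 ^ (n + 1) + 0.1 * (5 / 42) ^ n := by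
    have h4 : 2.02 * ((2 * n + 1).factorial : ℝ) / 39.478 ^ (n + 1) =
        2 * (1.01 * ((2 * n + 1).factorial : ℝ) / 39.478 ^ (n + 1)) := by ring
    have : (0 : ℝ) ≤ (5 / 42) ^ n := by positivity
    rw [h4]
    linarith
  have h0 : 0 ≤ 2 * Mn n + (5 / 42) ^ (n + 1) / (2 * ((n : ℝ) + 1)) := by
    have := mn_nonneg n
    positivity
  have : Xm n + Ym n = 4.6704 * (((2 * n).choose n : ℝ) /
      ((n.factorial : ℝ) ^ 2 * ((n : ℝ) + 1))) * 2.3352 ^ n *
      (2.02 * ((2 * n + 1).factorial : ℝ) / 39.478 ^ (n + 1) + 0.1 * (5 / 42) ^ n) := by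
    unfold Xm Ym
    ring
  rw [this]
  unfold ee
  gcongr

private theorem ee_two : ee 2 ≤ 0.02926 := by
  unfold ee al
  rw [mn_two]
  norm_num [Nat.choose, Nat.factorial]

private theorem ratio_le (n : ℕ) (hn : 3 ≤ n) : Xm (n + 1) + Ym (n + 1) ≤
    0.9465 * (Xm n + Ym n) := by
  have hn' : (3 : ℝ) ≤ n := by exact_mod_cast hn
  have h1 : 4 * (2 * (n : ℝ) + 1) * (2 * (n : ℝ) + 3) / (((n : ℝ) + 1) * ((n : ℝ) + 2)) *
      (2.3352 / 39.478) ≤ 0.9465 := by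
    have h : 4 * (2 * (n : ℝ) + 1) * (2 * (n : ℝ) + 3) / (((n : ℝ) + 1) * ((n : ℝ) + 2)) ≤ 16 := by
      rw [div_le_iff₀ (by positivity)]
      nlinarith
    have h' : (16 : ℝ) * (2.3352 / 39.478) ≤ 0.9465 := by norm_num
    nlinarith
  have h2 : 2 * (2 * (n : ℝ) + 1) / (((n : ℝ) + 1) ^ 2 * ((n : ℝ) + 2)) * (2.3352 * (5 / 42)) ≤
      0.9465 := by
    have h : 2 * (2 * (n : ℝ) + 1) / (((n : ℝ) + 1) ^ 2 * ((n : ℝ) + 2)) ≤ 1 := by
      rw [div_le_iff₀ (by positivity)]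
      nlinarith
    have h' : (1 : ℝ) * (2.3352 * (5 / 42)) ≤ 0.9465 := by norm_num
    nlinarith
  rw [Xm_succ, Ym_succ]
  have h3 := mul_le_mul_of_nonneg_left h1 (Xm_nonneg n)
  have h4 := mul_le_mul_of_nonneg_left h2 (Ym_nonneg n)
  linarith

private theorem tail_le (m : ℕ) : ∑ n ∈ Finset.Icc 2 (12 + m), ee n +
    (Xm (12 + m) + Ym (12 + m)) * (0.9465 / 0.0535) ≤
    ∑ n ∈ Finset.Icc 2 12, ee n + (Xm 12 + Ym 12) * (0.9465 / 0.0535) := by
  induction m with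
  | zero => exact le_rfl
  | succ m ih =>
    refine le_trans ?_ ih
    have h1 : ∑ n ∈ Finset.Icc 2 (12 + (m + 1)), ee n =
        ∑ n ∈ Finset.Icc 2 (12 + m), ee n + ee (12 + m + 1) := by
      rw [show 12 + (m + 1) = (12 + m) + 1 by ring,
        Finset.sum_Icc_succ_top (by omega)]
    have h2 := ee_le (12 + m + 1) (by omega)
    have h3 := ratio_le (12 + m) (by omega)
    rw [h1, show 12 + (m + 1) = (12 + m) + 1 by ring]
    linarith

private theorem X3 : Xm 3 ≤ 0.03463 := by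
  unfold Xm
  norm_num [Nat.choose, Nat.factorial]

private theorem Y3 : Ym 3 ≤ 0.0014 := by
  unfold Ym
  norm_num [Nat.choose, Nat.factorial]

private theorem X_step (n : ℕ) (a b : ℝ) (h : Xm n ≤ a)
    (hb : a * (4 * (2 * (n : ℝ) + 1) * (2 * (n : ℝ) + 3) / (((n : ℝ) + 1) * ((n : ℝ) + 2)) *
      (2.3352 / 39.478)) ≤ b) : Xm (n + 1) ≤ b := by
  rw [Xm_succ]
  refine le_trans ?_ hb
  gcongr

private theorem Y_step (n : ℕ) (a b : ℝ) (h : Ym n ≤ a)
    (hb : a * (2 * (2 * (n : ℝ) + 1) / (((n : ℝ) + 1) ^ 2 * ((n : ℝ) + 2)) *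
      (2.3352 * (5 / 42))) ≤ b) : Ym (n + 1) ≤ b := by
  rw [Ym_succ]
  refine le_trans ?_ hb
  gcongr

theorem ee_sum (K : ℕ) : ∑ n ∈ Finset.Icc 2 K, ee n ≤ 0.31 := by
  have x4 : Xm 4 ≤ 0.02582 := X_step 3 0.03463 _ X3 (by norm_num)
  have x5 : Xm 5 ≤ 0.02017 := X_step 4 0.02582 _ x4 (by norm_num)
  have x6 : Xm 6 ≤ 0.01625 := X_step 5 0.02017 _ x5 (by norm_num)
  have x7 : Xm 7 ≤ 0.0134 := X_step 6 0.01625 _ x6 (by norm_num)
  have x8 : Xm 8 ≤ 0.01124 := X_step 7 0.0134 _ x7 (by norm_num)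
  have x9 : Xm 9 ≤ 0.00956 := X_step 8 0.01124 _ x8 (by norm_num)
  have x10 : Xm 10 ≤ 0.00822 := X_step 9 0.00956 _ x9 (by norm_num)
  have x11 : Xm 11 ≤ 0.00713 := X_step 10 0.00822 _ x10 (by norm_num)
  have x12 : Xm 12 ≤ 0.00623 := X_step 11 0.00713 _ x11 (by norm_num)
  have y4 : Ym 4 ≤ 0.0001 := Y_step 3 0.0014 _ Y3 (by norm_num)
  have y5 : Ym 5 ≤ 0.00001 := Y_step 4 0.0001 _ y4 (by norm_num)
  have y6 : Ym 6 ≤ 0.00001 := Y_step 5 0.00001 _ y5 (by norm_num)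
  have y7 : Ym 7 ≤ 0.00001 := Y_step 6 0.00001 _ y6 (by norm_num)
  have y8 : Ym 8 ≤ 0.00001 := Y_step 7 0.00001 _ y7 (by norm_num)
  have y9 : Ym 9 ≤ 0.00001 := Y_step 8 0.00001 _ y8 (by norm_num)
  have y10 : Ym 10 ≤ 0.00001 := Y_step 9 0.00001 _ y9 (by norm_num)
  have y11 : Ym 11 ≤ 0.00001 := Y_step 10 0.00001 _ y10 (by norm_num)
  have y12 : Ym 12 ≤ 0.00001 := Y_step 11 0.00001 _ y11 (by norm_num)
  have x3 := X3
  have y3 := Y3
  have e2 := ee_two
  have e3 := ee_le 3 (by norm_num)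
  have e4 := ee_le 4 (by norm_num)
  have e5 := ee_le 5 (by norm_num)
  have e6 := ee_le 6 (by norm_num)
  have e7 := ee_le 7 (by norm_num)
  have e8 := ee_le 8 (by norm_num)
  have e9 := ee_le 9 (by norm_num)
  have e10 := ee_le 10 (by norm_num)
  have e11 := ee_le 11 (by norm_num)
  have e12 := ee_le 12 (by norm_num)
  have hS : ∑ n ∈ Finset.Icc 2 12, ee n = ee 2 + ee 3 + ee 4 + ee 5 + ee 6 + ee 7 + ee 8 + ee 9
      + ee 10 + ee 11 + ee 12 := by
    norm_num [Finset.sum_Icc_succ_top]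
  have hT := tail_le K
  rw [hS] at hT
  have hmono : ∑ n ∈ Finset.Icc 2 K, ee n ≤ ∑ n ∈ Finset.Icc 2 (12 + K), ee n := by
    refine Finset.sum_le_sum_of_subset_of_nonneg ?_ ?_
    · exact Finset.Icc_subset_Icc_right (by omega)
    · intro n hn _
      exact ee_nonneg n (Finset.mem_Icc.mp hn).1
  have hXY : 0 ≤ (Xm (12 + K) + Ym (12 + K)) * (0.9465 / 0.0535) := by
    have h1 := Xm_nonneg (12 + K)
    have h2 := Ym_nonneg (12 + K)
    positivity
  have hlast : (Xm 12 + Ym 12) * (0.9465 / 0.0535) ≤ 0.1104 := by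
    have : Xm 12 + Ym 12 ≤ 0.00624 := by linarith
    refine le_trans (mul_le_mul_of_nonneg_right this (by norm_num)) (by norm_num)
  linarith

end Pool.Agent.Helper83.SE
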