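import Pool.Agent.Helper83.SE.TayB
import Pool.Agent.Helper83.SE.NumE
import Pool.Agent.Helper83.SE.Far

/-!
Project SE, module PQe: the pole functional of even modes.

`P = (1-X^2)^m g^2 ≥ 0`, `m ≥ 2` even, `P(1) = 0`, degree `≤ 2t`.  For `y ≤ 100 log t` (and in the
first integral) `gm_bound`, `C(2n, n-m) ≤ C(2n,n) - 2` for `n ≥ m ≥ 2`, and
`|1 + w/2|^m ≤ exp(m |w|/2) ≤ 1 + 1/t^{1/2}` for large `t` (`|w| ≤ 7·10^4 log^2 t/N`):
as in PQ0 this part is at most `(1 + t^{-1/2}) N nrm Σ ee n ≤ 0.315 N nrm`.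
For `y > 100 log t`: `far_bound` with `S = (2t+1)^2 nrm m g` (`nikolskii`, `P ≥ 0`,
`(1/2) ∫ P = nrm m g`), `6.113 < 2π - 0.17`: `≤ C t^4 t^{-15} nrm`.
-/

set_option autoImplicit false

open MeasureTheory Real Pool.Agent.Helper83.SD

namespace Pool.Agent.Helper83.SE

private theorem pe_choose {n m : ℕ} (hm : 2 ≤ m) (hn : m ≤ n) :
    ((2 * n).choose (n - m) : ℝ) ≤ ((2 * n).choose n : ℝ) - 2 := by
  have h1 : (2 * n).choose (n - m) ≤ (2 * n).choose (n - 2) := by
    obtain ⟨d, hd⟩ : ∃ d, n - 2 = n - m + d := ⟨m - 2, by omega⟩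
    have key : ∀ d : ℕ, n - m + d ≤ n - 2 →
        (2 * n).choose (n - m) ≤ (2 * n).choose (n - m + d) := by
      intro d
      induction d with
      | zero => intro _; exact le_rfl
      | succ e ih =>
        intro h
        refine (ih (by omega)).trans ?_
        have := Nat.choose_le_succ_of_lt_half_left (r := n - m + e) (n := 2 * n) (by omega)
        simpa [Nat.succ_eq_add_one, add_assoc] using this
    rw [hd]
    exact key d (by omega)
  have e1 : (2 * n).choose (n - 2) < (2 * n).choose (n - 1) := by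
    have h := Nat.choose_succ_right_eq (2 * n) (n - 2)
    have e : n - 2 + 1 = n - 1 := by omega
    rw [e] at h
    have hpos : 0 < (2 * n).choose (n - 2) := Nat.choose_pos (by omega)
    have hlt : n - 1 < 2 * n - (n - 2) := by omega
    by_contra hcon
    have h3 : (2 * n).choose (n - 1) * (n - 1) ≤ (2 * n).choose (n - 2) * (n - 1) :=
      Nat.mul_le_mul_right _ (not_lt.mp hcon)
    have h4 : (2 * n).choose (n - 2) * (n - 1) < (2 * n).choose (n - 2) * (2 * n - (n - 2)) :=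
      Nat.mul_lt_mul_of_pos_left hlt hpos
    omega
  have e2 : (2 * n).choose (n - 1) < (2 * n).choose n := by
    have h := Nat.choose_succ_right_eq (2 * n) (n - 1)
    have e : n - 1 + 1 = n := by omega
    rw [e] at h
    have hpos : 0 < (2 * n).choose (n - 1) := Nat.choose_pos (by omega)
    have hlt : n < 2 * n - (n - 1) := by omega
    by_contra hcon
    have h3 : (2 * n).choose n * n ≤ (2 * n).choose (n - 1) * n :=
      Nat.mul_le_mul_right _ (not_lt.mp hcon)
    have h4 : (2 * n).choose (n - 1) * n < (2 * n).choose (n - 1) * (2 * n - (n - 1)) :=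
      Nat.mul_lt_mul_of_pos_left hlt hpos
    omega
  have h5 : (2 * n).choose (n - m) + 2 ≤ (2 * n).choose n := by omega
  have h6 : (((2 * n).choose (n - m) + 2 : ℕ) : ℝ) ≤ (((2 * n).choose n : ℕ) : ℝ) := by
    exact_mod_cast h5
  push_cast at h6
  linarith

private theorem al_nonneg {n : ℕ} (hn : 2 ≤ n) : 0 ≤ al n := by
  unfold al
  have h := pe_choose (n := n) (m := 2) le_rfl hn
  have h0 : (0 : ℝ) ≤ ((2 * n).choose (n - 2) : ℝ) := Nat.cast_nonneg _
  exact div_nonneg (by linarith) (by positivity)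

/-- the near bound -/
private theorem pe_near {t m : ℕ} {g : Polynomial ℝ} (hm2 : 2 ≤ m) (hmt : m ≤ t) (hev : Even m)
    (hg : g.natDegree ≤ t - m) {s w : ℝ} (hs : |1 + w / 2| ^ m ≤ s) :
    ((1 - Polynomial.X ^ 2) ^ m * g ^ 2 : Polynomial ℝ).eval (1 + w) ≤ nrm m g * s *
      ∑ n ∈ Finset.Icc 2 (2 * t), al n * (|w| / 2) ^ n * (((t : ℝ) + 1) ^ 2) ^ (n + 1) := by
  have h := gm_bound (by omega : 1 ≤ m) hmt hg w
  have hν := nrm_nonneg m g
  have e1 : ((1 - Polynomial.X ^ 2) ^ m * g ^ 2 : Polynomial ℝ).eval (1 + w)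
      = |1 - (1 + w) ^ 2| ^ m * (g.eval (1 + w)) ^ 2 := by
    rw [hev.pow_abs]
    simp
  rw [e1]
  refine h.trans ?_
  have hS0 : 0 ≤ ∑ n ∈ Finset.Icc m (2 * t), (((2 * n).choose (n - m) : ℝ) /
        ((n.factorial : ℝ) ^ 2 * ((n : ℝ) + 1))) * (|w| / 2) ^ n *
        (((t : ℝ) + 1) ^ 2) ^ (n + 1) :=
    Finset.sum_nonneg fun n _ => by positivity
  have hle : ∑ n ∈ Finset.Icc m (2 * t), (((2 * n).choose (n - m) : ℝ) /
        ((n.factorial : ℝ) ^ 2 * ((n : ℝ) + 1))) * (|w| / 2) ^ n *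
        (((t : ℝ) + 1) ^ 2) ^ (n + 1) ≤
      ∑ n ∈ Finset.Icc 2 (2 * t), al n * (|w| / 2) ^ n * (((t : ℝ) + 1) ^ 2) ^ (n + 1) := by
    refine (Finset.sum_le_sum fun n hn => ?_).trans
      (Finset.sum_le_sum_of_subset_of_nonneg (Finset.Icc_subset_Icc_left hm2) ?_)
    · have hn' := (Finset.mem_Icc.1 hn).1
      unfold al
      gcongr
      exact pe_choose hm2 hn'
    · intro n hn _
      have := al_nonneg (Finset.mem_Icc.1 hn).1
      positivity
  exact mul_le_mul (mul_le_mul_of_nonneg_left hs hν) hle hS0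
    (mul_nonneg hν ((by positivity : (0 : ℝ) ≤ |1 + w / 2| ^ m).trans hs))

/-- powers against the numerical constant -/
private theorem pe_pow {T N v w : ℝ} (hT0 : 0 ≤ T) (hN : 0 < N) (hT : T ≤ 0.6672 * N)
    (hv : 0 ≤ v) (hw : |w| = 7 * v / N) (n : ℕ) :
    (|w| / 2) ^ n * T ^ (n + 1) ≤ T * (2.3352 ^ n * v ^ n) := by
  have h1 : |w| / 2 * T ≤ 2.3352 * v := by
    rw [hw]
    have : 7 * v / N / 2 * T = (7 * v / 2) * (T / N) := by ring
    rw [this]
    have h2 : T / N ≤ 0.6672 := by rwa [div_le_iff₀ hN]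
    nlinarith
  have h0 : 0 ≤ |w| / 2 * T := by positivity
  calc (|w| / 2) ^ n * T ^ (n + 1) = T * (|w| / 2 * T) ^ n := by rw [mul_pow]; ring
    _ ≤ T * (2.3352 * v) ^ n := by gcongr
    _ = T * (2.3352 ^ n * v ^ n) := by rw [mul_pow]

private theorem pe_int (n : ℕ) :
    IntegrableOn (fun y : ℝ => y * |y ^ 2 - 5 / 42| ^ n * wt y) (Set.Ioi 0) := by
  have h1 : IntegrableOn (fun y : ℝ => ∑ k ∈ Finset.range (n + 1),
      (n.choose k : ℝ) * (y ^ (2 * k + 1) * wt y)) (Set.Ioi 0) := by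
    refine integrable_finsetSum _ fun k _ => ?_
    exact (int_wt0 (2 * k + 1) (by omega)).const_mul _
  refine Integrable.mono' h1 ?_ ?_
  · refine AEStronglyMeasurable.mul ?_ measurable_wt.aestronglyMeasurable
    exact (by fun_prop : Continuous fun y : ℝ => y * |y ^ 2 - 5 / 42| ^ n).aestronglyMeasurable
  · refine (ae_restrict_iff' measurableSet_Ioi).2 (Filter.Eventually.of_forall fun y hy => ?_)
    have hy' : (0 : ℝ) < y := hy
    have hw := (wt_pos hy').le
    rw [Real.norm_of_nonneg (by positivity)]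
    have h2 : |y ^ 2 - 5 / 42| ^ n ≤ (y ^ 2 + 1) ^ n := by
      refine pow_le_pow_left₀ (abs_nonneg _) ?_ n
      rw [abs_le]
      constructor <;> nlinarith [sq_nonneg y]
    calc y * |y ^ 2 - 5 / 42| ^ n * wt y ≤ y * (y ^ 2 + 1) ^ n * wt y := by gcongr
      _ = ∑ k ∈ Finset.range (n + 1), (n.choose k : ℝ) * (y ^ (2 * k + 1) * wt y) := by
        rw [add_pow, Finset.mul_sum, Finset.sum_mul]
        refine Finset.sum_congr rfl fun k _ => ?_
        have e : y ^ (2 * k + 1) = (y ^ 2) ^ k * y := by rw [pow_succ, pow_mul]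
        rw [one_pow, mul_one, e]
        ring

/-- the first integral -/
private theorem pe_first {t m : ℕ} {N : ℝ} {g : Polynomial ℝ} (hN : 0 < N)
    (hT : ((t : ℝ) + 1) ^ 2 ≤ 0.6672 * N) (hN1 : 1 ≤ N) (hm2 : 2 ≤ m) (hmt : m ≤ t) (hev : Even m)
    (hg : g.natDegree ≤ t - m) :
    (N / 2) * (∫ z in (1 - 5 / (6 * N))..1,
      ((1 - Polynomial.X ^ 2) ^ m * g ^ 2 : Polynomial ℝ).eval z) ≤
      N * nrm m g * ∑ n ∈ Finset.Icc 2 (2 * t),
        4.6704 * al n * 2.3352 ^ n * ((5 / 42) ^ (n + 1) / (2 * ((n : ℝ) + 1))) := by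
  have hν := nrm_nonneg m g
  have ha : (1 - 5 / (6 * N)) ≤ (1 : ℝ) := by
    have : 0 ≤ 5 / (6 * N) := by positivity
    linarith
  have h56 : 5 / (6 * N) ≤ 1 := by
    rw [div_le_one (by positivity)]
    linarith
  set P : Polynomial ℝ := (1 - Polynomial.X ^ 2) ^ m * g ^ 2 with hP
  have hb : ∫ z in (1 - 5 / (6 * N))..1, P.eval z ≤ ∫ z in (1 - 5 / (6 * N))..1,
      nrm m g * ∑ n ∈ Finset.Icc 2 (2 * t), al n * ((1 - z) / 2) ^ n *
        (((t : ℝ) + 1) ^ 2) ^ (n + 1) := by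
    refine intervalIntegral.integral_mono_on ha ?_ ?_ fun z hz => ?_
    · exact (Polynomial.continuous P).intervalIntegrable _ _
    · refine Continuous.intervalIntegrable ?_ _ _
      fun_prop
    · have h := pe_near (w := z - 1) (s := 1) hm2 hmt hev hg (by
        refine pow_le_one₀ (abs_nonneg _) ?_
        rw [abs_le]
        constructor <;> linarith [hz.1, hz.2])
      rw [abs_of_nonpos (by linarith [hz.2]), mul_one, show (1 : ℝ) + (z - 1) = z by ring,
        show -(z - 1) = 1 - z by ring] at h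
      exact h
  have hint : ∫ z in (1 - 5 / (6 * N))..1,
      nrm m g * ∑ n ∈ Finset.Icc 2 (2 * t), al n * ((1 - z) / 2) ^ n *
        (((t : ℝ) + 1) ^ 2) ^ (n + 1) = nrm m g * ∑ n ∈ Finset.Icc 2 (2 * t),
          al n * (2 * (5 / (12 * N)) ^ (n + 1) / ((n : ℝ) + 1)) *
            (((t : ℝ) + 1) ^ 2) ^ (n + 1) := by
    rw [intervalIntegral.integral_const_mul, intervalIntegral.integral_finsetSum]
    · congr 1
      refine Finset.sum_congr rfl fun n _ => ?_
      rw [intervalIntegral.integral_mul_const, intervalIntegral.integral_const_mul]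
      congr 2
      have hd : ∀ x ∈ Set.uIcc (1 - 5 / (6 * N)) 1,
          HasDerivAt (fun z : ℝ => -(2 * ((1 - z) / 2) ^ (n + 1) / ((n : ℝ) + 1)))
            (((1 - x) / 2) ^ n) x := by
        intro x _
        have h1 : HasDerivAt (fun z : ℝ => (1 - z) / 2) (-1 / 2) x := by
          have := ((hasDerivAt_const x (1 : ℝ)).sub (hasDerivAt_id x)).div_const 2
          simpa using this
        have h2 := ((h1.pow (n + 1)).const_mul 2).div_const ((n : ℝ) + 1)
        have h3 := h2.neg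
        have hn1 : ((n : ℝ) + 1) ≠ 0 := by positivity
        refine h3.congr_deriv ?_
        simp only [Nat.add_sub_cancel, Nat.cast_add, Nat.cast_one]
        field_simp
      rw [intervalIntegral.integral_eq_sub_of_hasDerivAt hd
        ((by fun_prop : Continuous fun z : ℝ => ((1 - z) / 2) ^ n).intervalIntegrable _ _)]
      have e : (1 - (1 - 5 / (6 * N))) / 2 = 5 / (12 * N) := by
        field_simp
        ring
      rw [e]
      simp
    · intro n _
      exact (by fun_prop : Continuous fun z : ℝ => al n * ((1 - z) / 2) ^ n *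
        (((t : ℝ) + 1) ^ 2) ^ (n + 1)).intervalIntegrable _ _
  rw [hint] at hb
  have h2 : (N / 2) * (nrm m g * ∑ n ∈ Finset.Icc 2 (2 * t),
          al n * (2 * (5 / (12 * N)) ^ (n + 1) / ((n : ℝ) + 1)) *
            (((t : ℝ) + 1) ^ 2) ^ (n + 1)) ≤
      N * nrm m g * ∑ n ∈ Finset.Icc 2 (2 * t),
        4.6704 * al n * 2.3352 ^ n * ((5 / 42) ^ (n + 1) / (2 * ((n : ℝ) + 1))) := by
    rw [Finset.mul_sum, Finset.mul_sum, Finset.mul_sum]
    refine Finset.sum_le_sum fun n hn => ?_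
    have hal := al_nonneg (Finset.mem_Icc.1 hn).1
    have h3 : (5 / (12 * N)) ^ (n + 1) * (((t : ℝ) + 1) ^ 2) ^ (n + 1) ≤
        (2.3352 * (5 / 42)) ^ (n + 1) := by
      rw [← mul_pow]
      refine pow_le_pow_left₀ (by positivity) ?_ _
      have e : 5 / (12 * N) * ((t : ℝ) + 1) ^ 2 = (5 / 12) * (((t : ℝ) + 1) ^ 2 / N) := by
        field_simp
      rw [e]
      have : ((t : ℝ) + 1) ^ 2 / N ≤ 0.6672 := by rwa [div_le_iff₀ hN]
      linarith
    calc N / 2 * (nrm m g * (al n * (2 * (5 / (12 * N)) ^ (n + 1) / ((n : ℝ) + 1)) *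
            (((t : ℝ) + 1) ^ 2) ^ (n + 1)))
        = N * nrm m g * (al n / ((n : ℝ) + 1)) * ((5 / (12 * N)) ^ (n + 1) *
            (((t : ℝ) + 1) ^ 2) ^ (n + 1)) := by
          field_simp
      _ ≤ N * nrm m g * (al n / ((n : ℝ) + 1)) * (2.3352 * (5 / 42)) ^ (n + 1) := by
          gcongr
      _ = N * nrm m g * (4.6704 * al n * 2.3352 ^ n * ((5 / 42) ^ (n + 1) /
            (2 * ((n : ℝ) + 1)))) := by
          rw [mul_pow, pow_succ (2.3352 : ℝ) n]
          field_simp
          ring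
  exact (mul_le_mul_of_nonneg_left hb (by positivity)).trans h2

theorem pq_even : ∃ T0 : ℝ, ∀ (t m : ℕ) (N : ℝ) (g : Polynomial ℝ), T0 ≤ (t : ℝ) →
    1.499 * (t : ℝ) ^ 2 ≤ N → ((t : ℝ) + 1) ^ 2 ≤ 0.6672 * N → 2 ≤ m → m ≤ t → Even m → g.natDegree ≤ t - m →
    -(0.38 * N * nrm m g) ≤ PF N ((1 - Polynomial.X ^ 2) ^ m * g ^ 2) := by
  have hpi := Real.pi_gt_d4
  set K : ℝ := ∫ y in Set.Ioi (0 : ℝ), y * Real.exp (6.163 * y) * wt y with hK
  have hKi : IntegrableOn (fun y : ℝ => y * Real.exp (6.163 * y) * wt y) (Set.Ioi 0) := by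
    have := int_wt 1 le_rfl (c := 6.163) (by linarith)
    simpa using this
  have hK0 : 0 ≤ K := by
    refine setIntegral_nonneg measurableSet_Ioi fun y hy => ?_
    have hy' : (0 : ℝ) < y := hy
    have := (wt_pos hy').le
    positivity
  -- large t
  have hlog : ∀ᶠ x : ℝ in Filter.atTop, (70000 * Real.log x ^ 2 + 1) / (2.998 * x) ≤ 0.009 := by
    have h1 : Filter.Tendsto (fun x : ℝ => Real.log x ^ 2 / x) Filter.atTop (nhds 0) := by
      have := (isLittleO_pow_log_id_atTop (n := 2)).tendsto_div_nhds_zero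
      simpa using this
    have h2 : Filter.Tendsto (fun x : ℝ => x⁻¹) Filter.atTop (nhds 0) :=
      tendsto_inv_atTop_zero
    have h3 : Filter.Tendsto (fun x : ℝ => (70000 / 2.998) * (Real.log x ^ 2 / x) +
        (1 / 2.998) * x⁻¹) Filter.atTop (nhds 0) := by
      have h := (h1.const_mul (70000 / 2.998)).add (h2.const_mul (1 / 2.998))
      rwa [mul_zero, mul_zero, add_zero] at h
    have h4 := h3.eventually (gt_mem_nhds (by norm_num : (0 : ℝ) < 0.009))
    filter_upwards [h4, Filter.eventually_gt_atTop (0 : ℝ)] with x hx hx0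
    refine le_of_eq_of_le ?_ hx.le
    field_simp
  obtain ⟨T1, hT1⟩ := Filter.eventually_atTop.1 hlog
  refine ⟨max T1 (max 2 (10500 * K + 1)), ?_⟩
  intro t m N g ht0 hN hT hm2 hmt hev hg
  have htT1 : T1 ≤ (t : ℝ) := (le_max_left _ _).trans ht0
  have ht2 : (2 : ℝ) ≤ t := (le_max_left _ _).trans ((le_max_right _ _).trans ht0)
  have htK : 10500 * K + 1 ≤ (t : ℝ) := (le_max_right _ _).trans ((le_max_right _ _).trans ht0)
  have ht1 : 1 ≤ t := by
    have : (1 : ℝ) ≤ t := by linarith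
    exact_mod_cast this
  have hν := nrm_nonneg m g
  have hNbig : 1 ≤ N := by nlinarith
  have hN0 : 0 < N := by linarith
  set P : Polynomial ℝ := (1 - Polynomial.X ^ 2) ^ m * g ^ 2 with hP
  have hP1 : P.eval 1 = 0 := by
    rw [hP]
    simp [show m ≠ 0 by omega]
  have hPd : P.natDegree ≤ 2 * t := by
    rw [hP]
    refine Polynomial.natDegree_mul_le.trans ?_
    have h1 : ((1 - Polynomial.X ^ 2 : Polynomial ℝ) ^ m).natDegree ≤ m * 2 := by
      refine Polynomial.natDegree_pow_le.trans ?_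
      gcongr
      refine (Polynomial.natDegree_sub_le _ _).trans ?_
      simp
    have h2 : (g ^ 2).natDegree ≤ 2 * (t - m) := by
      refine Polynomial.natDegree_pow_le.trans ?_
      gcongr
    omega
  have hPe : ∀ z : ℝ, P.eval z = (1 - z ^ 2) ^ m * (g.eval z) ^ 2 := by
    intro z
    rw [hP]
    simp
  have hP0 : ∀ z : ℝ, 0 ≤ P.eval z := by
    intro z
    rw [hPe]
    exact mul_nonneg (hev.pow_nonneg _) (sq_nonneg _)
  -- sup bound
  set S : ℝ := (2 * (t : ℝ) + 1) ^ 2 * nrm m g with hS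
  have hSup : ∀ z : ℝ, z ^ 2 ≤ 1 → |P.eval z| ≤ S := by
    intro z hz
    have h := nikolskii hPd hz
    have e : (1 / 2) * ∫ x in (-1 : ℝ)..1, |P.eval x| = nrm m g := by
      unfold nrm
      congr 1
      refine intervalIntegral.integral_congr fun x _ => ?_
      change |P.eval x| = _
      rw [abs_of_nonneg (hP0 x), hPe]
    rw [e] at h
    rw [hS]
    push_cast at h
    exact h
  have hS0 : 0 ≤ S := by positivity
  -- near bound on the second integral
  have hpt : ∀ y : ℝ, 0 < y → y * P.eval (1 + (7 * y ^ 2 - 5 / 6) / N) * wt y ≤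
      (∑ n ∈ Finset.Icc 2 (2 * t), (nrm m g * 1.01 * ((t : ℝ) + 1) ^ 2 * (al n * 2.3352 ^ n)) *
        (y * |y ^ 2 - 5 / 42| ^ n * wt y)) +
      ((4 * (t : ℝ) + 1) * S * (1 / (t : ℝ) ^ 5)) * (y * Real.exp (6.163 * y) * wt y) := by
    intro y hy
    have hw := (wt_pos hy).le
    have hsum0 : 0 ≤ ∑ n ∈ Finset.Icc 2 (2 * t),
        (nrm m g * 1.01 * ((t : ℝ) + 1) ^ 2 * (al n * 2.3352 ^ n)) *
        (y * |y ^ 2 - 5 / 42| ^ n * wt y) := by
      refine Finset.sum_nonneg fun n hn => ?_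
      have := al_nonneg (Finset.mem_Icc.1 hn).1
      positivity
    have hfar0 : 0 ≤ ((4 * (t : ℝ) + 1) * S * (1 / (t : ℝ) ^ 5)) *
        (y * Real.exp (6.163 * y) * wt y) := by positivity
    by_cases hyY : y ≤ 100 * Real.log t
    · refine le_add_of_le_of_nonneg ?_ hfar0
      set w : ℝ := (7 * y ^ 2 - 5 / 6) / N with hwdef
      have hwabs : |w| = 7 * |y ^ 2 - 5 / 42| / N := by
        rw [hwdef, show 7 * y ^ 2 - 5 / 6 = 7 * (y ^ 2 - 5 / 42) by ring, abs_div, abs_mul,
          abs_of_pos hN0]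
        norm_num
      have hsw : |1 + w / 2| ^ m ≤ 1.01 := by
        have h1 : |1 + w / 2| ≤ Real.exp (|w| / 2) := by
          have := Real.add_one_le_exp (|w| / 2)
          have h2 : |1 + w / 2| ≤ 1 + |w| / 2 := by
            refine (abs_add_le _ _).trans ?_
            rw [abs_one, abs_div, abs_two]
          linarith
        have h3 : |w| ≤ (70000 * Real.log t ^ 2 + 1) / N := by
          rw [hwabs]
          gcongr
          have h4 : y ^ 2 ≤ (100 * Real.log t) ^ 2 := by gcongr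
          have h5 : |y ^ 2 - 5 / 42| ≤ y ^ 2 + 5 / 42 := by
            rw [abs_le]
            constructor <;> nlinarith [sq_nonneg y]
          nlinarith
        have h6 : (m : ℝ) * (|w| / 2) ≤ 0.009 := by
          refine le_trans ?_ (hT1 t htT1)
          have hmt' : (m : ℝ) ≤ t := by exact_mod_cast hmt
          have h7 : (m : ℝ) * (|w| / 2) ≤ t * (((70000 * Real.log t ^ 2 + 1) / N) / 2) := by
            gcongr
          refine h7.trans ?_
          have h8 : (t : ℝ) * (((70000 * Real.log t ^ 2 + 1) / N) / 2) =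
              (70000 * Real.log t ^ 2 + 1) * (t / (2 * N)) := by
            field_simp
          rw [h8, div_eq_mul_inv (70000 * Real.log t ^ 2 + 1)]
          refine mul_le_mul_of_nonneg_left ?_ (by positivity)
          rw [← one_div, div_le_div_iff₀ (by positivity) (by positivity)]
          nlinarith
        calc |1 + w / 2| ^ m ≤ (Real.exp (|w| / 2)) ^ m := by
              exact pow_le_pow_left₀ (abs_nonneg _) h1 m
          _ = Real.exp ((m : ℝ) * (|w| / 2)) := by rw [← Real.exp_nat_mul]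
          _ ≤ Real.exp 0.009 := Real.exp_le_exp.2 h6
          _ ≤ 1.01 := by
              have := Real.abs_exp_sub_one_sub_id_le (x := 0.009) (by norm_num)
              have := (abs_le.1 this).2
              norm_num at this ⊢
              linarith
      have h := pe_near (w := w) hm2 hmt hev hg hsw
      have h2 : y * P.eval (1 + w) * wt y ≤ y * (nrm m g * 1.01 *
          ∑ n ∈ Finset.Icc 2 (2 * t), al n * (|w| / 2) ^ n * (((t : ℝ) + 1) ^ 2) ^ (n + 1)) *
          wt y := by gcongr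
      refine h2.trans ?_
      rw [Finset.mul_sum, Finset.mul_sum, Finset.sum_mul]
      refine Finset.sum_le_sum fun n hn => ?_
      have hal := al_nonneg (Finset.mem_Icc.1 hn).1
      have h9 := pe_pow (T := ((t : ℝ) + 1) ^ 2) (by positivity) hN0 hT (abs_nonneg (y ^ 2 - 5 / 42))
        hwabs n
      calc y * (nrm m g * 1.01 * (al n * (|w| / 2) ^ n * (((t : ℝ) + 1) ^ 2) ^ (n + 1))) * wt y
          = (y * (nrm m g * 1.01) * al n * wt y) *
              ((|w| / 2) ^ n * (((t : ℝ) + 1) ^ 2) ^ (n + 1)) := by ring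
        _ ≤ (y * (nrm m g * 1.01) * al n * wt y) *
              (((t : ℝ) + 1) ^ 2 * (2.3352 ^ n * |y ^ 2 - 5 / 42| ^ n)) :=
            mul_le_mul_of_nonneg_left h9 (by positivity)
        _ = _ := by ring
    · refine le_add_of_nonneg_of_le hsum0 ?_
      push Not at hyY
      have h := far_bound ht1 hN hNbig hPd hSup hy.le
      have h1 := (le_abs_self _).trans h
      have h2 : Real.exp (6.113 * y) ≤ (1 / (t : ℝ) ^ 5) * Real.exp (6.163 * y) := by
        have e : (1 / (t : ℝ) ^ 5) = Real.exp (-(5 * Real.log t)) := by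
          rw [Real.exp_neg, one_div]
          congr 1
          rw [show (5 : ℝ) * Real.log t = ((5 : ℕ) : ℝ) * Real.log t by norm_num,
            Real.exp_nat_mul, Real.exp_log (by linarith)]
        rw [e, ← Real.exp_add]
        refine Real.exp_le_exp.2 ?_
        linarith
      calc y * P.eval (1 + (7 * y ^ 2 - 5 / 6) / N) * wt y
          ≤ y * ((4 * (t : ℝ) + 1) * S * Real.exp (6.113 * y)) * wt y := by gcongr
        _ ≤ y * ((4 * (t : ℝ) + 1) * S * ((1 / (t : ℝ) ^ 5) * Real.exp (6.163 * y))) * wt y := by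
            gcongr
        _ = _ := by ring
  -- integrate
  have hI2 : ∫ y in Set.Ioi (0 : ℝ), y * P.eval (1 + (7 * y ^ 2 - 5 / 6) / N) * wt y ≤
      (∑ n ∈ Finset.Icc 2 (2 * t), (nrm m g * 1.01 * ((t : ℝ) + 1) ^ 2 * (al n * 2.3352 ^ n)) *
        Mn n) + ((4 * (t : ℝ) + 1) * S * (1 / (t : ℝ) ^ 5)) * K := by
    have hi1 : IntegrableOn (fun y : ℝ => ∑ n ∈ Finset.Icc 2 (2 * t),
        (nrm m g * 1.01 * ((t : ℝ) + 1) ^ 2 * (al n * 2.3352 ^ n)) *
        (y * |y ^ 2 - 5 / 42| ^ n * wt y)) (Set.Ioi 0) :=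
      integrable_finsetSum _ fun n _ => (pe_int n).const_mul _
    have hi2 := hKi.const_mul ((4 * (t : ℝ) + 1) * S * (1 / (t : ℝ) ^ 5))
    have hmono := setIntegral_mono_on (pf_int N P) (hi1.add hi2) measurableSet_Ioi
      (fun y hy => hpt y hy)
    refine hmono.trans (le_of_eq ?_)
    have e1 := integral_add (μ := volume.restrict (Set.Ioi (0 : ℝ))) hi1 hi2
    refine e1.trans ?_
    congr 1
    · rw [integral_finsetSum _ fun n _ => (pe_int n).const_mul _]
      refine Finset.sum_congr rfl fun n _ => ?_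
      rw [integral_const_mul]
      rfl
    · rw [integral_const_mul]
  have hI1 := pe_first (g := g) hN0 hT hNbig hm2 hmt hev hg
  rw [← hP] at hI1
  have hee := ee_sum (2 * t)
  have hMn : ∀ n : ℕ, 0 ≤ Mn n := by
    intro n
    refine setIntegral_nonneg measurableSet_Ioi fun y hy => ?_
    have hy' : (0 : ℝ) < y := hy
    have := (wt_pos hy').le
    positivity
  -- the two near parts together
  have hA : 14 * (∑ n ∈ Finset.Icc 2 (2 * t), (nrm m g * 1.01 * ((t : ℝ) + 1) ^ 2 *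
        (al n * 2.3352 ^ n)) * Mn n) ≤ 1.01 * (N * nrm m g * ∑ n ∈ Finset.Icc 2 (2 * t),
          4.6704 * al n * 2.3352 ^ n * (2 * Mn n)) := by
    rw [Finset.mul_sum, Finset.mul_sum, Finset.mul_sum]
    refine Finset.sum_le_sum fun n hn => ?_
    have hal := al_nonneg (Finset.mem_Icc.1 hn).1
    have hM := hMn n
    calc 14 * ((nrm m g * 1.01 * ((t : ℝ) + 1) ^ 2 * (al n * 2.3352 ^ n)) * Mn n)
        = (14 * 1.01 * nrm m g * (al n * 2.3352 ^ n) * Mn n) * ((t : ℝ) + 1) ^ 2 := by ring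
      _ ≤ (14 * 1.01 * nrm m g * (al n * 2.3352 ^ n) * Mn n) * (0.6672 * N) :=
          mul_le_mul_of_nonneg_left hT (by positivity)
      _ = _ := by ring
  have hB : N * nrm m g * ∑ n ∈ Finset.Icc 2 (2 * t),
        4.6704 * al n * 2.3352 ^ n * ((5 / 42) ^ (n + 1) / (2 * ((n : ℝ) + 1))) ≤
      1.01 * (N * nrm m g * ∑ n ∈ Finset.Icc 2 (2 * t),
        4.6704 * al n * 2.3352 ^ n * ((5 / 42) ^ (n + 1) / (2 * ((n : ℝ) + 1)))) := by
    have : 0 ≤ N * nrm m g * ∑ n ∈ Finset.Icc 2 (2 * t),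
        4.6704 * al n * 2.3352 ^ n * ((5 / 42) ^ (n + 1) / (2 * ((n : ℝ) + 1))) := by
      refine mul_nonneg (by positivity) (Finset.sum_nonneg fun n hn => ?_)
      have hal := al_nonneg (Finset.mem_Icc.1 hn).1
      positivity
    linarith
  have hC : (∑ n ∈ Finset.Icc 2 (2 * t), 4.6704 * al n * 2.3352 ^ n * (2 * Mn n)) +
      (∑ n ∈ Finset.Icc 2 (2 * t),
        4.6704 * al n * 2.3352 ^ n * ((5 / 42) ^ (n + 1) / (2 * ((n : ℝ) + 1)))) =
      ∑ n ∈ Finset.Icc 2 (2 * t), ee n := by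
    rw [← Finset.sum_add_distrib]
    refine Finset.sum_congr rfl fun n _ => ?_
    unfold ee
    ring
  have hfar : 14 * (((4 * (t : ℝ) + 1) * S * (1 / (t : ℝ) ^ 5)) * K) ≤ 0.06 * N * nrm m g := by
    have h1 : (4 * (t : ℝ) + 1) * (2 * (t : ℝ) + 1) ^ 2 ≤ 45 * (t : ℝ) ^ 3 := by
      have hh : (4 * (t : ℝ) + 1) ≤ 5 * t := by linarith
      have hh2 : (2 * (t : ℝ) + 1) ^ 2 ≤ (3 * t) ^ 2 := by
        gcongr
        linarith
      calc (4 * (t : ℝ) + 1) * (2 * (t : ℝ) + 1) ^ 2 ≤ (5 * t) * (3 * t) ^ 2 := by gcongr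
        _ = 45 * (t : ℝ) ^ 3 := by ring
    have h2 : 14 * (((4 * (t : ℝ) + 1) * S * (1 / (t : ℝ) ^ 5)) * K) =
        (((4 * (t : ℝ) + 1) * (2 * (t : ℝ) + 1) ^ 2) * (14 * K / (t : ℝ) ^ 5)) * nrm m g := by
      rw [hS]
      field_simp
    rw [h2]
    refine mul_le_mul_of_nonneg_right ?_ hν
    have ht3 : (0 : ℝ) < (t : ℝ) := by linarith
    calc ((4 * (t : ℝ) + 1) * (2 * (t : ℝ) + 1) ^ 2) * (14 * K / (t : ℝ) ^ 5)
        ≤ (45 * (t : ℝ) ^ 3) * (14 * K / (t : ℝ) ^ 5) := by gcongr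
      _ = 630 * K / (t : ℝ) ^ 2 := by
          field_simp
          ring
      _ ≤ 0.06 * 1 := by
          rw [div_le_iff₀ (by positivity)]
          nlinarith
      _ ≤ 0.06 * N := by gcongr
  unfold PF
  rw [hP1]
  have h14 : 14 * ∫ y in Set.Ioi (0 : ℝ), y * P.eval (1 + (7 * y ^ 2 - 5 / 6) / N) * wt y ≤
      1.01 * (N * nrm m g * ∑ n ∈ Finset.Icc 2 (2 * t),
          4.6704 * al n * 2.3352 ^ n * (2 * Mn n)) + 0.06 * N * nrm m g := by
    have := mul_le_mul_of_nonneg_left hI2 (by norm_num : (0 : ℝ) ≤ 14)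
    rw [mul_add] at this
    linarith
  have hD : 1.01 * (N * nrm m g * ∑ n ∈ Finset.Icc 2 (2 * t),
          4.6704 * al n * 2.3352 ^ n * (2 * Mn n)) +
      1.01 * (N * nrm m g * ∑ n ∈ Finset.Icc 2 (2 * t),
        4.6704 * al n * 2.3352 ^ n * ((5 / 42) ^ (n + 1) / (2 * ((n : ℝ) + 1)))) ≤
      1.01 * (N * nrm m g * 0.31) := by
    rw [← mul_add, ← mul_add, hC]
    have : N * nrm m g * ∑ n ∈ Finset.Icc 2 (2 * t), ee n ≤ N * nrm m g * 0.31 :=
      mul_le_mul_of_nonneg_left hee (by positivity)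
    linarith
  have hNν : 0 ≤ N * nrm m g := by positivity
  nlinarith

end Pool.Agent.Helper83.SE
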