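import Pool.Agent.Helper83.SE.Lin
import Pool.Agent.Helper83.SD.Mode

/-!
Project SE, module PQo: the pole functional of odd modes.

`P = (1-X^2)^m g^2`, `m` odd: `P(1) = 0` and `P(1+w) ≤ 0` for `w > 0`, so
`PF N P ≥ -(N/2) ∫_{1-5/(6N)}^1 P - 14 ∫_{0<y, y^2<5/42} y P(1+(7y^2-5/6)/N) wt`.  For
`z = 1 + w`, `-5/(6N) ≤ w ≤ 0`: `mode_bound` gives
`P(z) ≤ nrm T (T (1-z^2)/4)^m/((m+1) m!^2) ≤ nrm T * 0.28/2`
(`T(1-z^2)/4 ≤ T|w|/2 ≤ 0.6672 * 5/12 = 0.278`).  `(N/2)(5/(6N)) T 0.14 + 14 (1/24) T 0.14 ≤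
0.15 T ≤ 0.38 N`.
-/

set_option autoImplicit false

open MeasureTheory Real Pool.Agent.Helper83.SD

namespace Pool.Agent.Helper83.SE

private lemma pq_eval (m : ℕ) (g : Polynomial ℝ) (z : ℝ) :
    ((1 - Polynomial.X ^ 2) ^ m * g ^ 2 : Polynomial ℝ).eval z =
      (1 - z ^ 2) ^ m * (g.eval z) ^ 2 := by
  simp

private lemma pq_coef {m : ℕ} (hm : 1 ≤ m) {a : ℝ} (h0 : 0 ≤ a) (ha : a ≤ 0.278) :
    a ^ m / (((m : ℝ) + 1) * (m.factorial : ℝ) ^ 2) ≤ 0.14 := by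
  have hm' : (1 : ℝ) ≤ m := by exact_mod_cast hm
  have hf : (1 : ℝ) ≤ (m.factorial : ℝ) := by exact_mod_cast Nat.one_le_iff_ne_zero.mpr (Nat.factorial_ne_zero m)
  have h1 : a ^ m ≤ 0.278 := by
    obtain ⟨k, rfl⟩ : ∃ k, m = k + 1 := ⟨m - 1, by omega⟩
    rw [pow_succ]
    have h2 : a ^ k ≤ 1 := pow_le_one₀ h0 (by linarith)
    have h3 : 0 ≤ a ^ k := pow_nonneg h0 k
    nlinarith
  have h2 : (2 : ℝ) ≤ ((m : ℝ) + 1) * (m.factorial : ℝ) ^ 2 := by
    have h3 : (1 : ℝ) ≤ (m.factorial : ℝ) ^ 2 := one_le_pow₀ hf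
    nlinarith
  rw [div_le_iff₀ (by linarith)]
  nlinarith

theorem pq_odd {t m : ℕ} {N : ℝ} {g : Polynomial ℝ} (hN : 1 ≤ N) (ht : 1 ≤ t)
    (hT : ((t : ℝ) + 1) ^ 2 ≤ 0.6672 * N) (hm : m ≤ t) (hodd : Odd m)
    (hg : g.natDegree ≤ t - m) :
    -(0.38 * N * nrm m g) ≤ PF N ((1 - Polynomial.X ^ 2) ^ m * g ^ 2) := by
  have hN0 : 0 < N := by linarith
  have hn := nrm_nonneg m g
  have hm1 : 1 ≤ m := hodd.pos
  obtain ⟨T, hTdef⟩ : ∃ T : ℝ, T = ((t : ℝ) + 1) ^ 2 := ⟨_, rfl⟩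
  have hT0 : 0 ≤ T := by rw [hTdef]; positivity
  rw [← hTdef] at hT
  obtain ⟨P, hP⟩ : ∃ P : Polynomial ℝ, P = (1 - Polynomial.X ^ 2) ^ m * g ^ 2 := ⟨_, rfl⟩
  have hPe : ∀ z : ℝ, P.eval z = (1 - z ^ 2) ^ m * (g.eval z) ^ 2 := fun z => by
    rw [hP]; exact pq_eval m g z
  obtain ⟨C, hC⟩ : ∃ C : ℝ, C = 0.14 * T * nrm m g := ⟨_, rfl⟩
  have hC0 : 0 ≤ C := by rw [hC]; positivity
  have hd : 5 / (6 * N) ≤ 5 / 6 := by
    rw [div_le_div_iff₀ (by positivity) (by norm_num)]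
    linarith
  have hle : ∀ z : ℝ, 1 - 5 / (6 * N) ≤ z → z ≤ 1 → P.eval z ≤ C := by
    intro z h1 h2
    have hz0 : 0 ≤ z := by linarith
    have hz1 : z ^ 2 ≤ 1 := by nlinarith
    have hb := mode_bound t m 0 hm g hg z hz1
    simp only [Function.iterate_zero, id, Nat.cast_zero, mul_zero, add_zero, ← hTdef] at hb
    have h3 : 0 ≤ (1 - z ^ 2) ^ m := pow_nonneg (by linarith) m
    have h4 : T * (1 - z ^ 2) / 4 ≤ 0.278 := by
      have h5 : 1 - z ^ 2 ≤ 2 * (5 / (6 * N)) := by nlinarith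
      have h6 : T * (1 - z ^ 2) ≤ 0.6672 * N * (2 * (5 / (6 * N))) :=
        mul_le_mul hT h5 (by linarith) (by positivity)
      have h7 : 0.6672 * N * (2 * (5 / (6 * N))) = 1.112 := by
        field_simp
        norm_num
      rw [h7] at h6
      linarith
    have h5 : 0 ≤ T * (1 - z ^ 2) / 4 := by
      have : 0 ≤ 1 - z ^ 2 := by linarith
      positivity
    have h6 := pq_coef hm1 h5 h4
    rw [hPe]
    have h7 : (T ^ (m + 1) / (((m : ℝ) + 1) * 4 ^ m * (m.factorial : ℝ) ^ 2) * nrm m g) *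
        (1 - z ^ 2) ^ m =
        ((T * (1 - z ^ 2) / 4) ^ m / (((m : ℝ) + 1) * (m.factorial : ℝ) ^ 2)) *
          (T * nrm m g) := by
      have hf : (m.factorial : ℝ) ≠ 0 := by exact_mod_cast Nat.factorial_ne_zero m
      have h41 : (4 : ℝ) ^ m ≠ 0 := by positivity
      rw [div_pow, mul_pow]
      field_simp
      ring
    calc (1 - z ^ 2) ^ m * (g.eval z) ^ 2
        = (g.eval z) ^ 2 * (1 - z ^ 2) ^ m := by ring
      _ ≤ (T ^ (m + 1) / (((m : ℝ) + 1) * 4 ^ m * (m.factorial : ℝ) ^ 2) * nrm m g) *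
        (1 - z ^ 2) ^ m := mul_le_mul_of_nonneg_right hb h3
      _ = _ := h7
      _ ≤ 0.14 * (T * nrm m g) := mul_le_mul_of_nonneg_right h6 (by positivity)
      _ = C := by rw [hC]; ring
  have hneg : ∀ z : ℝ, 1 ≤ z → P.eval z ≤ C := by
    intro z h1
    rw [hPe]
    have h2 : 1 - z ^ 2 ≤ 0 := by nlinarith
    have h3 : (1 - z ^ 2) ^ m ≤ 0 := hodd.pow_nonpos h2
    have h4 : (1 - z ^ 2) ^ m * (g.eval z) ^ 2 ≤ 0 :=
      mul_nonpos_of_nonpos_of_nonneg h3 (sq_nonneg _)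
    linarith
  have hall : ∀ z : ℝ, 1 - 5 / (6 * N) ≤ z → P.eval z ≤ C := fun z h1 => by
    rcases le_total z 1 with h | h
    · exact hle z h1 h
    · exact hneg z h
  have h1 : P.eval 1 = 0 := by
    rw [hPe]
    have : (1 - (1 : ℝ) ^ 2) = 0 := by norm_num
    rw [this, zero_pow (by omega), zero_mul]
  have hpos : 0 < 5 / (6 * N) := by positivity
  have h2 : ∫ z in (1 - 5 / (6 * N))..1, P.eval z ≤ 5 / (6 * N) * C := by
    have h3 : ∫ z in (1 - 5 / (6 * N))..1, P.eval z ≤ ∫ _z in (1 - 5 / (6 * N))..1, C := by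
      refine intervalIntegral.integral_mono_on (by linarith) ?_ ?_ fun z hz => hall z hz.1
      · exact P.continuous.intervalIntegrable _ _
      · exact continuous_const.intervalIntegrable _ _
    rw [intervalIntegral.integral_const, smul_eq_mul] at h3
    linarith
  have h3 : ∫ y in Set.Ioi (0 : ℝ), y * P.eval (1 + (7 * y ^ 2 - 5 / 6) / N) * wt y ≤
      C * (1 / 24) := by
    have h4 : ∫ y in Set.Ioi (0 : ℝ), C * (y * wt y) = C * (1 / 24) := by
      rw [integral_const_mul, moment_one]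
    rw [← h4]
    refine setIntegral_mono_on (pf_int N P) ?_ measurableSet_Ioi fun y hy => ?_
    · have := int_wt0 1 le_rfl
      simp only [pow_one] at this
      exact this.const_mul C
    · have hy0 : 0 < y := hy
      have hw := wt_pos hy0
      have h5 : P.eval (1 + (7 * y ^ 2 - 5 / 6) / N) ≤ C := by
        apply hall
        have h6 : 5 / (6 * N) = (5 / 6) / N := by field_simp
        rw [h6, sub_div]
        have : 0 ≤ 7 * y ^ 2 / N := by positivity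
        linarith
      have h6 : 0 ≤ y * wt y := by positivity
      calc y * P.eval (1 + (7 * y ^ 2 - 5 / 6) / N) * wt y
          = P.eval (1 + (7 * y ^ 2 - 5 / 6) / N) * (y * wt y) := by ring
        _ ≤ C * (y * wt y) := mul_le_mul_of_nonneg_right h5 h6
  rw [← hP]
  unfold PF
  rw [h1]
  have h4 : N / 2 * ∫ z in (1 - 5 / (6 * N))..1, P.eval z ≤ 5 / 12 * C := by
    calc N / 2 * ∫ z in (1 - 5 / (6 * N))..1, P.eval z ≤ N / 2 * (5 / (6 * N) * C) :=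
          mul_le_mul_of_nonneg_left h2 (by positivity)
      _ = 5 / 12 * C := by field_simp; ring
  have h5 : C ≤ 0.38 * N * nrm m g := by
    rw [hC]
    have : 0.14 * T ≤ 0.38 * N := by linarith
    exact mul_le_mul_of_nonneg_right this hn
  linarith

end Pool.Agent.Helper83.SE
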