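import Pool.Agent.Helper83.SE.PQ0
import Pool.Agent.Helper83.SE.PQo
import Pool.Agent.Helper83.SE.PQe
import Pool.Agent.Helper83.SE.PC
import Pool.Agent.Helper83.SE.Basic2
import Pool.Agent.Helper83.SD.Sup
import Pool.Agent.Helper83.SD.Pars

/-!
Project SE, module Split: lower bound for the two pole functionals of the mean square.

`B = modeA t u v`.  `B = aX^2 B + (1 - aX^2) B`; `aX^2 B = Σ_m (1-X^2)^|m| ((aX u_m)^2 + (aX v_m)^2)`,
degrees `≤ (t+1) - |m|`: `pq_zero`, `pq_odd`, `pq_even` with `t+1` (`T_up`) give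
`PF (aX^2 B) ≥ -0.38 N Σ_m (nrm (aX u_m) + nrm (aX v_m))`.  For `refl B` the modes are `refl u_m`,
and `nrm m (aX * refl g) = nrm m (bX g)`, `bX = (1-X)/2`.  `aX^2 + bX^2 ≤ 1` on `[-1,1]`, so the sum of
both is at least `-0.38 N Σ_m nmode m = -0.38 N mu(p^2)` (`SD.mu_sq_sum`).  `pc_bound` with
`S = (t+1)^2 mu(p^2)` (`SD.sup_bound`, `SD.avg_sq`: `0 ≤ B ≤ S` on `[-1,1]`).
-/

set_option autoImplicit false

open MeasureTheory Real Pool.Agent.Helper83.SD

namespace Pool.Agent.Helper83.SE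

/-- crude bound of the mean square over circles -/
theorem modeA_sup {t : ℕ} {p : Poly} {u v : ℤ → Polynomial ℝ} (hp : p.totalDegree ≤ t)
    (h : Modes t p u v) {z : ℝ} (hz : z ^ 2 ≤ 1) :
    0 ≤ (modeA t u v).eval z ∧ (modeA t u v).eval z ≤ ((t : ℝ) + 1) ^ 2 * mu (p ^ 2) := by
  constructor
  · rw [modeA_Fm hz]
    exact Finset.sum_nonneg fun m _ => sq_nonneg _
  · rw [← avg_sq h hz]
    have hc : Continuous fun φ : ℝ => (ev p (sp z φ)) ^ 2 := by
      have h1 : Continuous fun φ : ℝ => ev p (sp z φ) :=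
        CoordAux.right_cont (f := fun z φ => ev p (sp z φ)) (CoordAux.ev_sp_cont p) z
      exact h1.pow 2
    have hpi : (0 : ℝ) ≤ 2 * π := by positivity
    have h1 : ∫ φ in (0 : ℝ)..(2 * π), (ev p (sp z φ)) ^ 2 ≤
        ∫ _ in (0 : ℝ)..(2 * π), ((t : ℝ) + 1) ^ 2 * mu (p ^ 2) := by
      apply intervalIntegral.integral_mono_on hpi (hc.intervalIntegrable _ _)
        intervalIntegrable_const
      intro φ _
      exact sup_bound t p hp _ (sp_norm hz φ)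
    rw [intervalIntegral.integral_const, smul_eq_mul, sub_zero] at h1
    have h2 : (0 : ℝ) < 2 * π := by positivity
    calc (1 / (2 * π)) * ∫ φ in (0 : ℝ)..(2 * π), (ev p (sp z φ)) ^ 2
        ≤ (1 / (2 * π)) * (2 * π * (((t : ℝ) + 1) ^ 2 * mu (p ^ 2))) :=
          mul_le_mul_of_nonneg_left h1 (by positivity)
      _ = ((t : ℝ) + 1) ^ 2 * mu (p ^ 2) := by
          field_simp

namespace SplitAux

/-- the pole functional of all modes -/
theorem pq_all : ∃ T0 : ℝ, ∀ (t m : ℕ) (N : ℝ) (g : Polynomial ℝ), T0 ≤ (t : ℝ) →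
    1.499 * (t : ℝ) ^ 2 ≤ N → ((t : ℝ) + 1) ^ 2 ≤ 0.6672 * N → m ≤ t → g.natDegree ≤ t - m →
    -(0.38 * N * nrm m g) ≤ PF N ((1 - Polynomial.X ^ 2) ^ m * g ^ 2) := by
  obtain ⟨T0, h⟩ := pq_even
  refine ⟨max T0 1, fun t m N g ht h1 h2 hm hg => ?_⟩
  have ht0 : T0 ≤ (t : ℝ) := (le_max_left _ _).trans ht
  have ht1 : (1 : ℝ) ≤ (t : ℝ) := (le_max_right _ _).trans ht
  have ht1' : 1 ≤ t := by exact_mod_cast ht1
  have hN : 1 ≤ N := by nlinarith
  rcases Nat.eq_zero_or_pos m with hm0 | hm0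
  · subst hm0
    have h3 := pq_zero (t := t) (g := g) (by linarith : 0 < N) h2 (by simpa using hg)
    rw [pow_zero, one_mul]
    exact h3
  · rcases Nat.even_or_odd m with he | ho
    · exact h t m N g ht0 h1 h2 (by obtain ⟨k, hk⟩ := he; omega) hm he hg
    · exact pq_odd hN ht1' h2 hm ho hg

theorem refl_modeA (t : ℕ) (u v : ℤ → Polynomial ℝ) :
    refl (modeA t u v) = modeA t (fun m => refl (u m)) (fun m => refl (v m)) := by
  apply Polynomial.funext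
  intro z
  rw [refl_eval, modeA_eval, modeA_eval]
  refine Finset.sum_congr rfl fun m _ => ?_
  rw [refl_eval, refl_eval, neg_sq]

theorem aX_eval (z : ℝ) : aX.eval z = (1 + z) / 2 := by
  unfold aX
  simp
  ring

theorem aX_natDegree : aX.natDegree ≤ 1 := by
  unfold aX
  compute_degree

theorem aX_mul_natDegree {g : Polynomial ℝ} {t k : ℕ} (hk : k ≤ t) (hg : g.natDegree ≤ t - k) :
    (aX * g).natDegree ≤ (t + 1) - k := by
  have h1 := Polynomial.natDegree_mul_le (p := aX) (q := g)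
  have h2 := aX_natDegree
  omega

theorem nrm_split (k : ℕ) (g : Polynomial ℝ) :
    nrm k (aX * g) + nrm k (aX * refl g) ≤ nrm k g := by
  unfold nrm
  have hgc := g.continuous
  have h1 : ∫ z in (-1 : ℝ)..1, (1 - z ^ 2) ^ k * ((aX * refl g).eval z) ^ 2 =
      ∫ z in (-1 : ℝ)..1, (1 - z ^ 2) ^ k * ((1 - z) / 2 * g.eval z) ^ 2 := by
    have h2 := intervalIntegral.integral_comp_neg (a := -1) (b := 1)
      (fun z : ℝ => (1 - z ^ 2) ^ k * ((1 - z) / 2 * g.eval z) ^ 2)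
    rw [neg_neg] at h2
    rw [← h2]
    refine intervalIntegral.integral_congr fun z _ => ?_
    simp only [Polynomial.eval_mul, aX_eval, refl_eval, neg_sq, sub_neg_eq_add]
  have h3 : ∫ z in (-1 : ℝ)..1, (1 - z ^ 2) ^ k * ((aX * g).eval z) ^ 2 =
      ∫ z in (-1 : ℝ)..1, (1 - z ^ 2) ^ k * ((1 + z) / 2 * g.eval z) ^ 2 := by
    refine intervalIntegral.integral_congr fun z _ => ?_
    simp only [Polynomial.eval_mul, aX_eval]
  rw [h1, h3, ← mul_add]
  apply mul_le_mul_of_nonneg_left _ (by norm_num : (0 : ℝ) ≤ 1 / 2)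
  have i1 : IntervalIntegrable (fun z : ℝ => (1 - z ^ 2) ^ k * ((1 + z) / 2 * g.eval z) ^ 2) volume
      (-1) 1 := by
    apply Continuous.intervalIntegrable
    fun_prop
  have i2 : IntervalIntegrable (fun z : ℝ => (1 - z ^ 2) ^ k * ((1 - z) / 2 * g.eval z) ^ 2) volume
      (-1) 1 := by
    apply Continuous.intervalIntegrable
    fun_prop
  have i3 : IntervalIntegrable (fun z : ℝ => (1 - z ^ 2) ^ k * (g.eval z) ^ 2) volume
      (-1) 1 := by
    apply Continuous.intervalIntegrable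
    fun_prop
  rw [← intervalIntegral.integral_add i1 i2]
  apply intervalIntegral.integral_mono_on (by norm_num) (i1.add i2) i3
  intro z hz
  have hz1 := hz.1
  have hz2 := hz.2
  have h4 : (0 : ℝ) ≤ 1 - z ^ 2 := by nlinarith
  have h5 : (0 : ℝ) ≤ (1 - z ^ 2) ^ k := pow_nonneg h4 k
  have h6 : ((1 + z) / 2 * g.eval z) ^ 2 + ((1 - z) / 2 * g.eval z) ^ 2 ≤ (g.eval z) ^ 2 := by
    nlinarith [mul_nonneg h4 (sq_nonneg (g.eval z))]
  rw [← mul_add]
  exact mul_le_mul_of_nonneg_left h6 h5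

/-- the localised part -/
theorem loc_bound : ∃ T0 : ℝ, ∀ (t : ℕ) (N : ℝ) (u v : ℤ → Polynomial ℝ), T0 ≤ (t : ℝ) →
    1.499 * ((t : ℝ) + 1) ^ 2 ≤ N → ((t : ℝ) + 2) ^ 2 ≤ 0.6672 * N →
    (∀ m : ℤ, m.natAbs ≤ t → (u m).natDegree ≤ t - m.natAbs) →
    (∀ m : ℤ, m.natAbs ≤ t → (v m).natDegree ≤ t - m.natAbs) →
    -(0.38 * N * ∑ m ∈ Finset.Icc (-(t : ℤ)) t,
      (nrm m.natAbs (aX * u m) + nrm m.natAbs (aX * v m))) ≤ PF N (aX ^ 2 * modeA t u v) := by
  obtain ⟨T0, h⟩ := pq_all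
  refine ⟨T0, fun t N u v ht h1 h2 hu hv => ?_⟩
  obtain ⟨Φ, hΦ⟩ := pf_lin N
  have e1 : aX ^ 2 * modeA t u v = ∑ m ∈ Finset.Icc (-(t : ℤ)) t,
      ((1 - Polynomial.X ^ 2) ^ m.natAbs * (aX * u m) ^ 2 +
        (1 - Polynomial.X ^ 2) ^ m.natAbs * (aX * v m) ^ 2) := by
    unfold modeA
    rw [Finset.mul_sum]
    refine Finset.sum_congr rfl fun m _ => ?_
    ring
  rw [← hΦ, e1, map_sum, Finset.mul_sum, ← Finset.sum_neg_distrib]
  refine Finset.sum_le_sum fun m hm => ?_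
  have hmt : m.natAbs ≤ t := by
    have := Finset.mem_Icc.mp hm
    omega
  have c1 : ((t + 1 : ℕ) : ℝ) = (t : ℝ) + 1 := by push_cast; ring
  have c2 : ((t : ℝ) + 1 + 1) = (t : ℝ) + 2 := by ring
  have h3 := h (t + 1) m.natAbs N (aX * u m) (by rw [c1]; linarith) (by rw [c1]; exact h1)
    (by rw [c1, c2]; exact h2) (by omega) (aX_mul_natDegree hmt (hu m hmt))
  have h4 := h (t + 1) m.natAbs N (aX * v m) (by rw [c1]; linarith) (by rw [c1]; exact h1)
    (by rw [c1, c2]; exact h2) (by omega) (aX_mul_natDegree hmt (hv m hmt))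
  rw [map_add, hΦ, hΦ]
  linarith

end SplitAux

open SplitAux

theorem split : ∃ C T0 : ℝ, 0 < C ∧ ∀ (t : ℕ) (c : Cf) (p : Poly) (u v : ℤ → Polynomial ℝ),
    T0 ≤ (t : ℝ) → Good t c → p.totalDegree ≤ t → Modes t p u v →
    -((0.38 + C / (t : ℝ)) * (c.N : ℝ) * mu (p ^ 2)) ≤
      PF (c.N : ℝ) (modeA t u v) + PF (c.N : ℝ) (refl (modeA t u v)) := by
  obtain ⟨Tl, hl⟩ := loc_bound
  obtain ⟨C, Tp, hC, hpc⟩ := pc_bound
  refine ⟨2 * C, max (max Tl Tp) 10000, by linarith, fun t c p u v ht hg hp hm => ?_⟩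
  have ht1 : Tl ≤ (t : ℝ) := ((le_max_left _ _).trans (le_max_left _ _)).trans ht
  have ht2 : Tp ≤ (t : ℝ) := ((le_max_right _ _).trans (le_max_left _ _)).trans ht
  have ht3 : (10000 : ℝ) ≤ (t : ℝ) := (le_max_right _ _).trans ht
  have ht4 : 10000 ≤ t := by exact_mod_cast ht3
  have ht5 : (0 : ℝ) < t := by linarith
  obtain ⟨g1, g2, g3⟩ := T_up ht4 hg
  have hN : 1.499 * (t : ℝ) ^ 2 ≤ (c.N : ℝ) := by nlinarith
  have hmu : 0 ≤ mu (p ^ 2) := by
    have h1 := modeA_sup hp hm (z := 0) (by norm_num)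
    have h2 : 0 ≤ ((t : ℝ) + 1) ^ 2 * mu (p ^ 2) := h1.1.trans h1.2
    have h3 : (0 : ℝ) < ((t : ℝ) + 1) ^ 2 := by positivity
    exact nonneg_of_mul_nonneg_right h2 h3
  have hS : 0 ≤ ((t : ℝ) + 1) ^ 2 * mu (p ^ 2) := by positivity
  -- localisation errors
  have e1 := hpc t (c.N : ℝ) _ (modeA t u v) ht2 hN (modeA_natDegree hm) hS (fun z hz => by
    have h1 := modeA_sup hp hm hz
    rw [abs_of_nonneg h1.1]
    exact h1.2)
  have e2 := hpc t (c.N : ℝ) _ (refl (modeA t u v)) ht2 hN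
    ((refl_natDegree _).trans (modeA_natDegree hm)) hS (fun z hz => by
    have h1 := modeA_sup hp hm (z := -z) (by rw [neg_sq]; exact hz)
    rw [refl_eval, abs_of_nonneg h1.1]
    exact h1.2)
  -- localised parts
  have l1 := hl t (c.N : ℝ) u v ht1 g3 g2 hm.degu hm.degv
  have l2 := hl t (c.N : ℝ) (fun m => refl (u m)) (fun m => refl (v m)) ht1 g3 g2
    (fun m h => (refl_natDegree _).trans (hm.degu m h))
    (fun m h => (refl_natDegree _).trans (hm.degv m h))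
  rw [← refl_modeA] at l2
  obtain ⟨Φ, hΦ⟩ := pf_lin (c.N : ℝ)
  have d1 : ∀ B : Polynomial ℝ, PF (c.N : ℝ) B =
      PF (c.N : ℝ) (aX ^ 2 * B) + PF (c.N : ℝ) ((1 - aX ^ 2) * B) := by
    intro B
    rw [← hΦ, ← hΦ, ← hΦ, ← map_add]
    congr 1
    ring
  rw [d1 (modeA t u v), d1 (refl (modeA t u v))]
  have s1 : (∑ m ∈ Finset.Icc (-(t : ℤ)) t, (nrm m.natAbs (aX * u m) + nrm m.natAbs (aX * v m))) +
      (∑ m ∈ Finset.Icc (-(t : ℤ)) t, (nrm m.natAbs (aX * refl (u m)) +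
        nrm m.natAbs (aX * refl (v m)))) ≤ mu (p ^ 2) := by
    rw [mu_sq_sum hm, ← Finset.sum_add_distrib]
    refine Finset.sum_le_sum fun m _ => ?_
    unfold nmode
    have h1 := nrm_split m.natAbs (u m)
    have h2 := nrm_split m.natAbs (v m)
    linarith
  have hN0 : (0 : ℝ) ≤ (c.N : ℝ) := Nat.cast_nonneg _
  have s2 : 0.38 * (c.N : ℝ) * ((∑ m ∈ Finset.Icc (-(t : ℤ)) t,
      (nrm m.natAbs (aX * u m) + nrm m.natAbs (aX * v m))) +
      (∑ m ∈ Finset.Icc (-(t : ℤ)) t, (nrm m.natAbs (aX * refl (u m)) +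
        nrm m.natAbs (aX * refl (v m))))) ≤ 0.38 * (c.N : ℝ) * mu (p ^ 2) :=
    mul_le_mul_of_nonneg_left s1 (by positivity)
  have s3 : C / (t : ℝ) * (((t : ℝ) + 1) ^ 2 * mu (p ^ 2)) ≤
      C / (t : ℝ) * ((c.N : ℝ) * mu (p ^ 2)) := by
    apply mul_le_mul_of_nonneg_left _ (by positivity)
    apply mul_le_mul_of_nonneg_right _ hmu
    linarith
  have a1 := (abs_le.mp e1).1
  have a2 := (abs_le.mp e2).1
  have r1 : (0.38 + 2 * C / (t : ℝ)) * (c.N : ℝ) * mu (p ^ 2) =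
      0.38 * (c.N : ℝ) * mu (p ^ 2) + 2 * (C / (t : ℝ) * ((c.N : ℝ) * mu (p ^ 2))) := by ring
  rw [r1]
  rw [mul_add] at s2
  linarith

end Pool.Agent.Helper83.SE
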