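import Pool.Agent.Helper83.SE.OutE
import Pool.Agent.Helper83.SE.CfgO
import Pool.Agent.Helper83.SE.Split

/-!
Project SE, module AliasO: aliasing of the other rings is negligible.

For a ring with `OutR t n z`: in every pair `m ≠ m'`, `n ∣ m - m'`, one of `2|m|, 2|m'|` is `≥ n`;
`out_half` for it and `F ≤ (t+1) √mu` for the other one (`modeA_sup`, `SD.modeA_Fm`): `cross` is at most
`(2t+1)^2 * poly(t) * exp(-0.00009 t) mu(p^2) ≤ 0.0005 mu(p^2)`; the weights add up to at most `N`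
(`RS_one`).  `RS = RA (Icc 1 J0) + rest` (`RA_union`, `J0_le`).
-/

set_option autoImplicit false

open MeasureTheory Real Pool.Agent.Helper83.SD

namespace Pool.Agent.Helper83.SE

theorem ao_Fm_nonneg (u v : ℤ → Polynomial ℝ) (m : ℤ) (z : ℝ) : 0 ≤ Fm u v m z :=
  Real.sqrt_nonneg _

theorem ao_decay : ∃ T0 : ℝ, ∀ x : ℝ, T0 ≤ x →
    4 * (x + 1) ^ 5 * Real.exp (-(0.00009 * x)) ≤ 0.0005 := by
  have h1 : Filter.Tendsto (fun y : ℝ => y ^ 5 * Real.exp (-y)) Filter.atTop (nhds 0) :=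
    Real.tendsto_pow_mul_exp_neg_atTop_nhds_zero 5
  have h2 : Filter.Tendsto (fun x : ℝ => 0.00009 * (x + 1)) Filter.atTop Filter.atTop := by
    apply Filter.Tendsto.const_mul_atTop (by norm_num)
    exact Filter.tendsto_atTop_add_const_right _ _ Filter.tendsto_id
  have h3 := h1.comp h2
  have h4 : Filter.Tendsto (fun x : ℝ => (4 / 0.00009 ^ 5 * Real.exp 0.00009) *
      ((0.00009 * (x + 1)) ^ 5 * Real.exp (-(0.00009 * (x + 1))))) Filter.atTop
      (nhds ((4 / 0.00009 ^ 5 * Real.exp 0.00009) * 0)) := h3.const_mul _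
  rw [mul_zero] at h4
  have h5 : ∀ᶠ x : ℝ in Filter.atTop, (4 / 0.00009 ^ 5 * Real.exp 0.00009) *
      ((0.00009 * (x + 1)) ^ 5 * Real.exp (-(0.00009 * (x + 1)))) < 0.0005 :=
    h4.eventually_lt_const (by norm_num)
  obtain ⟨T0, hT⟩ := Filter.eventually_atTop.mp h5
  refine ⟨T0, fun x hx => ?_⟩
  have h6 := hT x hx
  have h7 : Real.exp (-(0.00009 * x)) = Real.exp 0.00009 * Real.exp (-(0.00009 * (x + 1))) := by
    rw [← Real.exp_add]
    congr 1
    ring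
  rw [h7]
  have h8 : (4 / 0.00009 ^ 5 * Real.exp 0.00009) *
      ((0.00009 * (x + 1)) ^ 5 * Real.exp (-(0.00009 * (x + 1)))) =
      4 * (x + 1) ^ 5 * (Real.exp 0.00009 * Real.exp (-(0.00009 * (x + 1)))) := by
    rw [mul_pow]
    field_simp
  rw [h8] at h6
  exact h6.le

/-- every amplitude is at most the sup bound -/
theorem ao_Fm_sup {t : ℕ} {p : Poly} {u v : ℤ → Polynomial ℝ} (hp : p.totalDegree ≤ t)
    (h : Modes t p u v) {z : ℝ} (hz : z ^ 2 ≤ 1) {m : ℤ} (hm : m ∈ Finset.Icc (-(t : ℤ)) t) :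
    (Fm u v m z) ^ 2 ≤ ((t : ℝ) + 1) ^ 2 * mu (p ^ 2) := by
  have h1 := (modeA_sup hp h hz).2
  rw [modeA_Fm hz] at h1
  refine le_trans ?_ h1
  exact Finset.single_le_sum (f := fun m => (Fm u v m z) ^ 2) (fun _ _ => sq_nonneg _) hm

theorem ao_mul {t n : ℕ} {p : Poly} {u v : ℤ → Polynomial ℝ} (hp : p.totalDegree ≤ t)
    (h : Modes t p u v) {z : ℝ} (ho : OutR t n z) {m m' : ℤ}
    (hm : (n : ℝ) ≤ 2 * |(m : ℝ)|) (hm' : m' ∈ Finset.Icc (-(t : ℤ)) t) :
    Fm u v m z * Fm u v m' z ≤ ((t : ℝ) + 1) ^ 3 * Real.exp (-(0.00009 * (t : ℝ))) * mu (p ^ 2) := by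
  have h1 := out_half hp h ho m hm
  have h2 := ao_Fm_sup hp h ho.z1 hm'
  have hmu : 0 ≤ mu (p ^ 2) := mu_nonneg fun x _ => by rw [ev_pow]; positivity
  have ht : (0 : ℝ) ≤ t := Nat.cast_nonneg t
  have he : Real.exp (-(0.00018 * (t : ℝ))) = Real.exp (-(0.00009 * (t : ℝ))) ^ 2 := by
    rw [← Real.exp_nat_mul]
    congr 1
    push_cast
    ring
  refine le_of_sq_le_sq ?_ (by positivity)
  calc (Fm u v m z * Fm u v m' z) ^ 2 = (Fm u v m z) ^ 2 * (Fm u v m' z) ^ 2 := by ring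
    _ ≤ ((2 * (t : ℝ) + 1) * ((t : ℝ) + 1) ^ 2 * Real.exp (-(0.00018 * (t : ℝ))) * mu (p ^ 2)) *
        (((t : ℝ) + 1) ^ 2 * mu (p ^ 2)) := by
        apply mul_le_mul h1 h2 (sq_nonneg _)
        positivity
    _ ≤ ((((t : ℝ) + 1) ^ 2) * ((t : ℝ) + 1) ^ 2 * Real.exp (-(0.00018 * (t : ℝ))) * mu (p ^ 2)) *
        (((t : ℝ) + 1) ^ 2 * mu (p ^ 2)) := by
        have h3 : 2 * (t : ℝ) + 1 ≤ ((t : ℝ) + 1) ^ 2 := by nlinarith
        gcongr
    _ = (((t : ℝ) + 1) ^ 3 * Real.exp (-(0.00009 * (t : ℝ))) * mu (p ^ 2)) ^ 2 := by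
        rw [he]
        ring

theorem ao_cross {t n : ℕ} {p : Poly} {u v : ℤ → Polynomial ℝ} (hp : p.totalDegree ≤ t)
    (h : Modes t p u v) {z : ℝ} (ho : OutR t n z) :
    cross t n u v z ≤ 4 * ((t : ℝ) + 1) ^ 5 * Real.exp (-(0.00009 * (t : ℝ))) * mu (p ^ 2) := by
  have hmu : 0 ≤ mu (p ^ 2) := mu_nonneg fun x _ => by rw [ev_pow]; positivity
  have ht : (0 : ℝ) ≤ t := Nat.cast_nonneg t
  set D : ℝ := ((t : ℝ) + 1) ^ 3 * Real.exp (-(0.00009 * (t : ℝ))) * mu (p ^ 2) with hD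
  have hD0 : 0 ≤ D := by positivity
  have hcard : ((Finset.Icc (-(t : ℤ)) t).card : ℝ) = 2 * (t : ℝ) + 1 := by
    rw [Int.card_Icc]
    have : ((t : ℤ) + 1 - -(t : ℤ)).toNat = 2 * t + 1 := by omega
    rw [this]
    push_cast
    ring
  have h1 : cross t n u v z ≤ ∑ m ∈ Finset.Icc (-(t : ℤ)) t, (2 * (t : ℝ) + 1) * D := by
    unfold cross
    refine Finset.sum_le_sum fun m hm => ?_
    calc (∑ m' ∈ (Finset.Icc (-(t : ℤ)) t).filter (fun m' => m' ≠ m ∧ (n : ℤ) ∣ m - m'),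
        Fm u v m z * Fm u v m' z)
        ≤ ∑ m' ∈ (Finset.Icc (-(t : ℤ)) t).filter (fun m' => m' ≠ m ∧ (n : ℤ) ∣ m - m'), D := by
          refine Finset.sum_le_sum fun m' hm' => ?_
          rw [Finset.mem_filter] at hm'
          obtain ⟨hm'1, hne, hdvd⟩ := hm'
          have h2 : (n : ℤ) ≤ |m - m'| := by
            apply Int.le_of_dvd
            · rw [abs_pos]
              exact sub_ne_zero.mpr (Ne.symm hne)
            · exact (dvd_abs _ _).mpr hdvd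
          have h3 : (n : ℝ) ≤ |(m : ℝ)| + |(m' : ℝ)| := by
            have h4 : (n : ℝ) ≤ |(m : ℝ) - (m' : ℝ)| := by exact_mod_cast h2
            exact h4.trans (abs_sub _ _)
          rcases le_total |(m' : ℝ)| |(m : ℝ)| with h5 | h5
          · exact ao_mul hp h ho (by linarith) hm'1
          · rw [mul_comm]
            exact ao_mul hp h ho (by linarith) hm
      _ = (((Finset.Icc (-(t : ℤ)) t).filter
          (fun m' => m' ≠ m ∧ (n : ℤ) ∣ m - m')).card : ℝ) * D := by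
          rw [Finset.sum_const, nsmul_eq_mul]
      _ ≤ ((Finset.Icc (-(t : ℤ)) t).card : ℝ) * D := by
          apply mul_le_mul_of_nonneg_right _ hD0
          exact_mod_cast Finset.card_filter_le _ _
      _ = (2 * (t : ℝ) + 1) * D := by rw [hcard]
  rw [Finset.sum_const, nsmul_eq_mul, hcard] at h1
  refine h1.trans ?_
  have h6 : (2 * (t : ℝ) + 1) * (2 * (t : ℝ) + 1) ≤ 4 * ((t : ℝ) + 1) ^ 2 := by nlinarith
  calc (2 * (t : ℝ) + 1) * ((2 * (t : ℝ) + 1) * D) = ((2 * (t : ℝ) + 1) * (2 * (t : ℝ) + 1)) * D := by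
        ring
    _ ≤ (4 * ((t : ℝ) + 1) ^ 2) * D := mul_le_mul_of_nonneg_right h6 hD0
    _ = 4 * ((t : ℝ) + 1) ^ 5 * Real.exp (-(0.00009 * (t : ℝ))) * mu (p ^ 2) := by
        rw [hD]
        ring

theorem alias_out : ∃ T0 : ℝ, ∀ (t : ℕ) (c : Cf) (p : Poly) (u v : ℤ → Polynomial ℝ),
    T0 ≤ (t : ℝ) → Good t c → p.totalDegree ≤ t → Modes t p u v →
    AC t c u v ≤ RA c (Finset.Icc 1 (J0 c)) (fun n z => cross t n u v z) / (c.N : ℝ)
      + 0.0005 * mu (p ^ 2) := by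
  obtain ⟨T1, hT1⟩ := ao_decay
  obtain ⟨TA, hTA⟩ := cfg_A
  obtain ⟨TB, hTB⟩ := cfg_B
  obtain ⟨TC, hTC⟩ := cfg_CD
  refine ⟨max (max T1 TA) (max (max TB TC) 10000), fun t c p u v ht hG hp hM => ?_⟩
  have ht1 : T1 ≤ t := le_trans (le_trans (le_max_left _ _) (le_max_left _ _)) ht
  have htA : TA ≤ t := le_trans (le_trans (le_max_right _ _) (le_max_left _ _)) ht
  have htB : TB ≤ t := le_trans (le_trans (le_trans (le_max_left _ _) (le_max_left _ _))
    (le_max_right _ _)) ht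
  have htC : TC ≤ t := le_trans (le_trans (le_trans (le_max_right _ _) (le_max_left _ _))
    (le_max_right _ _)) ht
  have ht10 : (10000 : ℝ) ≤ t := le_trans (le_trans (le_max_right _ _) (le_max_right _ _)) ht
  have ht10' : 10000 ≤ t := by exact_mod_cast ht10
  have hmu : 0 ≤ mu (p ^ 2) := mu_nonneg fun x _ => by rw [ev_pow]; positivity
  set K : ℝ := 0.0005 * mu (p ^ 2) with hK
  have hK0 : 0 ≤ K := by positivity
  have hcr : ∀ (n : ℕ) (z : ℝ), OutR t n z → cross t n u v z ≤ K := by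
    intro n z ho
    refine (ao_cross hp hM ho).trans ?_
    rw [hK]
    exact mul_le_mul_of_nonneg_right (hT1 _ ht1) hmu
  have hA := hTA t c htA hG
  have hB := hTB t c htB hG
  obtain ⟨hC, hD⟩ := hTC t c htC hG
  have hN := RS_one c hG.lR hG.cnt
  have hJ := J0_le ht10' hG
  have hNpos : (0 : ℝ) < c.N := by
    have := hG.lo
    nlinarith
  -- the parts
  have pA : RA c (Finset.Ioc (J0 c) c.J1) (fun n z => cross t n u v z) ≤
      K * RA c (Finset.Ioc (J0 c) c.J1) (fun _ _ => 1) := by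
    unfold RA
    rw [Finset.mul_sum]
    refine Finset.sum_le_sum fun j hj => ?_
    rw [Finset.mem_Ioc] at hj
    have h1 := (hA j (Finset.mem_Icc.mpr ⟨by omega, hj.2⟩)).2.2 hj.1
    have h2 := hcr _ _ h1
    have h3 := hcr _ _ (outR_neg h1)
    have h4 : (0 : ℝ) ≤ j := Nat.cast_nonneg j
    calc 7 * (j : ℝ) * (cross t (7 * j) u v (zA c j) + cross t (7 * j) u v (-(zA c j)))
        ≤ 7 * (j : ℝ) * (K + K) := by gcongr
      _ = K * (7 * (j : ℝ) * (1 + 1)) := by ring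
  have pB : RB c (fun n z => cross t n u v z) ≤ K * RB c (fun _ _ => 1) := by
    unfold RB
    rw [Finset.mul_sum]
    refine Finset.sum_le_sum fun i hi => ?_
    rw [Finset.mem_range] at hi
    have h1 := (hB i hi).2
    have h2 := hcr _ _ h1
    have h3 := hcr _ _ (outR_neg h1)
    have h4 : (0 : ℝ) ≤ 7 * (c.J1 : ℝ) + 5 * ((i : ℝ) + 1) := by positivity
    calc (7 * (c.J1 : ℝ) + 5 * ((i : ℝ) + 1)) *
          (cross t (7 * c.J1 + 5 * (i + 1)) u v (zB c i) +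
            cross t (7 * c.J1 + 5 * (i + 1)) u v (-(zB c i)))
        ≤ (7 * (c.J1 : ℝ) + 5 * ((i : ℝ) + 1)) * (K + K) := by gcongr
      _ = K * ((7 * (c.J1 : ℝ) + 5 * ((i : ℝ) + 1)) * (1 + 1)) := by ring
  have pC : RC c (fun n z => cross t n u v z) ≤ K * RC c (fun _ _ => 1) := by
    unfold RC
    rw [Finset.mul_sum]
    refine Finset.sum_le_sum fun i hi => ?_
    rw [Finset.mem_range] at hi
    have h2 := hcr _ _ (hC i hi).2
    calc ((c.n : ℝ) + 1) * cross t (c.n + 1) u v (zC c i) ≤ ((c.n : ℝ) + 1) * K := by gcongr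
      _ = K * (((c.n : ℝ) + 1) * 1) := by ring
  have pD : RD c (fun n z => cross t n u v z) ≤ K * RD c (fun _ _ => 1) := by
    unfold RD
    rw [Finset.mul_sum]
    refine Finset.sum_le_sum fun i hi => ?_
    rw [Finset.mem_range] at hi
    have h2 := hcr _ _ (hD i hi).2
    calc (c.n : ℝ) * cross t c.n u v (zD c i) ≤ (c.n : ℝ) * K := by gcongr
      _ = K * ((c.n : ℝ) * 1) := by ring
  have p0 : 0 ≤ RA c (Finset.Icc 1 (J0 c)) (fun _ _ => (1 : ℝ)) := by
    unfold RA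
    exact Finset.sum_nonneg fun j _ => by positivity
  have hu1 := RA_union c (fun n z => cross t n u v z) hJ
  have hu2 := RA_union c (fun _ _ => (1 : ℝ)) hJ
  have hRS : RS c (fun n z => cross t n u v z) ≤
      RA c (Finset.Icc 1 (J0 c)) (fun n z => cross t n u v z) + K * c.N := by
    have e1 : RS c (fun _ _ => (1 : ℝ)) = (c.N : ℝ) - 2 := by linarith
    unfold RS at e1 ⊢
    rw [hu2] at e1
    rw [hu1]
    have e2 : K * (RA c (Finset.Ioc (J0 c) c.J1) (fun _ _ => 1) + RB c (fun _ _ => 1) +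
        RC c (fun _ _ => 1) + RD c (fun _ _ => 1)) ≤ K * c.N := by
      apply mul_le_mul_of_nonneg_left _ hK0
      linarith
    linarith
  unfold AC
  calc RS c (fun n z => cross t n u v z) / (c.N : ℝ)
      ≤ (RA c (Finset.Icc 1 (J0 c)) (fun n z => cross t n u v z) + K * c.N) / (c.N : ℝ) := by
        gcongr
    _ = RA c (Finset.Icc 1 (J0 c)) (fun n z => cross t n u v z) / (c.N : ℝ) + K := by
        field_simp

end Pool.Agent.Helper83.SE
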