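import Pool.Agent.Helper83.SE.Defs
import Pool.Agent.Helper83.SD.Arc

/-!
Project SE, module Arc2: how far the complex arcsine goes.

`im_le`: with `b = |w.im| > 0`, `(Re ζ)^2/cosh^2 b + (Im ζ)^2/sinh^2 b = 1` (`ζ = sin w`), and the
left side is decreasing in `b`; the hypothesis says that it is at most 1 at `x`.
`arc_far`: `x = κ y`, `X = x^2`, `S = sinh^2 x ≥ X + X^2/3 + 2X^3/45 + X^4/315`;
`(Re ζ) = Z + a X` with `a = α/κ^2 ≤ 0.2503 (1+Z)`, `(Im ζ)^2 ≤ (1-Z^2) X`.  Divided by `S`, the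
condition is `S + (1-Z^2)(1 - X - X/S) - 2 Z a X - a^2 X^2 ≥ 0`; it is increasing in `S`,
`X/S ≤ 1/(1+h) ≤ 1 - h + h^2`, `h = X/3 + 2X^2/45`; all coefficients of the resulting polynomial
in `X` are nonnegative for `0 ≤ Z ≤ 0.93`, `a ≤ 0.2503(1+Z)`: `X`: `1 - (2/3)(1-Z^2) - 2 Z a`
(at least 0.011), `X^2`: `1/3 - (1-Z^2)/15 - a^2`, `X^3`: `2/45 - (1-Z^2) 4/135`,
`X^4`: `1/315 - (1-Z^2) 4/2025`.  Same with `a = 0` for `|Z| ≤ 0.93`.
-/

set_option autoImplicit false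

open MeasureTheory Real Pool.Agent.Helper83.SD

namespace Pool.Agent.Helper83.SE

theorem im_le {w : ℂ} {x : ℝ} (hx : 0 < x)
    (h : Real.sinh x ^ 2 * (Complex.sin w).re ^ 2
        + (Real.sinh x ^ 2 + 1) * (Complex.sin w).im ^ 2 ≤
      Real.sinh x ^ 2 * (Real.sinh x ^ 2 + 1)) : |w.im| ≤ x := by
  by_contra hcon
  push Not at hcon
  have hre : (Complex.sin w).re = Real.sin w.re * Real.cosh w.im := by
    rw [Complex.sin_eq]
    simp [← Complex.ofReal_sin,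
      ← Complex.ofReal_cosh, ← Complex.ofReal_cos, ← Complex.ofReal_sinh]
  have him : (Complex.sin w).im = Real.cos w.re * Real.sinh w.im := by
    rw [Complex.sin_eq]
    simp [← Complex.ofReal_sin,
      ← Complex.ofReal_cosh, ← Complex.ofReal_cos, ← Complex.ofReal_sinh]
  have hs : 0 < Real.sinh x := Real.sinh_pos_iff.mpr hx
  have hSB : Real.sinh x < Real.sinh |w.im| := Real.sinh_lt_sinh.mpr hcon
  have hB : Real.sinh |w.im| ^ 2 = Real.sinh w.im ^ 2 := by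
    rcases abs_choice w.im with h1 | h1 <;> rw [h1]
    rw [Real.sinh_neg]; ring
  have hSB2 : Real.sinh x ^ 2 < Real.sinh w.im ^ 2 := by
    rw [← hB]; exact pow_lt_pow_left₀ hSB hs.le two_ne_zero
  have hS : 0 < Real.sinh x ^ 2 := by positivity
  rw [hre, him] at h
  have hch : Real.cosh w.im ^ 2 = Real.sinh w.im ^ 2 + 1 := Real.cosh_sq w.im
  have hsc : Real.sin w.re ^ 2 + Real.cos w.re ^ 2 = 1 := Real.sin_sq_add_cos_sq w.re
  set S := Real.sinh x ^ 2
  set B := Real.sinh w.im ^ 2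
  set p := Real.sin w.re ^ 2 with hp
  set q := Real.cos w.re ^ 2 with hq
  have hq0 : 0 ≤ q := sq_nonneg _
  have hp0 : 0 ≤ p := sq_nonneg _
  have e1 : S * (Real.sin w.re * Real.cosh w.im) ^ 2 + (S + 1) * (Real.cos w.re * Real.sinh w.im) ^ 2
      = S * p * (B + 1) + (S + 1) * q * B := by
    rw [mul_pow, mul_pow, hch]; ring
  rw [e1] at h
  have e2 : S * p * (B + 1) + (S + 1) * q * B = S * B * (p + q) + S * p + B * q := by ring
  rw [e2, hsc] at h
  nlinarith [mul_le_mul_of_nonneg_right hSB2.le hq0, mul_lt_mul_of_pos_left hSB2 hS]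

/-- Taylor lower bound for the square of sinh. -/
theorem sinh_sq_ge (x : ℝ) :
    x ^ 2 + x ^ 4 / 3 + 2 * x ^ 6 / 45 + x ^ 8 / 315 ≤ Real.sinh x ^ 2 := by
  have h := Real.hasSum_cosh (2 * x)
  have h2 := sum_le_hasSum (Finset.range 5) (fun i _ => by
    have : (2 * x) ^ (2 * i) = ((2 * x) ^ 2) ^ i := by rw [pow_mul]
    rw [this]; positivity) h
  have e : Real.cosh (2 * x) = 2 * Real.sinh x ^ 2 + 1 := by
    rw [Real.cosh_two_mul, Real.cosh_sq]; ring
  rw [e] at h2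
  simp only [Finset.sum_range_succ, Finset.sum_range_zero] at h2
  norm_num [Nat.factorial] at h2
  nlinarith [h2]

theorem core_ineq {Z a X S : ℝ} (hX : 0 < X) (ha : 0 ≤ a) (hc0 : Z ^ 2 ≤ 1)
    (hu : (1 - Z ^ 2) + 2 * Z * a ≤ 1 + (1 - Z ^ 2) / 3) (ha2 : a ^ 2 ≤ 0.234)
    (hS : X + X ^ 2 / 3 + 2 * X ^ 3 / 45 + X ^ 4 / 315 ≤ S) :
    S * (Z + a * X) ^ 2 + (S + 1) * ((1 - Z ^ 2) * X) ≤ S * (S + 1) := by
  set c := 1 - Z ^ 2 with hc
  have hc1 : 0 ≤ c := by rw [hc]; linarith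
  have hc2 : c ≤ 1 := by rw [hc]; nlinarith [sq_nonneg Z]
  set L := X + X ^ 2 / 3 + 2 * X ^ 3 / 45 + X ^ 4 / 315 with hL
  have hL0 : 0 < L := by rw [hL]; positivity
  have hS0 : 0 < S := lt_of_lt_of_le hL0 hS
  -- the quadratic at L
  have hG : 0 ≤ L ^ 2 + L * (c - c * X - 2 * Z * a * X - a ^ 2 * X ^ 2) - c * X := by
    have key : 0 ≤ (1 + (X / 3 + 2 * X ^ 2 / 45 + X ^ 3 / 315)) ^ 2
        + c * (1 / 3 + 2 * X / 45 + X ^ 2 / 315)
        - (1 + (X / 3 + 2 * X ^ 2 / 45 + X ^ 3 / 315)) * ((c + 2 * Z * a) + a ^ 2 * X) := by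
      set u := c + 2 * Z * a with hu'
      have hX2 : 0 ≤ X ^ 2 := by positivity
      have hX3 : 0 ≤ X ^ 3 := by positivity
      have hX4 : 0 ≤ X ^ 4 := by positivity
      have hX5 : 0 ≤ X ^ 5 := by positivity
      have hX6 : 0 ≤ X ^ 6 := by positivity
      have e : (1 + (X / 3 + 2 * X ^ 2 / 45 + X ^ 3 / 315)) ^ 2
        + c * (1 / 3 + 2 * X / 45 + X ^ 2 / 315)
        - (1 + (X / 3 + 2 * X ^ 2 / 45 + X ^ 3 / 315)) * (u + a ^ 2 * X)
        = (1 + c / 3 - u) + (2 / 3 + 2 * c / 45 - u / 3 - a ^ 2) * X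
          + (1 / 9 + 4 / 45 + c / 315 - 2 * u / 45 - a ^ 2 / 3) * X ^ 2
          + (2 / 315 + 4 / 135 - u / 315 - 2 * a ^ 2 / 45) * X ^ 3
          + (4 / 2025 + 2 / 945 - a ^ 2 / 315) * X ^ 4
          + (4 / (45 * 315)) * X ^ 5 + (1 / 315 ^ 2) * X ^ 6 := by ring
      rw [e]
      have c0 : 0 ≤ 1 + c / 3 - u := by linarith
      have c1 : 0 ≤ 2 / 3 + 2 * c / 45 - u / 3 - a ^ 2 := by nlinarith
      have c2 : 0 ≤ 1 / 9 + 4 / 45 + c / 315 - 2 * u / 45 - a ^ 2 / 3 := by nlinarith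
      have c3 : 0 ≤ 2 / 315 + 4 / 135 - u / 315 - 2 * a ^ 2 / 45 := by nlinarith
      have c4 : 0 ≤ 4 / 2025 + 2 / 945 - a ^ 2 / 315 := by nlinarith
      have c5 : (0 : ℝ) ≤ 4 / (45 * 315) := by norm_num
      have c6 : (0 : ℝ) ≤ 1 / 315 ^ 2 := by norm_num
      have t1 := mul_nonneg c1 hX.le
      have t2 := mul_nonneg c2 hX2
      have t3 := mul_nonneg c3 hX3
      have t4 := mul_nonneg c4 hX4
      have t5 := mul_nonneg c5 hX5
      have t6 := mul_nonneg c6 hX6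
      linarith
    have e : L ^ 2 + L * (c - c * X - 2 * Z * a * X - a ^ 2 * X ^ 2) - c * X
        = X ^ 2 * ((1 + (X / 3 + 2 * X ^ 2 / 45 + X ^ 3 / 315)) ^ 2
        + c * (1 / 3 + 2 * X / 45 + X ^ 2 / 315)
        - (1 + (X / 3 + 2 * X ^ 2 / 45 + X ^ 3 / 315)) * ((c + 2 * Z * a) + a ^ 2 * X)) := by
      rw [hL]; ring
    rw [e]
    exact mul_nonneg (by positivity) key
  set m := c - c * X - 2 * Z * a * X - a ^ 2 * X ^ 2 with hm
  have hcX : 0 ≤ c * X := mul_nonneg hc1 hX.le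
  -- L + m >= c X / L >= 0
  have hLm : 0 ≤ L + m := by
    by_contra hneg
    push Not at hneg
    nlinarith [mul_neg_of_pos_of_neg hL0 hneg]
  have hF : 0 ≤ S ^ 2 + S * m - c * X := by
    have h1 : S ^ 2 + S * m - c * X = (L ^ 2 + L * m - c * X) + (S - L) * (S + L + m) := by ring
    rw [h1]
    have h2 : 0 ≤ (S - L) * (S + L + m) := mul_nonneg (by linarith) (by linarith)
    linarith
  have e3 : S * (S + 1) - (S * (Z + a * X) ^ 2 + (S + 1) * (c * X)) = S ^ 2 + S * m - c * X := by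
    rw [hm, hc]; ring
  linarith

theorem arc_far {Z κ α β y : ℝ} (hκ : 0 < κ) (hα : 0 ≤ α) (hβ : 0 ≤ β) (hy : 0 < y)
    (hZ : |Z| ≤ 0.93) (hZ0 : α = 0 ∨ 0 ≤ Z) (hb : β ^ 2 ≤ κ ^ 2 * (1 - Z ^ 2))
    (ha : α ≤ 0.2503 * κ ^ 2 * (1 + Z)) {w : ℂ}
    (hw : Complex.sin w = ((Z + α * y ^ 2 : ℝ) : ℂ) - ((β * y : ℝ) : ℂ) * Complex.I) :
    |w.im| ≤ κ * y := by
  have hx : 0 < κ * y := mul_pos hκ hy
  apply im_le hx
  have hre : (Complex.sin w).re = Z + α * y ^ 2 := by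
    rw [hw]; simp only [Complex.sub_re, Complex.ofReal_re, Complex.mul_re, Complex.I_re,
      Complex.I_im, Complex.ofReal_im]; ring
  have him : (Complex.sin w).im = - (β * y) := by
    rw [hw]; simp only [Complex.sub_im, Complex.ofReal_re, Complex.mul_im, Complex.I_re,
      Complex.I_im, Complex.ofReal_im]; ring
  rw [hre, him]
  obtain ⟨hZ1, hZ2⟩ := abs_le.mp hZ
  have hκ2 : 0 < κ ^ 2 := by positivity
  set a := α / κ ^ 2 with haa
  have ha0 : 0 ≤ a := div_nonneg hα hκ2.le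
  have haX : α * y ^ 2 = a * (κ * y) ^ 2 := by
    rw [haa]; field_simp
  have ha1 : a ≤ 0.2503 * (1 + Z) := by
    rw [haa, div_le_iff₀ hκ2]; linarith
  have hZsq : Z ^ 2 ≤ 0.8649 := by nlinarith
  have hu : (1 - Z ^ 2) + 2 * Z * a ≤ 1 + (1 - Z ^ 2) / 3 := by
    rcases hZ0 with h0 | h0
    · have : a = 0 := by rw [haa, h0]; simp
      rw [this]; nlinarith [sq_nonneg Z]
    · have : Z * a ≤ Z * (0.2503 * (1 + Z)) := mul_le_mul_of_nonneg_left ha1 h0
      nlinarith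
  have ha2 : a ^ 2 ≤ 0.234 := by nlinarith
  have hSge := sinh_sq_ge (κ * y)
  have hS : ((κ * y) ^ 2) + ((κ * y) ^ 2) ^ 2 / 3 + 2 * ((κ * y) ^ 2) ^ 3 / 45
      + ((κ * y) ^ 2) ^ 4 / 315 ≤ Real.sinh (κ * y) ^ 2 := by
    calc _ = (κ * y) ^ 2 + (κ * y) ^ 4 / 3 + 2 * (κ * y) ^ 6 / 45 + (κ * y) ^ 8 / 315 := by ring
      _ ≤ _ := hSge
  have hX : 0 < (κ * y) ^ 2 := by positivity
  have hcore := core_ineq hX ha0 (by linarith) hu ha2 hS
  have him2 : (-(β * y)) ^ 2 ≤ (1 - Z ^ 2) * (κ * y) ^ 2 := by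
    have : (-(β * y)) ^ 2 = β ^ 2 * y ^ 2 := by ring
    rw [this]
    have := mul_le_mul_of_nonneg_right hb (sq_nonneg y)
    nlinarith
  rw [haX]
  have hS1 : 0 ≤ Real.sinh (κ * y) ^ 2 + 1 := by positivity
  have := mul_le_mul_of_nonneg_left him2 hS1
  linarith

/-- `sin 1.25 = 0.94898` -/
theorem arc_re {a x : ℝ} (ha : |a| ≤ π / 2) (h : |Real.sin a| ≤ x) (hx : x ≤ 0.9489) :
    |a| ≤ 1.25 := by
  by_contra hcon
  push Not at hcon
  have hpi := Real.pi_lt_d6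
  have hpi2 := Real.pi_gt_d6
  have h1 : Real.sin 1.25 < Real.sin |a| :=
    Real.sin_lt_sin_of_lt_of_le_pi_div_two (by linarith) ha hcon
  have h2 : Real.sin |a| ≤ x := by
    rcases abs_choice a with h3 | h3
    · rw [h3]; exact le_trans (le_abs_self _) h
    · rw [h3, Real.sin_neg]; exact le_trans (neg_le_abs _) h
  have h3 : (0.9489 : ℝ) < Real.sin 1.25 := by
    have e : Real.sin 1.25 = Real.cos (π / 2 - 1.25) := by rw [Real.cos_pi_div_two_sub]
    rw [e]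
    set t := π / 2 - 1.25 with ht
    have ht0 : 0 < t := by rw [ht]; linarith
    have ht1 : t < 0.3208 := by rw [ht]; linarith
    have q1 : 1 - (t / 4) ^ 2 / 2 ≤ Real.cos (t / 4) := Real.one_sub_sq_div_two_le_cos
    have q2 : Real.cos (t / 2) = 2 * Real.cos (t / 4) ^ 2 - 1 := by
      rw [← Real.cos_two_mul]; congr 1; ring
    have q3 : Real.cos t = 2 * Real.cos (t / 2) ^ 2 - 1 := by
      rw [← Real.cos_two_mul]; congr 1; ring
    have ht2 : t ^ 2 ≤ 0.10292 := by nlinarith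
    have r1 : 0.99678 ≤ Real.cos (t / 4) := by nlinarith
    have r2 : 0.987161 ≤ Real.cos (t / 2) := by rw [q2]; nlinarith
    rw [q3]; nlinarith
  linarith

/-- on `|a| ≤ 1.25` the sine is bi-Lipschitz: `cos 1.25 = 0.31532` -/
theorem sin_lower {a b : ℝ} (ha : |a| ≤ 1.25) (hb : |b| ≤ 1.25) :
    |a - b| ≤ 3.2 * |Real.sin a - Real.sin b| := by
  have hpi := Real.pi_lt_d6
  have hpi2 := Real.pi_gt_d6
  have hcos : (0.3125 : ℝ) ≤ Real.cos 1.25 := by
    have e : Real.cos 1.25 = Real.sin (π / 2 - 1.25) := by rw [Real.sin_pi_div_two_sub]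
    rw [e]
    set t := π / 2 - 1.25 with ht
    have ht0 : 0.320796 < t := by rw [ht]; linarith
    have ht1 : t < 0.3208 := by rw [ht]; linarith
    have := Real.sin_gt_sub_cube (by linarith : 0 < t)
    have ht3 : t ^ 3 ≤ 0.3208 ^ 3 := pow_le_pow_left₀ (by linarith) ht1.le 3
    norm_num at ht3
    nlinarith
  have key : ∀ x y : ℝ, |x| ≤ 1.25 → |y| ≤ 1.25 → x ≤ y →
      0.3125 * (y - x) ≤ Real.sin y - Real.sin x := by
    intro x y hx hy hxy
    have hmono : MonotoneOn (fun s => Real.sin s - 0.3125 * s) (Set.Icc (-1.25 : ℝ) 1.25) := by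
      apply monotoneOn_of_deriv_nonneg (convex_Icc _ _)
      · exact (Real.continuous_sin.sub (continuous_const.mul continuous_id)).continuousOn
      · exact (Real.differentiable_sin.sub
          (differentiable_const _ |>.mul differentiable_id)).differentiableOn
      · intro s hs
        rw [interior_Icc] at hs
        have hd : HasDerivAt (fun s => Real.sin s - 0.3125 * s) (Real.cos s - 0.3125 * 1) s :=
          (Real.hasDerivAt_sin s).sub ((hasDerivAt_id s).const_mul _)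
        rw [hd.deriv]
        have : Real.cos 1.25 ≤ Real.cos s := by
          rw [← Real.cos_abs s]
          apply Real.cos_le_cos_of_nonneg_of_le_pi (abs_nonneg _) (by linarith)
          exact abs_le.mpr ⟨hs.1.le, hs.2.le⟩
        linarith
    have := hmono (abs_le.mp hx) (abs_le.mp hy) hxy
    simp only at this
    linarith
  rcases le_total a b with hab | hab
  · have := key a b ha hb hab
    rw [abs_sub_comm a b, abs_sub_comm (Real.sin a), abs_of_nonneg (by linarith)]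
    have h0 : 0 ≤ Real.sin b - Real.sin a := by nlinarith
    rw [abs_of_nonneg h0]; linarith
  · have := key b a hb ha hab
    rw [abs_of_nonneg (by linarith)]
    have h0 : 0 ≤ Real.sin a - Real.sin b := by nlinarith
    rw [abs_of_nonneg h0]; linarith

end Pool.Agent.Helper83.SE
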