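import Pool.Agent.Helper83.SE.Basic2

/-!
Project SE, module CfgK: the zone ends are admissible.

`√N = x`, `J1 = 0.105 x - O(1)`, `J2 = 0.189 x - O(1)`, `x ≤ 1.22475 (t+1)`, `x ≥ 1.22474 t`.
At `M1 = 1 + 7J1(J1+1)/2 = 0.0385875 N + O(x)`: `Z = 0.922825`, `√(1-Z^2) = 0.38521`,
`4 t n/N ≤ 4 * 0.735 * 0.8165 = 2.4006 ≤ 6.25 * 0.3852 = 2.4075`; `7 * 2 M1 = 49 J1^2 + 49 J1 + 14`
against `n^2 = 49 (J1+1/2)^2 = 49 J1^2 + 49 J1 + 12.25`, resp. `5 * 2 M1` against `(7J1+5/2)^2`.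
At `M2 = 0.266805 N`: `Z = 0.46639`, `√(1-Z^2) = 0.88458`, `4 t n/N ≤ 4*1.68*0.8165 = 5.4869 ≤
5.5286`; `5 * 2 M2 = 2.668 N ≤ n^2 = 2.822 N`.  At `M3`: `Z` lies between `0.4664` and `-0.4664`
(`M2 ≤ M3 ≤ N - M2`).  (`n = 7 J1 + 5 J2 + O(1) = 1.68 x + O(1)`.)
-/

set_option autoImplicit false

open MeasureTheory Real Pool.Agent.Helper83.SD

namespace Pool.Agent.Helper83.SE

/-- general form: admissibility from bounds on the mass and on the size -/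
theorem kok_of {t : ℕ} {N M n s a m : ℝ} (hN : 0 < N) (ht : 1.5 * (t : ℝ) ^ 2 ≤ N)
    (s0 : 0 ≤ s) (s7 : s ≤ 7) (n0 : 0 ≤ n) (ha : n ^ 2 ≤ a * N) (hm1 : m * N ≤ M)
    (hm2 : M ≤ (1 - m) * N) (hm3 : 0.035 ≤ m) (_hm4 : m ≤ 1 / 2)
    (ham : 0.4096 * a ≤ 6 * (m * (1 - m)))
    (hs : s = 0 ∨ M ≤ 0.45 * N) (hc : s * (2 * M) ≤ 1.001 * n ^ 2) : KOK t N M n s := by
  have hX1 : 2 * m ≤ 2 * M / N := by
    rw [le_div_iff₀ hN]; linarith
  have hX2 : 2 * M / N ≤ 2 * (1 - m) := by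
    rw [div_le_iff₀ hN]; linarith
  refine ⟨s0, s7, n0, ?_, ?_, ?_, ?_⟩
  · rw [abs_le]
    constructor <;> linarith
  · rcases hs with h | h
    · exact Or.inl h
    · right
      have : 2 * M / N ≤ 0.9 := by
        rw [div_le_iff₀ hN]; linarith
      linarith
  · have h1 : 4 * (m * (1 - m)) ≤ 1 - (1 - 2 * M / N) ^ 2 := by
      nlinarith [mul_nonneg (sub_nonneg.2 hX1) (sub_nonneg.2 hX2)]
    have h2 : (2 * (t : ℝ) * (2 * n / N) / 6.25) ^ 2 ≤ 4 * (m * (1 - m)) := by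
      have e : (2 * (t : ℝ) * (2 * n / N) / 6.25) ^ 2
          = 0.4096 * ((t : ℝ) ^ 2 * n ^ 2) / N ^ 2 := by
        field_simp
        ring
      rw [e, div_le_iff₀ (by positivity)]
      have h3 : (t : ℝ) ^ 2 * n ^ 2 ≤ (N / 1.5) * (a * N) := by
        apply mul_le_mul _ ha (by positivity) (by positivity)
        rw [le_div_iff₀ (by norm_num)]; linarith
      have h4 : (0.4096 * a) * N ^ 2 ≤ (6 * (m * (1 - m))) * N ^ 2 :=
        mul_le_mul_of_nonneg_right ham (by positivity)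
      have h5 : (N / 1.5) * (a * N) = a * N ^ 2 / 1.5 := by ring
      rw [h5] at h3
      have h6 : a * N ^ 2 / 1.5 * 1.5 = a * N ^ 2 := by ring
      nlinarith [h3, h4, h6]
    have h7 : 2 * (t : ℝ) * (2 * n / N) / 6.25 ≤ √(1 - (1 - 2 * M / N) ^ 2) :=
      Real.le_sqrt_of_sq_le (h2.trans h1)
    rw [div_le_iff₀ (by norm_num)] at h7
    linarith
  · have e : s * N * (1 - (1 - 2 * M / N)) = s * (2 * M) := by
      field_simp
      ring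
    rw [e]; exact hc

/-- bounds of the masses, pure inequalities -/
theorem mass_bd {x j k : ℝ} (hx : 1000000 ≤ x) (a1 : 0.105 * x - 1 ≤ j) (a2 : j ≤ 0.105 * x)
    (b1 : 0.189 * x - 1 ≤ k) (b2 : k ≤ 0.189 * x) :
    0.0385 * x ^ 2 ≤ 1 + 7 * j * (j + 1) / 2 ∧ 1 + 7 * j * (j + 1) / 2 ≤ 0.0387 * x ^ 2 ∧
    0.266 * x ^ 2 ≤ 1 + 7 * j * (j + 1) / 2 + 7 * j * k + 5 * k * (k + 1) / 2 ∧
    1 + 7 * j * (j + 1) / 2 + 7 * j * k + 5 * k * (k + 1) / 2 ≤ 0.267 * x ^ 2 := by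
  have j0 : 0 ≤ 0.105 * x - 1 := by linarith
  have k0 : 0 ≤ 0.189 * x - 1 := by linarith
  have j1 : 0 ≤ j := by linarith
  have k1 : 0 ≤ k := by linarith
  have jj1 : (0.105 * x - 1) ^ 2 ≤ j ^ 2 := pow_le_pow_left₀ j0 a1 2
  have kk1 : (0.189 * x - 1) ^ 2 ≤ k ^ 2 := pow_le_pow_left₀ k0 b1 2
  have jk1 : (0.105 * x - 1) * (0.189 * x - 1) ≤ j * k := mul_le_mul a1 b1 k0 j1
  have jj2 : j ^ 2 ≤ (0.105 * x) ^ 2 := pow_le_pow_left₀ j1 a2 2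
  have kk2 : k ^ 2 ≤ (0.189 * x) ^ 2 := pow_le_pow_left₀ k1 b2 2
  have jk2 : j * k ≤ (0.105 * x) * (0.189 * x) := mul_le_mul a2 b2 k1 (by linarith)
  have xx : 1000000 * x ≤ x ^ 2 := by
    rw [sq]; exact mul_le_mul_of_nonneg_right hx (by linarith)
  refine ⟨?_, ?_, ?_, ?_⟩ <;> linarith

/-- bounds of the squares of the sizes -/
theorem size_bd {x n : ℝ} (hx : 1000000 ≤ x) (n0 : 0 ≤ n) (h : n ≤ 1.68 * x + 8) :
    n ^ 2 ≤ 2.823 * x ^ 2 := by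
  have h1 : n ^ 2 ≤ (1.68 * x + 8) ^ 2 := pow_le_pow_left₀ n0 h 2
  have xx : 1000000 * x ≤ x ^ 2 := by
    rw [sq]; exact mul_le_mul_of_nonneg_right hx (by linarith)
  linarith

theorem size_bd1 {x n : ℝ} (hx : 1000000 ≤ x) (n0 : 0 ≤ n) (h : n ≤ 0.735 * x + 8) :
    n ^ 2 ≤ 0.5403 * x ^ 2 := by
  have h1 : n ^ 2 ≤ (0.735 * x + 8) ^ 2 := pow_le_pow_left₀ n0 h 2
  have xx : 1000000 * x ≤ x ^ 2 := by
    rw [sq]; exact mul_le_mul_of_nonneg_right hx (by linarith)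
  linarith

theorem size_lo {x n : ℝ} (hx : 1000000 ≤ x) (h : 1.68 * x - 9.5 ≤ n) :
    2.8 * x ^ 2 ≤ n ^ 2 := by
  have h1 : (1.68 * x - 9.5) ^ 2 ≤ n ^ 2 := pow_le_pow_left₀ (by linarith) h 2
  have xx : 1000000 * x ≤ x ^ 2 := by
    rw [sq]; exact mul_le_mul_of_nonneg_right hx (by linarith)
  linarith

theorem cfg_kok : ∃ T0 : ℝ, ∀ (t : ℕ) (c : Cf), T0 ≤ (t : ℝ) → Good t c →
    KOK t (c.N : ℝ) (M1 c) (7 * ((c.J1 : ℝ) + 1 / 2)) 7 ∧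
    KOK t (c.N : ℝ) (M1 c) (7 * (c.J1 : ℝ) + 5 / 2) 5 ∧
    KOK t (c.N : ℝ) (M2 c) (7 * (c.J1 : ℝ) + 5 * (c.J2 : ℝ) + 5 / 2) 5 ∧
    KOK t (c.N : ℝ) (M2 c) ((c.n : ℝ) + 1) 0 ∧
    KOK t (c.N : ℝ) (M2 c) (c.n : ℝ) 0 ∧
    KOK t (c.N : ℝ) (M3 c) ((c.n : ℝ) + 1) 0 ∧
    KOK t (c.N : ℝ) (M3 c) (c.n : ℝ) 0 := by
  refine ⟨1000000, fun t c hT hG => ?_⟩
  obtain ⟨x, hx⟩ : ∃ x : ℝ, x = √(c.N : ℝ) := ⟨_, rfl⟩
  have hx0 : 0 ≤ x := by rw [hx]; positivity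
  have hxN : (c.N : ℝ) = x ^ 2 := by
    rw [hx, Real.sq_sqrt (Nat.cast_nonneg _)]
  have hlo := hG.lo
  have hx6 : 1000000 ≤ x := by
    have h1 : (t : ℝ) ^ 2 ≤ x ^ 2 := by
      rw [← hxN]
      have : 0 ≤ (t : ℝ) ^ 2 := by positivity
      linarith
    exact hT.trans (le_of_sq_le_sq h1 hx0)
  have a1 := hG.a1
  have a2 := hG.a2
  have b1 := hG.b1
  have b2 := hG.b2
  rw [← hx] at a1 a2 b1 b2
  have hn1 : 7 * (c.J1 : ℝ) + 5 * (c.J2 : ℝ) ≤ c.n := by exact_mod_cast hG.n1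
  have hn2 : (c.n : ℝ) ≤ 7 * (c.J1 : ℝ) + 5 * (c.J2 : ℝ) + 7 := by exact_mod_cast hG.n2
  have hlR : (c.l : ℝ) ≤ c.R := by exact_mod_cast hG.lR
  have hcnt : (c.N : ℝ) = 2 + 7 * c.J1 * (c.J1 + 1) + 14 * c.J1 * c.J2 + 5 * c.J2 * (c.J2 + 1)
      + c.R * c.n + c.l := by exact_mod_cast hG.cnt
  obtain ⟨j, hj⟩ : ∃ j : ℝ, j = (c.J1 : ℝ) := ⟨_, rfl⟩
  obtain ⟨k, hk⟩ : ∃ k : ℝ, k = (c.J2 : ℝ) := ⟨_, rfl⟩
  obtain ⟨n, hn⟩ : ∃ n : ℝ, n = (c.n : ℝ) := ⟨_, rfl⟩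
  obtain ⟨l, hl⟩ : ∃ l : ℝ, l = (c.l : ℝ) := ⟨_, rfl⟩
  obtain ⟨R, hR⟩ : ∃ R : ℝ, R = (c.R : ℝ) := ⟨_, rfl⟩
  have l0 : 0 ≤ l := by rw [hl]; positivity
  have eM2 : M2 c = M1 c + 7 * j * k + 5 * k * (k + 1) / 2 := by rw [hj, hk]; rfl
  have eM1 : M1 c = 1 + 7 * j * (j + 1) / 2 := by rw [hj]; rfl
  have eM3 : M3 c = M2 c + l * (n + 1) := by rw [hl, hn]; rfl
  rw [← hj] at a1 a2 hn1 hn2 hcnt
  rw [← hk] at b1 b2 hn1 hn2 hcnt
  rw [← hn] at hn1 hn2 hcnt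
  rw [← hl] at hlR hcnt
  rw [← hR] at hlR hcnt
  rw [← hj, ← hk, ← hn]
  have hN0 : 0 < (c.N : ℝ) := by rw [hxN]; positivity
  have j1 : 0 ≤ j := by linarith
  have k1 : 0 ≤ k := by linarith
  obtain ⟨m1lo, m1hi, m2lo, m2hi⟩ := mass_bd hx6 a1 a2 b1 b2
  rw [← eM1, ← hxN] at m1lo m1hi
  rw [← eM1, ← eM2, ← hxN] at m2lo m2hi
  have n0 : 0 ≤ n := by linarith
  have m3lo : M2 c ≤ M3 c := by
    rw [eM3]
    have : 0 ≤ l * (n + 1) := by positivity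
    linarith
  have m3hi : M3 c ≤ (c.N : ℝ) - M2 c := by
    rw [eM3, hcnt, eM2, eM1]
    have := mul_le_mul_of_nonneg_right hlR n0
    linarith
  have nsq : (n + 1) ^ 2 ≤ 2.823 * (c.N : ℝ) := by
    rw [hxN]; exact size_bd hx6 (by linarith) (by linarith)
  have nsq0 : n ^ 2 ≤ 2.823 * (c.N : ℝ) := by
    rw [hxN]; exact size_bd hx6 (by linarith) (by linarith)
  have jj : 0 ≤ j ^ 2 := by positivity
  refine ⟨?_, ?_, ?_, ?_, ?_, ?_, ?_⟩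
  · refine kok_of (a := 0.5403) (m := 0.0385) hN0 hlo (by norm_num) (by norm_num) (by linarith)
      ?_ m1lo (by linarith) (by norm_num) (by norm_num) (by norm_num) (Or.inr (by linarith)) ?_
    · rw [hxN]; exact size_bd1 hx6 (by linarith) (by linarith)
    · rw [eM1]
      have : 100 * j ≤ j ^ 2 := by
        rw [sq]; exact mul_le_mul_of_nonneg_right (by linarith) j1
      linarith
  · refine kok_of (a := 0.5403) (m := 0.0385) hN0 hlo (by norm_num) (by norm_num) (by linarith)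
      ?_ m1lo (by linarith) (by norm_num) (by norm_num) (by norm_num) (Or.inr (by linarith)) ?_
    · rw [hxN]; exact size_bd1 hx6 (by linarith) (by linarith)
    · rw [eM1]
      have : 100 * j ≤ j ^ 2 := by
        rw [sq]; exact mul_le_mul_of_nonneg_right (by linarith) j1
      linarith
  · refine kok_of (a := 2.823) (m := 0.266) hN0 hlo (by norm_num) (by norm_num) (by linarith)
      ?_ m2lo (by linarith) (by norm_num) (by norm_num) (by norm_num) (Or.inr (by linarith)) ?_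
    · rw [hxN]; exact size_bd hx6 (by linarith) (by linarith)
    · have h2 : 2.8 * x ^ 2 ≤ (7 * j + 5 * k + 5 / 2) ^ 2 := size_lo hx6 (by linarith)
      rw [← hxN] at h2
      linarith
  · refine kok_of (a := 2.823) (m := 0.266) hN0 hlo (by norm_num) (by norm_num) (by linarith)
      nsq m2lo (by linarith) (by norm_num) (by norm_num) (by norm_num) (Or.inl rfl) ?_
    rw [zero_mul]; positivity
  · refine kok_of (a := 2.823) (m := 0.266) hN0 hlo (by norm_num) (by norm_num) n0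
      nsq0 m2lo (by linarith) (by norm_num) (by norm_num) (by norm_num) (Or.inl rfl) ?_
    rw [zero_mul]; positivity
  · refine kok_of (a := 2.823) (m := 0.266) hN0 hlo (by norm_num) (by norm_num) (by linarith)
      nsq (by linarith) (by linarith) (by norm_num) (by norm_num) (by norm_num) (Or.inl rfl) ?_
    rw [zero_mul]; positivity
  · refine kok_of (a := 2.823) (m := 0.266) hN0 hlo (by norm_num) (by norm_num) n0
      nsq0 (by linarith) (by linarith) (by norm_num) (by norm_num) (by norm_num) (Or.inl rfl) ?_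
    rw [zero_mul]; positivity

end Pool.Agent.Helper83.SE
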