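import Pool.Agent.Helper83.SE.Wp

/-!
Project SE, module Lin: linearity and integrability of the functionals.

`KI N M n s B y` is a real polynomial in `y`, `ℝ`-linear in `B`.  Constants:
`KI N M n s (C a) y = a s y`, `2 a s / 48 = a s / 24`, and `(N/2)(-s/(12N)) a = -a s/24`;
`PF N (C a) = a (1 - 5/12 - 14/24) = 0`.
-/

set_option autoImplicit false

open MeasureTheory Real Pool.Agent.Helper83.SD

namespace Pool.Agent.Helper83.SE

private theorem ki_add (N M n s : ℝ) (B B' : Polynomial ℝ) (y : ℝ) :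
    KI N M n s (B + B') y = KI N M n s B y + KI N M n s B' y := by
  unfold KI
  rw [map_add, mul_add, Complex.add_im]

private theorem ki_smul (N M n s c : ℝ) (B : Polynomial ℝ) (y : ℝ) :
    KI N M n s (c • B) y = c * KI N M n s B y := by
  unfold KI
  rw [map_smul, mul_smul_comm, Complex.smul_im, smul_eq_mul]

/-- powers of the complex height are polynomials in `y` -/
private theorem zet_pow (N M n s : ℝ) (k : ℕ) : ∃ U V : Polynomial ℝ, ∀ y : ℝ,
    ((n : ℂ) + Complex.I * ((s * y : ℝ) : ℂ)) * zet N M n s y ^ k =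
      ((U.eval y : ℝ) : ℂ) + ((V.eval y : ℝ) : ℂ) * Complex.I := by
  induction k with
  | zero =>
    refine ⟨Polynomial.C n, Polynomial.C s * Polynomial.X, fun y => ?_⟩
    rw [pow_zero, mul_one]
    simp only [Polynomial.eval_C, Polynomial.eval_mul, Polynomial.eval_X]
    ring
  | succ k ih =>
    obtain ⟨U, V, h⟩ := ih
    refine ⟨U * (Polynomial.C (1 - 2 * M / N - s / (12 * N)) +
        Polynomial.C (s / N) * Polynomial.X ^ 2) + V * (Polynomial.C (2 * n / N) * Polynomial.X),
      V * (Polynomial.C (1 - 2 * M / N - s / (12 * N)) +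
        Polynomial.C (s / N) * Polynomial.X ^ 2) - U * (Polynomial.C (2 * n / N) * Polynomial.X),
      fun y => ?_⟩
    rw [pow_succ, ← mul_assoc, h y]
    have hz : zet N M n s y = (((1 - 2 * M / N - s / (12 * N) + s / N * y ^ 2 : ℝ)) : ℂ) -
        ((2 * n / N * y : ℝ) : ℂ) * Complex.I := by
      unfold zet
      have e1 : (1 - 2 * M / N + s * (y ^ 2 - 1 / 12) / N : ℝ) =
          1 - 2 * M / N - s / (12 * N) + s / N * y ^ 2 := by ring
      have e2 : (2 * n * y / N : ℝ) = 2 * n / N * y := by ring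
      rw [e1, e2]
    rw [hz]
    simp only [Polynomial.eval_C, Polynomial.eval_mul, Polynomial.eval_X, Polynomial.eval_add,
      Polynomial.eval_sub, Polynomial.eval_pow]
    generalize (1 - 2 * M / N - s / (12 * N) + s / N * y ^ 2 : ℝ) = P
    generalize (2 * n / N * y : ℝ) = R
    push_cast
    linear_combination (-((V.eval y : ℝ) : ℂ) * (R : ℂ)) * Complex.I_mul_I

private theorem ki_poly (N M n s : ℝ) (B : Polynomial ℝ) :
    ∃ Q : Polynomial ℝ, ∀ y : ℝ, KI N M n s B y = Q.eval y := by
  induction B using Polynomial.induction_on' with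
  | add p q hp hq =>
    obtain ⟨P, hP⟩ := hp
    obtain ⟨Q, hQ⟩ := hq
    exact ⟨P + Q, fun y => by rw [ki_add, hP, hQ, Polynomial.eval_add]⟩
  | monomial k a =>
    obtain ⟨U, V, h⟩ := zet_pow N M n s k
    refine ⟨Polynomial.C a * V, fun y => ?_⟩
    have h1 : Polynomial.aeval (zet N M n s y) (Polynomial.monomial k a) =
        (a : ℂ) * zet N M n s y ^ k := by
      rw [Polynomial.aeval_monomial]
      rfl
    unfold KI
    rw [h1, mul_left_comm, h y, Polynomial.eval_mul, Polynomial.eval_C]
    simp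

private theorem poly_wp_int (Q : Polynomial ℝ) :
    IntegrableOn (fun y : ℝ => Q.eval y * wp y) (Set.Ioi 0) := by
  have h : (fun y : ℝ => Q.eval y * wp y) =
      fun y : ℝ => ∑ i ∈ Finset.range (Q.natDegree + 1), Q.coeff i * (y ^ i * wp y) := by
    funext y
    rw [Polynomial.eval_eq_sum_range, Finset.sum_mul]
    exact Finset.sum_congr rfl fun i _ => by ring
  rw [h]
  exact integrable_finsetSum _ fun i _ => (int_wp0 i).const_mul _

private theorem poly_wt_int (Q : Polynomial ℝ) :
    IntegrableOn (fun y : ℝ => y * Q.eval y * wt y) (Set.Ioi 0) := by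
  have h : (fun y : ℝ => y * Q.eval y * wt y) =
      fun y : ℝ => ∑ i ∈ Finset.range (Q.natDegree + 1), Q.coeff i * (y ^ (i + 1) * wt y) := by
    funext y
    rw [Polynomial.eval_eq_sum_range, Finset.mul_sum, Finset.sum_mul]
    exact Finset.sum_congr rfl fun i _ => by ring
  rw [h]
  exact integrable_finsetSum _ fun i _ => (int_wt0 (i + 1) (by omega)).const_mul _

theorem ki_int (N M n s : ℝ) (B : Polynomial ℝ) :
    IntegrableOn (fun y : ℝ => KI N M n s B y * wp y) (Set.Ioi 0) := by
  obtain ⟨Q, hQ⟩ := ki_poly N M n s B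
  simp only [hQ]
  exact poly_wp_int Q

theorem pf_int (N : ℝ) (B : Polynomial ℝ) :
    IntegrableOn (fun y : ℝ => y * B.eval (1 + (7 * y ^ 2 - 5 / 6) / N) * wt y) (Set.Ioi 0) := by
  have h := poly_wt_int (B.comp (1 + (7 * Polynomial.X ^ 2 - Polynomial.C (5 / 6)) *
    Polynomial.C (1 / N)))
  refine h.congr_fun (fun y _ => ?_) measurableSet_Ioi
  simp only [Polynomial.eval_comp, Polynomial.eval_add, Polynomial.eval_one, Polynomial.eval_mul,
    Polynomial.eval_sub, Polynomial.eval_pow, Polynomial.eval_X, Polynomial.eval_C,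
    Polynomial.eval_ofNat, mul_one_div]

private theorem poly_ii (B : Polynomial ℝ) (a b : ℝ) :
    IntervalIntegrable (fun z : ℝ => B.eval z) volume a b :=
  B.continuous.intervalIntegrable a b

theorem os_lin (N M n s : ℝ) : ∃ Φ : Polynomial ℝ →ₗ[ℝ] ℝ, ∀ B, Φ B = OS N M n s B := by
  refine ⟨{ toFun := OS N M n s, map_add' := ?_, map_smul' := ?_ }, fun _ => rfl⟩
  · intro B B'
    unfold OS
    have h1 : ∫ y in Set.Ioi (0 : ℝ), KI N M n s (B + B') y * wp y =
        (∫ y in Set.Ioi (0 : ℝ), KI N M n s B y * wp y) +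
          ∫ y in Set.Ioi (0 : ℝ), KI N M n s B' y * wp y := by
      rw [← integral_add (ki_int N M n s B) (ki_int N M n s B')]
      congr 1
      funext y
      rw [ki_add]
      ring
    have h2 : ∫ z in (1 - 2 * M / N)..(1 - 2 * M / N - s / (12 * N)), (B + B').eval z =
        (∫ z in (1 - 2 * M / N)..(1 - 2 * M / N - s / (12 * N)), B.eval z) +
          ∫ z in (1 - 2 * M / N)..(1 - 2 * M / N - s / (12 * N)), B'.eval z := by
      rw [← intervalIntegral.integral_add (poly_ii B _ _) (poly_ii B' _ _)]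
      congr 1
      funext y
      rw [Polynomial.eval_add]
    rw [h1, h2]
    ring
  · intro c B
    unfold OS
    have h1 : ∫ y in Set.Ioi (0 : ℝ), KI N M n s (c • B) y * wp y =
        c * ∫ y in Set.Ioi (0 : ℝ), KI N M n s B y * wp y := by
      rw [← integral_const_mul]
      congr 1
      funext y
      rw [ki_smul]
      ring
    have h2 : ∫ z in (1 - 2 * M / N)..(1 - 2 * M / N - s / (12 * N)), (c • B).eval z =
        c * ∫ z in (1 - 2 * M / N)..(1 - 2 * M / N - s / (12 * N)), B.eval z := by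
      rw [← intervalIntegral.integral_const_mul]
      congr 1
      funext y
      rw [Polynomial.eval_smul, smul_eq_mul]
    rw [h1, h2, RingHom.id_apply, smul_eq_mul]
    ring

theorem pf_lin (N : ℝ) : ∃ Φ : Polynomial ℝ →ₗ[ℝ] ℝ, ∀ B, Φ B = PF N B := by
  refine ⟨{ toFun := PF N, map_add' := ?_, map_smul' := ?_ }, fun _ => rfl⟩
  · intro B B'
    unfold PF
    have h1 : ∫ y in Set.Ioi (0 : ℝ), y * (B + B').eval (1 + (7 * y ^ 2 - 5 / 6) / N) * wt y =
        (∫ y in Set.Ioi (0 : ℝ), y * B.eval (1 + (7 * y ^ 2 - 5 / 6) / N) * wt y) +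
          ∫ y in Set.Ioi (0 : ℝ), y * B'.eval (1 + (7 * y ^ 2 - 5 / 6) / N) * wt y := by
      rw [← integral_add (pf_int N B) (pf_int N B')]
      congr 1
      funext y
      rw [Polynomial.eval_add]
      ring
    have h2 : ∫ z in (1 - 5 / (6 * N))..1, (B + B').eval z =
        (∫ z in (1 - 5 / (6 * N))..1, B.eval z) + ∫ z in (1 - 5 / (6 * N))..1, B'.eval z := by
      rw [← intervalIntegral.integral_add (poly_ii B _ _) (poly_ii B' _ _)]
      congr 1
      funext y
      rw [Polynomial.eval_add]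
    rw [h1, h2, Polynomial.eval_add]
    ring
  · intro c B
    unfold PF
    have h1 : ∫ y in Set.Ioi (0 : ℝ), y * (c • B).eval (1 + (7 * y ^ 2 - 5 / 6) / N) * wt y =
        c * ∫ y in Set.Ioi (0 : ℝ), y * B.eval (1 + (7 * y ^ 2 - 5 / 6) / N) * wt y := by
      rw [← integral_const_mul]
      congr 1
      funext y
      rw [Polynomial.eval_smul, smul_eq_mul]
      ring
    have h2 : ∫ z in (1 - 5 / (6 * N))..1, (c • B).eval z =
        c * ∫ z in (1 - 5 / (6 * N))..1, B.eval z := by
      rw [← intervalIntegral.integral_const_mul]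
      congr 1
      funext y
      rw [Polynomial.eval_smul, smul_eq_mul]
    rw [h1, h2, Polynomial.eval_smul, RingHom.id_apply, smul_eq_mul, smul_eq_mul]
    ring

theorem os_C {N : ℝ} (hN : N ≠ 0) (M n s a : ℝ) : OS N M n s (Polynomial.C a) = 0 := by
  unfold OS
  have h1 : ∀ y : ℝ, KI N M n s (Polynomial.C a) y = a * s * y := by
    intro y
    unfold KI
    rw [Polynomial.aeval_C]
    have : (algebraMap ℝ ℂ) a = (a : ℂ) := rfl
    rw [this]
    have h2 : ((n : ℂ) + Complex.I * ((s * y : ℝ) : ℂ)) * (a : ℂ) =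
        ((n * a : ℝ) : ℂ) + ((a * s * y : ℝ) : ℂ) * Complex.I := by
      push_cast
      ring
    rw [h2]
    simp
  have h3 : ∫ y in Set.Ioi (0 : ℝ), KI N M n s (Polynomial.C a) y * wp y = a * s * (1 / 48) := by
    rw [← moment_wp_one, ← integral_const_mul]
    congr 1
    funext y
    rw [h1]
    ring
  rw [h3]
  simp only [Polynomial.eval_C, intervalIntegral.integral_const, smul_eq_mul]
  field_simp
  ring

theorem pf_C {N : ℝ} (hN : N ≠ 0) (a : ℝ) : PF N (Polynomial.C a) = 0 := by
  unfold PF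
  have h3 : ∫ y in Set.Ioi (0 : ℝ),
      y * (Polynomial.C a).eval (1 + (7 * y ^ 2 - 5 / 6) / N) * wt y = a * (1 / 24) := by
    rw [← moment_one, ← integral_const_mul]
    congr 1
    funext y
    rw [Polynomial.eval_C]
    ring
  rw [h3]
  simp only [Polynomial.eval_C, intervalIntegral.integral_const, smul_eq_mul]
  field_simp
  ring

end Pool.Agent.Helper83.SE
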