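import Pool.Agent.Helper83.SE.Kap
import Pool.Agent.Helper83.SD.Growth
import Pool.Agent.Helper83.SE.Lin

/-!
Project SE, module KinkF: the integrand of a zone end, large `y`.

`ζ = sin w` (`SD.arc`), `θ = π/2 - w`, `SD.growth` with `D = 2t`, `S = A t^3`:
`|B(ζ)| ≤ (4t+1) A t^3 exp(2t |Im w|)`, `2t |Im w| ≤ 6.25 y` (`kap_im` with `r = 0`), and
`|n + i s y| ≤ 2.5 t + 7 y`; finally `35 t^5 ≤ exp(0.025 y)` for `y ≥ 400 log t`.
-/

set_option autoImplicit false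

open MeasureTheory Real Pool.Agent.Helper83.SD

namespace Pool.Agent.Helper83.SE

theorem kink_far : ∃ T0 : ℝ, ∀ (t : ℕ) (N M n s A y : ℝ) (B : Polynomial ℝ), T0 ≤ (t : ℝ) →
    1.5 * (t : ℝ) ^ 2 ≤ N → N ≤ 1.5 * ((t : ℝ) + 1) ^ 2 → KOK t N M n s →
    B.natDegree ≤ 2 * t → 0 ≤ A → (∀ z : ℝ, z ^ 2 ≤ 1 → |B.eval z| ≤ A * (t : ℝ) ^ 3) →
    400 * Real.log t ≤ y →
    |KI N M n s B y| ≤ A * (1 + y) * Real.exp (6.275 * y) := by
  obtain ⟨T0, hT⟩ := kap_im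
  refine ⟨max T0 1000, fun t N M n s A y B ht hN1 hN2 hK hB hA hbd hy => ?_⟩
  have ht1 : (1000 : ℝ) ≤ (t : ℝ) := le_trans (le_max_right _ _) ht
  have ht2 : T0 ≤ (t : ℝ) := le_trans (le_max_left _ _) ht
  have ht3 : (1000 : ℕ) ≤ t := by exact_mod_cast ht1
  have htpos : (0 : ℝ) < (t : ℝ) := by linarith
  have hlog : 0 < Real.log t := Real.log_pos (by linarith)
  have hy0 : 0 < y := by linarith [mul_pos (by norm_num : (0 : ℝ) < 400) hlog]
  obtain ⟨w, hw, -, -, -⟩ := arc (zet N M n s y)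
  have him : |w.im| ≤ 3.125 / (t : ℝ) * y := by
    refine hT t N M n s n s 0 y w ht2 hN1 hN2 hK hK le_rfl zero_le_one hy0 ?_
    rw [hw]
    congr 1 <;> ring
  have hn : n ≤ 2.5 * (t : ℝ) := kap_n ht3 hN1 hN2 hK
  have hg := growth B (2 * t) hB hbd ((π / 2 : ℝ) - w)
  have hcos : Complex.cos (((π / 2 : ℝ) : ℂ) - w) = zet N M n s y := by
    rw [← hw]
    push_cast
    exact Complex.cos_pi_div_two_sub w
  rw [hcos] at hg
  have him2 : |((((π / 2 : ℝ) : ℂ)) - w).im| = |w.im| := by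
    rw [Complex.sub_im, Complex.ofReal_im, zero_sub, abs_neg]
  rw [him2] at hg
  have hexp : Real.exp (((2 * t : ℕ) : ℝ) * |w.im|) ≤ Real.exp (6.25 * y) := by
    apply Real.exp_le_exp.mpr
    push_cast
    calc 2 * (t : ℝ) * |w.im| ≤ 2 * (t : ℝ) * (3.125 / (t : ℝ) * y) :=
          mul_le_mul_of_nonneg_left him (by positivity)
      _ = 6.25 * y := by field_simp; ring
  have hS0 : 0 ≤ A * (t : ℝ) ^ 3 := by positivity
  have h1 : ‖Polynomial.aeval (zet N M n s y) B‖ ≤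
      5 * (t : ℝ) * (A * (t : ℝ) ^ 3) * Real.exp (6.25 * y) := by
    refine hg.trans ?_
    refine mul_le_mul (mul_le_mul_of_nonneg_right ?_ hS0) hexp (Real.exp_pos _).le (by positivity)
    push_cast
    linarith
  have h2 : ‖(n : ℂ) + Complex.I * ((s * y : ℝ) : ℂ)‖ ≤ 7 * (t : ℝ) * (1 + y) := by
    refine (norm_add_le _ _).trans ?_
    rw [norm_mul, Complex.norm_I, one_mul, Complex.norm_real, Complex.norm_real, Real.norm_eq_abs,
      Real.norm_eq_abs, abs_of_nonneg hK.n0, abs_of_nonneg (mul_nonneg hK.s0 hy0.le)]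
    have h3 : s * y ≤ 7 * y := mul_le_mul_of_nonneg_right hK.s7 hy0.le
    nlinarith
  have h5 : 35 * (t : ℝ) ^ 5 ≤ Real.exp (0.025 * y) := by
    have h6 : Real.exp (10 * Real.log t) ≤ Real.exp (0.025 * y) :=
      Real.exp_le_exp.mpr (by linarith)
    have h7 : Real.exp (10 * Real.log t) = (t : ℝ) ^ 10 := by
      rw [mul_comm, Real.exp_mul, Real.exp_log htpos]
      norm_cast
    rw [h7] at h6
    refine le_trans ?_ h6
    have h8 : (35 : ℝ) ≤ (t : ℝ) ^ 5 := by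
      calc (35 : ℝ) ≤ 1000 ^ 5 := by norm_num
        _ ≤ (t : ℝ) ^ 5 := pow_le_pow_left₀ (by norm_num) ht1 5
    calc 35 * (t : ℝ) ^ 5 ≤ (t : ℝ) ^ 5 * (t : ℝ) ^ 5 :=
          mul_le_mul_of_nonneg_right h8 (by positivity)
      _ = (t : ℝ) ^ 10 := by ring
  unfold KI
  refine (Complex.abs_im_le_norm _).trans ?_
  rw [norm_mul]
  calc ‖(n : ℂ) + Complex.I * ((s * y : ℝ) : ℂ)‖ * ‖Polynomial.aeval (zet N M n s y) B‖
      ≤ (7 * (t : ℝ) * (1 + y)) * (5 * (t : ℝ) * (A * (t : ℝ) ^ 3) * Real.exp (6.25 * y)) :=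
        mul_le_mul h2 h1 (norm_nonneg _) (by positivity)
    _ = A * (1 + y) * Real.exp (6.25 * y) * (35 * (t : ℝ) ^ 5) := by ring
    _ ≤ A * (1 + y) * Real.exp (6.25 * y) * Real.exp (0.025 * y) :=
        mul_le_mul_of_nonneg_left h5 (by positivity)
    _ = A * (1 + y) * Real.exp (6.275 * y) := by
        rw [mul_assoc, ← Real.exp_add]
        congr 2
        ring

end Pool.Agent.Helper83.SE
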