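import Pool.Agent.Helper83.SE.KinkN
import Pool.Agent.Helper83.SE.KinkF

/-!
Project SE, module KB: a change of zone costs `O(A)`.

`OS` kills constants (`os_C`, `os_lin`), so replace `B` by `B - B(Z)`, `Z = 1 - 2M/N`.  The two
real integrals `(N/2) ∫_Z^{Z - s/(12N)} B` are at most `(s/24) sup |B - B(Z)|` on an interval of
length `O(1/N)`, hence `O(A)` (`near2_real`, `sin_lower`; `Z = sin a` with `|a| ≤ 1.25`).
The integral: `kink_near` for `y ≤ 400 log t`, `kink_far` twice for larger `y`; `int_wp` with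
`6.27 < 2π`, `6.275 < 2π`.
-/

set_option autoImplicit false

open MeasureTheory Real Pool.Agent.Helper83.SD

namespace Pool.Agent.Helper83.SE

namespace KB

theorem nearH_sub {B : Polynomial ℝ} {A Λ : ℝ} (h : NearH B A Λ) (c : ℝ) :
    NearH (B - Polynomial.C c) A Λ := by
  intro k hk ψ hψ
  obtain ⟨k, rfl⟩ : ∃ j, k = j + 1 := ⟨k - 1, by omega⟩
  have h1 := h (k + 1) hk ψ hψ
  have h2 : (fun s => (B - Polynomial.C c).eval (sin s)) = fun s => B.eval (sin s) - c := by
    funext s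
    rw [Polynomial.eval_sub, Polynomial.eval_C]
  have h3 : deriv (fun s => B.eval (sin s) - c) = deriv (fun s => B.eval (sin s)) := by
    funext s
    exact deriv_sub_const c
  rw [h2, iteratedDeriv_succ', h3, ← iteratedDeriv_succ']
  exact h1

/-- integrability of the majorant -/
theorem maj_int : IntegrableOn
    (fun y : ℝ => (1 + y) ^ 4 * Real.exp (6.275 * y) * wp y) (Set.Ioi 0) := by
  have hc : (6.275 : ℝ) < 2 * π := by
    have := Real.pi_gt_d4
    norm_num at this ⊢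
    linarith
  have h0 := int_wp 0 hc
  have h1 := int_wp 1 hc
  have h2 := int_wp 2 hc
  have h3 := int_wp 3 hc
  have h4 := int_wp 4 hc
  have h5 : (fun y : ℝ => (1 + y) ^ 4 * Real.exp (6.275 * y) * wp y) =
      fun y : ℝ => (y ^ 0 * Real.exp (6.275 * y) * wp y + 4 * (y ^ 1 * Real.exp (6.275 * y) * wp y))
        + 6 * (y ^ 2 * Real.exp (6.275 * y) * wp y)
        + 4 * (y ^ 3 * Real.exp (6.275 * y) * wp y) + y ^ 4 * Real.exp (6.275 * y) * wp y := by
    funext y
    ring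
  rw [h5]
  exact (((h0.add (h1.const_mul 4)).add (h2.const_mul 6)).add (h3.const_mul 4)).add h4

/-- the real integral at a zone end -/
theorem real_part {t : ℕ} {N M n s A Λ : ℝ} {B : Polynomial ℝ} (ht : 10 ≤ (t : ℝ))
    (hN : 1.5 * (t : ℝ) ^ 2 ≤ N) (hK : KOK t N M n s) (hA : 0 ≤ A) (hΛ1 : 1 ≤ Λ)
    (hΛ : Λ ≤ 2 * (t : ℝ) + 1) (h : NearH B A Λ) (h0 : B.eval (1 - 2 * M / N) = 0) :
    |(N / 2) * ∫ z in (1 - 2 * M / N)..(1 - 2 * M / N - s / (12 * N)), B.eval z| ≤ A / 2 := by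
  have hN0 : 0 < N := by nlinarith
  have hN1 : 150 ≤ N := by nlinarith
  have hZ := hK.Z
  have hs0 := hK.s0
  have hs7 := hK.s7
  set Z : ℝ := 1 - 2 * M / N with hZdef
  have hd0 : 0 ≤ s / (12 * N) := by positivity
  have hd1 : s / (12 * N) ≤ 7 / (12 * N) := by
    apply div_le_div_of_nonneg_right hs7
    positivity
  have hd2 : 7 / (12 * N) ≤ 0.004 := by
    rw [div_le_iff₀ (by positivity)]
    norm_num
    linarith
  have hZ9 : |Real.sin (Real.arcsin Z)| ≤ 0.9489 := by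
    rw [Real.sin_arcsin (by linarith [(abs_le.1 hZ).1]) (by linarith [(abs_le.1 hZ).2])]
    exact hZ.trans (by norm_num)
  have hb : |Real.arcsin Z| ≤ 1.25 :=
    arc_re (abs_le.2 ⟨Real.neg_pi_div_two_le_arcsin Z, Real.arcsin_le_pi_div_two Z⟩) hZ9 le_rfl
  have hsZ : Real.sin (Real.arcsin Z) = Z :=
    Real.sin_arcsin (by linarith [(abs_le.1 hZ).1]) (by linarith [(abs_le.1 hZ).2])
  have key : ∀ x ∈ Set.uIoc Z (Z - s / (12 * N)), ‖B.eval x‖ ≤ A := by
    intro x hx
    have hx1 : x ≤ Z ∧ Z - s / (12 * N) ≤ x := by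
      have h1 := Set.uIoc_subset_uIcc hx
      rw [Set.uIcc_of_ge (by linarith), Set.mem_Icc] at h1
      exact ⟨h1.2, h1.1⟩
    have hxa : |x| ≤ 0.9489 := by
      rw [abs_le] at hZ ⊢
      constructor <;> norm_num at * <;> linarith
    have hsx : Real.sin (Real.arcsin x) = x :=
      Real.sin_arcsin (by linarith [(abs_le.1 hxa).1]) (by linarith [(abs_le.1 hxa).2])
    have ha : |Real.arcsin x| ≤ 1.25 :=
      arc_re (abs_le.2 ⟨Real.neg_pi_div_two_le_arcsin x, Real.arcsin_le_pi_div_two x⟩)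
        (by rw [hsx]; exact hxa) le_rfl
    have h2 := near2_real h ha hb
    have h3 := sin_lower ha hb
    rw [hsx, hsZ] at h2 h3
    rw [h0, sub_zero] at h2
    have h4 : |x - Z| ≤ 7 / (12 * N) := by
      rw [abs_le]
      constructor <;> linarith
    have h5 : A * Λ * |Real.arcsin x - Real.arcsin Z| ≤ A * (Λ * (3.2 * (7 / (12 * N)))) := by
      rw [mul_assoc]
      apply mul_le_mul_of_nonneg_left _ hA
      apply mul_le_mul_of_nonneg_left _ (by linarith)
      exact h3.trans (by linarith)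
    have h6 : Λ * (3.2 * (7 / (12 * N))) ≤ 1 := by
      have h7 : Λ * (3.2 * (7 / (12 * N))) = (3.2 * 7 * Λ) / (12 * N) := by
        field_simp
      rw [h7, div_le_one (by positivity)]
      nlinarith
    rw [Real.norm_eq_abs]
    calc |B.eval x| ≤ A * Λ * |Real.arcsin x - Real.arcsin Z| := h2
      _ ≤ A * (Λ * (3.2 * (7 / (12 * N)))) := h5
      _ ≤ A * 1 := mul_le_mul_of_nonneg_left h6 hA
      _ = A := mul_one A
  have h8 := intervalIntegral.norm_integral_le_of_norm_le_const key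
  rw [Real.norm_eq_abs] at h8
  have h9 : |Z - s / (12 * N) - Z| = s / (12 * N) := by
    rw [sub_sub_cancel_left, abs_neg, abs_of_nonneg hd0]
  rw [h9] at h8
  rw [abs_mul, abs_of_nonneg (by linarith : (0 : ℝ) ≤ N / 2)]
  calc N / 2 * |∫ z in Z..(Z - s / (12 * N)), B.eval z| ≤ N / 2 * (A * (s / (12 * N))) :=
        mul_le_mul_of_nonneg_left h8 (by linarith)
    _ = A * s / 24 := by field_simp; ring
    _ ≤ A / 2 := by nlinarith

end KB

theorem kink : ∃ C T0 : ℝ, 0 < C ∧ ∀ (t : ℕ) (N M n1 s1 n2 s2 A Λ : ℝ)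
    (B : Polynomial ℝ), T0 ≤ (t : ℝ) → 1.5 * (t : ℝ) ^ 2 ≤ N → N ≤ 1.5 * ((t : ℝ) + 1) ^ 2 →
    KOK t N M n1 s1 → KOK t N M n2 s2 → |n1 - n2| ≤ 10 → B.natDegree ≤ 2 * t → 0 ≤ A →
    1 ≤ Λ → Λ ≤ 2 * (t : ℝ) + 1 → NearH B A Λ →
    (∀ z : ℝ, z ^ 2 ≤ 1 → |B.eval z - B.eval (1 - 2 * M / N)| ≤ A * (t : ℝ) ^ 3) →
    |KF N M n1 s1 n2 s2 B| ≤ C * A := by
  obtain ⟨C1, T1, hC1, hnear⟩ := kink_near
  obtain ⟨T2, hfar⟩ := kink_far
  set I : ℝ := ∫ y in Set.Ioi (0 : ℝ), (1 + y) ^ 4 * Real.exp (6.275 * y) * wp y with hI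
  have hI0 : 0 ≤ I := by
    apply setIntegral_nonneg measurableSet_Ioi
    intro y hy
    have hy0 : (0 : ℝ) < y := hy
    have := wp_pos y
    positivity
  refine ⟨2 * ((C1 + 2) * I) + 1, max (max T1 T2) 10, by positivity, ?_⟩
  intro t N M n1 s1 n2 s2 A Λ B hT hN1 hN2 hK1 hK2 hn hdeg hA hΛ1 hΛ2 hH hB
  have hT1 : T1 ≤ (t : ℝ) := ((le_max_left _ _).trans (le_max_left _ _)).trans hT
  have hT2 : T2 ≤ (t : ℝ) := ((le_max_right _ _).trans (le_max_left _ _)).trans hT
  have ht : (10 : ℝ) ≤ t := (le_max_right _ _).trans hT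
  have hN0 : 0 < N := by nlinarith
  set c : ℝ := B.eval (1 - 2 * M / N) with hc
  set B' : Polynomial ℝ := B - Polynomial.C c with hB'
  have hOS : ∀ n s : ℝ, OS N M n s B = OS N M n s B' := by
    intro n s
    obtain ⟨Φ, hΦ⟩ := os_lin N M n s
    rw [← hΦ, ← hΦ, hB', map_sub, hΦ (Polynomial.C c), os_C hN0.ne', sub_zero]
  have hZ0 : B'.eval (1 - 2 * M / N) = 0 := by
    rw [hB', Polynomial.eval_sub, Polynomial.eval_C, sub_self]
  have hH' : NearH B' A Λ := KB.nearH_sub hH c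
  have hdeg' : B'.natDegree ≤ 2 * t := by
    rw [hB']
    exact (Polynomial.natDegree_sub_C).le.trans hdeg
  have hbd : ∀ z : ℝ, z ^ 2 ≤ 1 → |B'.eval z| ≤ A * (t : ℝ) ^ 3 := by
    intro z hz
    rw [hB', Polynomial.eval_sub, Polynomial.eval_C]
    exact hB z hz
  unfold KF
  rw [hOS n2 s2, hOS n1 s1]
  unfold OS
  have hi1 := ki_int N M n1 s1 B'
  have hi2 := ki_int N M n2 s2 B'
  have hr1 := KB.real_part ht hN1 hK1 hA hΛ1 hΛ2 hH' hZ0
  have hr2 := KB.real_part ht hN1 hK2 hA hΛ1 hΛ2 hH' hZ0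
  have hmain : |(∫ y in Set.Ioi (0 : ℝ), KI N M n2 s2 B' y * wp y) -
      ∫ y in Set.Ioi (0 : ℝ), KI N M n1 s1 B' y * wp y| ≤ A * ((C1 + 2) * I) := by
    rw [← integral_sub hi2 hi1, ← Real.norm_eq_abs]
    have hmaj : IntegrableOn (fun y : ℝ => A * ((C1 + 2) *
        ((1 + y) ^ 4 * Real.exp (6.275 * y) * wp y))) (Set.Ioi 0) :=
      (KB.maj_int.const_mul (C1 + 2)).const_mul A
    have h1 : ‖∫ y in Set.Ioi (0 : ℝ), (KI N M n2 s2 B' y * wp y - KI N M n1 s1 B' y * wp y)‖ ≤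
        ∫ y in Set.Ioi (0 : ℝ), A * ((C1 + 2) *
          ((1 + y) ^ 4 * Real.exp (6.275 * y) * wp y)) := by
      apply norm_integral_le_of_norm_le hmaj
      rw [ae_restrict_iff' measurableSet_Ioi]
      refine Filter.Eventually.of_forall fun y hy => ?_
      have hy0 : (0 : ℝ) < y := hy
      have hw := wp_pos y
      rw [← sub_mul, norm_mul, Real.norm_eq_abs, Real.norm_eq_abs, abs_of_pos hw]
      have h2 : |KI N M n2 s2 B' y - KI N M n1 s1 B' y| ≤
          A * ((C1 + 2) * ((1 + y) ^ 4 * Real.exp (6.275 * y))) := by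
        have hp1 : (1 : ℝ) + y ≤ (1 + y) ^ 4 := by
          have : (1 : ℝ) ≤ 1 + y := by linarith
          calc (1 : ℝ) + y = (1 + y) ^ 1 := (pow_one _).symm
            _ ≤ (1 + y) ^ 4 := pow_le_pow_right₀ this (by norm_num)
        have hp0 : (0 : ℝ) ≤ (1 + y) ^ 4 := by positivity
        rcases le_total y (400 * Real.log t) with hy1 | hy1
        · have h3 := hnear t N M n1 s1 n2 s2 A Λ y B' hT1 hN1 hN2 hK1 hK2 hn hA hΛ1 hΛ2 hH'
            hZ0 hy0 hy1
          have he : Real.exp (6.27 * y) ≤ Real.exp (6.275 * y) := by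
            apply Real.exp_le_exp.2
            nlinarith
          calc |KI N M n2 s2 B' y - KI N M n1 s1 B' y|
              ≤ C1 * A * (1 + y) ^ 4 * Real.exp (6.27 * y) := h3
            _ ≤ C1 * A * (1 + y) ^ 4 * Real.exp (6.275 * y) :=
                mul_le_mul_of_nonneg_left he (by positivity)
            _ = A * (C1 * ((1 + y) ^ 4 * Real.exp (6.275 * y))) := by ring
            _ ≤ A * ((C1 + 2) * ((1 + y) ^ 4 * Real.exp (6.275 * y))) := by
                apply mul_le_mul_of_nonneg_left _ hA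
                apply mul_le_mul_of_nonneg_right _ (by positivity)
                linarith
        · have h3 := hfar t N M n1 s1 A y B' hT2 hN1 hN2 hK1 hdeg' hA hbd hy1
          have h4 := hfar t N M n2 s2 A y B' hT2 hN1 hN2 hK2 hdeg' hA hbd hy1
          calc |KI N M n2 s2 B' y - KI N M n1 s1 B' y|
              ≤ |KI N M n2 s2 B' y| + |KI N M n1 s1 B' y| := abs_sub _ _
            _ ≤ A * (1 + y) * Real.exp (6.275 * y) + A * (1 + y) * Real.exp (6.275 * y) :=
                add_le_add h4 h3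
            _ = A * (2 * ((1 + y) * Real.exp (6.275 * y))) := by ring
            _ ≤ A * ((C1 + 2) * ((1 + y) ^ 4 * Real.exp (6.275 * y))) := by
                apply mul_le_mul_of_nonneg_left _ hA
                apply mul_le_mul (by linarith) _ (by positivity) (by linarith)
                exact mul_le_mul_of_nonneg_right hp1 (Real.exp_pos _).le
      calc |KI N M n2 s2 B' y - KI N M n1 s1 B' y| * wp y
          ≤ A * ((C1 + 2) * ((1 + y) ^ 4 * Real.exp (6.275 * y))) * wp y :=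
            mul_le_mul_of_nonneg_right h2 hw.le
        _ = A * ((C1 + 2) * ((1 + y) ^ 4 * Real.exp (6.275 * y) * wp y)) := by ring
    rw [integral_const_mul, integral_const_mul, ← hI] at h1
    exact h1
  rw [abs_le] at hr1 hr2 hmain ⊢
  constructor <;> nlinarith [hr1.1, hr1.2, hr2.1, hr2.2, hmain.1, hmain.2]

end Pool.Agent.Helper83.SE
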