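import Pool.Agent.Helper83.SE.Defs
import Pool.Agent.Helper83.SD.Loc1
import Pool.Agent.Helper83.SD.Loc2
import Pool.Agent.Helper83.SD.Pars

/-!
Project SE, module Loc3: pointwise bounds for latitudes `|ψ| ≤ 1.25`.

Same proof as `SD.Loc2` with `π/4` replaced by `1.25` and `cos ψ ≥ cos 1.25 > 0.315`:
`∫_{-1.25}^{1.25} N_k ≤ 6.35 λ^k mu(p^2)`,
`N_k(ψ0) ≤ (1/2.5) ∫ N_k + ∫ |N_k'|`, `|N_k'| ≤ √λ N_k + N_{k+1}/√λ`; constant
`2.54 + 12.7 √λ ≤ 16 (t+1)`.  (Copy and adapt `SD/Loc2.lean`.)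
-/

set_option autoImplicit false

open MeasureTheory Real Pool.Agent.Helper83.SD
open scoped ContDiff

namespace Pool.Agent.Helper83.SE

namespace Loc3Aux

/-- one dimensional Sobolev inequality -/
theorem sob2 {g h : ℝ → ℝ} (hg : Continuous g) (hh : Continuous h)
    (hd : ∀ ψ, ∃ d : ℝ, HasDerivAt g d ψ ∧ |d| ≤ h ψ) {x : ℝ} (hx : |x| ≤ 1.25) :
    g x ≤ (1 / 2.5) * (∫ ψ in ((-1.25 : ℝ))..(1.25 : ℝ), g ψ) + ∫ ψ in ((-1.25 : ℝ))..(1.25 : ℝ), h ψ := by
  have hpi := Real.pi_pos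
  have hx' := abs_le.mp hx
  have hh0 : ∀ ψ, 0 ≤ h ψ := fun ψ => by
    obtain ⟨d, _, h2⟩ := hd ψ
    exact (abs_nonneg d).trans h2
  have hH : ∀ y, HasDerivAt (fun y => ∫ ψ in (0 : ℝ)..y, h ψ) (h y) y := fun y =>
    intervalIntegral.integral_hasDerivAt_right (hh.intervalIntegrable _ _)
      (hh.stronglyMeasurableAtFilter _ _) hh.continuousAt
  have mono1 : Monotone (fun y => (∫ ψ in (0 : ℝ)..y, h ψ) - g y) := by
    apply monotone_of_deriv_nonneg
    · intro y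
      obtain ⟨d, h1, _⟩ := hd y
      exact ((hH y).fun_sub h1).differentiableAt
    · intro y
      obtain ⟨d, h1, h2⟩ := hd y
      rw [((hH y).fun_sub h1).deriv]
      linarith [le_abs_self d]
  have mono2 : Monotone (fun y => (∫ ψ in (0 : ℝ)..y, h ψ) + g y) := by
    apply monotone_of_deriv_nonneg
    · intro y
      obtain ⟨d, h1, _⟩ := hd y
      exact ((hH y).fun_add h1).differentiableAt
    · intro y
      obtain ⟨d, h1, h2⟩ := hd y
      rw [((hH y).fun_add h1).deriv]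
      linarith [neg_abs_le d]
  have mono3 : Monotone (fun y => ∫ ψ in (0 : ℝ)..y, h ψ) := by
    apply monotone_of_deriv_nonneg
    · intro y
      exact (hH y).differentiableAt
    · intro y
      rw [(hH y).deriv]
      exact hh0 y
  set T := ∫ ψ in ((-1.25 : ℝ))..(1.25 : ℝ), h ψ with hT
  have hTeq : T = (∫ ψ in (0 : ℝ)..(1.25 : ℝ), h ψ) - ∫ ψ in (0 : ℝ)..((-1.25 : ℝ)), h ψ := by
    rw [hT, intervalIntegral.integral_interval_sub_left (hh.intervalIntegrable _ _)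
      (hh.intervalIntegrable _ _)]
  have hpt : ∀ y ∈ Set.Icc ((-1.25 : ℝ)) (1.25 : ℝ), g x - T ≤ g y := by
    intro y hy
    rcases le_total y x with h1 | h1
    · have a1 := mono1 h1
      have a2 := mono3 hx'.2
      have a3 := mono3 hy.1
      simp only at a1 a2 a3
      linarith
    · have a1 := mono2 h1
      have a2 := mono3 hx'.1
      have a3 := mono3 hy.2
      simp only at a1 a2 a3
      linarith
  have hint : (∫ _ in ((-1.25 : ℝ))..(1.25 : ℝ), (g x - T)) ≤ ∫ ψ in ((-1.25 : ℝ))..(1.25 : ℝ), g ψ :=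
    intervalIntegral.integral_mono_on (by linarith) intervalIntegrable_const
      (hg.intervalIntegrable _ _) hpt
  rw [intervalIntegral.integral_const, smul_eq_mul] at hint
  have h3 : g x - T ≤ (1 / 2.5) * ∫ ψ in ((-1.25 : ℝ))..(1.25 : ℝ), g ψ := by
    have h4 : (1.25 - (-1.25 : ℝ)) * (g x - T) ≤ ∫ ψ in ((-1.25 : ℝ))..(1.25 : ℝ), g ψ := hint
    norm_num at h4 ⊢
    linarith
  linarith

theorem cos_125 : (0.315 : ℝ) ≤ cos 1.25 := by
  have hpi := Real.pi_gt_d4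
  have hpi2 := Real.pi_lt_d4
  have h1 : cos (1.25 : ℝ) = sin (π / 2 - 1.25) := (Real.sin_pi_div_two_sub _).symm
  have h2 : sin (0.32075 : ℝ) ≤ sin (π / 2 - 1.25) := by
    apply Real.sin_le_sin_of_le_of_le_pi_div_two
    · linarith
    · linarith
    · linarith
  have h3 : sin (0.32075 : ℝ) = 2 * sin 0.160375 * cos 0.160375 := by
    rw [← Real.sin_two_mul]
    norm_num
  have h4 := (abs_le.mp (Real.sin_bound (x := (0.160375 : ℝ)) (by rw [abs_le]; constructor <;> norm_num))).1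
  have h5 := (abs_le.mp (Real.cos_bound (x := (0.160375 : ℝ)) (by rw [abs_le]; constructor <;> norm_num))).1
  rw [abs_of_pos (by norm_num : (0 : ℝ) < 0.160375)] at h4 h5
  have h6 : (0.15965 : ℝ) ≤ sin 0.160375 := by
    norm_num at h4 ⊢
    linarith
  have h7 : (0.9871 : ℝ) ≤ cos 0.160375 := by
    norm_num at h5 ⊢
    linarith
  rw [h1]
  refine le_trans ?_ h2
  rw [h3]
  nlinarith

theorem cos_ge2 {ψ : ℝ} (h : |ψ| ≤ 1.25) : 0.315 ≤ cos ψ := by
  rw [← Real.cos_abs ψ]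
  refine cos_125.trans ?_
  apply Real.cos_le_cos_of_nonneg_of_le_pi (abs_nonneg _) (by linarith [Real.pi_gt_three]) h

theorem int_small2 (j : ℕ) (p : Poly) :
    (∫ ψ in (-1.25 : ℝ)..1.25, Nk j p ψ) ≤
      6.35 * ((1 / 2) * ∫ ψ in (-(π / 2))..(π / 2), Nk j p ψ * cos ψ) := by
  have hpi := Real.pi_gt_three
  have hc := Nk_continuous j p
  have hcc : Continuous (fun ψ => Nk j p ψ * cos ψ) := hc.mul Real.continuous_cos
  have hc2 : Continuous (fun ψ => 3.175 * (Nk j p ψ * cos ψ)) := continuous_const.mul hcc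
  have h1 : (∫ ψ in (-1.25 : ℝ)..1.25, Nk j p ψ) ≤
      ∫ ψ in (-1.25 : ℝ)..1.25, 3.175 * (Nk j p ψ * cos ψ) := by
    apply intervalIntegral.integral_mono_on (by norm_num) (hc.intervalIntegrable _ _)
      (hc2.intervalIntegrable _ _)
    intro ψ hψ
    have h3 := cos_ge2 (abs_le.mpr ⟨by linarith [hψ.1], hψ.2⟩)
    have h4 := Nk_nonneg j p ψ
    have h5 : 1 ≤ 3.175 * cos ψ := by
      norm_num at h3 ⊢
      linarith
    nlinarith
  rw [intervalIntegral.integral_const_mul] at h1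
  have h6 : (∫ ψ in (-1.25 : ℝ)..1.25, Nk j p ψ * cos ψ) ≤
      ∫ ψ in (-(π / 2))..(π / 2), Nk j p ψ * cos ψ := by
    apply intervalIntegral.integral_mono_interval (by norm_num; linarith) (by norm_num)
      (by norm_num; linarith)
    · rw [Filter.EventuallyLE, ae_restrict_iff' measurableSet_Ioc]
      refine Filter.Eventually.of_forall fun ψ hψ => ?_
      exact mul_nonneg (Nk_nonneg j p ψ) (Real.cos_nonneg_of_mem_Icc ⟨hψ.1.le, hψ.2⟩)
    · exact hcc.intervalIntegrable _ _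
  norm_num at h1 ⊢
  linarith

theorem near_nhds2 {ψ : ℝ} (hψ : |ψ| ≤ 1.25) : ∀ᶠ s in nhds ψ, |s| ≤ π / 2 := by
  have h0 : (1.25 : ℝ) < π / 2 := by
    have := Real.pi_gt_three
    norm_num
    linarith
  have h1 : |ψ| < π / 2 := lt_of_le_of_lt hψ h0
  have h2 : ∀ᶠ s in nhds ψ, |s| < π / 2 := continuous_abs.continuousAt.eventually_lt_const h1
  exact h2.mono fun s hs => hs.le

theorem main_bound2 {t : ℕ} (ht : 1 ≤ t) {p : Poly} {k : ℕ} {A : ℝ} (hA : 0 ≤ A)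
    (h1 : (1 / 2) * (∫ ψ in (-(π / 2))..(π / 2), Nk k p ψ * cos ψ) ≤ A)
    (h2 : (1 / 2) * (∫ ψ in (-(π / 2))..(π / 2), Nk (k + 1) p ψ * cos ψ) ≤ lam t * A)
    {ψ : ℝ} (hψ : |ψ| ≤ 1.25) : Nk k p ψ ≤ 16 * ((t : ℝ) + 1) * A := by
  have ht' : (1 : ℝ) ≤ t := by exact_mod_cast ht
  have hlam : 0 < lam t := by unfold lam; positivity
  set r := √(lam t) with hr
  have hr0 : 0 < r := Real.sqrt_pos.mpr hlam
  have hrr : r * r = lam t := Real.mul_self_sqrt hlam.le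
  have hrt : r ≤ (t : ℝ) + 1 / 2 := by have := two_sqrt_lam_le t; linarith
  have hc := Nk_continuous k p
  have hc1 := Nk_continuous (k + 1) p
  have hS := sob2 (g := Nk k p) (h := fun ψ => r * Nk k p ψ + (1 / r) * Nk (k + 1) p ψ) hc
    ((continuous_const.mul hc).add (continuous_const.mul hc1)) (by
      intro y
      obtain ⟨d, hd1, hd2⟩ := Nk_deriv k p y
      refine ⟨d, hd1, hd2.trans ?_⟩
      have ha := Nk_nonneg k p y
      have hb := Nk_nonneg (k + 1) p y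
      have : √(Nk k p y * Nk (k + 1) p y) ≤ (r * Nk k p y + (1 / r) * Nk (k + 1) p y) / 2 := by
        apply Real.sqrt_le_iff.mpr
        constructor
        · positivity
        · have h5 : (r * Nk k p y) * ((1 / r) * Nk (k + 1) p y) = Nk k p y * Nk (k + 1) p y := by
            field_simp
          nlinarith [sq_nonneg (r * Nk k p y - (1 / r) * Nk (k + 1) p y)]
      linarith) hψ
  have hc2 : Continuous (fun ψ => r * Nk k p ψ) := continuous_const.mul hc
  have hc3 : Continuous (fun ψ => (1 / r) * Nk (k + 1) p ψ) := continuous_const.mul hc1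
  rw [intervalIntegral.integral_add (hc2.intervalIntegrable _ _)
    (hc3.intervalIntegrable _ _), intervalIntegral.integral_const_mul,
    intervalIntegral.integral_const_mul] at hS
  have i1 := int_small2 k p
  have i2 := int_small2 (k + 1) p
  have j1 : (∫ ψ in (-1.25 : ℝ)..1.25, Nk k p ψ) ≤ 6.35 * A :=
    i1.trans (mul_le_mul_of_nonneg_left h1 (by norm_num))
  have j2 : (1 / r) * (∫ ψ in (-1.25 : ℝ)..1.25, Nk (k + 1) p ψ) ≤ 6.35 * r * A := by
    have h6 : (∫ ψ in (-1.25 : ℝ)..1.25, Nk (k + 1) p ψ) ≤ 6.35 * (lam t * A) :=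
      i2.trans (mul_le_mul_of_nonneg_left h2 (by norm_num))
    rw [one_div, inv_mul_le_iff₀ hr0]
    refine h6.trans (le_of_eq ?_)
    rw [← hrr]; ring
  have k1 : (1 / 2.5) * (∫ ψ in (-1.25 : ℝ)..1.25, Nk k p ψ) ≤ 2.54 * A := by
    have h8 := mul_le_mul_of_nonneg_left j1 (by norm_num : (0 : ℝ) ≤ 1 / 2.5)
    refine h8.trans (le_of_eq ?_)
    norm_num
    ring
  have k2 : r * (∫ ψ in (-1.25 : ℝ)..1.25, Nk k p ψ) ≤ 6.35 * r * A := by
    have := mul_le_mul_of_nonneg_left j1 hr0.le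
    linarith
  have k3 : r * A ≤ ((t : ℝ) + 1 / 2) * A := mul_le_mul_of_nonneg_right hrt hA
  have k4 : 0 ≤ (t : ℝ) * A := by positivity
  have k5 : Nk k p ψ ≤ 2.54 * A + (6.35 * r * A + 6.35 * r * A) := by linarith
  norm_num at k5
  nlinarith

end Loc3Aux

open Pool.Agent.Helper83.SD.Loc2Aux Loc3Aux

variable {t : ℕ} {p : Poly} {u v : ℤ → Polynomial ℝ}

theorem Nk_pt2 (ht : 1 ≤ t) (hp : p.totalDegree ≤ t) (k : ℕ) {ψ : ℝ} (hψ : |ψ| ≤ 1.25) :
    Nk k p ψ ≤ 16 * ((t : ℝ) + 1) * (lam t) ^ k * mu (p ^ 2) := by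
  have h0 : 0 ≤ mu (p ^ 2) := mu_nonneg fun x _ => by rw [ev_pow]; positivity
  have h1 := Nk_int t k p hp
  have h2 := Nk_int t (k + 1) p hp
  have := main_bound2 (A := (lam t) ^ k * mu (p ^ 2)) ht
    (mul_nonneg (pow_nonneg (lam_nonneg t) k) h0) h1 (h2.trans (le_of_eq (by ring))) hψ
  linarith

theorem Nk_pt2' (ht : 1 ≤ t) (hp : p.totalDegree ≤ t) (k : ℕ) (hk : 1 ≤ k) {ψ : ℝ}
    (hψ : |ψ| ≤ 1.25) :
    Nk k p ψ ≤ 16 * ((t : ℝ) + 1) * (lam t) ^ (k - 1) * en p := by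
  have h0 : 0 ≤ en p := en_nonneg p
  have h1 := Nk_int' t k hk p hp
  have h2 := Nk_int' t (k + 1) (by omega) p hp
  have h3 : (lam t) ^ (k + 1 - 1) * en p = lam t * ((lam t) ^ (k - 1) * en p) := by
    obtain ⟨m, rfl⟩ : ∃ m, k = m + 1 := ⟨k - 1, by omega⟩
    simp only [Nat.add_sub_cancel]
    ring
  have := main_bound2 (A := (lam t) ^ (k - 1) * en p) ht
    (mul_nonneg (pow_nonneg (lam_nonneg t) _) h0) h1 (h2.trans (le_of_eq h3)) hψ
  linarith

theorem loc_A2 (ht : 1 ≤ t) (hp : p.totalDegree ≤ t) (h : Modes t p u v) :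
    NearH (modeA t u v) (16 * ((t : ℝ) + 1) * mu (p ^ 2)) (2 * √(lam t)) := by
  intro k _ ψ hψ
  have h0 : 0 ≤ mu (p ^ 2) := mu_nonneg fun x _ => by rw [ev_pow]; positivity
  have hmu : 0 ≤ 16 * ((t : ℝ) + 1) * mu (p ^ 2) := by positivity
  have hev : (fun s => (modeA t u v).eval (sin s)) =ᶠ[nhds ψ]
      fun s => (1 / (2 * π)) * ∫ φ in (0 : ℝ)..(2 * π), (ev p (pt s φ)) ^ 2 := by
    filter_upwards [near_nhds2 hψ] with s hs
    have h1 := avg_sq h (z := sin s) (Real.sin_sq_le_one s)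
    rw [← h1]
    simp only [sp_sin hs]
  rw [hev.iteratedDeriv_eq, iteratedDeriv_const_mul_field]
  have hG : ContDiff ℝ ∞ (fun x : ℝ × ℝ => (ev p (pt x.1 x.2)) ^ 2) := (P_smooth p).pow 2
  have h2 : iteratedDeriv k (fun s => ∫ φ in (0 : ℝ)..(2 * π), (ev p (pt s φ)) ^ 2) ψ =
      ∫ φ in (0 : ℝ)..(2 * π), iteratedDeriv k (fun s => (ev p (pt s φ)) ^ 2) ψ :=
    congrFun (iter_int hG 0 (2 * π) k) ψ
  rw [h2]
  have h3 : ∀ φ : ℝ, iteratedDeriv k (fun s => (ev p (pt s φ)) ^ 2) ψ =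
      ∑ i ∈ Finset.range (k + 1), (k.choose i : ℝ) * (iteratedDeriv i (fun s => ev p (pt s φ)) ψ *
        iteratedDeriv (k - i) (fun s => ev p (pt s φ)) ψ) := fun φ => sq_iter (P_smooth1 p φ) k ψ
  simp only [h3]
  have hcont : ∀ i : ℕ, Continuous (fun φ => (k.choose i : ℝ) *
      (iteratedDeriv i (fun s => ev p (pt s φ)) ψ *
        iteratedDeriv (k - i) (fun s => ev p (pt s φ)) ψ)) := fun i =>
    continuous_const.mul ((cont_it p i ψ).mul (cont_it p (k - i) ψ))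
  rw [intervalIntegral.integral_finsetSum (fun i _ => (hcont i).intervalIntegrable _ _),
    Finset.mul_sum]
  refine (Finset.abs_sum_le_sum_abs _ _).trans ?_
  set r := √(lam t) with hr
  have hr0 : 0 ≤ r := Real.sqrt_nonneg _
  have hrr : r ^ 2 = lam t := Real.sq_sqrt (lam_nonneg t)
  have hterm : ∀ i ∈ Finset.range (k + 1), |1 / (2 * π) * ∫ φ in (0 : ℝ)..(2 * π),
      (k.choose i : ℝ) * (iteratedDeriv i (fun s => ev p (pt s φ)) ψ *
        iteratedDeriv (k - i) (fun s => ev p (pt s φ)) ψ)| ≤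
      (k.choose i : ℝ) * (16 * ((t : ℝ) + 1) * mu (p ^ 2) * r ^ k) := by
    intro i hi
    have hik : i ≤ k := Nat.lt_succ_iff.mp (Finset.mem_range.mp hi)
    rw [intervalIntegral.integral_const_mul, mul_left_comm, abs_mul, Nat.abs_cast]
    apply mul_le_mul_of_nonneg_left _ (Nat.cast_nonneg _)
    refine (cs_Nk p i (k - i) ψ).trans ?_
    apply Real.sqrt_le_iff.mpr
    constructor
    · positivity
    · have a1 := Nk_pt2 ht hp i hψ
      have a2 := Nk_pt2 ht hp (k - i) hψ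
      have b1 := Nk_nonneg i p ψ
      have b2 := Nk_nonneg (k - i) p ψ
      refine (mul_le_mul a1 a2 b2 (b1.trans a1)).trans (le_of_eq ?_)
      have h7 : (lam t) ^ i * (lam t) ^ (k - i) = (r ^ k) ^ 2 := by
        rw [← pow_add, Nat.add_sub_cancel' hik, ← hrr, ← pow_mul, ← pow_mul, mul_comm 2 k]
      calc 16 * ((t : ℝ) + 1) * lam t ^ i * mu (p ^ 2) *
            (16 * ((t : ℝ) + 1) * lam t ^ (k - i) * mu (p ^ 2))
          = (16 * ((t : ℝ) + 1) * mu (p ^ 2)) ^ 2 * ((lam t) ^ i * (lam t) ^ (k - i)) := by ring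
        _ = _ := by rw [h7]; ring
  refine (Finset.sum_le_sum hterm).trans (le_of_eq ?_)
  rw [← Finset.sum_mul]
  have h8 : (∑ i ∈ Finset.range (k + 1), (k.choose i : ℝ)) = 2 ^ k := by
    exact_mod_cast Nat.sum_range_choose k
  rw [h8, mul_pow]
  ring

theorem loc_D2 (ht : 1 ≤ t) (hp : p.totalDegree ≤ t) (h : Modes t p u v) (k : ℕ) (hk : 1 ≤ k)
    {ψ : ℝ} (hψ : |ψ| ≤ 1.25) :
    |iteratedDeriv k (fun s => (u 0).eval (sin s)) ψ| ≤
      √(16 * ((t : ℝ) + 1)) * √(en p) * (√(lam t)) ^ (k - 1) := by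
  have h0 : 0 ≤ en p := en_nonneg p
  have hev : (fun s => (u 0).eval (sin s)) =ᶠ[nhds ψ]
      fun s => (1 / (2 * π)) * ∫ φ in (0 : ℝ)..(2 * π), ev p (pt s φ) := by
    filter_upwards [near_nhds2 hψ] with s hs
    have h1 := avg_lin h (z := sin s) (Real.sin_sq_le_one s)
    rw [← h1]
    simp only [sp_sin hs]
  rw [hev.iteratedDeriv_eq, iteratedDeriv_const_mul_field]
  have h2 := congrFun (iter_int (P_smooth p) 0 (2 * π) k) ψ
  simp only at h2
  rw [h2]
  have h3 := cs (cont_it p k ψ) (continuous_const (y := (1 : ℝ)))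
  have hone : (1 / (2 * π)) * ∫ _ in (0 : ℝ)..(2 * π), (1 : ℝ) ^ 2 = 1 := by
    rw [intervalIntegral.integral_const]
    have := Real.pi_pos
    simp
    field_simp
  rw [hone, mul_one] at h3
  simp only [mul_one] at h3
  refine h3.trans ?_
  have h4 : (1 / (2 * π)) * (∫ φ in (0 : ℝ)..(2 * π),
      iteratedDeriv k (fun s => ev p (pt s φ)) ψ ^ 2) = Nk k p ψ := rfl
  rw [h4]
  have h5 := Nk_pt2' ht hp k hk hψ
  have h6 : √(16 * ((t : ℝ) + 1)) * √(en p) * (√(lam t)) ^ (k - 1) =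
      √(16 * ((t : ℝ) + 1) * (lam t) ^ (k - 1) * en p) := by
    have h7 : (√(16 * ((t : ℝ) + 1)) * √(en p) * (√(lam t)) ^ (k - 1)) ^ 2 =
        16 * ((t : ℝ) + 1) * (lam t) ^ (k - 1) * en p := by
      rw [mul_pow, mul_pow, Real.sq_sqrt (by positivity), Real.sq_sqrt h0, ← pow_mul,
        mul_comm (k - 1) 2, pow_mul, Real.sq_sqrt (lam_nonneg t)]
      ring
    rw [← h7, Real.sqrt_sq (by positivity)]
  rw [h6]
  exact Real.sqrt_le_sqrt h5

end Pool.Agent.Helper83.SE
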