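import Pool.Agent.Helper83.SE.Zone

/-!
Project SE, module Zonal2: the exact error formula of the zonal mean.

`pole_zone` and `zone_sum` (zone 2, `M1 c`, `7 J1 + 5/2`, slope 5, `k = J2`, end mass `M2 c`, end
size `7 J1 + 5 J2 + 5/2`) for `B` and `refl B`; `zone_sum` for the two parts of the plateau
(`M2 c -> M3 c -> N - M2 c` by the count); `os_refl` turns `-OS N (N - M2) n 0 B` into
`OS N M2 n 0 (refl B)`.  Checked with exact rational arithmetic.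
-/

set_option autoImplicit false

open MeasureTheory Real Pool.Agent.Helper83.SD

namespace Pool.Agent.Helper83.SE

theorem z2_refl_refl (B : Polynomial ℝ) : refl (refl B) = B := by
  apply Polynomial.funext
  intro x
  rw [refl_eval, refl_eval, neg_neg]

theorem z2_int (B : Polynomial ℝ) (a b : ℝ) :
    IntervalIntegrable (fun z => B.eval z) volume a b :=
  (Polynomial.continuous B).intervalIntegrable a b

theorem z2_add (B : Polynomial ℝ) (a b d : ℝ) :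
    (∫ z in a..b, B.eval z) + (∫ z in b..d, B.eval z) = ∫ z in a..d, B.eval z :=
  intervalIntegral.integral_add_adjacent_intervals (z2_int B a b) (z2_int B b d)

theorem z2_refl (B : Polynomial ℝ) (a b : ℝ) :
    (∫ z in a..b, (refl B).eval z) = ∫ z in (-b)..(-a), B.eval z := by
  have h : (fun z => (refl B).eval z) = fun z => B.eval (-z) := by
    funext z
    exact refl_eval B z
  rw [h]
  exact intervalIntegral.integral_comp_neg (fun z => B.eval z)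

theorem z2_pole {N : ℝ} (hN : N ≠ 0) (c : Cf) (B : Polynomial ℝ) :
    B.eval 1 + ∑ j ∈ Finset.Icc 1 c.J1, 7 * (j : ℝ) * B.eval (1 - (7 / N) * ((j : ℝ) ^ 2 + 5 / 42)) =
      (N / 2) * (∫ z in (1 - 2 * M1 c / N)..1, B.eval z)
        + PF N B - OS N (M1 c) (7 * ((c.J1 : ℝ) + 1 / 2)) 7 B :=
  pole_zone hN c.J1 B

theorem z2_zone2 {N : ℝ} (hN : N ≠ 0) (c : Cf) (B : Polynomial ℝ) :
    ∑ i ∈ Finset.range c.J2, (7 * (c.J1 : ℝ) + 5 * ((i : ℝ) + 1)) *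
        B.eval (hgt N (M1 c) (7 * (c.J1 : ℝ) + 5 / 2) 5 ((i : ℝ) + 1 / 2)) =
      (N / 2) * (∫ z in (1 - 2 * M2 c / N)..(1 - 2 * M1 c / N), B.eval z)
        + OS N (M1 c) (7 * (c.J1 : ℝ) + 5 / 2) 5 B
        - OS N (M2 c) (7 * (c.J1 : ℝ) + 5 * (c.J2 : ℝ) + 5 / 2) 5 B := by
  have h := zone_sum hN (M1 c) (7 * (c.J1 : ℝ) + 5 / 2) 5 c.J2 B
  have e1 : M1 c + (7 * (c.J1 : ℝ) + 5 / 2) * (c.J2 : ℝ) + 5 * (c.J2 : ℝ) ^ 2 / 2 = M2 c := by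
    unfold M2
    ring
  have e2 : 7 * (c.J1 : ℝ) + 5 / 2 + 5 * (c.J2 : ℝ) = 7 * (c.J1 : ℝ) + 5 * (c.J2 : ℝ) + 5 / 2 := by
    ring
  rw [e1, e2] at h
  rw [← h]
  refine Finset.sum_congr rfl fun i _ => ?_
  congr 1
  ring

theorem zonal2 (c : Cf) (hN : 0 < c.N) (hl : c.l ≤ c.R)
    (hc : c.N = 2 + 7 * c.J1 * (c.J1 + 1) + 14 * c.J1 * c.J2 + 5 * c.J2 * (c.J2 + 1)
      + c.R * c.n + c.l) (B : Polynomial ℝ) :
    (c.N : ℝ) * SY c (fun z => B.eval z) - ((c.N : ℝ) / 2) * (∫ z in (-1 : ℝ)..1, B.eval z) =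
      PF (c.N : ℝ) B + PF (c.N : ℝ) (refl B)
      + KF (c.N : ℝ) (M1 c) (7 * ((c.J1 : ℝ) + 1 / 2)) 7 (7 * (c.J1 : ℝ) + 5 / 2) 5 B
      + KF (c.N : ℝ) (M1 c) (7 * ((c.J1 : ℝ) + 1 / 2)) 7 (7 * (c.J1 : ℝ) + 5 / 2) 5 (refl B)
      + KF (c.N : ℝ) (M2 c) (7 * (c.J1 : ℝ) + 5 * (c.J2 : ℝ) + 5 / 2) 5 ((c.n : ℝ) + 1) 0 B
      + KF (c.N : ℝ) (M2 c) (7 * (c.J1 : ℝ) + 5 * (c.J2 : ℝ) + 5 / 2) 5 (c.n : ℝ) 0 (refl B)
      + KF (c.N : ℝ) (M3 c) ((c.n : ℝ) + 1) 0 (c.n : ℝ) 0 B := by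
  have hN0 : (c.N : ℝ) ≠ 0 := by exact_mod_cast hN.ne'
  -- the count
  have hcr : (c.N : ℝ) = 2 * M2 c + (c.R : ℝ) * (c.n : ℝ) + (c.l : ℝ) := by
    rw [hc]
    unfold M2 M1
    push_cast
    ring
  have hM3 : M3 c + (c.n : ℝ) * ((c.R - c.l : ℕ) : ℝ) = (c.N : ℝ) - M2 c := by
    rw [Nat.cast_sub hl, hcr]
    unfold M3
    ring
  -- the parts
  have p1 := z2_pole hN0 c B
  have p2 := z2_pole hN0 c (refl B)
  have q1 := z2_zone2 hN0 c B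
  have q2 := z2_zone2 hN0 c (refl B)
  have r1 : RC c (fun _ z => B.eval z) =
      ((c.N : ℝ) / 2) * (∫ z in (1 - 2 * M3 c / (c.N : ℝ))..(1 - 2 * M2 c / (c.N : ℝ)), B.eval z)
        + OS (c.N : ℝ) (M2 c) ((c.n : ℝ) + 1) 0 B - OS (c.N : ℝ) (M3 c) ((c.n : ℝ) + 1) 0 B := by
    have h := zone_sum hN0 (M2 c) ((c.n : ℝ) + 1) 0 c.l B
    have e1 : M2 c + ((c.n : ℝ) + 1) * (c.l : ℝ) + 0 * (c.l : ℝ) ^ 2 / 2 = M3 c := by
      unfold M3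
      ring
    have e2 : (c.n : ℝ) + 1 + 0 * (c.l : ℝ) = (c.n : ℝ) + 1 := by ring
    rw [e1, e2] at h
    rw [← h]
    unfold RC
    refine Finset.sum_congr rfl fun i _ => ?_
    unfold zC
    congr 1
    ring
  have r2 : RD c (fun _ z => B.eval z) =
      ((c.N : ℝ) / 2) * (∫ z in (1 - 2 * ((c.N : ℝ) - M2 c) / (c.N : ℝ))..(1 - 2 * M3 c / (c.N : ℝ)),
          B.eval z)
        + OS (c.N : ℝ) (M3 c) (c.n : ℝ) 0 B + OS (c.N : ℝ) (M2 c) (c.n : ℝ) 0 (refl B) := by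
    have h := zone_sum hN0 (M3 c) (c.n : ℝ) 0 (c.R - c.l) B
    have e1 : M3 c + (c.n : ℝ) * ((c.R - c.l : ℕ) : ℝ) + 0 * ((c.R - c.l : ℕ) : ℝ) ^ 2 / 2 =
        (c.N : ℝ) - M2 c := by
      rw [← hM3]
      ring
    have e2 : (c.n : ℝ) + 0 * ((c.R - c.l : ℕ) : ℝ) = (c.n : ℝ) := by ring
    have e3 : OS (c.N : ℝ) ((c.N : ℝ) - M2 c) (c.n : ℝ) 0 B =
        -OS (c.N : ℝ) (M2 c) (c.n : ℝ) 0 (refl B) := by
      have h3 := os_refl hN0 (M2 c) (c.n : ℝ) (refl B)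
      rw [z2_refl_refl] at h3
      exact h3
    rw [e1, e2, e3, sub_neg_eq_add] at h
    rw [← h]
    unfold RD
    refine Finset.sum_congr rfl fun i _ => ?_
    unfold zD
    congr 1
    ring
  have ra : RA c (Finset.Icc 1 c.J1) (fun _ z => B.eval z) =
      (∑ j ∈ Finset.Icc 1 c.J1, 7 * (j : ℝ) *
        B.eval (1 - (7 / (c.N : ℝ)) * ((j : ℝ) ^ 2 + 5 / 42))) +
      ∑ j ∈ Finset.Icc 1 c.J1, 7 * (j : ℝ) *
        (refl B).eval (1 - (7 / (c.N : ℝ)) * ((j : ℝ) ^ 2 + 5 / 42)) := by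
    unfold RA
    rw [← Finset.sum_add_distrib]
    refine Finset.sum_congr rfl fun j _ => ?_
    rw [refl_eval]
    unfold zA
    ring
  have rb : RB c (fun _ z => B.eval z) =
      (∑ i ∈ Finset.range c.J2, (7 * (c.J1 : ℝ) + 5 * ((i : ℝ) + 1)) *
        B.eval (hgt (c.N : ℝ) (M1 c) (7 * (c.J1 : ℝ) + 5 / 2) 5 ((i : ℝ) + 1 / 2))) +
      ∑ i ∈ Finset.range c.J2, (7 * (c.J1 : ℝ) + 5 * ((i : ℝ) + 1)) *
        (refl B).eval (hgt (c.N : ℝ) (M1 c) (7 * (c.J1 : ℝ) + 5 / 2) 5 ((i : ℝ) + 1 / 2)) := by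
    unfold RB
    rw [← Finset.sum_add_distrib]
    refine Finset.sum_congr rfl fun j _ => ?_
    rw [refl_eval]
    unfold zB
    ring
  have s1 : (c.N : ℝ) * SY c (fun z => B.eval z) =
      B.eval 1 + (refl B).eval 1 + RS c (fun _ z => B.eval z) := by
    unfold SY
    rw [refl_eval]
    field_simp
  -- the integrals
  have i1 := z2_add B (1 - 2 * M2 c / (c.N : ℝ)) (1 - 2 * M1 c / (c.N : ℝ)) 1
  have i2 := z2_add B (1 - 2 * M3 c / (c.N : ℝ)) (1 - 2 * M2 c / (c.N : ℝ)) 1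
  have i3 := z2_add B (1 - 2 * ((c.N : ℝ) - M2 c) / (c.N : ℝ)) (1 - 2 * M3 c / (c.N : ℝ)) 1
  have i4 := z2_add (refl B) (1 - 2 * M2 c / (c.N : ℝ)) (1 - 2 * M1 c / (c.N : ℝ)) 1
  have i5 := z2_refl B (1 - 2 * M2 c / (c.N : ℝ)) 1
  have e6 : -(1 - 2 * M2 c / (c.N : ℝ)) = 1 - 2 * ((c.N : ℝ) - M2 c) / (c.N : ℝ) := by
    field_simp
    ring
  rw [e6] at i5
  have i6 := z2_add B (-1) (1 - 2 * ((c.N : ℝ) - M2 c) / (c.N : ℝ)) 1
  have hRS : RS c (fun _ z => B.eval z) = RA c (Finset.Icc 1 c.J1) (fun _ z => B.eval z) +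
      RB c (fun _ z => B.eval z) + RC c (fun _ z => B.eval z) + RD c (fun _ z => B.eval z) := rfl
  rw [s1, hRS, ra, rb, r1, r2, q1, q2]
  unfold KF
  rw [← i6]
  linear_combination p1 + p2 + ((c.N : ℝ) / 2) * (i1 + i2 + i3 + i4 + i5)

end Pool.Agent.Helper83.SE
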