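import Pool.Agent.Helper83.SE.Split
import Pool.Agent.Helper83.SE.Zonal2
import Pool.Agent.Helper83.SE.KB
import Pool.Agent.Helper83.SE.Loc3
import Pool.Agent.Helper83.SE.CfgK
import Pool.Agent.Helper83.SD.Bern
import Pool.Agent.Helper83.SD.Sup
import Pool.Agent.Helper83.SD.Pars

/-!
Project SE, module ZA2: lower bound of the zonal mean of the mean square.

`zonal2` with `B = modeA t u v`, `(1/2) ∫ B = mu(p^2)`.  The five `KF` terms: `kink` with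
`A = 16 (t+1) mu(p^2)`, `Λ = 2√(lam t)` (`loc_A2`, `nearH_refl`, `cfg_kok`, `modeA_sup` for the crude
bound); the pole part is `split`.  Divide by `N ≥ 1.5 t^2`.  (`Λ ≥ 1`, `Λ ≤ 2t+1`:
`SD.two_sqrt_lam_le`.)
-/

set_option autoImplicit false

open MeasureTheory Real Pool.Agent.Helper83.SD

namespace Pool.Agent.Helper83.SE

theorem zonal_A2 : ∃ C T0 : ℝ, 0 < C ∧ ∀ (t : ℕ) (c : Cf) (p : Poly) (u v : ℤ → Polynomial ℝ),
    T0 ≤ (t : ℝ) → Good t c → p.totalDegree ≤ t → Modes t p u v →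
    (0.62 - C / (t : ℝ)) * mu (p ^ 2) ≤ SY c (fun z => (modeA t u v).eval z) := by
  obtain ⟨C1, T1, hC1, hS⟩ := split
  obtain ⟨C2, T2, hC2, hK⟩ := kink
  obtain ⟨T3, hcfg⟩ := cfg_kok
  refine ⟨C1 + 160 * C2, max (max T1 T2) (max T3 1000), by positivity,
    fun t c p u v ht hG hp hm => ?_⟩
  have h1 : T1 ≤ (t : ℝ) := ((le_max_left _ _).trans (le_max_left _ _)).trans ht
  have h2 : T2 ≤ (t : ℝ) := ((le_max_right _ _).trans (le_max_left _ _)).trans ht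
  have h3 : T3 ≤ (t : ℝ) := ((le_max_left _ _).trans (le_max_right _ _)).trans ht
  have h4 : (1000 : ℝ) ≤ (t : ℝ) := ((le_max_right _ _).trans (le_max_right _ _)).trans ht
  have h1000 : 1000 ≤ t := by exact_mod_cast h4
  have ht1 : 1 ≤ t := by omega
  have htp : (0 : ℝ) < t := by linarith
  have hmu : 0 ≤ mu (p ^ 2) := mu_nonneg (fun x _ => by rw [ev_pow]; positivity)
  have hNlo := hG.lo
  have hNhi := hG.hi
  have hNp : (0 : ℝ) < (c.N : ℝ) := by nlinarith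
  have hN0 : 0 < c.N := by exact_mod_cast hNp
  obtain ⟨k1, k2, k3, k4, k5, k6, k7⟩ := hcfg t c h3 hG
  have hsplit := hS t c p u v h1 hG hp hm
  have hzon := zonal2 c hN0 hG.lR hG.cnt (modeA t u v)
  have hmusq : mu (p ^ 2) = (1 / 2) * ∫ z in (-1 : ℝ)..1, (modeA t u v).eval z := mu_sq hm
  have hNear := loc_A2 ht1 hp hm
  have hNear' := nearH_refl hNear
  have hbd : ∀ z : ℝ, z ^ 2 ≤ 1 → 0 ≤ (modeA t u v).eval z ∧
      (modeA t u v).eval z ≤ ((t : ℝ) + 1) ^ 2 * mu (p ^ 2) := fun z hz => modeA_sup hp hm hz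
  have hdeg : (modeA t u v).natDegree ≤ 2 * t := modeA_natDegree hm
  have hdeg' : (refl (modeA t u v)).natDegree ≤ 2 * t := (refl_natDegree _).trans hdeg
  generalize modeA t u v = B at hsplit hzon hmusq hNear hNear' hbd hdeg hdeg' ⊢
  generalize mu (p ^ 2) = m at hsplit hmusq hNear hNear' hbd hmu ⊢
  have hbd' : ∀ z : ℝ, z ^ 2 ≤ 1 → 0 ≤ (refl B).eval z ∧
      (refl B).eval z ≤ ((t : ℝ) + 1) ^ 2 * m := by
    intro z hz
    rw [refl_eval]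
    exact hbd (-z) (by simpa using hz)
  have hslt : (t : ℝ) ≤ √(lam t) := by
    apply Real.le_sqrt_of_sq_le
    unfold lam; nlinarith
  have hslu := two_sqrt_lam_le t
  have hA0 : 0 ≤ 16 * ((t : ℝ) + 1) * m := by positivity
  have hL1 : 1 ≤ 2 * √(lam t) := by linarith
  have e3 : ((t : ℝ) + 1) ^ 2 * m ≤ 16 * ((t : ℝ) + 1) * m * (t : ℝ) ^ 3 := by
    have e4 : (t : ℝ) + 1 ≤ 16 * (t : ℝ) ^ 3 := by
      have q1 : (1 : ℝ) ≤ (t : ℝ) ^ 2 := by nlinarith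
      have q2 : (t : ℝ) ≤ (t : ℝ) ^ 3 := by
        calc (t : ℝ) = t * 1 := by ring
          _ ≤ t * (t : ℝ) ^ 2 := by gcongr
          _ = (t : ℝ) ^ 3 := by ring
      linarith
    calc ((t : ℝ) + 1) ^ 2 * m = (((t : ℝ) + 1) * m) * ((t : ℝ) + 1) := by ring
      _ ≤ (((t : ℝ) + 1) * m) * (16 * (t : ℝ) ^ 3) := by gcongr
      _ = 16 * ((t : ℝ) + 1) * m * (t : ℝ) ^ 3 := by ring
  have crude : ∀ (Q : Polynomial ℝ), (∀ z : ℝ, z ^ 2 ≤ 1 → 0 ≤ Q.eval z ∧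
      Q.eval z ≤ ((t : ℝ) + 1) ^ 2 * m) → ∀ w : ℝ, |w| ≤ 0.93 → ∀ z : ℝ, z ^ 2 ≤ 1 →
      |Q.eval z - Q.eval w| ≤ 16 * ((t : ℝ) + 1) * m * (t : ℝ) ^ 3 := by
    intro Q hQ w hw z hz
    have hw2 : w ^ 2 ≤ 1 := by
      rw [← sq_abs]
      have := abs_nonneg w
      nlinarith
    obtain ⟨a1, a2⟩ := hQ z hz
    obtain ⟨b1, b2⟩ := hQ w hw2
    rw [abs_le]
    constructor <;> linarith
  have main : ∀ (M n1 s1 n2 s2 : ℝ) (Q : Polynomial ℝ), KOK t (c.N : ℝ) M n1 s1 →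
      KOK t (c.N : ℝ) M n2 s2 → |n1 - n2| ≤ 10 → Q.natDegree ≤ 2 * t →
      NearH Q (16 * ((t : ℝ) + 1) * m) (2 * √(lam t)) →
      (∀ z : ℝ, z ^ 2 ≤ 1 → 0 ≤ Q.eval z ∧ Q.eval z ≤ ((t : ℝ) + 1) ^ 2 * m) →
      -(C2 * (16 * ((t : ℝ) + 1) * m)) ≤ KF (c.N : ℝ) M n1 s1 n2 s2 Q := by
    intro M n1 s1 n2 s2 Q a b hn hd hQ hb
    have := hK t (c.N : ℝ) M n1 s1 n2 s2 (16 * ((t : ℝ) + 1) * m) (2 * √(lam t)) Q h2 hNlo hNhi
      a b hn hd hA0 hL1 hslu hQ (crude Q hb _ a.Z)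
    exact (abs_le.mp this).1
  have hn1 : (7 * (c.J1 : ℝ) + 5 * (c.J2 : ℝ)) ≤ (c.n : ℝ) := by exact_mod_cast hG.n1
  have hn2 : (c.n : ℝ) ≤ 7 * (c.J1 : ℝ) + 5 * (c.J2 : ℝ) + 7 := by exact_mod_cast hG.n2
  have m1 := main (M1 c) (7 * ((c.J1 : ℝ) + 1 / 2)) 7 (7 * (c.J1 : ℝ) + 5 / 2) 5 B k1 k2
    (by rw [abs_le]; constructor <;> linarith) hdeg hNear hbd
  have m2 := main (M1 c) (7 * ((c.J1 : ℝ) + 1 / 2)) 7 (7 * (c.J1 : ℝ) + 5 / 2) 5 (refl B) k1 k2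
    (by rw [abs_le]; constructor <;> linarith) hdeg' hNear' hbd'
  have m3 := main (M2 c) (7 * (c.J1 : ℝ) + 5 * (c.J2 : ℝ) + 5 / 2) 5 ((c.n : ℝ) + 1) 0 B k3 k4
    (by rw [abs_le]; constructor <;> linarith) hdeg hNear hbd
  have m4 := main (M2 c) (7 * (c.J1 : ℝ) + 5 * (c.J2 : ℝ) + 5 / 2) 5 (c.n : ℝ) 0 (refl B) k3 k5
    (by rw [abs_le]; constructor <;> linarith) hdeg' hNear' hbd'
  have m5 := main (M3 c) ((c.n : ℝ) + 1) 0 (c.n : ℝ) 0 B k6 k7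
    (by rw [abs_le]; constructor <;> linarith) hdeg hNear hbd
  have hint : ((c.N : ℝ) / 2) * (∫ z in (-1 : ℝ)..1, B.eval z) = (c.N : ℝ) * m := by
    rw [hmusq]; ring
  rw [hint] at hzon
  have g1 : 5 * (C2 * (16 * ((t : ℝ) + 1) * m)) ≤ 160 * C2 / (t : ℝ) * m * (c.N : ℝ) := by
    have g2 : 80 * ((t : ℝ) + 1) ≤ 160 / (t : ℝ) * (c.N : ℝ) := by
      rw [div_mul_eq_mul_div, le_div_iff₀ htp]
      nlinarith
    have g3 : 5 * (C2 * (16 * ((t : ℝ) + 1) * m)) = C2 * m * (80 * ((t : ℝ) + 1)) := by ring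
    have g4 : 160 * C2 / (t : ℝ) * m * (c.N : ℝ) = C2 * m * (160 / (t : ℝ) * (c.N : ℝ)) := by ring
    rw [g3, g4]
    exact mul_le_mul_of_nonneg_left g2 (by positivity)
  have hfin : (c.N : ℝ) * ((0.62 - (C1 + 160 * C2) / (t : ℝ)) * m) ≤
      (c.N : ℝ) * SY c (fun z => B.eval z) := by
    have e5 : (c.N : ℝ) * ((0.62 - (C1 + 160 * C2) / (t : ℝ)) * m) =
        (c.N : ℝ) * m - ((0.38 + C1 / (t : ℝ)) * (c.N : ℝ) * m)
          - 160 * C2 / (t : ℝ) * m * (c.N : ℝ) := by ring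
    rw [e5]
    linarith
  exact le_of_mul_le_mul_left hfin hNp

end Pool.Agent.Helper83.SE
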