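import Pool.Agent.Helper83.SE.Ring2
import Pool.Agent.Helper83.SE.ZA2
import Pool.Agent.Helper83.SE.AliasI
import Pool.Agent.Helper83.SE.AliasO

/-!
Project SE, module C02: the sampling inequality.

`SC(p^2) ≥ SY - AC`, `AC ≤ (0.05 + 0.1596 + 0.0005) mu + 0.25 * (inner part of SY) ≤ 0.2101 mu + 0.25 SY`
(the omitted terms of `SY` are `≥ 0`: `modeA_sup`), so `SC(p^2) ≥ 0.75 (0.62 - C/t) mu - 0.2101 mu
= (0.2549 - C/t) mu`.
-/

set_option autoImplicit false

open MeasureTheory Real Pool.Agent.Helper83.SD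

namespace Pool.Agent.Helper83.SE

/-- the inner rings give at most the whole zonal sum -/
theorem C02_inner_le {t : ℕ} {c : Cf} (ht : 10000 ≤ t) (hg : Good t c) (hk : HOK c)
    (B : ℝ → ℝ) (hB : ∀ z : ℝ, z ^ 2 ≤ 1 → 0 ≤ B z) :
    RA c (Finset.Icc 1 (J0 c)) (fun _ z => B z) / (c.N : ℝ) ≤ SY c B := by
  have hN : (0 : ℝ) < (c.N : ℝ) := by exact_mod_cast hk.N0
  unfold SY
  apply div_le_div_of_nonneg_right _ hN.le
  have h1 : 0 ≤ B 1 := hB 1 (by norm_num)
  have h2 : 0 ≤ B (-1) := hB (-1) (by norm_num)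
  unfold RS
  rw [RA_union c _ (J0_le ht hg)]
  have hneg : ∀ z : ℝ, z ^ 2 ≤ 1 → 0 ≤ B (-z) := fun z hz => hB _ (by rw [neg_sq]; exact hz)
  have h3 : 0 ≤ RA c (Finset.Ioc (J0 c) c.J1) (fun _ z => B z) := by
    unfold RA
    refine Finset.sum_nonneg fun j hj => ?_
    rw [Finset.mem_Ioc] at hj
    have h4 := hk.A j (Finset.mem_Icc.2 ⟨by omega, hj.2⟩)
    have h5 := hB _ h4
    have h6 := hneg _ h4
    positivity
  have h4 : 0 ≤ RB c (fun _ z => B z) := by
    unfold RB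
    refine Finset.sum_nonneg fun i hi => ?_
    have h4 := hk.B i (Finset.mem_range.1 hi)
    have h5 := hB _ h4
    have h6 := hneg _ h4
    positivity
  have h5 : 0 ≤ RC c (fun _ z => B z) := by
    unfold RC
    refine Finset.sum_nonneg fun i hi => ?_
    have h5 := hB _ (hk.C i (Finset.mem_range.1 hi))
    positivity
  have h6 : 0 ≤ RD c (fun _ z => B z) := by
    unfold RD
    refine Finset.sum_nonneg fun i hi => ?_
    have h5 := hB _ (hk.D i (Finset.mem_range.1 hi))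
    positivity
  linarith

theorem sampling2 : ∃ T0 : ℝ, ∀ (t : ℕ) (c : Cf), T0 ≤ (t : ℝ) → Good t c →
    ∀ p : Poly, p.totalDegree ≤ t → 0.25 * mu (p ^ 2) ≤ SC c (fun x => (ev p x) ^ 2) := by
  obtain ⟨C, T1, hC, hZ⟩ := zonal_A2
  obtain ⟨T2, hO⟩ := alias_out
  obtain ⟨T3, hH⟩ := cfg_hok
  refine ⟨max (max T1 T2) (max (max T3 10000) (200 * C)), fun t c ht hg p hp => ?_⟩
  have h1 : T1 ≤ (t : ℝ) := ((le_max_left _ _).trans (le_max_left _ _)).trans ht
  have h2 : T2 ≤ (t : ℝ) := ((le_max_right _ _).trans (le_max_left _ _)).trans ht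
  have h3 : T3 ≤ (t : ℝ) :=
    (((le_max_left _ _).trans (le_max_left _ _)).trans (le_max_right _ _)).trans ht
  have h4 : (10000 : ℝ) ≤ (t : ℝ) :=
    (((le_max_right _ _).trans (le_max_left _ _)).trans (le_max_right _ _)).trans ht
  have h5 : 200 * C ≤ (t : ℝ) := ((le_max_right _ _).trans (le_max_right _ _)).trans ht
  have h6 : 10000 ≤ t := by exact_mod_cast h4
  have htp : (0 : ℝ) < t := by linarith
  have hCt : C / (t : ℝ) ≤ 0.005 := by
    rw [div_le_iff₀ htp]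
    linarith
  have hk : HOK c := hH t c h3 hg
  obtain ⟨u, v, hm⟩ := exists_modes t p hp
  have hz := hZ t c p u v h1 hg hp hm
  have ha := hO t c p u v h2 hg hp hm
  have hi := alias_in h6 hg hk hm
  have hs := SC_sq hm hk
  have hmu : 0 ≤ mu (p ^ 2) := mu_nonneg (fun x _ => by rw [ev_pow]; positivity)
  have hin := C02_inner_le h6 hg hk (fun z => (modeA t u v).eval z)
    (fun z hz => (modeA_sup hp hm hz).1)
  set A := SY c (fun z => (modeA t u v).eval z) with hA
  rw [abs_le] at hs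
  have h7 : (0.62 - 0.005) * mu (p ^ 2) ≤ (0.62 - C / (t : ℝ)) * mu (p ^ 2) :=
    mul_le_mul_of_nonneg_right (by linarith) hmu
  linarith [hs.1]

end Pool.Agent.Helper83.SE
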