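import Pool.Agent.Helper83.SE.Basic2

/-!
Project SE, module CfgE: configurations exist.

`x = √N`, `t = ⌊√(N/1.5)⌋`, `J1 = ⌊0.105 x⌋`, `J2 = ⌊0.189 x⌋`, `q = 7J1 + 5J2`,
`M = N - 2 - 7J1(J1+1) - 14 J1 J2 - 5 J2(J2+1)` (`≥ 0.46 N`), `R = M / q`, `n = M / R`, `l = M % R`.
`R ≥ 1`, `n ≥ q` since `R q ≤ M`; `n ≤ M/R < q + q/R` and `q/R ≤ 6.1` (`q ≤ 1.68 x`,
`R ≥ M/q - 1 ≥ 0.277 x`).
-/

set_option autoImplicit false

open MeasureTheory Real Pool.Agent.Helper83.SD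

namespace Pool.Agent.Helper83.SE

theorem cfg_exists : ∃ N0 : ℕ, ∀ N : ℕ, N0 ≤ N → ∃ (t : ℕ) (c : Cf), c.N = N ∧ Good t c ∧
    (N : ℝ) < 1.5 * ((t : ℝ) + 1) ^ 2 := by
  refine ⟨1000000, fun N hN => ?_⟩
  set x : ℝ := √(N : ℝ) with hx
  have hNr : (1000000 : ℝ) ≤ N := by exact_mod_cast hN
  have hx2 : x ^ 2 = N := Real.sq_sqrt (by linarith)
  have hx0 : 0 ≤ x := Real.sqrt_nonneg _
  have hx1 : 1000 ≤ x := by
    by_contra hcon
    have h0 : x < 1000 := not_le.mp hcon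
    nlinarith only [h0, hx0, hx2, hNr]
  -- the parameter t
  set w : ℝ := √((N : ℝ) / 1.5) with hw
  have hw0 : 0 ≤ w := Real.sqrt_nonneg _
  have hw2 : w ^ 2 = (N : ℝ) / 1.5 := Real.sq_sqrt (by positivity)
  obtain ⟨t, ht⟩ : ∃ t : ℕ, t = ⌊w⌋₊ := ⟨_, rfl⟩
  have ht1 : (t : ℝ) ≤ w := by rw [ht]; exact Nat.floor_le hw0
  have ht2 : w < (t : ℝ) + 1 := by rw [ht]; exact Nat.lt_floor_add_one w
  have ht0 : (0 : ℝ) ≤ t := Nat.cast_nonneg _
  have hlo : 1.5 * (t : ℝ) ^ 2 ≤ N := by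
    have h1 : (t : ℝ) ^ 2 ≤ w ^ 2 := pow_le_pow_left₀ ht0 ht1 2
    rw [hw2, le_div_iff₀ (by norm_num)] at h1
    linarith
  have hhi : (N : ℝ) < 1.5 * ((t : ℝ) + 1) ^ 2 := by
    have h1 : w ^ 2 < ((t : ℝ) + 1) ^ 2 := pow_lt_pow_left₀ ht2 hw0 two_ne_zero
    rw [hw2, div_lt_iff₀ (by norm_num)] at h1
    linarith
  -- J1, J2
  obtain ⟨a, ha⟩ : ∃ a : ℕ, a = ⌊0.105 * x⌋₊ := ⟨_, rfl⟩
  obtain ⟨b, hb⟩ : ∃ b : ℕ, b = ⌊0.189 * x⌋₊ := ⟨_, rfl⟩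
  have ha1 : (a : ℝ) ≤ 0.105 * x := by rw [ha]; exact Nat.floor_le (by positivity)
  have ha2 : 0.105 * x < (a : ℝ) + 1 := by rw [ha]; exact Nat.lt_floor_add_one _
  have hb1 : (b : ℝ) ≤ 0.189 * x := by rw [hb]; exact Nat.floor_le (by positivity)
  have hb2 : 0.189 * x < (b : ℝ) + 1 := by rw [hb]; exact Nat.lt_floor_add_one _
  have ha0 : (0 : ℝ) ≤ a := Nat.cast_nonneg _
  have hb0 : (0 : ℝ) ≤ b := Nat.cast_nonneg _
  have hxx : 1000 * x ≤ x ^ 2 := by nlinarith only [hx1]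
  have haa : (a : ℝ) * a ≤ 0.011025 * x ^ 2 := by
    have := mul_le_mul ha1 ha1 ha0 (by positivity)
    linarith
  have hbb : (b : ℝ) * b ≤ 0.035721 * x ^ 2 := by
    have := mul_le_mul hb1 hb1 hb0 (by positivity)
    linarith
  have hab : (a : ℝ) * b ≤ 0.019845 * x ^ 2 := by
    have := mul_le_mul ha1 hb1 hb0 (by positivity)
    linarith
  have hsum : (2 + 7 * a * (a + 1) + 14 * a * b + 5 * b * (b + 1) : ℝ) + 0.46 * x ^ 2 ≤ N := by
    rw [← hx2]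
    linarith
  obtain ⟨P, hP⟩ : ∃ P : ℕ, P = 2 + 7 * a * (a + 1) + 14 * a * b + 5 * b * (b + 1) := ⟨_, rfl⟩
  have hPr : (P : ℝ) = 2 + 7 * a * (a + 1) + 14 * a * b + 5 * b * (b + 1) := by
    rw [hP]; push_cast; ring
  have hPN : P ≤ N := by
    have : (P : ℝ) ≤ N := by rw [hPr]; linarith [sq_nonneg x]
    exact_mod_cast this
  obtain ⟨M, hM⟩ : ∃ M : ℕ, N = P + M := ⟨N - P, by omega⟩
  have hMr : 0.46 * x ^ 2 ≤ (M : ℝ) := by
    have h1 : (N : ℝ) = P + M := by exact_mod_cast hM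
    rw [hPr] at h1
    linarith
  obtain ⟨q, hq⟩ : ∃ q : ℕ, q = 7 * a + 5 * b := ⟨_, rfl⟩
  have hqr : (q : ℝ) = 7 * a + 5 * b := by rw [hq]; push_cast; ring
  have hq1 : (q : ℝ) ≤ 1.68 * x := by rw [hqr]; linarith
  have hq2 : 1.68 * x - 12 < (q : ℝ) := by rw [hqr]; linarith
  have hq0 : 0 < q := by
    have : (0 : ℝ) < q := by linarith
    exact_mod_cast this
  obtain ⟨R, hR⟩ : ∃ R : ℕ, R = M / q := ⟨_, rfl⟩
  have hR1 : R * q ≤ M := by rw [hR]; exact Nat.div_mul_le_self M q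
  have hR2 : M < q * (R + 1) := by rw [hR]; exact Nat.lt_mul_div_succ M hq0
  have hR2r : (M : ℝ) < q * (R + 1) := by exact_mod_cast hR2
  have hR0r : (0 : ℝ) ≤ R := Nat.cast_nonneg _
  have hRb : 0.27 * x ≤ (R : ℝ) := by
    have h1 : 0.46 * x ^ 2 < 1.68 * x * (R + 1) := by
      calc 0.46 * x ^ 2 ≤ M := hMr
        _ < q * (R + 1) := hR2r
        _ ≤ 1.68 * x * (R + 1) := mul_le_mul_of_nonneg_right hq1 (by linarith)
    have h2 : 0.46 * x < 1.68 * (R + 1) := by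
      have hxpos : 0 < x := by linarith
      have h3 : x * (0.46 * x) < x * (1.68 * (R + 1)) := by linarith
      exact lt_of_mul_lt_mul_left h3 hxpos.le
    linarith
  have hqR : q ≤ 7 * R := by
    have : (q : ℝ) ≤ 7 * R := by linarith
    exact_mod_cast this
  have hRpos : 0 < R := by omega
  have hn1 : q ≤ M / R := by
    rw [Nat.le_div_iff_mul_le hRpos]
    rw [mul_comm]
    exact hR1
  have hn2 : M / R ≤ q + 7 := by
    have h1 : M < R * (q + 7 + 1) := by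
      calc M < q * (R + 1) := hR2
        _ = R * q + q := by ring
        _ ≤ R * q + 7 * R := by omega
        _ ≤ R * (q + 7 + 1) := by
          have h3 : R * (q + 7 + 1) = R * q + 8 * R := by ring
          omega
    have h2 : M / R < q + 7 + 1 := by
      rw [Nat.div_lt_iff_lt_mul hRpos]
      rw [mul_comm]
      exact h1
    omega
  refine ⟨t, ⟨N, a, b, R, M / R, M % R⟩, rfl, ?_, hhi⟩
  refine ⟨hlo, hhi.le, ?_, ?_, ?_, ?_, ?_, ?_, ?_, ?_⟩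
  · show 0.105 * x - 1 ≤ (a : ℝ)
    linarith
  · exact ha1
  · show 0.189 * x - 1 ≤ (b : ℝ)
    linarith
  · exact hb1
  · show N = 2 + 7 * a * (a + 1) + 14 * a * b + 5 * b * (b + 1) + R * (M / R) + M % R
    rw [← hP, add_assoc, Nat.div_add_mod]
    exact hM
  · show M % R ≤ R
    exact (Nat.mod_lt _ hRpos).le
  · show 7 * a + 5 * b ≤ M / R
    rw [← hq]
    exact hn1
  · show M / R ≤ 7 * a + 5 * b + 7
    rw [← hq]
    exact hn2

end Pool.Agent.Helper83.SE
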