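import Pool.Agent.Helper83.SE.Defs

/-!
Project SE, module NumH2: numerical bound for the harmonic sum.

`h7 1 = 0.008653`, `h7 2 ≤ 0.0002`, `h7 3 ≤ 1e-5`; `√2 * 0.008655 = 0.01224`.
For `k ≥ 3`: `h7 k ≤ 2 k^2 (2/√(7k)) (2.3352 (k^2 + 5/42))^(3.5 k)/(7k)!`, `(7k)! ≥ (7k/e)^(7k)`:
`(1.5282 e/7)^(7k) = 0.5935^(7k)` times `(1+5/(42k^2))^(3.5k)`.
-/

set_option autoImplicit false

open MeasureTheory Real Pool.Agent.Helper83.SD

namespace Pool.Agent.Helper83.SE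

namespace NumH2

lemma h7_nonneg (k : ℕ) : 0 ≤ h7 k := by
  unfold h7
  exact Finset.sum_nonneg fun j _ => by positivity

lemma h7_le (k : ℕ) :
    h7 k ≤ 2 * (k : ℝ) ^ 2 * (2 / √(7 * (k : ℝ))) *
      √((2.3352 * ((k : ℝ) ^ 2 + 5 / 42)) ^ (7 * k)) / ((7 * k).factorial : ℝ) := by
  have hs0 : 0 ≤ 2 / √(7 * (k : ℝ)) := by positivity
  have hf : (0 : ℝ) < ((7 * k).factorial : ℝ) := by exact_mod_cast Nat.factorial_pos _
  unfold h7
  have hterm : ∀ j ∈ (Finset.Icc 1 k).filter (fun j => j ∣ k),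
      2 * (j : ℝ) * (2 / √(7 * (k : ℝ))) * √((2.3352 * ((j : ℝ) ^ 2 + 5 / 42)) ^ (7 * k)) /
        ((7 * k).factorial : ℝ) ≤
      2 * (k : ℝ) * (2 / √(7 * (k : ℝ))) * √((2.3352 * ((k : ℝ) ^ 2 + 5 / 42)) ^ (7 * k)) /
        ((7 * k).factorial : ℝ) := by
    intro j hj
    rw [Finset.mem_filter, Finset.mem_Icc] at hj
    have hjk : (j : ℝ) ≤ k := by exact_mod_cast hj.1.2
    have hj0 : (0 : ℝ) ≤ j := Nat.cast_nonneg j
    gcongr
  refine (Finset.sum_le_card_nsmul _ _ _ hterm).trans ?_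
  rw [nsmul_eq_mul]
  have hc : (((Finset.Icc 1 k).filter (fun j => j ∣ k)).card : ℝ) ≤ k := by
    have := Finset.card_filter_le (Finset.Icc 1 k) (fun j => j ∣ k)
    rw [Nat.card_Icc] at this
    exact_mod_cast this.trans (by omega)
  calc (((Finset.Icc 1 k).filter (fun j => j ∣ k)).card : ℝ) *
        (2 * (k : ℝ) * (2 / √(7 * (k : ℝ))) * √((2.3352 * ((k : ℝ) ^ 2 + 5 / 42)) ^ (7 * k)) /
          ((7 * k).factorial : ℝ))
      ≤ (k : ℝ) * (2 * (k : ℝ) * (2 / √(7 * (k : ℝ))) *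
          √((2.3352 * ((k : ℝ) ^ 2 + 5 / 42)) ^ (7 * k)) / ((7 * k).factorial : ℝ)) := by
        apply mul_le_mul_of_nonneg_right hc (by positivity)
    _ = _ := by ring

lemma h7_sq_le (k : ℕ) (hk : 1 ≤ k) :
    (h7 k) ^ 2 ≤ 16 / 7 * (k : ℝ) ^ 3 *
      ((2.3352 * ((k : ℝ) ^ 2 + 5 / 42)) ^ (7 * k) / (((7 * k).factorial : ℝ)) ^ 2) := by
  have hk0 : (0 : ℝ) < k := by exact_mod_cast hk
  have h1 := h7_le k
  have h0 := h7_nonneg k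
  have h2 : (h7 k) ^ 2 ≤ (2 * (k : ℝ) ^ 2 * (2 / √(7 * (k : ℝ))) *
      √((2.3352 * ((k : ℝ) ^ 2 + 5 / 42)) ^ (7 * k)) / ((7 * k).factorial : ℝ)) ^ 2 := by
    gcongr
  refine h2.trans (le_of_eq ?_)
  have e1 : (√(7 * (k : ℝ))) ^ 2 = 7 * (k : ℝ) := Real.sq_sqrt (by positivity)
  have e2 : (√((2.3352 * ((k : ℝ) ^ 2 + 5 / 42)) ^ (7 * k))) ^ 2 =
      (2.3352 * ((k : ℝ) ^ 2 + 5 / 42)) ^ (7 * k) := Real.sq_sqrt (by positivity)
  rw [div_pow, mul_pow, mul_pow, div_pow, e1, e2]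
  have hf : ((7 * k).factorial : ℝ) ≠ 0 := by
    exact_mod_cast (Nat.factorial_pos _).ne'
  field_simp
  ring

lemma fac_le (k : ℕ) :
    (((7 * (k : ℝ)) ^ (7 * k)) / ((7 * k).factorial : ℝ)) ^ 2 ≤ (1202605 : ℝ) ^ k := by
  have h := Real.pow_div_factorial_le_exp (7 * (k : ℝ)) (by positivity) (7 * k)
  have he : Real.exp (7 * (k : ℝ)) ^ 2 = (Real.exp 1 ^ 14) ^ k := by
    rw [← Real.exp_nat_mul, ← Real.exp_nat_mul, ← Real.exp_nat_mul]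
    congr 1
    push_cast
    ring
  have h1 := Real.exp_one_lt_d9
  have h2 : Real.exp 1 ^ 14 ≤ 1202605 := by
    calc Real.exp 1 ^ 14 ≤ (2.7182818286 : ℝ) ^ 14 := by
          apply pow_le_pow_left₀ (Real.exp_pos 1).le h1.le
      _ ≤ 1202605 := by norm_num
  calc (((7 * (k : ℝ)) ^ (7 * k)) / ((7 * k).factorial : ℝ)) ^ 2
      ≤ Real.exp (7 * (k : ℝ)) ^ 2 := by gcongr
    _ = (Real.exp 1 ^ 14) ^ k := he
    _ ≤ _ := by gcongr

lemma pw (k : ℕ) (hk : 3 ≤ k) : 2 * (k : ℝ) ^ 3 ≤ (4 : ℝ) ^ k := by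
  induction k, hk using Nat.le_induction with
  | base => norm_num
  | succ n hn ih =>
    have h3 : (3 : ℝ) ≤ n := by exact_mod_cast hn
    have h4 : 2 * ((n : ℝ) + 1) ^ 3 ≤ 2 * (n : ℝ) ^ 3 * 4 := by nlinarith [pow_pos (by linarith : (0:ℝ) < n) 2]
    calc 2 * (((n + 1 : ℕ) : ℝ)) ^ 3 = 2 * ((n : ℝ) + 1) ^ 3 := by push_cast; ring
      _ ≤ 2 * (n : ℝ) ^ 3 * 4 := h4
      _ ≤ (4 : ℝ) ^ n * 4 := by gcongr
      _ = (4 : ℝ) ^ (n + 1) := by rw [pow_succ]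

lemma h7_small (k : ℕ) (hk : 3 ≤ k) : 2 * (h7 k) ^ 2 ≤ 16 / 7 * (1 / 300 : ℝ) ^ k := by
  have h0 := h7_sq_le k (by omega)
  have hk3 : (3 : ℝ) ≤ k := by exact_mod_cast hk
  have hk0 : (0 : ℝ) < k := by linarith
  have h1 : 2.3352 * ((k : ℝ) ^ 2 + 5 / 42) ≤ 2.3661 * (k : ℝ) ^ 2 := by nlinarith
  have h2 : (2.3352 * ((k : ℝ) ^ 2 + 5 / 42)) ^ (7 * k) / (((7 * k).factorial : ℝ)) ^ 2 ≤
      (1 / 1350 : ℝ) ^ k := by
    calc (2.3352 * ((k : ℝ) ^ 2 + 5 / 42)) ^ (7 * k) / (((7 * k).factorial : ℝ)) ^ 2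
        ≤ (2.3661 * (k : ℝ) ^ 2) ^ (7 * k) / (((7 * k).factorial : ℝ)) ^ 2 := by gcongr
      _ = ((2.3661 / 49 : ℝ) ^ 7) ^ k *
          (((7 * (k : ℝ)) ^ (7 * k)) / ((7 * k).factorial : ℝ)) ^ 2 := by
          have e1 : (2.3661 * (k : ℝ) ^ 2) ^ (7 * k) =
              ((2.3661 / 49 : ℝ) ^ 7) ^ k * ((7 * (k : ℝ)) ^ (7 * k)) ^ 2 := by
            rw [← pow_mul (7 * (k : ℝ)), mul_comm (7 * k) 2, pow_mul (7 * (k : ℝ)), ← pow_mul,
              ← mul_pow]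
            congr 1
            ring
          rw [e1, div_pow]
          ring
      _ ≤ ((2.3661 / 49 : ℝ) ^ 7) ^ k * (1202605 : ℝ) ^ k := by
          apply mul_le_mul_of_nonneg_left (fac_le k) (by positivity)
      _ = ((2.3661 / 49 : ℝ) ^ 7 * 1202605) ^ k := by rw [mul_pow]
      _ ≤ (1 / 1350 : ℝ) ^ k := by
          apply pow_le_pow_left₀ (by norm_num)
          norm_num
  calc 2 * (h7 k) ^ 2 ≤ 2 * (16 / 7 * (k : ℝ) ^ 3 * (1 / 1350 : ℝ) ^ k) := by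
        have : 16 / 7 * (k : ℝ) ^ 3 * ((2.3352 * ((k : ℝ) ^ 2 + 5 / 42)) ^ (7 * k) /
          (((7 * k).factorial : ℝ)) ^ 2) ≤ 16 / 7 * (k : ℝ) ^ 3 * (1 / 1350 : ℝ) ^ k := by
          gcongr
        linarith
    _ = 16 / 7 * (2 * (k : ℝ) ^ 3) * (1 / 1350 : ℝ) ^ k := by ring
    _ ≤ 16 / 7 * (4 : ℝ) ^ k * (1 / 1350 : ℝ) ^ k := by
        have := pw k hk
        gcongr
    _ = 16 / 7 * (4 * (1 / 1350) : ℝ) ^ k := by rw [mul_pow]; ring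
    _ ≤ 16 / 7 * (1 / 300 : ℝ) ^ k := by
        have : (4 * (1 / 1350) : ℝ) ^ k ≤ (1 / 300 : ℝ) ^ k := by
          apply pow_le_pow_left₀ (by norm_num)
          norm_num
        linarith

lemma h7_one : 2 * (h7 1) ^ 2 ≤ 0.0001498 := by
  have h0 := h7_sq_le 1 le_rfl
  have h12 : (((7 * 1).factorial : ℕ) : ℝ) = 5040 := by norm_num [Nat.factorial]
  rw [h12] at h0
  norm_num at h0 ⊢
  linarith

lemma h7_two : 2 * (h7 2) ^ 2 ≤ 0.0000004 := by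
  have h0 := h7_sq_le 2 (by norm_num)
  have h12 : (((7 * 2).factorial : ℕ) : ℝ) = 87178291200 := by norm_num [Nat.factorial]
  rw [h12] at h0
  norm_num at h0 ⊢
  linarith

lemma geo (K : ℕ) : ∑ k ∈ Finset.Icc 3 K, (16 / 7 : ℝ) * (1 / 300) ^ k ≤ 0.0000001 := by
  have h : ∀ K : ℕ, 2 ≤ K → ∑ k ∈ Finset.Icc 3 K, (16 / 7 : ℝ) * (1 / 300) ^ k =
      16 / 7 / 299 / 90000 - (16 / 7 / 299) * (1 / 300) ^ K := by
    intro K hK
    induction K, hK using Nat.le_induction with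
    | base => norm_num
    | succ n hn ih =>
      rw [Finset.sum_Icc_succ_top (by omega), ih, pow_succ]
      ring
  rcases Nat.lt_or_ge K 2 with hK | hK
  · rw [Finset.Icc_eq_empty (by omega)]
    norm_num
  · rw [h K hK]
    have h5 : (0 : ℝ) ≤ (16 / 2093) * (1 / 300) ^ K := by positivity
    have h6 : (16 / 7 / 299 / 90000 : ℝ) - (16 / 7 / 299) * (1 / 300) ^ K =
        1 / 11773125 - (16 / 2093) * (1 / 300) ^ K := by ring
    rw [h6]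
    have h7 : (1 / 11773125 : ℝ) ≤ 0.0000001 := by norm_num
    linarith

end NumH2

open NumH2 in
theorem h7_num (K : ℕ) : ∑ k ∈ Finset.Icc 1 K, 2 * (h7 k) ^ 2 ≤ 0.01227 ^ 2 := by
  have h1 := h7_one
  have h2 := h7_two
  have hnn : ∀ k ∈ Finset.Icc 1 (K + 2), k ∉ Finset.Icc 1 K → 0 ≤ 2 * (h7 k) ^ 2 := by
    intro k _ _
    positivity
  refine (Finset.sum_le_sum_of_subset_of_nonneg
    (Finset.Icc_subset_Icc le_rfl (by omega : K ≤ K + 2)) hnn).trans ?_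
  have hsplit : Finset.Icc 1 (K + 2) = insert 1 (insert 2 (Finset.Icc 3 (K + 2))) := by
    ext k
    simp only [Finset.mem_Icc, Finset.mem_insert]
    omega
  rw [hsplit, Finset.sum_insert, Finset.sum_insert]
  · have h3 : ∑ k ∈ Finset.Icc 3 (K + 2), 2 * (h7 k) ^ 2 ≤
        ∑ k ∈ Finset.Icc 3 (K + 2), (16 / 7 : ℝ) * (1 / 300) ^ k := by
      apply Finset.sum_le_sum
      intro k hk
      rw [Finset.mem_Icc] at hk
      exact h7_small k hk.1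
    have h4 := geo (K + 2)
    norm_num at h1 h2 h3 h4 ⊢
    linarith
  · simp
  · simp

end Pool.Agent.Helper83.SE
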