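import Pool.Agent.Helper83.SE.Basic2
import Pool.Agent.Helper83.SE.NumH2
import Pool.Agent.Helper83.SD.EnLow
import Pool.Agent.Helper83.SD.Mode

/-!
Project SE, module HarmI: the harmonic error of zone 1.

`mode_bound` with `t-1`, `|m|-1`, `i = 0` (`u_m` has degree `≤ (t-1) - (|m|-1)`): 
`√(1-z^2)^|m| |u_m(z)| ≤ (2/√|m|) √((2.3352 (j^2+5/42))^|m|)/|m|! * √(gmode m)` at `z = ± zA c j`
(`(1-z^2) t^2/4 ≤ (14/N)(j^2+5/42) * 0.6672 N/4`).  The modes of ring `j` are the multiples of `7j`,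
`|m| = 7k`, `j ∣ k`.  Sum: `(7/N) Σ_k h7 k (√gmode(7k) + √gmode(-7k)) ≤ (7/N) √(Σ 2 h7^2) √(Σ gmode)`
(Cauchy-Schwarz), `7 * 0.01227 = 0.0859`, divided by `N ≥ 1.5 t^2`: `0.05726/t^2`.
-/

set_option autoImplicit false

open MeasureTheory Real Pool.Agent.Helper83.SD

namespace Pool.Agent.Helper83.SE

namespace HarmI

/-- bound for the value of mode `n` on ring `j` -/
noncomputable def bb (j n : ℕ) : ℝ :=
  (2 / √(n : ℝ)) * √((2.3352 * ((j : ℝ) ^ 2 + 5 / 42)) ^ n) / (n.factorial : ℝ)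

lemma bb_nonneg (j n : ℕ) : 0 ≤ bb j n := by unfold bb; positivity

lemma term_bound {t : ℕ} {c : Cf} {p : Poly} {u v : ℤ → Polynomial ℝ} (ht : 10000 ≤ t)
    (hg : Good t c) (hk : HOK c) (h : Modes t p u v) {j : ℕ} (hj : j ∈ Finset.Icc 1 c.J1)
    {m : ℤ} (hm0 : m ≠ 0) (hmt : m.natAbs ≤ t) {z : ℝ} (hz : z ^ 2 = (zA c j) ^ 2) :
    √(1 - z ^ 2) ^ m.natAbs * |(u m).eval z| ≤ bb j m.natAbs * √(gmode u v m) := by
  have hz1 : z ^ 2 ≤ 1 := by rw [hz]; exact hk.A j hj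
  obtain ⟨n', hn'⟩ : ∃ n', m.natAbs = n' + 1 :=
    ⟨m.natAbs - 1, by have := Int.natAbs_pos.mpr hm0; omega⟩
  obtain ⟨t', ht'⟩ : ∃ t', t = t' + 1 := ⟨t - 1, by omega⟩
  have hgm := gmode_nonneg u v m
  have hmb := mode_bound t' n' 0 (by omega) (u m) (by
    have := h.degu m hmt
    omega) z hz1
  simp only [Function.iterate_zero, id_eq, Nat.cast_zero, mul_zero, add_zero] at hmb
  have htc : ((t' : ℝ) + 1) = t := by rw [ht']; push_cast; ring
  have hnc : ((n' : ℝ) + 1) = (m.natAbs : ℝ) := by rw [hn']; push_cast; ring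
  rw [htc, hnc, ← hn'] at hmb
  set n := m.natAbs with hn
  have hnpos : (0 : ℝ) < n := by rw [hn']; positivity
  -- nrm bound
  have hnrm : nrm n' (u m) ≤ gmode u v m / (n : ℝ) ^ 2 := by
    rw [le_div_iff₀ (by positivity)]
    unfold gmode
    rw [← hn, hn']
    have e1 : (m : ℝ) ^ 2 = ((n' + 1 : ℕ) : ℝ) ^ 2 := by
      rw [← hn', hn, Nat.cast_natAbs]
      push_cast
      rw [sq_abs]
    rw [e1]
    simp only [Nat.add_sub_cancel]
    have h4 := nrm_nonneg n' (v m)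
    have h5 : 0 ≤ ((n' + 1 : ℕ) : ℝ) ^ 2 := by positivity
    nlinarith
  have hfac : ((n.factorial : ℕ) : ℝ) = n * (n'.factorial : ℝ) := by
    rw [hn', Nat.factorial_succ]
    push_cast
    ring
  have hA : ((u m).eval z) ^ 2 ≤ 4 / n * ((t : ℝ) ^ 2 / 4) ^ n / (n.factorial : ℝ) ^ 2 * gmode u v m := by
    calc ((u m).eval z) ^ 2 ≤ ((t : ℝ) ^ 2) ^ n / ((n : ℝ) * 4 ^ n' * (n'.factorial : ℝ) ^ 2) *
          nrm n' (u m) := hmb
      _ ≤ ((t : ℝ) ^ 2) ^ n / ((n : ℝ) * 4 ^ n' * (n'.factorial : ℝ) ^ 2) *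
          (gmode u v m / (n : ℝ) ^ 2) := by gcongr
      _ = 4 / n * ((t : ℝ) ^ 2 / 4) ^ n / (n.factorial : ℝ) ^ 2 * gmode u v m := by
          rw [hfac, div_pow]
          have h4 : (4 : ℝ) ^ n = 4 * 4 ^ n' := by rw [hn', pow_succ]; ring
          rw [h4]
          have : (n'.factorial : ℝ) ≠ 0 := by positivity
          field_simp
  have hN0 : (0 : ℝ) < c.N := by exact_mod_cast hk.N0
  have hT := (T_up ht hg).1
  have hone : 1 - z ^ 2 ≤ 14 / (c.N : ℝ) * ((j : ℝ) ^ 2 + 5 / 42) := by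
    have e2 : 14 / (c.N : ℝ) * ((j : ℝ) ^ 2 + 5 / 42) = 2 * (1 - zA c j) := by
      unfold zA
      ring
    rw [e2, hz]
    nlinarith [sq_nonneg (1 - zA c j)]
  have hz0 : 0 ≤ 1 - z ^ 2 := by linarith
  have hB : (1 - z ^ 2) * ((t : ℝ) ^ 2 / 4) ≤ 2.3352 * ((j : ℝ) ^ 2 + 5 / 42) := by
    have h6 : (t : ℝ) ^ 2 ≤ 0.6672 * (c.N : ℝ) := by
      have : (0 : ℝ) ≤ t := Nat.cast_nonneg t
      nlinarith
    calc (1 - z ^ 2) * ((t : ℝ) ^ 2 / 4) ≤
          (14 / (c.N : ℝ) * ((j : ℝ) ^ 2 + 5 / 42)) * (0.6672 * (c.N : ℝ) / 4) := by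
          apply mul_le_mul hone (by linarith) (by positivity) (by positivity)
      _ = 2.3352 * ((j : ℝ) ^ 2 + 5 / 42) := by
          field_simp
          ring
  have hC : ((1 - z ^ 2) * ((t : ℝ) ^ 2 / 4)) ^ n ≤ (2.3352 * ((j : ℝ) ^ 2 + 5 / 42)) ^ n := by
    apply pow_le_pow_left₀ (by positivity) hB
  have hbb := bb_nonneg j n
  refine (pow_le_pow_iff_left₀ (by positivity) (by positivity) two_ne_zero).mp ?_
  rw [mul_pow, mul_pow, Real.sq_sqrt hgm, sq_abs, ← pow_mul, mul_comm n 2, pow_mul,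
    Real.sq_sqrt hz0]
  have hbsq : bb j n ^ 2 = 4 / n * (2.3352 * ((j : ℝ) ^ 2 + 5 / 42)) ^ n / (n.factorial : ℝ) ^ 2 := by
    unfold bb
    rw [div_pow, mul_pow, div_pow, Real.sq_sqrt hnpos.le, Real.sq_sqrt (by positivity)]
    norm_num
  rw [hbsq]
  calc (1 - z ^ 2) ^ n * ((u m).eval z) ^ 2
      ≤ (1 - z ^ 2) ^ n * (4 / n * ((t : ℝ) ^ 2 / 4) ^ n / (n.factorial : ℝ) ^ 2 * gmode u v m) := by
        apply mul_le_mul_of_nonneg_left hA (by positivity)
    _ = 4 / n * ((1 - z ^ 2) * ((t : ℝ) ^ 2 / 4)) ^ n / (n.factorial : ℝ) ^ 2 * gmode u v m := by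
        rw [mul_pow]
        ring
    _ ≤ 4 / n * (2.3352 * ((j : ℝ) ^ 2 + 5 / 42)) ^ n / (n.factorial : ℝ) ^ 2 * gmode u v m := by
        gcongr

/-- sum over a symmetric interval of integers -/
lemma sum_symm (t : ℕ) (f : ℕ → ℝ) :
    ∑ m ∈ (Finset.Icc (-(t : ℤ)) t).erase 0, f m.natAbs = ∑ n ∈ Finset.Icc 1 t, 2 * f n := by
  induction t with
  | zero => simp
  | succ t ih =>
    rw [Finset.sum_Icc_succ_top (by omega), ← ih]
    have e : (Finset.Icc (-((t + 1 : ℕ) : ℤ)) ((t + 1 : ℕ) : ℤ)).erase 0 =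
        insert ((t : ℤ) + 1) (insert (-((t : ℤ) + 1)) ((Finset.Icc (-(t : ℤ)) t).erase 0)) := by
      ext m
      simp only [Finset.mem_erase, Finset.mem_Icc, Finset.mem_insert]
      push_cast
      omega
    rw [e, Finset.sum_insert, Finset.sum_insert]
    · have e1 : ((t : ℤ) + 1).natAbs = t + 1 := by omega
      have e2 : (-((t : ℤ) + 1)).natAbs = t + 1 := by omega
      rw [e1, e2]
      ring
    · simp only [Finset.mem_erase, Finset.mem_Icc]
      omega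
    · simp only [Finset.mem_erase, Finset.mem_Icc, Finset.mem_insert]
      omega

lemma sum_seven (t : ℕ) (g : ℕ → ℝ) :
    ∑ n ∈ Finset.Icc 1 t, (if 7 ∣ n then g (n / 7) else 0) = ∑ k ∈ Finset.Icc 1 (t / 7), g k := by
  rw [← Finset.sum_filter]
  refine Finset.sum_nbij' (fun n => n / 7) (fun k => 7 * k) ?_ ?_ ?_ ?_ ?_
  · intro n hn
    simp only [Finset.mem_filter, Finset.mem_Icc] at hn ⊢
    omega
  · intro k hk
    simp only [Finset.mem_filter, Finset.mem_Icc] at hk ⊢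
    omega
  · intro n hn
    simp only [Finset.mem_filter, Finset.mem_Icc] at hn
    omega
  · intro k hk
    omega
  · intro n hn
    rfl

/-- weight of mode `m` -/
noncomputable def HH (J n : ℕ) : ℝ :=
  ∑ j ∈ (Finset.Icc 1 J).filter (fun j => 7 * j ∣ n), 2 * (j : ℝ) * bb j n

lemma HH_nonneg (J n : ℕ) : 0 ≤ HH J n := by
  unfold HH
  refine Finset.sum_nonneg fun j _ => ?_
  have := bb_nonneg j n
  positivity

lemma HH_le (J n : ℕ) (hn : 1 ≤ n) : HH J n ≤ if 7 ∣ n then h7 (n / 7) else 0 := by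
  split_ifs with h6
  · obtain ⟨k, rfl⟩ := h6
    have hk : 7 * k / 7 = k := by omega
    rw [hk]
    unfold HH h7
    have hsub : (Finset.Icc 1 J).filter (fun j => 7 * j ∣ 7 * k) ⊆
        (Finset.Icc 1 k).filter (fun j => j ∣ k) := by
      intro j hj
      simp only [Finset.mem_filter, Finset.mem_Icc] at hj ⊢
      have hjk : j ∣ k := Nat.dvd_of_mul_dvd_mul_left (by norm_num) hj.2
      exact ⟨⟨hj.1.1, Nat.le_of_dvd (by omega) hjk⟩, hjk⟩
    refine (Finset.sum_le_sum_of_subset_of_nonneg hsub ?_).trans (le_of_eq ?_)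
    · intro j _ _
      have := bb_nonneg j (7 * k)
      positivity
    · refine Finset.sum_congr rfl fun j _ => ?_
      unfold bb
      push_cast
      ring
  · unfold HH
    rw [Finset.sum_eq_zero]
    intro j hj
    rw [Finset.mem_filter] at hj
    exact absurd (dvd_trans (dvd_mul_right 7 j) hj.2) h6

lemma HH_sq (t J : ℕ) :
    ∑ m ∈ (Finset.Icc (-(t : ℤ)) t).erase 0, (HH J m.natAbs) ^ 2 ≤ 0.01227 ^ 2 := by
  rw [sum_symm t (fun n => (HH J n) ^ 2)]
  refine le_trans ?_ (h7_num (t / 7))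
  rw [← sum_seven t (fun k => 2 * (h7 k) ^ 2)]
  refine Finset.sum_le_sum fun n hn => ?_
  rw [Finset.mem_Icc] at hn
  have h1 := HH_le J n hn.1
  have h0 := HH_nonneg J n
  split_ifs at h1 ⊢ with h6
  · gcongr
  · have : HH J n = 0 := le_antisymm h1 h0
    rw [this]
    norm_num

end HarmI

open HarmI in
theorem harm_in {t : ℕ} {c : Cf} {p : Poly} {u v : ℤ → Polynomial ℝ} (ht : 10000 ≤ t)
    (hg : Good t c) (hk : HOK c) (h : Modes t p u v) :
    RA c (Finset.Icc 1 c.J1) (fun n z => hsum t n u z) / (c.N : ℝ) ≤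
      0.0573 / (t : ℝ) ^ 2 * √(∑ m ∈ (Finset.Icc (-(t : ℤ)) t).erase 0, gmode u v m) := by
  have hN0 : (0 : ℝ) < c.N := by exact_mod_cast hk.N0
  set S := (Finset.Icc (-(t : ℤ)) t).erase 0 with hS
  -- one ring
  have hring : ∀ j ∈ Finset.Icc 1 c.J1, ∀ z : ℝ, z ^ 2 = (zA c j) ^ 2 →
      hsum t (7 * j) u z ≤ ∑ m ∈ S, (if 7 * j ∣ m.natAbs then bb j m.natAbs else 0) *
        √(gmode u v m) := by
    intro j hj z hz
    unfold hsum
    have hsub : (Finset.Icc (-(t : ℤ)) t).filter (fun m => m ≠ 0 ∧ ((7 * j : ℕ) : ℤ) ∣ m) =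
        S.filter (fun m => 7 * j ∣ m.natAbs) := by
      ext m
      rw [hS]
      simp only [Finset.mem_filter, Finset.mem_erase, Finset.mem_Icc, Int.natCast_dvd]
      tauto
    rw [hsub, Finset.sum_filter]
    refine Finset.sum_le_sum fun m hm => ?_
    rw [hS, Finset.mem_erase, Finset.mem_Icc] at hm
    split_ifs with hd
    · exact term_bound ht hg hk h hj hm.1 (by omega) hz
    · simp
  have hstep : RA c (Finset.Icc 1 c.J1) (fun n z => hsum t n u z) ≤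
      7 * ∑ m ∈ S, HH c.J1 m.natAbs * √(gmode u v m) := by
    unfold RA
    calc ∑ j ∈ Finset.Icc 1 c.J1, 7 * (j : ℝ) *
          (hsum t (7 * j) u (zA c j) + hsum t (7 * j) u (-(zA c j)))
        ≤ ∑ j ∈ Finset.Icc 1 c.J1, 7 * (2 * (j : ℝ) *
          ∑ m ∈ S, (if 7 * j ∣ m.natAbs then bb j m.natAbs else 0) * √(gmode u v m)) := by
          refine Finset.sum_le_sum fun j hj => ?_
          have h1 := hring j hj (zA c j) rfl
          have h2 := hring j hj (-(zA c j)) (by ring)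
          have hj0 : (0 : ℝ) ≤ 7 * (j : ℝ) := by positivity
          calc 7 * (j : ℝ) * (hsum t (7 * j) u (zA c j) + hsum t (7 * j) u (-(zA c j)))
              ≤ 7 * (j : ℝ) * (2 * ∑ m ∈ S, (if 7 * j ∣ m.natAbs then bb j m.natAbs else 0) *
                √(gmode u v m)) := by
                apply mul_le_mul_of_nonneg_left _ hj0
                linarith
            _ = _ := by ring
      _ = 7 * ∑ m ∈ S, HH c.J1 m.natAbs * √(gmode u v m) := by
          rw [← Finset.mul_sum]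
          congr 1
          unfold HH
          simp_rw [Finset.mul_sum, Finset.sum_mul]
          rw [Finset.sum_comm]
          refine Finset.sum_congr rfl fun m _ => ?_
          rw [Finset.sum_filter]
          refine Finset.sum_congr rfl fun j _ => ?_
          split_ifs
          · ring
          · ring
  have hcs : ∑ m ∈ S, HH c.J1 m.natAbs * √(gmode u v m) ≤ 0.01227 * √(∑ m ∈ S, gmode u v m) := by
    have h1 := Finset.sum_mul_sq_le_sq_mul_sq S (fun m => HH c.J1 m.natAbs) (fun m => √(gmode u v m))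
    have h2 : ∑ m ∈ S, √(gmode u v m) ^ 2 = ∑ m ∈ S, gmode u v m :=
      Finset.sum_congr rfl fun m _ => Real.sq_sqrt (gmode_nonneg u v m)
    have h3 := HH_sq t c.J1
    have h4 : 0 ≤ ∑ m ∈ S, gmode u v m := Finset.sum_nonneg fun m _ => gmode_nonneg u v m
    rw [h2] at h1
    apply abs_le_of_sq_le_sq' _ (by positivity) |>.2
    calc (∑ m ∈ S, HH c.J1 m.natAbs * √(gmode u v m)) ^ 2
        ≤ (∑ m ∈ S, HH c.J1 m.natAbs ^ 2) * ∑ m ∈ S, gmode u v m := h1
      _ ≤ 0.01227 ^ 2 * ∑ m ∈ S, gmode u v m := by gcongr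
      _ = (0.01227 * √(∑ m ∈ S, gmode u v m)) ^ 2 := by rw [mul_pow, Real.sq_sqrt h4]
  have ht0 : (0 : ℝ) < t := by
    have : (10000 : ℝ) ≤ t := by exact_mod_cast ht
    linarith
  have hlo := hg.lo
  set G := √(∑ m ∈ S, gmode u v m) with hG
  have hG0 : 0 ≤ G := Real.sqrt_nonneg _
  rw [div_le_iff₀ hN0]
  have h5 : 0.0573 * 1.5 * G ≤ 0.0573 / (t : ℝ) ^ 2 * G * (c.N : ℝ) := by
    have e : 0.0573 / (t : ℝ) ^ 2 * G * (c.N : ℝ) = 0.0573 * G * ((c.N : ℝ) / (t : ℝ) ^ 2) := by ring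
    rw [e]
    have h6 : 1.5 ≤ (c.N : ℝ) / (t : ℝ) ^ 2 := by
      rw [le_div_iff₀ (by positivity)]
      exact hlo
    nlinarith
  calc RA c (Finset.Icc 1 c.J1) (fun n z => hsum t n u z)
      ≤ 7 * ∑ m ∈ S, HH c.J1 m.natAbs * √(gmode u v m) := hstep
    _ ≤ 7 * (0.01227 * G) := by gcongr
    _ ≤ 0.0573 * 1.5 * G := by nlinarith
    _ ≤ 0.0573 / (t : ℝ) ^ 2 * G * (c.N : ℝ) := h5

end Pool.Agent.Helper83.SE
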