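import Pool.Agent.Helper83.SE.OutE
import Pool.Agent.Helper83.SE.CfgO
import Pool.Agent.Helper83.SE.NumH2

/-!
Project SE, module HarmO: the harmonic error of the other rings is negligible.

Rings of zone 2 and of the plateau satisfy `OutR`; `hsum` contains modes `m ≠ 0`, `n ∣ m`, so
`|m| ≥ n`; `√(1-z^2)^|m| |u_m(z)| ≤ Fm u v m z ≤ |m| Fm`, `out_full`; at most `2t+1` modes, weights add
up to at most `N`.
-/

set_option autoImplicit false

open MeasureTheory Real Pool.Agent.Helper83.SD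

namespace Pool.Agent.Helper83.SE

theorem HarmO_term_le (u v : ℤ → Polynomial ℝ) (m : ℤ) {z : ℝ} (hz : z ^ 2 ≤ 1) :
    √(1 - z ^ 2) ^ m.natAbs * |(u m).eval z| ≤ Fm u v m z := by
  have h0 : 0 ≤ 1 - z ^ 2 := by linarith
  unfold Fm
  apply Real.le_sqrt_of_sq_le
  have h1 : (√(1 - z ^ 2) ^ m.natAbs * |(u m).eval z|) ^ 2
      = (1 - z ^ 2) ^ m.natAbs * ((u m).eval z) ^ 2 := by
    rw [mul_pow, sq_abs, ← pow_mul, mul_comm m.natAbs 2, pow_mul, Real.sq_sqrt h0]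
  rw [h1]
  have h2 : 0 ≤ (1 - z ^ 2) ^ m.natAbs := pow_nonneg h0 _
  have h3 : 0 ≤ ((v m).eval z) ^ 2 := sq_nonneg _
  nlinarith [mul_nonneg h2 h3]

theorem HarmO_hsum_le {t n : ℕ} {p : Poly} {u v : ℤ → Polynomial ℝ} (hp : p.totalDegree ≤ t)
    (h : Modes t p u v) {z : ℝ} (ho : OutR t n z) :
    hsum t n u z ≤ (2 * (t : ℝ) + 1) * (√((2 * (t : ℝ) + 1) * ((t : ℝ) + 1) ^ 2 *
      Real.exp (-(0.03 * (t : ℝ)))) * √(en p)) := by
  set K : ℝ := √((2 * (t : ℝ) + 1) * ((t : ℝ) + 1) ^ 2 *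
      Real.exp (-(0.03 * (t : ℝ)))) * √(en p) with hK
  have hK0 : 0 ≤ K := by positivity
  have ha : 0 ≤ (2 * (t : ℝ) + 1) * ((t : ℝ) + 1) ^ 2 * Real.exp (-(0.03 * (t : ℝ))) := by
    positivity
  have hterm : ∀ m ∈ (Finset.Icc (-(t : ℤ)) t).filter (fun m => m ≠ 0 ∧ (n : ℤ) ∣ m),
      √(1 - z ^ 2) ^ m.natAbs * |(u m).eval z| ≤ K := by
    intro m hm
    obtain ⟨_, hm0, hmd⟩ := Finset.mem_filter.mp hm
    have h1 : (n : ℤ) ≤ |m| := by
      have := Int.le_of_dvd (abs_pos.mpr hm0) ((dvd_abs _ _).mpr hmd)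
      exact this
    have h2 : (n : ℝ) ≤ |(m : ℝ)| := by
      have h3 : ((n : ℤ) : ℝ) ≤ ((|m| : ℤ) : ℝ) := by exact_mod_cast h1
      rwa [Int.cast_abs, Int.cast_natCast] at h3
    have h4 := out_full hp h ho m h2
    have h5 : |(m : ℝ) * Fm u v m z| ≤ K := by
      rw [hK, ← Real.sqrt_mul ha]
      exact Real.abs_le_sqrt h4
    have hF0 : 0 ≤ Fm u v m z := by unfold Fm; exact Real.sqrt_nonneg _
    have h6 : (1 : ℝ) ≤ |(m : ℝ)| := by
      have h7 : (1 : ℤ) ≤ |m| := Int.one_le_abs hm0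
      have h8 : ((1 : ℤ) : ℝ) ≤ ((|m| : ℤ) : ℝ) := by exact_mod_cast h7
      rwa [Int.cast_abs, Int.cast_one] at h8
    have h9 : Fm u v m z ≤ |(m : ℝ) * Fm u v m z| := by
      rw [abs_mul, abs_of_nonneg hF0]
      nlinarith
    exact (HarmO_term_le u v m ho.z1).trans (h9.trans h5)
  unfold hsum
  refine (Finset.sum_le_card_nsmul _ _ K hterm).trans ?_
  rw [nsmul_eq_mul]
  have hc : (((Finset.Icc (-(t : ℤ)) t).filter (fun m => m ≠ 0 ∧ (n : ℤ) ∣ m)).card : ℝ)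
      ≤ 2 * (t : ℝ) + 1 := by
    have h1 := Finset.card_filter_le (Finset.Icc (-(t : ℤ)) t) (fun m => m ≠ 0 ∧ (n : ℤ) ∣ m)
    have h2 : (Finset.Icc (-(t : ℤ)) t).card = 2 * t + 1 := by
      rw [Int.card_Icc]; omega
    rw [h2] at h1
    have h3 : (((Finset.Icc (-(t : ℤ)) t).filter (fun m => m ≠ 0 ∧ (n : ℤ) ∣ m)).card : ℝ)
      ≤ ((2 * t + 1 : ℕ) : ℝ) := by exact_mod_cast h1
    refine h3.trans (le_of_eq ?_)
    push_cast; ring
  exact mul_le_mul_of_nonneg_right hc hK0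

theorem HarmO_small {t : ℝ} (ht : 108 * 479001600 * (100 / 3) ^ 12 ≤ t) :
    (2 * t + 1) * √((2 * t + 1) * (t + 1) ^ 2 * Real.exp (-(0.03 * t))) ≤ 1 / t ^ 3 := by
  have ht1 : 1 ≤ t := le_trans (by norm_num) ht
  have ht0 : 0 < t := by linarith
  have hexp : (0.03 * t) ^ 12 / 479001600 ≤ Real.exp (0.03 * t) := by
    have := Real.pow_div_factorial_le_exp (0.03 * t) (by positivity) 12
    have h12 : ((Nat.factorial 12 : ℕ) : ℝ) = 479001600 := by norm_num [Nat.factorial]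
    rwa [h12] at this
  have hE : Real.exp (-(0.03 * t)) ≤ 479001600 / (0.03 * t) ^ 12 := by
    rw [Real.exp_neg, inv_eq_one_div, div_le_div_iff₀ (Real.exp_pos _) (by positivity)]
    have := (div_le_iff₀ (by norm_num : (0 : ℝ) < 479001600)).mp hexp
    linarith
  have hkey : (2 * t + 1) * (t + 1) ^ 2 * Real.exp (-(0.03 * t)) ≤
      (1 / (t ^ 3 * (2 * t + 1))) ^ 2 := by
    have h1 : (2 * t + 1) * (t + 1) ^ 2 * Real.exp (-(0.03 * t)) ≤
        (3 * t) * (2 * t) ^ 2 * (479001600 / (0.03 * t) ^ 12) := by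
      gcongr <;> linarith
    have h2 : (1 / (t ^ 3 * (3 * t))) ^ 2 ≤ (1 / (t ^ 3 * (2 * t + 1))) ^ 2 := by
      gcongr; linarith
    refine h1.trans (le_trans ?_ h2)
    have h3 : (3 * t) * (2 * t) ^ 2 * (479001600 / (0.03 * t) ^ 12)
        = (12 * 479001600 * (100 / 3) ^ 12) / t ^ 9 := by
      field_simp
      ring
    have h4 : (1 / (t ^ 3 * (3 * t))) ^ 2 = (1 / 9) / t ^ 8 := by
      field_simp
      norm_num
    rw [h3, h4, div_le_div_iff₀ (by positivity) (by positivity)]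
    have h5 : 0 < t ^ 8 := by positivity
    have h6 : t ^ 9 = t ^ 8 * t := by ring
    rw [h6]
    nlinarith [mul_le_mul_of_nonneg_left ht h5.le]
  have h7 : √((2 * t + 1) * (t + 1) ^ 2 * Real.exp (-(0.03 * t))) ≤
      1 / (t ^ 3 * (2 * t + 1)) := by
    refine (Real.sqrt_le_sqrt hkey).trans (le_of_eq ?_)
    exact Real.sqrt_sq (by positivity)
  calc (2 * t + 1) * √((2 * t + 1) * (t + 1) ^ 2 * Real.exp (-(0.03 * t)))
      ≤ (2 * t + 1) * (1 / (t ^ 3 * (2 * t + 1))) := by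
        apply mul_le_mul_of_nonneg_left h7; positivity
    _ = 1 / t ^ 3 := by field_simp

theorem harm_out : ∃ T0 : ℝ, ∀ (t : ℕ) (c : Cf) (p : Poly) (u v : ℤ → Polynomial ℝ),
    T0 ≤ (t : ℝ) → Good t c → p.totalDegree ≤ t → Modes t p u v →
    HC t c u ≤ RA c (Finset.Icc 1 c.J1) (fun n z => hsum t n u z) / (c.N : ℝ)
      + 1 / (t : ℝ) ^ 3 * √(en p) := by
  obtain ⟨TB, hTB⟩ := cfg_B
  obtain ⟨TC, hTC⟩ := cfg_CD
  refine ⟨max (max TB TC) (108 * 479001600 * (100 / 3) ^ 12), ?_⟩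
  intro t c p u v ht hg hp hm
  have htB : TB ≤ (t : ℝ) := le_trans (le_trans (le_max_left _ _) (le_max_left _ _)) ht
  have htC : TC ≤ (t : ℝ) := le_trans (le_trans (le_max_right _ _) (le_max_left _ _)) ht
  have htS : (108 * 479001600 * (100 / 3) ^ 12 : ℝ) ≤ (t : ℝ) := le_trans (le_max_right _ _) ht
  have ht1 : (1 : ℝ) ≤ (t : ℝ) := le_trans (by norm_num) htS
  have hB := hTB t c htB hg
  obtain ⟨hC, hD⟩ := hTC t c htC hg
  set K : ℝ := (2 * (t : ℝ) + 1) * (√((2 * (t : ℝ) + 1) * ((t : ℝ) + 1) ^ 2 *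
      Real.exp (-(0.03 * (t : ℝ)))) * √(en p)) with hK
  have hK0 : 0 ≤ K := by positivity
  have hN : (0 : ℝ) < (c.N : ℝ) := by
    have := hg.lo
    nlinarith
  have hRB : RB c (fun n z => hsum t n u z) ≤ K * RB c (fun _ _ => 1) := by
    unfold RB
    rw [Finset.mul_sum]
    apply Finset.sum_le_sum
    intro i hi
    have ho := (hB i (Finset.mem_range.mp hi)).2
    have h1 := HarmO_hsum_le hp hm ho
    have h2 := HarmO_hsum_le hp hm (outR_neg ho)
    have h3 : (0 : ℝ) ≤ 7 * (c.J1 : ℝ) + 5 * ((i : ℝ) + 1) := by positivity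
    have h4 := mul_le_mul_of_nonneg_left (add_le_add h1 h2) h3
    refine h4.trans (le_of_eq ?_)
    rw [hK]; ring
  have hRC : RC c (fun n z => hsum t n u z) ≤ K * RC c (fun _ _ => 1) := by
    unfold RC
    rw [Finset.mul_sum]
    apply Finset.sum_le_sum
    intro i hi
    have ho := (hC i (Finset.mem_range.mp hi)).2
    have h1 := HarmO_hsum_le hp hm ho
    have h3 : (0 : ℝ) ≤ (c.n : ℝ) + 1 := by positivity
    have h4 := mul_le_mul_of_nonneg_left h1 h3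
    refine h4.trans (le_of_eq ?_)
    rw [hK]; ring
  have hRD : RD c (fun n z => hsum t n u z) ≤ K * RD c (fun _ _ => 1) := by
    unfold RD
    rw [Finset.mul_sum]
    apply Finset.sum_le_sum
    intro i hi
    have ho := (hD i (Finset.mem_range.mp hi)).2
    have h1 := HarmO_hsum_le hp hm ho
    have h3 : (0 : ℝ) ≤ (c.n : ℝ) := by positivity
    have h4 := mul_le_mul_of_nonneg_left h1 h3
    refine h4.trans (le_of_eq ?_)
    rw [hK]; ring
  have hone := RS_one c hg.lR hg.cnt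
  have hRA1 : 0 ≤ RA c (Finset.Icc 1 c.J1) (fun _ _ => 1) := by
    unfold RA
    apply Finset.sum_nonneg
    intro j _
    positivity
  have hsum1 : RB c (fun _ _ => 1) + RC c (fun _ _ => 1) + RD c (fun _ _ => 1) ≤ (c.N : ℝ) := by
    unfold RS at hone
    linarith
  have htot : RB c (fun n z => hsum t n u z) + RC c (fun n z => hsum t n u z)
      + RD c (fun n z => hsum t n u z) ≤ K * (c.N : ℝ) := by
    have := mul_le_mul_of_nonneg_left hsum1 hK0
    linarith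
  have hKs : K ≤ 1 / (t : ℝ) ^ 3 * √(en p) := by
    have h1 := HarmO_small htS
    have h2 : 0 ≤ √(en p) := Real.sqrt_nonneg _
    calc K = ((2 * (t : ℝ) + 1) * √((2 * (t : ℝ) + 1) * ((t : ℝ) + 1) ^ 2 *
      Real.exp (-(0.03 * (t : ℝ))))) * √(en p) := by rw [hK]; ring
      _ ≤ 1 / (t : ℝ) ^ 3 * √(en p) := mul_le_mul_of_nonneg_right h1 h2
  have hfin : HC t c u = RA c (Finset.Icc 1 c.J1) (fun n z => hsum t n u z) / (c.N : ℝ)
      + (RB c (fun n z => hsum t n u z) + RC c (fun n z => hsum t n u z)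
      + RD c (fun n z => hsum t n u z)) / (c.N : ℝ) := by
    unfold HC RS
    ring
  rw [hfin]
  have h5 : (RB c (fun n z => hsum t n u z) + RC c (fun n z => hsum t n u z)
      + RD c (fun n z => hsum t n u z)) / (c.N : ℝ) ≤ K := by
    rw [div_le_iff₀ hN]
    exact htot
  linarith

end Pool.Agent.Helper83.SE
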