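import Pool.Agent.Helper83.SE.Defs
import Pool.Agent.Helper83.SD.Mode

/-!
Project SE, module Expd: Cauchy-Schwarz in the basis of Legendre derivatives.

`g = Σ_{l=m}^t c_l Y l m` (`Mode.expand`, as in the proof of `mode_bound`), `nrm m g =
Σ c_l^2 nrm m (Y l m)` (`Mode.nrm_sum`), `nrm m (Y l m) = (l+m)!/((2l+1)(l-m)!)`.  Energy version:
`nrm 1 g' = Σ_{l ≥ 1} c_l^2 l(l+1)/(2l+1)` (`g' = Σ c_l Y l 1`), `Φ g = Σ_{l≥1} c_l Φ(P_l)`.
`sum_lam`: `Mode.sum_le` with `m = 0`.
`sum_rpow`: `(2l+1)(l(l+1))^β ≤ 2x x^{2β}` with `x = l + 1/2`, and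
`2 x^{2β+1} ≤ ∫_l^{l+1} 2 s^{2β+1} ds = ((l+1)^{2β+2} - l^{2β+2})/(β+1)` (midpoint rule for a convex
function).
-/

set_option autoImplicit false

open MeasureTheory Real Pool.Agent.Helper83.SD

namespace Pool.Agent.Helper83.SE

namespace ExpdAux

open LegAux Mode

/-- norm of a Legendre derivative -/
lemma nrm_Y {m l : ℕ} (h : m ≤ l) : nrm m (Y l m) =
    ((l + m).factorial : ℝ) / ((2 * (l : ℝ) + 1) * ((l - m).factorial : ℝ)) := by
  have h1 := I_diag h
  have h2 := I_norm l
  have h3 : nrm m (Y l m) = 1 / 2 * I m l l := by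
    rw [nrm, I_eq]
    congr 1
    refine intervalIntegral.integral_congr fun z _ => ?_
    beta_reduce
    ring
  have h4 : ((l - m).factorial : ℝ) ≠ 0 := by positivity
  have h5 : (2 * (l : ℝ) + 1) ≠ 0 := by positivity
  rw [h3, eq_div_iff (mul_ne_zero h5 h4)]
  linear_combination 1 / 2 * (2 * (l : ℝ) + 1) * h1 +
    1 / 2 * ((l + m).factorial : ℝ) * h2

lemma Pl_ne (l : ℕ) : Pl l ≠ 0 := by
  intro h
  have h1 := I_norm l
  have h2 : I 0 l l = 0 := by
    rw [I_eq, Y_zero, h]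
    simp
  rw [h2, zero_mul] at h1
  norm_num at h1

/-- expansion in Legendre derivatives -/
lemma expand_Y {t m : ℕ} (hm : m ≤ t) {g : Polynomial ℝ} (hg : g.natDegree ≤ t - m) :
    ∃ c : ℕ → ℝ, g = ∑ l ∈ Finset.range (t - m + 1), Polynomial.C (c l) * Y (m + l) m := by
  have hQd : ∀ l, (Y (m + l) m).natDegree ≤ l := by
    intro l
    refine (Polynomial.natDegree_iterate_derivative _ _).trans ?_
    rw [natDegree_Pl]
    omega
  have hQ0 : ∀ l, (Y (m + l) m).coeff l ≠ 0 := by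
    intro l
    rw [Y, Polynomial.coeff_iterate_derivative, nsmul_eq_mul]
    refine mul_ne_zero ?_ ?_
    · have h1 : (l + m).descFactorial m ≠ 0 := by
        rw [Ne, Nat.descFactorial_eq_zero_iff_lt]
        omega
      exact_mod_cast h1
    · have h2 : l + m = (Pl (m + l)).natDegree := by
        rw [natDegree_Pl]
        omega
      rw [h2, Polynomial.coeff_natDegree]
      exact Polynomial.leadingCoeff_ne_zero.2 (Pl_ne _)
  exact expand m (fun l => Y (m + l) m) hQd hQ0 (t - m) g hg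

lemma lin_sum (Φ : Polynomial ℝ →ₗ[ℝ] ℝ) (Q : ℕ → Polynomial ℝ) (c : ℕ → ℝ) (n : ℕ) :
    Φ (∑ l ∈ Finset.range n, Polynomial.C (c l) * Q l) =
      ∑ l ∈ Finset.range n, c l * Φ (Q l) := by
  rw [map_sum]
  refine Finset.sum_congr rfl fun l _ => ?_
  rw [← Polynomial.smul_eq_C_mul, map_smul, smul_eq_mul]

/-- convexity of sinh -/
lemma sinh_mul {c : ℝ} (hc : 1 ≤ c) {x : ℝ} (hx : 0 ≤ x) : c * sinh x ≤ sinh (c * x) := by
  have hd : ∀ y : ℝ, HasDerivAt (fun y => sinh (c * y) - c * sinh y)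
      (cosh (c * y) * (c * 1) - c * cosh y) y := by
    intro y
    exact (((hasDerivAt_id y).const_mul c).sinh).sub ((Real.hasDerivAt_sinh y).const_mul c)
  have hmono : MonotoneOn (fun y => sinh (c * y) - c * sinh y) (Set.Ici 0) := by
    refine monotoneOn_of_deriv_nonneg (convex_Ici 0)
      (fun y _ => (hd y).continuousAt.continuousWithinAt)
      (fun y _ => (hd y).differentiableAt.differentiableWithinAt) fun y hy => ?_
    rw [interior_Ici] at hy
    rw [(hd y).deriv]
    have hy0 : 0 < y := hy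
    have h1 : cosh y ≤ cosh (c * y) := by
      rw [Real.cosh_le_cosh, abs_of_pos hy0, abs_of_nonneg (by positivity)]
      nlinarith
    nlinarith
  have h := hmono (Set.mem_Ici.2 le_rfl) (Set.mem_Ici.2 hx) hx
  simp only [mul_zero, sinh_zero, sub_zero] at h
  linarith

/-- one step of `sum_rpow` -/
lemma rpow_step (l : ℕ) {β : ℝ} (hβ : 0 ≤ β) :
    (2 * (l : ℝ) + 1) * (lam l) ^ β * (β + 1) ≤
      (((l : ℝ) + 1) ^ 2) ^ (β + 1) - ((l : ℝ) ^ 2) ^ (β + 1) := by
  rcases Nat.eq_zero_or_pos l with rfl | hl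
  · have h1 : (lam 0) ^ β * (β + 1) ≤ 1 := by
      unfold lam
      rcases hβ.eq_or_lt with h | h
      · rw [← h]
        simp
      · rw [Nat.cast_zero, zero_mul, Real.zero_rpow h.ne']
        simp
    have h2 : ((((0 : ℕ) : ℝ)) ^ 2) ^ (β + 1) = 0 := by
      rw [Nat.cast_zero]
      simp only [ne_eq, OfNat.ofNat_ne_zero, not_false_eq_true, zero_pow]
      exact Real.zero_rpow (by linarith)
    rw [h2]
    simp only [Nat.cast_zero, mul_zero, zero_add, one_mul, one_pow, Real.one_rpow, sub_zero]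
    exact h1
  · have hl0 : (0 : ℝ) < l := by exact_mod_cast hl
    have hl1 : (0 : ℝ) < (l : ℝ) + 1 := by positivity
    obtain ⟨u, hu⟩ : ∃ u, exp u = (l : ℝ) := ⟨log l, Real.exp_log hl0⟩
    obtain ⟨v, hv⟩ : ∃ v, exp v = (l : ℝ) + 1 := ⟨log (l + 1), Real.exp_log hl1⟩
    have huv : u ≤ v := by
      rw [← Real.exp_le_exp, hu, hv]
      linarith
    have e1 : (2 * (l : ℝ) + 1) = exp (u + v) * (2 * sinh (v - u)) := by
      rw [Real.sinh_eq]
      have : exp (u + v) * (2 * ((exp (v - u) - exp (-(v - u))) / 2)) =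
          exp (u + v) * exp (v - u) - exp (u + v) * exp (-(v - u)) := by ring
      rw [this, ← Real.exp_add, ← Real.exp_add]
      have a1 : u + v + (v - u) = v + v := by ring
      have a2 : u + v + (-(v - u)) = u + u := by ring
      rw [a1, a2, Real.exp_add, Real.exp_add, hu, hv]
      ring
    have e2 : (lam l) ^ β = exp (β * (u + v)) := by
      have : lam l = exp (u + v) := by
        rw [Real.exp_add, hu, hv, lam]
      rw [this, ← Real.exp_mul, mul_comm]
    have e3 : (((l : ℝ) + 1) ^ 2) ^ (β + 1) = exp ((β + 1) * (u + v)) * exp ((β + 1) * (v - u)) := by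
      have : ((l : ℝ) + 1) ^ 2 = exp (2 * v) := by
        rw [two_mul, Real.exp_add, hv, sq]
      rw [this, ← Real.exp_mul, ← Real.exp_add]
      congr 1
      ring
    have e4 : ((l : ℝ) ^ 2) ^ (β + 1) =
        exp ((β + 1) * (u + v)) * exp (-((β + 1) * (v - u))) := by
      have : (l : ℝ) ^ 2 = exp (2 * u) := by
        rw [two_mul, Real.exp_add, hu, sq]
      rw [this, ← Real.exp_mul, ← Real.exp_add]
      congr 1
      ring
    have e5 : exp ((β + 1) * (u + v)) = exp (u + v) * exp (β * (u + v)) := by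
      rw [← Real.exp_add]
      congr 1
      ring
    have h1 := sinh_mul (c := β + 1) (by linarith) (x := v - u) (by linarith)
    have e6 : sinh ((β + 1) * (v - u)) =
        (exp ((β + 1) * (v - u)) - exp (-((β + 1) * (v - u)))) / 2 := Real.sinh_eq _
    rw [e1, e2, e3, e4, ← mul_sub]
    have e7 : exp ((β + 1) * (v - u)) - exp (-((β + 1) * (v - u))) =
        2 * sinh ((β + 1) * (v - u)) := by
      rw [e6]
      ring
    rw [e7, e5]
    have hp : 0 < exp (u + v) * exp (β * (u + v)) := by positivity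
    have h2 := mul_le_mul_of_nonneg_left h1 hp.le
    linarith

end ExpdAux

open ExpdAux

theorem cs_modes {t m : ℕ} (hm : m ≤ t) {g : Polynomial ℝ} (hg : g.natDegree ≤ t - m)
    (Φ : Polynomial ℝ →ₗ[ℝ] ℝ) :
    (Φ g) ^ 2 ≤ nrm m g * ∑ l ∈ Finset.Icc m t, (2 * (l : ℝ) + 1) *
      (((l - m).factorial : ℝ) / ((l + m).factorial : ℝ)) * (Φ (LegAux.Y l m)) ^ 2 := by
  obtain ⟨c, hc⟩ := expand_Y hm hg
  have hort : ∀ l k, l ≠ k → ∫ z in (-1 : ℝ)..1, (1 - z ^ 2) ^ m *
      ((LegAux.Y (m + l) m).eval z * (LegAux.Y (m + k) m).eval z) = 0 := by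
    intro l k hlk
    rw [← LegAux.I_eq]
    exact LegAux.I_ne m (by omega)
  have hn : nrm m g = ∑ l ∈ Finset.range (t - m + 1), c l ^ 2 * nrm m (LegAux.Y (m + l) m) := by
    conv_lhs => rw [hc]
    exact Mode.nrm_sum m (fun l => LegAux.Y (m + l) m) hort c _
  have hΦ : Φ g = ∑ l ∈ Finset.range (t - m + 1), c l * Φ (LegAux.Y (m + l) m) := by
    conv_lhs => rw [hc]
    exact lin_sum Φ (fun l => LegAux.Y (m + l) m) c _
  have hIcc : ∑ l ∈ Finset.Icc m t, (2 * (l : ℝ) + 1) *
      (((l - m).factorial : ℝ) / ((l + m).factorial : ℝ)) * (Φ (LegAux.Y l m)) ^ 2 =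
      ∑ l ∈ Finset.range (t - m + 1), (2 * ((m + l : ℕ) : ℝ) + 1) *
      (((m + l - m).factorial : ℝ) / ((m + l + m).factorial : ℝ)) *
        (Φ (LegAux.Y (m + l) m)) ^ 2 := by
    have e1 : Finset.Icc m t = Finset.Ico m (t + 1) := by
      ext x
      simp only [Finset.mem_Icc, Finset.mem_Ico]
      omega
    have e2 : t - m + 1 = t + 1 - m := by omega
    rw [e1, Finset.sum_Ico_eq_sum_range, e2]
  rw [hIcc, hn, hΦ]
  refine Finset.sum_sq_le_sum_mul_sum_of_sq_le_mul _ (fun l _ => ?_) (fun l _ => ?_)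
    fun l _ => ?_
  · exact mul_nonneg (sq_nonneg _) (nrm_nonneg _ _)
  · positivity
  · rw [nrm_Y (Nat.le_add_right m l)]
    have h1 : ((m + l - m).factorial : ℝ) ≠ 0 := by positivity
    have h2 : ((m + l + m).factorial : ℝ) ≠ 0 := by positivity
    have h3 : (2 * ((m + l : ℕ) : ℝ) + 1) ≠ 0 := by positivity
    refine le_of_eq ?_
    field_simp

theorem cs_energy {t : ℕ} {g : Polynomial ℝ} (hg : g.natDegree ≤ t)
    (Φ : Polynomial ℝ →ₗ[ℝ] ℝ) (h1 : Φ 1 = 0) :
    (Φ g) ^ 2 ≤ nrm 1 (Polynomial.derivative g) * ∑ l ∈ Finset.Icc 1 t,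
      (2 * (l : ℝ) + 1) / lam l * (Φ (LegAux.Pl l)) ^ 2 := by
  obtain ⟨c, hc⟩ := expand_Y (t := t) (m := 0) (Nat.zero_le _) (g := g) (by simpa using hg)
  simp only [Nat.sub_zero, zero_add, LegAux.Y_zero] at hc
  have hg' : Polynomial.derivative g =
      ∑ l ∈ Finset.range (t + 1), Polynomial.C (c l) * LegAux.Y l 1 := by
    conv_lhs => rw [hc]
    rw [Polynomial.derivative_sum]
    refine Finset.sum_congr rfl fun l _ => ?_
    rw [Polynomial.derivative_C_mul, ← LegAux.Y_zero, LegAux.Y_succ]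
  have hort : ∀ l k, l ≠ k → ∫ z in (-1 : ℝ)..1, (1 - z ^ 2) ^ 1 *
      ((LegAux.Y l 1).eval z * (LegAux.Y k 1).eval z) = 0 := by
    intro l k hlk
    rw [← LegAux.I_eq]
    exact LegAux.I_ne 1 hlk
  have hn : nrm 1 (Polynomial.derivative g) =
      ∑ l ∈ Finset.range (t + 1), c l ^ 2 * nrm 1 (LegAux.Y l 1) := by
    rw [hg']
    exact Mode.nrm_sum 1 (fun l => LegAux.Y l 1) hort c _
  have hΦ : Φ g = ∑ l ∈ Finset.range (t + 1), c l * Φ (LegAux.Pl l) := by
    conv_lhs => rw [hc]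
    exact lin_sum Φ LegAux.Pl c _
  have hIcc : ∑ l ∈ Finset.Icc 1 t, (2 * (l : ℝ) + 1) / lam l * (Φ (LegAux.Pl l)) ^ 2 =
      ∑ l ∈ Finset.range (t + 1), (2 * (l : ℝ) + 1) / lam l * (Φ (LegAux.Pl l)) ^ 2 := by
    refine Finset.sum_subset ?_ ?_
    · intro x hx
      simp only [Finset.mem_Icc, Finset.mem_range] at hx ⊢
      omega
    · intro x hx hx'
      simp only [Finset.mem_Icc, Finset.mem_range] at hx hx'
      have : x = 0 := by omega
      rw [this]
      simp [lam]
  have hP0 : Φ (LegAux.Pl 0) = 0 := by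
    have h2 : (LegAux.Pl 0) = Polynomial.C ((LegAux.Pl 0).coeff 0) :=
      Polynomial.eq_C_of_natDegree_eq_zero (LegAux.natDegree_Pl 0)
    rw [h2, ← mul_one (Polynomial.C _), ← Polynomial.smul_eq_C_mul, map_smul, h1, smul_zero]
  rw [hIcc, hn, hΦ]
  refine Finset.sum_sq_le_sum_mul_sum_of_sq_le_mul _ (fun l _ => ?_) (fun l _ => ?_)
    fun l _ => ?_
  · exact mul_nonneg (sq_nonneg _) (nrm_nonneg _ _)
  · have := lam_nonneg l
    positivity
  · rcases Nat.eq_zero_or_pos l with rfl | hl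
    · rw [hP0]
      simp
    · have hf : ((l + 1).factorial : ℝ) = ((l : ℝ) + 1) * (l * ((l - 1).factorial : ℝ)) := by
        obtain ⟨k, rfl⟩ : ∃ k, l = k + 1 := ⟨l - 1, by omega⟩
        rw [Nat.factorial_succ, Nat.factorial_succ, Nat.add_sub_cancel]
        push_cast
        ring
      rw [nrm_Y hl, hf, lam]
      have h2 : ((l - 1).factorial : ℝ) ≠ 0 := by positivity
      have h3 : (2 * (l : ℝ) + 1) ≠ 0 := by positivity
      have h4 : (l : ℝ) ≠ 0 := by positivity
      have h5 : ((l : ℝ) + 1) ≠ 0 := by positivity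
      refine le_of_eq ?_
      field_simp

theorem sum_lam (t k : ℕ) :
    ∑ l ∈ Finset.range (t + 1), (2 * (l : ℝ) + 1) * (lam l) ^ k ≤
      (((t : ℝ) + 1) ^ 2) ^ (k + 1) / ((k : ℝ) + 1) := by
  have h := Mode.sum_le 0 t k
  simp only [zero_add] at h
  exact h

theorem sum_rpow (t : ℕ) {β : ℝ} (hβ : 0 ≤ β) :
    ∑ l ∈ Finset.range (t + 1), (2 * (l : ℝ) + 1) * (lam l) ^ β ≤
      (((t : ℝ) + 1) ^ 2) ^ (β + 1) / (β + 1) := by
  have hk : (0 : ℝ) < β + 1 := by positivity
  rw [le_div_iff₀ hk, Finset.sum_mul]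
  refine (Finset.sum_le_sum fun l _ => rpow_step l hβ).trans ?_
  have h1 := Finset.sum_range_sub (fun l : ℕ => ((l : ℝ) ^ 2) ^ (β + 1)) (t + 1)
  push_cast at h1
  rw [h1]
  have h2 : (0 : ℝ) ≤ ((0 : ℝ) ^ 2) ^ (β + 1) := Real.rpow_nonneg (by positivity) _
  linarith

/-- `L1 -> L∞` bound -/
theorem nikolskii {d : ℕ} {B : Polynomial ℝ} (hB : B.natDegree ≤ d) {z : ℝ} (hz : z ^ 2 ≤ 1) :
    |B.eval z| ≤ ((d : ℝ) + 1) ^ 2 * ((1 / 2) * ∫ x in (-1 : ℝ)..1, |B.eval x|) := by
  obtain ⟨c, hc⟩ := expand_Y (t := d) (m := 0) (Nat.zero_le _) (g := B) (by simpa using hB)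
  simp only [Nat.sub_zero, zero_add, LegAux.Y_zero] at hc
  have hsup : ∀ (l : ℕ) (x : ℝ), x ^ 2 ≤ 1 → |(LegAux.Pl l).eval x| ≤ 1 := by
    intro l x hx
    have h1 := LegAux.sup_bound (Nat.zero_le l) hx
    have h2 : LegAux.v1 l 0 = 1 := by
      unfold LegAux.v1
      have h3 : (l.factorial : ℝ) ≠ 0 := by positivity
      simp only [add_zero, pow_zero, Nat.factorial_zero, Nat.cast_one, mul_one, Nat.sub_zero,
        one_mul]
      exact div_self h3
    rwa [h2, LegAux.Y_zero] at h1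
  have hcoef : ∀ l ∈ Finset.range (d + 1),
      |c l| ≤ (2 * (l : ℝ) + 1) * ((1 / 2) * ∫ x in (-1 : ℝ)..1, |B.eval x|) := by
    intro l hl
    have hI : ∫ x in (-1 : ℝ)..1, B.eval x * (LegAux.Pl l).eval x =
        c l * LegAux.I 0 l l := by
      have h1 : ∀ x : ℝ, B.eval x * (LegAux.Pl l).eval x =
          ∑ k ∈ Finset.range (d + 1), c k * ((1 - x ^ 2) ^ 0 *
            ((LegAux.Y k 0).eval x * (LegAux.Y l 0).eval x)) := by
        intro x
        conv_lhs => rw [hc]
        rw [Polynomial.eval_finset_sum, Finset.sum_mul]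
        refine Finset.sum_congr rfl fun k _ => ?_
        rw [Polynomial.eval_mul, Polynomial.eval_C, LegAux.Y_zero, LegAux.Y_zero]
        ring
      simp only [h1]
      rw [intervalIntegral.integral_finset_sum]
      · rw [Finset.sum_eq_single l]
        · rw [intervalIntegral.integral_const_mul, ← LegAux.I_eq]
        · intro k _ hk
          rw [intervalIntegral.integral_const_mul, ← LegAux.I_eq, LegAux.I_ne 0 hk, mul_zero]
        · intro h
          exact absurd hl h
      · intro k _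
        apply Continuous.intervalIntegrable
        have h2 := (LegAux.Y k 0).continuous
        have h3 := (LegAux.Y l 0).continuous
        fun_prop
    have hN := LegAux.I_norm l
    have h2 : c l = (2 * (l : ℝ) + 1) * ((1 / 2) *
        ∫ x in (-1 : ℝ)..1, B.eval x * (LegAux.Pl l).eval x) := by
      rw [hI]
      linear_combination (-(c l) / 2) * hN
    rw [h2, abs_mul, abs_of_pos (by positivity : (0 : ℝ) < 2 * (l : ℝ) + 1)]
    refine mul_le_mul_of_nonneg_left ?_ (by positivity)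
    rw [abs_mul, abs_of_pos (by norm_num : (0 : ℝ) < 1 / 2)]
    refine mul_le_mul_of_nonneg_left ?_ (by norm_num)
    refine (intervalIntegral.abs_integral_le_integral_abs (by norm_num)).trans ?_
    refine intervalIntegral.integral_mono_on (by norm_num) ?_ ?_ ?_
    · apply Continuous.intervalIntegrable
      have h2 := B.continuous
      have h3 := (LegAux.Pl l).continuous
      fun_prop
    · apply Continuous.intervalIntegrable
      have h2 := B.continuous
      fun_prop
    · intro x hx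
      rw [abs_mul]
      have h3 : x ^ 2 ≤ 1 := by
        have := hx.1
        have := hx.2
        nlinarith
      have := hsup l x h3
      have h4 := abs_nonneg (B.eval x)
      nlinarith
  have hsum : ∑ l ∈ Finset.range (d + 1), (2 * (l : ℝ) + 1) = ((d : ℝ) + 1) ^ 2 := by
    clear hcoef hc hB
    induction d with
    | zero => simp
    | succ d ih =>
      rw [Finset.sum_range_succ, ih]
      push_cast
      ring
  have hev : B.eval z = ∑ l ∈ Finset.range (d + 1), c l * (LegAux.Pl l).eval z := by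
    conv_lhs => rw [hc]
    rw [Polynomial.eval_finset_sum]
    refine Finset.sum_congr rfl fun k _ => ?_
    rw [Polynomial.eval_mul, Polynomial.eval_C]
  rw [hev, ← hsum, Finset.sum_mul]
  refine (Finset.abs_sum_le_sum_abs _ _).trans (Finset.sum_le_sum fun l hl => ?_)
  rw [abs_mul]
  have h1 := hcoef l hl
  have h2 := hsup l z hz
  have h3 := abs_nonneg (c l)
  nlinarith

end Pool.Agent.Helper83.SE
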