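import Pool.Agent.Helper83.SE.PL
import Pool.Agent.Helper83.SE.Expd
import Pool.Agent.Helper83.SE.Zonal2
import Pool.Agent.Helper83.SE.KB
import Pool.Agent.Helper83.SE.Loc3
import Pool.Agent.Helper83.SE.CfgK
import Pool.Agent.Helper83.SE.Lin
import Pool.Agent.Helper83.SD.EnLow
import Pool.Agent.Helper83.SD.Mode
import Pool.Agent.Helper83.SD.ZSym

/-!
Project SE, module ZD2: zonal quadrature error, linear case.

`zonal2` with `B = u 0`, `(1/2) ∫ B = mu p`.  Pole terms: `cs_energy` with `Φ = PF N` (`pf_lin`,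
`pf_C`, `pf_leg`): `PF(B)^2 ≤ nrm 1 B' Σ ((2l+1)/λ)(181/1440)^2 λ^2/N^2 ≤
nrm 1 B' (181/1440)^2 T^2/(2N^2)`, same for `refl B` (`nrm 1 (refl B)' = nrm 1 B'`); together
`2 * 0.1257 * 0.70711 * 0.6672 = 0.11861`, divided by `N ≥ 1.5 t^2`: `0.07908/t^2`.
Kinks: `kink` with `Λ = √(lam t)`, `A = √(16(t+1)) √(en p)/√(lam t)` (`loc_D2`), crude bound:
`|(u 0)'|^2 ≤ T^2/8 * nrm 1 (u 0)'` on `[-1,1]` (`mode_bound` with `m = 1`), `en_low`;
`A ≤ C √(en p)/√t`.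
-/

set_option autoImplicit false

open MeasureTheory Real Pool.Agent.Helper83.SD

namespace Pool.Agent.Helper83.SE

namespace ZD2Aux

theorem nrm_refl (B : Polynomial ℝ) :
    nrm 1 (Polynomial.derivative (refl B)) = nrm 1 (Polynomial.derivative B) := by
  unfold nrm
  congr 1
  rw [derivative_refl]
  have h : (fun z : ℝ => (1 - z ^ 2) ^ 1 * ((-refl (Polynomial.derivative B)).eval z) ^ 2) =
      fun z : ℝ => (fun x : ℝ => (1 - x ^ 2) ^ 1 * ((Polynomial.derivative B).eval x) ^ 2) (-z) := by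
    funext z
    simp only [Polynomial.eval_neg, refl_eval]
    ring
  rw [h, intervalIntegral.integral_comp_neg
    (fun x : ℝ => (1 - x ^ 2) ^ 1 * ((Polynomial.derivative B).eval x) ^ 2)]
  simp

theorem nearH_refl {B : Polynomial ℝ} {A Λ : ℝ} (h : NearH B A Λ) : NearH (refl B) A Λ := by
  intro k hk ψ hψ
  have e1 : (fun s => (refl B).eval (sin s)) = fun s => (fun r => B.eval (sin r)) (-s) := by
    funext s
    simp [refl_eval, Real.sin_neg]
  have e3 : iteratedDeriv k (fun s => (fun r => B.eval (sin r)) (-s)) ψ =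
      (-1 : ℝ) ^ k • iteratedDeriv k (fun r => B.eval (sin r)) (-ψ) :=
    iteratedDeriv_comp_neg k (fun r : ℝ => B.eval (sin r)) ψ
  rw [e1, e3, smul_eq_mul, abs_mul, abs_pow, abs_neg, abs_one, one_pow, one_mul]
  exact h k hk (-ψ) (by rw [abs_neg]; exact hψ)

/-- the pole term -/
theorem pole_term {t : ℕ} {N : ℝ} {B : Polynomial ℝ} (hN : 0 < N)
    (hT : ((t : ℝ) + 1) ^ 2 ≤ 0.6672 * N) (hB : B.natDegree ≤ t) :
    |PF N B| ≤ 0.0594 * √(nrm 1 (Polynomial.derivative B)) := by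
  obtain ⟨Φ, hΦ⟩ := pf_lin N
  have h1 : Φ 1 = 0 := by
    rw [hΦ, ← Polynomial.C_1]
    exact pf_C hN.ne' 1
  have hcs := cs_energy hB Φ h1
  have hn := nrm_nonneg 1 (Polynomial.derivative B)
  have hT0 : 0 ≤ ((t : ℝ) + 1) ^ 2 := by positivity
  have hsum : ∑ l ∈ Finset.Icc 1 t, (2 * (l : ℝ) + 1) / lam l * (Φ (LegAux.Pl l)) ^ 2 ≤
      0.0594 ^ 2 := by
    have hterm : ∀ l ∈ Finset.Icc 1 t, (2 * (l : ℝ) + 1) / lam l * (Φ (LegAux.Pl l)) ^ 2 ≤
        (181 / 1440 / N) ^ 2 * ((2 * (l : ℝ) + 1) * (lam l) ^ 1) := by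
      intro l hl
      have hl' := Finset.mem_Icc.1 hl
      have hl1 : (1 : ℝ) ≤ l := by exact_mod_cast hl'.1
      have hlt : (l : ℝ) ≤ t := by exact_mod_cast hl'.2
      have hlam : 0 < lam l := by unfold lam; positivity
      have hlT : lam l ≤ 0.6672 * N := by
        refine (lam_le l).trans (le_trans ?_ hT)
        gcongr
      have hP := pf_leg hN hlT
      rw [← hΦ] at hP
      have hP2 : (Φ (LegAux.Pl l)) ^ 2 ≤ (181 / 1440 * lam l / N) ^ 2 := by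
        rw [← sq_abs]
        gcongr
      calc (2 * (l : ℝ) + 1) / lam l * (Φ (LegAux.Pl l)) ^ 2
          ≤ (2 * (l : ℝ) + 1) / lam l * (181 / 1440 * lam l / N) ^ 2 := by gcongr
        _ = (181 / 1440 / N) ^ 2 * ((2 * (l : ℝ) + 1) * (lam l) ^ 1) := by
            field_simp
    have hs := sum_lam t 1
    have hsub : ∑ l ∈ Finset.Icc 1 t, (2 * (l : ℝ) + 1) * (lam l) ^ 1 ≤
        ∑ l ∈ Finset.range (t + 1), (2 * (l : ℝ) + 1) * (lam l) ^ 1 := by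
      apply Finset.sum_le_sum_of_subset_of_nonneg
      · intro l hl
        have := Finset.mem_Icc.1 hl
        exact Finset.mem_range.2 (by omega)
      · intro l _ _
        have := lam_nonneg l
        positivity
    calc ∑ l ∈ Finset.Icc 1 t, (2 * (l : ℝ) + 1) / lam l * (Φ (LegAux.Pl l)) ^ 2
        ≤ ∑ l ∈ Finset.Icc 1 t, (181 / 1440 / N) ^ 2 * ((2 * (l : ℝ) + 1) * (lam l) ^ 1) :=
          Finset.sum_le_sum hterm
      _ = (181 / 1440 / N) ^ 2 * ∑ l ∈ Finset.Icc 1 t, ((2 * (l : ℝ) + 1) * (lam l) ^ 1) := by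
          rw [Finset.mul_sum]
      _ ≤ (181 / 1440 / N) ^ 2 * ((((t : ℝ) + 1) ^ 2) ^ (1 + 1) / (((1 : ℕ) : ℝ) + 1)) := by
          apply mul_le_mul_of_nonneg_left (hsub.trans hs) (by positivity)
      _ ≤ (181 / 1440 / N) ^ 2 * ((0.6672 * N) ^ (1 + 1) / (((1 : ℕ) : ℝ) + 1)) := by
          gcongr
      _ = (181 / 1440) ^ 2 * 0.6672 ^ 2 / 2 := by
          push_cast
          field_simp
          norm_num
      _ ≤ 0.0594 ^ 2 := by norm_num
  rw [← hΦ]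
  apply abs_le_of_sq_le_sq
  · rw [mul_pow, Real.sq_sqrt hn]
    calc (Φ B) ^ 2 ≤ nrm 1 (Polynomial.derivative B) * ∑ l ∈ Finset.Icc 1 t,
          (2 * (l : ℝ) + 1) / lam l * (Φ (LegAux.Pl l)) ^ 2 := hcs
      _ ≤ nrm 1 (Polynomial.derivative B) * 0.0594 ^ 2 := by gcongr
      _ = 0.0594 ^ 2 * nrm 1 (Polynomial.derivative B) := by ring
  · positivity

end ZD2Aux

open ZD2Aux

theorem zonal_D2 : ∃ C T0 : ℝ, 0 < C ∧ ∀ (t : ℕ) (c : Cf) (p : Poly) (u v : ℤ → Polynomial ℝ),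
    T0 ≤ (t : ℝ) → Good t c → p.totalDegree ≤ t → Modes t p u v →
    |SY c (fun z => (u 0).eval z) - mu p| ≤
      0.0795 / (t : ℝ) ^ 2 * √(nrm 1 (Polynomial.derivative (u 0)))
        + C / √(t : ℝ) / (t : ℝ) ^ 2 * √(en p) := by
  obtain ⟨C1, T1, hC1, hK⟩ := kink
  obtain ⟨T2, hT2⟩ := cfg_kok
  refine ⟨20 * C1, max (max T1 T2) 10000, by positivity, fun t c p u v ht hG hp hm => ?_⟩
  have h1 : T1 ≤ (t : ℝ) := (le_max_left _ _).trans ((le_max_left _ _).trans ht)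
  have h2 : T2 ≤ (t : ℝ) := (le_max_right _ _).trans ((le_max_left _ _).trans ht)
  have h3 : (10000 : ℝ) ≤ (t : ℝ) := (le_max_right _ _).trans ht
  have ht1 : 1 ≤ t := by
    have : (1 : ℝ) ≤ (t : ℝ) := by linarith
    exact_mod_cast this
  have htp : (0 : ℝ) < t := by linarith
  have hlo := hG.lo
  have hhi := hG.hi
  have hNp : (0 : ℝ) < c.N := by nlinarith
  have hN0 : 0 < c.N := by exact_mod_cast hNp
  have hTN : ((t : ℝ) + 1) ^ 2 ≤ 0.6672 * (c.N : ℝ) := by nlinarith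
  obtain ⟨k1, k2, k3, k4, k5, k6, k7⟩ := hT2 t c h2 hG
  set B := u 0 with hB
  set E := √(en p) with hEdef
  have hEn : 0 ≤ E := Real.sqrt_nonneg _
  have hlamp : 0 < lam t := by unfold lam; positivity
  have hsl : 0 < √(lam t) := Real.sqrt_pos.mpr hlamp
  have hslt : (t : ℝ) ≤ √(lam t) := by
    apply Real.le_sqrt_of_sq_le
    unfold lam; nlinarith
  have hslu : 2 * √(lam t) ≤ 2 * (t : ℝ) + 1 := two_sqrt_lam_le t
  have hdegB : B.natDegree ≤ t := by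
    have := hm.degu 0 (by simp)
    simpa using this
  have hdegR : (refl B).natDegree ≤ t := (refl_natDegree B).trans hdegB
  -- pole terms
  have hP1 := pole_term hNp hTN hdegB
  have hP2 := pole_term hNp hTN hdegR
  rw [nrm_refl] at hP2
  -- kinks
  set A := √(16 * ((t : ℝ) + 1)) * E / √(lam t) with hA
  have hAn : 0 ≤ A := by positivity
  have hAeq : A = 4 / √(t : ℝ) * E := by
    have e1 : √(16 * ((t : ℝ) + 1)) = 4 * √((t : ℝ) + 1) := by
      rw [Real.sqrt_mul (by norm_num)]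
      congr 1
      rw [show (16 : ℝ) = 4 ^ 2 by norm_num]
      exact Real.sqrt_sq (by norm_num)
    have e2 : √(lam t) = √(t : ℝ) * √((t : ℝ) + 1) := by
      unfold lam
      exact Real.sqrt_mul htp.le _
    have e3 : 0 < √(t : ℝ) := Real.sqrt_pos.mpr htp
    have e4 : 0 < √((t : ℝ) + 1) := Real.sqrt_pos.mpr (by linarith)
    rw [hA, e1, e2]
    field_simp
  have hNear : NearH B A (√(lam t)) := by
    intro k hk ψ hψ
    refine (loc_D2 ht1 hp hm k hk hψ).trans (le_of_eq ?_)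
    obtain ⟨l, rfl⟩ : ∃ l, k = l + 1 := ⟨k - 1, by omega⟩
    rw [Nat.add_sub_cancel, hA, pow_succ, ← hEdef]
    field_simp
  have hNearR := nearH_refl hNear
  -- crude bound
  have hder1 : ∀ z : ℝ, z ^ 2 ≤ 1 → |(Polynomial.derivative B).eval z| ≤
      E * ((t : ℝ) + 1) ^ 2 / 2 := by
    intro z hz
    have hd : (Polynomial.derivative B).natDegree ≤ t - 1 :=
      (Polynomial.natDegree_derivative_le _).trans (by omega)
    have hb := mode_bound t 1 0 ht1 (Polynomial.derivative B) hd z hz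
    have hen := en_low hm
    have hg : 0 ≤ ∑ m ∈ (Finset.Icc (-(t : ℤ)) t).erase 0, gmode u v m :=
      Finset.sum_nonneg (fun m _ => gmode_nonneg u v m)
    have hN : nrm 1 (Polynomial.derivative B) ≤ en p := by linarith
    have hE : 0 ≤ en p := (nrm_nonneg _ _).trans hN
    have hE2 : E ^ 2 = en p := Real.sq_sqrt hE
    simp only [Function.iterate_zero, id_eq] at hb
    norm_num at hb
    apply abs_le_of_sq_le_sq
    · refine hb.trans ?_
      have h5 : (((t : ℝ) + 1) ^ 2) ^ 2 / 8 * nrm 1 (Polynomial.derivative B) ≤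
          (((t : ℝ) + 1) ^ 2) ^ 2 / 8 * en p := by gcongr
      refine h5.trans ?_
      rw [← hE2]
      have : 0 ≤ (((t : ℝ) + 1) ^ 2) ^ 2 * E ^ 2 := by positivity
      nlinarith
    · positivity
  have hcr : ∀ z w : ℝ, z ^ 2 ≤ 1 → w ^ 2 ≤ 1 → |B.eval z - B.eval w| ≤ A * (t : ℝ) ^ 3 := by
    intro z w hz hw
    have hz1 : |z| ≤ 1 := abs_le_one_iff_mul_self_le_one.mpr (by nlinarith)
    have hw1 : |w| ≤ 1 := abs_le_one_iff_mul_self_le_one.mpr (by nlinarith)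
    have hmv := Convex.norm_image_sub_le_of_norm_hasDerivWithin_le
      (f := fun x => B.eval x) (f' := fun x => (Polynomial.derivative B).eval x)
      (s := Set.Icc (-1 : ℝ) 1) (x := w) (y := z) (C := E * ((t : ℝ) + 1) ^ 2 / 2)
      (fun x _ => (B.hasDerivAt x).hasDerivWithinAt)
      (fun x hx => by
        rw [Real.norm_eq_abs]
        exact hder1 x (by nlinarith [hx.1, hx.2]))
      (convex_Icc _ _) ⟨by linarith [(abs_le.mp hw1).1], (abs_le.mp hw1).2⟩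
      ⟨by linarith [(abs_le.mp hz1).1], (abs_le.mp hz1).2⟩
    simp only [Real.norm_eq_abs] at hmv
    refine hmv.trans ?_
    have hzw : |z - w| ≤ 2 := by
      have := abs_le.mp hz1
      have := abs_le.mp hw1
      rw [abs_le]
      constructor <;> linarith
    have e0 : 0 ≤ E * ((t : ℝ) + 1) ^ 2 / 2 := by positivity
    have e1 : E * ((t : ℝ) + 1) ^ 2 / 2 * |z - w| ≤ E * ((t : ℝ) + 1) ^ 2 := by nlinarith
    refine e1.trans ?_
    rw [hAeq]
    have e3 : 0 < √(t : ℝ) := Real.sqrt_pos.mpr htp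
    have e4 : √(t : ℝ) * √(t : ℝ) = t := Real.mul_self_sqrt htp.le
    have e5 : 1 ≤ √(t : ℝ) := by
      rw [Real.one_le_sqrt]; linarith
    have e6 : 4 / √(t : ℝ) * E * (t : ℝ) ^ 3 = E * (4 * (t : ℝ) ^ 2 * √(t : ℝ)) := by
      rw [div_mul_eq_mul_div, div_mul_eq_mul_div, div_eq_iff e3.ne']
      calc 4 * E * (t : ℝ) ^ 3 = 4 * E * (t : ℝ) ^ 2 * (t : ℝ) := by ring
        _ = 4 * E * (t : ℝ) ^ 2 * (√(t : ℝ) * √(t : ℝ)) := by rw [e4]
        _ = E * (4 * (t : ℝ) ^ 2 * √(t : ℝ)) * √(t : ℝ) := by ring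
    rw [e6]
    apply mul_le_mul_of_nonneg_left _ hEn
    have e7 : ((t : ℝ) + 1) ^ 2 ≤ 4 * (t : ℝ) ^ 2 := by nlinarith
    have e8 : 4 * (t : ℝ) ^ 2 * 1 ≤ 4 * (t : ℝ) ^ 2 * √(t : ℝ) := by gcongr
    linarith
  have hcrR : ∀ z w : ℝ, z ^ 2 ≤ 1 → w ^ 2 ≤ 1 →
      |(refl B).eval z - (refl B).eval w| ≤ A * (t : ℝ) ^ 3 := by
    intro z w hz hw
    rw [refl_eval, refl_eval]
    exact hcr _ _ (by rw [neg_sq]; exact hz) (by rw [neg_sq]; exact hw)
  have hZ : ∀ x : ℝ, |x| ≤ 0.93 → x ^ 2 ≤ 1 := by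
    intro x hx
    have := abs_le.mp hx
    nlinarith [sq_abs x, abs_nonneg x]
  have hdB2 : B.natDegree ≤ 2 * t := by omega
  have hdR2 : (refl B).natDegree ≤ 2 * t := by omega
  have hn1 : (7 * (c.J1 : ℝ) + 5 * (c.J2 : ℝ)) ≤ c.n := by exact_mod_cast hG.n1
  have hn2 : (c.n : ℝ) ≤ 7 * (c.J1 : ℝ) + 5 * (c.J2 : ℝ) + 7 := by exact_mod_cast hG.n2
  have hs1 : 1 ≤ √(lam t) := by linarith
  have hs2 : √(lam t) ≤ 2 * (t : ℝ) + 1 := by linarith
  have q1 := hK t (c.N : ℝ) (M1 c) (7 * ((c.J1 : ℝ) + 1 / 2)) 7 (7 * (c.J1 : ℝ) + 5 / 2) 5 A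
    (√(lam t)) B h1 hlo hhi k1 k2 (by rw [abs_le]; constructor <;> linarith) hdB2 hAn hs1 hs2 hNear
    (fun z hz => hcr z _ hz (hZ _ k1.Z))
  have q2 := hK t (c.N : ℝ) (M1 c) (7 * ((c.J1 : ℝ) + 1 / 2)) 7 (7 * (c.J1 : ℝ) + 5 / 2) 5 A
    (√(lam t)) (refl B) h1 hlo hhi k1 k2 (by rw [abs_le]; constructor <;> linarith) hdR2 hAn hs1
    hs2 hNearR (fun z hz => hcrR z _ hz (hZ _ k1.Z))
  have q3 := hK t (c.N : ℝ) (M2 c) (7 * (c.J1 : ℝ) + 5 * (c.J2 : ℝ) + 5 / 2) 5 ((c.n : ℝ) + 1) 0 A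
    (√(lam t)) B h1 hlo hhi k3 k4 (by rw [abs_le]; constructor <;> linarith) hdB2 hAn hs1 hs2
    hNear (fun z hz => hcr z _ hz (hZ _ k3.Z))
  have q4 := hK t (c.N : ℝ) (M2 c) (7 * (c.J1 : ℝ) + 5 * (c.J2 : ℝ) + 5 / 2) 5 (c.n : ℝ) 0 A
    (√(lam t)) (refl B) h1 hlo hhi k3 k5 (by rw [abs_le]; constructor <;> linarith) hdR2 hAn hs1
    hs2 hNearR (fun z hz => hcrR z _ hz (hZ _ k3.Z))
  have q5 := hK t (c.N : ℝ) (M3 c) ((c.n : ℝ) + 1) 0 (c.n : ℝ) 0 A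
    (√(lam t)) B h1 hlo hhi k6 k7 (by rw [abs_le]; constructor <;> linarith) hdB2 hAn hs1 hs2
    hNear (fun z hz => hcr z _ hz (hZ _ k6.Z))
  have hz2 := zonal2 c hN0 hG.lR hG.cnt B
  have hmu := mu_lin hm
  rw [← hB] at hmu
  set S := √(nrm 1 (Polynomial.derivative B)) with hS
  have hSn : 0 ≤ S := Real.sqrt_nonneg _
  set X := SY c (fun z => B.eval z) with hX
  have hkey : |(c.N : ℝ) * (X - mu p)| ≤ 0.1188 * S + 5 * (C1 * A) := by
    have e1 : (c.N : ℝ) * (X - mu p) =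
        (c.N : ℝ) * X - ((c.N : ℝ) / 2) * (∫ z in (-1 : ℝ)..1, B.eval z) := by
      rw [hmu]
      ring
    rw [e1, hz2]
    rw [abs_le] at hP1 hP2 q1 q2 q3 q4 q5 ⊢
    constructor
    · linarith [hP1.1, hP2.1, q1.1, q2.1, q3.1, q4.1, q5.1]
    · linarith [hP1.2, hP2.2, q1.2, q2.2, q3.2, q4.2, q5.2]
  rw [abs_mul, abs_of_pos hNp] at hkey
  have ht2 : 0 < (t : ℝ) ^ 2 := by positivity
  have h9 : 1.5 * (t : ℝ) ^ 2 * |X - mu p| ≤ 0.1188 * S + 5 * (C1 * A) :=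
    (mul_le_mul_of_nonneg_right hlo (abs_nonneg _)).trans hkey
  have hfin : |X - mu p| ≤ (0.0795 * S + 5 * (C1 * A)) / (t : ℝ) ^ 2 := by
    rw [le_div_iff₀ ht2]
    have h10 : 0 ≤ C1 * A := by positivity
    nlinarith
  refine hfin.trans (le_of_eq ?_)
  rw [hAeq]
  ring

end Pool.Agent.Helper83.SE
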