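import Pool.Agent.Helper83.SE.Ring2
import Pool.Agent.Helper83.SE.ZD2
import Pool.Agent.Helper83.SE.HarmI
import Pool.Agent.Helper83.SE.HarmO
import Pool.Agent.Helper83.SD.Fourier

/-!
Project SE, module Dl2: the configuration is nearly a design.

`|SC p - mu p| ≤ (0.0795 √(nrm 1 u0') + 0.0573 √(Σ gmode) + (C/√t + 1/t) √(en p))/t^2`, and
`en_low`, Cauchy-Schwarz: `√(0.0795^2 + 0.0573^2) = 0.0980 < 0.105`.
-/

set_option autoImplicit false

open MeasureTheory Real Pool.Agent.Helper83.SD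

namespace Pool.Agent.Helper83.SE

theorem near_design2 : ∃ T0 : ℝ, ∀ (t : ℕ) (c : Cf), T0 ≤ (t : ℝ) → Good t c →
    ∀ p : Poly, p.totalDegree ≤ t → |SC c (ev p) - mu p| ≤ 0.105 / (t : ℝ) ^ 2 * √(en p) := by
  obtain ⟨C, T1, hC, hZ⟩ := zonal_D2
  obtain ⟨T2, hH⟩ := harm_out
  obtain ⟨T3, hK⟩ := cfg_hok
  refine ⟨max (max T1 T2) (max (max T3 10000) ((200 * C) ^ 2)), fun t c ht hg p hp => ?_⟩
  have h1 : T1 ≤ (t : ℝ) := ((le_max_left _ _).trans (le_max_left _ _)).trans ht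
  have h2 : T2 ≤ (t : ℝ) := ((le_max_right _ _).trans (le_max_left _ _)).trans ht
  have h3 : T3 ≤ (t : ℝ) :=
    ((le_max_left _ _).trans ((le_max_left _ _).trans (le_max_right _ _))).trans ht
  have h4 : (10000 : ℝ) ≤ (t : ℝ) :=
    ((le_max_right _ _).trans ((le_max_left _ _).trans (le_max_right _ _))).trans ht
  have h5 : (200 * C) ^ 2 ≤ (t : ℝ) := ((le_max_right _ _).trans (le_max_right _ _)).trans ht
  have h10 : 10000 ≤ t := by exact_mod_cast h4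
  have htp : (0 : ℝ) < t := by linarith
  have hst : 200 * C ≤ √(t : ℝ) := Real.le_sqrt_of_sq_le h5
  have hCt : C / √(t : ℝ) ≤ 0.005 := by
    rw [div_le_iff₀ (Real.sqrt_pos.mpr htp)]; linarith
  obtain ⟨u, v, hm⟩ := exists_modes t p hp
  have hk := hK t c h3 hg
  have hz := hZ t c p u v h1 hg hp hm
  have hh := hH t c p u v h2 hg hp hm
  have hi := harm_in h10 hg hk hm
  have hs := SC_lin hm hk
  have hen := en_low hm
  set A := nrm 1 (Polynomial.derivative (u 0)) with hA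
  set B := ∑ m ∈ (Finset.Icc (-(t : ℤ)) t).erase 0, gmode u v m with hB
  have hA0 : 0 ≤ A := nrm_nonneg _ _
  have hB0 : 0 ≤ B := Finset.sum_nonneg fun m _ => gmode_nonneg u v m
  have hE : 0 ≤ √(en p) := Real.sqrt_nonneg _
  have hen0 : 0 ≤ en p := by linarith
  have hcs : 0.0795 * √A + 0.0573 * √B ≤ 0.098 * √(en p) := by
    have e1 := Real.sq_sqrt hA0
    have e2 := Real.sq_sqrt hB0
    have e3 := Real.sq_sqrt hen0
    have h6 : (0.0795 * √A + 0.0573 * √B) ^ 2 ≤ (0.098 * √(en p)) ^ 2 := by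
      have h7 : (0.0795 * √A + 0.0573 * √B) ^ 2 + (0.0573 * √A - 0.0795 * √B) ^ 2 =
          (0.0795 ^ 2 + 0.0573 ^ 2) * (√A ^ 2 + √B ^ 2) := by ring
      have h8 := sq_nonneg (0.0573 * √A - 0.0795 * √B)
      rw [e1, e2] at h7
      rw [mul_pow 0.098, e3]
      nlinarith
    exact (abs_le_of_sq_le_sq' h6 (by positivity)).2
  have h6 : |SC c (ev p) - mu p| ≤ |SC c (ev p) - SY c (fun z => (u 0).eval z)| +
      |SY c (fun z => (u 0).eval z) - mu p| := abs_sub_le _ _ _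
  have h7 : |SC c (ev p) - mu p| ≤ 1 / (t : ℝ) ^ 2 * (0.0795 * √A + 0.0573 * √B) +
      (1 / (t : ℝ) + C / √(t : ℝ)) * (1 / (t : ℝ) ^ 2 * √(en p)) := by
    have e1 : 1 / (t : ℝ) ^ 3 * √(en p) = 1 / (t : ℝ) * (1 / (t : ℝ) ^ 2 * √(en p)) := by
      field_simp
    have e2 : C / √(t : ℝ) / (t : ℝ) ^ 2 * √(en p) =
        C / √(t : ℝ) * (1 / (t : ℝ) ^ 2 * √(en p)) := by ring
    have e3 : 0.0795 / (t : ℝ) ^ 2 * √A = 1 / (t : ℝ) ^ 2 * (0.0795 * √A) := by ring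
    have e4 : 0.0573 / (t : ℝ) ^ 2 * √B = 1 / (t : ℝ) ^ 2 * (0.0573 * √B) := by ring
    rw [e1] at hh
    rw [e2, e3] at hz
    rw [e4] at hi
    have e5 : 1 / (t : ℝ) ^ 2 * (0.0795 * √A + 0.0573 * √B) +
      (1 / (t : ℝ) + C / √(t : ℝ)) * (1 / (t : ℝ) ^ 2 * √(en p)) =
      1 / (t : ℝ) ^ 2 * (0.0795 * √A) + 1 / (t : ℝ) ^ 2 * (0.0573 * √B) +
      1 / (t : ℝ) * (1 / (t : ℝ) ^ 2 * √(en p)) +
      C / √(t : ℝ) * (1 / (t : ℝ) ^ 2 * √(en p)) := by ring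
    rw [e5]
    linarith
  have h8 : 1 / (t : ℝ) ≤ 0.0001 := by
    rw [div_le_iff₀ htp]; linarith
  have h9 : 0 ≤ 1 / (t : ℝ) ^ 2 * √(en p) := by positivity
  calc |SC c (ev p) - mu p| ≤ 1 / (t : ℝ) ^ 2 * (0.0795 * √A + 0.0573 * √B) +
      (1 / (t : ℝ) + C / √(t : ℝ)) * (1 / (t : ℝ) ^ 2 * √(en p)) := h7
    _ ≤ 1 / (t : ℝ) ^ 2 * (0.098 * √(en p)) + 0.0051 * (1 / (t : ℝ) ^ 2 * √(en p)) := by
        apply add_le_add
        · exact mul_le_mul_of_nonneg_left hcs (by positivity)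
        · exact mul_le_mul_of_nonneg_right (by linarith) h9
    _ = 0.1031 * (1 / (t : ℝ) ^ 2 * √(en p)) := by ring
    _ ≤ 0.105 * (1 / (t : ℝ) ^ 2 * √(en p)) := mul_le_mul_of_nonneg_right (by norm_num) h9
    _ = 0.105 / (t : ℝ) ^ 2 * √(en p) := by ring

end Pool.Agent.Helper83.SE
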