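import Pool.Agent.Helper83.SE.Wp
import Pool.Agent.Helper83.SD.EM

/-!
Project SE, module EM2: Abel-Plana formulas for midpoint sums and half-way sums.

For `f = X^p` at `a` (linearity, Taylor at `a`, `Im I^(2r-1) = (-1)^(r+1)`, moments):
`Lam a X^p = (B_{p+1}(a) - a^{p+1})/(p+1) + a^p/2`  and
`Tm c X^p = -(B_{p+1}(c+1/2) - c^{p+1})/(p+1)`  (Bernoulli polynomials,
`B_n(1/2) = -(1 - 2^(1-n)) B_n`), hence `em_core` (use `B_{p+1}(a+1) - B_{p+1}(a) = (p+1) a^p`).
Other way: the difference `D_f(a)` of the two sides of `em_core` commutes with derivatives.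
`em_half` = `SD.em` + `em_core` at `a = J`.  For `em_mid` use one step
`∫_a^{a+1} f - f(a+1/2) = Tm (a+1) f - Tm a f`: `em_core` at `a+1/2`, plus `em_core` for
`f(-x)` at `-(a+1/2)` (`Lam (-a) (f(-x)) = -Lam a f`, same for `Tm`).
-/

set_option autoImplicit false

open MeasureTheory Real Pool.Agent.Helper83.SD

namespace Pool.Agent.Helper83.SE

namespace EM2

open Pool.Agent.Helper83.SD.EM

/-- the coefficients of the midpoint functional -/
noncomputable def bp (n : ℕ) : ℝ := (1 - 1 / 2 ^ n) * bb n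

/-- the functional `Σ c_n bp n` -/
noncomputable def betap : Polynomial ℝ →ₗ[ℝ] ℝ :=
  Polynomial.lsum fun n => (bp n) • (LinearMap.id : ℝ →ₗ[ℝ] ℝ)

lemma betap_monomial (n : ℕ) (c : ℝ) : betap (Polynomial.monomial n c) = c * bp n := by
  show (Polynomial.monomial n c).sum _ = _
  rw [Polynomial.sum_monomial_index]
  · simp [mul_comm]
  · simp

lemma betap_X_pow (n : ℕ) : betap (Polynomial.X ^ n) = bp n := by
  rw [← Polynomial.monomial_one_right_eq_X_pow, betap_monomial, one_mul]

lemma corep (g : Polynomial ℝ) :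
    IntegrableOn (fun y : ℝ => (Polynomial.aeval (Complex.I * (y : ℂ)) g).im * wp y)
      (Set.Ioi 0) ∧
    2 * ∫ y in Set.Ioi (0 : ℝ), (Polynomial.aeval (Complex.I * (y : ℂ)) g).im * wp y
      = betap g := by
  induction g using Polynomial.induction_on' with
  | add p q hp hq =>
    have hsum : (fun y : ℝ => (Polynomial.aeval (Complex.I * (y : ℂ)) (p + q)).im * wp y) =
        fun y : ℝ => (Polynomial.aeval (Complex.I * (y : ℂ)) p).im * wp y +
          (Polynomial.aeval (Complex.I * (y : ℂ)) q).im * wp y := by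
      funext y
      rw [map_add, Complex.add_im, add_mul]
    refine ⟨?_, ?_⟩
    · rw [hsum]
      exact hp.1.add hq.1
    · rw [hsum, integral_add hp.1 hq.1, mul_add, hp.2, hq.2, map_add]
  | monomial n c =>
    have hfun : (fun y : ℝ =>
        (Polynomial.aeval (Complex.I * (y : ℂ)) (Polynomial.monomial n c)).im * wp y) =
        fun y : ℝ => c * (Complex.I ^ n).im * (y ^ n * wp y) := by
      funext y
      rw [aeval_im_monomial]
      ring
    rw [hfun, betap_monomial]
    refine ⟨(int_wp0 n).const_mul _, ?_⟩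
    rw [integral_const_mul]
    rcases Nat.even_or_odd' n with ⟨m, hm | hm⟩
    · subst hm
      rw [im_I_pow_even, bp, bb]
      by_cases hm0 : 2 * m = 0
      · rw [if_pos hm0]
        simp
      · have hb : bernoulli (2 * m + 1) = 0 :=
          bernoulli_eq_zero_of_odd ⟨m, rfl⟩ (by omega)
        rw [if_neg hm0, hb]
        simp
    · subst hm
      have hmom := moment_bern (m + 1) (by omega)
      have hmw := moment_wp (m + 1) (by omega)
      have h1 : 2 * (m + 1) - 1 = 2 * m + 1 := by omega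
      rw [h1] at hmom hmw
      rw [hmw, hmom, im_I_pow_odd, bp, bb]
      have h2 : (2 * m + 1 : ℕ) ≠ 0 := by omega
      rw [if_neg h2]
      have h3 : 2 * m + 1 + 1 = 2 * (m + 1) := by ring
      rw [h3]
      have h4 : ((-1 : ℝ) ^ m) * (-1) ^ (m + 1 + 1) = 1 := by
        rw [← pow_add]
        exact Even.neg_one_pow ⟨m + 1, by ring⟩
      have h5 : (m : ℝ) + 1 ≠ 0 := by positivity
      have h7 : (2 : ℝ) / 4 ^ (m + 1) = 1 / 2 ^ (2 * m + 1) := by
        have : (4 : ℝ) ^ (m + 1) = 2 * 2 ^ (2 * m + 1) := by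
          rw [← pow_succ', show 2 * m + 1 + 1 = 2 * (m + 1) by ring, pow_mul]
          norm_num
        rw [this]
        have h8 : (2 : ℝ) ^ (2 * m + 1) ≠ 0 := by positivity
        field_simp
      rw [h7]
      have h9 : ((2 * m + 1 : ℕ) : ℝ) + 1 = 2 * ((m : ℝ) + 1) := by push_cast; ring
      have h10 : (((m + 1 : ℕ) : ℝ)) = (m : ℝ) + 1 := by push_cast; ring
      rw [h9, h10]
      have h6 : (-1 : ℝ) ^ m * (-1) ^ (m + 1 + 1) * ((bernoulli (2 * (m + 1)) : ℚ) : ℝ) =
        ((bernoulli (2 * (m + 1)) : ℚ) : ℝ) := by rw [h4, one_mul]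
      have h11 : 2 * (c * (-1) ^ m * ((1 - 1 / 2 ^ (2 * m + 1)) *
          ((-1) ^ (m + 1 + 1) * ((bernoulli (2 * (m + 1)) : ℚ) : ℝ) / (4 * ((m : ℝ) + 1))))) =
          c * ((1 - 1 / 2 ^ (2 * m + 1)) * (((-1 : ℝ) ^ m * (-1) ^ (m + 1 + 1) *
            ((bernoulli (2 * (m + 1)) : ℚ) : ℝ)) / (2 * ((m : ℝ) + 1)))) := by
        field_simp
        ring
      rw [h11, h6]

lemma tm_eq (a : ℝ) (f : Polynomial ℝ) : Tm a f = betap (Polynomial.taylor a f) := by
  unfold Tm
  simp_rw [shift]
  exact (corep _).2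

lemma bfun_eq (n : ℕ) (x : ℝ) : bernoulliFun n x =
    ∑ i ∈ Finset.range (n + 1), (n.choose i : ℝ) * ((bernoulli i : ℚ) : ℝ) * x ^ (n - i) := by
  rw [bernoulliFun, Polynomial.bernoulli_def, Polynomial.map_sum, Polynomial.eval_finsetSum,
    ← Finset.sum_range_reflect]
  refine Finset.sum_congr rfl fun i hi => ?_
  rw [Finset.mem_range] at hi
  have h1 : n + 1 - 1 - i = n - i := by omega
  have h2 : n - (n - i) = i := by omega
  rw [h1, Polynomial.map_monomial, Polynomial.eval_monomial, h2,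
    Nat.choose_symm (by omega : i ≤ n)]
  simp only [eq_ratCast]
  push_cast
  ring

/-- generating sums -/
lemma bsum (p : ℕ) (x : ℝ) :
    ∑ k ∈ Finset.range (p + 1), (p.choose k : ℝ) * bb k * x ^ (p - k) =
      (bernoulliFun (p + 1) x - x ^ (p + 1)) / ((p : ℝ) + 1) + x ^ p / 2 := by
  rw [bfun_eq, Finset.sum_range_succ', Finset.sum_range_succ']
  rw [Finset.sum_range_succ']
  have hterm : ∀ k ∈ Finset.range p, (p.choose (k + 1) : ℝ) * bb (k + 1) * x ^ (p - (k + 1)) =
      (1 / ((p : ℝ) + 1)) * ((((p + 1).choose (k + 1 + 1) : ℕ) : ℝ) *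
      ((bernoulli (k + 1 + 1) : ℚ) : ℝ) * x ^ (p + 1 - (k + 1 + 1))) := by
    intro k _
    rw [bb, if_neg (by omega)]
    have hc : (p + 1) * p.choose (k + 1) = (p + 1).choose (k + 1 + 1) * (k + 1 + 1) :=
      Nat.add_one_mul_choose_eq p (k + 1)
    have hc' : ((p : ℝ) + 1) * ((p.choose (k + 1) : ℕ) : ℝ) =
        (((p + 1).choose (k + 1 + 1) : ℕ) : ℝ) * ((k : ℝ) + 2) := by
      have := congrArg (fun q : ℕ => (q : ℝ)) hc
      push_cast at this
      linarith
    have h1 : (p : ℝ) + 1 ≠ 0 := by positivity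
    have h2 : (k : ℝ) + 2 ≠ 0 := by positivity
    have h3 : ((k + 1 : ℕ) : ℝ) + 1 = (k : ℝ) + 2 := by push_cast; ring
    have h4 : p + 1 - (k + 1 + 1) = p - (k + 1) := by omega
    rw [h3, h4]
    field_simp
    linear_combination ((bernoulli (k + 1 + 1) : ℚ) : ℝ) * x ^ (p - (k + 1)) * hc'
  rw [Finset.sum_congr rfl hterm, ← Finset.mul_sum]
  have h1 : (p : ℝ) + 1 ≠ 0 := by positivity
  have h0 : bb 0 = 0 := by simp [bb]
  rw [h0]
  simp only [zero_add, Nat.choose_one_right, Nat.choose_zero_right, tsub_zero, bernoulli_one,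
    bernoulli_zero, Nat.add_sub_cancel]
  push_cast
  field_simp
  ring

/-- the half step formula at `0` -/
lemma half_step (g : Polynomial ℝ) :
    beta g + betap (Polynomial.taylor (1 / 2) g) =
      (∫ x in (0 : ℝ)..(1 / 2), g.eval x) - g.eval 0 / 2 := by
  induction g using Polynomial.induction_on' with
  | add p q hp hq =>
    have hi : ∀ r : Polynomial ℝ, IntervalIntegrable (fun x => r.eval x) volume 0 (1 / 2) :=
      fun r => (Polynomial.continuous r).intervalIntegrable _ _
    simp only [Polynomial.eval_add, map_add]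
    rw [intervalIntegral.integral_add (hi p) (hi q)]
    linarith
  | monomial n c =>
    have hi : (∫ x in (0 : ℝ)..(1 / 2), (Polynomial.monomial n c).eval x) =
        c * ((1 / 2) ^ (n + 1) / ((n : ℝ) + 1)) := by
      simp only [Polynomial.eval_monomial]
      rw [intervalIntegral.integral_const_mul, integral_pow]
      simp
    rw [hi, Polynomial.taylor_monomial, beta_monomial]
    have hX : (Polynomial.X + Polynomial.C (1 / 2 : ℝ)) ^ n =
        ∑ k ∈ Finset.range (n + 1), (((n.choose k : ℕ) : ℝ) * (1 / 2) ^ (n - k)) •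
          (Polynomial.X ^ k : Polynomial ℝ) := by
      rw [add_pow]
      refine Finset.sum_congr rfl fun k _ => ?_
      rw [Polynomial.smul_eq_C_mul, Polynomial.C_mul, Polynomial.C_pow]
      have : (Polynomial.C ((n.choose k : ℕ) : ℝ)) = ((n.choose k : ℕ) : Polynomial ℝ) := by simp
      rw [this]
      ring
    have hbeta : betap (Polynomial.C c * (Polynomial.X + Polynomial.C (1 / 2 : ℝ)) ^ n) =
        c * ∑ k ∈ Finset.range (n + 1), ((n.choose k : ℕ) : ℝ) * (1 / 2) ^ (n - k) * bp k := by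
      rw [← Polynomial.smul_eq_C_mul, map_smul, hX, map_sum, smul_eq_mul]
      congr 1
      refine Finset.sum_congr rfl fun k _ => ?_
      rw [map_smul, betap_X_pow, smul_eq_mul]
    rw [hbeta]
    have hsplit : ∑ k ∈ Finset.range (n + 1), ((n.choose k : ℕ) : ℝ) * (1 / 2) ^ (n - k) * bp k =
        (∑ k ∈ Finset.range (n + 1), (n.choose k : ℝ) * bb k * (1 / 2) ^ (n - k)) -
        (1 / 2) ^ n * ∑ k ∈ Finset.range (n + 1), (n.choose k : ℝ) * bb k * 1 ^ (n - k) := by
      rw [Finset.mul_sum, ← Finset.sum_sub_distrib]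
      refine Finset.sum_congr rfl fun k hk => ?_
      rw [Finset.mem_range] at hk
      have h1 : ((1 : ℝ) / 2) ^ n = (1 / 2) ^ (n - k) * (1 / 2) ^ k := by
        rw [← pow_add]
        congr 1
        omega
      have h2 : (1 : ℝ) / 2 ^ k = (1 / 2) ^ k := by rw [one_div_pow]
      rw [bp, h2, h1]
      ring
    rw [hsplit, bsum, bsum, bernoulliFun_eval_one, bernoulliFun_eval_zero]
    have hh : bernoulliFun (n + 1) (1 / 2) = (2 / 2 ^ (n + 1) - 1) * ((bernoulli (n + 1) : ℚ) : ℝ) := by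
      rw [one_div]
      exact bernoulliFun_eval_half (n + 1)
    rw [hh]
    have h5 : (n : ℝ) + 1 ≠ 0 := by positivity
    rcases Nat.eq_zero_or_pos n with hn | hn
    · subst hn
      simp [bb]
      ring
    · rw [bb, if_neg (by omega), if_neg (by omega)]
      simp only [Polynomial.eval_monomial]
      rw [zero_pow (by omega), mul_zero, zero_div, sub_zero]
      have h6 : (2 : ℝ) / 2 ^ (n + 1) = (1 / 2) ^ n := by
        rw [pow_succ, one_div_pow]
        have : (2 : ℝ) ^ n ≠ 0 := by positivity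
        field_simp
      rw [h6]
      have h7 : ((1 : ℝ) / 2) ^ (n + 1) = (1 / 2) ^ n / 2 := by rw [pow_succ]; ring
      rw [h7]
      simp only [one_pow, add_zero]
      field_simp
      ring

lemma aeval_reflect (a : ℝ) (f : Polynomial ℝ) (y : ℝ) :
    (Polynomial.aeval (((-a : ℝ) : ℂ) + Complex.I * (y : ℂ)) (f.comp (-Polynomial.X))).im =
      -(Polynomial.aeval ((a : ℂ) + Complex.I * (y : ℂ)) f).im := by
  rw [Polynomial.aeval_comp, map_neg, Polynomial.aeval_X]
  have h : -(((-a : ℝ) : ℂ) + Complex.I * (y : ℂ)) =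
      (starRingEnd ℂ) ((a : ℂ) + Complex.I * (y : ℂ)) := by
    simp
    ring
  rw [h, Polynomial.aeval_conj, Complex.conj_im]

lemma lam_neg (a : ℝ) (f : Polynomial ℝ) : Lam (-a) (f.comp (-Polynomial.X)) = -Lam a f := by
  unfold Lam
  simp_rw [aeval_reflect, neg_mul]
  rw [integral_neg]
  ring

lemma tm_neg (a : ℝ) (f : Polynomial ℝ) : Tm (-a) (f.comp (-Polynomial.X)) = -Tm a f := by
  unfold Tm
  simp_rw [aeval_reflect, neg_mul]
  rw [integral_neg]
  ring

end EM2

theorem tm_integrable (a : ℝ) (f : Polynomial ℝ) :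
    IntegrableOn (fun y : ℝ => (Polynomial.aeval ((a : ℂ) + Complex.I * (y : ℂ)) f).im * wp y)
      (Set.Ioi 0) := by
  simp_rw [EM.shift]
  exact (EM2.corep _).1

theorem em_core (a : ℝ) (f : Polynomial ℝ) :
    Lam a f + Tm (a + 1 / 2) f = (∫ x in a..(a + 1 / 2), f.eval x) - f.eval a / 2 := by
  have h := EM2.half_step (Polynomial.taylor a f)
  rw [Polynomial.taylor_taylor] at h
  simp only [Polynomial.taylor_eval] at h
  rw [intervalIntegral.integral_comp_add_right (fun x => f.eval x) a] at h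
  rw [EM.lam_eq, EM2.tm_eq]
  rw [zero_add, add_comm (1 / 2 : ℝ) a] at h
  exact h

/-- one step of the midpoint formula -/
theorem em_mid_step (a : ℝ) (f : Polynomial ℝ) :
    f.eval (a + 1 / 2) = (∫ x in a..(a + 1), f.eval x) - Tm (a + 1) f + Tm a f := by
  have h1 := em_core (a + 1 / 2) f
  have h2 := em_core (-(a + 1 / 2)) (f.comp (-Polynomial.X))
  have e1 : -(a + 1 / 2) + 1 / 2 = -a := by ring
  have e2 : a + 1 / 2 + 1 / 2 = a + 1 := by ring
  rw [e1, EM2.lam_neg, EM2.tm_neg] at h2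
  rw [e2] at h1
  have h3 : (∫ x in (-(a + 1 / 2))..(-a), (f.comp (-Polynomial.X)).eval x) =
      ∫ x in a..(a + 1 / 2), f.eval x := by
    have : ∀ x : ℝ, (f.comp (-Polynomial.X)).eval x = f.eval (-x) := fun x => by
      rw [Polynomial.eval_comp]; simp
    simp_rw [this]
    rw [intervalIntegral.integral_comp_neg (fun x => f.eval x), neg_neg, neg_neg]
  have h4 : (f.comp (-Polynomial.X)).eval (-(a + 1 / 2)) = f.eval (a + 1 / 2) := by
    rw [Polynomial.eval_comp]
    simp only [Polynomial.eval_neg, Polynomial.eval_X, neg_neg]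
  rw [h3, h4] at h2
  have hi : ∀ a b : ℝ, IntervalIntegrable (fun x => f.eval x) volume a b := fun a b =>
    (Polynomial.continuous f).intervalIntegrable _ _
  have hadd := intervalIntegral.integral_add_adjacent_intervals (hi a (a + 1 / 2))
    (hi (a + 1 / 2) (a + 1))
  linarith

theorem em_mid (f : Polynomial ℝ) (k : ℕ) :
    ∑ i ∈ Finset.range k, f.eval ((i : ℝ) + 1 / 2) =
      (∫ x in (0 : ℝ)..(k : ℝ), f.eval x) - Tm (k : ℝ) f + Tm 0 f := by
  induction k with
  | zero => simp
  | succ k ih =>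
    have hi : ∀ a b : ℝ, IntervalIntegrable (fun x => f.eval x) volume a b := fun a b =>
      (Polynomial.continuous f).intervalIntegrable _ _
    have hadd := intervalIntegral.integral_add_adjacent_intervals (hi 0 (k : ℝ))
      (hi (k : ℝ) ((k + 1 : ℕ) : ℝ))
    have h := em_mid_step (k : ℝ) f
    have e1 : (k : ℝ) + 1 = ((k + 1 : ℕ) : ℝ) := by push_cast; ring
    rw [e1] at h
    rw [Finset.sum_range_succ, ih, h, ← hadd]
    ring

theorem em_half (f : Polynomial ℝ) (J : ℕ) :
    ∑ j ∈ Finset.Icc 1 J, f.eval (j : ℝ) =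
      (∫ x in (0 : ℝ)..((J : ℝ) + 1 / 2), f.eval x) - f.eval 0 / 2 - Lam 0 f
        - Tm ((J : ℝ) + 1 / 2) f := by
  have h1 := SD.em f J
  have h2 := em_core (J : ℝ) f
  have hi : ∀ a b : ℝ, IntervalIntegrable (fun x => f.eval x) volume a b := fun a b =>
    (Polynomial.continuous f).intervalIntegrable _ _
  have hadd := intervalIntegral.integral_add_adjacent_intervals (hi 0 (J : ℝ))
    (hi (J : ℝ) ((J : ℝ) + 1 / 2))
  have h3 : ∑ j ∈ Finset.Icc 1 J, f.eval (j : ℝ) =
      (∑ j ∈ Finset.range J, f.eval (j : ℝ)) + f.eval (J : ℝ) - f.eval 0 := by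
    have h4 : ∑ j ∈ Finset.Icc 1 J, f.eval (j : ℝ) =
        ∑ j ∈ Finset.range J, f.eval ((j + 1 : ℕ) : ℝ) := by
      rw [Finset.range_eq_Ico, Finset.sum_Ico_add' (fun j : ℕ => f.eval (j : ℝ)) 0 J 1]
      congr 1
    rw [h4]
    have h5 := Finset.sum_range_succ (fun j : ℕ => f.eval (j : ℝ)) J
    have h6 := Finset.sum_range_succ' (fun j : ℕ => f.eval (j : ℝ)) J
    simp only [Nat.cast_zero] at h6
    linarith
  rw [h3, ← hadd]
  linarith

end Pool.Agent.Helper83.SE
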