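import Pool.Agent.Helper83.SE.Defs
import Pool.Agent.Helper83.SD.Sep

/-!
Project SE, module Enum: enumerating the points of a list of rings.

Induction on the list (`Fin.append`, or `Fin (a + b) ≃ Fin a ⊕ Fin b`).  Two points of one ring of `n`
points at height `z`: distance `2 √(1-z^2) |sin(π k/n)| ≥ 4 √(1-z^2)/n` for `0 < k < n`
(`sin x ≥ 2x/π` on `[0, π/2]`).
-/

set_option autoImplicit false

open MeasureTheory Real Pool.Agent.Helper83.SD

namespace Pool.Agent.Helper83.SE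

theorem ring_sep_aux {n : ℕ} {z : ℝ} (hz : z ^ 2 ≤ 1) {i j : ℕ} (hi : i < n) (hij : j < i) :
    4 * √(1 - z ^ 2) / (n : ℝ) ≤
      ‖sp z (2 * π * (i : ℝ) / (n : ℝ)) - sp z (2 * π * (j : ℝ) / (n : ℝ))‖ := by
  have h := sep_same hz hi hij
  have hn2 : 2 ≤ n := by omega
  have hn : (2 : ℝ) ≤ n := by exact_mod_cast hn2
  have hsin : 2 / (n : ℝ) ≤ sin (π / n) := by
    have h0 : 0 ≤ π / (n : ℝ) := by positivity
    have h1 : π / (n : ℝ) ≤ π / 2 := by
      gcongr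
    have := Real.mul_le_sin h0 h1
    refine le_trans (le_of_eq ?_) this
    have := Real.pi_ne_zero
    field_simp
  apply le_of_sq_le_sq _ (norm_nonneg _)
  refine le_trans ?_ h
  have h1 : √(1 - z ^ 2) ^ 2 = 1 - z ^ 2 := Real.sq_sqrt (by linarith)
  have e : (4 * √(1 - z ^ 2) / (n : ℝ)) ^ 2 = 4 * (1 - z ^ 2) * (2 / (n : ℝ)) ^ 2 := by
    rw [div_pow, mul_pow, h1]
    ring
  rw [e]
  have h3 : (0 : ℝ) ≤ 1 - z ^ 2 := by linarith
  gcongr

theorem ring_sep {n : ℕ} {z : ℝ} (hz : z ^ 2 ≤ 1) {i j : ℕ} (hi : i < n) (hj : j < n)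
    (hij : i ≠ j) :
    4 * √(1 - z ^ 2) / (n : ℝ) ≤
      ‖sp z (2 * π * (i : ℝ) / (n : ℝ)) - sp z (2 * π * (j : ℝ) / (n : ℝ))‖ := by
  rcases lt_or_gt_of_ne hij with h | h
  · rw [norm_sub_rev]
    exact ring_sep_aux hz hj h
  · exact ring_sep_aux hz hi h

theorem enum_points_aux (s : ℝ) (L : List (ℕ × ℝ)) (h1 : ∀ r ∈ L, 1 ≤ r.1 ∧ r.2 ^ 2 ≤ 1)
    (hself : ∀ r ∈ L, r.1 = 1 ∨ s ≤ 4 * √(1 - r.2 ^ 2) / (r.1 : ℝ))
    (hpair : L.Pairwise (fun r r' => ∀ φ φ' : ℝ, s ≤ ‖sp r.2 φ - sp r'.2 φ'‖)) :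
    ∃ y : Fin ((L.map Prod.fst).sum) → E3, (∀ k, ∃ r ∈ L, ∃ φ : ℝ, y k = sp r.2 φ) ∧
      (∀ F : E3 → ℝ, ∑ k, F (y k) = (L.map (fun r => (r.1 : ℝ) * rmean r.1 r.2 F)).sum) ∧
      ∀ k k', k ≠ k' → s ≤ ‖y k - y k'‖ := by
  induction L with
  | nil =>
    refine ⟨fun k => absurd k.isLt (by simp), fun k => absurd k.isLt (by simp), fun F => ?_,
      fun k => absurd k.isLt (by simp)⟩
    simp only [List.map_nil, List.sum_nil]
    exact Finset.sum_eq_zero (fun k _ => absurd k.isLt (by simp))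
  | cons r L ih =>
    obtain ⟨y, hy1, hy2, hy3⟩ := ih (fun q hq => h1 q (List.mem_cons_of_mem _ hq))
      (fun q hq => hself q (List.mem_cons_of_mem _ hq)) (List.pairwise_cons.mp hpair).2
    have hp := (List.pairwise_cons.mp hpair).1
    obtain ⟨hr1, hr2⟩ := h1 r List.mem_cons_self
    have hr1' : (1 : ℝ) ≤ r.1 := by exact_mod_cast hr1
    let w : Fin r.1 → E3 := fun i => sp r.2 (2 * π * (i : ℝ) / (r.1 : ℝ))
    have hlen : ((r :: L).map Prod.fst).sum = r.1 + (L.map Prod.fst).sum := by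
      simp
    let Y : Fin (r.1 + (L.map Prod.fst).sum) → E3 := Fin.append w y
    have Y1 : ∀ k, ∃ q ∈ r :: L, ∃ φ : ℝ, Y k = sp q.2 φ := by
      intro k
      refine Fin.addCases (fun i => ?_) (fun i => ?_) k
      · refine ⟨r, List.mem_cons_self, 2 * π * (i : ℝ) / (r.1 : ℝ), ?_⟩
        simp [Y, w, Fin.append_left]
      · obtain ⟨q, hq, φ, he⟩ := hy1 i
        refine ⟨q, List.mem_cons_of_mem _ hq, φ, ?_⟩
        simp [Y, Fin.append_right, he]
    have Y2 : ∀ F : E3 → ℝ, ∑ k, F (Y k) =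
        ((r :: L).map (fun r => (r.1 : ℝ) * rmean r.1 r.2 F)).sum := by
      intro F
      rw [Fin.sum_univ_add, List.map_cons, List.sum_cons, ← hy2 F]
      congr 1
      · simp only [Y, Fin.append_left, w]
        rw [Fin.sum_univ_eq_sum_range (fun i : ℕ => F (sp r.2 (2 * π * (i : ℝ) / (r.1 : ℝ))))]
        unfold rmean
        field_simp
      · simp only [Y, Fin.append_right]
    have Y3 : ∀ k k', k ≠ k' → s ≤ ‖Y k - Y k'‖ := by
      intro k
      refine Fin.addCases (fun i => ?_) (fun i => ?_) k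
      · intro k'
        refine Fin.addCases (fun j => ?_) (fun j => ?_) k'
        · intro hne
          have hij : i.val ≠ j.val := by
            intro h
            exact hne (by rw [Fin.ext h])
          simp only [Y, Fin.append_left, w]
          rcases hself r List.mem_cons_self with h | h
          · have h2 := i.isLt
            have h3 := j.isLt
            omega
          · exact h.trans (ring_sep hr2 i.isLt j.isLt hij)
        · intro _
          obtain ⟨q, hq, φ, he⟩ := hy1 j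
          simp only [Y, Fin.append_left, Fin.append_right, w, he]
          exact hp q hq _ _
      · intro k'
        refine Fin.addCases (fun j => ?_) (fun j => ?_) k'
        · intro _
          obtain ⟨q, hq, φ, he⟩ := hy1 i
          simp only [Y, Fin.append_left, Fin.append_right, w, he]
          rw [norm_sub_rev]
          exact hp q hq _ _
        · intro hne
          simp only [Y, Fin.append_right]
          exact hy3 i j (fun h => hne (by rw [h]))
    rw [hlen]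
    exact ⟨Y, Y1, Y2, Y3⟩

theorem enum_points (s : ℝ) (L : List (ℕ × ℝ)) (h1 : ∀ r ∈ L, 1 ≤ r.1 ∧ r.2 ^ 2 ≤ 1)
    (hself : ∀ r ∈ L, r.1 = 1 ∨ s ≤ 4 * √(1 - r.2 ^ 2) / (r.1 : ℝ))
    (hpair : L.Pairwise (fun r r' => ∀ φ φ' : ℝ, s ≤ ‖sp r.2 φ - sp r'.2 φ'‖)) :
    ∃ y : Fin ((L.map Prod.fst).sum) → E3, (∀ k, ‖y k‖ = 1) ∧
      (∀ F : E3 → ℝ, ∑ k, F (y k) = (L.map (fun r => (r.1 : ℝ) * rmean r.1 r.2 F)).sum) ∧
      ∀ k k', k ≠ k' → s ≤ ‖y k - y k'‖ := by
  obtain ⟨y, hy1, hy2, hy3⟩ := enum_points_aux s L h1 hself hpair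
  refine ⟨y, fun k => ?_, hy2, hy3⟩
  obtain ⟨r, hr, φ, he⟩ := hy1 k
  rw [he]
  exact sp_norm (h1 r hr).2 φ

end Pool.Agent.Helper83.SE
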