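import Pool.Agent.Helper83.SE.Defs
import Pool.Agent.Helper83.SD.Exist

/-!
Project SE, module Exist2: the variational existence lemma with a general Lipschitz constant.

Same proof as `SD.Exist` (copy it), with `K` in the place of `1.05 (t+1) √(lam t)` and the hypothesis
`hlip` in the place of `lip`.
-/

set_option autoImplicit false

open MeasureTheory Real Pool.Agent.Helper83.SD

namespace Pool.Agent.Helper83.SE

/-- Minkowski and the Lipschitz bound -/
theorem grad_low2 {t N : ℕ} {c0 K : ℝ} {x y : Fin N → E3} (hN : 0 < N) (hK0 : 0 ≤ K)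
    (hlip : ∀ p : Poly, p.totalDegree ≤ t → ∀ x y : E3, ‖x‖ = 1 → ‖y‖ = 1 → ‖x - y‖ ≤ 1 →
      ∑ a, (ev (Lr a p) x - ev (Lr a p) y) ^ 2 ≤ (K * ‖x - y‖) ^ 2 * en p)
    (hx : ∀ k, ‖x k‖ = 1) (hy : ∀ k, ‖y k‖ = 1) (hc0 : 0 < c0)
    (hc : ∀ p : Poly, p.totalDegree ≤ t →
      c0 * mu (p ^ 2) ≤ (1 / (N : ℝ)) * ∑ k, (ev p (y k)) ^ 2)
    (hxy : ∀ k, ‖x k - y k‖ ≤ 1) (P : Poly) (hP : P.totalDegree ≤ t) (hen : en P = 1)
    (A : Fin N → E3) (hA : ∀ k a, A k a = ev (Lr a P) (x k)) :
    √c0 * √(N : ℝ) - K * nu (x - y) ≤ nu A := by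
  have hN' : (0 : ℝ) < N := by exact_mod_cast hN
  set B : Fin N → E3 := fun k => WithLp.toLp 2 (fun a : Fin 3 => ev (Lr a P) (y k)) with hB
  have h1 : nu B ≤ nu A + nu (B - A) := by
    have := nu_add_le A (B - A)
    simpa using this
  have h2 : √c0 * √(N : ℝ) ≤ nu B := by
    rw [← Real.sqrt_mul hc0.le]
    unfold nu
    apply Real.sqrt_le_sqrt
    have h3 : ∀ k, ‖B k‖ ^ 2 = ∑ a, (ev (Lr a P) (y k)) ^ 2 := by
      intro k
      rw [EuclideanSpace.norm_sq_eq]
      refine Finset.sum_congr rfl fun a _ => ?_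
      rw [Real.norm_eq_abs, sq_abs]
    simp_rw [h3]
    rw [Finset.sum_comm]
    have h4 : ∑ a, c0 * mu ((Lr a P) ^ 2) = c0 := by
      rw [← Finset.mul_sum]
      have : ∑ a, mu ((Lr a P) ^ 2) = en P := by
        unfold en gr
        exact Finset.sum_congr rfl fun a _ => by rw [sq]
      rw [this, hen, mul_one]
    have h5 : c0 * (N : ℝ) = ∑ a : Fin 3, c0 * mu ((Lr a P) ^ 2) * N := by
      rw [← Finset.sum_mul, h4]
    rw [h5]
    refine Finset.sum_le_sum fun a _ => ?_
    have h6 := hc (Lr a P) ((Lr_deg a P).trans hP)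
    have h7 := mul_le_mul_of_nonneg_right h6 hN'.le
    have h8 : (1 / (N : ℝ)) * (∑ k, (ev (Lr a P) (y k)) ^ 2) * N
        = ∑ k, (ev (Lr a P) (y k)) ^ 2 := by field_simp
    rw [h8] at h7
    exact h7
  have h3 : nu (B - A) ≤ K * nu (x - y) := by
    have hk : 0 ≤ K := hK0
    rw [← nu_smul hk]
    refine nu_mono fun k => ?_
    rw [Pi.smul_apply, norm_smul, Real.norm_of_nonneg hk, Pi.sub_apply, Pi.sub_apply]
    refine le_of_sq_le_sq ?_ (by positivity)
    have h4 := hlip P hP (x k) (y k) (hx k) (hy k) (hxy k)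
    rw [hen, mul_one] at h4
    refine le_trans (le_of_eq ?_) h4
    rw [EuclideanSpace.norm_sq_eq]
    refine Finset.sum_congr rfl fun a _ => ?_
    rw [Real.norm_eq_abs, sq_abs]
    have h5 : (B k - A k) a = ev (Lr a P) (y k) - ev (Lr a P) (x k) := by
      rw [PiLp.sub_apply, hA]
    rw [h5]
    ring
  linarith

theorem exist_design2 (t N : ℕ) (c0 δ K : ℝ) (y : Fin N → E3) (hN : 0 < N)
    (hy : ∀ k, ‖y k‖ = 1) (hc0 : 0 < c0) (hδ : 0 ≤ δ) (hK0 : 0 ≤ K)
    (hlip : ∀ p : Poly, p.totalDegree ≤ t → ∀ x y : E3, ‖x‖ = 1 → ‖y‖ = 1 → ‖x - y‖ ≤ 1 →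
      ∑ a, (ev (Lr a p) x - ev (Lr a p) y) ^ 2 ≤ (K * ‖x - y‖) ^ 2 * en p)
    (hc : ∀ p : Poly, p.totalDegree ≤ t →
      c0 * mu (p ^ 2) ≤ (1 / (N : ℝ)) * ∑ k, (ev p (y k)) ^ 2)
    (hd : ∀ p : Poly, p.totalDegree ≤ t →
      |(1 / (N : ℝ)) * (∑ k, ev p (y k)) - mu p| ≤ δ * √(en p))
    (hK : 4 * K * δ < c0)
    (hr : 2 * δ / √c0 * √(N : ℝ) ≤ 1) :
    ∃ x : Fin N → E3, (∀ k, ‖x k‖ = 1) ∧ (∀ k, ‖x k - y k‖ ≤ 2 * δ / √c0 * √(N : ℝ)) ∧
      ∀ p : Poly, p.totalDegree ≤ t → (1 / (N : ℝ)) * (∑ k, ev p (x k)) = mu p := by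
  have hN' : (0 : ℝ) < N := by exact_mod_cast hN
  obtain ⟨n, e, hdeg, hmu, hgr, hrep⟩ := basis t
  set E : (Fin N → E3) → EuclideanSpace ℝ (Fin n) := fun x =>
    WithLp.toLp 2 (fun i => (1 / (N : ℝ)) * ∑ k, ev (e i) (x k)) with hE
  have hEi : ∀ x i, E x i = (1 / (N : ℝ)) * ∑ k, ev (e i) (x k) := fun x i => rfl
  have hEc : Continuous E := by
    refine (PiLp.continuous_toLp 2 _).comp (continuous_pi fun i => ?_)
    refine continuous_const.mul (continuous_finsetSum _ fun k _ => ?_)
    exact (ev_continuous _).comp (continuous_apply k)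
  set κ : ℝ := √c0 / 2 with hκ
  have hsc : 0 < √c0 := Real.sqrt_pos.mpr hc0
  have hsN : 0 < √(N : ℝ) := Real.sqrt_pos.mpr hN'
  have hκ0 : 0 < κ := by positivity
  set F : (Fin N → E3) → ℝ := fun x => ‖E x‖ + κ / √(N : ℝ) * nu (x - y) with hF
  have hnuc : Continuous fun x : Fin N → E3 => nu (x - y) := by
    unfold nu
    refine Real.continuous_sqrt.comp (continuous_finsetSum _ fun k _ => ?_)
    refine (Continuous.pow ?_ 2)
    exact ((continuous_apply k).sub continuous_const).norm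
  have hFc : Continuous F := hEc.norm.add (continuous_const.mul hnuc)
  have hcpt : IsCompact (Set.pi Set.univ fun _ : Fin N => Metric.sphere (0 : E3) 1) :=
    isCompact_univ_pi fun _ => isCompact_sphere 0 1
  have hne : (Set.pi Set.univ fun _ : Fin N => Metric.sphere (0 : E3) 1).Nonempty :=
    ⟨y, fun k _ => by simp [hy k]⟩
  obtain ⟨x, hxS, hmin⟩ := hcpt.exists_isMinOn hne hFc.continuousOn
  have hx : ∀ k, ‖x k‖ = 1 := fun k => by simpa using hxS k (Set.mem_univ k)
  have hmin' : ∀ z : Fin N → E3, (∀ k, ‖z k‖ = 1) → F x ≤ F z := fun z hz =>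
    hmin (show z ∈ _ from fun k _ => by simp [hz k])
  -- the value at `y`
  have hEy : ‖E y‖ ≤ δ := by
    rcases eq_or_ne (E y) 0 with h0 | h0
    · rw [h0, norm_zero]; exact hδ
    have hn0 : 0 < ‖E y‖ := norm_pos_iff.mpr h0
    set c : Fin n → ℝ := fun i => E y i / ‖E y‖ with hcdef
    have hc1 : ∑ i, c i ^ 2 = 1 := by
      have h1 := EuclideanSpace.norm_sq_eq (E y)
      simp only [Real.norm_eq_abs, sq_abs] at h1
      simp only [hcdef, div_pow]
      rw [← Finset.sum_div, ← h1, div_self (by positivity)]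
    have h2 := hd (∑ i, c i • e i) (deg_comb hdeg c)
    rw [mu_comb hmu, en_comb hgr c hc1, Real.sqrt_one, mul_one, sub_zero] at h2
    have h3 : (1 / (N : ℝ)) * (∑ k, ev (∑ i, c i • e i) (y k)) = ‖E y‖ := by
      have h4 : (1 / (N : ℝ)) * (∑ k, ev (∑ i, c i • e i) (y k)) = ∑ i, c i * E y i := by
        simp_rw [ev_sum, ev_smul]
        rw [Finset.sum_comm, Finset.mul_sum]
        refine Finset.sum_congr rfl fun i _ => ?_
        rw [hEi, ← Finset.mul_sum]
        ring
      rw [h4]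
      have h5 : ∀ i, c i * E y i = E y i ^ 2 / ‖E y‖ := fun i => by
        simp only [hcdef]; ring
      simp_rw [h5]
      rw [← Finset.sum_div]
      have h1 := EuclideanSpace.norm_sq_eq (E y)
      simp only [Real.norm_eq_abs, sq_abs] at h1
      rw [← h1, sq, mul_div_assoc, div_self hn0.ne', mul_one]
    rw [h3] at h2
    exact (le_abs_self _).trans h2
  have hFy : F y ≤ δ := by
    have : nu (y - y) = 0 := by simp [nu]
    simp only [hF, this, mul_zero, add_zero]
    exact hEy
  have hnu : nu (x - y) ≤ 2 * δ / √c0 * √(N : ℝ) := by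
    have h1 := (hmin' y hy).trans hFy
    have h2 : κ / √(N : ℝ) * nu (x - y) ≤ δ := by
      have := norm_nonneg (E x)
      simp only [hF] at h1
      linarith
    rw [div_mul_eq_mul_div, div_le_iff₀ hsN] at h2
    have h3 : 2 * δ / √c0 * √(N : ℝ) = (δ * √(N : ℝ)) / κ := by
      rw [hκ]; field_simp
    rw [h3, le_div_iff₀ hκ0]
    linarith
  have hdist : ∀ k, ‖x k - y k‖ ≤ 2 * δ / √c0 * √(N : ℝ) := fun k =>
    (norm_le_nu (x - y) k).trans hnu
  refine ⟨x, hx, hdist, ?_⟩
  -- the main claim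
  have hE0 : E x = 0 := by
    by_contra h0
    have hn0 : 0 < ‖E x‖ := norm_pos_iff.mpr h0
    set c : Fin n → ℝ := fun i => E x i / ‖E x‖ with hcdef
    have hc1 : ∑ i, c i ^ 2 = 1 := by
      have h1 := EuclideanSpace.norm_sq_eq (E x)
      simp only [Real.norm_eq_abs, sq_abs] at h1
      simp only [hcdef, div_pow]
      rw [← Finset.sum_div, ← h1, div_self (by positivity)]
    set P : Poly := ∑ i, c i • e i with hP
    have hPd : P.totalDegree ≤ t := deg_comb hdeg c
    have hPe : en P = 1 := en_comb hgr c hc1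
    set A : Fin N → E3 := fun k => WithLp.toLp 2 (fun a : Fin 3 => ev (Lr a P) (x k)) with hA
    have hlow := grad_low2 hN hK0 hlip hx hy hc0 hc (fun k => (hdist k).trans hr) P hPd hPe A
      (fun _ _ => rfl)
    -- `κ √N < nu A`
    have hgt : κ * √(N : ℝ) < nu A := by
      have hk : 0 ≤ K := hK0
      have h1 : K * nu (x - y)
          ≤ K * (2 * δ / √c0 * √(N : ℝ)) :=
        mul_le_mul_of_nonneg_left hnu hk
      have h2 : K * (2 * δ / √c0 * √(N : ℝ)) < κ * √(N : ℝ) := by
        have h3 : K * (2 * δ / √c0 * √(N : ℝ))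
            = (4 * K * δ) / (2 * √c0) * √(N : ℝ) := by
          field_simp
          ring
        rw [h3]
        apply mul_lt_mul_of_pos_right _ hsN
        rw [hκ, div_lt_div_iff₀ (by positivity) (by positivity)]
        have h4 : √c0 * √c0 = c0 := Real.mul_self_sqrt hc0.le
        nlinarith
      have h5 : √c0 * √(N : ℝ) = 2 * (κ * √(N : ℝ)) := by rw [hκ]; ring
      linarith
    set w : Fin N → E3 := fun k => cr (A k) (x k) with hw
    have hAx : ∀ k, ∑ a, x k a * A k a = 0 := fun k => x_dot_L P (x k)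
    have hwx : ∀ k, inner ℝ (x k) (w k) = 0 := fun k => inner_cr _ _
    have hwn : ∀ k, ‖w k‖ ^ 2 = ‖A k‖ ^ 2 := fun k => norm_cr_sq _ _ (hAx k) (hx k)
    have hnw : nu w = nu A := by
      unfold nu
      simp_rw [hwn]
    set X : ℝ → Fin N → E3 := fun s k => crv (x k) (w k) s with hX
    have hXn : ∀ s k, ‖X s k‖ = 1 := fun s k => crv_norm (hx k) (hwx k) s
    have hX0 : X 0 = x := by funext k; exact crv_zero _ _
    have hXd : ∀ s, 0 ≤ s → nu (X s - y) ≤ nu (x - y) + s * nu A := by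
      intro s hs
      have h1 : nu (X s - y) ≤ nu ((x - y) + s • (-w)) := by
        refine nu_mono fun k => ?_
        have := crv_dist (hx k) (hwx k) (hy k) s
        simp only [Pi.sub_apply, Pi.add_apply, Pi.smul_apply, Pi.neg_apply, smul_neg]
        rw [neg_smul] at this
        exact this
      have h2 : nu (-w) = nu A := by
        rw [← hnw]; unfold nu; simp
      calc nu (X s - y) ≤ nu ((x - y) + s • (-w)) := h1
        _ ≤ nu (x - y) + nu (s • (-w)) := nu_add_le _ _
        _ = nu (x - y) + s * nu A := by rw [nu_smul hs, h2]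
    -- derivative of the values
    have hder : ∀ i, HasDerivAt (fun s => E (X s) i)
        (-((1 / (N : ℝ)) * ∑ k, ∑ a, A k a * ev (Lr a (e i)) (x k))) 0 := by
      intro i
      have h1 : ∀ k, HasDerivAt (fun s => ev (e i) (X s k))
          (-(∑ a, A k a * ev (Lr a (e i)) (x k))) 0 := by
        intro k
        have h2 := hasDerivAt_ev (e i) (crv_deriv (x k) (w k))
        rw [crv_zero] at h2
        have h3 : ∑ j, ev (MvPolynomial.pderiv j (e i)) (x k) * (-w k) j
            = -(∑ a, A k a * ev (Lr a (e i)) (x k)) := by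
          rw [← sum_Lr, ← Finset.sum_neg_distrib]
          refine Finset.sum_congr rfl fun j _ => ?_
          rw [PiLp.neg_apply, hw, cr_apply]
          ring
        rw [h3] at h2
        exact h2
      have h4 := (HasDerivAt.fun_sum (u := Finset.univ) fun k _ => h1 k).const_mul (1 / (N : ℝ))
      simp only [hEi]
      rw [Finset.sum_neg_distrib, mul_neg] at h4
      exact h4
    have hnd : HasDerivAt (fun s => ‖E (X s)‖) (-(nu A ^ 2 / N)) 0 := by
      have h1 : HasDerivAt (fun s => ∑ i, (E (X s) i) ^ 2)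
          (∑ i, 2 * E x i * (-((1 / (N : ℝ)) * ∑ k, ∑ a, A k a * ev (Lr a (e i)) (x k)))) 0 := by
        refine HasDerivAt.fun_sum fun i _ => ?_
        have h2 := (hder i).fun_pow 2
        rw [hX0] at h2
        simpa using h2
      have h2 : (fun s => ‖E (X s)‖) = fun s => √(∑ i, (E (X s) i) ^ 2) := by
        funext s
        rw [EuclideanSpace.norm_eq]
        simp only [Real.norm_eq_abs, sq_abs]
      have h3 : ∑ i, (E (X 0) i) ^ 2 = ‖E x‖ ^ 2 := by
        rw [hX0, EuclideanSpace.norm_sq_eq]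
        simp only [Real.norm_eq_abs, sq_abs]
      rw [h2]
      have h4 := h1.sqrt (by rw [h3]; positivity)
      rw [h3, Real.sqrt_sq hn0.le] at h4
      have h5 : (∑ i, 2 * E x i * (-((1 / (N : ℝ)) * ∑ k, ∑ a, A k a * ev (Lr a (e i)) (x k))))
          / (2 * ‖E x‖) = -(nu A ^ 2 / N) := by
        have h6 : ∀ k a, A k a = ∑ i, c i * ev (Lr a (e i)) (x k) := by
          intro k a
          have : A k a = ev (Lr a P) (x k) := rfl
          rw [this, hP, map_sum, ev_sum]
          refine Finset.sum_congr rfl fun i _ => ?_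
          rw [Derivation.map_smul, ev_smul]
        have h7 : nu A ^ 2 = ∑ i, c i * ∑ k, ∑ a, A k a * ev (Lr a (e i)) (x k) := by
          rw [nu_sq]
          have h8 : ∀ k, ‖A k‖ ^ 2 = ∑ a, A k a * ∑ i, c i * ev (Lr a (e i)) (x k) := by
            intro k
            rw [EuclideanSpace.norm_sq_eq]
            refine Finset.sum_congr rfl fun a _ => ?_
            rw [Real.norm_eq_abs, sq_abs, sq, ← h6]
          simp_rw [h8, Finset.mul_sum]
          symm
          rw [Finset.sum_comm]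
          refine Finset.sum_congr rfl fun k _ => ?_
          rw [Finset.sum_comm]
          refine Finset.sum_congr rfl fun a _ => ?_
          refine Finset.sum_congr rfl fun i _ => ?_
          ring
        rw [h7]
        have h9 : ∀ i, 2 * E x i * (-((1 / (N : ℝ)) * ∑ k, ∑ a, A k a * ev (Lr a (e i)) (x k)))
            = (2 * ‖E x‖) * (-(1 / (N : ℝ)) * (c i * ∑ k, ∑ a, A k a * ev (Lr a (e i)) (x k))) := by
          intro i
          have : E x i = c i * ‖E x‖ := by
            simp only [hcdef]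
            field_simp
          rw [this]
          ring
        simp_rw [h9]
        rw [← Finset.mul_sum, mul_div_assoc, mul_comm, div_mul_cancel₀ _ (by positivity),
          ← Finset.mul_sum]
        ring
      rw [h5] at h4
      exact h4
    have hslope : Filter.Tendsto (slope (fun s => ‖E (X s)‖) 0) (nhdsWithin 0 (Set.Ioi 0))
        (nhds (-(nu A ^ 2 / N))) :=
      (hasDerivWithinAt_iff_tendsto_slope' (Set.self_notMem_Ioi)).mp hnd.hasDerivWithinAt
    have hge : -(κ / √(N : ℝ) * nu A) ≤ -(nu A ^ 2 / N) := by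
      refine ge_of_tendsto hslope ?_
      filter_upwards [self_mem_nhdsWithin] with s hs
      have hs' : 0 < s := hs
      rw [slope_def_field, sub_zero, le_div_iff₀ hs']
      have h1 := hmin' (X s) (hXn s)
      have h2 := hXd s hs'.le
      have h3 : κ / √(N : ℝ) * nu (X s - y) ≤ κ / √(N : ℝ) * (nu (x - y) + s * nu A) :=
        mul_le_mul_of_nonneg_left h2 (by positivity)
      simp only [hF] at h1
      simp only [hX0]
      linarith
    have h1 : nu A ^ 2 / N ≤ κ / √(N : ℝ) * nu A := by linarith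
    have hA0 : 0 < nu A := lt_trans (by positivity) hgt
    rw [div_le_iff₀ hN'] at h1
    have h2 : κ / √(N : ℝ) * nu A * N = κ * √(N : ℝ) * nu A := by
      have h3 : (N : ℝ) = √(N : ℝ) * √(N : ℝ) := (Real.mul_self_sqrt hN'.le).symm
      calc κ / √(N : ℝ) * nu A * N = κ / √(N : ℝ) * nu A * (√(N : ℝ) * √(N : ℝ)) := by rw [← h3]
        _ = κ * √(N : ℝ) * nu A := by field_simp
    rw [h2] at h1
    nlinarith
  intro p hp
  have h1 : ∀ k, ev p (x k) = mu p + ∑ i, gr p (e i) * ev (e i) (x k) := fun k =>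
    hrep p hp (x k) (hx k)
  simp_rw [h1]
  rw [Finset.sum_add_distrib, Finset.sum_const, Finset.card_univ, Fintype.card_fin,
    Finset.sum_comm]
  have h2 : ∀ i, ∑ k, gr p (e i) * ev (e i) (x k) = 0 := by
    intro i
    rw [← Finset.mul_sum]
    have h3 : E x i = 0 := by rw [hE0]; rfl
    rw [hEi] at h3
    have h4 : ∑ k, ev (e i) (x k) = 0 := by
      rcases mul_eq_zero.mp h3 with h | h
      · exfalso
        have : (1 : ℝ) / N ≠ 0 := by positivity
        exact this h
      · exact h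
    rw [h4, mul_zero]
  rw [Finset.sum_eq_zero fun i _ => h2 i, nsmul_eq_mul, add_zero]
  field_simp

end Pool.Agent.Helper83.SE
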