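import Pool.Agent.Helper83.SE.Defs
import Pool.Agent.Helper83.SD.Lip
import Pool.Agent.Helper83.SD.Pars
import Pool.Agent.Helper83.SD.Fourier

/-!
Project SE, module Lip2: the sharp Lipschitz bound for the gradient vector.

`grad_sup`: rotate `x` to the north pole (`mu_rot`), modes `u, v` of `q`; at the pole the gradient
has norm `2 |u_1(1) + i v_1(1)|` (differentiate the mode expansion in the height coordinate
`√(1-z^2)`; only `m = ±1` contribute), `u_1(1)^2 ≤ T^2/8 nrm 1 u_1` (`mode_bound`, `m = 1`, `i = 0`),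
same for `v_1`, and `nmode 1 = nmode (-1)`, `nmode 1 + nmode (-1) ≤ mu(q^2)`:
`|grad|^2 ≤ 4 (T^2/8)(1/2) mu(q^2) = (T/2)^2 mu(q^2)`.
`lip2`: as in `SD.Lip` (`lip_scalar`, `chord`), with `grad_sup` in the place of `ev_Lc_bound`:
for `Q = Σ c_a L_a p`, `|Q(y) - Q(x)| ≤ α (T/2) √(mu Q^2)`, `α ≤ 1.05 ‖x-y‖`, `mu Q^2 ≤ en p`.
-/

set_option autoImplicit false

open MeasureTheory Real Pool.Agent.Helper83.SD

namespace Pool.Agent.Helper83.SE

/-- the mode expansion along a great circle through the north pole -/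
private theorem pole_deriv {t : ℕ} {q : Poly} {u v : ℤ → Polynomial ℝ} (h : Modes t q u v)
    (φ : ℝ) (w : E3) (hw0 : w 0 = cos φ) (hw1 : w 1 = sin φ) (hw2 : w 2 = 0) (D : ℝ)
    (hD : HasDerivAt (fun s => ev q (cos s • sp 1 0 + sin s • w)) D 0) :
    (D : ℂ) = ∑ m ∈ Finset.Icc (-(t : ℤ)) t, (if m.natAbs = 1 then
      ((((u m).eval 1 : ℝ) : ℂ) + (((v m).eval 1 : ℝ) : ℂ) * Complex.I) *
      Complex.exp (Complex.I * (m : ℂ) * (φ : ℂ)) else 0) := by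
  have hF : HasDerivAt (fun s : ℝ => ∑ m ∈ Finset.Icc (-(t : ℤ)) t,
      ((sin s ^ m.natAbs : ℝ) : ℂ) *
      ((((u m).eval (cos s) : ℝ) : ℂ) + (((v m).eval (cos s) : ℝ) : ℂ) * Complex.I) *
      Complex.exp (Complex.I * (m : ℂ) * (φ : ℂ)))
      (∑ m ∈ Finset.Icc (-(t : ℤ)) t, (if m.natAbs = 1 then
      ((((u m).eval 1 : ℝ) : ℂ) + (((v m).eval 1 : ℝ) : ℂ) * Complex.I) *
      Complex.exp (Complex.I * (m : ℂ) * (φ : ℂ)) else 0)) 0 := by
    refine HasDerivAt.fun_sum fun m _ => ?_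
    have hp : ∀ f : Polynomial ℝ, HasDerivAt (fun s : ℝ => ((f.eval (cos s) : ℝ) : ℂ)) 0 0 := by
      intro f
      have h1 := ((f.hasDerivAt (cos 0)).comp 0 (Real.hasDerivAt_cos 0)).ofReal_comp
      simpa using h1
    have hs : HasDerivAt (fun s : ℝ => ((sin s ^ m.natAbs : ℝ) : ℂ))
        (if m.natAbs = 1 then 1 else 0) 0 := by
      have h1 := ((Real.hasDerivAt_sin 0).fun_pow m.natAbs).ofReal_comp
      have e : (((m.natAbs : ℝ) * sin 0 ^ (m.natAbs - 1) * cos 0 : ℝ) : ℂ) =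
          (if m.natAbs = 1 then 1 else 0) := by
        rw [Real.sin_zero, Real.cos_zero]
        by_cases h1 : m.natAbs = 1
        · rw [if_pos h1, h1]
          norm_num
        · rw [if_neg h1]
          by_cases h2 : m.natAbs = 0
          · rw [h2]
            norm_num
          · have h3 : m.natAbs - 1 ≠ 0 := by omega
            rw [zero_pow h3]
            simp
      rw [← e]
      exact h1
    have h2 := (hs.mul ((hp (u m)).add ((hp (v m)).mul_const Complex.I))).mul_const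
      (Complex.exp (Complex.I * (m : ℂ) * (φ : ℂ)))
    have e : (if m.natAbs = 1 then
        ((((u m).eval 1 : ℝ) : ℂ) + (((v m).eval 1 : ℝ) : ℂ) * Complex.I) *
        Complex.exp (Complex.I * (m : ℂ) * (φ : ℂ)) else 0) =
        ((if m.natAbs = 1 then (1 : ℂ) else 0) *
        ((((u m).eval (cos 0) : ℝ) : ℂ) + (((v m).eval (cos 0) : ℝ) : ℂ) * Complex.I) +
        ((sin 0 ^ m.natAbs : ℝ) : ℂ) * (0 + 0 * Complex.I)) *
        Complex.exp (Complex.I * (m : ℂ) * (φ : ℂ)) := by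
      rw [Real.cos_zero, zero_mul, add_zero, mul_zero, add_zero]
      by_cases h1 : m.natAbs = 1
      · rw [if_pos h1, if_pos h1, one_mul]
      · rw [if_neg h1, if_neg h1, zero_mul, zero_mul]
    rw [e]
    exact h2
  have hu : UniqueDiffWithinAt ℝ (Set.Icc (0 : ℝ) π) 0 :=
    uniqueDiffOn_Icc Real.pi_pos 0 ⟨le_rfl, Real.pi_pos.le⟩
  have hcongr : ∀ s ∈ Set.Icc (0 : ℝ) π,
      ((ev q (cos s • sp 1 0 + sin s • w) : ℝ) : ℂ) = ∑ m ∈ Finset.Icc (-(t : ℤ)) t,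
      ((sin s ^ m.natAbs : ℝ) : ℂ) *
      ((((u m).eval (cos s) : ℝ) : ℂ) + (((v m).eval (cos s) : ℝ) : ℂ) * Complex.I) *
      Complex.exp (Complex.I * (m : ℂ) * (φ : ℂ)) := by
    intro s hs
    have hsn : 0 ≤ sin s := Real.sin_nonneg_of_nonneg_of_le_pi hs.1 hs.2
    have hsq : √(1 - cos s ^ 2) = sin s := by
      rw [← Real.sin_sq, Real.sqrt_sq hsn]
    have h1 : cos s • sp 1 0 + sin s • w = sp (cos s) φ := by
      have e1 : √(1 - (1 : ℝ) ^ 2) = 0 := by norm_num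
      ext i
      fin_cases i
      · simp [sp, hw0, hsq]
      · simp [sp, hw1, hsq]
      · simp [sp, hw2]
    rw [h1, h.eq (cos s) φ (Real.cos_sq_le_one s)]
    rw [hsq]
  have h1 := hD.ofReal_comp.hasDerivWithinAt (s := Set.Icc (0 : ℝ) π)
  have h2 := hF.hasDerivWithinAt (s := Set.Icc (0 : ℝ) π)
  have h3 := h2.congr (fun s hs => hcongr s hs) (hcongr 0 ⟨le_rfl, Real.pi_pos.le⟩)
  exact hu.eq_deriv _ h1 h3

/-- the derivative at the north pole -/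
private theorem pole_bound {t : ℕ} {q : Poly} {u v : ℤ → Polynomial ℝ} (h : Modes t q u v)
    (w : E3) (hw : ‖w‖ = 1) (hw2 : w 2 = 0) (D : ℝ)
    (hD : HasDerivAt (fun s => ev q (cos s • sp 1 0 + sin s • w)) D 0) :
    D ^ 2 ≤ ((((t : ℝ) + 1) ^ 2) / 2) ^ 2 * mu (q ^ 2) := by
  have hww : w 0 ^ 2 + w 1 ^ 2 = 1 := by
    have := EuclideanSpace.norm_sq_eq w
    rw [hw] at this
    simp only [Fin.sum_univ_three, Real.norm_eq_abs, sq_abs, hw2] at this
    linarith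
  obtain ⟨φ, hφ0, hφ1⟩ : ∃ φ : ℝ, w 0 = cos φ ∧ w 1 = sin φ := by
    obtain ⟨c, hc⟩ : ∃ c : ℂ, c = ⟨w 0, w 1⟩ := ⟨_, rfl⟩
    have hcn : ‖c‖ = 1 := by
      rw [Complex.norm_def, Complex.normSq_apply, hc, Real.sqrt_eq_one]
      simp only
      linarith
    have hc0 : c ≠ 0 := by
      intro h0
      rw [h0, norm_zero] at hcn
      norm_num at hcn
    refine ⟨c.arg, ?_, ?_⟩
    · rw [Complex.cos_arg hc0, hcn, div_one, hc]
    · rw [Complex.sin_arg, hcn, div_one, hc]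
  have hd := pole_deriv h φ w hφ0 hφ1 hw2 D hD
  have hnn : ∀ m, 0 ≤ nmode u v m := fun m => add_nonneg (nrm_nonneg _ _) (nrm_nonneg _ _)
  have hsum := mu_sq_sum h
  rcases Nat.eq_zero_or_pos t with ht | ht
  · subst ht
    have : (D : ℂ) = 0 := by
      rw [hd]
      simp
    have hD0 : D = 0 := by exact_mod_cast this
    rw [hD0, hsum]
    have : 0 ≤ ∑ m ∈ Finset.Icc (-((0 : ℕ) : ℤ)) ((0 : ℕ) : ℤ), nmode u v m :=
      Finset.sum_nonneg fun m _ => hnn m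
    rw [zero_pow (by norm_num)]
    exact mul_nonneg (sq_nonneg _) this
  · obtain ⟨T, hT⟩ : ∃ T : ℝ, T = ((t : ℝ) + 1) ^ 2 := ⟨_, rfl⟩
    have hsplit : ∀ f : ℤ → ℂ, ∑ m ∈ Finset.Icc (-(t : ℤ)) t, (if m.natAbs = 1 then f m else 0) =
        f 1 + f (-1) := by
      intro f
      rw [← Finset.sum_filter]
      have hset : (Finset.Icc (-(t : ℤ)) t).filter (fun m => m.natAbs = 1) = {1, -1} := by
        ext m
        simp only [Finset.mem_filter, Finset.mem_Icc, Finset.mem_insert, Finset.mem_singleton]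
        omega
      rw [hset, Finset.sum_pair (by norm_num)]
    rw [hsplit] at hd
    obtain ⟨a, ha⟩ : ∃ a : ℂ, a = ((((u 1).eval 1 : ℝ) : ℂ) + (((v 1).eval 1 : ℝ) : ℂ) *
      Complex.I) * Complex.exp (Complex.I * ((1 : ℤ) : ℂ) * (φ : ℂ)) := ⟨_, rfl⟩
    obtain ⟨b, hb⟩ : ∃ b : ℂ, b = ((((u (-1)).eval 1 : ℝ) : ℂ) + (((v (-1)).eval 1 : ℝ) : ℂ) *
      Complex.I) * Complex.exp (Complex.I * ((-1 : ℤ) : ℂ) * (φ : ℂ)) := ⟨_, rfl⟩
    rw [← ha, ← hb] at hd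
    have hexp : ∀ m : ℤ, ‖Complex.exp (Complex.I * (m : ℂ) * (φ : ℂ))‖ = 1 := by
      intro m
      have : Complex.I * (m : ℂ) * (φ : ℂ) = ((m * φ : ℝ) : ℂ) * Complex.I := by
        push_cast
        ring
      rw [this, Complex.norm_exp_ofReal_mul_I]
    have hnorm : ∀ x y : ℝ, ‖(x : ℂ) + (y : ℂ) * Complex.I‖ ^ 2 = x ^ 2 + y ^ 2 := by
      intro x y
      rw [Complex.norm_add_mul_I, Real.sq_sqrt (by positivity)]
    have han : ‖a‖ ^ 2 = ((u 1).eval 1) ^ 2 + ((v 1).eval 1) ^ 2 := by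
      rw [ha, norm_mul, hexp, mul_one, hnorm]
    have hbn : ‖b‖ ^ 2 = ((u (-1)).eval 1) ^ 2 + ((v (-1)).eval 1) ^ 2 := by
      rw [hb, norm_mul, hexp, mul_one, hnorm]
    have hDn : |D| ≤ ‖a‖ + ‖b‖ := by
      have h1 : ‖(D : ℂ)‖ = |D| := by rw [Complex.norm_real, Real.norm_eq_abs]
      rw [← h1, hd]
      exact norm_add_le _ _
    have hmb : ∀ m : ℤ, m.natAbs = 1 → ((u m).eval 1) ^ 2 + ((v m).eval 1) ^ 2 ≤
        T ^ 2 / 8 * nmode u v m := by
      intro m hm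
      have hmt : m.natAbs ≤ t := by omega
      have b1 := mode_bound t 1 0 ht (u m) (by have := h.degu m hmt; rwa [hm] at this) 1
        (by norm_num)
      have b2 := mode_bound t 1 0 ht (v m) (by have := h.degv m hmt; rwa [hm] at this) 1
        (by norm_num)
      simp only [Function.iterate_zero, id, mul_zero, Nat.cast_zero, add_zero, Nat.cast_one,
        pow_one, Nat.factorial_one, one_pow, mul_one] at b1 b2
      rw [← hT] at b1 b2
      unfold nmode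
      rw [hm]
      have e : T ^ (1 + 1) / ((1 + 1) * 4) = T ^ 2 / 8 := by norm_num
      rw [e] at b1 b2
      linarith
    have h1 := hmb 1 rfl
    have h2 := hmb (-1) rfl
    rw [← han] at h1
    rw [← hbn] at h2
    have hle : nmode u v 1 + nmode u v (-1) ≤ mu (q ^ 2) := by
      rw [hsum, ← Finset.sum_pair (f := fun m => nmode u v m) (by norm_num : (1 : ℤ) ≠ -1)]
      refine Finset.sum_le_sum_of_subset_of_nonneg ?_ (fun m _ _ => hnn m)
      intro m hm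
      simp only [Finset.mem_insert, Finset.mem_singleton] at hm
      rw [Finset.mem_Icc]
      omega
    have hD2 : D ^ 2 ≤ (‖a‖ + ‖b‖) ^ 2 := by
      rw [← sq_abs D]
      exact pow_le_pow_left₀ (abs_nonneg D) hDn 2
    have hsq : (‖a‖ + ‖b‖) ^ 2 ≤ 2 * (‖a‖ ^ 2 + ‖b‖ ^ 2) := by
      nlinarith [sq_nonneg (‖a‖ - ‖b‖)]
    rw [← hT]
    have hT0 : 0 ≤ T ^ 2 := sq_nonneg T
    calc D ^ 2 ≤ 2 * (‖a‖ ^ 2 + ‖b‖ ^ 2) := hD2.trans hsq
      _ ≤ 2 * (T ^ 2 / 8 * nmode u v 1 + T ^ 2 / 8 * nmode u v (-1)) := by linarith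
      _ = (T / 2) ^ 2 * (nmode u v 1 + nmode u v (-1)) := by ring
      _ ≤ (T / 2) ^ 2 * mu (q ^ 2) := mul_le_mul_of_nonneg_left hle (sq_nonneg _)

theorem grad_sup {t : ℕ} {q : Poly} (hq : q.totalDegree ≤ t) {x : E3} (hx : ‖x‖ = 1) :
    ∑ a, (ev (Lr a q) x) ^ 2 ≤ ((((t : ℝ) + 1) ^ 2) / 2) ^ 2 * mu (q ^ 2) := by
  obtain ⟨G, hG⟩ : ∃ G : Fin 3 → ℝ, ∀ a, G a = ev (Lr a q) x := ⟨_, fun _ => rfl⟩
  simp only [← hG]
  obtain ⟨S2, hS2⟩ : ∃ S2 : ℝ, S2 = ∑ a, (G a) ^ 2 := ⟨_, rfl⟩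
  rw [← hS2]
  have hS2n : 0 ≤ S2 := by rw [hS2]; exact Finset.sum_nonneg (fun a _ => sq_nonneg _)
  have hmu : 0 ≤ mu (q ^ 2) := mu_nonneg (fun x _ => by rw [ev_pow]; positivity)
  rcases hS2n.eq_or_lt with h0 | hpos
  · rw [← h0]; positivity
  have hSp : 0 < √S2 := Real.sqrt_pos.mpr hpos
  have hSS : √S2 ^ 2 = S2 := Real.sq_sqrt hS2n
  have i02 : (0 : Fin 3) + 2 = 2 := rfl
  have i11 : (1 : Fin 3) + 1 = 2 := rfl
  have i12 : (1 : Fin 3) + 2 = 0 := rfl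
  have i21 : (2 : Fin 3) + 1 = 0 := rfl
  have i22 : (2 : Fin 3) + 2 = 1 := rfl
  have i01 : (0 : Fin 3) + 1 = 1 := rfl
  have hxx : x 0 ^ 2 + x 1 ^ 2 + x 2 ^ 2 = 1 := by
    have := EuclideanSpace.norm_sq_eq x
    rw [hx] at this
    simpa [Fin.sum_univ_three] using this.symm
  have hxG : x 0 * G 0 + x 1 * G 1 + x 2 * G 2 = 0 := by
    have h1 := sum_Lr q x x
    simp only [Fin.sum_univ_three, ← hG, i01, i02, i11, i12, i21, i22] at h1
    linear_combination -h1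
  have hGG : G 0 ^ 2 + G 1 ^ 2 + G 2 ^ 2 = S2 := by
    rw [hS2, Fin.sum_univ_three]
  obtain ⟨r, hr⟩ : ∃ r : ℝ, r = (√S2)⁻¹ := ⟨_, rfl⟩
  have hr2 : r ^ 2 * S2 = 1 := by
    rw [hr, inv_pow, hSS, inv_mul_cancel₀ hpos.ne']
  have hr1 : r * S2 = √S2 := by
    rw [hr, inv_mul_eq_div, div_eq_iff hSp.ne', ← sq, hSS]
  -- the axis and the direction
  obtain ⟨b, hb⟩ : ∃ b : E3, b = !₂[r * G 0, r * G 1, r * G 2] := ⟨_, rfl⟩
  have hb0 : b 0 = r * G 0 := by simp [hb]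
  have hb1 : b 1 = r * G 1 := by simp [hb]
  have hb2 : b 2 = r * G 2 := by simp [hb]
  obtain ⟨w, hw⟩ : ∃ w : E3, w = !₂[b 1 * x 2 - b 2 * x 1, b 2 * x 0 - b 0 * x 2,
    b 0 * x 1 - b 1 * x 0] := ⟨_, rfl⟩
  have hw0 : w 0 = b 1 * x 2 - b 2 * x 1 := by simp [hw]
  have hw1 : w 1 = b 2 * x 0 - b 0 * x 2 := by simp [hw]
  have hw2 : w 2 = b 0 * x 1 - b 1 * x 0 := by simp [hw]
  have hbx : b 0 * x 0 + b 1 * x 1 + b 2 * x 2 = 0 := by
    rw [hb0, hb1, hb2]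
    linear_combination r * hxG
  have hbb : b 0 ^ 2 + b 1 ^ 2 + b 2 ^ 2 = 1 := by
    rw [hb0, hb1, hb2]
    linear_combination r ^ 2 * hGG + hr2
  have hwn : ‖w‖ = 1 := by
    rw [EuclideanSpace.norm_eq, Real.sqrt_eq_one]
    simp only [Fin.sum_univ_three, Real.norm_eq_abs, sq_abs, hw0, hw1, hw2]
    linear_combination (x 0 ^ 2 + x 1 ^ 2 + x 2 ^ 2) * hbb + hxx -
      (b 0 * x 0 + b 1 * x 1 + b 2 * x 2) * hbx
  have hwx : w 0 * x 0 + w 1 * x 1 + w 2 * x 2 = 0 := by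
    rw [hw0, hw1, hw2]
    ring
  -- the derivative along the great circle
  have hγ : HasDerivAt (fun s : ℝ => cos s • x + sin s • w) w 0 := by
    have h1 := (Real.hasDerivAt_cos 0).smul_const x
    have h2 := (Real.hasDerivAt_sin 0).smul_const w
    have h3 : HasDerivAt (fun s : ℝ => cos s • x + sin s • w) (-(sin 0) • x + cos 0 • w) 0 :=
      h1.add h2
    have e : -(sin 0) • x + cos 0 • w = w := by
      rw [Real.sin_zero, Real.cos_zero, neg_zero, zero_smul, one_smul, zero_add]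
    rw [e] at h3
    exact h3
  have hD : HasDerivAt (fun s : ℝ => ev q (cos s • x + sin s • w)) (√S2) 0 := by
    have h1 := hasDerivAt_ev q hγ
    have e0 : cos (0 : ℝ) • x + sin (0 : ℝ) • w = x := by simp
    rw [e0] at h1
    have h2 := sum_Lr q b x
    have h3 : ∑ i, ev (MvPolynomial.pderiv i q) x * w i = √S2 := by
      rw [← hr1, ← hGG]
      simp only [Fin.sum_univ_three, ← hG, i01, i02, i11, i12, i21, i22] at h2 ⊢
      rw [hw0, hw1, hw2]
      rw [hb0, hb1, hb2] at h2 ⊢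
      linear_combination h2
    rw [h3] at h1
    exact h1
  -- rotate to the north pole
  have hn : ‖sp 1 0‖ = 1 := sp_norm (by norm_num) 0
  obtain ⟨R, hR⟩ : ∃ R : E3 ≃ₗᵢ[ℝ] E3, R (sp 1 0) = x :=
    ⟨(Submodule.span ℝ {sp 1 0 - x})ᗮ.reflection, Submodule.reflection_sub (by rw [hx, hn])⟩
  obtain ⟨q', hq1, hq2, -, hq4⟩ := mu_rot R q
  obtain ⟨u, v, hm⟩ := exists_modes t q' (hq1.trans hq)
  obtain ⟨w', hw'⟩ : ∃ w' : E3, R w' = w := ⟨R.symm w, R.apply_symm_apply w⟩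
  have hw'n : ‖w'‖ = 1 := by rw [← R.norm_map w', hw', hwn]
  have hw'2 : w' 2 = 0 := by
    have h1 : inner ℝ (sp 1 0) w' = 0 := by
      rw [← R.inner_map_map, hR, hw', PiLp.inner_apply, Fin.sum_univ_three]
      simp only [RCLike.inner_apply, conj_trivial]
      linear_combination hwx
    rw [PiLp.inner_apply, Fin.sum_univ_three] at h1
    simp only [RCLike.inner_apply, conj_trivial] at h1
    simpa [sp] using h1
  have hD' : HasDerivAt (fun s : ℝ => ev q' (cos s • sp 1 0 + sin s • w')) (√S2) 0 := by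
    have e : (fun s : ℝ => ev q' (cos s • sp 1 0 + sin s • w')) =
        fun s : ℝ => ev q (cos s • x + sin s • w) := by
      funext s
      rw [hq2, map_add, map_smul, map_smul, hR, hw']
    rw [e]
    exact hD
  have h9 := pole_bound hm w' hw'n hw'2 _ hD'
  rw [hSS, hq4] at h9
  exact h9

private theorem Lc_sharp {t : ℕ} {q : Poly} (hq : q.totalDegree ≤ t) (b : E3) (hb : ‖b‖ = 1)
    (z : E3) (hz : ‖z‖ = 1) :
    |ev (Lc b q) z| ≤ (((t : ℝ) + 1) ^ 2) / 2 * √(mu (q ^ 2)) := by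
  have hmu : 0 ≤ mu (q ^ 2) := mu_nonneg (fun x _ => by rw [ev_pow]; positivity)
  have hb2 : ∑ a, (b a) ^ 2 = 1 := by
    have := EuclideanSpace.norm_sq_eq b
    rw [hb] at this
    simpa using this.symm
  have h1 : (ev (Lc b q) z) ^ 2 ≤ ∑ a, (ev (Lr a q) z) ^ 2 := by
    rw [ev_Lc]
    calc (∑ a, b a * ev (Lr a q) z) ^ 2 ≤ (∑ a, (b a) ^ 2) * ∑ a, (ev (Lr a q) z) ^ 2 :=
          Finset.sum_mul_sq_le_sq_mul_sq _ _ _
      _ = ∑ a, (ev (Lr a q) z) ^ 2 := by rw [hb2, one_mul]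
  have h2 : (ev (Lc b q) z) ^ 2 ≤ ((((t : ℝ) + 1) ^ 2) / 2 * √(mu (q ^ 2))) ^ 2 := by
    rw [mul_pow, Real.sq_sqrt hmu]
    exact h1.trans (grad_sup hq hz)
  exact abs_le_of_sq_le_sq h2 (by positivity)

/-- mean value inequality along a great circle -/
private theorem lip_gen (q : Poly) (K : ℝ) (hKn : 0 ≤ K)
    (hK : ∀ b : E3, ‖b‖ = 1 → ∀ z : E3, ‖z‖ = 1 → |ev (Lc b q) z| ≤ K) (x y : E3) (hx : ‖x‖ = 1)
    (hy : ‖y‖ = 1) (hxy : ‖x - y‖ ≤ 1) :
    |ev q x - ev q y| ≤ 1.05 * K * ‖x - y‖ := by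
  rcases eq_or_ne x y with rfl | hne
  · simp
  have hd : 0 < ‖x - y‖ := norm_pos_iff.mpr (sub_ne_zero.mpr hne)
  set c : ℝ := inner ℝ x y with hcdef
  have hnsq : ‖x - y‖ ^ 2 = 2 - 2 * c := by
    rw [norm_sub_sq_real, hx, hy]
    ring
  have hc1 : 1 / 2 ≤ c := by nlinarith
  have hc2 : c < 1 := by nlinarith
  set α := arccos c with hα
  have hcos : cos α = c := Real.cos_arccos (by linarith) hc2.le
  have hα0 : 0 < α := Real.arccos_pos.mpr hc2
  have hα3 : α ≤ π / 3 := by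
    have : arccos c ≤ arccos (1 / 2) := Real.arccos_le_arccos hc1
    have h2 : arccos (1 / 2) = π / 3 := by
      rw [← Real.cos_pi_div_three, Real.arccos_cos (by positivity) (by linarith [Real.pi_pos])]
    rw [h2] at this
    exact this
  have hsin : 0 < sin α := Real.sin_pos_of_pos_of_lt_pi hα0 (by linarith [Real.pi_pos])
  set e : E3 := (sin α)⁻¹ • (y - cos α • x) with he
  have hxx : x 0 ^ 2 + x 1 ^ 2 + x 2 ^ 2 = 1 := by
    have := EuclideanSpace.norm_sq_eq x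
    rw [hx] at this
    simpa [Fin.sum_univ_three] using this.symm
  have hyy : y 0 ^ 2 + y 1 ^ 2 + y 2 ^ 2 = 1 := by
    have := EuclideanSpace.norm_sq_eq y
    rw [hy] at this
    simpa [Fin.sum_univ_three] using this.symm
  have hxyc : x 0 * y 0 + x 1 * y 1 + x 2 * y 2 = c := by
    rw [hcdef, PiLp.inner_apply, Fin.sum_univ_three]
    simp only [RCLike.inner_apply, conj_trivial]
    ring
  have hec : ∀ i, e i = (sin α)⁻¹ * (y i - cos α * x i) := fun i => by simp [he]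
  have hsc := Real.sin_sq_add_cos_sq α
  have hxe : x 0 * e 0 + x 1 * e 1 + x 2 * e 2 = 0 := by
    simp only [hec]
    have : x 0 * y 0 + x 1 * y 1 + x 2 * y 2 - cos α * (x 0 ^ 2 + x 1 ^ 2 + x 2 ^ 2) = 0 := by
      rw [hxyc, hxx, hcos]; ring
    linear_combination (sin α)⁻¹ * this
  have hee : e 0 ^ 2 + e 1 ^ 2 + e 2 ^ 2 = 1 := by
    simp only [hec]
    have h1 : (y 0 - cos α * x 0) ^ 2 + (y 1 - cos α * x 1) ^ 2 + (y 2 - cos α * x 2) ^ 2 =
        sin α ^ 2 := by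
      have : (y 0 - cos α * x 0) ^ 2 + (y 1 - cos α * x 1) ^ 2 + (y 2 - cos α * x 2) ^ 2 =
          (y 0 ^ 2 + y 1 ^ 2 + y 2 ^ 2) - 2 * cos α * (x 0 * y 0 + x 1 * y 1 + x 2 * y 2) +
          cos α ^ 2 * (x 0 ^ 2 + x 1 ^ 2 + x 2 ^ 2) := by ring
      rw [this, hyy, hxyc, hxx, ← hcos]
      linear_combination -hsc
    have h2 : ((sin α)⁻¹ * (y 0 - cos α * x 0)) ^ 2 + ((sin α)⁻¹ * (y 1 - cos α * x 1)) ^ 2 +
        ((sin α)⁻¹ * (y 2 - cos α * x 2)) ^ 2 = ((sin α)⁻¹) ^ 2 *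
        ((y 0 - cos α * x 0) ^ 2 + (y 1 - cos α * x 1) ^ 2 + (y 2 - cos α * x 2) ^ 2) := by ring
    rw [h2, h1]
    field_simp
  -- the curve
  set γ : ℝ → E3 := fun s => cos s • x + sin s • e with hγ
  have hγ' : ∀ s, HasDerivAt γ (-(sin s) • x + cos s • e) s := by
    intro s
    have h1 := (Real.hasDerivAt_cos s).smul_const x
    have h2 := (Real.hasDerivAt_sin s).smul_const e
    exact h1.add h2
  have hγn : ∀ s, ‖γ s‖ = 1 := by
    intro s
    rw [EuclideanSpace.norm_eq, Real.sqrt_eq_one]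
    simp only [Fin.sum_univ_three, Real.norm_eq_abs, sq_abs, hγ, PiLp.add_apply, PiLp.smul_apply,
      smul_eq_mul]
    have h3 := Real.sin_sq_add_cos_sq s
    linear_combination (cos s) ^ 2 * hxx + (sin s) ^ 2 * hee + 2 * cos s * sin s * hxe + h3
  have hγ0 : γ 0 = x := by simp [hγ]
  have hγα : γ α = y := by
    ext i
    simp only [hγ, PiLp.add_apply, PiLp.smul_apply, smul_eq_mul, hec]
    field_simp
    ring
  -- the axis
  set b : E3 := !₂[x 1 * e 2 - x 2 * e 1, x 2 * e 0 - x 0 * e 2, x 0 * e 1 - x 1 * e 0] with hb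
  have hb0 : b 0 = x 1 * e 2 - x 2 * e 1 := by simp [hb]
  have hb1 : b 1 = x 2 * e 0 - x 0 * e 2 := by simp [hb]
  have hb2 : b 2 = x 0 * e 1 - x 1 * e 0 := by simp [hb]
  have hbn : ‖b‖ = 1 := by
    rw [EuclideanSpace.norm_eq, Real.sqrt_eq_one]
    simp only [Fin.sum_univ_three, Real.norm_eq_abs, sq_abs, hb0, hb1, hb2]
    have : (x 1 * e 2 - x 2 * e 1) ^ 2 + (x 2 * e 0 - x 0 * e 2) ^ 2 +
        (x 0 * e 1 - x 1 * e 0) ^ 2 = (x 0 ^ 2 + x 1 ^ 2 + x 2 ^ 2) *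
        (e 0 ^ 2 + e 1 ^ 2 + e 2 ^ 2) - (x 0 * e 0 + x 1 * e 1 + x 2 * e 2) ^ 2 := by ring
    rw [this, hxx, hee, hxe]
    ring
  have hderiv : ∀ s, HasDerivAt (fun r => ev q (γ r)) (ev (Lc b q) (γ s)) s := by
    intro s
    have h1 := hasDerivAt_ev q (hγ' s)
    have h2 : (∑ i, ev (MvPolynomial.pderiv i q) (γ s) * (-(sin s) • x + cos s • e) i) =
        ev (Lc b q) (γ s) := by
      rw [ev_Lc, ← sum_Lr q b (γ s)]
      apply Finset.sum_congr rfl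
      intro i _
      congr 1
      -- b × γ(s) = γ'(s)
      have g : ∀ i, (γ s) i = cos s * x i + sin s * e i := fun i => by simp [hγ]
      rw [g, g]
      fin_cases i
      · simp only [Fin.zero_eta, zero_add, PiLp.add_apply, PiLp.smul_apply, smul_eq_mul]
        have i1 : (0 : Fin 3) + 1 = 1 := rfl
        have i2 : (0 : Fin 3) + 2 = 2 := rfl
        rw [hb1, hb2]
        linear_combination (sin s * x 0) * hee - (cos s * e 0) * hxx
          + (cos s * x 0 - sin s * e 0) * hxe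
      · simp only [Fin.mk_one, PiLp.add_apply, PiLp.smul_apply, smul_eq_mul]
        have i1 : (1 : Fin 3) + 1 = 2 := rfl
        have i2 : (1 : Fin 3) + 2 = 0 := rfl
        rw [i1, i2, hb2, hb0]
        linear_combination (sin s * x 1) * hee - (cos s * e 1) * hxx
          + (cos s * x 1 - sin s * e 1) * hxe
      · simp only [Fin.reduceFinMk, PiLp.add_apply, PiLp.smul_apply, smul_eq_mul]
        have i1 : (2 : Fin 3) + 1 = 0 := rfl
        have i2 : (2 : Fin 3) + 2 = 1 := rfl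
        rw [i1, i2, hb0, hb1]
        linear_combination (sin s * x 2) * hee - (cos s * e 2) * hxx
          + (cos s * x 2 - sin s * e 2) * hxe
    rw [h2] at h1
    exact h1
  have hmv := Convex.norm_image_sub_le_of_norm_hasDerivWithin_le
      (f := fun r => ev q (γ r)) (f' := fun s => ev (Lc b q) (γ s))
      (s := Set.Icc (0 : ℝ) α) (x := α) (y := 0) (C := K)
      (fun s _ => (hderiv s).hasDerivWithinAt)
      (fun s _ => by
        rw [Real.norm_eq_abs]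
        exact hK b hbn _ (hγn s))
      (convex_Icc _ _) ⟨hα0.le, le_rfl⟩ ⟨le_rfl, hα0.le⟩
  simp only [Real.norm_eq_abs, zero_sub, abs_neg, hγ0, hγα, abs_of_pos hα0] at hmv
  have hch := chord α hα0.le hα3
  have hnorm : ‖x - y‖ = 2 * sin (α / 2) := by
    have hs2 : 0 ≤ sin (α / 2) :=
      Real.sin_nonneg_of_nonneg_of_le_pi (by linarith) (by linarith [Real.pi_pos])
    have h1 : ‖x - y‖ ^ 2 = (2 * sin (α / 2)) ^ 2 := by
      rw [hnsq, ← hcos]
      have h2 : cos α = 1 - 2 * sin (α / 2) ^ 2 := by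
        have h3 := Real.cos_sq' (α / 2)
        have h4 : cos α = 2 * cos (α / 2) ^ 2 - 1 := by
          rw [← Real.cos_two_mul]; congr 1; ring
        rw [h4, h3]; ring
      rw [h2]; ring
    exact (sq_eq_sq₀ hd.le (by positivity)).mp h1
  rw [← hnorm] at hch
  calc |ev q x - ev q y| ≤ K * α := hmv
    _ ≤ K * (1.05 * ‖x - y‖) := mul_le_mul_of_nonneg_left hch hKn
    _ = 1.05 * K * ‖x - y‖ := by ring


private theorem lip_scalar2 (t : ℕ) (q : Poly) (hq : q.totalDegree ≤ t) (x y : E3) (hx : ‖x‖ = 1)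
    (hy : ‖y‖ = 1) (hxy : ‖x - y‖ ≤ 1) :
    |ev q x - ev q y| ≤ 0.525 * ((t : ℝ) + 1) ^ 2 * ‖x - y‖ * √(mu (q ^ 2)) := by
  have h1 := lip_gen q ((((t : ℝ) + 1) ^ 2) / 2 * √(mu (q ^ 2))) (by positivity)
    (fun b hb z hz => Lc_sharp hq b hb z hz) x y hx hy hxy
  refine h1.trans (le_of_eq ?_)
  ring

theorem lip2 (t : ℕ) (p : Poly) (hp : p.totalDegree ≤ t) (x y : E3) (hx : ‖x‖ = 1)
    (hy : ‖y‖ = 1) (hxy : ‖x - y‖ ≤ 1) :
    ∑ a, (ev (Lr a p) x - ev (Lr a p) y) ^ 2 ≤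
      (0.525 * ((t : ℝ) + 1) ^ 2 * ‖x - y‖) ^ 2 * en p := by
  have hE : 0 ≤ en p := en_nonneg p
  obtain ⟨K, hK⟩ : ∃ K : ℝ, K = 0.525 * ((t : ℝ) + 1) ^ 2 * ‖x - y‖ := ⟨_, rfl⟩
  have hKn : 0 ≤ K := by rw [hK]; positivity
  rw [← hK]
  obtain ⟨D, hD⟩ : ∃ D : Fin 3 → ℝ, ∀ a, D a = ev (Lr a p) x - ev (Lr a p) y := ⟨_, fun _ => rfl⟩
  simp only [← hD]
  obtain ⟨S2, hS2⟩ : ∃ S2 : ℝ, S2 = ∑ a, (D a) ^ 2 := ⟨_, rfl⟩
  rw [← hS2]
  have hS2n : 0 ≤ S2 := by rw [hS2]; exact Finset.sum_nonneg (fun a _ => sq_nonneg _)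
  rcases hS2n.eq_or_lt with h0 | hpos
  · rw [← h0]; positivity
  have hSp : 0 < √S2 := Real.sqrt_pos.mpr hpos
  have hSS : √S2 ^ 2 = S2 := Real.sq_sqrt hS2n
  have hcn : ‖(!₂[D 0 / √S2, D 1 / √S2, D 2 / √S2] : E3)‖ = 1 := by
    rw [EuclideanSpace.norm_eq, Real.sqrt_eq_one]
    simp only [Fin.sum_univ_three, Real.norm_eq_abs, sq_abs]
    simp only [Matrix.cons_val_zero, Matrix.cons_val_one, Matrix.cons_val]
    rw [div_pow, div_pow, div_pow, ← add_div, ← add_div, hSS]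
    rw [Fin.sum_univ_three] at hS2
    rw [← hS2, div_self hpos.ne']
  obtain ⟨c, hc⟩ : ∃ c : E3, c = !₂[D 0 / √S2, D 1 / √S2, D 2 / √S2] := ⟨_, rfl⟩
  rw [← hc] at hcn
  have hci : ∀ i, c i = D i / √S2 := by
    intro i
    fin_cases i <;> simp [hc]
  have hq := lip_scalar2 t (Lc c p) (Lc_deg c hp) x y hx hy hxy
  rw [← hK] at hq
  have h1 : ev (Lc c p) x - ev (Lc c p) y = √S2 := by
    rw [ev_Lc, ev_Lc, ← Finset.sum_sub_distrib]
    have : ∀ a, c a * ev (Lr a p) x - c a * ev (Lr a p) y = (D a) ^ 2 / √S2 := by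
      intro a
      rw [hci, ← mul_sub, ← hD]
      ring
    simp only [this]
    rw [← Finset.sum_div, ← hS2, div_eq_iff hSp.ne', ← sq, hSS]
  rw [h1, abs_of_pos hSp] at hq
  have h2 : √(mu ((Lc c p) ^ 2)) ≤ √(en p) := Real.sqrt_le_sqrt (mu_Lc c hcn p)
  have h3 : √S2 ≤ K * √(en p) := hq.trans (mul_le_mul_of_nonneg_left h2 hKn)
  have h4 : √S2 ^ 2 ≤ (K * √(en p)) ^ 2 := pow_le_pow_left₀ hSp.le h3 2
  rw [mul_pow, Real.sq_sqrt hE, hSS] at h4
  exact h4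

end Pool.Agent.Helper83.SE
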