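import Pool.Agent.Helper83.SE.Enum
import Pool.Agent.Helper83.SE.CfgO

/-!
Project SE, module Sep2: the base points, enumerated and separated (see the guide).
-/

set_option autoImplicit false

open MeasureTheory Real Pool.Agent.Helper83.SD

namespace Pool.Agent.Helper83.SE

theorem sep_of_height {z z' s : ℝ} (hz : z ^ 2 ≤ 1) (hz' : z' ^ 2 ≤ 1) (hs : 0 ≤ s)
    (h : s ≤ z - z') (φ φ' : ℝ) : s ≤ ‖sp z φ - sp z' φ'‖ := by
  apply le_of_sq_le_sq _ (norm_nonneg _)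
  refine le_trans ?_ (sep_height hz hz' φ φ')
  gcongr

theorem sp_neg_dist {z z' : ℝ} (hz : z ^ 2 ≤ 1) (hz' : z' ^ 2 ≤ 1) (φ φ' : ℝ) :
    ‖sp (-z) φ - sp (-z') φ'‖ = ‖sp z φ - sp z' φ'‖ := by
  have h1 : ‖sp (-z) φ - sp (-z') φ'‖ ^ 2 = ‖sp z φ - sp z' φ'‖ ^ 2 := by
    rw [sp_dist_sq (by rw [neg_sq]; exact hz) (by rw [neg_sq]; exact hz'), sp_dist_sq hz hz',
      neg_sq, neg_sq]
    ring
  exact (sq_eq_sq₀ (norm_nonneg _) (norm_nonneg _)).mp h1

/-- the numerical facts -/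
structure NumC (c : Cf) (x : ℝ) : Prop where
  x0 : 10000 ≤ x
  xN : (c.N : ℝ) = x ^ 2
  a1 : 0.105 * x - 1 ≤ c.J1
  a2 : (c.J1 : ℝ) ≤ 0.105 * x
  b1 : 0.189 * x - 1 ≤ c.J2
  b2 : (c.J2 : ℝ) ≤ 0.189 * x
  n1 : 7 * (c.J1 : ℝ) + 5 * c.J2 ≤ c.n
  n2 : (c.n : ℝ) ≤ 7 * c.J1 + 5 * c.J2 + 7
  lR : c.l ≤ c.R
  cnt : x ^ 2 = 2 * M2 c + (c.R : ℝ) * c.n + c.l

theorem numC_of {t : ℕ} {c : Cf} (ht : 10000 ≤ t) (h : Good t c) : NumC c (√(c.N : ℝ)) := by
  have hN : (0 : ℝ) ≤ (c.N : ℝ) := Nat.cast_nonneg _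
  have ht' : (10000 : ℝ) ≤ t := by exact_mod_cast ht
  have hx2 : (c.N : ℝ) = √(c.N : ℝ) ^ 2 := (Real.sq_sqrt hN).symm
  refine ⟨?_, hx2, h.a1, h.a2, h.b1, h.b2, by exact_mod_cast h.n1, by exact_mod_cast h.n2,
    h.lR, ?_⟩
  · apply Real.le_sqrt_of_sq_le
    have := h.lo
    nlinarith
  · rw [← hx2]
    have := h.cnt
    have h2 : (c.N : ℝ) = 2 + 7 * c.J1 * (c.J1 + 1) + 14 * c.J1 * c.J2 + 5 * c.J2 * (c.J2 + 1)
      + c.R * c.n + c.l := by exact_mod_cast this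
    unfold M2 M1
    linarith

theorem kk {x d : ℝ} (hx : 0 < x) (h : 0.65 * x ≤ d) : 1.3 / x ≤ 2 / x ^ 2 * d := by
  have e : 1.3 / x = 2 / x ^ 2 * (0.65 * x) := by
    field_simp
    norm_num
  rw [e]
  gcongr

theorem kk2 {x d : ℝ} (hx : 0 < x) (h : 0.325 * x ≤ d) : 0.65 / x ≤ 2 / x ^ 2 * d := by
  have e : 0.65 / x = 2 / x ^ 2 * (0.325 * x) := by
    field_simp
    norm_num
  rw [e]
  gcongr

section

variable {c : Cf} {x : ℝ}

theorem zA_eq (hc : NumC c x) (j : ℕ) :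
    zA c j = 1 - 2 / x ^ 2 * (7 / 2 * ((j : ℝ) ^ 2 + 5 / 42)) := by
  unfold zA
  rw [hc.xN]
  ring

/-- mass of a ring of zone 2 -/
noncomputable def mB (c : Cf) (i : ℕ) : ℝ :=
  M1 c + 5 / 24 + (7 * (c.J1 : ℝ) + 5 / 2) * ((i : ℝ) + 1 / 2) + 5 * ((i : ℝ) + 1 / 2) ^ 2 / 2

theorem zB_eq (hc : NumC c x) (i : ℕ) : zB c i = 1 - 2 / x ^ 2 * mB c i := by
  unfold zB hgt mB
  rw [hc.xN]

theorem zC_eq (hc : NumC c x) (i : ℕ) :
    zC c i = 1 - 2 / x ^ 2 * (M2 c + ((c.n : ℝ) + 1) * ((i : ℝ) + 1 / 2)) := by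
  unfold zC hgt
  rw [hc.xN]
  ring

theorem zD_eq (hc : NumC c x) (i : ℕ) :
    zD c i = 1 - 2 / x ^ 2 * (M3 c + (c.n : ℝ) * ((i : ℝ) + 1 / 2)) := by
  unfold zD hgt
  rw [hc.xN]
  ring

/-- the height at the end of zone 2 -/
noncomputable def c0 (c : Cf) (x : ℝ) : ℝ := 1 - 2 / x ^ 2 * M2 c

theorem A_lo (hc : NumC c x) {j : ℕ} (hj : j ≤ c.J1) : zA c c.J1 ≤ zA c j := by
  rw [zA_eq hc, zA_eq hc]
  have hx : 0 < x := by linarith [hc.x0]
  have : (j : ℝ) ≤ c.J1 := by exact_mod_cast hj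
  gcongr

theorem B_hi (hc : NumC c x) (i : ℕ) : zB c i ≤ zA c c.J1 - 1.3 / x := by
  have hx : 0 < x := by linarith [hc.x0]
  have h0 := hc.x0
  have h1 := hc.a1
  have hJ : (0 : ℝ) ≤ c.J1 := Nat.cast_nonneg _
  have hi : (0 : ℝ) ≤ i := Nat.cast_nonneg _
  have hd : 0.65 * x ≤ mB c i - 7 / 2 * ((c.J1 : ℝ) ^ 2 + 5 / 42) := by
    unfold mB M1
    nlinarith [mul_nonneg hJ hi]
  have := kk hx hd
  rw [zB_eq hc, zA_eq hc]
  linarith

theorem B_lo (hc : NumC c x) {i : ℕ} (hi : i < c.J2) : c0 c x + 0.65 / x ≤ zB c i := by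
  have hx : 0 < x := by linarith [hc.x0]
  have h0 := hc.x0
  have h1 := hc.a1
  have hJ : (0 : ℝ) ≤ c.J1 := Nat.cast_nonneg _
  have hi0 : (0 : ℝ) ≤ i := Nat.cast_nonneg _
  have hi' : (i : ℝ) + 1 ≤ c.J2 := by exact_mod_cast hi
  have hd : 0.325 * x ≤ M2 c - mB c i := by
    unfold mB M2
    have e1 : (7 * (c.J1 : ℝ) + 5 / 2) * ((i : ℝ) + 1 / 2) + 5 * ((i : ℝ) + 1 / 2) ^ 2 / 2 ≤
        (7 * (c.J1 : ℝ) + 5 / 2) * ((c.J2 : ℝ) - 1 / 2) + 5 * ((c.J2 : ℝ) - 1 / 2) ^ 2 / 2 := by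
      gcongr <;> linarith
    nlinarith
  have := kk2 hx hd
  rw [zB_eq hc, c0]
  linarith

theorem n_lo (hc : NumC c x) : 1.68 * x - 12 ≤ (c.n : ℝ) := by
  have h1 := hc.a1
  have h2 := hc.b1
  have h3 := hc.n1
  linarith

theorem n_hi (hc : NumC c x) : (c.n : ℝ) ≤ 1.68 * x + 7 := by
  have h1 := hc.a2
  have h2 := hc.b2
  have h3 := hc.n2
  linarith

theorem C_hi (hc : NumC c x) (i : ℕ) : zC c i ≤ c0 c x - 0.65 / x := by
  have hx : 0 < x := by linarith [hc.x0]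
  have h0 := hc.x0
  have h1 := n_lo hc
  have hi : (0 : ℝ) ≤ i := Nat.cast_nonneg _
  have hn : (0 : ℝ) ≤ c.n := Nat.cast_nonneg _
  have hd : 0.325 * x ≤ ((c.n : ℝ) + 1) * ((i : ℝ) + 1 / 2) := by
    nlinarith [mul_nonneg hn hi]
  have := kk2 hx hd
  rw [zC_eq hc, c0]
  linarith

theorem D_hi (hc : NumC c x) (i : ℕ) : zD c i ≤ c0 c x - 0.65 / x := by
  have hx : 0 < x := by linarith [hc.x0]
  have h0 := hc.x0
  have h1 := n_lo hc
  have hi : (0 : ℝ) ≤ i := Nat.cast_nonneg _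
  have hl : (0 : ℝ) ≤ c.l := Nat.cast_nonneg _
  have hn : (0 : ℝ) ≤ c.n := Nat.cast_nonneg _
  have hd : 0.325 * x ≤ M3 c + (c.n : ℝ) * ((i : ℝ) + 1 / 2) - M2 c := by
    unfold M3
    nlinarith [mul_nonneg hn hi, mul_nonneg hl hn]
  have := kk2 hx hd
  rw [zD_eq hc, c0]
  linarith

theorem C_lo (hc : NumC c x) {i : ℕ} (hi : i < c.l) : -(c0 c x) + 0.65 / x ≤ zC c i := by
  have hx : 0 < x := by linarith [hc.x0]
  have h0 := hc.x0
  have h1 := n_lo hc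
  have hi' : (i : ℝ) + 1 ≤ c.l := by exact_mod_cast hi
  have hlR : (c.l : ℝ) ≤ c.R := by exact_mod_cast hc.lR
  have hn : (0 : ℝ) ≤ c.n := Nat.cast_nonneg _
  have hcnt := hc.cnt
  have hd : 0.325 * x ≤ x ^ 2 - M2 c - (M2 c + ((c.n : ℝ) + 1) * ((i : ℝ) + 1 / 2)) := by
    rw [hcnt]
    have e1 : ((c.n : ℝ) + 1) * ((i : ℝ) + 1 / 2) ≤ ((c.n : ℝ) + 1) * ((c.l : ℝ) - 1 / 2) := by
      gcongr
      linarith
    have e2 : (c.l : ℝ) * c.n ≤ c.R * c.n := by gcongr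
    nlinarith
  have := kk2 hx hd
  have e : 2 / x ^ 2 * x ^ 2 = 2 := by field_simp
  rw [zC_eq hc, c0]
  linarith

theorem D_lo (hc : NumC c x) {i : ℕ} (hi : i < c.R - c.l) :
    -(c0 c x) + 0.65 / x ≤ zD c i := by
  have hx : 0 < x := by linarith [hc.x0]
  have h0 := hc.x0
  have h1 := n_lo hc
  have hlR := hc.lR
  have hi' : (i : ℝ) + 1 ≤ c.R - c.l := by
    have : i + 1 + c.l ≤ c.R := by omega
    have : ((i + 1 + c.l : ℕ) : ℝ) ≤ c.R := by exact_mod_cast this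
    push_cast at this
    linarith
  have hn : (0 : ℝ) ≤ c.n := Nat.cast_nonneg _
  have hcnt := hc.cnt
  have hd : 0.325 * x ≤ x ^ 2 - M2 c - (M3 c + (c.n : ℝ) * ((i : ℝ) + 1 / 2)) := by
    rw [hcnt]
    have e1 : (c.n : ℝ) * ((i : ℝ) + 1 / 2) ≤ (c.n : ℝ) * ((c.R : ℝ) - c.l - 1 / 2) := by
      gcongr
      linarith
    unfold M3
    nlinarith
  have := kk2 hx hd
  have e : 2 / x ^ 2 * x ^ 2 = 2 := by field_simp
  rw [zD_eq hc, c0]
  linarith

theorem c0_nonneg (hc : NumC c x) : 0 ≤ c0 c x := by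
  have hx : 0 < x := by linarith [hc.x0]
  have hcnt := hc.cnt
  have hn : (0 : ℝ) ≤ (c.R : ℝ) * c.n := by positivity
  have hl : (0 : ℝ) ≤ c.l := Nat.cast_nonneg _
  unfold c0
  have : 2 / x ^ 2 * M2 c ≤ 1 := by
    rw [div_mul_eq_mul_div, div_le_one (by positivity)]
    linarith
  linarith

theorem c0_hi (hc : NumC c x) : c0 c x + 0.65 / x ≤ zA c c.J1 - 1.3 / x := by
  have h0 := hc.x0
  have hx : 0 < x := by linarith [hc.x0]
  have hJ : 0 < c.J2 := by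
    have h1 := hc.b1
    by_contra h
    have : c.J2 = 0 := by omega
    rw [this] at h1
    norm_num at h1
    linarith
  exact (B_lo hc hJ).trans (B_hi hc 0)

/-! ### separation inside the groups -/

/-- `1 - z` for the pole (`j = 0`) and the rings of zone 1 -/
noncomputable def A1 (c : Cf) (j : ℕ) : ℝ := if j = 0 then 0 else (7 / (c.N : ℝ)) * ((j : ℝ) ^ 2 + 5 / 42)

theorem A1_nonneg (c : Cf) (j : ℕ) : 0 ≤ A1 c j := by
  unfold A1
  split_ifs
  · exact le_rfl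
  · positivity

theorem A1_sqrt (hc : NumC c x) {j k : ℕ} (hj : j < k) :
    1.3 / x ≤ √(A1 c k) - √(A1 c j) := by
  have h0 := hc.x0
  have hx : 0 < x := by linarith [hc.x0]
  have hk : (j : ℝ) + 1 ≤ k := by exact_mod_cast hj
  have hj0 : (0 : ℝ) ≤ j := Nat.cast_nonneg _
  have h7 : (2.6 : ℝ) ≤ √7 := by
    apply Real.le_sqrt_of_sq_le
    norm_num
  have hN : √(c.N : ℝ) = x := by
    rw [hc.xN]
    exact Real.sqrt_sq hx.le
  have e : ∀ y : ℝ, 0 ≤ y → √((7 / (c.N : ℝ)) * y) = √7 / x * √y := by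
    intro y _
    rw [Real.sqrt_mul (by positivity), Real.sqrt_div (by norm_num), hN]
  have h1 : √7 / x * k ≤ √(A1 c k) := by
    unfold A1
    rw [if_neg (by omega), e _ (by positivity)]
    gcongr
    apply Real.le_sqrt_of_sq_le
    linarith
  have h2 : √(A1 c j) ≤ √7 / x * ((j : ℝ) + 1 / 2) := by
    unfold A1
    split_ifs with h
    · rw [Real.sqrt_zero]
      positivity
    · rw [e _ (by positivity)]
      gcongr
      apply Real.sqrt_le_iff.mpr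
      constructor
      · positivity
      · nlinarith
  have h3 : √7 / x * (1 / 2) ≤ √7 / x * k - √7 / x * ((j : ℝ) + 1 / 2) := by
    rw [← mul_sub]
    gcongr
    linarith
  have h4 : 1.3 / x ≤ √7 / x * (1 / 2) := by
    rw [div_mul_eq_mul_div]
    gcongr
    linarith
  linarith

theorem sepA (hc : NumC c x) (hz : ∀ j ∈ Finset.Icc 1 c.J1, 0.92 ≤ zA c j ∧ zA c j ≤ 1)
    {j k : ℕ} (hj : j < k) (hk : k ≤ c.J1) (φ φ' : ℝ) :
    1.3 / x ≤ ‖sp (1 - A1 c j) φ - sp (1 - A1 c k) φ'‖ := by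
  have h0 := hc.x0
  have hx : 0 < x := by linarith [hc.x0]
  have hA : ∀ i ≤ c.J1, A1 c i ≤ 1 := by
    intro i hi
    unfold A1
    split_ifs with h
    · norm_num
    · have := (hz i (Finset.mem_Icc.mpr ⟨by omega, hi⟩)).1
      unfold zA at this
      linarith
  have h1 := sep_rings (A1_nonneg c j) (hA j (by omega)) (A1_nonneg c k) (hA k hk)
    (s := 1) (by norm_num) φ φ'
  rw [one_mul, one_mul] at h1
  apply le_of_sq_le_sq _ (norm_nonneg _)
  refine le_trans ?_ h1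
  have h2 := A1_sqrt hc hj
  have h3 : 0 ≤ 1.3 / x := by positivity
  have h4 : (1.3 / x) ^ 2 ≤ (√(A1 c k) - √(A1 c j)) ^ 2 := by gcongr
  nlinarith [sq_nonneg (√(A1 c j) - √(A1 c k))]

theorem sepB (hc : NumC c x) {i k : ℕ} (hi : i < k) : 1.3 / x ≤ zB c i - zB c k := by
  have hx : 0 < x := by linarith [hc.x0]
  have h0 := hc.x0
  have h1 := hc.a1
  have hJ : (0 : ℝ) ≤ c.J1 := Nat.cast_nonneg _
  have hi0 : (0 : ℝ) ≤ i := Nat.cast_nonneg _
  have hi' : (i : ℝ) + 1 ≤ k := by exact_mod_cast hi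
  have hd : 0.65 * x ≤ mB c k - mB c i := by
    unfold mB
    have e1 : (7 * (c.J1 : ℝ) + 5 / 2) * ((i : ℝ) + 1 + 1 / 2) + 5 * ((i : ℝ) + 1 + 1 / 2) ^ 2 / 2 ≤
        (7 * (c.J1 : ℝ) + 5 / 2) * ((k : ℝ) + 1 / 2) + 5 * ((k : ℝ) + 1 / 2) ^ 2 / 2 := by
      gcongr
    nlinarith
  have := kk hx hd
  rw [zB_eq hc, zB_eq hc]
  linarith

theorem sepC (hc : NumC c x) {i k : ℕ} (hi : i < k) : 1.3 / x ≤ zC c i - zC c k := by
  have hx : 0 < x := by linarith [hc.x0]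
  have h0 := hc.x0
  have h1 := n_lo hc
  have hi' : (i : ℝ) + 1 ≤ k := by exact_mod_cast hi
  have hd : 0.65 * x ≤ ((c.n : ℝ) + 1) * ((k : ℝ) + 1 / 2) - ((c.n : ℝ) + 1) * ((i : ℝ) + 1 / 2) := by
    rw [← mul_sub]
    nlinarith
  have := kk hx hd
  rw [zC_eq hc, zC_eq hc]
  linarith

theorem sepD (hc : NumC c x) {i k : ℕ} (hi : i < k) : 1.3 / x ≤ zD c i - zD c k := by
  have hx : 0 < x := by linarith [hc.x0]
  have h0 := hc.x0
  have h1 := n_lo hc
  have hi' : (i : ℝ) + 1 ≤ k := by exact_mod_cast hi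
  have hd : 0.65 * x ≤ (c.n : ℝ) * ((k : ℝ) + 1 / 2) - (c.n : ℝ) * ((i : ℝ) + 1 / 2) := by
    rw [← mul_sub]
    nlinarith
  have := kk hx hd
  rw [zD_eq hc, zD_eq hc]
  linarith

theorem sepCD (hc : NumC c x) {i : ℕ} (hi : i < c.l) (k : ℕ) : 1.3 / x ≤ zC c i - zD c k := by
  have hx : 0 < x := by linarith [hc.x0]
  have h0 := hc.x0
  have h1 := n_lo hc
  have hn : (0 : ℝ) ≤ c.n := Nat.cast_nonneg _
  have hk : (0 : ℝ) ≤ k := Nat.cast_nonneg _
  have hi' : (i : ℝ) + 1 ≤ c.l := by exact_mod_cast hi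
  have hd : 0.65 * x ≤ M3 c + (c.n : ℝ) * ((k : ℝ) + 1 / 2) -
      (M2 c + ((c.n : ℝ) + 1) * ((i : ℝ) + 1 / 2)) := by
    unfold M3
    have e1 : ((c.n : ℝ) + 1) * ((i : ℝ) + 1 / 2) ≤ ((c.n : ℝ) + 1) * ((c.l : ℝ) - 1 / 2) := by
      gcongr
      linarith
    nlinarith [mul_nonneg hn hk]
  have := kk hx hd
  rw [zC_eq hc, zD_eq hc]
  linarith

end

/-! ### own rings -/

theorem own_of {x z m : ℝ} (hx : 0 < x) (hz : z ^ 2 ≤ 1) (hm : 0 < m)
    (h : 1.69 * m ^ 2 ≤ 16 * (x ^ 2 * (1 - z ^ 2))) : 1.3 / x ≤ 4 * √(1 - z ^ 2) / m := by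
  have h1 : √(1 - z ^ 2) ^ 2 = 1 - z ^ 2 := Real.sq_sqrt (by linarith)
  apply le_of_sq_le_sq _ (by positivity)
  rw [div_pow, div_pow, mul_pow, h1, div_le_div_iff₀ (by positivity) (by positivity)]
  nlinarith

theorem own_neg {z s m : ℝ} (h : s ≤ 4 * √(1 - z ^ 2) / m) : s ≤ 4 * √(1 - (-z) ^ 2) / m := by
  rw [neg_sq]
  exact h

section

variable {c : Cf} {x : ℝ}

theorem ownA (hc : NumC c x) {j : ℕ} (hj : 1 ≤ j) (hz : 0.92 ≤ zA c j) (hz1 : zA c j ≤ 1) :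
    1.3 / x ≤ 4 * √(1 - (zA c j) ^ 2) / ((7 * j : ℕ) : ℝ) := by
  have hx : 0 < x := by linarith [hc.x0]
  have hj' : (1 : ℝ) ≤ j := by exact_mod_cast hj
  apply own_of hx (by nlinarith)
  · push_cast
    linarith
  · push_cast
    have e : x ^ 2 * (1 - zA c j) = 7 * ((j : ℝ) ^ 2 + 5 / 42) := by
      rw [zA_eq hc]
      field_simp
      ring
    have e2 : x ^ 2 * (1 - (zA c j) ^ 2) = 7 * ((j : ℝ) ^ 2 + 5 / 42) * (1 + zA c j) := by
      rw [← e]
      ring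
    rw [e2]
    nlinarith

theorem ownB (hc : NumC c x) {i : ℕ} (hz : 0.46 ≤ zB c i) (hz1 : zB c i ≤ 1) :
    1.3 / x ≤ 4 * √(1 - (zB c i) ^ 2) / ((7 * c.J1 + 5 * (i + 1) : ℕ) : ℝ) := by
  have hx : 0 < x := by linarith [hc.x0]
  have hi : (0 : ℝ) ≤ i := Nat.cast_nonneg _
  have hJ : (0 : ℝ) ≤ c.J1 := Nat.cast_nonneg _
  apply own_of hx (by nlinarith)
  · push_cast
    linarith
  · push_cast
    have e : x ^ 2 * (1 - zB c i) = 2 * mB c i := by
      rw [zB_eq hc]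
      field_simp
      ring
    have e2 : x ^ 2 * (1 - (zB c i) ^ 2) = 2 * mB c i * (1 + zB c i) := by
      rw [← e]
      ring
    rw [e2]
    have hm : 0 ≤ mB c i := by
      unfold mB M1
      positivity
    have h3 : 1.69 * (7 * (c.J1 : ℝ) + 5 * (i + 1)) ^ 2 ≤ 16 * (2 * mB c i * 1.46) := by
      unfold mB M1
      nlinarith [mul_nonneg hi hJ]
    refine h3.trans ?_
    gcongr
    linarith

theorem own_plateau (hc : NumC c x) {m z : ℝ} (hm : 0 < m) (hm2 : m ≤ c.n + 1)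
    (hz : |z| ≤ 0.47) : 1.3 / x ≤ 4 * √(1 - z ^ 2) / m := by
  have h0 := hc.x0
  have hx : 0 < x := by linarith [hc.x0]
  have h1 := n_hi hc
  have hz2 : z ^ 2 ≤ 0.47 ^ 2 := by
    rw [← sq_abs z]
    gcongr
  apply own_of hx (by linarith) hm
  have h2 : m ^ 2 ≤ (1.68 * x + 8) ^ 2 := by
    gcongr
    linarith
  have h3 : x ^ 2 * 0.77 ≤ x ^ 2 * (1 - z ^ 2) := by
    gcongr
    linarith
  nlinarith

end

/-! ### the list of rings -/

/-- pole and zone 1 -/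
noncomputable def G1 (c : Cf) (e : ℝ) : List (ℕ × ℝ) :=
  (List.range (c.J1 + 1)).map (fun j => (if j = 0 then 1 else 7 * j, e * (1 - A1 c j)))

/-- zone 2 -/
noncomputable def G2 (c : Cf) (e : ℝ) : List (ℕ × ℝ) :=
  (List.range c.J2).map (fun i => (7 * c.J1 + 5 * (i + 1), e * zB c i))

noncomputable def G3 (c : Cf) : List (ℕ × ℝ) := (List.range c.l).map (fun i => (c.n + 1, zC c i))

noncomputable def G4 (c : Cf) : List (ℕ × ℝ) := (List.range (c.R - c.l)).map (fun i => (c.n, zD c i))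

noncomputable def Lst (c : Cf) : List (ℕ × ℝ) :=
  G1 c 1 ++ (G2 c 1 ++ ((G3 c ++ G4 c) ++ (G2 c (-1) ++ G1 c (-1))))

theorem sum_range_list (f : ℕ → ℝ) (n : ℕ) :
    ((List.range n).map f).sum = ∑ i ∈ Finset.range n, f i := by
  induction n with
  | zero => simp
  | succ n ih =>
    rw [List.range_succ, List.map_append, List.sum_append, ih, Finset.sum_range_succ]
    simp

theorem sum_range_list_nat (f : ℕ → ℕ) (n : ℕ) :
    ((List.range n).map f).sum = ∑ i ∈ Finset.range n, f i := by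
  induction n with
  | zero => simp
  | succ n ih =>
    rw [List.range_succ, List.map_append, List.sum_append, ih, Finset.sum_range_succ]
    simp

theorem zA_A1 (c : Cf) {j : ℕ} (hj : j ≠ 0) : 1 - A1 c j = zA c j := by
  unfold A1 zA
  rw [if_neg hj]

theorem sum_Icc_range (f : ℕ → ℝ) (n : ℕ) :
    ∑ j ∈ Finset.Icc 1 n, f j = ∑ j ∈ Finset.range n, f (j + 1) := by
  induction n with
  | zero => simp
  | succ n ih =>
    rw [Finset.sum_range_succ, ← ih, Finset.sum_Icc_succ_top (by omega)]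

theorem sum_G1 (c : Cf) (e : ℝ) (F : E3 → ℝ) :
    ((G1 c e).map (fun r => (r.1 : ℝ) * rmean r.1 r.2 F)).sum =
      F (sp e 0) + ∑ j ∈ Finset.Icc 1 c.J1, 7 * (j : ℝ) * rmean (7 * j) (e * zA c j) F := by
  unfold G1
  rw [List.map_map, sum_range_list, Finset.sum_range_succ', sum_Icc_range]
  rw [add_comm]
  congr 1
  · simp [rmean, A1]
  · apply Finset.sum_congr rfl
    intro j _
    simp only [Function.comp_apply, if_neg (Nat.succ_ne_zero j), zA_A1 c (Nat.succ_ne_zero j)]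
    push_cast
    rfl

theorem sum_G2 (c : Cf) (e : ℝ) (F : E3 → ℝ) :
    ((G2 c e).map (fun r => (r.1 : ℝ) * rmean r.1 r.2 F)).sum =
      ∑ i ∈ Finset.range c.J2, (7 * (c.J1 : ℝ) + 5 * ((i : ℝ) + 1)) *
        rmean (7 * c.J1 + 5 * (i + 1)) (e * zB c i) F := by
  unfold G2
  rw [List.map_map, sum_range_list]
  apply Finset.sum_congr rfl
  intro j _
  simp only [Function.comp_apply]
  push_cast
  rfl

theorem sum_G3 (c : Cf) (F : E3 → ℝ) :
    ((G3 c).map (fun r => (r.1 : ℝ) * rmean r.1 r.2 F)).sum =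
      RC c (fun n z => rmean n z F) := by
  unfold G3 RC
  rw [List.map_map, sum_range_list]
  apply Finset.sum_congr rfl
  intro j _
  simp only [Function.comp_apply]
  push_cast
  rfl

theorem sum_G4 (c : Cf) (F : E3 → ℝ) :
    ((G4 c).map (fun r => (r.1 : ℝ) * rmean r.1 r.2 F)).sum =
      RD c (fun n z => rmean n z F) := by
  unfold G4 RD
  rw [List.map_map, sum_range_list]
  rfl

theorem sum_Lst (c : Cf) (F : E3 → ℝ) :
    ((Lst c).map (fun r => (r.1 : ℝ) * rmean r.1 r.2 F)).sum =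
      F (sp 1 0) + F (sp (-1) 0) + RS c (fun n z => rmean n z F) := by
  unfold Lst
  simp only [List.map_append, List.sum_append]
  rw [sum_G1, sum_G1, sum_G2, sum_G2, sum_G3, sum_G4]
  unfold RS RA RB
  have e1 : ∑ j ∈ Finset.Icc 1 c.J1, 7 * (j : ℝ) * (rmean (7 * j) (zA c j) F +
      rmean (7 * j) (-(zA c j)) F) =
      (∑ j ∈ Finset.Icc 1 c.J1, 7 * (j : ℝ) * rmean (7 * j) (1 * zA c j) F) +
      (∑ j ∈ Finset.Icc 1 c.J1, 7 * (j : ℝ) * rmean (7 * j) (-1 * zA c j) F) := by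
    rw [← Finset.sum_add_distrib]
    apply Finset.sum_congr rfl
    intro j _
    rw [one_mul, neg_one_mul]
    ring
  have e2 : ∑ i ∈ Finset.range c.J2, (7 * (c.J1 : ℝ) + 5 * ((i : ℝ) + 1)) *
      (rmean (7 * c.J1 + 5 * (i + 1)) (zB c i) F + rmean (7 * c.J1 + 5 * (i + 1)) (-(zB c i)) F) =
      (∑ i ∈ Finset.range c.J2, (7 * (c.J1 : ℝ) + 5 * ((i : ℝ) + 1)) *
        rmean (7 * c.J1 + 5 * (i + 1)) (1 * zB c i) F) +
      (∑ i ∈ Finset.range c.J2, (7 * (c.J1 : ℝ) + 5 * ((i : ℝ) + 1)) *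
        rmean (7 * c.J1 + 5 * (i + 1)) (-1 * zB c i) F) := by
    rw [← Finset.sum_add_distrib]
    apply Finset.sum_congr rfl
    intro j _
    rw [one_mul, neg_one_mul]
    ring
  rw [e1, e2]
  ring

theorem len_G1 (c : Cf) (e : ℝ) : 2 * ((G1 c e).map Prod.fst).sum = 2 + 7 * c.J1 * (c.J1 + 1) := by
  unfold G1
  rw [List.map_map, sum_range_list_nat, Finset.sum_range_succ']
  have : ∀ n : ℕ, 2 * ∑ k ∈ Finset.range n,
      (Prod.fst ∘ fun j : ℕ => ((if j = 0 then 1 else 7 * j), e * (1 - A1 c j))) (k + 1) =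
      7 * n * (n + 1) := by
    intro n
    induction n with
    | zero => simp
    | succ n ih =>
      rw [Finset.sum_range_succ, mul_add, ih]
      simp only [Function.comp_apply, if_neg (Nat.succ_ne_zero n)]
      ring
  rw [mul_add, this]
  simp
  ring

theorem len_G2 (c : Cf) (e : ℝ) :
    2 * ((G2 c e).map Prod.fst).sum = 14 * c.J1 * c.J2 + 5 * c.J2 * (c.J2 + 1) := by
  unfold G2
  rw [List.map_map, sum_range_list_nat]
  have : ∀ n : ℕ, 2 * ∑ k ∈ Finset.range n,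
      (Prod.fst ∘ fun i : ℕ => (7 * c.J1 + 5 * (i + 1), e * zB c i)) k =
      14 * c.J1 * n + 5 * n * (n + 1) := by
    intro n
    induction n with
    | zero => simp
    | succ n ih =>
      rw [Finset.sum_range_succ, mul_add, ih]
      simp only [Function.comp_apply]
      ring
  rw [this]

theorem len_G34 (c : Cf) (h : c.l ≤ c.R) :
    ((G3 c).map Prod.fst).sum + ((G4 c).map Prod.fst).sum = c.R * c.n + c.l := by
  unfold G3 G4
  rw [List.map_map, List.map_map, sum_range_list_nat, sum_range_list_nat]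
  simp only [Function.comp_apply, Finset.sum_const, Finset.card_range, smul_eq_mul]
  obtain ⟨k, hk⟩ := Nat.exists_eq_add_of_le h
  rw [hk, Nat.add_sub_cancel_left]
  ring

theorem len_Lst {t : ℕ} {c : Cf} (h : Good t c) : ((Lst c).map Prod.fst).sum = c.N := by
  unfold Lst
  simp only [List.map_append, List.sum_append]
  have h1 := len_G1 c 1
  have h2 := len_G1 c (-1)
  have h3 := len_G2 c 1
  have h4 := len_G2 c (-1)
  have h5 := len_G34 c h.lR
  have h6 := h.cnt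
  rw [h6]
  have e : 2 + 7 * c.J1 * (c.J1 + 1) + 14 * c.J1 * c.J2 + 5 * c.J2 * (c.J2 + 1)
      + c.R * c.n + c.l = (2 + 7 * c.J1 * (c.J1 + 1)) + (14 * c.J1 * c.J2 + 5 * c.J2 * (c.J2 + 1))
      + (c.R * c.n + c.l) := by ring
  rw [e, ← h5]
  omega

/-- separation of two rings -/
def Sp (s : ℝ) (r r' : ℕ × ℝ) : Prop := ∀ φ φ' : ℝ, s ≤ ‖sp r.2 φ - sp r'.2 φ'‖

theorem base_points2 : ∃ T0 : ℝ, ∀ (t : ℕ) (c : Cf), T0 ≤ (t : ℝ) → Good t c →
    ∃ y : Fin c.N → E3, (∀ k, ‖y k‖ = 1) ∧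
      (∀ F : E3 → ℝ, (1 / (c.N : ℝ)) * ∑ k, F (y k) = SC c F) ∧
      ∀ k k', k ≠ k' → 1.3 / √(c.N : ℝ) ≤ ‖y k - y k'‖ := by
  obtain ⟨T1, hT1⟩ := cfg_A
  obtain ⟨T2, hT2⟩ := cfg_B
  obtain ⟨T3, hT3⟩ := cfg_CD
  refine ⟨max 10000 (max T1 (max T2 T3)), fun t c ht h => ?_⟩
  have ht0 : (10000 : ℝ) ≤ t := (le_max_left _ _).trans ht
  have ht1 : T1 ≤ t := ((le_max_left _ _).trans (le_max_right _ _)).trans ht
  have ht2 : T2 ≤ t :=
    ((le_max_left _ _).trans ((le_max_right _ _).trans (le_max_right _ _))).trans ht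
  have ht3 : T3 ≤ t :=
    ((le_max_right _ _).trans ((le_max_right _ _).trans (le_max_right _ _))).trans ht
  have ht0' : 10000 ≤ t := by exact_mod_cast ht0
  have hA := hT1 t c ht1 h
  have hB := hT2 t c ht2 h
  have hCD := hT3 t c ht3 h
  have hc := numC_of ht0' h
  generalize hxe : √(c.N : ℝ) = x at hc ⊢
  have hx0 := hc.x0
  have hx : 0 < x := by linarith
  have hs : 0 ≤ 1.3 / x := by positivity
  have hs2 : 0.65 / x + 0.65 / x = 1.3 / x := by ring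
  have hs3 : 0 ≤ 0.65 / x := by positivity
  -- heights
  have zA1 : ∀ j ≤ c.J1, (1 - A1 c j) ^ 2 ≤ 1 := by
    intro j hj
    by_cases h0 : j = 0
    · subst h0
      simp [A1]
    · rw [zA_A1 c h0]
      have := hA j (Finset.mem_Icc.mpr ⟨by omega, hj⟩)
      nlinarith [this.1, this.2.1]
  have zA1' : ∀ j ≤ c.J1, zA c c.J1 ≤ 1 - A1 c j := by
    intro j hj
    by_cases h0 : j = 0
    · subst h0
      simp only [A1, if_true, sub_zero]
      rw [zA_eq hc]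
      have : 0 ≤ 2 / x ^ 2 * (7 / 2 * ((c.J1 : ℝ) ^ 2 + 5 / 42)) := by positivity
      linarith
    · rw [zA_A1 c h0]
      exact A_lo hc hj
  have q0 := c0_nonneg hc
  have q1 := c0_hi hc
  -- membership facts
  have mG1 : ∀ e : ℝ, e ^ 2 = 1 → ∀ r ∈ G1 c e, 1 ≤ r.1 ∧ r.2 ^ 2 ≤ 1 ∧
      (r.1 = 1 ∨ 1.3 / x ≤ 4 * √(1 - r.2 ^ 2) / (r.1 : ℝ)) ∧ zA c c.J1 ≤ e * r.2 := by
    intro e he r hr
    obtain ⟨j, hj, rfl⟩ := List.mem_map.mp hr
    have hj' : j ≤ c.J1 := by have := List.mem_range.mp hj; omega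
    have e2 : e * (e * (1 - A1 c j)) = 1 - A1 c j := by
      rw [← mul_assoc, ← sq, he, one_mul]
    simp only [e2]
    refine ⟨by split_ifs <;> omega, ?_, ?_, zA1' j hj'⟩
    · rw [mul_pow, he, one_mul]
      exact zA1 j hj'
    · by_cases h0 : j = 0
      · left
        simp [h0]
      · right
        rw [if_neg h0, mul_pow, he, one_mul, zA_A1 c h0]
        have := hA j (Finset.mem_Icc.mpr ⟨by omega, hj'⟩)
        exact ownA hc (by omega) this.1 this.2.1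
  have zB1 : ∀ i < c.J2, (zB c i) ^ 2 ≤ 1 := fun i hi => (hB i hi).2.z1
  have mG2 : ∀ e : ℝ, e ^ 2 = 1 → ∀ r ∈ G2 c e, 1 ≤ r.1 ∧ r.2 ^ 2 ≤ 1 ∧
      (1.3 / x ≤ 4 * √(1 - r.2 ^ 2) / (r.1 : ℝ)) ∧ e * r.2 ≤ zA c c.J1 - 1.3 / x ∧
      c0 c x + 0.65 / x ≤ e * r.2 := by
    intro e he r hr
    obtain ⟨i, hi, rfl⟩ := List.mem_map.mp hr
    have hi' : i < c.J2 := List.mem_range.mp hi
    have e2 : e * (e * zB c i) = zB c i := by
      rw [← mul_assoc, ← sq, he, one_mul]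
    simp only [e2]
    refine ⟨by omega, ?_, ?_, B_hi hc i, B_lo hc hi'⟩
    · rw [mul_pow, he, one_mul]
      exact zB1 i hi'
    · rw [mul_pow, he, one_mul]
      apply ownB hc (hB i hi').1
      have := zB1 i hi'
      nlinarith
  have mG34 : ∀ r ∈ G3 c ++ G4 c, 1 ≤ r.1 ∧ r.2 ^ 2 ≤ 1 ∧
      (1.3 / x ≤ 4 * √(1 - r.2 ^ 2) / (r.1 : ℝ)) ∧ r.2 ≤ c0 c x - 0.65 / x ∧
      -(c0 c x) + 0.65 / x ≤ r.2 := by
    intro r hr
    have hn := n_lo hc
    have hn' : (1 : ℝ) ≤ c.n := by linarith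
    have hn1 : 1 ≤ c.n := by exact_mod_cast hn'
    rcases List.mem_append.mp hr with hr | hr
    · obtain ⟨i, hi, rfl⟩ := List.mem_map.mp hr
      have hi' : i < c.l := List.mem_range.mp hi
      have := hCD.1 i hi'
      refine ⟨by simp, this.2.z1, ?_, C_hi hc i, C_lo hc hi'⟩
      simp only
      apply own_plateau hc _ _ this.1
      · push_cast
        linarith
      · push_cast
        linarith
    · obtain ⟨i, hi, rfl⟩ := List.mem_map.mp hr
      have hi' : i < c.R - c.l := List.mem_range.mp hi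
      have := hCD.2 i hi'
      refine ⟨hn1, this.2.z1, ?_, D_hi hc i, D_lo hc hi'⟩
      simp only
      exact own_plateau hc (by linarith) (by linarith) this.1
  -- pairwise separation
  have pG1 : (G1 c 1).Pairwise (Sp (1.3 / x)) := by
    unfold G1
    rw [List.pairwise_map]
    refine List.pairwise_lt_range.imp_of_mem ?_
    intro j k hj hk hjk φ φ'
    simp only [one_mul]
    exact sepA hc (fun i hi => ⟨(hA i hi).1, (hA i hi).2.1⟩) hjk
      (by have := List.mem_range.mp hk; omega) φ φ'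
  have pG1' : (G1 c (-1)).Pairwise (Sp (1.3 / x)) := by
    unfold G1
    rw [List.pairwise_map]
    refine List.pairwise_lt_range.imp_of_mem ?_
    intro j k hj hk hjk φ φ'
    have hj' := List.mem_range.mp hj
    have hk' := List.mem_range.mp hk
    simp only [neg_one_mul]
    rw [sp_neg_dist (zA1 j (by omega)) (zA1 k (by omega))]
    exact sepA hc (fun i hi => ⟨(hA i hi).1, (hA i hi).2.1⟩) hjk (by omega) φ φ'
  have pG2 : (G2 c 1).Pairwise (Sp (1.3 / x)) := by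
    unfold G2
    rw [List.pairwise_map]
    refine List.pairwise_lt_range.imp_of_mem ?_
    intro j k hj hk hjk φ φ'
    have hj' := List.mem_range.mp hj
    have hk' := List.mem_range.mp hk
    simp only [one_mul]
    exact sep_of_height (zB1 j hj') (zB1 k hk') hs (sepB hc hjk) φ φ'
  have pG2' : (G2 c (-1)).Pairwise (Sp (1.3 / x)) := by
    unfold G2
    rw [List.pairwise_map]
    refine List.pairwise_lt_range.imp_of_mem ?_
    intro j k hj hk hjk φ φ'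
    have hj' := List.mem_range.mp hj
    have hk' := List.mem_range.mp hk
    simp only [neg_one_mul]
    rw [sp_neg_dist (zB1 j hj') (zB1 k hk')]
    exact sep_of_height (zB1 j hj') (zB1 k hk') hs (sepB hc hjk) φ φ'
  have pG3 : (G3 c).Pairwise (Sp (1.3 / x)) := by
    unfold G3
    rw [List.pairwise_map]
    refine List.pairwise_lt_range.imp_of_mem ?_
    intro j k hj hk hjk φ φ'
    have hj' := List.mem_range.mp hj
    have hk' := List.mem_range.mp hk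
    exact sep_of_height (hCD.1 j hj').2.z1 (hCD.1 k hk').2.z1 hs (sepC hc hjk) φ φ'
  have pG4 : (G4 c).Pairwise (Sp (1.3 / x)) := by
    unfold G4
    rw [List.pairwise_map]
    refine List.pairwise_lt_range.imp_of_mem ?_
    intro j k hj hk hjk φ φ'
    have hj' := List.mem_range.mp hj
    have hk' := List.mem_range.mp hk
    exact sep_of_height (hCD.2 j hj').2.z1 (hCD.2 k hk').2.z1 hs (sepD hc hjk) φ φ'
  have pG34 : (G3 c ++ G4 c).Pairwise (Sp (1.3 / x)) := by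
    rw [List.pairwise_append]
    refine ⟨pG3, pG4, ?_⟩
    intro r hr r' hr' φ φ'
    obtain ⟨i, hi, rfl⟩ := List.mem_map.mp hr
    obtain ⟨k, hk, rfl⟩ := List.mem_map.mp hr'
    have hi' := List.mem_range.mp hi
    have hk' := List.mem_range.mp hk
    exact sep_of_height (hCD.1 i hi').2.z1 (hCD.2 k hk').2.z1 hs (sepCD hc hi' k) φ φ'
  have n1 : (-1 : ℝ) ^ 2 = 1 := by norm_num
  have o1 : (1 : ℝ) ^ 2 = 1 := by norm_num
  have p5 : (G2 c (-1) ++ G1 c (-1)).Pairwise (Sp (1.3 / x)) := by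
    rw [List.pairwise_append]
    refine ⟨pG2', pG1', ?_⟩
    intro r hr r' hr' φ φ'
    have a := mG2 (-1) n1 r hr
    have b := mG1 (-1) n1 r' hr'
    apply sep_of_height a.2.1 b.2.1 hs
    linarith [a.2.2.2.1, b.2.2.2]
  have p4 : ((G3 c ++ G4 c) ++ (G2 c (-1) ++ G1 c (-1))).Pairwise (Sp (1.3 / x)) := by
    rw [List.pairwise_append]
    refine ⟨pG34, p5, ?_⟩
    intro r hr r' hr' φ φ'
    have a := mG34 r hr
    rcases List.mem_append.mp hr' with hr' | hr'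
    · have b := mG2 (-1) n1 r' hr'
      apply sep_of_height a.2.1 b.2.1 hs
      linarith [a.2.2.2.2, b.2.2.2.2]
    · have b := mG1 (-1) n1 r' hr'
      apply sep_of_height a.2.1 b.2.1 hs
      linarith [a.2.2.2.2, b.2.2.2]
  have p3 : (G2 c 1 ++ ((G3 c ++ G4 c) ++ (G2 c (-1) ++ G1 c (-1)))).Pairwise (Sp (1.3 / x)) := by
    rw [List.pairwise_append]
    refine ⟨pG2, p4, ?_⟩
    intro r hr r' hr' φ φ'
    have a := mG2 1 o1 r hr
    rcases List.mem_append.mp hr' with hr' | hr'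
    · have b := mG34 r' hr'
      apply sep_of_height a.2.1 b.2.1 hs
      linarith [a.2.2.2.2, b.2.2.2.1]
    rcases List.mem_append.mp hr' with hr' | hr'
    · have b := mG2 (-1) n1 r' hr'
      apply sep_of_height a.2.1 b.2.1 hs
      linarith [a.2.2.2.2, b.2.2.2.2]
    · have b := mG1 (-1) n1 r' hr'
      apply sep_of_height a.2.1 b.2.1 hs
      linarith [a.2.2.2.2, b.2.2.2]
  have p2 : (Lst c).Pairwise (Sp (1.3 / x)) := by
    unfold Lst
    rw [List.pairwise_append]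
    refine ⟨pG1, p3, ?_⟩
    intro r hr r' hr' φ φ'
    have a := mG1 1 o1 r hr
    rcases List.mem_append.mp hr' with hr' | hr'
    · have b := mG2 1 o1 r' hr'
      apply sep_of_height a.2.1 b.2.1 hs
      linarith [a.2.2.2, b.2.2.2.1]
    rcases List.mem_append.mp hr' with hr' | hr'
    · have b := mG34 r' hr'
      apply sep_of_height a.2.1 b.2.1 hs
      linarith [a.2.2.2, b.2.2.2.1]
    rcases List.mem_append.mp hr' with hr' | hr'
    · have b := mG2 (-1) n1 r' hr'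
      apply sep_of_height a.2.1 b.2.1 hs
      linarith [a.2.2.2, b.2.2.2.2]
    · have b := mG1 (-1) n1 r' hr'
      apply sep_of_height a.2.1 b.2.1 hs
      linarith [a.2.2.2, b.2.2.2]
  have mL : ∀ r ∈ Lst c, 1 ≤ r.1 ∧ r.2 ^ 2 ≤ 1 ∧
      (r.1 = 1 ∨ 1.3 / x ≤ 4 * √(1 - r.2 ^ 2) / (r.1 : ℝ)) := by
    intro r hr
    unfold Lst at hr
    rcases List.mem_append.mp hr with hr | hr
    · have a := mG1 1 o1 r hr
      exact ⟨a.1, a.2.1, a.2.2.1⟩
    rcases List.mem_append.mp hr with hr | hr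
    · have a := mG2 1 o1 r hr
      exact ⟨a.1, a.2.1, Or.inr a.2.2.1⟩
    rcases List.mem_append.mp hr with hr | hr
    · have a := mG34 r hr
      exact ⟨a.1, a.2.1, Or.inr a.2.2.1⟩
    rcases List.mem_append.mp hr with hr | hr
    · have a := mG2 (-1) n1 r hr
      exact ⟨a.1, a.2.1, Or.inr a.2.2.1⟩
    · have a := mG1 (-1) n1 r hr
      exact ⟨a.1, a.2.1, a.2.2.1⟩
  have key := enum_points (1.3 / x) (Lst c) (fun r hr => ⟨(mL r hr).1, (mL r hr).2.1⟩)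
    (fun r hr => (mL r hr).2.2) p2
  rw [len_Lst h] at key
  obtain ⟨y, y1, y2, y3⟩ := key
  refine ⟨y, y1, fun F => ?_, y3⟩
  rw [y2 F, sum_Lst]
  unfold SC
  rw [one_div_mul_eq_div]

end Pool.Agent.Helper83.SE
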