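import Pool.Agent.Helper83.SE.C02
import Pool.Agent.Helper83.SE.Dl2
import Pool.Agent.Helper83.SE.Lip2
import Pool.Agent.Helper83.SE.Exist2
import Pool.Agent.Helper83.SE.Sep2
import Pool.Agent.Helper83.SE.CfgE

/-!
Project SE, module Final2: the theorem.

`cfg_exists` gives `t' ≥ t` and `c`, `Good t' c`; `exist_design2` with `t'`, `c0 = 0.25`,
`δ = 0.105/t'^2`, `K = 0.525 (t'+1)^2`: `4 K δ = 0.2205 (1+1/t')^2 < 0.25`.  Displacement
`2δ/√c0 √N = 0.42 √N/t'^2`, twice this is `< 1.3/√N` because `0.84 N/t'^2 ≤ 1.26 (1+1/t')^2 < 1.3`: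
the points stay distinct; `X = image`.
-/

set_option autoImplicit false

open MeasureTheory Real Pool.Agent.Helper83.SD

namespace Pool.Agent.Helper83.SE

/-- the regime case -/
theorem final_reg2 : ∃ T0 : ℝ, ∀ (t : ℕ) (c : Cf), T0 ≤ (t : ℝ) → Good t c →
    ∃ X : Finset E3, X.card = c.N ∧ (∀ x ∈ X, ‖x‖ = 1) ∧
      ∀ p : Poly, p.totalDegree ≤ t → (X.card : ℝ)⁻¹ * ∑ x ∈ X, ev p x = mu p := by
  obtain ⟨T1, hS⟩ := sampling2
  obtain ⟨T2, hD⟩ := near_design2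
  obtain ⟨T3, hB⟩ := base_points2
  refine ⟨max (max T1 T2) (max T3 10000), fun t c ht hg => ?_⟩
  have h1 : T1 ≤ (t : ℝ) := ((le_max_left _ _).trans (le_max_left _ _)).trans ht
  have h2 : T2 ≤ (t : ℝ) := ((le_max_right _ _).trans (le_max_left _ _)).trans ht
  have h3 : T3 ≤ (t : ℝ) := ((le_max_left _ _).trans (le_max_right _ _)).trans ht
  have h4 : (10000 : ℝ) ≤ (t : ℝ) := ((le_max_right _ _).trans (le_max_right _ _)).trans ht
  have htp : (0 : ℝ) < t := by linarith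
  have ht2 : (0 : ℝ) < (t : ℝ) ^ 2 := by positivity
  have hlo := hg.lo
  have hhi := hg.hi
  have hNp' : (0 : ℝ) < c.N := by nlinarith
  have hNp : 0 < c.N := by exact_mod_cast hNp'
  obtain ⟨y, hy1, hyF, hysep⟩ := hB t c h3 hg
  have hsq : √(c.N : ℝ) ^ 2 = (c.N : ℝ) := Real.sq_sqrt hNp'.le
  have hsp : 0 < √(c.N : ℝ) := Real.sqrt_pos.mpr hNp'
  have hsN : √(c.N : ℝ) ≤ 1.25 * t := by
    apply Real.sqrt_le_iff.mpr
    refine ⟨by positivity, ?_⟩
    nlinarith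
  have hc : √(0.25 : ℝ) = 0.5 := by
    rw [show (0.25 : ℝ) = 0.5 ^ 2 by norm_num]
    exact Real.sqrt_sq (by norm_num)
  have hδ : 0 ≤ 0.105 / (t : ℝ) ^ 2 := by positivity
  have hdisp : 2 * (0.105 / (t : ℝ) ^ 2) / √(0.25 : ℝ) * √(c.N : ℝ) =
      0.42 * √(c.N : ℝ) / (t : ℝ) ^ 2 := by
    rw [hc]
    field_simp
    norm_num
  have hdisp1 : 0.42 * √(c.N : ℝ) / (t : ℝ) ^ 2 ≤ 1 := by
    rw [div_le_one ht2]
    nlinarith
  have hK : 4 * (0.525 * ((t : ℝ) + 1) ^ 2) * (0.105 / (t : ℝ) ^ 2) < 0.25 := by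
    rw [← mul_div_assoc, div_lt_iff₀ ht2]
    nlinarith
  obtain ⟨x, hx1, hxy, hxd⟩ := exist_design2 t c.N 0.25 (0.105 / (t : ℝ) ^ 2)
    (0.525 * ((t : ℝ) + 1) ^ 2) y hNp hy1 (by norm_num) hδ (by positivity)
    (fun p hp x y hx hy hxy => lip2 t p hp x y hx hy hxy)
    (fun p hp => by
      have := hS t c h1 hg p hp
      rw [← hyF (fun x => (ev p x) ^ 2)] at this
      exact this)
    (fun p hp => by
      have := hD t c h2 hg p hp
      rw [← hyF (ev p)] at this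
      exact this)
    hK (hdisp.le.trans hdisp1)
  have hinj : Function.Injective x := by
    intro k l hkl
    by_contra hne
    have hsep := hysep k l hne
    have e2 : ‖y k - y l‖ ≤ 0.42 * √(c.N : ℝ) / (t : ℝ) ^ 2 + 0.42 * √(c.N : ℝ) / (t : ℝ) ^ 2 := by
      have e3 : y k - y l = (x l - y l) - (x k - y k) := by rw [hkl]; abel
      rw [e3]
      refine (norm_sub_le _ _).trans ?_
      exact add_le_add ((hxy l).trans hdisp.le) ((hxy k).trans hdisp.le)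
    have e4 : 0.42 * √(c.N : ℝ) / (t : ℝ) ^ 2 + 0.42 * √(c.N : ℝ) / (t : ℝ) ^ 2 <
        1.3 / √(c.N : ℝ) := by
      rw [← add_div, div_lt_div_iff₀ ht2 hsp]
      nlinarith
    linarith
  refine ⟨Finset.univ.image x, ?_, ?_, ?_⟩
  · rw [Finset.card_image_of_injective _ hinj, Finset.card_univ, Fintype.card_fin]
  · intro z hz
    obtain ⟨k, -, rfl⟩ := Finset.mem_image.mp hz
    exact hx1 k
  · intro p hp
    rw [Finset.card_image_of_injective _ hinj, Finset.card_univ, Fintype.card_fin,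
      Finset.sum_image (fun a _ b _ h => hinj h), ← hxd p hp, one_div]

theorem final2 : ∃ T0 : ℕ, ∀ t : ℕ, T0 ≤ t → ∀ N : ℕ, 3 / 2 * (t : ℝ) ^ 2 ≤ N →
    ∃ X : Finset E3, X.card = N ∧ (∀ x ∈ X, ‖x‖ = 1) ∧
      ∀ p : MvPolynomial (Fin 3) ℝ, p.totalDegree ≤ t →
        (X.card : ℝ)⁻¹ * ∑ x ∈ X, MvPolynomial.eval (fun i => x i) p =
          ⨍ y : Metric.sphere (0 : E3) 1, MvPolynomial.eval (fun i => (y : E3) i) p
            ∂((volume : Measure E3).toSphere) := by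
  obtain ⟨T1, hF⟩ := final_reg2
  obtain ⟨N0, hE⟩ := cfg_exists
  refine ⟨max (max ⌈T1⌉₊ N0) 1, fun t ht N hN => ?_⟩
  have h1 : T1 ≤ (t : ℝ) := (Nat.le_ceil T1).trans
    (by exact_mod_cast ((le_max_left _ _).trans (le_max_left _ _)).trans ht)
  have h2 : N0 ≤ t := ((le_max_right _ _).trans (le_max_left _ _)).trans ht
  have h3 : 1 ≤ t := (le_max_right _ _).trans ht
  have h3' : (1 : ℝ) ≤ t := by exact_mod_cast h3
  have hN0 : N0 ≤ N := by
    have : (t : ℝ) ≤ N := by nlinarith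
    exact h2.trans (by exact_mod_cast this)
  obtain ⟨s, c, hcN, hg, hs⟩ := hE N hN0
  have hts : t ≤ s := by
    have h5 : 3 / 2 * (t : ℝ) ^ 2 < 1.5 * ((s : ℝ) + 1) ^ 2 := lt_of_le_of_lt hN hs
    have h6 : (t : ℝ) < (s : ℝ) + 1 := by
      by_contra hh
      push Not at hh
      have h0 : (0 : ℝ) ≤ s := Nat.cast_nonneg s
      nlinarith
    have : t < s + 1 := by exact_mod_cast h6
    omega
  obtain ⟨X, hc, hn, hd⟩ := hF s c (h1.trans (by exact_mod_cast hts)) hg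
  exact ⟨X, hc.trans hcN, hn, fun p hp => hd p (hp.trans hts)⟩

end Pool.Agent.Helper83.SE
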