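import Pool.Agent.Helper83.SE.ModeR
import Pool.Agent.Helper83.SE.Basic2
import Pool.Agent.Helper83.SD.Pars

/-!
Project SE, module Inner: mass of a high mode on an inner ring and its mirror image.

`z = zA c j`, `u = 1 - z ≤ 0.0020001` (`inner`), `a = aX`, `bX = (1-X)/2`.  For `g = u_m` or `v_m`,
`|m| = m`: `a g` has degree `≤ (t+1) - m`; `modeR` at `z` with `t+1`; `a(z)^2 ≥ 1/1.0021`; and `bX g`
composed with `-X` at `z` for the mirror ring; `nrm m (a g) + nrm m (bX g) ≤ nrm m g`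
(`a^2 + bX^2 ≤ 1`).  `N = c.N`, `T = (t+2)^2 ≤ 0.6672 N`:
`7j/N * ((1-z^2)/4)^m T^(m+1) e^{m u} ≤ 4.6704 j (2.3376 (j^2+5/42))^m`
(`1-z^2 = 2u(1-u/2)`, `(1-u/2) e^u ≤ e^{u/2} ≤ 1.00101`, `0.6672*7/2*1.00101 ≤ 2.3376`);
`X = lam(t+1) u/(m+1) ≥ 4.665 (j^2+5/42)/(m+1)` and `x ↦ e^{-x}/(m+1-x)` is decreasing for `x ≤ m`.
Conditions: `lam(t+1)(1-z^2) ≤ 0.6672 * 14 (j^2+5/42) ≤ m^2` and `X + 1 ≤ m` hold if `7 j ≤ 2 m`
(`X ≤ 4.6704 (j^2+5/42)/(m+1)`, `j ≥ 1`, `m ≥ 4`).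
-/

set_option autoImplicit false

open MeasureTheory Real Pool.Agent.Helper83.SD

namespace Pool.Agent.Helper83.SE

namespace InnerM

noncomputable def bX : Polynomial ℝ := Polynomial.C (1 / 2) * (1 - Polynomial.X)

theorem aX_eval (z : ℝ) : aX.eval z = (1 + z) / 2 := by
  simp [aX]; ring

theorem bX_eval (z : ℝ) : bX.eval z = (1 - z) / 2 := by
  simp [bX]; ring

theorem aX_deg : aX.natDegree ≤ 1 := by
  unfold aX
  refine (Polynomial.natDegree_C_mul_le _ _).trans ?_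
  refine (Polynomial.natDegree_add_le _ _).trans ?_
  simp

theorem bX_deg : bX.natDegree ≤ 1 := by
  unfold bX
  refine (Polynomial.natDegree_C_mul_le _ _).trans ?_
  refine (Polynomial.natDegree_sub_le _ _).trans ?_
  simp

theorem nrm_refl (m : ℕ) (g : Polynomial ℝ) : nrm m (refl g) = nrm m g := by
  unfold nrm
  congr 1
  have h := intervalIntegral.integral_comp_neg (a := (-1 : ℝ)) (b := 1)
    (fun z : ℝ => (1 - z ^ 2) ^ m * (g.eval z) ^ 2)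
  rw [neg_neg] at h
  rw [← h]
  refine intervalIntegral.integral_congr fun z _ => ?_
  simp only [refl_eval]
  rw [neg_sq]

theorem nrm_split (m : ℕ) (g : Polynomial ℝ) :
    nrm m (aX * g) + nrm m (bX * g) ≤ nrm m g := by
  unfold nrm
  have hc1 : IntervalIntegrable (fun z : ℝ => (1 - z ^ 2) ^ m * ((aX * g).eval z) ^ 2)
      volume (-1) 1 := by
    refine Continuous.intervalIntegrable ?_ _ _
    exact ((by fun_prop : Continuous fun z : ℝ => (1 - z ^ 2) ^ m)).mul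
      ((Polynomial.continuous _).pow 2)
  have hc2 : IntervalIntegrable (fun z : ℝ => (1 - z ^ 2) ^ m * ((bX * g).eval z) ^ 2)
      volume (-1) 1 := by
    refine Continuous.intervalIntegrable ?_ _ _
    exact ((by fun_prop : Continuous fun z : ℝ => (1 - z ^ 2) ^ m)).mul
      ((Polynomial.continuous _).pow 2)
  have hc3 : IntervalIntegrable (fun z : ℝ => (1 - z ^ 2) ^ m * (g.eval z) ^ 2)
      volume (-1) 1 := by
    refine Continuous.intervalIntegrable ?_ _ _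
    exact ((by fun_prop : Continuous fun z : ℝ => (1 - z ^ 2) ^ m)).mul
      ((Polynomial.continuous _).pow 2)
  rw [← mul_add, ← intervalIntegral.integral_add hc1 hc2]
  refine mul_le_mul_of_nonneg_left ?_ (by norm_num)
  refine intervalIntegral.integral_mono_on (by norm_num) (hc1.add hc2) hc3 ?_
  intro z hz
  have h1 : 0 ≤ 1 - z ^ 2 := by nlinarith [hz.1, hz.2]
  have h2 : 0 ≤ (1 - z ^ 2) ^ m := pow_nonneg h1 m
  simp only [Polynomial.eval_mul, aX_eval, bX_eval]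
  have h3 : ((1 + z) / 2 * g.eval z) ^ 2 + ((1 - z) / 2 * g.eval z) ^ 2 ≤ (g.eval z) ^ 2 := by
    have : ((1 + z) / 2 * g.eval z) ^ 2 + ((1 - z) / 2 * g.eval z) ^ 2 =
        (g.eval z) ^ 2 * ((1 + z ^ 2) / 2) := by ring
    rw [this]
    have h4 : (1 + z ^ 2) / 2 ≤ 1 := by linarith
    nlinarith [sq_nonneg (g.eval z)]
  calc (1 - z ^ 2) ^ m * ((1 + z) / 2 * g.eval z) ^ 2 + (1 - z ^ 2) ^ m * ((1 - z) / 2 * g.eval z) ^ 2
      = (1 - z ^ 2) ^ m * (((1 + z) / 2 * g.eval z) ^ 2 + ((1 - z) / 2 * g.eval z) ^ 2) := by ring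
    _ ≤ (1 - z ^ 2) ^ m * (g.eval z) ^ 2 := mul_le_mul_of_nonneg_left h3 h2

/-- both rings, one polynomial -/
theorem pair {t m : ℕ} (hm1 : 1 ≤ m) (hm : m ≤ t) {g : Polynomial ℝ}
    (hg : g.natDegree ≤ t - m) {z X Q : ℝ} (hz0 : 0.998 ≤ z) (hz1 : z ≤ 1)
    
    (h1 : lam (t + 1) * (1 - z ^ 2) ≤ (m : ℝ) ^ 2) (hX : X = lam (t + 1) * (1 - z) / ((m : ℝ) + 1))
    (hX1 : X + 1 ≤ m)
    (hQ : Q = ((1 - z ^ 2) / 4) ^ m /
      ((m.factorial : ℝ) ^ 2) * Real.exp ((m : ℝ) * (1 - z) - X) *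
      ((((t + 1 : ℕ) : ℝ) + 1) ^ 2) ^ (m + 1) / ((m : ℝ) + 1 - X)) :
    (1 - z ^ 2) ^ m * (g.eval z) ^ 2 + (1 - z ^ 2) ^ m * (g.eval (-z)) ^ 2 ≤
      1.0021 * Q * nrm m g := by
  have hQ0 : 0 ≤ Q := by
    rw [hQ]
    have h2 : 0 ≤ (1 - z ^ 2) / 4 := by nlinarith
    have h3 : 0 ≤ (m : ℝ) + 1 - X := by linarith
    positivity
  have hga : (aX * g).natDegree ≤ t + 1 - m := by
    refine (Polynomial.natDegree_mul_le).trans ?_
    have := aX_deg
    omega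
  have hgb : (refl (bX * g)).natDegree ≤ t + 1 - m := by
    refine (refl_natDegree _).trans ?_
    refine (Polynomial.natDegree_mul_le).trans ?_
    have := bX_deg
    omega
  have ha := modeR (t := t + 1) hm1 (by omega) hga (by linarith) hz1 h1 hX hX1
  have hb := modeR (t := t + 1) hm1 (by omega) hgb (by linarith) hz1 h1 hX hX1
  have ea : ∀ y : ℝ, y * ((1 - z ^ 2) / 4) ^ m /
      ((m.factorial : ℝ) ^ 2) * Real.exp ((m : ℝ) * (1 - z) - X) *
      ((((t + 1 : ℕ) : ℝ) + 1) ^ 2) ^ (m + 1) / ((m : ℝ) + 1 - X) = y * Q := by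
    intro y; rw [hQ]; ring
  rw [ea] at ha hb
  rw [nrm_refl, refl_eval] at hb
  simp only [Polynomial.eval_mul, aX_eval, bX_eval] at ha hb
  have hs := nrm_split m g
  have hp : 0 ≤ (1 - z ^ 2) ^ m := pow_nonneg (by nlinarith) m
  have hc : 1 ≤ 1.0021 * ((1 + z) / 2) ^ 2 := by
    have : 0.99899995 ≤ (1 + z) / 2 := by linarith
    nlinarith
  have hA : (1 - z ^ 2) ^ m * (g.eval z) ^ 2 ≤
      1.0021 * ((1 - z ^ 2) ^ m * ((1 + z) / 2 * g.eval z) ^ 2) := by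
    have : (1 - z ^ 2) ^ m * (g.eval z) ^ 2 * 1 ≤
        (1 - z ^ 2) ^ m * (g.eval z) ^ 2 * (1.0021 * ((1 + z) / 2) ^ 2) :=
      mul_le_mul_of_nonneg_left hc (by positivity)
    calc (1 - z ^ 2) ^ m * (g.eval z) ^ 2 = (1 - z ^ 2) ^ m * (g.eval z) ^ 2 * 1 := by ring
      _ ≤ _ := this
      _ = _ := by ring
  have hB : (1 - z ^ 2) ^ m * (g.eval (-z)) ^ 2 ≤
      1.0021 * ((1 - z ^ 2) ^ m * ((1 - -z) / 2 * g.eval (-z)) ^ 2) := by
    have : (1 - z ^ 2) ^ m * (g.eval (-z)) ^ 2 * 1 ≤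
        (1 - z ^ 2) ^ m * (g.eval (-z)) ^ 2 * (1.0021 * ((1 + z) / 2) ^ 2) :=
      mul_le_mul_of_nonneg_left hc (by positivity)
    calc (1 - z ^ 2) ^ m * (g.eval (-z)) ^ 2 = (1 - z ^ 2) ^ m * (g.eval (-z)) ^ 2 * 1 := by ring
      _ ≤ _ := this
      _ = _ := by ring
  calc (1 - z ^ 2) ^ m * (g.eval z) ^ 2 + (1 - z ^ 2) ^ m * (g.eval (-z)) ^ 2
      ≤ 1.0021 * (nrm m (aX * g) * Q) + 1.0021 * (nrm m (bX * g) * Q) :=
        add_le_add (hA.trans (by linarith)) (hB.trans (by linarith))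
    _ = 1.0021 * Q * (nrm m (aX * g) + nrm m (bX * g)) := by ring
    _ ≤ 1.0021 * Q * nrm m g := mul_le_mul_of_nonneg_left hs (by positivity)

theorem dec {M X X0 : ℝ} (h0 : X0 ≤ X) (h1 : X + 1 ≤ M) :
    Real.exp (-X) / (M - X) ≤ Real.exp (-X0) / (M - X0) := by
  have hM : 0 < M - X := by linarith
  have hM0 : 0 < M - X0 := by linarith
  rw [div_le_div_iff₀ hM hM0]
  have h2 : Real.exp (-X) = Real.exp (-X0) * Real.exp (-(X - X0)) := by
    rw [← Real.exp_add]; congr 1; ring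
  rw [h2, mul_assoc]
  refine mul_le_mul_of_nonneg_left ?_ (Real.exp_pos _).le
  have h3 : X - X0 + 1 ≤ Real.exp (X - X0) := Real.add_one_le_exp _
  have h4 : Real.exp (-(X - X0)) * Real.exp (X - X0) = 1 := by
    rw [← Real.exp_add]; simp
  have h5 : 0 < Real.exp (-(X - X0)) := Real.exp_pos _
  have h6 : Real.exp (-(X - X0)) * (X - X0 + 1) ≤ 1 := by
    calc _ ≤ Real.exp (-(X - X0)) * Real.exp (X - X0) := mul_le_mul_of_nonneg_left h3 h5.le
      _ = 1 := h4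
  have h7 : M - X0 ≤ (X - X0 + 1) * (M - X) := by nlinarith
  calc Real.exp (-(X - X0)) * (M - X0) ≤
      Real.exp (-(X - X0)) * ((X - X0 + 1) * (M - X)) := mul_le_mul_of_nonneg_left h7 h5.le
    _ = (Real.exp (-(X - X0)) * (X - X0 + 1)) * (M - X) := by ring
    _ ≤ 1 * (M - X) := mul_le_mul_of_nonneg_right h6 hM.le
    _ = M - X := one_mul _

theorem Fm_sq {u v : ℤ → Polynomial ℝ} (m : ℤ) {z : ℝ} (hz : z ^ 2 ≤ 1) :
    (Fm u v m z) ^ 2 = (1 - z ^ 2) ^ m.natAbs * (((u m).eval z) ^ 2 + ((v m).eval z) ^ 2) := by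
  unfold Fm
  refine Real.sq_sqrt ?_
  have : 0 ≤ 1 - z ^ 2 := by linarith
  positivity

/-- the numerical factor -/
theorem fac {N T z s X jj : ℝ} {k m : ℕ} (hN : 0 < N) (hT0 : 0 ≤ T) (hT : T ≤ 0.6672 * N)
    (hj : 0 ≤ jj) (hs : 0 < s)
    (hz : 1 - z = 7 / N * s) (hz2 : 1 - z ≤ 0.0020001)
    (hX0 : 4.665 * s / ((m : ℝ) + 1) ≤ X) (hX1 : X + 1 ≤ m) (hk : k = m) :
    7 * jj / N * (((1 - z ^ 2) / 4) ^ m /
      ((m.factorial : ℝ) ^ 2) * Real.exp ((m : ℝ) * (1 - z) - X) *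
      T ^ (m + 1) / ((m : ℝ) + 1 - X)) ≤
    4.6704 * jj * (2.3376 * s) ^ k / ((k.factorial : ℝ) ^ 2)
      * Real.exp (-(4.665 * s / ((k : ℝ) + 1)))
      / ((k : ℝ) + 1 - 4.665 * s / ((k : ℝ) + 1)) := by
  subst hk
  set w : ℝ := 1 - z with hw
  have hw0 : 0 < w := by rw [hz]; positivity
  have hzz : 1 - z ^ 2 = 2 * w * (1 - w / 2) := by rw [hw]; ring
  have hdec := dec (M := (k : ℝ) + 1) hX0 (by linarith)
  have hD : 0 < (k : ℝ) + 1 - X := by linarith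
  -- main factor
  have hexp1 : 1 - w / 2 ≤ Real.exp (-(w / 2)) := by
    have := Real.add_one_le_exp (-(w / 2)); linarith
  have hexp2 : Real.exp (w / 2) ≤ 1.00101 := by
    have h1 : Real.exp (w / 2) * (1 - w / 2) ≤ 1 := by
      calc Real.exp (w / 2) * (1 - w / 2) ≤ Real.exp (w / 2) * Real.exp (-(w / 2)) :=
            mul_le_mul_of_nonneg_left hexp1 (Real.exp_pos _).le
        _ = 1 := by rw [← Real.exp_add]; simp
    have h2 : 0.99899995 ≤ 1 - w / 2 := by linarith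
    have h3 := Real.exp_pos (w / 2)
    nlinarith
  have hfac : (1 - z ^ 2) / 4 * Real.exp w * T ≤ 2.3376 * s := by
    have h1 : (1 - w / 2) * Real.exp w ≤ 1.00101 := by
      calc (1 - w / 2) * Real.exp w ≤ Real.exp (-(w / 2)) * Real.exp w :=
            mul_le_mul_of_nonneg_right hexp1 (Real.exp_pos _).le
        _ = Real.exp (w / 2) := by rw [← Real.exp_add]; congr 1; ring
        _ ≤ _ := hexp2
    have h2 : w / 2 * T ≤ 2.3352 * s := by
      calc w / 2 * T ≤ w / 2 * (0.6672 * N) := mul_le_mul_of_nonneg_left hT (by positivity)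
        _ = 2.3352 * s := by rw [hz]; field_simp; norm_num
    have h3 : 0 ≤ w / 2 * T := by positivity
    calc (1 - z ^ 2) / 4 * Real.exp w * T = (w / 2 * T) * ((1 - w / 2) * Real.exp w) := by
          rw [hzz]; ring
      _ ≤ (w / 2 * T) * 1.00101 := mul_le_mul_of_nonneg_left h1 h3
      _ ≤ (2.3352 * s) * 1.00101 := mul_le_mul_of_nonneg_right h2 (by norm_num)
      _ ≤ 2.3376 * s := by nlinarith
  have hfac0 : 0 ≤ (1 - z ^ 2) / 4 * Real.exp w * T := by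
    have h2 : 0 ≤ 1 - w / 2 := by linarith
    have : 0 ≤ 1 - z ^ 2 := by rw [hzz]; positivity
    positivity
  have hpow := pow_le_pow_left₀ hfac0 hfac k
  have hpre : 7 * jj / N * T ≤ 4.6704 * jj := by
    calc 7 * jj / N * T ≤ 7 * jj / N * (0.6672 * N) := mul_le_mul_of_nonneg_left hT (by positivity)
      _ = 4.6704 * jj := by field_simp; ring
  have hpre0 : 0 ≤ 7 * jj / N * T := by positivity
  have hf0 : 0 < ((k.factorial : ℝ) ^ 2) := by positivity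
  have he : Real.exp ((k : ℝ) * w - X) = Real.exp w ^ k * Real.exp (-X) := by
    rw [← Real.exp_nat_mul, ← Real.exp_add]; congr 1
  calc 7 * jj / N * (((1 - z ^ 2) / 4) ^ k /
      ((k.factorial : ℝ) ^ 2) * Real.exp ((k : ℝ) * w - X) *
      T ^ (k + 1) / ((k : ℝ) + 1 - X))
      = (7 * jj / N * T) * ((1 - z ^ 2) / 4 * Real.exp w * T) ^ k / ((k.factorial : ℝ) ^ 2) *
        (Real.exp (-X) / ((k : ℝ) + 1 - X)) := by
        rw [he, mul_pow, mul_pow, pow_succ]; ring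
    _ ≤ (4.6704 * jj) * (2.3376 * s) ^ k / ((k.factorial : ℝ) ^ 2) *
        (Real.exp (-(4.665 * s / ((k : ℝ) + 1))) / ((k : ℝ) + 1 - 4.665 * s / ((k : ℝ) + 1))) := by
        have hA : (7 * jj / N * T) * ((1 - z ^ 2) / 4 * Real.exp w * T) ^ k ≤
            (4.6704 * jj) * (2.3376 * s) ^ k :=
          mul_le_mul hpre hpow (pow_nonneg hfac0 _) (by positivity)
        refine mul_le_mul (div_le_div_of_nonneg_right hA hf0.le) hdec ?_ (by positivity)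
        exact div_nonneg (Real.exp_pos _).le hD.le
    _ = _ := by ring

end InnerM

open InnerM in
theorem inner_mass {t : ℕ} {c : Cf} {p : Poly} {u v : ℤ → Polynomial ℝ} (ht : 10000 ≤ t)
    (hg : Good t c) (h : Modes t p u v) {j : ℕ} (hj : 1 ≤ j) (hj0 : j ≤ J0 c) {m : ℤ}
    (hm : 7 * j ≤ 2 * m.natAbs) (hmt : m.natAbs ≤ t) :
    7 * (j : ℝ) / (c.N : ℝ) * ((Fm u v m (zA c j)) ^ 2 + (Fm u v m (-(zA c j))) ^ 2) ≤
      1.0021 * WW j m.natAbs * nmode u v m := by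
  obtain ⟨hz0, hz1, hzu, hz2⟩ := inner ht hg hj hj0
  obtain ⟨hl1, hl2, hl3⟩ := lam_lo ht hg
  obtain ⟨hT1, hT2, hT3⟩ := T_up ht hg
  set z : ℝ := zA c j with hz
  set k : ℕ := m.natAbs with hk
  set N : ℝ := (c.N : ℝ) with hNdef
  set s : ℝ := (j : ℝ) ^ 2 + 5 / 42 with hs
  have hN : 0 < N := by
    have : (0 : ℝ) < ((t : ℝ) + 1) ^ 2 := by positivity
    nlinarith
  have hj1 : (1 : ℝ) ≤ j := by exact_mod_cast hj
  have hs0 : 0 < s := by positivity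
  have hs1 : s ≤ 1.1191 * (j : ℝ) ^ 2 := by nlinarith
  have hkj : 7 * (j : ℝ) ≤ 2 * (k : ℝ) := by exact_mod_cast hm
  have hk4 : 4 ≤ k := by omega
  have hk4' : (4 : ℝ) ≤ k := by exact_mod_cast hk4
  have hjk : (j : ℝ) ^ 2 ≤ 4 / 49 * (k : ℝ) ^ 2 := by nlinarith
  have hzsq : z ^ 2 ≤ 1 := by nlinarith
  have hnzsq : (-z) ^ 2 ≤ 1 := by rw [neg_sq]; exact hzsq
  have hu0 : 0 ≤ 1 - z := by linarith
  have hl0 : 0 ≤ lam (t + 1) := lam_nonneg _
  have hlu : lam (t + 1) * (1 - z) ≤ 4.6704 * s := by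
    calc lam (t + 1) * (1 - z) ≤ 0.6672 * N * (1 - z) := mul_le_mul_of_nonneg_right hl3 hu0
      _ = 4.6704 * s := by rw [hzu]; field_simp; norm_num
  have hlu2 : 4.665 * s ≤ lam (t + 1) * (1 - z) := by
    calc 4.665 * s ≤ 4.66501 * s := by nlinarith
      _ = 0.66643 * N * (1 - z) := by rw [hzu]; field_simp; norm_num
      _ ≤ lam (t + 1) * (1 - z) := mul_le_mul_of_nonneg_right hl2 hu0
  have h1 : lam (t + 1) * (1 - z ^ 2) ≤ (k : ℝ) ^ 2 := by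
    have : lam (t + 1) * (1 - z ^ 2) ≤ 2 * (lam (t + 1) * (1 - z)) := by
      have e : lam (t + 1) * (1 - z ^ 2) = (lam (t + 1) * (1 - z)) * (1 + z) := by ring
      rw [e]
      have : 0 ≤ lam (t + 1) * (1 - z) := by positivity
      nlinarith
    nlinarith
  set X : ℝ := lam (t + 1) * (1 - z) / ((k : ℝ) + 1) with hX
  have hk1 : (0 : ℝ) < (k : ℝ) + 1 := by positivity
  have hX1 : X + 1 ≤ k := by
    have : X ≤ (k : ℝ) - 1 := by
      rw [hX, div_le_iff₀ hk1]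
      nlinarith
    linarith
  have hX0 : 4.665 * s / ((k : ℝ) + 1) ≤ X := by
    rw [hX]; exact div_le_div_of_nonneg_right hlu2 hk1.le
  obtain ⟨Q, hQ⟩ : ∃ Q : ℝ, Q = ((1 - z ^ 2) / 4) ^ k /
      ((k.factorial : ℝ) ^ 2) * Real.exp ((k : ℝ) * (1 - z) - X) *
      ((((t + 1 : ℕ) : ℝ) + 1) ^ 2) ^ (k + 1) / ((k : ℝ) + 1 - X) := ⟨_, rfl⟩
  have hu := pair (t := t) (m := k) (by omega) hmt (h.degu m hmt) hz0 hz1 h1 hX hX1 hQ
  have hv := pair (t := t) (m := k) (by omega) hmt (h.degv m hmt) hz0 hz1 h1 hX hX1 hQ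
  have hTe : ((((t + 1 : ℕ) : ℝ) + 1) ^ 2) = ((t : ℝ) + 2) ^ 2 := by push_cast; ring
  have hfac := fac (N := N) (T := ((t : ℝ) + 2) ^ 2) (z := z) (s := s) (X := X) (jj := (j : ℝ))
    (k := k) (m := k) hN (by positivity) hT2 (by positivity) hs0 hzu hz2 hX0 hX1 rfl
  rw [← hTe, ← hQ] at hfac
  have hfac' : 7 * (j : ℝ) / N * Q ≤ WW j k := hfac
  rw [Fm_sq m hzsq, Fm_sq m hnzsq, neg_sq]
  have hn0 : 0 ≤ nmode u v m := add_nonneg (nrm_nonneg _ _) (nrm_nonneg _ _)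
  have hsum : (1 - z ^ 2) ^ k * (((u m).eval z) ^ 2 + ((v m).eval z) ^ 2) +
      (1 - z ^ 2) ^ k * (((u m).eval (-z)) ^ 2 + ((v m).eval (-z)) ^ 2) ≤
      1.0021 * Q * nmode u v m := by
    have : nmode u v m = nrm k (u m) + nrm k (v m) := rfl
    rw [this]
    linarith
  have hj00 : 0 ≤ 7 * (j : ℝ) / N := by positivity
  calc 7 * (j : ℝ) / N * ((1 - z ^ 2) ^ k * (((u m).eval z) ^ 2 + ((v m).eval z) ^ 2) +
      (1 - z ^ 2) ^ k * (((u m).eval (-z)) ^ 2 + ((v m).eval (-z)) ^ 2))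
      ≤ 7 * (j : ℝ) / N * (1.0021 * Q * nmode u v m) := mul_le_mul_of_nonneg_left hsum hj00
    _ = 1.0021 * (7 * (j : ℝ) / N * Q) * nmode u v m := by ring
    _ ≤ 1.0021 * WW j k * nmode u v m := by
        refine mul_le_mul_of_nonneg_right ?_ hn0
        exact mul_le_mul_of_nonneg_left hfac' (by norm_num)

end Pool.Agent.Helper83.SE
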