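import Pool.Agent.Helper83.SE.Arc2

/-!
Project SE, module Kap: the contour of a zone end in the arcsine coordinate.

Fix `κ = 3.125/t`.  For an admissible end `(n, s)`: `ζ = zet N M n s y` is `Z' + α y^2 - i β y`
with `Z' = Z - s/(12N)`, `α = s/N`, `β = 2n/N`.  Then `β ≤ κ √(1-Z^2)`, `α ≤ 0.25025 κ^2 (1+Z)`
(from `cu`: `s/N ≤ 1.001 (β/2)^2/(1-Z)`), `0 ≤ Z'` or `s = 0`, `1+Z' ≥ (1+Z)(1 - 1/t)` for large
`t`.  All conditions are linear in `(α, β)`, so they hold for convex combinations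
`(n, s) = ((1-r) n1 + r n2, (1-r) s1 + r s2)`; `arc_far` gives the claim.
`n ≤ 2.5 t`: from `β ≤ κ` and `N ≤ 1.5 (t+1)^2`.
-/

set_option autoImplicit false

open MeasureTheory Real Pool.Agent.Helper83.SD

namespace Pool.Agent.Helper83.SE

private theorem kap_beta {t : ℕ} {N M n s : ℝ} (ht : 0 < (t : ℝ)) (h : KOK t N M n s) :
    2 * n / N ≤ 3.125 / (t : ℝ) * √(1 - (1 - 2 * M / N) ^ 2) := by
  have h1 := h.sl
  rw [div_mul_eq_mul_div, le_div_iff₀ ht]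
  linarith

private theorem kap_beta_sq {t : ℕ} {N M n s : ℝ} (ht : 0 < (t : ℝ)) (hN : 0 < N)
    (h : KOK t N M n s) :
    (2 * n / N) ^ 2 ≤ (3.125 / (t : ℝ)) ^ 2 * (1 - (1 - 2 * M / N) ^ 2) := by
  have h1 := kap_beta ht h
  have h0 : 0 ≤ 2 * n / N := by have := h.n0; positivity
  have hz := abs_le.1 h.Z
  have h2 : 0 ≤ 1 - (1 - 2 * M / N) ^ 2 := by nlinarith [hz.1, hz.2]
  calc (2 * n / N) ^ 2 ≤ (3.125 / (t : ℝ) * √(1 - (1 - 2 * M / N) ^ 2)) ^ 2 := by gcongr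
    _ = _ := by rw [mul_pow, Real.sq_sqrt h2]

private theorem kap_alpha {t : ℕ} {N M n s : ℝ} (ht : 0 < (t : ℝ)) (hN : 0 < N)
    (h : KOK t N M n s) :
    s / N ≤ 0.25025 * (3.125 / (t : ℝ)) ^ 2 * (1 + (1 - 2 * M / N)) := by
  have h1 := kap_beta_sq ht hN h
  have h2 := h.cu
  have hz := abs_le.1 h.Z
  set Z := 1 - 2 * M / N with hZ
  set κ := 3.125 / (t : ℝ) with hκ
  have hZ1 : 0 < 1 - Z := by linarith [hz.2]
  have h3 : n ^ 2 = (2 * n / N) ^ 2 * N ^ 2 / 4 := by field_simp; ring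
  have h4 : s * N * (1 - Z) ≤ 1.001 * (κ ^ 2 * (1 - Z ^ 2) * N ^ 2 / 4) := by
    calc s * N * (1 - Z) ≤ 1.001 * n ^ 2 := h2
      _ = 1.001 * ((2 * n / N) ^ 2 * N ^ 2 / 4) := by rw [← h3]
      _ ≤ 1.001 * (κ ^ 2 * (1 - Z ^ 2) * N ^ 2 / 4) := by gcongr
  have h5 : s * (N * (1 - Z)) ≤ (0.25025 * κ ^ 2 * (1 + Z) * N) * (N * (1 - Z)) := by
    nlinarith [h4]
  have h6 := le_of_mul_le_mul_right h5 (by positivity)
  rw [div_le_iff₀ hN]
  exact h6

theorem kap_im : ∃ T0 : ℝ, ∀ (t : ℕ) (N M n1 s1 n2 s2 r y : ℝ) (w : ℂ), T0 ≤ (t : ℝ) →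
    1.5 * (t : ℝ) ^ 2 ≤ N → N ≤ 1.5 * ((t : ℝ) + 1) ^ 2 → KOK t N M n1 s1 → KOK t N M n2 s2 →
    0 ≤ r → r ≤ 1 → 0 < y →
    Complex.sin w = zet N M ((1 - r) * n1 + r * n2) ((1 - r) * s1 + r * s2) y →
    |w.im| ≤ 3.125 / (t : ℝ) * y := by
  refine ⟨1000, fun t N M n1 s1 n2 s2 r y w hT hN1 _ h1 h2 hr0 hr1 hy hw => ?_⟩
  have ht : (0 : ℝ) < t := by linarith
  have hNb : (1000000 : ℝ) ≤ N := by nlinarith
  have hN : 0 < N := by linarith
  have hr : 0 ≤ 1 - r := by linarith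
  have hz := abs_le.1 h1.Z
  have b1 := kap_beta_sq ht hN h1
  have b2 := kap_beta_sq ht hN h2
  have c1 := kap_beta ht h1
  have c2 := kap_beta ht h2
  have a1 := kap_alpha ht hN h1
  have a2 := kap_alpha ht hN h2
  set Z := 1 - 2 * M / N with hZ
  set κ := 3.125 / (t : ℝ) with hκ
  have hκ0 : 0 < κ := by positivity
  set n := (1 - r) * n1 + r * n2 with hn
  set s := (1 - r) * s1 + r * s2 with hs
  have n0 : 0 ≤ n := by have := h1.n0; have := h2.n0; positivity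
  have s0 : 0 ≤ s := by have := h1.s0; have := h2.s0; positivity
  have s7 : s ≤ 7 := by
    have e1 := mul_le_mul_of_nonneg_left h1.s7 hr
    have e2 := mul_le_mul_of_nonneg_left h2.s7 hr0
    linarith
  have hα : s / N ≤ 0.25025 * κ ^ 2 * (1 + Z) := by
    have e1 := mul_le_mul_of_nonneg_left a1 hr
    have e2 := mul_le_mul_of_nonneg_left a2 hr0
    have e3 : s / N = (1 - r) * (s1 / N) + r * (s2 / N) := by rw [hs]; ring
    rw [e3]
    linarith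
  have hβ : 2 * n / N ≤ κ * √(1 - Z ^ 2) := by
    have e1 := mul_le_mul_of_nonneg_left c1 hr
    have e2 := mul_le_mul_of_nonneg_left c2 hr0
    have e3 : 2 * n / N = (1 - r) * (2 * n1 / N) + r * (2 * n2 / N) := by rw [hn]; ring
    rw [e3]
    linarith
  have hβ0 : 0 ≤ 2 * n / N := by positivity
  have hα0 : 0 ≤ s / N := by positivity
  have hZZ : 0 ≤ 1 - Z ^ 2 := by nlinarith [hz.1, hz.2]
  have hβ2 : (2 * n / N) ^ 2 ≤ κ ^ 2 * (1 - Z ^ 2) := by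
    calc (2 * n / N) ^ 2 ≤ (κ * √(1 - Z ^ 2)) ^ 2 := by gcongr
      _ = _ := by rw [mul_pow, Real.sq_sqrt hZZ]
  have hsmall : s / N ≤ 7 / 1000000 := by
    rw [div_le_div_iff₀ hN (by norm_num)]
    nlinarith
  -- the alternative for `Z`
  have hcase : s = 0 ∨ 0.1 ≤ Z := by
    rcases h1.sZ with e1 | e1
    · rcases h2.sZ with e2 | e2
      · left; rw [hs, e1, e2]; ring
      · right; exact e2
    · right; exact e1
  have hZ'1 : |Z - s / N / 12| ≤ 0.93 := by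
    rcases hcase with e | e
    · rw [e]; simpa using h1.Z
    · rw [abs_le]
      constructor <;> linarith [hz.2]
  have hZ'0 : s / N = 0 ∨ 0 ≤ Z - s / N / 12 := by
    rcases hcase with e | e
    · left; rw [e]; simp
    · right; linarith
  have hmono : 1 - Z ^ 2 ≤ 1 - (Z - s / N / 12) ^ 2 := by
    rcases hcase with e | e
    · rw [e]; simp
    · nlinarith
  refine arc_far (Z := Z - s / N / 12) (κ := κ) (α := s / N) (β := 2 * n / N) hκ0 hα0 hβ0 hy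
    hZ'1 hZ'0 ?_ ?_ ?_
  · exact hβ2.trans (mul_le_mul_of_nonneg_left hmono (by positivity))
  · have e1 : 0.25025 * (1 + Z) ≤ 0.2503 * (1 + (Z - s / N / 12)) := by
      linarith [hz.1]
    have e2 := mul_le_mul_of_nonneg_left e1 (sq_nonneg κ)
    calc s / N ≤ 0.25025 * κ ^ 2 * (1 + Z) := hα
      _ = κ ^ 2 * (0.25025 * (1 + Z)) := by ring
      _ ≤ κ ^ 2 * (0.2503 * (1 + (Z - s / N / 12))) := e2
      _ = _ := by ring
  · have e1 : 1 - 2 * M / N + s * (y ^ 2 - 1 / 12) / N = Z - s / N / 12 + s / N * y ^ 2 := by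
      rw [hZ]; ring
    have e2 : 2 * n * y / N = 2 * n / N * y := by ring
    rw [hw]
    unfold zet
    rw [e1, e2]

theorem kap_n {t : ℕ} {N M n s : ℝ} (ht : 1000 ≤ t) (h1 : 1.5 * (t : ℝ) ^ 2 ≤ N)
    (h2 : N ≤ 1.5 * ((t : ℝ) + 1) ^ 2) (h : KOK t N M n s) : n ≤ 2.5 * (t : ℝ) := by
  have ht' : (1000 : ℝ) ≤ t := by exact_mod_cast ht
  have ht0 : (0 : ℝ) < t := by linarith
  have hN : 0 < N := by nlinarith
  have hb := h.sl
  have hs : √(1 - (1 - 2 * M / N) ^ 2) ≤ 1 := by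
    rw [Real.sqrt_le_iff]
    constructor
    · norm_num
    · linarith [sq_nonneg (1 - 2 * M / N)]
  have h3 : 2 * (t : ℝ) * (2 * n / N) ≤ 6.25 := by linarith
  have h4 : 2 * (t : ℝ) * (2 * n) ≤ 6.25 * N := by
    have e : 2 * (t : ℝ) * (2 * n / N) = 2 * (t : ℝ) * (2 * n) / N := by ring
    rw [e, div_le_iff₀ hN] at h3
    exact h3
  have h5 : (t : ℝ) * n ≤ (t : ℝ) * (2.5 * (t : ℝ)) := by nlinarith
  exact le_of_mul_le_mul_left h5 ht0

end Pool.Agent.Helper83.SE
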