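import Pool.Agent.Helper83.SE.Defs
import Pool.Agent.Helper83.SD.Near

/-!
Project SE, module Near2: complex bounds from real derivative bounds.

`H(w) = B(sin w)` is entire, `H(a + i b) = Σ_k h^(k)(a) (i b)^k / k!`, `h(s) = B(sin s)`; so
`‖H(a+ib) - h(a)‖ ≤ A (exp(Λ|b|) - 1)` and `‖H'(a+ib)‖ ≤ A Λ exp(Λ|b|)` for `|a| ≤ 1.25`;
`B'(sin w) = H'(w)/cos w`, `‖cos w‖ ≥ cos 1.25 > 1/4`.  See `SD.Near` for the method.
-/

set_option autoImplicit false

open MeasureTheory Real Pool.Agent.Helper83.SD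

namespace Pool.Agent.Helper83.SE

theorem near2_iter {B : Polynomial ℝ} {A Λ : ℝ} (h : NearH B A Λ) {a : ℝ}
    (ha : |a| ≤ 1.25) {k : ℕ} (hk : 1 ≤ k) :
    ‖iteratedDeriv k (nearF B) (a : ℂ)‖ ≤ A * Λ ^ k := by
  rw [near_iter k (nearF B) (fun s => B.eval (sin s)) (nearF_diff B) (nearF_real B) a,
    Complex.norm_real, Real.norm_eq_abs]
  exact h k hk a ha

theorem near2_cos {a : ℝ} (ha : |a| ≤ 1.25) : 1 / 4 ≤ cos a := by
  have h1 : cos 1.25 ≤ cos a := by
    rw [← Real.cos_abs a]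
    apply Real.cos_le_cos_of_nonneg_of_le_pi (abs_nonneg _) _ ha
    have := Real.pi_gt_three
    linarith
  have h2 : |(0.625 : ℝ)| ≤ 1 := by rw [abs_of_pos (by norm_num)]; norm_num
  have h3 := (abs_le.mp (Real.cos_bound h2)).1
  rw [abs_of_pos (show (0 : ℝ) < 0.625 by norm_num)] at h3
  have h4 : (0.79 : ℝ) ≤ cos 0.625 := by
    norm_num at h3 ⊢
    linarith
  have h5 : cos 1.25 = 2 * cos 0.625 ^ 2 - 1 := by
    rw [← Real.cos_two_mul]
    norm_num
  have h6 : cos 0.625 ≤ 1 := Real.cos_le_one _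
  have h7 : (0.7967 : ℝ) ≤ cos 0.625 := by
    norm_num at h3 ⊢
    linarith
  nlinarith

theorem near2_val {B : Polynomial ℝ} {A Λ : ℝ} (hA : 0 ≤ A) (hΛ : 0 ≤ Λ) (h : NearH B A Λ)
    (w : ℂ) (hw : |w.re| ≤ 1.25) :
    ‖Polynomial.aeval (Complex.sin w) B - ((B.eval (Real.sin w.re) : ℝ) : ℂ)‖ ≤
      A * (Real.exp (Λ * |w.im|) - 1) := by
  have h1 := near_taylor' (nearF_diff B) (c := ((w.re : ℝ) : ℂ)) (w := w) (C := A) (Λ := Λ)
    (fun k hk => near2_iter h hw hk)
  rw [near_sub, nearF_real] at h1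
  exact h1

theorem near2_real {B : Polynomial ℝ} {A Λ : ℝ} (h : NearH B A Λ) {a b : ℝ}
    (ha : |a| ≤ 1.25) (hb : |b| ≤ 1.25) :
    |B.eval (Real.sin a) - B.eval (Real.sin b)| ≤ A * Λ * |a - b| := by
  set g : ℝ → ℝ := fun s => B.eval (sin s) with hg
  have hd : ∀ x, HasDerivAt g (B.derivative.eval (sin x) * cos x) x := fun x =>
    (B.hasDerivAt (sin x)).comp x (Real.hasDerivAt_sin x)
  have hb1 : ∀ x ∈ Set.Icc (-1.25 : ℝ) 1.25, ‖deriv g x‖ ≤ A * Λ := by
    intro x hx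
    have h1 := h 1 le_rfl x (abs_le.mpr ⟨by linarith [hx.1], hx.2⟩)
    rw [iteratedDeriv_one, pow_one] at h1
    exact h1
  have key := (convex_Icc (-1.25 : ℝ) 1.25).norm_image_sub_le_of_norm_hasDerivWithin_le
    (f := g) (f' := fun x => deriv g x) (C := A * Λ)
    (fun y _ => ((hd y).differentiableAt.hasDerivAt).hasDerivWithinAt)
    (fun y hy => hb1 y hy) (x := b) (y := a)
    ⟨by linarith [(abs_le.mp hb).1], (abs_le.mp hb).2⟩
    ⟨by linarith [(abs_le.mp ha).1], (abs_le.mp ha).2⟩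
  rw [Real.norm_eq_abs, Real.norm_eq_abs] at key
  exact key

theorem near2_der {B : Polynomial ℝ} {A Λ : ℝ} (hA : 0 ≤ A) (hΛ : 0 ≤ Λ) (h : NearH B A Λ)
    (w : ℂ) (hw : |w.re| ≤ 1.25) :
    ‖Polynomial.aeval (Complex.sin w) (Polynomial.derivative B)‖ ≤
      4 * A * Λ * Real.exp (Λ * |w.im|) := by
  have hFd : deriv (nearF B) = fun z => nearF (Polynomial.derivative B) z * Complex.cos z := by
    funext z; exact (nearF_hasDerivAt B z).deriv
  have hFdiff : Differentiable ℂ (deriv (nearF B)) := by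
    rw [hFd]
    exact (nearF_diff _).mul Complex.differentiable_cos
  have h1 : ‖deriv (nearF B) w‖ ≤ (A * Λ) * Real.exp (Λ * |w.im|) := by
    rw [← near_sub]
    apply near_taylor hFdiff
    intro k
    rw [← iteratedDeriv_succ']
    refine (near2_iter h hw (by omega)).trans (le_of_eq ?_)
    ring
  have hc : Complex.normSq (Complex.cos w) = cos w.re ^ 2 + Real.sinh w.im ^ 2 := by
    rw [Complex.cos_eq, Complex.normSq_apply]
    simp only [Complex.sub_re, Complex.sub_im, Complex.mul_re, Complex.mul_im, Complex.I_re,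
      Complex.I_im, ← Complex.ofReal_cos, ← Complex.ofReal_sin, ← Complex.ofReal_cosh,
      ← Complex.ofReal_sinh, Complex.ofReal_re, Complex.ofReal_im]
    have e1 := Real.sin_sq_add_cos_sq w.re
    have e2 := Real.cosh_sq w.im
    ring_nf
    rw [e2]
    have e3 : Real.sin w.re ^ 2 = 1 - cos w.re ^ 2 := by linarith
    rw [e3]; ring
  have hcos := near2_cos hw
  have hcn : 1 / 4 ≤ ‖Complex.cos w‖ := by
    have h2 : (1 / 4 : ℝ) ^ 2 ≤ ‖Complex.cos w‖ ^ 2 := by
      rw [← Complex.normSq_eq_norm_sq, hc]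
      nlinarith [sq_nonneg (Real.sinh w.im)]
    exact (pow_le_pow_iff_left₀ (by norm_num) (norm_nonneg _) two_ne_zero).mp h2
  have e1 : ‖nearF (Polynomial.derivative B) w‖ * ‖Complex.cos w‖ ≤
      (A * Λ) * Real.exp (Λ * |w.im|) := by
    rw [← norm_mul]
    have := h1
    rw [hFd] at this
    exact this
  have e2 : ‖nearF (Polynomial.derivative B) w‖ * (1 / 4) ≤
      ‖nearF (Polynomial.derivative B) w‖ * ‖Complex.cos w‖ := by gcongr
  have e3 : ‖Polynomial.aeval (Complex.sin w) (Polynomial.derivative B)‖ =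
      ‖nearF (Polynomial.derivative B) w‖ := rfl
  rw [e3]
  linarith

/-- reflection -/
theorem nearH_refl {B : Polynomial ℝ} {A Λ : ℝ} (h : NearH B A Λ) : NearH (refl B) A Λ := by
  intro k hk ψ hψ
  have e : (fun s => (refl B).eval (sin s)) = fun s => (fun s => B.eval (sin s)) (-s) := by
    funext s
    rw [refl_eval]
    simp only [Real.sin_neg]
  have e2 := iteratedDeriv_comp_neg k (fun s => B.eval (sin s)) ψ
  rw [e]
  refine (le_of_eq ?_).trans (h k hk (-ψ) (by rwa [abs_neg]))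
  rw [e2, smul_eq_mul, abs_mul, abs_pow, abs_neg, abs_one, one_pow, one_mul]

end Pool.Agent.Helper83.SE
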