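import Pool.Agent.Helper83.SE.Kap
import Pool.Agent.Helper83.SE.Near2
import Pool.Agent.Helper83.SE.Lin

/-!
Project SE, module KinkN: the integrand of a change of zone, small `y`.

With `B(Z) = 0`: `(n2 + i s2 y) B(ζ2) - (n1 + i s1 y) B(ζ1) =
n1 (B(ζ2) - B(ζ1)) + (n2 - n1) B(ζ2) + i y (s2 B(ζ2) - s1 B(ζ1))`.  For every point `ζ` of the
segment `[ζ1, ζ2]` (`zet` is affine in `(n, s)`) take `w` from `SD.arc`: `|Im w| ≤ 3.125 y/t`
(`kap_im`), `Λ |Im w| ≤ 6.26 y`, `|Re w| ≤ 1.25` (`arc_re`: `|Re ζ| ≤ 0.93 + O(log^2 t/t^2)`).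
`|B(ζ)| ≤ A (e^{6.26 y} - 1) + A Λ |a - arcsin Z|`, `a = Re w`, `sin a = Re ζ / cosh(Im w)`, so
`|a - arcsin Z| ≤ 3.2 |sin a - Z| ≤ C (1+y^2)/t^2` (`sin_lower`, `1 - 1/cosh b ≤ b^2/2`).
`|B(ζ2) - B(ζ1)| ≤ |ζ2 - ζ1| * 4 A Λ e^{6.26 y}` (mean value, `near2_der`),
`|ζ2 - ζ1| ≤ (7 (y^2+1) + 20 y)/N`, `n1 Λ/N ≤ C`.
-/

set_option autoImplicit false

open MeasureTheory Real Pool.Agent.Helper83.SD

namespace Pool.Agent.Helper83.SE

/-- real part of the complex height -/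
theorem kn_zet_re (N M n s y : ℝ) :
    (zet N M n s y).re = (1 - 2 * M / N) + s * (y ^ 2 - 1 / 12) / N := by
  unfold zet
  simp only [Complex.sub_re, Complex.mul_re, Complex.ofReal_re, Complex.ofReal_im, Complex.I_re,
    Complex.I_im]
  ring

/-- imaginary part of the complex height -/
theorem kn_zet_im (N M n s y : ℝ) : (zet N M n s y).im = -(2 * n * y / N) := by
  unfold zet
  simp only [Complex.sub_im, Complex.mul_im, Complex.ofReal_re, Complex.ofReal_im, Complex.I_re,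
    Complex.I_im]
  ring

/-- `zet` is affine in `(n, s)` -/
theorem kn_zet_aff (N M n1 s1 n2 s2 r y : ℝ) :
    zet N M ((1 - r) * n1 + r * n2) ((1 - r) * s1 + r * s2) y =
      ((1 - r : ℝ) : ℂ) * zet N M n1 s1 y + (r : ℂ) * zet N M n2 s2 y := by
  apply Complex.ext
  · rw [Complex.add_re, Complex.re_ofReal_mul, Complex.re_ofReal_mul, kn_zet_re, kn_zet_re, kn_zet_re]
    ring
  · rw [Complex.add_im, Complex.im_ofReal_mul, Complex.im_ofReal_mul, kn_zet_im, kn_zet_im, kn_zet_im]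
    ring

/-- bound for the hyperbolic cosine -/
theorem kn_cosh_sub_one_le {b : ℝ} (hb : |b| ≤ 1) : Real.cosh b - 1 ≤ b ^ 2 := by
  have h1 := Real.cosh_le_exp_half_sq b
  have hb2 : b ^ 2 ≤ 1 := by
    have := abs_nonneg b
    rw [← sq_abs]
    nlinarith only [this, hb]
  have h2 : Real.exp (b ^ 2 / 2) ≤ 1 + b ^ 2 / 2 + (b ^ 2 / 2) ^ 2 := by
    have h3 := Real.abs_exp_sub_one_sub_id_le (x := b ^ 2 / 2) (by
      rw [abs_of_nonneg (by positivity)]; linarith)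
    have := (abs_le.mp h3).2
    linarith
  nlinarith [sq_nonneg b]

/-- `log x` is small compared to `x` -/
theorem kn_log_small : ∃ T1 : ℝ, ∀ x : ℝ, T1 ≤ x → 1000 ≤ x ∧ Real.log x ≤ 0.0001 * x := by
  have h := (Real.isLittleO_log_id_atTop.def (c := 0.0001) (by norm_num))
  rw [Filter.eventually_atTop] at h
  obtain ⟨a, ha⟩ := h
  refine ⟨max a 1000, fun x hx => ⟨(le_max_right _ _).trans hx, ?_⟩⟩
  have h1 := ha x ((le_max_left _ _).trans hx)
  have h0 : (0 : ℝ) ≤ x := by linarith [(le_max_right a 1000).trans hx]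
  simp only [id, Real.norm_eq_abs, abs_of_nonneg h0] at h1
  exact (le_abs_self _).trans h1

/-- one point of the segment -/
theorem kn_seg_pt : ∃ T0 : ℝ, ∀ (t : ℕ) (N M n1 s1 n2 s2 A Λ y r : ℝ)
    (B : Polynomial ℝ), T0 ≤ (t : ℝ) → 1.5 * (t : ℝ) ^ 2 ≤ N → N ≤ 1.5 * ((t : ℝ) + 1) ^ 2 →
    KOK t N M n1 s1 → KOK t N M n2 s2 → 0 ≤ A → 1 ≤ Λ → Λ ≤ 2 * (t : ℝ) + 1 →
    NearH B A Λ → B.eval (1 - 2 * M / N) = 0 → 0 < y → y ≤ 400 * Real.log t →
    0 ≤ r → r ≤ 1 →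
    ‖Polynomial.aeval (zet N M ((1 - r) * n1 + r * n2) ((1 - r) * s1 + r * s2) y) B‖ ≤
        145 * A * (1 + y) ^ 2 * Real.exp (6.26 * y) ∧
    ‖Polynomial.aeval (zet N M ((1 - r) * n1 + r * n2) ((1 - r) * s1 + r * s2) y)
        (Polynomial.derivative B)‖ ≤ 4 * A * Λ * Real.exp (6.26 * y) := by
  obtain ⟨T1, hT1⟩ := kn_log_small
  obtain ⟨T2, hT2⟩ := kap_im
  refine ⟨max T1 T2, ?_⟩
  intro t N M n1 s1 n2 s2 A Λ y r B ht hN1 hN2 hK1 hK2 hA hΛ1 hΛ2 hB hZ0 hy hyt hr0 hr1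
  obtain ⟨ht1, hlog⟩ := hT1 t ((le_max_left _ _).trans ht)
  have htT2 : T2 ≤ (t : ℝ) := (le_max_right _ _).trans ht
  have ht0 : (0 : ℝ) < t := by linarith
  have hyt' : y ≤ 0.04 * (t : ℝ) := by linarith
  set Z : ℝ := 1 - 2 * M / N with hZ
  set s : ℝ := (1 - r) * s1 + r * s2 with hs
  set n : ℝ := (1 - r) * n1 + r * n2 with hn
  have hs0 : 0 ≤ s := by
    have := hK1.s0; have := hK2.s0
    rw [hs]
    have h1 : 0 ≤ (1 - r) * s1 := mul_nonneg (by linarith) hK1.s0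
    have h2 : 0 ≤ r * s2 := mul_nonneg hr0 hK2.s0
    linarith
  have hs7 : s ≤ 7 := by
    rw [hs]
    have h1 : (1 - r) * s1 ≤ (1 - r) * 7 := mul_le_mul_of_nonneg_left hK1.s7 (by linarith)
    have h2 : r * s2 ≤ r * 7 := mul_le_mul_of_nonneg_left hK2.s7 hr0
    linarith
  have ht2 : (0 : ℝ) < (t : ℝ) ^ 2 := by positivity
  have hN0 : 0 < N := by linarith
  -- the shift of the real part
  have hsh : |s * (y ^ 2 - 1 / 12) / N| ≤ 5 * (y ^ 2 + 1) / (t : ℝ) ^ 2 := by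
    rw [abs_div, abs_mul, abs_of_pos hN0, abs_of_nonneg hs0, div_le_div_iff₀ hN0 ht2]
    have h1 : |y ^ 2 - 1 / 12| ≤ y ^ 2 + 1 := by
      rw [abs_le]; constructor <;> linarith [sq_nonneg y]
    have h2 : s * |y ^ 2 - 1 / 12| ≤ 7 * (y ^ 2 + 1) :=
      mul_le_mul hs7 h1 (abs_nonneg _) (by norm_num)
    have h3 : s * |y ^ 2 - 1 / 12| * (t : ℝ) ^ 2 ≤ 7 * (y ^ 2 + 1) * (t : ℝ) ^ 2 :=
      mul_le_mul_of_nonneg_right h2 ht2.le
    have h4 : 5 * (y ^ 2 + 1) * (1.5 * (t : ℝ) ^ 2) ≤ 5 * (y ^ 2 + 1) * N :=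
      mul_le_mul_of_nonneg_left hN1 (by positivity)
    have h5 : 0 ≤ (y ^ 2 + 1) * (t : ℝ) ^ 2 := by positivity
    linarith
  have hyy : y ^ 2 ≤ 0.0016 * (t : ℝ) ^ 2 := by
    have h1 : y ^ 2 ≤ (0.04 * (t : ℝ)) ^ 2 := by gcongr
    have h2 : (0.04 * (t : ℝ)) ^ 2 = 0.0016 * (t : ℝ) ^ 2 := by ring
    linarith
  have hsm : 5 * (y ^ 2 + 1) / (t : ℝ) ^ 2 ≤ 0.0189 := by
    have h3 : (1000000 : ℝ) ≤ (t : ℝ) ^ 2 := by nlinarith only [ht1]
    rw [div_le_iff₀ ht2]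
    linarith
  obtain ⟨w, hw, hwre, -, hwsin⟩ := arc (zet N M n s y)
  have hre : (zet N M n s y).re = Z + s * (y ^ 2 - 1 / 12) / N := kn_zet_re N M n s y
  have hreb : |(zet N M n s y).re| ≤ 0.9489 := by
    rw [hre]
    calc |Z + s * (y ^ 2 - 1 / 12) / N| ≤ |Z| + |s * (y ^ 2 - 1 / 12) / N| := abs_add_le _ _
      _ ≤ 0.93 + 0.0189 := add_le_add hK1.Z (hsh.trans hsm)
      _ = 0.9489 := by norm_num
  have hare : |w.re| ≤ 1.25 := arc_re hwre (hwsin.trans hreb) le_rfl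
  have him : |w.im| ≤ 3.125 / (t : ℝ) * y :=
    hT2 t N M n1 s1 n2 s2 r y w htT2 hN1 hN2 hK1 hK2 hr0 hr1 hy hw
  have hexp : Λ * |w.im| ≤ 6.26 * y := by
    have h1 : Λ * |w.im| ≤ (2 * (t : ℝ) + 1) * (3.125 / (t : ℝ) * y) :=
      mul_le_mul hΛ2 him (abs_nonneg _) (by positivity)
    refine h1.trans ?_
    have h2 : (2 * (t : ℝ) + 1) * (3.125 / (t : ℝ) * y) = (6.25 + 3.125 / (t : ℝ)) * y := by
      field_simp
      ring
    rw [h2]
    have h3 : 3.125 / (t : ℝ) ≤ 0.01 := by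
      rw [div_le_iff₀ ht0]; linarith
    apply mul_le_mul_of_nonneg_right _ hy.le
    linarith
  have hE : Real.exp (Λ * |w.im|) ≤ Real.exp (6.26 * y) := Real.exp_le_exp.mpr hexp
  have hE1 : 1 ≤ Real.exp (6.26 * y) := Real.one_le_exp (by positivity)
  constructor
  · -- value
    have hv := near2_val hA (by linarith) hB w hare
    rw [hw] at hv
    have hasin : |Real.arcsin Z| ≤ π / 2 :=
      abs_le.mpr ⟨by linarith [Real.neg_pi_div_two_le_arcsin Z], Real.arcsin_le_pi_div_two Z⟩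
    have hZab := abs_le.mp hK1.Z
    have hsZ : Real.sin (Real.arcsin Z) = Z :=
      Real.sin_arcsin (by linarith [hZab.1]) (by linarith [hZab.2])
    have hasin2 : |Real.arcsin Z| ≤ 1.25 :=
      arc_re (x := 0.93) hasin (by rw [hsZ]; exact hK1.Z) (by norm_num)
    have hrl := near2_real hB hare hasin2
    rw [hsZ, hZ0, sub_zero] at hrl
    have hsl := sin_lower hare hasin2
    rw [hsZ] at hsl
    -- sin a - Z
    have hb1 : |w.im| ≤ 1 := by
      refine him.trans ?_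
      rw [div_mul_eq_mul_div, div_le_iff₀ ht0]
      linarith
    have hre2 : (zet N M n s y).re = Real.sin w.re * Real.cosh w.im := by
      rw [← hw, Complex.sin_eq]
      simp [← Complex.ofReal_sin, ← Complex.ofReal_cos, ← Complex.ofReal_cosh,
        ← Complex.ofReal_sinh]
    have hc := kn_cosh_sub_one_le hb1
    have hc1 := Real.one_le_cosh w.im
    have hsin1 : |Real.sin w.re| ≤ 1 := Real.abs_sin_le_one _
    have hd : |Real.sin w.re - Z| ≤ w.im ^ 2 + 5 * (y ^ 2 + 1) / (t : ℝ) ^ 2 := by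
      have e : Real.sin w.re - Z = Real.sin w.re * (1 - Real.cosh w.im)
          + s * (y ^ 2 - 1 / 12) / N := by
        have : Real.sin w.re * Real.cosh w.im = Z + s * (y ^ 2 - 1 / 12) / N := by
          rw [← hre2, hre]
        linear_combination this
      rw [e]
      refine (abs_add_le _ _).trans (add_le_add ?_ hsh)
      rw [abs_mul]
      have : |1 - Real.cosh w.im| ≤ w.im ^ 2 := by
        rw [abs_le]; constructor <;> linarith [sq_nonneg w.im]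
      calc |Real.sin w.re| * |1 - Real.cosh w.im| ≤ 1 * w.im ^ 2 :=
            mul_le_mul hsin1 this (abs_nonneg _) zero_le_one
        _ = w.im ^ 2 := one_mul _
    have hb2 : w.im ^ 2 ≤ 10 * y ^ 2 / (t : ℝ) ^ 2 := by
      have h1 : w.im ^ 2 ≤ (3.125 / (t : ℝ) * y) ^ 2 := by
        rw [← sq_abs]
        have := abs_nonneg w.im
        gcongr
      refine h1.trans ?_
      rw [mul_pow, div_pow, div_mul_eq_mul_div]
      apply div_le_div_of_nonneg_right _ ht2.le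
      have : 0 ≤ y ^ 2 := sq_nonneg y
      norm_num
      linarith
    have hd2 : |Real.sin w.re - Z| ≤ 15 * (1 + y) ^ 2 / (t : ℝ) ^ 2 := by
      refine hd.trans ?_
      refine (add_le_add hb2 le_rfl).trans ?_
      rw [← add_div]
      apply div_le_div_of_nonneg_right _ ht2.le
      linarith
    have hd3 : |w.re - Real.arcsin Z| ≤ 48 * (1 + y) ^ 2 / (t : ℝ) ^ 2 := by
      refine hsl.trans ?_
      calc 3.2 * |Real.sin w.re - Z| ≤ 3.2 * (15 * (1 + y) ^ 2 / (t : ℝ) ^ 2) :=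
            mul_le_mul_of_nonneg_left hd2 (by norm_num)
        _ = 48 * (1 + y) ^ 2 / (t : ℝ) ^ 2 := by ring
    have hd4 : A * Λ * |w.re - Real.arcsin Z| ≤ 144 * A * (1 + y) ^ 2 := by
      have h1 : Λ ≤ 3 * (t : ℝ) := by linarith
      have h2 : A * Λ ≤ A * (3 * (t : ℝ)) := mul_le_mul_of_nonneg_left h1 hA
      have h3 : A * Λ * |w.re - Real.arcsin Z| ≤
          A * (3 * (t : ℝ)) * (48 * (1 + y) ^ 2 / (t : ℝ) ^ 2) :=
        mul_le_mul h2 hd3 (abs_nonneg _) (by positivity)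
      refine h3.trans ?_
      have e : A * (3 * (t : ℝ)) * (48 * (1 + y) ^ 2 / (t : ℝ) ^ 2) =
          144 * A * (1 + y) ^ 2 / (t : ℝ) := by
        field_simp
        ring
      rw [e, div_le_iff₀ ht0]
      have h5 : 0 ≤ 144 * A * (1 + y) ^ 2 := by positivity
      exact le_mul_of_one_le_right h5 (by linarith)
    have hfin : ‖Polynomial.aeval (zet N M n s y) B‖ ≤
        A * (Real.exp (Λ * |w.im|) - 1) + A * Λ * |w.re - Real.arcsin Z| := by
      have e : Polynomial.aeval (zet N M n s y) B =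
          (Polynomial.aeval (zet N M n s y) B - ((B.eval (Real.sin w.re) : ℝ) : ℂ))
            + ((B.eval (Real.sin w.re) : ℝ) : ℂ) := by ring
      rw [e]
      refine (norm_add_le _ _).trans (add_le_add hv ?_)
      rw [Complex.norm_real, Real.norm_eq_abs]
      exact hrl
    refine hfin.trans ?_
    have h6 : A * (Real.exp (Λ * |w.im|) - 1) ≤ A * Real.exp (6.26 * y) :=
      mul_le_mul_of_nonneg_left (by linarith) hA
    have h7 : (1 : ℝ) ≤ (1 + y) ^ 2 := by nlinarith only [hy]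
    have h8 : A * Real.exp (6.26 * y) ≤ A * (1 + y) ^ 2 * Real.exp (6.26 * y) := by
      have h10 : 0 ≤ A * Real.exp (6.26 * y) := by positivity
      have h11 := mul_le_mul_of_nonneg_left h7 h10
      linarith
    have h9 : 144 * A * (1 + y) ^ 2 ≤ 144 * A * (1 + y) ^ 2 * Real.exp (6.26 * y) := by
      have h10 : 0 ≤ 144 * A * (1 + y) ^ 2 := by positivity
      exact le_mul_of_one_le_right h10 hE1
    linarith
  · have hd := near2_der hA (by linarith) hB w hare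
    rw [hw] at hd
    refine hd.trans ?_
    exact mul_le_mul_of_nonneg_left hE (by positivity)

theorem kink_near : ∃ C T0 : ℝ, 0 < C ∧ ∀ (t : ℕ) (N M n1 s1 n2 s2 A Λ y : ℝ)
    (B : Polynomial ℝ), T0 ≤ (t : ℝ) → 1.5 * (t : ℝ) ^ 2 ≤ N → N ≤ 1.5 * ((t : ℝ) + 1) ^ 2 →
    KOK t N M n1 s1 → KOK t N M n2 s2 → |n1 - n2| ≤ 10 → 0 ≤ A → 1 ≤ Λ → Λ ≤ 2 * (t : ℝ) + 1 →
    NearH B A Λ → B.eval (1 - 2 * M / N) = 0 → 0 < y → y ≤ 400 * Real.log t →
    |KI N M n2 s2 B y - KI N M n1 s1 B y| ≤ C * A * (1 + y) ^ 4 * Real.exp (6.27 * y) := by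
  obtain ⟨T1, hT1⟩ := kn_seg_pt
  refine ⟨4000, max T1 1000, by norm_num, ?_⟩
  intro t N M n1 s1 n2 s2 A Λ y B ht hN1 hN2 hK1 hK2 hn hA hΛ1 hΛ2 hB hZ0 hy hyt
  have htT1 : T1 ≤ (t : ℝ) := (le_max_left _ _).trans ht
  have ht1 : (1000 : ℝ) ≤ t := (le_max_right _ _).trans ht
  have ht1' : 1000 ≤ t := by exact_mod_cast ht1
  have ht0 : (0 : ℝ) < t := by linarith
  have ht2 : (0 : ℝ) < (t : ℝ) ^ 2 := by positivity
  have hN0 : 0 < N := by linarith
  set E : ℝ := Real.exp (6.26 * y) with hE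
  have hE0 : 0 < E := Real.exp_pos _
  have hseg : ∀ r : ℝ, 0 ≤ r → r ≤ 1 → _ := fun r h0 h1 =>
    hT1 t N M n1 s1 n2 s2 A Λ y r B htT1 hN1 hN2 hK1 hK2 hA hΛ1 hΛ2 hB hZ0 hy hyt h0 h1
  have hz1 : zet N M ((1 - 0) * n1 + 0 * n2) ((1 - 0) * s1 + 0 * s2) y = zet N M n1 s1 y := by
    congr 1 <;> ring
  have hz2 : zet N M ((1 - 1) * n1 + 1 * n2) ((1 - 1) * s1 + 1 * s2) y = zet N M n2 s2 y := by
    congr 1 <;> ring
  have hb1 := (hseg 0 le_rfl zero_le_one).1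
  rw [hz1] at hb1
  have hb2 := (hseg 1 zero_le_one le_rfl).1
  rw [hz2] at hb2
  set ζ1 := zet N M n1 s1 y with hζ1
  set ζ2 := zet N M n2 s2 y with hζ2
  -- the mean value inequality
  have hmv : ‖Polynomial.aeval ζ2 B - Polynomial.aeval ζ1 B‖ ≤ 4 * A * Λ * E * ‖ζ2 - ζ1‖ := by
    refine Convex.norm_image_sub_le_of_norm_hasDerivWithin_le (s := segment ℝ ζ1 ζ2)
      (f := fun z => Polynomial.aeval z B)
      (f' := fun z => Polynomial.aeval z (Polynomial.derivative B)) ?_ ?_ ?_ ?_ ?_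
    · intro z hz
      exact (Polynomial.hasDerivAt_aeval B z).hasDerivWithinAt
    · intro z hz
      rw [segment_eq_image] at hz
      obtain ⟨r, ⟨h0, h1⟩, rfl⟩ := hz
      have := (hseg r h0 h1).2
      rw [kn_zet_aff] at this
      simpa using this
    · exact convex_segment _ _
    · exact left_mem_segment _ _ _
    · exact right_mem_segment _ _ _
  have hdist : ‖ζ2 - ζ1‖ ≤ 20 * (1 + y) ^ 2 / N := by
    have h1 : ‖ζ2 - ζ1‖ ≤ |(ζ2 - ζ1).re| + |(ζ2 - ζ1).im| := Complex.norm_le_abs_re_add_abs_im _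
    refine h1.trans ?_
    rw [Complex.sub_re, Complex.sub_im, hζ1, hζ2, kn_zet_re, kn_zet_re, kn_zet_im, kn_zet_im]
    have e1 : (1 - 2 * M / N + s2 * (y ^ 2 - 1 / 12) / N - (1 - 2 * M / N + s1 * (y ^ 2 - 1 / 12) / N))
        = ((s2 - s1) * (y ^ 2 - 1 / 12)) / N := by ring
    have e2 : (-(2 * n2 * y / N) - -(2 * n1 * y / N)) = (2 * (n1 - n2) * y) / N := by ring
    rw [e1, e2, abs_div, abs_div, abs_of_pos hN0, ← add_div]
    apply div_le_div_of_nonneg_right _ hN0.le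
    rw [abs_mul, abs_mul, abs_mul, abs_of_pos hy, abs_of_pos (by norm_num : (0:ℝ) < 2)]
    have h2 : |s2 - s1| ≤ 7 := by
      have := hK1.s0; have := hK1.s7; have := hK2.s0; have := hK2.s7
      rw [abs_le]; constructor <;> linarith
    have h3 : |y ^ 2 - 1 / 12| ≤ y ^ 2 + 1 := by
      rw [abs_le]; constructor <;> linarith [sq_nonneg y]
    have h4 : |s2 - s1| * |y ^ 2 - 1 / 12| ≤ 7 * (y ^ 2 + 1) :=
      mul_le_mul h2 h3 (abs_nonneg _) (by norm_num)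
    have h5 : 2 * |n1 - n2| * y ≤ 2 * 10 * y :=
      mul_le_mul_of_nonneg_right (by linarith) hy.le
    linarith [sq_nonneg y]
  have hn1 : n1 ≤ 2.5 * (t : ℝ) := kap_n ht1' hN1 hN2 hK1
  have hn10 : 0 ≤ n1 := hK1.n0
  have hY : (1 : ℝ) ≤ 1 + y := by linarith
  -- first term
  have hT1' : n1 * ‖Polynomial.aeval ζ2 B - Polynomial.aeval ζ1 B‖ ≤ 400 * A * (1 + y) ^ 2 * E := by
    have h1 : ‖Polynomial.aeval ζ2 B - Polynomial.aeval ζ1 B‖ ≤
        4 * A * (3 * (t : ℝ)) * E * (20 * (1 + y) ^ 2 / N) := by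
      refine hmv.trans ?_
      have : 4 * A * Λ * E ≤ 4 * A * (3 * (t : ℝ)) * E := by
        apply mul_le_mul_of_nonneg_right _ hE0.le
        apply mul_le_mul_of_nonneg_left _ (by positivity)
        linarith
      exact mul_le_mul this hdist (norm_nonneg _) (by positivity)
    have h2 : n1 * ‖Polynomial.aeval ζ2 B - Polynomial.aeval ζ1 B‖ ≤
        2.5 * (t : ℝ) * (4 * A * (3 * (t : ℝ)) * E * (20 * (1 + y) ^ 2 / N)) :=
      mul_le_mul hn1 h1 (norm_nonneg _) (by positivity)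
    refine h2.trans ?_
    have e : 2.5 * (t : ℝ) * (4 * A * (3 * (t : ℝ)) * E * (20 * (1 + y) ^ 2 / N)) =
        600 * A * (1 + y) ^ 2 * E * (t : ℝ) ^ 2 / N := by
      field_simp
      ring
    rw [e, div_le_iff₀ hN0]
    have h3 : 0 ≤ 400 * A * (1 + y) ^ 2 * E := by positivity
    have h4 := mul_le_mul_of_nonneg_left hN1 h3
    linarith
  have hM0 : 0 ≤ A * (1 + y) ^ 2 * E := by positivity
  -- decomposition
  have hdec : ((n2 : ℂ) + Complex.I * ((s2 * y : ℝ) : ℂ)) * Polynomial.aeval ζ2 B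
      - ((n1 : ℂ) + Complex.I * ((s1 * y : ℝ) : ℂ)) * Polynomial.aeval ζ1 B =
      (n1 : ℂ) * (Polynomial.aeval ζ2 B - Polynomial.aeval ζ1 B)
        + ((n2 - n1 : ℝ) : ℂ) * Polynomial.aeval ζ2 B
        + (Complex.I * ((s2 * y : ℝ) : ℂ) * Polynomial.aeval ζ2 B
          - Complex.I * ((s1 * y : ℝ) : ℂ) * Polynomial.aeval ζ1 B) := by
    push_cast
    ring
  have hKI : KI N M n2 s2 B y - KI N M n1 s1 B y =
      (((n2 : ℂ) + Complex.I * ((s2 * y : ℝ) : ℂ)) * Polynomial.aeval ζ2 B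
      - ((n1 : ℂ) + Complex.I * ((s1 * y : ℝ) : ℂ)) * Polynomial.aeval ζ1 B).im := by
    unfold KI
    rw [← Complex.sub_im]
  rw [hKI]
  refine (Complex.abs_im_le_norm _).trans ?_
  rw [hdec]
  have hsy : ∀ s : ℝ, 0 ≤ s → s ≤ 7 → ∀ z : ℂ,
      ‖z‖ ≤ 145 * A * (1 + y) ^ 2 * E →
      ‖Complex.I * ((s * y : ℝ) : ℂ) * z‖ ≤ 1015 * y * (A * (1 + y) ^ 2 * E) := by
    intro s hs0 hs7 z hz
    rw [norm_mul, norm_mul, Complex.norm_I, one_mul, Complex.norm_real, Real.norm_eq_abs,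
      abs_of_nonneg (by positivity)]
    have h1 : s * y ≤ 7 * y := mul_le_mul_of_nonneg_right hs7 hy.le
    calc s * y * ‖z‖ ≤ 7 * y * (145 * A * (1 + y) ^ 2 * E) :=
          mul_le_mul h1 hz (norm_nonneg _) (by positivity)
      _ = 1015 * y * (A * (1 + y) ^ 2 * E) := by ring
  have hA1 : ‖(n1 : ℂ) * (Polynomial.aeval ζ2 B - Polynomial.aeval ζ1 B)‖ ≤
      400 * (A * (1 + y) ^ 2 * E) := by
    rw [norm_mul, Complex.norm_real, Real.norm_eq_abs, abs_of_nonneg hn10]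
    linarith
  have hA2 : ‖((n2 - n1 : ℝ) : ℂ) * Polynomial.aeval ζ2 B‖ ≤ 1450 * (A * (1 + y) ^ 2 * E) := by
    rw [norm_mul, Complex.norm_real, Real.norm_eq_abs, abs_sub_comm]
    calc |n1 - n2| * ‖Polynomial.aeval ζ2 B‖ ≤ 10 * (145 * A * (1 + y) ^ 2 * E) :=
          mul_le_mul hn hb2 (norm_nonneg _) (by norm_num)
      _ = 1450 * (A * (1 + y) ^ 2 * E) := by ring
  have hA3 := hsy s2 hK2.s0 hK2.s7 _ hb2
  have hA4 := hsy s1 hK1.s0 hK1.s7 _ hb1
  have htot : ‖(n1 : ℂ) * (Polynomial.aeval ζ2 B - Polynomial.aeval ζ1 B)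
        + ((n2 - n1 : ℝ) : ℂ) * Polynomial.aeval ζ2 B
        + (Complex.I * ((s2 * y : ℝ) : ℂ) * Polynomial.aeval ζ2 B
          - Complex.I * ((s1 * y : ℝ) : ℂ) * Polynomial.aeval ζ1 B)‖ ≤
      (1850 + 2030 * y) * (A * (1 + y) ^ 2 * E) := by
    refine (norm_add_le _ _).trans ?_
    have h1 := norm_add_le ((n1 : ℂ) * (Polynomial.aeval ζ2 B - Polynomial.aeval ζ1 B))
      (((n2 - n1 : ℝ) : ℂ) * Polynomial.aeval ζ2 B)
    have h2 := norm_sub_le (Complex.I * ((s2 * y : ℝ) : ℂ) * Polynomial.aeval ζ2 B)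
      (Complex.I * ((s1 * y : ℝ) : ℂ) * Polynomial.aeval ζ1 B)
    linarith
  refine htot.trans ?_
  have hEE : E ≤ Real.exp (6.27 * y) := Real.exp_le_exp.mpr (by linarith)
  have h1 : (1850 + 2030 * y) * (A * (1 + y) ^ 2 * E) ≤
      (4000 * (1 + y) ^ 2) * (A * (1 + y) ^ 2 * E) := by
    apply mul_le_mul_of_nonneg_right _ hM0
    linarith [sq_nonneg y]
  refine h1.trans ?_
  have e : (4000 * (1 + y) ^ 2) * (A * (1 + y) ^ 2 * E) = 4000 * A * (1 + y) ^ 4 * E := by ring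
  rw [e]
  exact mul_le_mul_of_nonneg_left hEE (by positivity)

end Pool.Agent.Helper83.SE
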