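import Pool.Agent.Helper83.SE.LegP

/-!
Project SE, module LegE: exponential decay of Legendre derivatives away from 1.

`c = l(l+1) - m(m+1) ≥ 0`, `G = c/(2(m+1))`, `y = Y l m`, `h = y' - G y`.  The equation at 1 gives
`h(1) = 0`, and in general
`(1-z^2) h' - 2(m+1) z h + G (1-z^2) h = -G y (2(m+1)(1-z) + G (1-z^2))`, so
`d/dz [(1-z^2)^(m+1) e^{Gz} h] = -(1-z^2)^m e^{Gz} G y (2(m+1)(1-z) + G(1-z^2)) ≤ 0` where `y ≥ 0`
(`Y_pos`; the condition persists for larger `z`).  It vanishes at 1, so `h ≥ 0`, i.e.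
`(y e^{-Gz})' ≥ 0`, `y(z) ≤ y(1) e^{-G(1-z)}`.
-/

set_option autoImplicit false

open MeasureTheory Real Pool.Agent.Helper83.SD

namespace Pool.Agent.Helper83.SE

theorem Y_exp {l m : ℕ} (hm : m ≤ l) {z : ℝ} (hz0 : 0 ≤ z) (hz1 : z ≤ 1)
    (h : (l : ℝ) * ((l : ℝ) + 1) * (1 - z ^ 2) ≤ (m : ℝ) ^ 2) :
    (LegAux.Y l m).eval z ≤ LegAux.v1 l m *
      Real.exp (-(((l : ℝ) * ((l : ℝ) + 1) - (m : ℝ) * ((m : ℝ) + 1)) /
        (2 * ((m : ℝ) + 1)) * (1 - z))) := by
  have hm0 : (0 : ℝ) ≤ m := Nat.cast_nonneg m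
  have hl0 : (0 : ℝ) ≤ l := Nat.cast_nonneg l
  have hml : (m : ℝ) ≤ l := by exact_mod_cast hm
  set c : ℝ := (l : ℝ) * ((l : ℝ) + 1) - (m : ℝ) * ((m : ℝ) + 1) with hc
  have hc0 : 0 ≤ c := by
    rw [hc]
    nlinarith
  set G : ℝ := c / (2 * ((m : ℝ) + 1)) with hG
  have hG0 : 0 ≤ G := by
    rw [hG]
    positivity
  have hGc : 2 * ((m : ℝ) + 1) * G = c := by
    rw [hG]
    field_simp
  -- positivity on `[z, 1]`
  have hpos : ∀ x ∈ Set.Icc z 1, 0 < (LegAux.Y l m).eval x := by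
    intro x hx
    refine Y_pos hm (hz0.trans hx.1) hx.2 (le_trans ?_ h)
    have h1 : z ^ 2 ≤ x ^ 2 := by
      have := hx.1
      gcongr
    have h2 : 0 ≤ (l : ℝ) * ((l : ℝ) + 1) := by positivity
    exact mul_le_mul_of_nonneg_left (by linarith) h2
  have hode : ∀ x : ℝ, (1 - x ^ 2) * (LegAux.Y l (m + 2)).eval x
      - (2 * ((m : ℝ) + 1)) * x * (LegAux.Y l (m + 1)).eval x + c * (LegAux.Y l m).eval x = 0 :=
    fun x => LegAux.Y_ode_eval l m x
  clear_value G c
  have d0 : ∀ x : ℝ, HasDerivAt (fun x => (LegAux.Y l m).eval x)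
      ((LegAux.Y l (m + 1)).eval x) x := by
    intro x
    have := (LegAux.Y l m).hasDerivAt x
    rwa [LegAux.Y_succ] at this
  have d1 : ∀ x : ℝ, HasDerivAt (fun x => (LegAux.Y l (m + 1)).eval x)
      ((LegAux.Y l (m + 2)).eval x) x := by
    intro x
    have := (LegAux.Y l (m + 1)).hasDerivAt x
    rwa [LegAux.Y_succ] at this
  have dh : ∀ x : ℝ, HasDerivAt
      (fun x => (LegAux.Y l (m + 1)).eval x - G * (LegAux.Y l m).eval x)
      ((LegAux.Y l (m + 2)).eval x - G * (LegAux.Y l (m + 1)).eval x) x :=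
    fun x => (d1 x).sub ((d0 x).const_mul G)
  have de : ∀ x : ℝ, HasDerivAt (fun x => Real.exp (G * x)) (Real.exp (G * x) * G) x := by
    intro x
    have := ((hasDerivAt_id x).const_mul G).exp
    simpa using this
  have dw : ∀ x : ℝ, HasDerivAt (fun x : ℝ => (1 - x ^ 2) ^ (m + 1))
      (((m : ℝ) + 1) * (1 - x ^ 2) ^ m * (-(2 * x))) x := by
    intro x
    have h1 : HasDerivAt (fun x : ℝ => 1 - x ^ 2) (-(2 * x)) x := by
      have := (hasDerivAt_pow 2 x).const_sub 1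
      simpa using this
    have := h1.fun_pow (m + 1)
    simpa using this
  have dP : ∀ x : ℝ, HasDerivAt (fun x : ℝ => (1 - x ^ 2) ^ (m + 1) * (Real.exp (G * x) *
      ((LegAux.Y l (m + 1)).eval x - G * (LegAux.Y l m).eval x)))
      (-((1 - x ^ 2) ^ m * Real.exp (G * x) * (G * (LegAux.Y l m).eval x *
        (2 * ((m : ℝ) + 1) * (1 - x) + G * (1 - x ^ 2))))) x := by
    intro x
    have := (dw x).fun_mul ((de x).fun_mul (dh x))
    refine this.congr_deriv ?_
    have e := hode x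
    rw [pow_succ]
    linear_combination ((1 - x ^ 2) ^ m * Real.exp (G * x)) * e +
      ((1 - x ^ 2) ^ m * Real.exp (G * x) * (LegAux.Y l m).eval x) * hGc
  have hanti : AntitoneOn (fun x : ℝ => (1 - x ^ 2) ^ (m + 1) * (Real.exp (G * x) *
      ((LegAux.Y l (m + 1)).eval x - G * (LegAux.Y l m).eval x))) (Set.Icc z 1) := by
    refine antitoneOn_of_deriv_nonpos (convex_Icc z 1)
      (fun x _ => (dP x).continuousAt.continuousWithinAt)
      (fun x _ => (dP x).differentiableAt.differentiableWithinAt) fun x hx => ?_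
    rw [interior_Icc] at hx
    rw [(dP x).deriv]
    have hx0 : 0 ≤ x := hz0.trans hx.1.le
    have h1 : 0 ≤ 1 - x ^ 2 := by nlinarith [hx.2]
    have h2 : 0 ≤ 1 - x := by linarith [hx.2]
    have h3 := (hpos x ⟨hx.1.le, hx.2.le⟩).le
    have : 0 ≤ (1 - x ^ 2) ^ m * Real.exp (G * x) * (G * (LegAux.Y l m).eval x *
        (2 * ((m : ℝ) + 1) * (1 - x) + G * (1 - x ^ 2))) := by positivity
    linarith
  -- `h ≥ 0` inside
  have hh : ∀ x ∈ Set.Ico z 1,
      0 ≤ (LegAux.Y l (m + 1)).eval x - G * (LegAux.Y l m).eval x := by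
    intro x hx
    have h1 := hanti ⟨hx.1, hx.2.le⟩ (Set.right_mem_Icc.2 hz1) hx.2.le
    have e1 : (1 - (1 : ℝ) ^ 2) ^ (m + 1) * (Real.exp (G * 1) *
      ((LegAux.Y l (m + 1)).eval 1 - G * (LegAux.Y l m).eval 1)) = 0 := by
      rw [one_pow, sub_self, zero_pow (Nat.succ_ne_zero m), zero_mul]
    simp only at h1
    rw [e1] at h1
    have hx0 : 0 ≤ x := hz0.trans hx.1
    have h2 : 0 < 1 - x ^ 2 := by nlinarith [hx.2]
    have h3 : 0 < (1 - x ^ 2) ^ (m + 1) := by positivity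
    have h4 := Real.exp_pos (G * x)
    have h5 := nonneg_of_mul_nonneg_right h1 h3
    exact nonneg_of_mul_nonneg_right h5 h4
  have den : ∀ x : ℝ, HasDerivAt (fun x => Real.exp (-(G * x))) (Real.exp (-(G * x)) * (-G)) x := by
    intro x
    have := ((hasDerivAt_id x).const_mul G).neg.exp
    simpa using this
  have dQ : ∀ x : ℝ, HasDerivAt (fun x : ℝ => (LegAux.Y l m).eval x * Real.exp (-(G * x)))
      (Real.exp (-(G * x)) *
        ((LegAux.Y l (m + 1)).eval x - G * (LegAux.Y l m).eval x)) x := by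
    intro x
    refine ((d0 x).fun_mul (den x)).congr_deriv ?_
    ring
  have hmono : MonotoneOn (fun x : ℝ => (LegAux.Y l m).eval x * Real.exp (-(G * x)))
      (Set.Icc z 1) := by
    refine monotoneOn_of_deriv_nonneg (convex_Icc z 1)
      (fun x _ => (dQ x).continuousAt.continuousWithinAt)
      (fun x _ => (dQ x).differentiableAt.differentiableWithinAt) fun x hx => ?_
    rw [interior_Icc] at hx
    rw [(dQ x).deriv]
    exact mul_nonneg (Real.exp_pos _).le (hh x ⟨hx.1.le, hx.2⟩)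
  have h1 := hmono (Set.left_mem_Icc.2 hz1) (Set.right_mem_Icc.2 hz1) hz1
  simp only at h1
  rw [Y_one hm, mul_one] at h1
  have h2 : Real.exp (-(G * (1 - z))) = Real.exp (-G) * Real.exp (G * z) := by
    rw [← Real.exp_add]
    congr 1
    ring
  have h3 : Real.exp (-(G * z)) * Real.exp (G * z) = 1 := by
    rw [← Real.exp_add]
    simp
  rw [h2]
  calc (LegAux.Y l m).eval z = (LegAux.Y l m).eval z * Real.exp (-(G * z)) * Real.exp (G * z) := by
        rw [mul_assoc, h3, mul_one]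
    _ ≤ LegAux.v1 l m * Real.exp (-G) * Real.exp (G * z) :=
        mul_le_mul_of_nonneg_right h1 (Real.exp_pos _).le
    _ = _ := by ring

end Pool.Agent.Helper83.SE
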