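import Pool.Agent.Helper83.SE.Defs
import Pool.Agent.Helper83.SD.Leg

/-!
Project SE, module LegP: positivity of Legendre derivatives near 1.

`y = Y l m`, `λ = l(l+1)`.  `y(1) = v1 l m > 0`.  Put `g = (1-z^2) y' - m z y`; then
`((1-z^2)^m y g)' = (1-z^2)^(m-1) (g^2 + (m^2 - λ(1-z^2)) y^2) ≥ 0` where `λ (1-z^2) ≤ m^2`, and
`(1-z^2)^m y g` vanishes at 1, so it is `≤ 0` there; `((1-z^2)^m y^2)' = 2 (1-z^2)^(m-1) y g ≤ 0`,
so `(1-z^2)^m y^2` is decreasing and has no zero, because it is positive near 1.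
-/

set_option autoImplicit false

open MeasureTheory Real Pool.Agent.Helper83.SD

namespace Pool.Agent.Helper83.SE

/-- sign of the values at `1` -/
theorem Y_one {l m : ℕ} (hm : m ≤ l) : (LegAux.Y l m).eval 1 = LegAux.v1 l m := by
  induction m with
  | zero =>
    rw [LegAux.Y_zero, LegAux.Pl_eval (by norm_num : (1 : ℝ) ^ 2 = 1), LegAux.v1]
    have h3 : (l.factorial : ℝ) ≠ 0 := by positivity
    simp only [add_zero, pow_zero, Nat.factorial_zero, Nat.cast_one, mul_one, Nat.sub_zero,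
      one_mul, one_pow]
    rw [div_self h3]
  | succ m ih =>
    have h1 := LegAux.Y_ode_eval l m 1
    have h2 := LegAux.v1_succ hm
    rw [ih (by omega)] at h1
    have h5 : 2 * ((m : ℝ) + 1) ≠ 0 := by positivity
    apply mul_left_cancel₀ h5
    linarith

private theorem h82_v1_pos (l m : ℕ) : 0 < LegAux.v1 l m := by
  unfold LegAux.v1
  positivity

open Polynomial in
private theorem h82_dA (l k : ℕ) :
    derivative ((1 - X ^ 2) ^ (k + 1) * LegAux.Y l (k + 1) ^ 2 : ℝ[X]) =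
      2 * ((1 - X ^ 2) ^ k * LegAux.Y l (k + 1) *
        ((1 - X ^ 2) * LegAux.Y l (k + 2) - ((k : ℝ[X]) + 1) * X * LegAux.Y l (k + 1))) := by
  have e1 : k + 1 + 1 = k + 2 := rfl
  simp only [derivative_mul, derivative_pow, LegAux.Y_succ, derivative_sub, derivative_one,
    derivative_X]
  simp only [map_natCast, Nat.cast_add, Nat.cast_one, Nat.add_sub_cancel, e1, Nat.cast_ofNat,
    C_ofNat, map_add, map_one, pow_one, Nat.add_one_sub_one]
  ring

open Polynomial in
private theorem h82_dP (l k : ℕ) :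
    derivative ((1 - X ^ 2) ^ (k + 1) * LegAux.Y l (k + 1) *
        ((1 - X ^ 2) * LegAux.Y l (k + 2) - ((k : ℝ[X]) + 1) * X * LegAux.Y l (k + 1)) : ℝ[X]) =
      (1 - X ^ 2) ^ k * (((1 - X ^ 2) * LegAux.Y l (k + 2) -
          ((k : ℝ[X]) + 1) * X * LegAux.Y l (k + 1)) ^ 2 +
        (((k : ℝ[X]) + 1) ^ 2 - (l : ℝ[X]) * ((l : ℝ[X]) + 1) * (1 - X ^ 2)) *
          LegAux.Y l (k + 1) ^ 2) := by
  have e1 : k + 1 + 1 = k + 2 := rfl
  have e2 : k + 2 + 1 = k + 3 := rfl
  have e3 : k + 1 + 2 = k + 3 := rfl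
  have h := LegAux.Y_ode l (k + 1)
  simp only [map_mul, map_sub, map_add, C_ofNat, map_natCast, map_one, Nat.cast_add,
    Nat.cast_one, e1, e3] at h
  simp only [derivative_mul, derivative_pow, LegAux.Y_succ, derivative_sub, derivative_one,
    derivative_X, derivative_add, derivative_natCast]
  simp only [map_natCast, Nat.cast_add, Nat.cast_one, Nat.add_sub_cancel, e1, e2, Nat.cast_ofNat,
    C_ofNat, map_add, map_one, pow_one, Nat.add_one_sub_one]
  linear_combination (1 - X ^ 2) ^ (k + 1) * LegAux.Y l (k + 1) * h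

private theorem h82_nz {l k : ℕ} (hm : k + 1 ≤ l) {z : ℝ} (hz0 : 0 ≤ z) (hz1 : z < 1)
    (h : (l : ℝ) * ((l : ℝ) + 1) * (1 - z ^ 2) ≤ ((k : ℝ) + 1) ^ 2) :
    (LegAux.Y l (k + 1)).eval z ≠ 0 := by
  intro h0
  set A : Polynomial ℝ := (1 - Polynomial.X ^ 2) ^ (k + 1) * LegAux.Y l (k + 1) ^ 2 with hA
  set g : Polynomial ℝ := (1 - Polynomial.X ^ 2) * LegAux.Y l (k + 2) -
    ((k : Polynomial ℝ) + 1) * Polynomial.X * LegAux.Y l (k + 1) with hg
  set Q : Polynomial ℝ := (1 - Polynomial.X ^ 2) ^ (k + 1) * LegAux.Y l (k + 1) * g with hQ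
  have hl0 : (0 : ℝ) ≤ (l : ℝ) * ((l : ℝ) + 1) := by positivity
  have hQmono : MonotoneOn (fun x => Q.eval x) (Set.Icc z 1) := by
    refine monotoneOn_of_deriv_nonneg (convex_Icc z 1) Q.continuous.continuousOn
      Q.differentiable.differentiableOn fun x hx => ?_
    rw [interior_Icc] at hx
    rw [Polynomial.deriv, hQ, hg, h82_dP]
    simp only [Polynomial.eval_add, Polynomial.eval_mul, Polynomial.eval_sub, Polynomial.eval_pow,
      Polynomial.eval_X, Polynomial.eval_one, Polynomial.eval_natCast]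
    have hx1 : x ^ 2 ≤ 1 := by nlinarith [hx.1, hx.2]
    have hx2 : z ^ 2 ≤ x ^ 2 := by nlinarith [hx.1, hx.2]
    have h3 : (l : ℝ) * ((l : ℝ) + 1) * (1 - x ^ 2) ≤ ((k : ℝ) + 1) ^ 2 := by
      refine le_trans ?_ h
      exact mul_le_mul_of_nonneg_left (by linarith) hl0
    refine mul_nonneg (pow_nonneg (by linarith) k) (add_nonneg (sq_nonneg _) ?_)
    exact mul_nonneg (by linarith) (sq_nonneg _)
  have hQ1 : Q.eval 1 = 0 := by
    rw [hQ]
    simp
  have hAanti : AntitoneOn (fun x => A.eval x) (Set.Icc z 1) := by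
    refine antitoneOn_of_deriv_nonpos (convex_Icc z 1) A.continuous.continuousOn
      A.differentiable.differentiableOn fun x hx => ?_
    rw [interior_Icc] at hx
    rw [Polynomial.deriv, hA, h82_dA, ← hg]
    have hx1 : 0 < 1 - x ^ 2 := by nlinarith [hx.1, hx.2]
    have h4 := hQmono (Set.mem_Icc.2 ⟨hx.1.le, hx.2.le⟩) (Set.mem_Icc.2 ⟨hz1.le, le_rfl⟩) hx.2.le
    dsimp only at h4
    rw [hQ1, hQ] at h4
    simp only [Polynomial.eval_mul, Polynomial.eval_sub, Polynomial.eval_pow,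
      Polynomial.eval_X, Polynomial.eval_one] at h4
    simp only [Polynomial.eval_mul, Polynomial.eval_sub, Polynomial.eval_pow,
      Polynomial.eval_X, Polynomial.eval_one, Polynomial.eval_ofNat]
    have h5 : (1 - x ^ 2) ^ (k + 1) * (LegAux.Y l (k + 1)).eval x * g.eval x =
        (1 - x ^ 2) * ((1 - x ^ 2) ^ k * (LegAux.Y l (k + 1)).eval x * g.eval x) := by
      ring
    rw [h5] at h4
    have h6 : (1 - x ^ 2) ^ k * (LegAux.Y l (k + 1)).eval x * g.eval x ≤ 0 := by
      by_contra hn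
      push Not at hn
      have := mul_pos hx1 hn
      linarith
    linarith
  -- positive near 1
  have hpos1 : 0 < (LegAux.Y l (k + 1)).eval 1 := by
    rw [Y_one hm]
    exact h82_v1_pos _ _
  have hev : ∀ᶠ x in nhds (1 : ℝ), 0 < (LegAux.Y l (k + 1)).eval x :=
    (LegAux.Y l (k + 1)).continuous.continuousAt.eventually (lt_mem_nhds hpos1)
  have hev2 : ∀ᶠ x in nhdsWithin (1 : ℝ) (Set.Iio 1), 0 < (LegAux.Y l (k + 1)).eval x :=
    hev.filter_mono nhdsWithin_le_nhds
  have hev3 : ∀ᶠ x in nhdsWithin (1 : ℝ) (Set.Iio 1), x ∈ Set.Ioo z 1 :=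
    Ioo_mem_nhdsLT hz1
  obtain ⟨x, hx1, hx2⟩ := (hev2.and hev3).exists
  have h7 := hAanti (Set.mem_Icc.2 ⟨le_rfl, hz1.le⟩) (Set.mem_Icc.2 ⟨hx2.1.le, hx2.2.le⟩) hx2.1.le
  dsimp only at h7
  rw [hA] at h7
  simp only [Polynomial.eval_mul, Polynomial.eval_sub, Polynomial.eval_pow,
      Polynomial.eval_X, Polynomial.eval_one] at h7
  rw [h0] at h7
  have h8 : 0 < (1 - x ^ 2) ^ (k + 1) * (LegAux.Y l (k + 1)).eval x ^ 2 := by
    have : 0 < 1 - x ^ 2 := by nlinarith [hx2.1, hx2.2]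
    positivity
  have h9 : (1 - z ^ 2) ^ (k + 1) * (0 : ℝ) ^ 2 = 0 := by ring
  linarith

theorem Y_pos {l m : ℕ} (hm : m ≤ l) {z : ℝ} (hz0 : 0 ≤ z) (hz1 : z ≤ 1)
    (h : (l : ℝ) * ((l : ℝ) + 1) * (1 - z ^ 2) ≤ (m : ℝ) ^ 2) : 0 < (LegAux.Y l m).eval z := by
  rcases hz1.lt_or_eq with hz | hz
  · rcases m with _ | k
    · have h1 : 0 < 1 - z ^ 2 := by nlinarith
      have hl : l = 0 := by
        by_contra hl
        have : (1 : ℝ) ≤ l := by exact_mod_cast Nat.one_le_iff_ne_zero.2 hl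
        have h2 : 0 < (l : ℝ) * ((l : ℝ) + 1) * (1 - z ^ 2) := by positivity
        simp at h
        linarith
      subst hl
      rw [LegAux.Y_top, Polynomial.eval_C]
      have := LegAux.rc_pos 0
      positivity
    · have h' : (l : ℝ) * ((l : ℝ) + 1) * (1 - z ^ 2) ≤ ((k : ℝ) + 1) ^ 2 := by
        have := h
        push_cast at this
        exact this
      by_contra hn
      push Not at hn
      have hpos1 : 0 < (LegAux.Y l (k + 1)).eval 1 := by
        rw [Y_one hm]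
        exact h82_v1_pos _ _
      have hivt := intermediate_value_Icc hz.le (LegAux.Y l (k + 1)).continuous.continuousOn
      obtain ⟨x, hx, hx0⟩ := hivt ⟨hn, hpos1.le⟩
      have hx1 : x < 1 := by
        rcases hx.2.lt_or_eq with h3 | h3
        · exact h3
        · subst h3
          exact absurd hx0 hpos1.ne'
      refine h82_nz hm (hz0.trans hx.1) hx1 ?_ hx0
      refine le_trans ?_ h'
      refine mul_le_mul_of_nonneg_left ?_ (by positivity)
      nlinarith [hx.1]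
  · subst hz
    rw [Y_one hm]
    exact h82_v1_pos _ _

end Pool.Agent.Helper83.SE
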