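import Pool.Agent.Helper83.SE.Expd
import Pool.Agent.Helper83.SE.LegE

/-!
Project SE, module ModeR: refined bound for high modes near the pole.

`cs_modes` with `Φ = eval z`; `0 ≤ Y l m (z) ≤ v1 l m e^{-G_l u}`, `u = 1-z`,
`v1^2 (l-m)!/(l+m)! = aa l m/(4^m m!^2) ≤ λ_l^m/(4^m m!^2)` (`Mode.aa_le'`),
`e^{-2 G_l u} = e^{m u} e^{-λ_l u/(m+1)}`.  With `X = λ_t u/(m+1)`:
`λ_l^m e^{-λ_l u/(m+1)} ≤ λ_t^m e^{-X} (λ_l/λ_t)^{m-X}` (because `x - 1 ≥ log x`), and `sum_rpow` with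
`β = m - X`; `T^{β+1} λ_t^{m-β} ≤ T^{m+1}`, `T = (t+1)^2`.
-/

set_option autoImplicit false

open MeasureTheory Real Pool.Agent.Helper83.SD

namespace Pool.Agent.Helper83.SE

/-- weight of one mode near the pole -/
theorem modeR_term {t m l : ℕ} (hm1 : 1 ≤ m) (hml : m ≤ l) (hlt : l ≤ t)
    {z X : ℝ} (hz0 : 0 ≤ z) (hz1 : z ≤ 1)
    (h1 : lam t * (1 - z ^ 2) ≤ (m : ℝ) ^ 2) (hX : X = lam t * (1 - z) / ((m : ℝ) + 1))
    (hX1 : X + 1 ≤ m) :
    (((l - m).factorial : ℝ) / ((l + m).factorial : ℝ)) * ((LegAux.Y l m).eval z) ^ 2 ≤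
      (1 / (4 ^ m * (m.factorial : ℝ) ^ 2)) * (Real.exp ((m : ℝ) * (1 - z) - X) *
        ((lam t) ^ X * (lam l) ^ ((m : ℝ) - X))) := by
  have hl1 : (1 : ℝ) ≤ l := by exact_mod_cast hm1.trans hml
  have hlt' : (l : ℝ) ≤ t := by exact_mod_cast hlt
  have hm0 : (0 : ℝ) ≤ m := Nat.cast_nonneg m
  have hlaml : 0 < lam l := by unfold lam; positivity
  have hlamt : 0 < lam t := by
    have : (1 : ℝ) ≤ t := hl1.trans hlt'
    unfold lam
    positivity
  have hle : lam l ≤ lam t := by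
    unfold lam
    gcongr
  have hu : 0 ≤ 1 - z := by linarith
  have hu2 : 0 ≤ 1 - z ^ 2 := by nlinarith
  have hX0 : 0 ≤ X := by rw [hX]; positivity
  have hcond : (l : ℝ) * ((l : ℝ) + 1) * (1 - z ^ 2) ≤ (m : ℝ) ^ 2 := by
    refine le_trans ?_ h1
    exact mul_le_mul_of_nonneg_right hle hu2
  have hY0 := Y_pos hml hz0 hz1 hcond
  have hY1 := Y_exp hml hz0 hz1 hcond
  have hv : 0 ≤ LegAux.v1 l m := by unfold LegAux.v1; positivity
  -- square
  have hsq : ((LegAux.Y l m).eval z) ^ 2 ≤ (LegAux.v1 l m) ^ 2 *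
      Real.exp ((m : ℝ) * (1 - z) - lam l * (1 - z) / ((m : ℝ) + 1)) := by
    have h2 := pow_le_pow_left₀ hY0.le hY1 2
    rw [mul_pow, ← Real.exp_nat_mul] at h2
    refine h2.trans (le_of_eq ?_)
    congr 2
    have hm1' : (m : ℝ) + 1 ≠ 0 := by positivity
    unfold lam
    push_cast
    field_simp
    ring
  have hfac : (((l - m).factorial : ℝ) / ((l + m).factorial : ℝ)) * (LegAux.v1 l m) ^ 2 =
      (1 / (4 ^ m * (m.factorial : ℝ) ^ 2)) * Mode.aa l m := by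
    unfold LegAux.v1 Mode.aa
    have e1 : ((l - m).factorial : ℝ) ≠ 0 := by positivity
    have e2 : ((l + m).factorial : ℝ) ≠ 0 := by positivity
    have e3 : (m.factorial : ℝ) ≠ 0 := by positivity
    have e4 : (4 : ℝ) ^ m = (2 ^ m) ^ 2 := by
      rw [← pow_mul, mul_comm, pow_mul]
      norm_num
    rw [e4]
    field_simp
  have haa : Mode.aa l m ≤ (lam l) ^ m := Mode.aa_le' m hml
  have hmain : (lam l) ^ m * Real.exp (-(lam l * (1 - z) / ((m : ℝ) + 1))) ≤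
      Real.exp (-X) * ((lam t) ^ X * (lam l) ^ ((m : ℝ) - X)) := by
    have hr : lam l * (1 - z) / ((m : ℝ) + 1) = X * (lam l / lam t) := by
      rw [hX]
      field_simp
    rw [hr]
    have hlog := Real.log_le_sub_one_of_pos (div_pos hlaml hlamt)
    rw [Real.log_div hlaml.ne' hlamt.ne'] at hlog
    have h3 : X * (Real.log (lam l) - Real.log (lam t)) ≤ X * (lam l / lam t - 1) :=
      mul_le_mul_of_nonneg_left hlog hX0
    have h4 : (lam l) ^ m = Real.exp ((m : ℝ) * Real.log (lam l)) := by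
      rw [← Real.rpow_natCast, Real.rpow_def_of_pos hlaml, mul_comm]
    have h5 : (lam t) ^ X = Real.exp (X * Real.log (lam t)) := by
      rw [Real.rpow_def_of_pos hlamt, mul_comm]
    have h6 : (lam l) ^ ((m : ℝ) - X) = Real.exp (((m : ℝ) - X) * Real.log (lam l)) := by
      rw [Real.rpow_def_of_pos hlaml, mul_comm]
    rw [h4, h5, h6, ← Real.exp_add, ← Real.exp_add, ← Real.exp_add]
    refine Real.exp_le_exp.2 ?_
    nlinarith
  calc (((l - m).factorial : ℝ) / ((l + m).factorial : ℝ)) * ((LegAux.Y l m).eval z) ^ 2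
      ≤ (((l - m).factorial : ℝ) / ((l + m).factorial : ℝ)) * ((LegAux.v1 l m) ^ 2 *
        Real.exp ((m : ℝ) * (1 - z) - lam l * (1 - z) / ((m : ℝ) + 1))) :=
        mul_le_mul_of_nonneg_left hsq (by positivity)
    _ = (1 / (4 ^ m * (m.factorial : ℝ) ^ 2)) * (Mode.aa l m *
        (Real.exp ((m : ℝ) * (1 - z)) * Real.exp (-(lam l * (1 - z) / ((m : ℝ) + 1))))) := by
        rw [← mul_assoc, hfac, sub_eq_add_neg, Real.exp_add]
        ring
    _ ≤ (1 / (4 ^ m * (m.factorial : ℝ) ^ 2)) * ((lam l) ^ m *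
        (Real.exp ((m : ℝ) * (1 - z)) * Real.exp (-(lam l * (1 - z) / ((m : ℝ) + 1))))) := by
        gcongr
    _ = (1 / (4 ^ m * (m.factorial : ℝ) ^ 2)) * (Real.exp ((m : ℝ) * (1 - z)) * ((lam l) ^ m *
        Real.exp (-(lam l * (1 - z) / ((m : ℝ) + 1))))) := by ring
    _ ≤ (1 / (4 ^ m * (m.factorial : ℝ) ^ 2)) * (Real.exp ((m : ℝ) * (1 - z)) *
        (Real.exp (-X) * ((lam t) ^ X * (lam l) ^ ((m : ℝ) - X)))) := by gcongr
    _ = _ := by
        rw [sub_eq_add_neg ((m : ℝ) * (1 - z)) X, Real.exp_add]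
        ring

theorem modeR {t m : ℕ} (hm1 : 1 ≤ m) (hm : m ≤ t) {g : Polynomial ℝ}
    (hg : g.natDegree ≤ t - m) {z X : ℝ} (hz0 : 0 ≤ z) (hz1 : z ≤ 1)
    (h1 : lam t * (1 - z ^ 2) ≤ (m : ℝ) ^ 2) (hX : X = lam t * (1 - z) / ((m : ℝ) + 1))
    (hX1 : X + 1 ≤ m) :
    (1 - z ^ 2) ^ m * (g.eval z) ^ 2 ≤ nrm m g * ((1 - z ^ 2) / 4) ^ m /
      ((m.factorial : ℝ) ^ 2) * Real.exp ((m : ℝ) * (1 - z) - X) *
      (((t : ℝ) + 1) ^ 2) ^ (m + 1) / ((m : ℝ) + 1 - X) := by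
  have hu2 : 0 ≤ 1 - z ^ 2 := by nlinarith
  have hm0 : (0 : ℝ) ≤ m := Nat.cast_nonneg m
  have hX0 : 0 ≤ X := by
    rw [hX]
    have := lam_nonneg t
    have hu : 0 ≤ 1 - z := by linarith
    positivity
  have hβ : 0 ≤ (m : ℝ) - X := by linarith
  have hcs := cs_modes hm hg (Polynomial.leval z)
  simp only [Polynomial.leval_apply] at hcs
  have hn := nrm_nonneg m g
  set E : ℝ := Real.exp ((m : ℝ) * (1 - z) - X) with hE
  have hE0 : 0 < E := Real.exp_pos _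
  have hlamt : 0 < lam t := by
    have : (1 : ℝ) ≤ t := by exact_mod_cast hm1.trans hm
    unfold lam
    positivity
  have hsum : ∑ l ∈ Finset.Icc m t, (2 * (l : ℝ) + 1) *
      (((l - m).factorial : ℝ) / ((l + m).factorial : ℝ)) * ((LegAux.Y l m).eval z) ^ 2 ≤
      (1 / (4 ^ m * (m.factorial : ℝ) ^ 2)) * (E * ((lam t) ^ X *
        ((((t : ℝ) + 1) ^ 2) ^ ((m : ℝ) - X + 1) / ((m : ℝ) - X + 1)))) := by
    calc ∑ l ∈ Finset.Icc m t, (2 * (l : ℝ) + 1) *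
        (((l - m).factorial : ℝ) / ((l + m).factorial : ℝ)) * ((LegAux.Y l m).eval z) ^ 2
        ≤ ∑ l ∈ Finset.Icc m t, (1 / (4 ^ m * (m.factorial : ℝ) ^ 2)) * (E * ((lam t) ^ X *
          ((2 * (l : ℝ) + 1) * (lam l) ^ ((m : ℝ) - X)))) := by
          refine Finset.sum_le_sum fun l hl => ?_
          obtain ⟨hl1, hl2⟩ := Finset.mem_Icc.1 hl
          have h := modeR_term hm1 hl1 hl2 hz0 hz1 h1 hX hX1
          have h0 : (0 : ℝ) ≤ 2 * (l : ℝ) + 1 := by positivity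
          have := mul_le_mul_of_nonneg_left h h0
          rw [← hE] at this
          calc _ = (2 * (l : ℝ) + 1) * ((((l - m).factorial : ℝ) / ((l + m).factorial : ℝ)) *
                ((LegAux.Y l m).eval z) ^ 2) := by ring
            _ ≤ _ := this
            _ = _ := by ring
      _ = (1 / (4 ^ m * (m.factorial : ℝ) ^ 2)) * (E * ((lam t) ^ X *
          ∑ l ∈ Finset.Icc m t, (2 * (l : ℝ) + 1) * (lam l) ^ ((m : ℝ) - X))) := by
          rw [Finset.mul_sum, Finset.mul_sum, Finset.mul_sum]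
      _ ≤ (1 / (4 ^ m * (m.factorial : ℝ) ^ 2)) * (E * ((lam t) ^ X *
          ∑ l ∈ Finset.range (t + 1), (2 * (l : ℝ) + 1) * (lam l) ^ ((m : ℝ) - X))) := by
          have hsub : Finset.Icc m t ⊆ Finset.range (t + 1) := by
            intro l hl
            rw [Finset.mem_Icc] at hl
            rw [Finset.mem_range]
            omega
          have hle : ∑ l ∈ Finset.Icc m t, (2 * (l : ℝ) + 1) * (lam l) ^ ((m : ℝ) - X) ≤
              ∑ l ∈ Finset.range (t + 1), (2 * (l : ℝ) + 1) * (lam l) ^ ((m : ℝ) - X) := by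
            refine Finset.sum_le_sum_of_subset_of_nonneg hsub fun l _ _ => ?_
            exact mul_nonneg (by positivity) (Real.rpow_nonneg (lam_nonneg l) _)
          have hp : 0 ≤ (lam t) ^ X := Real.rpow_nonneg hlamt.le _
          gcongr
      _ ≤ _ := by
          have hp : 0 ≤ (lam t) ^ X := Real.rpow_nonneg hlamt.le _
          have := sum_rpow t hβ
          gcongr
  have hT1 : (1 : ℝ) ≤ ((t : ℝ) + 1) ^ 2 := by
    have : (0 : ℝ) ≤ t := Nat.cast_nonneg t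
    nlinarith
  have hpow : (lam t) ^ X * (((t : ℝ) + 1) ^ 2) ^ ((m : ℝ) - X + 1) ≤
      (((t : ℝ) + 1) ^ 2) ^ (m + 1) := by
    have h2 : (lam t) ^ X ≤ (((t : ℝ) + 1) ^ 2) ^ X :=
      Real.rpow_le_rpow hlamt.le (lam_le t) hX0
    have h3 : (0 : ℝ) ≤ (((t : ℝ) + 1) ^ 2) ^ ((m : ℝ) - X + 1) :=
      Real.rpow_nonneg (by positivity) _
    refine (mul_le_mul_of_nonneg_right h2 h3).trans (le_of_eq ?_)
    have hT0 : (0 : ℝ) < ((t : ℝ) + 1) ^ 2 := by positivity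
    have h5 : (((t : ℝ) + 1) ^ 2) ^ (m + 1) = (((t : ℝ) + 1) ^ 2) ^ ((m : ℝ) + 1) := by
      rw [← Real.rpow_natCast (((t : ℝ) + 1) ^ 2) (m + 1)]
      push_cast
      rfl
    rw [← Real.rpow_add hT0, h5]
    congr 1
    ring
  have hden : 0 < (m : ℝ) + 1 - X := by linarith
  have hden' : (m : ℝ) - X + 1 = (m : ℝ) + 1 - X := by ring
  have hfin : (g.eval z) ^ 2 ≤ nrm m g * ((1 / (4 ^ m * (m.factorial : ℝ) ^ 2)) * (E *
      ((((t : ℝ) + 1) ^ 2) ^ (m + 1) / ((m : ℝ) + 1 - X)))) := by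
    refine hcs.trans (mul_le_mul_of_nonneg_left (hsum.trans ?_) hn)
    have h6 := (div_le_div_iff_of_pos_right hden).2 hpow
    rw [← hden', mul_div_assoc] at h6
    rw [← hden']
    exact mul_le_mul_of_nonneg_left (mul_le_mul_of_nonneg_left h6 hE0.le) (by positivity)
  calc (1 - z ^ 2) ^ m * (g.eval z) ^ 2
      ≤ (1 - z ^ 2) ^ m * (nrm m g * ((1 / (4 ^ m * (m.factorial : ℝ) ^ 2)) * (E *
      ((((t : ℝ) + 1) ^ 2) ^ (m + 1) / ((m : ℝ) + 1 - X))))) :=
        mul_le_mul_of_nonneg_left hfin (by positivity)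
    _ = _ := by
      rw [div_pow]
      have e3 : (m.factorial : ℝ) ≠ 0 := by positivity
      field_simp

end Pool.Agent.Helper83.SE
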