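import Pool.Agent.Helper83.SE.Defs
import Pool.Agent.Helper83.SD.Pars
import Pool.Agent.Helper83.SD.Fourier
import Pool.Agent.Helper83.SD.Sup

/-!
Project SE, module Out: decay of high modes (complexified great circles).

Let `P(φ) = ev p (sp z φ)`, a trigonometric polynomial; for complex `φ = φ0 + iτ` the point
`X(φ) = (√(1-z^2) cos φ, √(1-z^2) sin φ, z)` of `ℂ^3` is `cosh r e + i sinh r f` with orthonormal
real `e, f`: real part `(√(1-z^2) cosh τ cos φ0, √(1-z^2) cosh τ sin φ0, z)` of norm `cosh r`,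
imaginary part of norm `√(1-z^2) sinh τ = sinh r`, orthogonal.  Let `R` be an isometry with
`R e1 = e`, `R e2 = ± f`, `q = p ∘ R` (`mu_rot`); then `p(X) = q(cos(ir), ± sin(ir), 0)`, and with
modes of `q` at `z = 0` (both sides are trigonometric polynomials in the angle, equal for real
angles, hence for complex ones) `|p(X)| ≤ Σ_m F_m(q)(0) e^{|m| r}
≤ e^{t r} √(2t+1) √(Σ F_m(q)(0)^2)`, and `Σ F_m(q)(0)^2` is the mean of `q^2` over the equator
(`SD.avg_sq`, `SD.modeA_Fm`), at most `(t+1)^2 mu(p^2)` (`SD.sup_bound`).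
Parseval for `φ0 -> P(φ0 ± iτ)`: `Σ_m F_m(z)^2 e^{∓ 2 m τ}` is the mean of `|P(φ0 ± iτ)|^2`.
`out_en`: apply `out` to `Lr 2 p`, whose modes are `(-m v_m, m u_m)`
(`ev (Lr 2 p) (sp z φ) = ∂_φ ev p (sp z φ)`) and `mu ((L_2 p)^2) ≤ en p`.
-/

set_option autoImplicit false

open MeasureTheory Real Pool.Agent.Helper83.SD

namespace Pool.Agent.Helper83.SE

namespace Out

open Pool.Agent.Helper83.SD.Pars

/-- value of a polynomial at a complex point -/
noncomputable def evC (p : Poly) (X : Fin 3 → ℂ) : ℂ :=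
  ∑ d ∈ p.support, ((p.coeff d : ℝ) : ℂ) * ∏ i, X i ^ d i

lemma evC_real (p : Poly) (x : E3) : evC p (fun i => ((x i : ℝ) : ℂ)) = ((ev p x : ℝ) : ℂ) := by
  unfold evC ev
  rw [MvPolynomial.eval_eq']
  push_cast
  rfl

/-- the complexified curve `cos θ a + sin θ b + c` -/
noncomputable def cur (a b c : E3) (θ : ℂ) : Fin 3 → ℂ := fun i =>
  Complex.cos θ * ((a i : ℝ) : ℂ) + Complex.sin θ * ((b i : ℝ) : ℂ) + ((c i : ℝ) : ℂ)

lemma evC_cur_diff (p : Poly) (a b c : E3) : Differentiable ℂ (fun θ => evC p (cur a b c θ)) := by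
  unfold evC cur
  simp only [Fin.prod_univ_three]
  have h1 : Differentiable ℂ Complex.cos := Complex.differentiable_cos
  have h2 : Differentiable ℂ Complex.sin := Complex.differentiable_sin
  refine Differentiable.fun_sum fun d _ => ?_
  fun_prop

/-- real curve -/
lemma cur_real (a b c : E3) (φ : ℝ) :
    cur a b c (φ : ℂ) = fun i => (((cos φ • a + sin φ • b + c : E3) i : ℝ) : ℂ) := by
  funext i
  unfold cur
  simp only [PiLp.add_apply, PiLp.smul_apply, smul_eq_mul]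
  push_cast
  rfl

/-- two entire functions which agree on the real line -/
lemma ident (p : Poly) (a b c : E3) (s : Finset ℤ) (C : ℤ → ℂ)
    (h : ∀ φ : ℝ, evC p (cur a b c (φ : ℂ)) =
      ∑ m ∈ s, C m * Complex.exp (Complex.I * (m : ℂ) * (φ : ℂ))) (θ : ℂ) :
    evC p (cur a b c θ) = ∑ m ∈ s, C m * Complex.exp (Complex.I * (m : ℂ) * θ) := by
  have h1 : AnalyticOnNhd ℂ (fun θ => evC p (cur a b c θ)) Set.univ :=
    fun z _ => (evC_cur_diff p a b c).analyticAt z
  have hd : Differentiable ℂ (fun θ : ℂ => ∑ m ∈ s, C m * Complex.exp (Complex.I * (m : ℂ) * θ)) := by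
    refine Differentiable.fun_sum fun m _ => ?_
    fun_prop
  have h2 : AnalyticOnNhd ℂ (fun θ : ℂ => ∑ m ∈ s, C m * Complex.exp (Complex.I * (m : ℂ) * θ))
      Set.univ := fun z _ => hd.analyticAt z
  have h3 : Filter.Tendsto (fun x : ℝ => (x : ℂ)) (nhdsWithin (0 : ℝ) {0}ᶜ)
      (nhdsWithin (0 : ℂ) {0}ᶜ) := by
    refine tendsto_nhdsWithin_iff.mpr ⟨?_, ?_⟩
    · have : Filter.Tendsto (fun x : ℝ => (x : ℂ)) (nhds (0 : ℝ)) (nhds ((0 : ℝ) : ℂ)) :=
        Complex.continuous_ofReal.tendsto 0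
      rw [Complex.ofReal_zero] at this
      exact this.mono_left nhdsWithin_le_nhds
    · filter_upwards [self_mem_nhdsWithin] with x hx
      simp only [Set.mem_compl_iff, Set.mem_singleton_iff] at hx ⊢
      exact_mod_cast hx
  have h4 : ∃ᶠ x : ℝ in nhdsWithin (0 : ℝ) {0}ᶜ,
      evC p (cur a b c (x : ℂ)) = ∑ m ∈ s, C m * Complex.exp (Complex.I * (m : ℂ) * (x : ℂ)) :=
    (Filter.Eventually.of_forall h).frequently
  have h5 := h3.frequently (p := fun z : ℂ => evC p (cur a b c z) =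
    ∑ m ∈ s, C m * Complex.exp (Complex.I * (m : ℂ) * z)) h4
  exact h1.eqOn_of_preconnected_of_frequently_eq h2 isPreconnected_univ (Set.mem_univ 0) h5
    (Set.mem_univ θ)

lemma norm_cf {u v : ℤ → Polynomial ℝ} {z : ℝ} (hz : z ^ 2 ≤ 1) (m : ℤ) :
    ‖cf u v z m‖ = Fm u v m z := by
  have h1 := cf_norm (u := u) (v := v) hz m
  rw [Complex.mul_conj] at h1
  have h2 : Complex.normSq (cf u v z m) =
      (1 - z ^ 2) ^ m.natAbs * (((u m).eval z) ^ 2 + ((v m).eval z) ^ 2) := by exact_mod_cast h1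
  unfold Fm
  rw [← h2, Complex.normSq_eq_norm_sq, Real.sqrt_sq (norm_nonneg _)]

/-- an isometry which maps the equator to a given great circle -/
lemma exists_iso (e f : E3) (he : ‖e‖ = 1) (hf : ‖f‖ = 1) (hef : inner ℝ e f = 0) :
    ∃ R : E3 ≃ₗᵢ[ℝ] E3, ∀ θ : ℝ, R (sp 0 θ) = cos θ • e + sin θ • f := by
  have n1 : ‖sp 0 0‖ = 1 := sp_norm (by norm_num) 0
  have n2 : ‖sp 0 (π / 2)‖ = 1 := sp_norm (by norm_num) _
  have hsp : ∀ θ : ℝ, sp 0 θ = cos θ • sp 0 0 + sin θ • sp 0 (π / 2) := by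
    intro θ
    ext i
    fin_cases i <;> simp [sp]
  have h12 : inner ℝ (sp 0 0) (sp 0 (π / 2)) = 0 := by
    rw [PiLp.inner_apply, Fin.sum_univ_three]
    simp [sp]
  obtain ⟨R1, hR1⟩ : ∃ R1 : E3 ≃ₗᵢ[ℝ] E3, R1 (sp 0 0) = e :=
    ⟨(Submodule.span ℝ {sp 0 0 - e})ᗮ.reflection, Submodule.reflection_sub (by rw [n1, he])⟩
  have nw : ‖R1 (sp 0 (π / 2))‖ = 1 := by rw [LinearIsometryEquiv.norm_map, n2]
  have hw : inner ℝ e (R1 (sp 0 (π / 2))) = 0 := by
    rw [← hR1, LinearIsometryEquiv.inner_map_map, h12]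
  have h2 : (Submodule.span ℝ {R1 (sp 0 (π / 2)) - f})ᗮ.reflection (R1 (sp 0 (π / 2))) = f :=
    Submodule.reflection_sub (by rw [nw, hf])
  have h3 : (Submodule.span ℝ {R1 (sp 0 (π / 2)) - f})ᗮ.reflection e = e := by
    apply Submodule.reflection_mem_subspace_eq_self
    rw [Submodule.mem_orthogonal_singleton_iff_inner_right, inner_sub_left,
      real_inner_comm, hw, real_inner_comm, hef, sub_zero]
  refine ⟨R1.trans (Submodule.span ℝ {R1 (sp 0 (π / 2)) - f})ᗮ.reflection, fun θ => ?_⟩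
  rw [hsp θ, LinearIsometryEquiv.trans_apply, map_add, map_add, map_smul, map_smul, map_smul,
    map_smul, hR1, h2, h3]

/-- the bound at a complex point of the sphere -/
lemma great {t : ℕ} {p : Poly} (hp : p.totalDegree ≤ t) {e f : E3} (he : ‖e‖ = 1) (hf : ‖f‖ = 1)
    (hef : inner ℝ e f = 0) {r : ℝ} (hr : 0 ≤ r) :
    ‖evC p (cur e f 0 (Complex.I * (r : ℂ)))‖ ^ 2 ≤
      (2 * (t : ℝ) + 1) * ((t : ℝ) + 1) ^ 2 * Real.exp (2 * (t : ℝ) * r) * mu (p ^ 2) := by
  obtain ⟨R, hR⟩ := exists_iso e f he hf hef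
  obtain ⟨q, hq1, hq2, -, hq4⟩ := mu_rot R p
  obtain ⟨u, v, hm⟩ := exists_modes t q (hq1.trans hp)
  have h0 : (0 : ℝ) ^ 2 ≤ 1 := by norm_num
  have hid : ∀ φ : ℝ, evC p (cur e f 0 (φ : ℂ)) = ∑ m ∈ Finset.Icc (-(t : ℤ)) t,
      cf u v 0 m * Complex.exp (Complex.I * (m : ℂ) * (φ : ℂ)) := by
    intro φ
    rw [cur_real, evC_real, add_zero, ← hR φ, ← hq2]
    exact ev_eq hm h0 φ
  have h1 := ident p e f 0 _ _ hid (Complex.I * (r : ℂ))
  have hsum : ∑ m ∈ Finset.Icc (-(t : ℤ)) t, (Fm u v m 0) ^ 2 ≤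
      ((t : ℝ) + 1) ^ 2 * mu (p ^ 2) := by
    rw [← modeA_Fm h0, ← avg_sq hm h0]
    have hb : ∀ φ : ℝ, (ev q (sp 0 φ)) ^ 2 ≤ ((t : ℝ) + 1) ^ 2 * mu (p ^ 2) := by
      intro φ
      rw [← hq4]
      exact sup_bound t q (hq1.trans hp) _ (sp_norm h0 φ)
    have hc : Continuous fun φ : ℝ => (ev q (sp 0 φ)) ^ 2 := by
      have h2 : Continuous fun φ : ℝ => sp 0 φ := by
        unfold sp
        refine (PiLp.continuous_toLp 2 _).comp ?_
        refine continuous_pi fun i => ?_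
        fin_cases i <;> simp <;> fun_prop
      exact ((ev_continuous q).comp h2).pow 2
    have h3 : ∫ φ in (0 : ℝ)..(2 * π), (ev q (sp 0 φ)) ^ 2 ≤
        ∫ _φ in (0 : ℝ)..(2 * π), ((t : ℝ) + 1) ^ 2 * mu (p ^ 2) := by
      refine intervalIntegral.integral_mono_on (by positivity) (hc.intervalIntegrable _ _)
        (by simp) fun φ _ => hb φ
    rw [intervalIntegral.integral_const, sub_zero, smul_eq_mul] at h3
    have h4 : 0 < 2 * π := by positivity
    calc 1 / (2 * π) * ∫ φ in (0 : ℝ)..(2 * π), (ev q (sp 0 φ)) ^ 2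
        ≤ 1 / (2 * π) * (2 * π * (((t : ℝ) + 1) ^ 2 * mu (p ^ 2))) := by gcongr
      _ = ((t : ℝ) + 1) ^ 2 * mu (p ^ 2) := by field_simp
  have hnorm : ‖evC p (cur e f 0 (Complex.I * (r : ℂ)))‖ ≤
      Real.exp ((t : ℝ) * r) * ∑ m ∈ Finset.Icc (-(t : ℤ)) t, Fm u v m 0 := by
    rw [h1, Finset.mul_sum]
    refine (norm_sum_le _ _).trans (Finset.sum_le_sum fun m hm' => ?_)
    have hmt := Finset.mem_Icc.mp hm'
    rw [norm_mul, norm_cf h0, mul_comm]
    apply mul_le_mul_of_nonneg_right _ (Real.sqrt_nonneg _)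
    have h5 : Complex.I * (m : ℂ) * (Complex.I * (r : ℂ)) = ((-(m : ℝ) * r : ℝ) : ℂ) := by
      push_cast
      linear_combination ((m : ℂ) * (r : ℂ)) * Complex.I_mul_I
    rw [h5, Complex.norm_exp_ofReal]
    apply Real.exp_le_exp.mpr
    apply mul_le_mul_of_nonneg_right _ hr
    have : -(m : ℤ) ≤ t := by omega
    exact_mod_cast this
  have hCS := sq_sum_le_card_mul_sum_sq (s := Finset.Icc (-(t : ℤ)) t) (f := fun m => Fm u v m 0)
  have hcard : ((Finset.Icc (-(t : ℤ)) t).card : ℝ) = 2 * (t : ℝ) + 1 := by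
    rw [Int.card_Icc]
    have : ((t : ℤ) + 1 - -(t : ℤ)).toNat = 2 * t + 1 := by omega
    rw [this]
    push_cast
    ring
  rw [hcard] at hCS
  have hexp : Real.exp ((t : ℝ) * r) ^ 2 = Real.exp (2 * (t : ℝ) * r) := by
    rw [← Real.exp_nat_mul]
    congr 1
    push_cast
    ring
  calc ‖evC p (cur e f 0 (Complex.I * (r : ℂ)))‖ ^ 2
      ≤ (Real.exp ((t : ℝ) * r) * ∑ m ∈ Finset.Icc (-(t : ℤ)) t, Fm u v m 0) ^ 2 := by
        gcongr
    _ = Real.exp (2 * (t : ℝ) * r) * (∑ m ∈ Finset.Icc (-(t : ℤ)) t, Fm u v m 0) ^ 2 := by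
        rw [mul_pow, hexp]
    _ ≤ Real.exp (2 * (t : ℝ) * r) * ((2 * (t : ℝ) + 1) *
          (((t : ℝ) + 1) ^ 2 * mu (p ^ 2))) := by
        refine mul_le_mul_of_nonneg_left (hCS.trans ?_) (Real.exp_nonneg _)
        exact mul_le_mul_of_nonneg_left hsum (by positivity)
    _ = _ := by ring

end Out

open Out Pool.Agent.Helper83.SD.Pars in
theorem out {t : ℕ} {p : Poly} {u v : ℤ → Polynomial ℝ} (hp : p.totalDegree ≤ t)
    (h : Modes t p u v) {z : ℝ} (hz : z ^ 2 ≤ 1) (m : ℤ) {τ r : ℝ} (hτ : 0 ≤ τ) (hr : 0 ≤ r)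
    (hs : Real.sinh r = √(1 - z ^ 2) * Real.sinh τ) :
    (Fm u v m z) ^ 2 ≤ (2 * (t : ℝ) + 1) * ((t : ℝ) + 1) ^ 2 *
      Real.exp (2 * (t : ℝ) * r - 2 * |(m : ℝ)| * τ) * mu (p ^ 2) := by
  set s := √(1 - z ^ 2) with hsdef
  have hs2 : s ^ 2 = 1 - z ^ 2 := Real.sq_sqrt (by linarith)
  have hch : 0 < Real.cosh r := Real.cosh_pos r
  by_cases hmt : m ∈ Finset.Icc (-(t : ℤ)) t
  swap
  · -- the mode vanishes
    have h1 : t < m.natAbs := by
      rw [Finset.mem_Icc] at hmt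
      omega
    have h2 : Fm u v m z = 0 := by
      unfold Fm
      rw [h.outu m h1, h.outv m h1]
      simp
    rw [h2]
    have h3 : 0 ≤ mu (p ^ 2) := by
      have h4 := sup_bound t p hp (sp 0 0) (sp_norm (by norm_num) 0)
      have h5 : (0 : ℝ) < ((t : ℝ) + 1) ^ 2 := by positivity
      nlinarith [sq_nonneg (ev p (sp 0 0))]
    rw [zero_pow two_ne_zero]
    positivity
  set B := (2 * (t : ℝ) + 1) * ((t : ℝ) + 1) ^ 2 * Real.exp (2 * (t : ℝ) * r) * mu (p ^ 2) with hB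
  -- the coordinates
  set a : E3 := !₂[s, 0, 0] with ha
  set b : E3 := !₂[0, s, 0] with hb
  set c : E3 := !₂[0, 0, z] with hc
  have hid : ∀ φ : ℝ, evC p (cur a b c (φ : ℂ)) = ∑ m ∈ Finset.Icc (-(t : ℤ)) t,
      cf u v z m * Complex.exp (Complex.I * (m : ℂ) * (φ : ℂ)) := by
    intro φ
    rw [cur_real, evC_real]
    have h1 : cos φ • a + sin φ • b + c = sp z φ := by
      ext i
      fin_cases i <;> simp [ha, hb, hc, sp, hsdef, mul_comm]
    rw [h1]
    exact ev_eq h hz φ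
  have key : ∀ (σ : ℝ), σ ^ 2 = 1 → ∀ φ : ℝ,
      ‖evC p (cur a b c ((φ : ℂ) - ((σ * τ : ℝ) : ℂ) * Complex.I))‖ ^ 2 ≤ B := by
    intro σ hσ φ
    set e : E3 := !₂[s * Real.cosh τ * cos φ / Real.cosh r, s * Real.cosh τ * sin φ / Real.cosh r,
      z / Real.cosh r] with he
    set f : E3 := !₂[σ * sin φ, -(σ * cos φ), 0] with hf
    have hcs := Real.sin_sq_add_cos_sq φ
    have hchr : Real.cosh r ^ 2 = 1 + s ^ 2 * Real.sinh τ ^ 2 := by
      have := Real.cosh_sq r
      rw [hs] at this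
      linear_combination this
    have hcht : Real.cosh τ ^ 2 = 1 + Real.sinh τ ^ 2 := by
      have := Real.cosh_sq τ
      linarith
    have ne : ‖e‖ = 1 := by
      rw [EuclideanSpace.norm_eq, Real.sqrt_eq_one, Fin.sum_univ_three]
      simp only [he, Real.norm_eq_abs, sq_abs, PiLp.toLp_apply, Matrix.cons_val_zero,
        Matrix.cons_val_one, Matrix.cons_val]
      have h1 : (s * Real.cosh τ * cos φ) ^ 2 + (s * Real.cosh τ * sin φ) ^ 2 + z ^ 2 =
          Real.cosh r ^ 2 := by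
        rw [hchr]
        linear_combination (s ^ 2 * Real.cosh τ ^ 2) * hcs + s ^ 2 * hcht + hs2
      rw [div_pow, div_pow, div_pow, ← add_div, ← add_div, h1]
      exact div_self (by positivity)
    have nf : ‖f‖ = 1 := by
      rw [EuclideanSpace.norm_eq, Real.sqrt_eq_one, Fin.sum_univ_three]
      simp only [hf, Real.norm_eq_abs, sq_abs, PiLp.toLp_apply, Matrix.cons_val_zero,
        Matrix.cons_val_one, Matrix.cons_val]
      linear_combination σ ^ 2 * hcs + hσ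
    have nef : inner ℝ e f = 0 := by
      rw [PiLp.inner_apply, Fin.sum_univ_three]
      simp only [he, hf, PiLp.toLp_apply, Matrix.cons_val_zero,
        Matrix.cons_val_one, Matrix.cons_val, RCLike.inner_apply, conj_trivial]
      ring
    have hg := great hp ne nf nef hr
    have hsame : cur a b c ((φ : ℂ) - ((σ * τ : ℝ) : ℂ) * Complex.I) =
        cur e f 0 (Complex.I * (r : ℂ)) := by
      have hc1 : Complex.cos (Complex.I * (r : ℂ)) = ((Real.cosh r : ℝ) : ℂ) := by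
        rw [mul_comm, Complex.cos_mul_I, Complex.ofReal_cosh]
      have hs1 : Complex.sin (Complex.I * (r : ℂ)) = ((Real.sinh r : ℝ) : ℂ) * Complex.I := by
        rw [mul_comm, Complex.sin_mul_I, Complex.ofReal_sinh]
      have hσ1 : σ = 1 ∨ σ = -1 := by
        have h1 : (σ - 1) * (σ + 1) = 0 := by linear_combination hσ
        rcases mul_eq_zero.mp h1 with h1 | h1
        · exact Or.inl (by linarith)
        · exact Or.inr (by linarith)
      have hσc : Real.cosh (σ * τ) = Real.cosh τ := by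
        rcases hσ1 with h1 | h1
        · rw [h1, one_mul]
        · rw [h1, neg_one_mul, Real.cosh_neg]
      have hσs : Real.sinh (σ * τ) = σ * Real.sinh τ := by
        rcases hσ1 with h1 | h1
        · rw [h1, one_mul, one_mul]
        · rw [h1, neg_one_mul, neg_one_mul, Real.sinh_neg]
      have hc2 : Complex.cos ((φ : ℂ) - ((σ * τ : ℝ) : ℂ) * Complex.I) =
          ((cos φ * Real.cosh τ : ℝ) : ℂ) + ((sin φ * (σ * Real.sinh τ) : ℝ) : ℂ) * Complex.I := by
        rw [Complex.cos_sub, Complex.cos_mul_I, Complex.sin_mul_I, ← Complex.ofReal_cosh,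
          ← Complex.ofReal_sinh, hσc, hσs]
        push_cast
        ring
      have hs2' : Complex.sin ((φ : ℂ) - ((σ * τ : ℝ) : ℂ) * Complex.I) =
          ((sin φ * Real.cosh τ : ℝ) : ℂ) - ((cos φ * (σ * Real.sinh τ) : ℝ) : ℂ) * Complex.I := by
        rw [Complex.sin_sub, Complex.cos_mul_I, Complex.sin_mul_I, ← Complex.ofReal_cosh,
          ← Complex.ofReal_sinh, hσc, hσs]
        push_cast
        ring
      have hne : (Real.cosh r : ℂ) ≠ 0 := by exact_mod_cast hch.ne'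
      have hsC : ((Real.sinh r : ℝ) : ℂ) = (s : ℂ) * ((Real.sinh τ : ℝ) : ℂ) := by
        rw [hs]
        push_cast
        rfl
      funext i
      unfold cur
      rw [hc1, hs1, hc2, hs2', hsC]
      fin_cases i
      · simp only [ha, hb, hc, he, hf, Fin.zero_eta, Fin.isValue, PiLp.toLp_apply,
          Matrix.cons_val_zero, PiLp.zero_apply, Complex.ofReal_zero, Complex.ofReal_div,
          Complex.ofReal_mul, mul_zero, add_zero]
        field_simp
      · simp only [ha, hb, hc, he, hf, Fin.mk_one, Fin.isValue, PiLp.toLp_apply,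
          Matrix.cons_val_one, Matrix.cons_val_zero, PiLp.zero_apply, Complex.ofReal_zero,
          Complex.ofReal_div, Complex.ofReal_mul, Complex.ofReal_neg, mul_zero, add_zero, zero_add]
        field_simp
        ring
      · simp only [ha, hb, hc, he, hf, Fin.reduceFinMk, Fin.isValue, PiLp.toLp_apply,
          Matrix.cons_val, PiLp.zero_apply, Complex.ofReal_zero,
          Complex.ofReal_div, mul_zero, add_zero, zero_add]
        field_simp
    rw [hsame]
    exact hg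
  -- the sign
  obtain ⟨σ, hσ, hσm⟩ : ∃ σ : ℝ, σ ^ 2 = 1 ∧ (m : ℝ) * σ = |(m : ℝ)| := by
    rcases le_total 0 (m : ℝ) with h1 | h1
    · exact ⟨1, by norm_num, by rw [mul_one, abs_of_nonneg h1]⟩
    · exact ⟨-1, by norm_num, by rw [mul_neg, mul_one, abs_of_nonpos h1]⟩
  -- Fourier coefficient
  have hcoef : (∫ φ in (0 : ℝ)..(2 * π), evC p (cur a b c ((φ : ℂ) - ((σ * τ : ℝ) : ℂ) * Complex.I)) *
      Complex.exp (Complex.I * ((-m : ℤ) : ℂ) * (φ : ℂ))) =
      2 * π * (cf u v z m * ((Real.exp (|(m : ℝ)| * τ) : ℝ) : ℂ)) := by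
    have h1 : ∀ φ : ℝ, evC p (cur a b c ((φ : ℂ) - ((σ * τ : ℝ) : ℂ) * Complex.I)) *
        Complex.exp (Complex.I * ((-m : ℤ) : ℂ) * (φ : ℂ)) =
        ∑ k ∈ Finset.Icc (-(t : ℤ)) t, (cf u v z k * Complex.exp (((k : ℝ) * σ * τ : ℝ) : ℂ)) *
          Complex.exp (Complex.I * ((k - m : ℤ) : ℂ) * (φ : ℂ)) := by
      intro φ
      rw [ident p a b c _ _ hid, Finset.sum_mul]
      refine Finset.sum_congr rfl fun k _ => ?_
      rw [mul_assoc (cf u v z k), mul_assoc (cf u v z k), ← Complex.exp_add, ← Complex.exp_add]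
      congr 2
      push_cast
      linear_combination (-(k : ℂ) * (σ : ℂ) * (τ : ℂ)) * Complex.I_mul_I
    simp only [h1]
    rw [intervalIntegral.integral_finsetSum (fun k _ => exp_int _ _)]
    rw [Finset.sum_eq_single m]
    · rw [intervalIntegral.integral_const_mul, sub_self, int_exp, if_pos rfl, hσm]
      push_cast
      ring
    · intro k _ hk
      rw [intervalIntegral.integral_const_mul, int_exp, if_neg (sub_ne_zero.mpr hk), mul_zero]
    · intro hk
      exact absurd hmt hk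
  have hB0 : 0 ≤ B := (sq_nonneg _).trans (key σ hσ 0)
  have hbound : ‖(2 : ℂ) * π * (cf u v z m * ((Real.exp (|(m : ℝ)| * τ) : ℝ) : ℂ))‖ ≤
      √B * |2 * π - 0| := by
    rw [← hcoef]
    refine intervalIntegral.norm_integral_le_of_norm_le_const fun φ _ => ?_
    have h1 : Complex.I * ((-m : ℤ) : ℂ) * (φ : ℂ) = (((-m : ℤ) : ℝ) * φ : ℝ) * Complex.I := by
      push_cast
      ring
    rw [norm_mul, h1, Complex.norm_exp_ofReal_mul_I, mul_one]
    exact Real.le_sqrt_of_sq_le (key σ hσ φ)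
  have hpi : 0 < 2 * π := by positivity
  have hfin : Fm u v m z * Real.exp (|(m : ℝ)| * τ) ≤ √B := by
    have h2 : ‖(2 : ℂ) * (π : ℂ)‖ = 2 * π := by
      rw [norm_mul, Complex.norm_real, Real.norm_eq_abs, abs_of_pos Real.pi_pos]
      norm_num
    rw [norm_mul, h2, norm_mul, norm_cf hz, Complex.norm_real, Real.norm_eq_abs,
      abs_of_pos (Real.exp_pos _), sub_zero, abs_of_pos hpi, mul_comm (√B)] at hbound
    exact le_of_mul_le_mul_left hbound hpi
  have hsq : (Fm u v m z) ^ 2 * Real.exp (2 * |(m : ℝ)| * τ) ≤ B := by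
    have h3 : (Fm u v m z * Real.exp (|(m : ℝ)| * τ)) ^ 2 ≤ (√B) ^ 2 := by
      have h4 : 0 ≤ Fm u v m z * Real.exp (|(m : ℝ)| * τ) :=
        mul_nonneg (Real.sqrt_nonneg _) (Real.exp_nonneg _)
      exact pow_le_pow_left₀ h4 hfin 2
    rw [Real.sq_sqrt hB0, mul_pow, ← Real.exp_nat_mul] at h3
    have h5 : ((2 : ℕ) : ℝ) * (|(m : ℝ)| * τ) = 2 * |(m : ℝ)| * τ := by push_cast; ring
    rwa [h5] at h3
  have hexp : Real.exp (2 * (t : ℝ) * r - 2 * |(m : ℝ)| * τ) =
      Real.exp (2 * (t : ℝ) * r) / Real.exp (2 * |(m : ℝ)| * τ) := Real.exp_sub _ _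
  rw [hexp]
  have hpos : 0 < Real.exp (2 * |(m : ℝ)| * τ) := Real.exp_pos _
  have h6 : (Fm u v m z) ^ 2 ≤ B / Real.exp (2 * |(m : ℝ)| * τ) := by
    rw [le_div_iff₀ hpos]
    exact hsq
  refine h6.trans (le_of_eq ?_)
  rw [hB]
  ring

end Pool.Agent.Helper83.SE
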