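import Pool.Agent.Helper83.SE.Out
import Pool.Agent.Helper83.SD.EnLow

/-!
Project SE, module OutE: decay of high modes against the energy.

Apply `out` to `Lr 2 p`, whose modes are `(-m v_m, m u_m)` (`ev (Lr 2 p) (sp z φ)` is the
`φ`-derivative of `ev p (sp z φ)`), and `mu ((Lr 2 p)^2) ≤ en p`.
Corollaries with `τ = 0.3`, `r ≤ sinh r`, `sinh 0.3 ≤ 0.30453`:
`|m| ≥ n/2 ≥ 1.02 t √(1-z^2)`: exponent `≤ -0.0029 t √(1-z^2)`, `√(1-z^2) ≥ 0.0624`.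
-/

set_option autoImplicit false

open MeasureTheory Real Pool.Agent.Helper83.SD

namespace Pool.Agent.Helper83.SE

namespace OutE

theorem mu_L2_le (p : Poly) : mu ((Lr 2 p) ^ 2) ≤ en p := by
  have h : ∀ a : Fin 3, 0 ≤ mu (Lr a p * Lr a p) := fun a =>
    mu_nonneg fun x _ => by rw [ev_mul]; exact mul_self_nonneg _
  unfold en gr
  rw [Fin.sum_univ_three, sq]
  linarith [h 0, h 1]

theorem Fm_sq' {u v : ℤ → Polynomial ℝ} {m : ℤ} {z : ℝ} (hz : z ^ 2 ≤ 1) :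
    Fm u v m z ^ 2 =
      (1 - z ^ 2) ^ m.natAbs * (((u m).eval z) ^ 2 + ((v m).eval z) ^ 2) := by
  unfold Fm
  have h1 : 0 ≤ 1 - z ^ 2 := by linarith
  exact Real.sq_sqrt (by positivity)

theorem sinh_le : Real.sinh 0.3 ≤ 0.30453 := by
  have h1 := Real.exp_bound (x := 0.3) (by norm_num) (n := 6) (by norm_num)
  have h2 := Real.exp_bound (x := -0.3) (by norm_num) (n := 6) (by norm_num)
  rw [abs_le] at h1 h2
  norm_num [Finset.sum_range_succ, Nat.factorial] at h1 h2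
  rw [Real.sinh_eq]
  norm_num
  linarith [h1.2, h2.1]

theorem exists_r (s : ℝ) (hs : 0 ≤ s) (τ : ℝ) (hτ : 0 ≤ τ) :
    ∃ r : ℝ, 0 ≤ r ∧ Real.sinh r = s * Real.sinh τ ∧ r ≤ s * Real.sinh τ := by
  have h0 : 0 ≤ s * Real.sinh τ := mul_nonneg hs (Real.sinh_nonneg_iff.mpr hτ)
  have h1 : 0 ≤ Real.arsinh (s * Real.sinh τ) := Real.arsinh_nonneg_iff.mpr h0
  refine ⟨Real.arsinh (s * Real.sinh τ), h1, Real.sinh_arsinh _, ?_⟩
  have h2 := Real.self_le_sinh_iff.mpr h1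
  rwa [Real.sinh_arsinh] at h2

theorem sqrt_ge {z : ℝ} (h : 0.0039 ≤ 1 - z ^ 2) : 0.0624 ≤ √(1 - z ^ 2) := by
  apply Real.le_sqrt_of_sq_le
  norm_num at h ⊢
  linarith

end OutE

theorem out_en {t : ℕ} {p : Poly} {u v : ℤ → Polynomial ℝ} (hp : p.totalDegree ≤ t)
    (h : Modes t p u v) {z : ℝ} (hz : z ^ 2 ≤ 1) (m : ℤ) {τ r : ℝ} (hτ : 0 ≤ τ) (hr : 0 ≤ r)
    (hs : Real.sinh r = √(1 - z ^ 2) * Real.sinh τ) :
    ((m : ℝ) * Fm u v m z) ^ 2 ≤ (2 * (t : ℝ) + 1) * ((t : ℝ) + 1) ^ 2 *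
      Real.exp (2 * (t : ℝ) * r - 2 * |(m : ℝ)| * τ) * en p := by
  have h1 := out ((Lr_deg 2 p).trans hp) (EnLow.modes_phi h) hz m hτ hr hs
  have h2 : ((m : ℝ) * Fm u v m z) ^ 2 =
      (Fm (fun m => Polynomial.C (-(m : ℝ)) * v m) (fun m => Polynomial.C (m : ℝ) * u m) m z) ^ 2
      := by
    rw [mul_pow, OutE.Fm_sq' hz, OutE.Fm_sq' hz]
    simp only [Polynomial.eval_mul, Polynomial.eval_C]
    ring
  rw [h2]
  refine h1.trans ?_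
  exact mul_le_mul_of_nonneg_left (OutE.mu_L2_le p) (by positivity)

theorem out_half {t n : ℕ} {p : Poly} {u v : ℤ → Polynomial ℝ} (hp : p.totalDegree ≤ t)
    (h : Modes t p u v) {z : ℝ} (ho : OutR t n z) (m : ℤ) (hm : (n : ℝ) ≤ 2 * |(m : ℝ)|) :
    (Fm u v m z) ^ 2 ≤ (2 * (t : ℝ) + 1) * ((t : ℝ) + 1) ^ 2 *
      Real.exp (-(0.00018 * (t : ℝ))) * mu (p ^ 2) := by
  obtain ⟨r, hr, hs, hr2⟩ := OutE.exists_r (√(1 - z ^ 2)) (Real.sqrt_nonneg _) 0.3 (by norm_num)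
  have h1 := out hp h ho.z1 m (τ := 0.3) (r := r) (by norm_num) hr hs
  refine h1.trans ?_
  have hmu : 0 ≤ mu (p ^ 2) := mu_nonneg fun x _ => by rw [ev_pow]; positivity
  have hs0 := OutE.sqrt_ge ho.zz
  have hnn := ho.nn
  have ht : (0 : ℝ) ≤ t := Nat.cast_nonneg t
  have hsh := OutE.sinh_le
  obtain ⟨s, hs'⟩ : ∃ s : ℝ, s = √(1 - z ^ 2) := ⟨_, rfl⟩
  rw [← hs'] at hs0 hnn hr2
  have hts : 0 ≤ (t : ℝ) * s := by positivity
  have hE : 2 * (t : ℝ) * r - 2 * |(m : ℝ)| * 0.3 ≤ -(0.00018 * (t : ℝ)) := by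
    have a1 : r ≤ s * 0.30453 := hr2.trans (mul_le_mul_of_nonneg_left hsh (by linarith))
    have a2 : (t : ℝ) * r ≤ (t : ℝ) * (s * 0.30453) := mul_le_mul_of_nonneg_left a1 ht
    have a3 : (t : ℝ) * 0.0624 ≤ (t : ℝ) * s := mul_le_mul_of_nonneg_left hs0 ht
    nlinarith
  have := Real.exp_le_exp.mpr hE
  gcongr

theorem out_full {t n : ℕ} {p : Poly} {u v : ℤ → Polynomial ℝ} (hp : p.totalDegree ≤ t)
    (h : Modes t p u v) {z : ℝ} (ho : OutR t n z) (m : ℤ) (hm : (n : ℝ) ≤ |(m : ℝ)|) :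
    ((m : ℝ) * Fm u v m z) ^ 2 ≤ (2 * (t : ℝ) + 1) * ((t : ℝ) + 1) ^ 2 *
      Real.exp (-(0.03 * (t : ℝ))) * en p := by
  obtain ⟨r, hr, hs, hr2⟩ := OutE.exists_r (√(1 - z ^ 2)) (Real.sqrt_nonneg _) 0.3 (by norm_num)
  have h1 := out_en hp h ho.z1 m (τ := 0.3) (r := r) (by norm_num) hr hs
  refine h1.trans ?_
  have hmu : 0 ≤ en p :=
    (mu_nonneg fun x _ => by rw [ev_pow]; positivity).trans (OutE.mu_L2_le p)
  have hs0 := OutE.sqrt_ge ho.zz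
  have hnn := ho.nn
  have ht : (0 : ℝ) ≤ t := Nat.cast_nonneg t
  have hsh := OutE.sinh_le
  obtain ⟨s, hs'⟩ : ∃ s : ℝ, s = √(1 - z ^ 2) := ⟨_, rfl⟩
  rw [← hs'] at hs0 hnn hr2
  have hE : 2 * (t : ℝ) * r - 2 * |(m : ℝ)| * 0.3 ≤ -(0.03 * (t : ℝ)) := by
    have a1 : r ≤ s * 0.30453 := hr2.trans (mul_le_mul_of_nonneg_left hsh (by linarith))
    have a2 : (t : ℝ) * r ≤ (t : ℝ) * (s * 0.30453) := mul_le_mul_of_nonneg_left a1 ht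
    have a3 : (t : ℝ) * 0.0624 ≤ (t : ℝ) * s := mul_le_mul_of_nonneg_left hs0 ht
    nlinarith
  have := Real.exp_le_exp.mpr hE
  gcongr

end Pool.Agent.Helper83.SE
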