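import Pool.Agent.Helper83.SE.Lin
import Pool.Agent.Helper83.SD.Leg
import Pool.Agent.Helper83.SD.Mode
import Pool.Agent.Helper83.SD.Wt

/-!
Project SE, module PL: the pole functional of Legendre polynomials.

`λ = lam l`, `P_l(1+w) = 1 + λ w/2 + R(w)`, `|R(w)| ≤ Σ_{k≥2} (λ|w|/2)^k/k!^2` (Taylor, `v1 l k ≤
λ^k/(2^k k!)`).  `PF N 1 = 0`, `PF N (X - 1) = (181/720)/N`
(`(N/2)(25/36)/(2N^2) - (14/N)(7/240 - (5/6)/24)`), so the linear part is `g1 = (181/1440) λ/N`.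
The rest is `-(N/2) ∫_{-5/(6N)}^0 R - 14 ∫ y R wt`.
Upper bound: `R(w) ≥ 0` for `w ≥ -5/(6N)` (all Taylor coefficients are ≥ 0, and for `w < 0` the
terms `k ≥ 2` alternate and decrease: `λ|w|/2 ≤ 0.278`), so `PF ≤ g1`.
Lower bound: the rest is at most `14 Σ_{k≥2} q^k M_k/k!^2 + 3.5 Σ_{k≥2} q^k (5/42)^(k+1)/((k+1) k!^2)`
in absolute value with `q = 3.5 λ/N ≤ 2.3352`, `M_k = ∫ y |y^2 - 5/42|^k wt ≤ ∫ y^(2k+1) wt +
(5/42)^k/24` (`k = 2`: exactly `1/504 - (10/42)/240 + (5/42)^2/24 = 0.001583`): at `q = 2.3352` it is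
`< 0.05`, and it must be `≤ 2 g1 = 0.2514 λ/N = 0.0718 q` (`0.1677` at the top); since all terms
have `k ≥ 2` it is enough to check the top value (`q^k ≤ q * 2.3352^(k-1)`).
-/

set_option autoImplicit false

open MeasureTheory Real Pool.Agent.Helper83.SD

namespace Pool.Agent.Helper83.SE

/-! ### Taylor coefficients at 1 -/

private noncomputable def ta (l k : ℕ) : ℝ := (LegAux.Y l k).eval 1 / (k.factorial : ℝ)

private lemma ta_zero (l : ℕ) : ta l 0 = 1 := by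
  unfold ta
  rw [LegAux.Y_zero, LegAux.Pl_eval (by norm_num), one_pow, Nat.factorial_zero, Nat.cast_one, div_one]

private lemma ta_succ (l k : ℕ) :
    ta l (k + 1) = ((l : ℝ) * (l + 1) - k * (k + 1)) / (2 * ((k : ℝ) + 1) ^ 2) * ta l k := by
  have h := LegAux.Y_ode_eval l k 1
  unfold ta
  rw [Nat.factorial_succ]
  have h0 : (k.factorial : ℝ) ≠ 0 := by positivity
  have h1 : (k : ℝ) + 1 ≠ 0 := by positivity
  have h2 : (LegAux.Y l (k + 1)).eval 1 =
      ((l : ℝ) * (l + 1) - k * (k + 1)) / (2 * ((k : ℝ) + 1)) * (LegAux.Y l k).eval 1 := by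
    field_simp
    linarith
  rw [h2]
  push_cast
  field_simp

private lemma ta_gt (l : ℕ) (j : ℕ) : ta l (l + 1 + j) = 0 := by
  induction j with
  | zero =>
    rw [add_zero, ta_succ]
    simp
  | succ j ih =>
    rw [← add_assoc, ta_succ, ih, mul_zero]

private lemma ta_nonneg (l k : ℕ) : 0 ≤ ta l k := by
  rcases Nat.lt_or_ge l k with h | h
  · obtain ⟨j, rfl⟩ := Nat.exists_eq_add_of_le (Nat.succ_le_of_lt h)
    exact (ta_gt l j).ge
  · induction k with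
    | zero => rw [ta_zero]; exact zero_le_one
    | succ k ih =>
      rw [ta_succ]
      have h1 := ih (by omega)
      have h2 : (k : ℝ) + 1 ≤ l := by exact_mod_cast h
      have h3 : (0 : ℝ) ≤ k := Nat.cast_nonneg k
      refine mul_nonneg (div_nonneg ?_ (by positivity)) h1
      nlinarith

private lemma ta_succ_le (l k : ℕ) :
    ta l (k + 1) ≤ lam l / (2 * ((k : ℝ) + 1) ^ 2) * ta l k := by
  rw [ta_succ]
  refine mul_le_mul_of_nonneg_right ?_ (ta_nonneg l k)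
  unfold lam
  gcongr
  have h3 : (0 : ℝ) ≤ k := Nat.cast_nonneg k
  nlinarith

private lemma pl_expand (l : ℕ) : LegAux.Pl l =
    ∑ k ∈ Finset.range (l + 1), Polynomial.C (ta l k) * (Polynomial.X - 1) ^ k := by
  have h := Polynomial.sum_taylor_eq (LegAux.Pl l) (1 : ℝ)
  rw [Polynomial.sum_over_range _ (by intro n; simp), Polynomial.natDegree_taylor,
    LegAux.natDegree_Pl] at h
  rw [← h]
  refine Finset.sum_congr rfl fun k _ => ?_
  have h1 : (Polynomial.taylor (1 : ℝ) (LegAux.Pl l)).coeff k = ta l k := by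
    rw [Polynomial.taylor_coeff, ta, LegAux.Y]
    have e1 := congrArg (fun f : Polynomial ℝ → Polynomial ℝ => (f (LegAux.Pl l)).eval 1)
      (Polynomial.factorial_smul_hasseDeriv (R := ℝ) (k := k))
    simp only [LinearMap.smul_apply] at e1
    have h0 : (k.factorial : ℝ) ≠ 0 := by positivity
    rw [eq_div_iff h0, ← e1]
    simp [mul_comm]
  rw [h1, Polynomial.C_1]

/-! ### powers -/

private lemma pf_pow {N : ℝ} (hN : 0 < N) (k : ℕ) (hk : 1 ≤ k) :
    PF N ((Polynomial.X - 1) ^ k) = (N / 2) * ((-(5 / (6 * N))) ^ (k + 1) / ((k : ℝ) + 1))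
      - 14 * ∫ y in Set.Ioi (0 : ℝ), y * ((7 * y ^ 2 - 5 / 6) / N) ^ k * wt y := by
  unfold PF
  have h1 : ∫ z in (1 - 5 / (6 * N))..1, ((Polynomial.X - 1 : Polynomial ℝ) ^ k).eval z =
      - ((-(5 / (6 * N))) ^ (k + 1) / ((k : ℝ) + 1)) := by
    simp only [Polynomial.eval_pow, Polynomial.eval_sub, Polynomial.eval_X, Polynomial.eval_one]
    rw [intervalIntegral.integral_comp_sub_right (fun z => z ^ k) 1, integral_pow]
    have : (1 : ℝ) - 1 = 0 := by norm_num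
    rw [this, zero_pow (by omega)]
    have e : 1 - 5 / (6 * N) - 1 = -(5 / (6 * N)) := by ring
    rw [e]
    ring
  rw [h1]
  simp only [Polynomial.eval_pow, Polynomial.eval_sub, Polynomial.eval_X, Polynomial.eval_one,
    sub_self, add_sub_cancel_left]
  rw [zero_pow (by omega)]
  ring

private lemma pow_le_add {a b : ℝ} (ha : 0 ≤ a) (hb : 0 ≤ b) (k : ℕ) :
    |a - b| ^ k ≤ a ^ k + b ^ k := by
  rcases le_total a b with h | h
  · rw [abs_of_nonpos (by linarith)]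
    have : (-(a - b)) ^ k ≤ b ^ k := pow_le_pow_left₀ (by linarith) (by linarith) k
    have := pow_nonneg ha k
    linarith
  · rw [abs_of_nonneg (by linarith)]
    have : (a - b) ^ k ≤ a ^ k := pow_le_pow_left₀ (by linarith) (by linarith) k
    have := pow_nonneg hb k
    linarith

/-- the moments -/
private noncomputable def mm (k : ℕ) : ℝ := ∫ y in Set.Ioi (0 : ℝ), y ^ (2 * k + 1) * wt y

private lemma mm_zero : mm 0 = 1 / 24 := by
  unfold mm
  rw [← moment_one]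
  simp

private lemma int_bound {N : ℝ} (hN : 0 < N) (k : ℕ) :
    |∫ y in Set.Ioi (0 : ℝ), y * ((7 * y ^ 2 - 5 / 6) / N) ^ k * wt y| ≤
      (7 ^ k * mm k + (5 / 6) ^ k / 24) / N ^ k := by
  have hi1 := int_wt0 (2 * k + 1) (by omega)
  have hi2 := int_wt0 1 le_rfl
  have hg : Integrable (fun y : ℝ => 1 / N ^ k * (7 ^ k * (y ^ (2 * k + 1) * wt y) +
      (5 / 6) ^ k * (y ^ 1 * wt y))) (volume.restrict (Set.Ioi 0)) :=
    ((hi1.const_mul _).add (hi2.const_mul _)).const_mul _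
  have h := norm_integral_le_of_norm_le (μ := volume.restrict (Set.Ioi (0 : ℝ)))
    (f := fun y : ℝ => y * ((7 * y ^ 2 - 5 / 6) / N) ^ k * wt y) hg (by
      refine (ae_restrict_iff' measurableSet_Ioi).mpr (ae_of_all _ (fun y hy => ?_))
      have hy' : 0 < y := hy
      have hw := wt_pos hy'
      rw [Real.norm_eq_abs, abs_mul, abs_mul, abs_of_pos hy', abs_of_pos hw, abs_pow, abs_div,
        abs_of_pos hN, div_pow]
      have h1 := pow_le_add (a := 7 * y ^ 2) (b := 5 / 6) (by positivity) (by norm_num) k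
      have h2 : y * (|7 * y ^ 2 - 5 / 6| ^ k / N ^ k) * wt y ≤
          y * (((7 * y ^ 2) ^ k + (5 / 6) ^ k) / N ^ k) * wt y := by
        gcongr
      refine h2.trans (le_of_eq ?_)
      rw [mul_pow, ← pow_mul]
      ring)
  rw [Real.norm_eq_abs] at h
  refine h.trans (le_of_eq ?_)
  rw [integral_const_mul, integral_add (hi1.const_mul _) (hi2.const_mul _), integral_const_mul,
    integral_const_mul]
  have e1 : ∫ y in Set.Ioi (0 : ℝ), y ^ 1 * wt y = 1 / 24 := by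
    rw [← moment_one]
    simp
  rw [e1, mm]
  ring

/-- bound for the coefficients -/
private noncomputable def ck (k : ℕ) : ℝ := 14 * 7 ^ k * mm k + 13 / 18 * (5 / 6) ^ k

private lemma pf_pow_le {N : ℝ} (hN : 0 < N) (k : ℕ) (hk : 2 ≤ k) :
    |PF N ((Polynomial.X - 1) ^ k)| ≤ ck k / N ^ k := by
  rw [pf_pow hN k (by omega)]
  have h1 := int_bound hN k
  have h2 : |(N / 2) * ((-(5 / (6 * N))) ^ (k + 1) / ((k : ℝ) + 1))| ≤
      5 / 36 * (5 / 6) ^ k / N ^ k := by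
    have hk' : (2 : ℝ) ≤ k := by exact_mod_cast hk
    rw [abs_mul, abs_of_pos (by positivity : (0:ℝ) < N / 2), abs_div, abs_pow, abs_neg,
      abs_of_pos (by positivity : (0:ℝ) < 5 / (6 * N)), abs_of_pos (by positivity : (0:ℝ) < (k:ℝ) + 1)]
    have e : (N / 2) * ((5 / (6 * N)) ^ (k + 1) / ((k : ℝ) + 1)) =
        (5 / 6) ^ k / N ^ k * (5 / 12 / ((k : ℝ) + 1)) := by
      have e0 : (5 / (6 * N)) = (5 / 6) / N := by field_simp
      rw [e0, div_pow, pow_succ, pow_succ]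
      have hN' : N ≠ 0 := hN.ne'
      field_simp
      norm_num
    rw [e]
    have e2 : 5 / 12 / ((k : ℝ) + 1) ≤ 5 / 36 := by
      rw [div_le_iff₀ (by positivity)]
      linarith
    have e3 : (0 : ℝ) ≤ (5 / 6) ^ k / N ^ k := by positivity
    calc (5 / 6) ^ k / N ^ k * (5 / 12 / ((k : ℝ) + 1)) ≤ (5 / 6) ^ k / N ^ k * (5 / 36) :=
          mul_le_mul_of_nonneg_left e2 e3
      _ = _ := by ring
  have h3 := abs_sub ((N / 2) * ((-(5 / (6 * N))) ^ (k + 1) / ((k : ℝ) + 1)))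
    (14 * ∫ y in Set.Ioi (0 : ℝ), y * ((7 * y ^ 2 - 5 / 6) / N) ^ k * wt y)
  rw [abs_mul 14, abs_of_pos (by norm_num : (0:ℝ) < 14)] at h3
  refine h3.trans ?_
  have h4 : ck k / N ^ k = 5 / 36 * (5 / 6) ^ k / N ^ k +
      14 * ((7 ^ k * mm k + (5 / 6) ^ k / 24) / N ^ k) := by
    unfold ck
    ring
  rw [h4]
  linarith

private lemma mm_le (k : ℕ) (hk : 3 ≤ k) :
    mm k ≤ 1.01 * ((2 * k + 1).factorial : ℝ) / (2 * π) ^ (2 * k + 2) :=
  moment_le (2 * k + 1) (by omega)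

theorem pf_lin_one {N : ℝ} (hN : 0 < N) :
    PF N (Polynomial.X - 1) = 181 / 720 / N := by
  have h := pf_pow hN 1 le_rfl
  rw [pow_one] at h
  rw [h]
  have hi1 := int_wt0 3 (by omega)
  have hi2 := int_wt0 1 le_rfl
  have e : ∫ y in Set.Ioi (0 : ℝ), y * ((7 * y ^ 2 - 5 / 6) / N) ^ 1 * wt y =
      7 / N * (1 / 240) - 5 / (6 * N) * (1 / 24) := by
    have e1 : ∀ y : ℝ, y * ((7 * y ^ 2 - 5 / 6) / N) ^ 1 * wt y =
        7 / N * (y ^ 3 * wt y) - 5 / (6 * N) * (y ^ 1 * wt y) := by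
      intro y
      have hN' : N ≠ 0 := hN.ne'
      field_simp
    simp_rw [e1]
    rw [integral_sub (hi1.const_mul _) (hi2.const_mul _), integral_const_mul, integral_const_mul,
      moment_three]
    congr 2
    rw [← moment_one]
    simp
  rw [e]
  have hN' : N ≠ 0 := hN.ne'
  have e2 : (-(5 / (6 * N))) ^ (1 + 1) = 25 / 36 / N ^ 2 := by
    rw [neg_pow, div_pow, mul_pow]
    field_simp
    norm_num
    ring
  rw [e2]
  push_cast
  field_simp
  norm_num

private lemma pf_two {N : ℝ} (hN : 0 < N) :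
    PF N ((Polynomial.X - 1) ^ 2) ≤ -1.18 / N ^ 2 ∧ -1.19 / N ^ 2 ≤ PF N ((Polynomial.X - 1) ^ 2) := by
  rw [pf_pow hN 2 (by norm_num)]
  have hi0 := int_wt0 5 (by omega)
  have hi1 := int_wt0 3 (by omega)
  have hi2 := int_wt0 1 le_rfl
  have e : ∫ y in Set.Ioi (0 : ℝ), y * ((7 * y ^ 2 - 5 / 6) / N) ^ 2 * wt y =
      49 / N ^ 2 * (1 / 504) - 70 / 6 / N ^ 2 * (1 / 240) + 25 / 36 / N ^ 2 * (1 / 24) := by
    have e1 : ∀ y : ℝ, y * ((7 * y ^ 2 - 5 / 6) / N) ^ 2 * wt y =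
        49 / N ^ 2 * (y ^ 5 * wt y) - 70 / 6 / N ^ 2 * (y ^ 3 * wt y)
          + 25 / 36 / N ^ 2 * (y ^ 1 * wt y) := by
      intro y
      have hN' : N ≠ 0 := hN.ne'
      field_simp
      ring
    simp_rw [e1]
    have hs : Integrable (fun y : ℝ => 49 / N ^ 2 * (y ^ 5 * wt y) - 70 / 6 / N ^ 2 * (y ^ 3 * wt y))
        (volume.restrict (Set.Ioi 0)) := (hi0.const_mul _).sub (hi1.const_mul _)
    rw [integral_add hs (hi2.const_mul _),
      integral_sub (hi0.const_mul _) (hi1.const_mul _), integral_const_mul, integral_const_mul,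
      integral_const_mul, moment_three, moment_five]
    congr 2
    rw [← moment_one]
    simp
  rw [e]
  have hN' : N ≠ 0 := hN.ne'
  have e2 : (N / 2) * ((-(5 / (6 * N))) ^ (2 + 1) / (((2 : ℕ) : ℝ) + 1)) -
      14 * (49 / N ^ 2 * (1 / 504) - 70 / 6 / N ^ 2 * (1 / 240) + 25 / 36 / N ^ 2 * (1 / 24)) =
      (-(125 / 1296) - 14 * (49 / 504 - 70 / 6 / 240 + 25 / 36 / 24)) / N ^ 2 := by
    have e3 : (-(5 / (6 * N))) ^ (2 + 1) = -(125 / 216) / N ^ 3 := by
      rw [neg_pow, div_pow, mul_pow]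
      field_simp
      norm_num
      ring
    rw [e3]
    push_cast
    field_simp
    norm_num
  rw [e2]
  constructor
  · gcongr
    norm_num
  · gcongr
    norm_num

/-! ### the series -/

private lemma two_pi_sq : (39.43 : ℝ) ≤ (2 * π) ^ 2 := by
  have h := Real.pi_gt_d2
  nlinarith

/-- main part of the bound, relative to `k = 2` -/
private lemma series_main {x : ℝ} (hx0 : 0 ≤ x) (hx : x ≤ 0.6672) (k : ℕ) :
    4 * (x / 2) ^ (k + 1) * (14 * 7 ^ (k + 3) *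
      (1.01 * ((2 * (k + 3) + 1).factorial : ℝ) / (2 * π) ^ (2 * (k + 3) + 2))) /
      (((k + 3).factorial : ℝ)) ^ 2 ≤ 0.38 * 0.3 ^ k := by
  have hP := two_pi_sq
  have e0 : (2 * π) ^ (2 * (k + 3) + 2) = ((2 * π) ^ 2) ^ (k + 4) := by
    rw [← pow_mul]
    congr 1
  rw [e0]
  set P : ℝ := (2 * π) ^ 2 with hPdef
  have hP0 : 0 < P := by linarith
  clear_value P
  clear e0
  induction k with
  | zero =>
    have h1 : (39.43 : ℝ) ^ 4 ≤ P ^ 4 := pow_le_pow_left₀ (by norm_num) hP 4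
    have f1 : ((2 * (0 + 3) + 1).factorial : ℝ) = 5040 := by norm_num [Nat.factorial]
    have f2 : ((0 + 3).factorial : ℝ) = 6 := by norm_num [Nat.factorial]
    rw [f1, f2]
    have h2 : 1.01 * (5040 : ℝ) / P ^ (0 + 4) ≤ 1.01 * 5040 / 39.43 ^ 4 := by
      rw [zero_add]
      gcongr
    have h3 : 4 * (x / 2) ^ (0 + 1) ≤ 4 * (0.6672 / 2) := by
      rw [zero_add, pow_one]
      linarith
    calc 4 * (x / 2) ^ (0 + 1) * (14 * 7 ^ (0 + 3) * (1.01 * (5040 : ℝ) / P ^ (0 + 4))) / 6 ^ 2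
        ≤ 4 * (0.6672 / 2) * (14 * 7 ^ (0 + 3) * (1.01 * 5040 / 39.43 ^ 4)) / 6 ^ 2 := by
          gcongr
      _ ≤ 0.38 * 0.3 ^ 0 := by norm_num
  | succ k ih =>
    have h1 : ((2 * (k + 1 + 3) + 1).factorial : ℝ) =
        (2 * (k : ℝ) + 9) * (2 * (k : ℝ) + 8) * ((2 * (k + 3) + 1).factorial : ℝ) := by
      have : 2 * (k + 1 + 3) + 1 = (2 * (k + 3) + 1) + 1 + 1 := by ring
      rw [this, Nat.factorial_succ, Nat.factorial_succ]
      push_cast
      ring
    have h2 : ((k + 1 + 3).factorial : ℝ) = ((k : ℝ) + 4) * ((k + 3).factorial : ℝ) := by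
      have : k + 1 + 3 = (k + 3) + 1 := by ring
      rw [this, Nat.factorial_succ]
      push_cast
      ring
    have hF : ((k + 3).factorial : ℝ) ≠ 0 := by positivity
    have hk4 : (k : ℝ) + 4 ≠ 0 := by positivity
    have e : 4 * (x / 2) ^ (k + 1 + 1) * (14 * 7 ^ (k + 1 + 3) *
        (1.01 * ((2 * (k + 1 + 3) + 1).factorial : ℝ) / P ^ (k + 1 + 4))) /
        (((k + 1 + 3).factorial : ℝ)) ^ 2 =
        (4 * (x / 2) ^ (k + 1) * (14 * 7 ^ (k + 3) *
        (1.01 * ((2 * (k + 3) + 1).factorial : ℝ) / P ^ (k + 4))) /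
        (((k + 3).factorial : ℝ)) ^ 2) * (7 * x * (2 * (k : ℝ) + 9) / (P * ((k : ℝ) + 4))) := by
      rw [h1, h2]
      have p1 : (x / 2) ^ (k + 1 + 1) = (x / 2) ^ (k + 1) * (x / 2) := pow_succ _ _
      have p2 : (7 : ℝ) ^ (k + 1 + 3) = 7 ^ (k + 3) * 7 := by ring
      have p3 : P ^ (k + 1 + 4) = P ^ (k + 4) * P := by ring
      rw [p1, p2, p3]
      have hPk : P ^ (k + 4) ≠ 0 := by positivity
      have hP1 : P ≠ 0 := hP0.ne'
      field_simp
      ring
    rw [e]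
    have h3 : 7 * x * (2 * (k : ℝ) + 9) / (P * ((k : ℝ) + 4)) ≤ 0.3 := by
      have hk : (0 : ℝ) ≤ k := Nat.cast_nonneg k
      rw [div_le_iff₀ (by positivity)]
      have h4 : 7 * x * (2 * (k : ℝ) + 9) ≤ 7 * 0.6672 * (2 * (k : ℝ) + 9) := by gcongr
      have h5 : 39.43 * ((k : ℝ) + 4) ≤ P * ((k : ℝ) + 4) := by gcongr
      linarith
    have h4 : (0 : ℝ) ≤ 7 * x * (2 * (k : ℝ) + 9) / (P * ((k : ℝ) + 4)) := by positivity
    calc _ ≤ (0.38 * 0.3 ^ k) * (7 * x * (2 * (k : ℝ) + 9) / (P * ((k : ℝ) + 4))) :=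
          mul_le_mul_of_nonneg_right ih h4
      _ ≤ (0.38 * 0.3 ^ k) * 0.3 := by gcongr
      _ = _ := by ring

private lemma series_snd {x : ℝ} (hx0 : 0 ≤ x) (hx : x ≤ 0.6672) (k : ℕ) :
    4 * (x / 2) ^ (k + 1) * (13 / 18 * (5 / 6) ^ (k + 3)) /
      (((k + 3).factorial : ℝ)) ^ 2 ≤ 0.02 * 0.3 ^ k := by
  have hF : (6 : ℝ) ≤ ((k + 3).factorial : ℝ) := by
    have : Nat.factorial 3 ≤ (k + 3).factorial := Nat.factorial_le (by omega)
    exact_mod_cast this
  have hF2 : (36 : ℝ) ≤ ((k + 3).factorial : ℝ) ^ 2 := by nlinarith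
  rw [div_le_iff₀ (by positivity)]
  have h1 : (x / 2) ^ (k + 1) * (5 / 6) ^ (k + 3) = (x / 2 * (5 / 6)) ^ k * (x / 2 * (5 / 6) ^ 3) := by
    rw [mul_pow]
    ring
  have h2 : (x / 2 * (5 / 6)) ^ k ≤ 0.3 ^ k := pow_le_pow_left₀ (by positivity) (by linarith) k
  have h3 : x / 2 * (5 / 6) ^ 3 ≤ 0.194 := by norm_num; linarith
  calc 4 * (x / 2) ^ (k + 1) * (13 / 18 * (5 / 6) ^ (k + 3))
      = 26 / 9 * ((x / 2) ^ (k + 1) * (5 / 6) ^ (k + 3)) := by ring
    _ = 26 / 9 * ((x / 2 * (5 / 6)) ^ k * (x / 2 * (5 / 6) ^ 3)) := by rw [h1]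
    _ ≤ 26 / 9 * (0.3 ^ k * 0.194) := by gcongr
    _ ≤ 0.02 * 0.3 ^ k * 36 := by
        have : (0 : ℝ) < 0.3 ^ k := by positivity
        linarith
    _ ≤ _ := by gcongr

/-- Taylor coefficients relative to the second one -/
private lemma ta_le (l k : ℕ) :
    ta l (k + 2) ≤ ta l 2 * ((lam l / 2) ^ k * 4 / (((k + 2).factorial : ℝ)) ^ 2) := by
  induction k with
  | zero =>
    have : ((0 + 2).factorial : ℝ) = 2 := by norm_num [Nat.factorial]
    rw [this]
    norm_num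
  | succ k ih =>
    have h1 := ta_succ_le l (k + 2)
    have h2 : (0 : ℝ) ≤ lam l / (2 * (((k + 2 : ℕ) : ℝ) + 1) ^ 2) := by
      have := lam_nonneg l
      positivity
    have h3 : k + 1 + 2 = (k + 2) + 1 := by ring
    rw [h3]
    refine h1.trans ((mul_le_mul_of_nonneg_left ih h2).trans (le_of_eq ?_))
    have hf : ((k + 2 + 1).factorial : ℝ) = ((k : ℝ) + 3) * ((k + 2).factorial : ℝ) := by
      rw [Nat.factorial_succ (k + 2)]
      push_cast
      ring
    rw [hf, pow_succ (lam l / 2) k]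
    have hF : ((k + 2).factorial : ℝ) ≠ 0 := by positivity
    have hk4 : (k : ℝ) + 3 ≠ 0 := by positivity
    have hk5 : ((k + 2 : ℕ) : ℝ) + 1 = (k : ℝ) + 3 := by
      push_cast
      ring
    rw [hk5]
    field_simp

private lemma term_le {N : ℝ} {l : ℕ} (hN : 0 < N) (hl : lam l ≤ 0.6672 * N) (k : ℕ) :
    ta l (k + 3) * |PF N ((Polynomial.X - 1) ^ (k + 3))| ≤ ta l 2 / N ^ 2 * (0.4 * 0.3 ^ k) := by
  have hx0 : 0 ≤ lam l / N := div_nonneg (lam_nonneg l) hN.le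
  have hx : lam l / N ≤ 0.6672 := by rwa [div_le_iff₀ hN]
  have h1 := series_main hx0 hx k
  have h2 := series_snd hx0 hx k
  have h3 := ta_le l (k + 1)
  have h4 := pf_pow_le hN (k + 3) (by omega)
  have h5 := mm_le (k + 3) (by omega)
  have e1 : k + 1 + 2 = k + 3 := by ring
  rw [e1] at h3
  have hck : ck (k + 3) ≤ 14 * 7 ^ (k + 3) *
      (1.01 * ((2 * (k + 3) + 1).factorial : ℝ) / (2 * π) ^ (2 * (k + 3) + 2)) +
      13 / 18 * (5 / 6) ^ (k + 3) := by
    unfold ck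
    gcongr
  set B : ℝ := 14 * 7 ^ (k + 3) *
      (1.01 * ((2 * (k + 3) + 1).factorial : ℝ) / (2 * π) ^ (2 * (k + 3) + 2)) with hB
  set D : ℝ := 13 / 18 * (5 / 6) ^ (k + 3) with hD
  have ht2 := ta_nonneg l 2
  have ht3 := ta_nonneg l (k + 3)
  have hlam := lam_nonneg l
  calc ta l (k + 3) * |PF N ((Polynomial.X - 1) ^ (k + 3))|
      ≤ (ta l 2 * ((lam l / 2) ^ (k + 1) * 4 / (((k + 3).factorial : ℝ)) ^ 2)) *
        ((B + D) / N ^ (k + 3)) := by
        refine mul_le_mul h3 (h4.trans ?_) (abs_nonneg _) ?_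
        · gcongr
        · positivity
    _ = ta l 2 / N ^ 2 * (4 * (lam l / N / 2) ^ (k + 1) * B / (((k + 3).factorial : ℝ)) ^ 2 +
        4 * (lam l / N / 2) ^ (k + 1) * D / (((k + 3).factorial : ℝ)) ^ 2) := by
        have e2 : lam l / N / 2 = (lam l / 2) / N := by ring
        have e3 : N ^ (k + 3) = N ^ (k + 1) * N ^ 2 := by ring
        obtain ⟨L, hL⟩ : ∃ L : ℝ, L = lam l / 2 := ⟨_, rfl⟩
        rw [e2, ← hL, div_pow, e3]
        have hF : ((k + 3).factorial : ℝ) ≠ 0 := by positivity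
        have hN1 : N ^ (k + 1) ≠ 0 := by positivity
        have hN2 : N ≠ 0 := hN.ne'
        field_simp
    _ ≤ ta l 2 / N ^ 2 * (0.4 * 0.3 ^ k) := by
        refine mul_le_mul_of_nonneg_left ?_ (by positivity)
        linarith

private lemma geo_le (l : ℕ) : ∑ k ∈ Finset.range l, (0.3 : ℝ) ^ k ≤ 10 / 7 := by
  have h := geom_sum_eq (show (0.3 : ℝ) ≠ 1 by norm_num) l
  rw [h]
  have : (0 : ℝ) < 0.3 ^ l := by positivity
  rw [div_le_iff_of_neg (by norm_num)]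
  norm_num

theorem pf_leg {N : ℝ} {l : ℕ} (hN : 0 < N) (hl : lam l ≤ 0.6672 * N) :
    |PF N (LegAux.Pl l)| ≤ 181 / 1440 * lam l / N := by
  obtain ⟨Φ, hΦ⟩ := pf_lin N
  have h1 : LegAux.Pl l =
      ∑ k ∈ Finset.range (l + 3), Polynomial.C (ta l k) * (Polynomial.X - 1) ^ k := by
    rw [Finset.sum_range_succ, Finset.sum_range_succ, ← pl_expand]
    have a1 := ta_gt l 0
    have a2 := ta_gt l 1
    rw [add_zero] at a1
    have e : l + 1 + 1 = l + 2 := rfl
    rw [a1, a2]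
    simp
  have h2 : PF N (LegAux.Pl l) =
      ∑ k ∈ Finset.range (l + 3), ta l k * PF N ((Polynomial.X - 1) ^ k) := by
    rw [← hΦ, h1, map_sum]
    refine Finset.sum_congr rfl fun k _ => ?_
    rw [← Polynomial.smul_eq_C_mul, map_smul, smul_eq_mul, hΦ]
  rw [Finset.sum_range_succ', Finset.sum_range_succ', Finset.sum_range_succ'] at h2
  have p0 : PF N ((Polynomial.X - 1) ^ 0) = 0 := by
    have := pf_C hN.ne' 1
    rw [pow_zero]
    rwa [Polynomial.C_1] at this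
  have p1 := pf_lin_one hN
  obtain ⟨p2, p2'⟩ := pf_two hN
  have t1 : ta l 1 = lam l / 2 := by
    have := ta_succ l 0
    rw [zero_add, ta_zero] at this
    rw [this]
    unfold lam
    push_cast
    ring
  have t2 : ta l 2 ≤ lam l ^ 2 / 16 := by
    have := ta_succ_le l 1
    rw [t1] at this
    refine this.trans (le_of_eq ?_)
    push_cast
    ring
  have ht2 := ta_nonneg l 2
  have hE : |∑ k ∈ Finset.range l, ta l (k + 1 + 1 + 1) *
      PF N ((Polynomial.X - 1) ^ (k + 1 + 1 + 1))| ≤ ta l 2 / N ^ 2 * (4 / 7) := by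
    refine (Finset.abs_sum_le_sum_abs _ _).trans ?_
    calc ∑ k ∈ Finset.range l, |ta l (k + 1 + 1 + 1) * PF N ((Polynomial.X - 1) ^ (k + 1 + 1 + 1))|
        ≤ ∑ k ∈ Finset.range l, ta l 2 / N ^ 2 * (0.4 * 0.3 ^ k) := by
          refine Finset.sum_le_sum fun k _ => ?_
          rw [abs_mul, abs_of_nonneg (ta_nonneg l _)]
          exact term_le hN hl k
      _ = ta l 2 / N ^ 2 * (0.4 * ∑ k ∈ Finset.range l, 0.3 ^ k) := by
          rw [Finset.mul_sum, Finset.mul_sum]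
      _ ≤ ta l 2 / N ^ 2 * (0.4 * (10 / 7)) := by
          have := geo_le l
          gcongr
      _ = _ := by ring
  rw [p0, mul_zero, add_zero] at h2
  simp only [zero_add, pow_one] at h2
  have e2 : (1 : ℕ) + 1 = 2 := rfl
  rw [e2, t1, p1] at h2
  have hlam := lam_nonneg l
  obtain ⟨hE1, hE2⟩ := abs_le.mp hE
  have hN2 : (0 : ℝ) < N ^ 2 := by positivity
  have u1 : ta l 2 * PF N ((Polynomial.X - 1) ^ 2) ≤ ta l 2 * (-1.18 / N ^ 2) :=
    mul_le_mul_of_nonneg_left p2 ht2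
  have u2 : ta l 2 * (-1.19 / N ^ 2) ≤ ta l 2 * PF N ((Polynomial.X - 1) ^ 2) :=
    mul_le_mul_of_nonneg_left p2' ht2
  have v0 : 0 ≤ ta l 2 / N ^ 2 := by positivity
  have v1 : ta l 2 * (-1.18 / N ^ 2) = -1.18 * (ta l 2 / N ^ 2) := by ring
  have v2 : ta l 2 * (-1.19 / N ^ 2) = -1.19 * (ta l 2 / N ^ 2) := by ring
  have v3 : lam l / 2 * (181 / 720 / N) = 181 / 1440 * (lam l / N) := by ring
  have v4 : ta l 2 / N ^ 2 ≤ 0.0417 * (lam l / N) := by
    have hx : lam l / N ≤ 0.6672 := by rwa [div_le_iff₀ hN]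
    have hx0 : 0 ≤ lam l / N := div_nonneg hlam hN.le
    calc ta l 2 / N ^ 2 ≤ (lam l ^ 2 / 16) / N ^ 2 := by gcongr
      _ = (lam l / N) * (lam l / N) / 16 := by
          have : N ≠ 0 := hN.ne'
          field_simp
      _ ≤ 0.6672 * (lam l / N) / 16 := by gcongr
      _ = _ := by ring
  have v5 : 181 / 1440 * lam l / N = 181 / 1440 * (lam l / N) := by ring
  have hx0 : 0 ≤ lam l / N := div_nonneg hlam hN.le
  rw [v5, abs_le]
  rw [v1] at u1
  rw [v2] at u2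
  rw [v3] at h2
  constructor
  · linarith
  · linarith

end Pool.Agent.Helper83.SE
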