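import Pool.Agent.Helper83.SE.Expd

/-!
Project SE, module TayB: polynomials near (and beyond) the pole.

Taylor: `Y l m (1+w) = Σ_k v1 l (m+k) w^k/k!`, `v1 l (m+k) = aa l (m+k)/(2^(m+k) (m+k)!) ≤
aa l m λ^k/(2^(m+k) (m+k)!)` (`Mode.aa_le`), so
`|Y l m (1+w)| ≤ (aa l m/2^m) Σ_{k ≤ l-m} (λ|w|/2)^k/(k! (m+k)!)` and
`|P_l(1+w) - 1| ≤ Σ_{1≤k≤l} (λ|w|/2)^k/k!^2`.  Square: the coefficient of `(λ|w|/2)^n` is at most
`Σ_{a+b=n, a,b≥1} 1/(a!^2 b!^2) = (C(2n,n) - 2)/n!^2`, resp.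
`Σ_{a+b=n-m} 1/(a!(m+a)! b!(m+b)!) = C(2n, n-m)/n!^2`.  Then `cs_modes` with
`Φ = eval(1+w) - eval 1`, resp. `Φ = eval (1+w)`, `aa l m ≤ λ^m`, and `sum_lam`:
`Σ_l (2l+1) λ_l^n ≤ T^(n+1)/(n+1)`.  Note `|1-(1+w)^2|/4 = (|w|/2) |1 + w/2|`.
-/

set_option autoImplicit false

open MeasureTheory Real Pool.Agent.Helper83.SD

namespace Pool.Agent.Helper83.SE

namespace TayBAux

open Finset

/-- square of a power sum with nonnegative coefficients -/
lemma sq_sum_le (u : ℕ → ℝ) (hu : ∀ k, 0 ≤ u k) {x : ℝ} (hx : 0 ≤ x) (K : ℕ) :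
    (∑ k ∈ range (K + 1), u k * x ^ k) ^ 2 ≤
      ∑ n ∈ range (2 * K + 1), (∑ p ∈ antidiagonal n, u p.1 * u p.2) * x ^ n := by
  have h1 : (∑ k ∈ range (K + 1), u k * x ^ k) ^ 2 =
      ∑ p ∈ range (K + 1) ×ˢ range (K + 1), (u p.1 * u p.2) * x ^ (p.1 + p.2) := by
    rw [sq, Finset.sum_mul_sum, ← Finset.sum_product']
    refine Finset.sum_congr rfl fun p _ => ?_
    rw [pow_add]
    ring
  rw [h1, ← Finset.sum_fiberwise_of_maps_to (t := range (2 * K + 1)) (g := fun p => p.1 + p.2)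
    (fun p hp => by
      rw [Finset.mem_product, Finset.mem_range, Finset.mem_range] at hp
      rw [Finset.mem_range]
      omega)]
  refine Finset.sum_le_sum fun n _ => ?_
  rw [Finset.sum_mul]
  have h2 : ∑ p ∈ (range (K + 1) ×ˢ range (K + 1)).filter (fun p => p.1 + p.2 = n),
      (u p.1 * u p.2) * x ^ (p.1 + p.2) =
      ∑ p ∈ (range (K + 1) ×ˢ range (K + 1)).filter (fun p => p.1 + p.2 = n),
        (u p.1 * u p.2) * x ^ n := by
    refine Finset.sum_congr rfl fun p hp => ?_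
    rw [(Finset.mem_filter.1 hp).2]
  rw [h2]
  refine Finset.sum_le_sum_of_subset_of_nonneg ?_ fun p _ _ =>
    mul_nonneg (mul_nonneg (hu _) (hu _)) (pow_nonneg hx _)
  intro p hp
  exact Finset.HasAntidiagonal.mem_antidiagonal.2 (Finset.mem_filter.1 hp).2

/-- coefficients at the pole, mode `m` -/
noncomputable def um (m k : ℕ) : ℝ := 1 / ((k.factorial : ℝ) * ((m + k).factorial : ℝ))

lemma um_nonneg (m k : ℕ) : 0 ≤ um m k := by
  unfold um
  positivity

lemma fac_ne (n : ℕ) : (n.factorial : ℝ) ≠ 0 := by exact_mod_cast n.factorial_ne_zero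

/-- Vandermonde for the coefficients -/
lemma um_conv (m s : ℕ) : ∑ p ∈ antidiagonal s, um m p.1 * um m p.2 =
    ((2 * (m + s)).choose s : ℝ) / ((m + s).factorial : ℝ) ^ 2 := by
  have h1 := Nat.add_choose_eq (m + s) (m + s) s
  have h2 : ((2 * (m + s)).choose s : ℝ) =
      ∑ p ∈ antidiagonal s, ((m + s).choose p.1 : ℝ) * ((m + s).choose p.2 : ℝ) := by
    rw [two_mul, h1]
    push_cast
    rfl
  rw [h2, Finset.sum_div]
  refine Finset.sum_congr rfl fun p hp => ?_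
  have h3 : p.1 + p.2 = s := Finset.HasAntidiagonal.mem_antidiagonal.1 hp
  have h4 : ((m + s).choose p.1 : ℝ) =
      ((m + s).factorial : ℝ) / ((p.1.factorial : ℝ) * ((m + p.2).factorial : ℝ)) := by
    rw [Nat.cast_choose ℝ (by omega : p.1 ≤ m + s)]
    have : m + s - p.1 = m + p.2 := by omega
    rw [this]
  have h5 : ((m + s).choose p.2 : ℝ) =
      ((m + s).factorial : ℝ) / ((p.2.factorial : ℝ) * ((m + p.1).factorial : ℝ)) := by
    rw [Nat.cast_choose ℝ (by omega : p.2 ≤ m + s)]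
    have : m + s - p.2 = m + p.1 := by omega
    rw [this]
  rw [h4, h5]
  unfold um
  have e1 := fac_ne p.1
  have e2 := fac_ne p.2
  have e3 := fac_ne (m + p.1)
  have e4 := fac_ne (m + p.2)
  have e5 := fac_ne (m + s)
  field_simp

/-- coefficients without the constant term -/
noncomputable def u1 (k : ℕ) : ℝ := if k = 0 then 0 else um 0 k

lemma u1_nonneg (k : ℕ) : 0 ≤ u1 k := by
  unfold u1
  split_ifs
  · exact le_rfl
  · exact um_nonneg 0 k

lemma u1_conv_zero : ∑ p ∈ antidiagonal 0, u1 p.1 * u1 p.2 = 0 := by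
  simp [u1]

lemma u1_conv {n : ℕ} (hn : 1 ≤ n) : ∑ p ∈ antidiagonal n, u1 p.1 * u1 p.2 =
    (((2 * n).choose n : ℝ) - 2) / ((n.factorial : ℝ) ^ 2) := by
  have h1 := um_conv 0 n
  rw [zero_add] at h1
  have e5 := fac_ne n
  have h0 : um 0 0 * um 0 n = 1 / ((n.factorial : ℝ) ^ 2) := by
    unfold um
    simp
    field_simp
  have h2 : ∑ p ∈ antidiagonal n, u1 p.1 * u1 p.2 =
      ∑ p ∈ antidiagonal n, (um 0 p.1 * um 0 p.2
        - (if p = (0, n) then 1 / ((n.factorial : ℝ) ^ 2) else 0)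
        - (if p = (n, 0) then 1 / ((n.factorial : ℝ) ^ 2) else 0)) := by
    refine Finset.sum_congr rfl fun p hp => ?_
    have h3 : p.1 + p.2 = n := Finset.HasAntidiagonal.mem_antidiagonal.1 hp
    obtain ⟨a, b⟩ := p
    dsimp only at h3 ⊢
    by_cases ha : a = 0
    · subst ha
      have hb : b = n := by omega
      subst hb
      have e1 : ((0, b) : ℕ × ℕ) ≠ (b, 0) := by
        intro h
        have := (Prod.mk.injEq _ _ _ _).mp h
        omega
      rw [if_pos rfl, if_neg e1, h0]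
      unfold u1
      rw [if_pos rfl]
      ring
    · by_cases hb : b = 0
      · subst hb
        have haa : a = n := by omega
        subst haa
        have e1 : ((a, 0) : ℕ × ℕ) ≠ (0, a) := by
          intro h
          have := (Prod.mk.injEq _ _ _ _).mp h
          omega
        rw [if_pos rfl, if_neg e1, mul_comm (um 0 a), h0]
        unfold u1
        rw [if_pos rfl]
        ring
      · have e1 : ((a, b) : ℕ × ℕ) ≠ (0, n) := by
          intro h
          exact ha ((Prod.mk.injEq _ _ _ _).mp h).1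
        have e2 : ((a, b) : ℕ × ℕ) ≠ (n, 0) := by
          intro h
          exact hb ((Prod.mk.injEq _ _ _ _).mp h).2
        rw [if_neg e1, if_neg e2]
        unfold u1
        rw [if_neg ha, if_neg hb]
        ring
  rw [h2, Finset.sum_sub_distrib, Finset.sum_sub_distrib, h1, Finset.sum_ite_eq',
    Finset.sum_ite_eq', if_pos (Finset.HasAntidiagonal.mem_antidiagonal.2 (by simp)),
    if_pos (Finset.HasAntidiagonal.mem_antidiagonal.2 (by simp))]
  ring

lemma natDegree_Y (l m : ℕ) : (LegAux.Y l m).natDegree ≤ l - m := by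
  unfold LegAux.Y
  refine (Polynomial.natDegree_iterate_derivative _ _).trans ?_
  rw [LegAux.natDegree_Pl]

/-- the Taylor coefficients -/
lemma tay_coeff (l m k : ℕ) (h : m + k ≤ l) :
    |(Polynomial.taylor 1 (LegAux.Y l m)).coeff k| ≤ LegAux.v1 l (m + k) / (k.factorial : ℝ) := by
  rw [Polynomial.taylor_coeff]
  have e1 := congrArg (fun f : Polynomial ℝ → Polynomial ℝ => f (LegAux.Y l m))
    (Polynomial.factorial_smul_hasseDeriv (R := ℝ) (k := k))
  simp only [LinearMap.smul_apply] at e1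
  have e2 : Polynomial.derivative^[k] (LegAux.Y l m) = LegAux.Y l (m + k) := by
    unfold LegAux.Y
    rw [← Function.iterate_add_apply, add_comm k m]
  rw [e2] at e1
  have e3 := congrArg (Polynomial.eval 1) e1
  rw [Polynomial.eval_smul, nsmul_eq_mul] at e3
  have h1 := LegAux.sup_bound (l := l) (m := m + k) h (z := 1) (by norm_num)
  have h2 : (0 : ℝ) < (k.factorial : ℝ) := by exact_mod_cast k.factorial_pos
  rw [le_div_iff₀ h2]
  rw [← e3, abs_mul, abs_of_pos h2] at h1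
  linarith

lemma v1_le (l m k : ℕ) (h : m + k ≤ l) : LegAux.v1 l (m + k) / (k.factorial : ℝ) ≤
    (Mode.aa l m / 2 ^ m) * (um m k * (lam l / 2) ^ k) := by
  have h1 := Mode.aa_le (L := l) m k h
  have h2 : LegAux.v1 l (m + k) = Mode.aa l (m + k) / (2 ^ (m + k) * ((m + k).factorial : ℝ)) := by
    unfold LegAux.v1 Mode.aa
    rw [div_div]
    congr 1
    ring
  have e1 := fac_ne k
  have e2 := fac_ne (m + k)
  have p1 : (0 : ℝ) < (k.factorial : ℝ) := by exact_mod_cast k.factorial_pos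
  have p2 : (0 : ℝ) < ((m + k).factorial : ℝ) := by exact_mod_cast (m + k).factorial_pos
  rw [h2]
  have h3 : (Mode.aa l m / 2 ^ m) * (um m k * (lam l / 2) ^ k) =
      (((l : ℝ) * (l + 1)) ^ k * Mode.aa l m) / (2 ^ (m + k) * ((m + k).factorial : ℝ)) /
        (k.factorial : ℝ) := by
    unfold um lam
    rw [div_pow, pow_add]
    field_simp
  rw [h3]
  gcongr

/-- the bound beyond the pole -/
lemma Y_le (l m : ℕ) (h : m ≤ l) (w : ℝ) : |(LegAux.Y l m).eval (1 + w)| ≤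
    (Mode.aa l m / 2 ^ m) * ∑ k ∈ range (l - m + 1), um m k * (lam l * (|w| / 2)) ^ k := by
  have h1 : (LegAux.Y l m).eval (1 + w) = (Polynomial.taylor 1 (LegAux.Y l m)).eval w := by
    rw [Polynomial.taylor_eval, add_comm]
  have h2 : (Polynomial.taylor 1 (LegAux.Y l m)).natDegree < l - m + 1 := by
    rw [Polynomial.natDegree_taylor]
    have := natDegree_Y l m
    omega
  rw [h1, Polynomial.eval_eq_sum_range' h2, Finset.mul_sum]
  refine (Finset.abs_sum_le_sum_abs _ _).trans (Finset.sum_le_sum fun k hk => ?_)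
  have h3 : m + k ≤ l := by
    have := Finset.mem_range.1 hk
    omega
  rw [abs_mul, abs_pow]
  have h4 := (tay_coeff l m k h3).trans (v1_le l m k h3)
  have h5 : (0 : ℝ) ≤ |w| ^ k := pow_nonneg (abs_nonneg _) _
  calc |(Polynomial.taylor 1 (LegAux.Y l m)).coeff k| * |w| ^ k ≤
        ((Mode.aa l m / 2 ^ m) * (um m k * (lam l / 2) ^ k)) * |w| ^ k :=
        mul_le_mul_of_nonneg_right h4 h5
    _ = _ := by
      have : (lam l * (|w| / 2)) ^ k = (lam l / 2) ^ k * |w| ^ k := by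
        rw [← mul_pow]
        congr 1
        ring
      rw [this]
      ring

/-- the difference -/
lemma Pl_le (l : ℕ) (w : ℝ) : |(LegAux.Pl l).eval (1 + w) - (LegAux.Pl l).eval 1| ≤
    ∑ k ∈ range (l + 1), u1 k * (lam l * (|w| / 2)) ^ k := by
  have h1 : (LegAux.Pl l).eval (1 + w) = (Polynomial.taylor 1 (LegAux.Y l 0)).eval w := by
    rw [Polynomial.taylor_eval, add_comm, LegAux.Y_zero]
  have h2 : (Polynomial.taylor 1 (LegAux.Y l 0)).natDegree < l + 1 := by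
    rw [Polynomial.natDegree_taylor]
    have := natDegree_Y l 0
    omega
  have h0 : (LegAux.Pl l).eval 1 = (Polynomial.taylor 1 (LegAux.Y l 0)).coeff 0 := by
    rw [Polynomial.taylor_coeff_zero, LegAux.Y_zero]
  rw [h1, Polynomial.eval_eq_sum_range' h2, h0, Finset.sum_range_succ', Finset.sum_range_succ']
  have h3 : u1 0 = 0 := by simp [u1]
  rw [h3, zero_mul, add_zero, pow_zero, mul_one, add_sub_cancel_right]
  refine (Finset.abs_sum_le_sum_abs _ _).trans (Finset.sum_le_sum fun k hk => ?_)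
  have h4 : 0 + (k + 1) ≤ l := by
    have := Finset.mem_range.1 hk
    omega
  rw [abs_mul, abs_pow]
  have h5 := (tay_coeff l 0 (k + 1) h4).trans (v1_le l 0 (k + 1) h4)
  have h6 : (0 : ℝ) ≤ |w| ^ (k + 1) := pow_nonneg (abs_nonneg _) _
  have h7 : Mode.aa l 0 / 2 ^ 0 = 1 := by
    unfold Mode.aa
    rw [add_zero, Nat.sub_zero, div_self (fac_ne l)]
    norm_num
  rw [h7, one_mul] at h5
  have h8 : u1 (k + 1) = um 0 (k + 1) := by
    unfold u1
    rw [if_neg (Nat.succ_ne_zero k)]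
  rw [h8]
  calc |(Polynomial.taylor 1 (LegAux.Y l 0)).coeff (k + 1)| * |w| ^ (k + 1) ≤
        (um 0 (k + 1) * (lam l / 2) ^ (k + 1)) * |w| ^ (k + 1) :=
        mul_le_mul_of_nonneg_right h5 h6
    _ = _ := by
      have : (lam l * (|w| / 2)) ^ (k + 1) = (lam l / 2) ^ (k + 1) * |w| ^ (k + 1) := by
        rw [← mul_pow]
        congr 1
        ring
      rw [this]
      ring

lemma lamb_nonneg (l : ℕ) (w : ℝ) : 0 ≤ lam l * (|w| / 2) :=
  mul_nonneg (lam_nonneg l) (div_nonneg (abs_nonneg _) (by norm_num))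

end TayBAux

open TayBAux

theorem rho_bound {t : ℕ} {g : Polynomial ℝ} (hg : g.natDegree ≤ t) (w : ℝ) :
    (g.eval (1 + w) - g.eval 1) ^ 2 ≤ nrm 0 g * ∑ n ∈ Finset.Icc 2 (2 * t),
      al n * (|w| / 2) ^ n * (((t : ℝ) + 1) ^ 2) ^ (n + 1) := by
  obtain ⟨Φ, hΦ⟩ : ∃ Φ : Polynomial ℝ →ₗ[ℝ] ℝ, ∀ f, Φ f = f.eval (1 + w) - f.eval 1 :=
    ⟨Polynomial.leval (1 + w) - Polynomial.leval 1, fun f => by
      simp [Polynomial.leval_apply]⟩
  have h1 := cs_modes (t := t) (m := 0) (Nat.zero_le t) (g := g) (by simpa using hg) Φ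
  rw [hΦ] at h1
  refine h1.trans (mul_le_mul_of_nonneg_left ?_ (nrm_nonneg 0 g))
  have hlam : ∀ l : ℕ, 0 ≤ 2 * (l : ℝ) + 1 := fun l => by positivity
  have h2 : ∀ l ∈ Finset.Icc 0 t, (2 * (l : ℝ) + 1) *
      (((l - 0).factorial : ℝ) / ((l + 0).factorial : ℝ)) * (Φ (LegAux.Y l 0)) ^ 2 ≤
      ∑ n ∈ Finset.Icc 2 (2 * t), ((((2 * n).choose n : ℝ) - 2) / ((n.factorial : ℝ) ^ 2) *
        (|w| / 2) ^ n) * ((2 * (l : ℝ) + 1) * (lam l) ^ n) := by
    intro l hl
    have hlt : l ≤ t := (Finset.mem_Icc.1 hl).2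
    rw [Nat.sub_zero, add_zero, div_self (fac_ne l), mul_one, hΦ, LegAux.Y_zero]
    have h3 : ((LegAux.Pl l).eval (1 + w) - (LegAux.Pl l).eval 1) ^ 2 ≤
        ∑ n ∈ Finset.range (2 * l + 1), (∑ p ∈ Finset.HasAntidiagonal.antidiagonal n, u1 p.1 * u1 p.2) *
          (lam l * (|w| / 2)) ^ n := by
      refine le_trans ?_ (sq_sum_le u1 u1_nonneg (lamb_nonneg l w) l)
      rw [← sq_abs]
      exact pow_le_pow_left₀ (abs_nonneg _) (Pl_le l w) 2
    have hpos : ∀ n : ℕ, 0 ≤ ∑ p ∈ Finset.HasAntidiagonal.antidiagonal n, u1 p.1 * u1 p.2 := fun n =>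
      Finset.sum_nonneg fun p _ => mul_nonneg (u1_nonneg _) (u1_nonneg _)
    have h4 : ∑ n ∈ Finset.range (2 * l + 1), (∑ p ∈ Finset.HasAntidiagonal.antidiagonal n, u1 p.1 * u1 p.2) *
          (lam l * (|w| / 2)) ^ n ≤
        ∑ n ∈ Finset.Icc 2 (2 * t), (∑ p ∈ Finset.HasAntidiagonal.antidiagonal n, u1 p.1 * u1 p.2) *
          (lam l * (|w| / 2)) ^ n := by
      have h5 : ∑ n ∈ Finset.range (2 * l + 1), (∑ p ∈ Finset.HasAntidiagonal.antidiagonal n, u1 p.1 * u1 p.2) *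
          (lam l * (|w| / 2)) ^ n =
          ∑ n ∈ (Finset.range (2 * l + 1)).filter (fun n => 2 ≤ n),
            (∑ p ∈ Finset.HasAntidiagonal.antidiagonal n, u1 p.1 * u1 p.2) * (lam l * (|w| / 2)) ^ n := by
        refine (Finset.sum_subset (Finset.filter_subset _ _) fun n hn hn' => ?_).symm
        have hn2 : n < 2 := by
          by_contra hcon
          exact hn' (Finset.mem_filter.2 ⟨hn, by omega⟩)
        have : ∑ p ∈ Finset.HasAntidiagonal.antidiagonal n, u1 p.1 * u1 p.2 = 0 := by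
          interval_cases n
          · exact u1_conv_zero
          · rw [u1_conv le_rfl]
            norm_num
        rw [this, zero_mul]
      rw [h5]
      refine Finset.sum_le_sum_of_subset_of_nonneg ?_ fun n _ _ =>
        mul_nonneg (hpos n) (pow_nonneg (lamb_nonneg l w) n)
      intro n hn
      rw [Finset.mem_filter, Finset.mem_range] at hn
      rw [Finset.mem_Icc]
      omega
    calc (2 * (l : ℝ) + 1) * ((LegAux.Pl l).eval (1 + w) - (LegAux.Pl l).eval 1) ^ 2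
        ≤ (2 * (l : ℝ) + 1) * ∑ n ∈ Finset.Icc 2 (2 * t),
          (∑ p ∈ Finset.HasAntidiagonal.antidiagonal n, u1 p.1 * u1 p.2) * (lam l * (|w| / 2)) ^ n :=
          mul_le_mul_of_nonneg_left (h3.trans h4) (hlam l)
      _ = _ := by
          rw [Finset.mul_sum]
          refine Finset.sum_congr rfl fun n hn => ?_
          rw [u1_conv (by have := (Finset.mem_Icc.1 hn).1; omega), mul_pow]
          ring
  refine (Finset.sum_le_sum h2).trans ?_
  rw [Finset.sum_comm]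
  refine Finset.sum_le_sum fun n hn => ?_
  rw [← Finset.mul_sum]
  have h6 := sum_lam t n
  have h7 : ∑ l ∈ Finset.Icc 0 t, (2 * (l : ℝ) + 1) * (lam l) ^ n =
      ∑ l ∈ Finset.range (t + 1), (2 * (l : ℝ) + 1) * (lam l) ^ n := by
    refine Finset.sum_congr ?_ fun _ _ => rfl
    ext l
    simp
  rw [h7]
  have h8 : (0 : ℝ) ≤ (((2 * n).choose n : ℝ) - 2) / ((n.factorial : ℝ) ^ 2) := by
    rw [← u1_conv (by have := (Finset.mem_Icc.1 hn).1; omega)]
    exact Finset.sum_nonneg fun p _ => mul_nonneg (u1_nonneg _) (u1_nonneg _)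
  have h9 : (0 : ℝ) ≤ (|w| / 2) ^ n := pow_nonneg (div_nonneg (abs_nonneg _) (by norm_num)) _
  refine (mul_le_mul_of_nonneg_left h6 (mul_nonneg h8 h9)).trans (le_of_eq ?_)
  unfold al
  have e1 := fac_ne n
  have e2 : (n : ℝ) + 1 ≠ 0 := by positivity
  field_simp

theorem gm_bound {t m : ℕ} (hm1 : 1 ≤ m) (hm : m ≤ t) {g : Polynomial ℝ}
    (hg : g.natDegree ≤ t - m) (w : ℝ) :
    |1 - (1 + w) ^ 2| ^ m * (g.eval (1 + w)) ^ 2 ≤ nrm m g * |1 + w / 2| ^ m *
      ∑ n ∈ Finset.Icc m (2 * t), (((2 * n).choose (n - m) : ℝ) /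
        ((n.factorial : ℝ) ^ 2 * ((n : ℝ) + 1))) * (|w| / 2) ^ n *
        (((t : ℝ) + 1) ^ 2) ^ (n + 1) := by
  obtain ⟨Φ, hΦ⟩ : ∃ Φ : Polynomial ℝ →ₗ[ℝ] ℝ, ∀ f, Φ f = f.eval (1 + w) :=
    ⟨Polynomial.leval (1 + w), fun f => by simp [Polynomial.leval_apply]⟩
  have h1 := cs_modes (t := t) (m := m) hm (g := g) hg Φ
  rw [hΦ] at h1
  obtain ⟨y, hy⟩ : ∃ y : ℝ, y = |w| / 2 := ⟨_, rfl⟩
  have hy0 : 0 ≤ y := by rw [hy]; exact div_nonneg (abs_nonneg _) (by norm_num)
  have hw1 : |1 - (1 + w) ^ 2| ^ m = |1 + w / 2| ^ m * (4 ^ m * y ^ m) := by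
    have : (1 - (1 + w) ^ 2 : ℝ) = -(2 * w * (1 + w / 2)) := by ring
    rw [this, abs_neg, abs_mul, abs_mul, abs_of_pos (by norm_num : (0 : ℝ) < 2), ← mul_pow,
      ← mul_pow]
    congr 1
    rw [hy]
    ring
  have hlam : ∀ l : ℕ, 0 ≤ 2 * (l : ℝ) + 1 := fun l => by positivity
  have h2 : ∀ l ∈ Finset.Icc m t, (4 ^ m * y ^ m) * ((2 * (l : ℝ) + 1) *
      (((l - m).factorial : ℝ) / ((l + m).factorial : ℝ)) * (Φ (LegAux.Y l m)) ^ 2) ≤
      ∑ n ∈ Finset.Icc m (2 * t), (((2 * n).choose (n - m) : ℝ) / ((n.factorial : ℝ) ^ 2) *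
        y ^ n) * ((2 * (l : ℝ) + 1) * (lam l) ^ n) := by
    intro l hl
    have hlm : m ≤ l := (Finset.mem_Icc.1 hl).1
    have hlt : l ≤ t := (Finset.mem_Icc.1 hl).2
    rw [hΦ]
    have haa := Mode.aa_pos l m
    have hinv : ((l - m).factorial : ℝ) / ((l + m).factorial : ℝ) = 1 / Mode.aa l m := by
      unfold Mode.aa
      rw [one_div_div]
    have h3 : (LegAux.Y l m).eval (1 + w) ^ 2 ≤ (Mode.aa l m / 2 ^ m) ^ 2 *
        ∑ s ∈ Finset.range (2 * (l - m) + 1), (∑ p ∈ Finset.HasAntidiagonal.antidiagonal s, um m p.1 * um m p.2) *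
          (lam l * (|w| / 2)) ^ s := by
      have h4 := Y_le l m hlm w
      have h5 := sq_sum_le (um m) (um_nonneg m) (lamb_nonneg l w) (l - m)
      have h6 : (LegAux.Y l m).eval (1 + w) ^ 2 ≤ ((Mode.aa l m / 2 ^ m) *
          ∑ k ∈ Finset.range (l - m + 1), um m k * (lam l * (|w| / 2)) ^ k) ^ 2 := by
        rw [← sq_abs]
        exact pow_le_pow_left₀ (abs_nonneg _) h4 2
      refine h6.trans ?_
      rw [mul_pow]
      exact mul_le_mul_of_nonneg_left h5 (sq_nonneg _)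
    have h7 : (4 ^ m * y ^ m) * ((2 * (l : ℝ) + 1) *
        (((l - m).factorial : ℝ) / ((l + m).factorial : ℝ)) * ((LegAux.Y l m).eval (1 + w)) ^ 2) ≤
        (2 * (l : ℝ) + 1) * ((lam l * y) ^ m *
          ∑ s ∈ Finset.range (2 * (l - m) + 1),
            (((2 * (m + s)).choose s : ℝ) / ((m + s).factorial : ℝ) ^ 2) * (lam l * y) ^ s) := by
      have h8 : (4 ^ m * y ^ m) * ((2 * (l : ℝ) + 1) * (1 / Mode.aa l m) *
          ((LegAux.Y l m).eval (1 + w)) ^ 2) ≤
          (4 ^ m * y ^ m) * ((2 * (l : ℝ) + 1) * (1 / Mode.aa l m) *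
          ((Mode.aa l m / 2 ^ m) ^ 2 *
        ∑ s ∈ Finset.range (2 * (l - m) + 1), (∑ p ∈ Finset.HasAntidiagonal.antidiagonal s, um m p.1 * um m p.2) *
          (lam l * (|w| / 2)) ^ s)) := by
        have : (0 : ℝ) ≤ 4 ^ m * y ^ m := by positivity
        have h9 : (0 : ℝ) ≤ (2 * (l : ℝ) + 1) * (1 / Mode.aa l m) := by positivity
        exact mul_le_mul_of_nonneg_left (mul_le_mul_of_nonneg_left h3 h9) this
      rw [hinv]
      refine h8.trans ?_
      rw [← hy]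
      obtain ⟨SS, hSS⟩ : ∃ SS : ℝ, SS = ∑ s ∈ Finset.range (2 * (l - m) + 1),
        (∑ p ∈ Finset.HasAntidiagonal.antidiagonal s, um m p.1 * um m p.2) * (lam l * y) ^ s := ⟨_, rfl⟩
      have hSS0 : 0 ≤ SS := by
        rw [hSS]
        refine Finset.sum_nonneg fun s _ => mul_nonneg (Finset.sum_nonneg fun p _ =>
          mul_nonneg (um_nonneg _ _) (um_nonneg _ _)) (pow_nonneg ?_ _)
        exact mul_nonneg (lam_nonneg l) hy0
      have hSS1 : SS = ∑ s ∈ Finset.range (2 * (l - m) + 1),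
            (((2 * (m + s)).choose s : ℝ) / ((m + s).factorial : ℝ) ^ 2) * (lam l * y) ^ s := by
        rw [hSS]
        refine Finset.sum_congr rfl fun s _ => ?_
        rw [um_conv]
      rw [← hSS1, ← hSS]
      have h10 : (4 ^ m * y ^ m) * ((2 * (l : ℝ) + 1) * (1 / Mode.aa l m) *
          ((Mode.aa l m / 2 ^ m) ^ 2 * SS)) = (2 * (l : ℝ) + 1) * (Mode.aa l m * y ^ m * SS) := by
        have h4 : (4 : ℝ) ^ m = 2 ^ m * 2 ^ m := by
          rw [← mul_pow]
          norm_num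
        rw [h4]
        have := haa.ne'
        field_simp
      rw [h10]
      refine mul_le_mul_of_nonneg_left ?_ (hlam l)
      refine mul_le_mul_of_nonneg_right ?_ hSS0
      rw [mul_pow]
      refine mul_le_mul_of_nonneg_right ?_ (pow_nonneg hy0 m)
      exact Mode.aa_le' m hlm
    refine h7.trans ?_
    have h11 : ∑ n ∈ Finset.Icc m (2 * t), (((2 * n).choose (n - m) : ℝ) / ((n.factorial : ℝ) ^ 2) *
        y ^ n) * ((2 * (l : ℝ) + 1) * (lam l) ^ n) =
        (2 * (l : ℝ) + 1) * ∑ n ∈ Finset.Icc m (2 * t),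
          ((2 * n).choose (n - m) : ℝ) / ((n.factorial : ℝ) ^ 2) * (lam l * y) ^ n := by
      rw [Finset.mul_sum]
      refine Finset.sum_congr rfl fun n _ => ?_
      rw [mul_pow]
      ring
    rw [h11]
    refine mul_le_mul_of_nonneg_left ?_ (hlam l)
    rw [Finset.mul_sum]
    have h12 : ∀ s ∈ Finset.range (2 * (l - m) + 1), (lam l * y) ^ m *
        ((((2 * (m + s)).choose s : ℝ) / ((m + s).factorial : ℝ) ^ 2) * (lam l * y) ^ s) =
        (fun n : ℕ => ((2 * n).choose (n - m) : ℝ) / ((n.factorial : ℝ) ^ 2) * (lam l * y) ^ n)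
          (m + s) := by
      intro s _
      dsimp only
      rw [Nat.add_sub_cancel_left, pow_add]
      ring
    rw [Finset.sum_congr rfl h12]
    have h13 : ∑ s ∈ Finset.range (2 * (l - m) + 1),
        (fun n : ℕ => ((2 * n).choose (n - m) : ℝ) / ((n.factorial : ℝ) ^ 2) * (lam l * y) ^ n)
          (m + s) = ∑ n ∈ (Finset.range (2 * (l - m) + 1)).image (fun s => m + s),
          ((2 * n).choose (n - m) : ℝ) / ((n.factorial : ℝ) ^ 2) * (lam l * y) ^ n := by
      rw [Finset.sum_image]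
      intro a _ b _ hab
      exact Nat.add_left_cancel hab
    rw [h13]
    refine Finset.sum_le_sum_of_subset_of_nonneg ?_ fun n _ _ => ?_
    · intro n hn
      obtain ⟨s, hs, rfl⟩ := Finset.mem_image.1 hn
      rw [Finset.mem_range] at hs
      rw [Finset.mem_Icc]
      omega
    · have : (0 : ℝ) ≤ lam l * y := mul_nonneg (lam_nonneg l) hy0
      positivity
  have hstep : (4 ^ m * y ^ m) * ∑ l ∈ Finset.Icc m t, (2 * (l : ℝ) + 1) *
      (((l - m).factorial : ℝ) / ((l + m).factorial : ℝ)) * (Φ (LegAux.Y l m)) ^ 2 ≤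
      ∑ n ∈ Finset.Icc m (2 * t), (((2 * n).choose (n - m) : ℝ) /
        ((n.factorial : ℝ) ^ 2 * ((n : ℝ) + 1))) * (|w| / 2) ^ n *
        (((t : ℝ) + 1) ^ 2) ^ (n + 1) := by
    rw [Finset.mul_sum]
    refine (Finset.sum_le_sum h2).trans ?_
    rw [Finset.sum_comm]
    refine Finset.sum_le_sum fun n hn => ?_
    rw [← Finset.mul_sum]
    have h6 := sum_lam t n
    have h7 : ∑ l ∈ Finset.Icc m t, (2 * (l : ℝ) + 1) * (lam l) ^ n ≤
        ∑ l ∈ Finset.range (t + 1), (2 * (l : ℝ) + 1) * (lam l) ^ n := by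
      refine Finset.sum_le_sum_of_subset_of_nonneg ?_ fun l _ _ =>
        mul_nonneg (hlam l) (pow_nonneg (lam_nonneg l) n)
      intro l hl
      rw [Finset.mem_Icc] at hl
      rw [Finset.mem_range]
      omega
    have h8 : (0 : ℝ) ≤ ((2 * n).choose (n - m) : ℝ) / ((n.factorial : ℝ) ^ 2) * y ^ n := by
      positivity
    refine (mul_le_mul_of_nonneg_left (h7.trans h6) h8).trans (le_of_eq ?_)
    rw [hy]
    have e1 := fac_ne n
    have e2 : (n : ℝ) + 1 ≠ 0 := by positivity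
    field_simp
  rw [hw1]
  have hn0 := nrm_nonneg m g
  have ha0 : (0 : ℝ) ≤ |1 + w / 2| ^ m := pow_nonneg (abs_nonneg _) _
  have hb0 : (0 : ℝ) ≤ 4 ^ m * y ^ m := by positivity
  calc |1 + w / 2| ^ m * (4 ^ m * y ^ m) * (g.eval (1 + w)) ^ 2
      ≤ |1 + w / 2| ^ m * (4 ^ m * y ^ m) * (nrm m g * ∑ l ∈ Finset.Icc m t, (2 * (l : ℝ) + 1) *
      (((l - m).factorial : ℝ) / ((l + m).factorial : ℝ)) * (Φ (LegAux.Y l m)) ^ 2) :=
        mul_le_mul_of_nonneg_left h1 (mul_nonneg ha0 hb0)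
    _ = (nrm m g * |1 + w / 2| ^ m) * ((4 ^ m * y ^ m) * ∑ l ∈ Finset.Icc m t,
        (2 * (l : ℝ) + 1) * (((l - m).factorial : ℝ) / ((l + m).factorial : ℝ)) *
          (Φ (LegAux.Y l m)) ^ 2) := by ring
    _ ≤ _ := mul_le_mul_of_nonneg_left hstep (mul_nonneg hn0 ha0)

end Pool.Agent.Helper83.SE
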