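import Pool.Agent.Helper83.SE.PL
import Pool.Agent.Helper83.SE.TayB
import Pool.Agent.Helper83.SE.NumE
import Pool.Agent.Helper83.SE.Lin

/-!
Project SE, module PQ0: the pole functional of squares, `m = 0`.

`ρ = g - g(1)`: `g^2 = g(1)^2 + 2 g(1) ρ + ρ^2`, `PF` kills constants, `PF(g) = PF(ρ)`:
`PF(g^2) = 2 g(1) PF(g) + PF(ρ^2)`.  `T = (t+1)^2 ≤ 0.6672 N`.
Cross term: `g(1)^2 ≤ T nrm` (`mode_bound`), `PF(g)^2 ≤ nrm * Σ (2l+1) (181/1440)^2 λ^2/N^2 ≤
nrm (181/1440)^2 T^3/(3 N^2)` (`cs_modes`, `pf_lin`, `pf_leg`, `sum_lam`):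
`2 (181/1440) T^2/(√3 N) ≤ 0.0647 N`.
`PF(ρ^2) = -(N/2) ∫_{1-5/(6N)}^1 ρ^2 - 14 ∫ y ρ(1+(7y^2-5/6)/N)^2 wt`, `rho_bound` with
`|w| = 7|y^2 - 5/42|/N`, `(T|w|/2)^n ≤ (2.3352 |y^2-5/42|)^n`, `14 T ≤ 2 * 4.6704 N`: at most
`N nrm Σ_{n≥2} ee n ≤ 0.31 N nrm` (`z = 1 - 7v/N`, `v ∈ [0, 5/42]` in the first integral).
Total `0.3747 < 0.38`.
-/

set_option autoImplicit false

open MeasureTheory Real Pool.Agent.Helper83.SD

namespace Pool.Agent.Helper83.SE

private theorem q0_al_nonneg {n : ℕ} (hn : 2 ≤ n) : 0 ≤ al n := by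
  have h := Nat.two_le_centralBinom n (by omega)
  rw [Nat.centralBinom_eq_two_mul_choose] at h
  have h2 : (2 : ℝ) ≤ ((2 * n).choose n : ℝ) := by exact_mod_cast h
  unfold al
  exact div_nonneg (by linarith) (by positivity)

private theorem q0_int (n : ℕ) :
    IntegrableOn (fun y : ℝ => y * |y ^ 2 - 5 / 42| ^ n * wt y) (Set.Ioi 0) := by
  have h1 : IntegrableOn (fun y : ℝ => ∑ k ∈ Finset.range (n + 1),
      (n.choose k : ℝ) * (y ^ (2 * k + 1) * wt y)) (Set.Ioi 0) := by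
    refine integrable_finsetSum _ fun k _ => ?_
    exact (int_wt0 (2 * k + 1) (by omega)).const_mul _
  refine Integrable.mono' h1 ?_ ?_
  · refine AEStronglyMeasurable.mul ?_ measurable_wt.aestronglyMeasurable
    exact (by fun_prop : Continuous fun y : ℝ => y * |y ^ 2 - 5 / 42| ^ n).aestronglyMeasurable
  · refine (ae_restrict_iff' measurableSet_Ioi).2 (Filter.Eventually.of_forall fun y hy => ?_)
    have hy' : (0 : ℝ) < y := hy
    have hw := (wt_pos hy').le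
    rw [Real.norm_of_nonneg (by positivity)]
    have h2 : |y ^ 2 - 5 / 42| ^ n ≤ (y ^ 2 + 1) ^ n := by
      refine pow_le_pow_left₀ (abs_nonneg _) ?_ n
      rw [abs_le]
      constructor <;> nlinarith [sq_nonneg y]
    calc y * |y ^ 2 - 5 / 42| ^ n * wt y ≤ y * (y ^ 2 + 1) ^ n * wt y := by gcongr
      _ = ∑ k ∈ Finset.range (n + 1), (n.choose k : ℝ) * (y ^ (2 * k + 1) * wt y) := by
        rw [add_pow, Finset.mul_sum, Finset.sum_mul]
        refine Finset.sum_congr rfl fun k _ => ?_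
        have e : y ^ (2 * k + 1) = (y ^ 2) ^ k * y := by rw [pow_succ, pow_mul]
        rw [one_pow, mul_one, e]
        ring

/-- powers against the numerical constant -/
private theorem q0_pow {T N v w : ℝ} (hT0 : 0 ≤ T) (hN : 0 < N) (hT : T ≤ 0.6672 * N)
    (hv : 0 ≤ v) (hw : |w| = 7 * v / N) (n : ℕ) :
    (|w| / 2) ^ n * T ^ (n + 1) ≤ T * (2.3352 ^ n * v ^ n) := by
  have h1 : |w| / 2 * T ≤ 2.3352 * v := by
    rw [hw]
    have : 7 * v / N / 2 * T = (7 * v / 2) * (T / N) := by ring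
    rw [this]
    have h2 : T / N ≤ 0.6672 := by rwa [div_le_iff₀ hN]
    nlinarith
  have h0 : 0 ≤ |w| / 2 * T := by positivity
  calc (|w| / 2) ^ n * T ^ (n + 1) = T * (|w| / 2 * T) ^ n := by rw [mul_pow]; ring
    _ ≤ T * (2.3352 * v) ^ n := by gcongr
    _ = T * (2.3352 ^ n * v ^ n) := by rw [mul_pow]

/-- the first integral -/
private theorem q0_first {t : ℕ} {N : ℝ} {g : Polynomial ℝ} (hN : 0 < N)
    (hT : ((t : ℝ) + 1) ^ 2 ≤ 0.6672 * N) (hg : g.natDegree ≤ t) :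
    (N / 2) * (∫ z in (1 - 5 / (6 * N))..1,
      ((g - Polynomial.C (g.eval 1)) ^ 2 : Polynomial ℝ).eval z) ≤
      N * nrm 0 g * ∑ n ∈ Finset.Icc 2 (2 * t),
        4.6704 * al n * 2.3352 ^ n * ((5 / 42) ^ (n + 1) / (2 * ((n : ℝ) + 1))) := by
  have hν := nrm_nonneg 0 g
  have ha : (1 - 5 / (6 * N)) ≤ (1 : ℝ) := by
    have : 0 ≤ 5 / (6 * N) := by positivity
    linarith
  set P : Polynomial ℝ := (g - Polynomial.C (g.eval 1)) ^ 2 with hP
  have hb : ∫ z in (1 - 5 / (6 * N))..1, P.eval z ≤ ∫ z in (1 - 5 / (6 * N))..1,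
      nrm 0 g * ∑ n ∈ Finset.Icc 2 (2 * t), al n * ((1 - z) / 2) ^ n *
        (((t : ℝ) + 1) ^ 2) ^ (n + 1) := by
    refine intervalIntegral.integral_mono_on ha ?_ ?_ fun z hz => ?_
    · exact (Polynomial.continuous P).intervalIntegrable _ _
    · refine Continuous.intervalIntegrable ?_ _ _
      fun_prop
    · have h := rho_bound hg (z - 1)
      rw [abs_of_nonpos (by linarith [hz.2]), show (1 : ℝ) + (z - 1) = z by ring,
        show -(z - 1) = 1 - z by ring] at h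
      have e : P.eval z = (g.eval z - g.eval 1) ^ 2 := by
        rw [hP]
        simp
      rw [e]
      exact h
  have hint : ∫ z in (1 - 5 / (6 * N))..1,
      nrm 0 g * ∑ n ∈ Finset.Icc 2 (2 * t), al n * ((1 - z) / 2) ^ n *
        (((t : ℝ) + 1) ^ 2) ^ (n + 1) = nrm 0 g * ∑ n ∈ Finset.Icc 2 (2 * t),
          al n * (2 * (5 / (12 * N)) ^ (n + 1) / ((n : ℝ) + 1)) *
            (((t : ℝ) + 1) ^ 2) ^ (n + 1) := by
    rw [intervalIntegral.integral_const_mul, intervalIntegral.integral_finsetSum]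
    · congr 1
      refine Finset.sum_congr rfl fun n _ => ?_
      rw [intervalIntegral.integral_mul_const, intervalIntegral.integral_const_mul]
      congr 2
      have hd : ∀ x ∈ Set.uIcc (1 - 5 / (6 * N)) 1,
          HasDerivAt (fun z : ℝ => -(2 * ((1 - z) / 2) ^ (n + 1) / ((n : ℝ) + 1)))
            (((1 - x) / 2) ^ n) x := by
        intro x _
        have h1 : HasDerivAt (fun z : ℝ => (1 - z) / 2) (-1 / 2) x := by
          have := ((hasDerivAt_const x (1 : ℝ)).sub (hasDerivAt_id x)).div_const 2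
          simpa using this
        have h2 := ((h1.pow (n + 1)).const_mul 2).div_const ((n : ℝ) + 1)
        have h3 := h2.neg
        have hn1 : ((n : ℝ) + 1) ≠ 0 := by positivity
        refine h3.congr_deriv ?_
        simp only [Nat.add_sub_cancel, Nat.cast_add, Nat.cast_one]
        field_simp
      rw [intervalIntegral.integral_eq_sub_of_hasDerivAt hd
        ((by fun_prop : Continuous fun z : ℝ => ((1 - z) / 2) ^ n).intervalIntegrable _ _)]
      have e : (1 - (1 - 5 / (6 * N))) / 2 = 5 / (12 * N) := by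
        field_simp
        ring
      rw [e]
      simp
    · intro n _
      exact (by fun_prop : Continuous fun z : ℝ => al n * ((1 - z) / 2) ^ n *
        (((t : ℝ) + 1) ^ 2) ^ (n + 1)).intervalIntegrable _ _
  rw [hint] at hb
  have h2 : (N / 2) * (nrm 0 g * ∑ n ∈ Finset.Icc 2 (2 * t),
          al n * (2 * (5 / (12 * N)) ^ (n + 1) / ((n : ℝ) + 1)) *
            (((t : ℝ) + 1) ^ 2) ^ (n + 1)) ≤
      N * nrm 0 g * ∑ n ∈ Finset.Icc 2 (2 * t),
        4.6704 * al n * 2.3352 ^ n * ((5 / 42) ^ (n + 1) / (2 * ((n : ℝ) + 1))) := by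
    rw [Finset.mul_sum, Finset.mul_sum, Finset.mul_sum]
    refine Finset.sum_le_sum fun n hn => ?_
    have hal := q0_al_nonneg (Finset.mem_Icc.1 hn).1
    have h3 : (5 / (12 * N)) ^ (n + 1) * (((t : ℝ) + 1) ^ 2) ^ (n + 1) ≤
        (2.3352 * (5 / 42)) ^ (n + 1) := by
      rw [← mul_pow]
      refine pow_le_pow_left₀ (by positivity) ?_ _
      have e : 5 / (12 * N) * ((t : ℝ) + 1) ^ 2 = (5 / 12) * (((t : ℝ) + 1) ^ 2 / N) := by
        field_simp
      rw [e]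
      have : ((t : ℝ) + 1) ^ 2 / N ≤ 0.6672 := by rwa [div_le_iff₀ hN]
      linarith
    calc N / 2 * (nrm 0 g * (al n * (2 * (5 / (12 * N)) ^ (n + 1) / ((n : ℝ) + 1)) *
            (((t : ℝ) + 1) ^ 2) ^ (n + 1)))
        = N * nrm 0 g * (al n / ((n : ℝ) + 1)) * ((5 / (12 * N)) ^ (n + 1) *
            (((t : ℝ) + 1) ^ 2) ^ (n + 1)) := by
          field_simp
      _ ≤ N * nrm 0 g * (al n / ((n : ℝ) + 1)) * (2.3352 * (5 / 42)) ^ (n + 1) := by
          gcongr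
      _ = N * nrm 0 g * (4.6704 * al n * 2.3352 ^ n * ((5 / 42) ^ (n + 1) /
            (2 * ((n : ℝ) + 1)))) := by
          rw [mul_pow, pow_succ (2.3352 : ℝ) n]
          field_simp
          ring
  exact (mul_le_mul_of_nonneg_left hb (by positivity)).trans h2

/-- the second integral -/
private theorem q0_second {t : ℕ} {N : ℝ} {g : Polynomial ℝ} (hN : 0 < N)
    (hT : ((t : ℝ) + 1) ^ 2 ≤ 0.6672 * N) (hg : g.natDegree ≤ t) :
    14 * (∫ y in Set.Ioi (0 : ℝ), y *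
      ((g - Polynomial.C (g.eval 1)) ^ 2 : Polynomial ℝ).eval (1 + (7 * y ^ 2 - 5 / 6) / N) *
        wt y) ≤
      N * nrm 0 g * ∑ n ∈ Finset.Icc 2 (2 * t),
        4.6704 * al n * 2.3352 ^ n * (2 * Mn n) := by
  have hν := nrm_nonneg 0 g
  set P : Polynomial ℝ := (g - Polynomial.C (g.eval 1)) ^ 2 with hP
  have hpt : ∀ y : ℝ, 0 < y → y * P.eval (1 + (7 * y ^ 2 - 5 / 6) / N) * wt y ≤
      ∑ n ∈ Finset.Icc 2 (2 * t), (nrm 0 g * ((t : ℝ) + 1) ^ 2 * (al n * 2.3352 ^ n)) *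
        (y * |y ^ 2 - 5 / 42| ^ n * wt y) := by
    intro y hy
    have hw := (wt_pos hy).le
    have h := rho_bound hg ((7 * y ^ 2 - 5 / 6) / N)
    have e : P.eval (1 + (7 * y ^ 2 - 5 / 6) / N) =
        (g.eval (1 + (7 * y ^ 2 - 5 / 6) / N) - g.eval 1) ^ 2 := by
      rw [hP]
      simp
    rw [e]
    have habs : |(7 * y ^ 2 - 5 / 6) / N| = 7 * |y ^ 2 - 5 / 42| / N := by
      rw [abs_div, abs_of_pos hN]
      congr 1
      have : (7 * y ^ 2 - 5 / 6) = 7 * (y ^ 2 - 5 / 42) := by ring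
      rw [this, abs_mul, abs_of_pos (by norm_num : (0 : ℝ) < 7)]
    have h2 : nrm 0 g * ∑ n ∈ Finset.Icc 2 (2 * t),
        al n * (|(7 * y ^ 2 - 5 / 6) / N| / 2) ^ n * (((t : ℝ) + 1) ^ 2) ^ (n + 1) ≤
        nrm 0 g * ∑ n ∈ Finset.Icc 2 (2 * t),
          al n * (((t : ℝ) + 1) ^ 2 * (2.3352 ^ n * |y ^ 2 - 5 / 42| ^ n)) := by
      refine mul_le_mul_of_nonneg_left (Finset.sum_le_sum fun n hn => ?_) hν
      have hal := q0_al_nonneg (Finset.mem_Icc.1 hn).1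
      rw [mul_assoc]
      exact mul_le_mul_of_nonneg_left
        (q0_pow (by positivity) hN hT (abs_nonneg _) habs n) hal
    calc y * (g.eval (1 + (7 * y ^ 2 - 5 / 6) / N) - g.eval 1) ^ 2 * wt y
        ≤ y * (nrm 0 g * ∑ n ∈ Finset.Icc 2 (2 * t),
          al n * (((t : ℝ) + 1) ^ 2 * (2.3352 ^ n * |y ^ 2 - 5 / 42| ^ n))) * wt y := by
          have := h.trans h2
          gcongr
      _ = _ := by
          rw [Finset.mul_sum, Finset.mul_sum, Finset.sum_mul]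
          refine Finset.sum_congr rfl fun n _ => ?_
          ring
  have hi1 : IntegrableOn (fun y : ℝ => ∑ n ∈ Finset.Icc 2 (2 * t),
      (nrm 0 g * ((t : ℝ) + 1) ^ 2 * (al n * 2.3352 ^ n)) *
      (y * |y ^ 2 - 5 / 42| ^ n * wt y)) (Set.Ioi 0) :=
    integrable_finsetSum _ fun n _ => (q0_int n).const_mul _
  have hmono := setIntegral_mono_on (pf_int N P) hi1 measurableSet_Ioi
    (fun y hy => hpt y hy)
  have e1 : ∫ y in Set.Ioi (0 : ℝ), (∑ n ∈ Finset.Icc 2 (2 * t),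
      (nrm 0 g * ((t : ℝ) + 1) ^ 2 * (al n * 2.3352 ^ n)) *
      (y * |y ^ 2 - 5 / 42| ^ n * wt y)) = ∑ n ∈ Finset.Icc 2 (2 * t),
      (nrm 0 g * ((t : ℝ) + 1) ^ 2 * (al n * 2.3352 ^ n)) * Mn n := by
    rw [integral_finsetSum _ fun n _ => (q0_int n).const_mul _]
    refine Finset.sum_congr rfl fun n _ => ?_
    rw [integral_const_mul]
    rfl
  rw [e1] at hmono
  have hMn : ∀ n : ℕ, 0 ≤ Mn n := by
    intro n
    refine setIntegral_nonneg measurableSet_Ioi fun y hy => ?_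
    have hy' : (0 : ℝ) < y := hy
    have := (wt_pos hy').le
    positivity
  refine (mul_le_mul_of_nonneg_left hmono (by norm_num : (0 : ℝ) ≤ 14)).trans ?_
  rw [Finset.mul_sum, Finset.mul_sum]
  refine Finset.sum_le_sum fun n hn => ?_
  have hal := q0_al_nonneg (Finset.mem_Icc.1 hn).1
  have hM := hMn n
  calc 14 * ((nrm 0 g * ((t : ℝ) + 1) ^ 2 * (al n * 2.3352 ^ n)) * Mn n)
      = (14 * nrm 0 g * (al n * 2.3352 ^ n) * Mn n) * ((t : ℝ) + 1) ^ 2 := by ring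
    _ ≤ (14 * nrm 0 g * (al n * 2.3352 ^ n) * Mn n) * (0.6672 * N) :=
        mul_le_mul_of_nonneg_left hT (by positivity)
    _ = _ := by ring

/-- the linear functional of `g` -/
private theorem q0_lin {t : ℕ} {N : ℝ} {g : Polynomial ℝ} (hN : 0 < N)
    (hT : ((t : ℝ) + 1) ^ 2 ≤ 0.6672 * N) (hg : g.natDegree ≤ t) :
    (PF N g) ^ 2 ≤ nrm 0 g * ((181 / 1440) ^ 2 / N ^ 2 * ((((t : ℝ) + 1) ^ 2) ^ 3 / 3)) := by
  obtain ⟨Φ, hΦ⟩ := pf_lin N
  have h1 := cs_modes (t := t) (m := 0) (Nat.zero_le t) (g := g) (by simpa using hg) Φ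
  rw [hΦ] at h1
  refine h1.trans (mul_le_mul_of_nonneg_left ?_ (nrm_nonneg 0 g))
  have h2 : ∀ l ∈ Finset.Icc 0 t, (2 * (l : ℝ) + 1) *
      (((l - 0).factorial : ℝ) / ((l + 0).factorial : ℝ)) * (Φ (LegAux.Y l 0)) ^ 2 ≤
      (181 / 1440) ^ 2 / N ^ 2 * ((2 * (l : ℝ) + 1) * (lam l) ^ 2) := by
    intro l hl
    have hlt : l ≤ t := (Finset.mem_Icc.1 hl).2
    have hl1 : lam l ≤ 0.6672 * N := by
      refine (lam_le l).trans (le_trans ?_ hT)
      have : (l : ℝ) ≤ t := by exact_mod_cast hlt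
      gcongr
    have h3 := pf_leg hN hl1
    have h4 : LegAux.Y l 0 = LegAux.Pl l := rfl
    rw [hΦ, h4, Nat.sub_zero, Nat.add_zero, div_self (by positivity), mul_one]
    have h5 : (PF N (LegAux.Pl l)) ^ 2 ≤ (181 / 1440 * lam l / N) ^ 2 := by
      rw [← sq_abs]
      exact pow_le_pow_left₀ (abs_nonneg _) h3 2
    calc (2 * (l : ℝ) + 1) * (PF N (LegAux.Pl l)) ^ 2
        ≤ (2 * (l : ℝ) + 1) * (181 / 1440 * lam l / N) ^ 2 := by gcongr
      _ = (181 / 1440) ^ 2 / N ^ 2 * ((2 * (l : ℝ) + 1) * (lam l) ^ 2) := by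
        rw [div_pow, mul_pow]; ring
  refine (Finset.sum_le_sum h2).trans ?_
  rw [← Finset.mul_sum]
  refine mul_le_mul_of_nonneg_left ?_ (by positivity)
  have h6 := sum_lam t 2
  have h7 : Finset.Icc 0 t = Finset.range (t + 1) := by
    ext x; simp
  rw [h7]
  refine h6.trans (le_of_eq ?_)
  norm_num

theorem pq_zero {t : ℕ} {N : ℝ} {g : Polynomial ℝ} (hN : 0 < N)
    (hT : ((t : ℝ) + 1) ^ 2 ≤ 0.6672 * N) (hg : g.natDegree ≤ t) :
    -(0.38 * N * nrm 0 g) ≤ PF N (g ^ 2) := by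
  have hν := nrm_nonneg 0 g
  set a : ℝ := g.eval 1 with ha
  set T : ℝ := ((t : ℝ) + 1) ^ 2 with hTdef
  have hT0 : 0 ≤ T := by positivity
  obtain ⟨Φ, hΦ⟩ := pf_lin N
  have hC := fun b => pf_C (N := N) hN.ne' b
  -- decomposition
  have hdec : PF N (g ^ 2) = 2 * a * PF N g + PF N ((g - Polynomial.C a) ^ 2) := by
    have e : g ^ 2 = (2 * a) • g - Polynomial.C (a ^ 2) + (g - Polynomial.C a) ^ 2 := by
      rw [Polynomial.smul_eq_C_mul, Polynomial.C_mul, Polynomial.C_pow]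
      have : Polynomial.C (2 : ℝ) = 2 := rfl
      rw [this]
      ring
    rw [← hΦ, ← hΦ, ← hΦ]
    conv_lhs => rw [e]
    rw [map_add, map_sub, map_smul, hΦ (Polynomial.C (a ^ 2)), hC, smul_eq_mul]
    ring
  -- cross term
  have hmb := mode_bound t 0 0 (Nat.zero_le t) g (by simpa using hg) 1 (by norm_num)
  have ha2 : a ^ 2 ≤ T * nrm 0 g := by
    have h := hmb
    simp only [Function.iterate_zero, id] at h
    refine h.trans (le_of_eq ?_)
    norm_num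
    left
    rw [hTdef]
  have hlin := q0_lin hN hT hg
  have hcross : (2 * a * PF N g) ^ 2 ≤ (0.066 * N * nrm 0 g) ^ 2 := by
    have h1 : (2 * a * PF N g) ^ 2 = 4 * (a ^ 2 * (PF N g) ^ 2) := by ring
    have h2 : a ^ 2 * (PF N g) ^ 2 ≤ (T * nrm 0 g) *
        (nrm 0 g * ((181 / 1440) ^ 2 / N ^ 2 * (T ^ 3 / 3))) :=
      mul_le_mul ha2 hlin (sq_nonneg _) (by positivity)
    have h3 : T ^ 4 ≤ (0.6672 * N) ^ 4 := pow_le_pow_left₀ hT0 hT 4
    have h4 : 4 * ((T * nrm 0 g) *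
        (nrm 0 g * ((181 / 1440) ^ 2 / N ^ 2 * (T ^ 3 / 3)))) =
        (4 / 3 * (181 / 1440) ^ 2 * (nrm 0 g) ^ 2 / N ^ 2) * T ^ 4 := by ring
    have h5 : (4 / 3 * (181 / 1440) ^ 2 * (nrm 0 g) ^ 2 / N ^ 2) * T ^ 4 ≤
        (4 / 3 * (181 / 1440) ^ 2 * (nrm 0 g) ^ 2 / N ^ 2) * (0.6672 * N) ^ 4 :=
      mul_le_mul_of_nonneg_left h3 (by positivity)
    have h6 : (4 / 3 * (181 / 1440) ^ 2 * (nrm 0 g) ^ 2 / N ^ 2) * (0.6672 * N) ^ 4 =
        (4 / 3 * (181 / 1440) ^ 2 * 0.6672 ^ 4) * (N * nrm 0 g) ^ 2 := by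
      field_simp
    have h7 : (4 / 3 * (181 / 1440) ^ 2 * 0.6672 ^ 4) * (N * nrm 0 g) ^ 2 ≤
        0.066 ^ 2 * (N * nrm 0 g) ^ 2 := by
      refine mul_le_mul_of_nonneg_right ?_ (sq_nonneg _)
      norm_num
    rw [h1]
    calc 4 * (a ^ 2 * (PF N g) ^ 2) ≤ 4 * ((T * nrm 0 g) *
        (nrm 0 g * ((181 / 1440) ^ 2 / N ^ 2 * (T ^ 3 / 3)))) := by linarith
      _ ≤ 0.066 ^ 2 * (N * nrm 0 g) ^ 2 := by rw [h4]; linarith
      _ = (0.066 * N * nrm 0 g) ^ 2 := by ring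
  have hcross2 : -(0.066 * N * nrm 0 g) ≤ 2 * a * PF N g := by
    exact (abs_le.mp (abs_le_of_sq_le_sq hcross (by positivity))).1
  -- square term
  have h1 := q0_first hN hT hg
  have h2 := q0_second hN hT hg
  have hsum : (∑ n ∈ Finset.Icc 2 (2 * t), 4.6704 * al n * 2.3352 ^ n * (2 * Mn n)) +
      (∑ n ∈ Finset.Icc 2 (2 * t),
        4.6704 * al n * 2.3352 ^ n * ((5 / 42) ^ (n + 1) / (2 * ((n : ℝ) + 1)))) =
      ∑ n ∈ Finset.Icc 2 (2 * t), ee n := by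
    rw [← Finset.sum_add_distrib]
    refine Finset.sum_congr rfl fun n _ => ?_
    unfold ee
    ring
  have hee := ee_sum (2 * t)
  have hsq : -(0.31 * N * nrm 0 g) ≤ PF N ((g - Polynomial.C a) ^ 2) := by
    unfold PF
    have e0 : ((g - Polynomial.C a) ^ 2 : Polynomial ℝ).eval 1 = 0 := by
      simp [ha]
    rw [e0]
    have h3 : N * nrm 0 g * ∑ n ∈ Finset.Icc 2 (2 * t), ee n ≤ N * nrm 0 g * 0.31 :=
      mul_le_mul_of_nonneg_left hee (by positivity)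
    rw [← hsum, mul_add] at h3
    rw [← ha] at h1 h2
    linarith
  rw [hdec]
  have hNν : 0 ≤ N * nrm 0 g := by positivity
  nlinarith

end Pool.Agent.Helper83.SE
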