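import Pool.Agent.Helper83.SE.Basic2
import Pool.Agent.Helper83.SD.Ring

/-!
Project SE, module Ring2: from the configuration to zonal sums.

`ring_sq`, `ring_lin` for every ring (`HOK`, sizes `≥ 1`), `pole_val`, `modeA_pole`.  See
`SD.SJ_sq`, `SD.SJ_lin`.
-/

set_option autoImplicit false

open MeasureTheory Real Pool.Agent.Helper83.SD

namespace Pool.Agent.Helper83.SE

namespace Ring2Aux

/-- the ring sum is additive -/
lemma RS_sub (c : Cf) (G G' : ℕ → ℝ → ℝ) :
    RS c G - RS c G' = RS c (fun n z => G n z - G' n z) := by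
  have hA : RA c (Finset.Icc 1 c.J1) G - RA c (Finset.Icc 1 c.J1) G' =
      RA c (Finset.Icc 1 c.J1) (fun n z => G n z - G' n z) := by
    unfold RA
    rw [← Finset.sum_sub_distrib]
    exact Finset.sum_congr rfl fun j _ => by ring
  have hB : RB c G - RB c G' = RB c (fun n z => G n z - G' n z) := by
    unfold RB
    rw [← Finset.sum_sub_distrib]
    exact Finset.sum_congr rfl fun j _ => by ring
  have hC : RC c G - RC c G' = RC c (fun n z => G n z - G' n z) := by
    unfold RC
    rw [← Finset.sum_sub_distrib]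
    exact Finset.sum_congr rfl fun j _ => by ring
  have hD : RD c G - RD c G' = RD c (fun n z => G n z - G' n z) := by
    unfold RD
    rw [← Finset.sum_sub_distrib]
    exact Finset.sum_congr rfl fun j _ => by ring
  unfold RS
  rw [← hA, ← hB, ← hC, ← hD]
  ring

/-- termwise bound of a ring sum -/
lemma RS_abs {c : Cf} (hk : HOK c) {G e : ℕ → ℝ → ℝ}
    (h : ∀ n, 1 ≤ n → ∀ z : ℝ, z ^ 2 ≤ 1 → |G n z| ≤ e n z) : |RS c G| ≤ RS c e := by
  have hA : |RA c (Finset.Icc 1 c.J1) G| ≤ RA c (Finset.Icc 1 c.J1) e := by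
    unfold RA
    refine (Finset.abs_sum_le_sum_abs _ _).trans (Finset.sum_le_sum fun j hj => ?_)
    have hj1 := (Finset.mem_Icc.mp hj).1
    have hz := hk.A j hj
    rw [abs_mul, abs_of_nonneg (by positivity : (0 : ℝ) ≤ 7 * (j : ℝ))]
    refine mul_le_mul_of_nonneg_left ?_ (by positivity)
    exact (abs_add_le _ _).trans (add_le_add (h _ (by omega) _ hz)
      (h _ (by omega) _ (by rwa [neg_sq])))
  have hB : |RB c G| ≤ RB c e := by
    unfold RB
    refine (Finset.abs_sum_le_sum_abs _ _).trans (Finset.sum_le_sum fun j hj => ?_)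
    have hz := hk.B j (Finset.mem_range.mp hj)
    rw [abs_mul, abs_of_nonneg (by positivity : (0 : ℝ) ≤ 7 * (c.J1 : ℝ) + 5 * ((j : ℝ) + 1))]
    refine mul_le_mul_of_nonneg_left ?_ (by positivity)
    exact (abs_add_le _ _).trans (add_le_add (h _ (by omega) _ hz)
      (h _ (by omega) _ (by rwa [neg_sq])))
  have hC : |RC c G| ≤ RC c e := by
    unfold RC
    refine (Finset.abs_sum_le_sum_abs _ _).trans (Finset.sum_le_sum fun j hj => ?_)
    have hz := hk.C j (Finset.mem_range.mp hj)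
    rw [abs_mul, abs_of_nonneg (by positivity : (0 : ℝ) ≤ (c.n : ℝ) + 1)]
    exact mul_le_mul_of_nonneg_left (h _ (by omega) _ hz) (by positivity)
  have hD : |RD c G| ≤ RD c e := by
    unfold RD
    refine (Finset.abs_sum_le_sum_abs _ _).trans (Finset.sum_le_sum fun j hj => ?_)
    have hz := hk.D j (Finset.mem_range.mp hj)
    rw [abs_mul, abs_of_nonneg (by positivity : (0 : ℝ) ≤ (c.n : ℝ))]
    exact mul_le_mul_of_nonneg_left (h _ hk.n0 _ hz) (by positivity)
  unfold RS
  refine (abs_add_le _ _).trans (add_le_add ((abs_add_le _ _).trans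
    (add_le_add ((abs_add_le _ _).trans (add_le_add hA hB)) hC)) hD)

/-- the two configuration means differ by the differences on the rings -/
lemma SC_sub {c : Cf} (hk : HOK c) {F : E3 → ℝ} {B : ℝ → ℝ} {e : ℕ → ℝ → ℝ}
    (h1 : F (sp 1 0) = B 1) (h2 : F (sp (-1) 0) = B (-1))
    (h3 : ∀ n, 1 ≤ n → ∀ z : ℝ, z ^ 2 ≤ 1 → |rmean n z F - B z| ≤ e n z) :
    |SC c F - SY c B| ≤ RS c e / (c.N : ℝ) := by
  have hN : (0 : ℝ) < (c.N : ℝ) := by exact_mod_cast hk.N0
  have h4 : SC c F - SY c B = (RS c (fun n z => rmean n z F - B z)) / (c.N : ℝ) := by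
    have h5 := RS_sub c (fun n z => rmean n z F) (fun _ z => B z)
    unfold SC SY
    rw [← h5, h1, h2]
    ring
  rw [h4, abs_div, abs_of_pos hN]
  exact div_le_div_of_nonneg_right (RS_abs hk h3) hN.le

end Ring2Aux

open Ring2Aux

theorem SC_sq {t : ℕ} {p : Poly} {u v : ℤ → Polynomial ℝ} {c : Cf} (h : Modes t p u v)
    (hk : HOK c) :
    |SC c (fun x => (ev p x) ^ 2) - SY c (fun z => (modeA t u v).eval z)| ≤ AC t c u v := by
  have h1 := pole_val h
  have h2 := modeA_pole h
  refine SC_sub hk (e := fun n z => cross t n u v z) ?_ ?_ ?_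
  · rw [h1.1, h2.1]
  · rw [h1.2, h2.2]
  · intro n hn z hz
    exact ring_sq h hn hz

theorem SC_lin {t : ℕ} {p : Poly} {u v : ℤ → Polynomial ℝ} {c : Cf} (h : Modes t p u v)
    (hk : HOK c) :
    |SC c (ev p) - SY c (fun z => (u 0).eval z)| ≤ HC t c u := by
  have h1 := pole_val h
  exact SC_sub hk (e := fun n z => hsum t n u z) h1.1 h1.2
    (fun n hn z hz => ring_lin h hn hz)

end Pool.Agent.Helper83.SE
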