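import Pool.Agent.Helper83.SE.Defs
import Pool.Agent.Helper83.SD.Wt

/-!
Project SE, module Wp: the weight `wp y = 1/(exp(2 pi y) + 1)`.

`wp y = wt y - 2 wt (2 y)` (`1/(x-1) - 2/(x^2-1) = 1/(x+1)`), so by the substitution `y -> 2 y`
`∫ y^(2r-1) wp = (1 - 2/4^r) ∫ y^(2r-1) wt`.
-/

set_option autoImplicit false

open MeasureTheory Real Pool.Agent.Helper83.SD

namespace Pool.Agent.Helper83.SE

theorem wp_pos (y : ℝ) : 0 < wp y := by
  unfold wp
  have := Real.exp_pos (2 * π * y)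
  positivity

theorem wp_le (y : ℝ) : wp y ≤ Real.exp (-(2 * π * y)) := by
  unfold wp
  have h := Real.exp_pos (2 * π * y)
  rw [Real.exp_neg, ← one_div]
  exact one_div_le_one_div_of_le h (by linarith)

theorem wp_eq {y : ℝ} (hy : 0 < y) : wp y = wt y - 2 * wt (2 * y) := by
  unfold wp wt
  have hx : 0 < 2 * π * y := by positivity
  have h : 1 < Real.exp (2 * π * y) := Real.one_lt_exp_iff.mpr hx
  have h2 : Real.exp (2 * π * (2 * y)) = Real.exp (2 * π * y) ^ 2 := by
    rw [← Real.exp_nat_mul]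
    congr 1
    push_cast
    ring
  rw [h2]
  set E := Real.exp (2 * π * y) with hE
  have h3 : E - 1 ≠ 0 := by linarith
  have h4 : E + 1 ≠ 0 := by linarith
  have h5 : E ^ 2 - 1 ≠ 0 := by
    have : E ^ 2 - 1 = (E - 1) * (E + 1) := by ring
    rw [this]
    exact mul_ne_zero h3 h4
  have h6 : E ^ 2 - 1 = (E - 1) * (E + 1) := by ring
  rw [h6]
  field_simp
  ring

private theorem measurable_wp : Measurable wp := by
  unfold wp
  fun_prop

theorem int_wp (k : ℕ) {c : ℝ} (hc : c < 2 * π) :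
    IntegrableOn (fun y : ℝ => y ^ k * Real.exp (c * y) * wp y) (Set.Ioi 0) := by
  have hb : 0 < 2 * π - c := by linarith
  have h2 := int_pow_exp k hb
  refine Integrable.mono' h2 ?_ ?_
  · exact (Measurable.mul (by fun_prop) measurable_wp).aestronglyMeasurable
  · refine (ae_restrict_iff' measurableSet_Ioi).mpr (ae_of_all _ (fun y hy => ?_))
    have hy' : 0 < y := hy
    have hw := wp_pos y
    rw [Real.norm_of_nonneg (by positivity)]
    have h5 : Real.exp (-((2 * π - c) * y)) = Real.exp (c * y) * Real.exp (-(2 * π * y)) := by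
      rw [← Real.exp_add]; congr 1; ring
    rw [h5, ← mul_assoc]
    exact mul_le_mul_of_nonneg_left (wp_le y) (by positivity)

/-- special case `c = 0` -/
theorem int_wp0 (k : ℕ) : IntegrableOn (fun y : ℝ => y ^ k * wp y) (Set.Ioi 0) := by
  have h := int_wp k (c := 0) (by positivity)
  refine h.congr_fun (fun y _ => ?_) measurableSet_Ioi
  simp

theorem moment_wp (r : ℕ) (hr : 1 ≤ r) :
    ∫ y in Set.Ioi (0 : ℝ), y ^ (2 * r - 1) * wp y =
      (1 - 2 / 4 ^ r) * ∫ y in Set.Ioi (0 : ℝ), y ^ (2 * r - 1) * wt y := by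
  have h1 := int_wt0 (2 * r - 1) (by omega)
  have hg : IntegrableOn (fun u : ℝ => (u / 2) ^ (2 * r - 1) * wt u) (Set.Ioi 0) := by
    have h0 : IntegrableOn (fun u : ℝ => (1 / 2 : ℝ) ^ (2 * r - 1) * (u ^ (2 * r - 1) * wt u))
        (Set.Ioi 0) := h1.const_mul _
    refine h0.congr_fun (fun y _ => ?_) measurableSet_Ioi
    simp only [div_pow]
    ring
  have h3 : IntegrableOn (fun y : ℝ => y ^ (2 * r - 1) * wt (2 * y)) (Set.Ioi 0) := by
    have h := (integrableOn_Ioi_comp_mul_left_iff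
      (fun u : ℝ => (u / 2) ^ (2 * r - 1) * wt u) 0 (a := 2) two_pos).mpr
      (by rw [mul_zero]; exact hg)
    refine h.congr_fun (fun y _ => ?_) measurableSet_Ioi
    simp only [mul_div_cancel_left₀ y (two_ne_zero : (2 : ℝ) ≠ 0)]
  have h2 : ∫ y in Set.Ioi (0 : ℝ), y ^ (2 * r - 1) * wt (2 * y) =
      1 / 4 ^ r * ∫ y in Set.Ioi (0 : ℝ), y ^ (2 * r - 1) * wt y := by
    have h := integral_comp_mul_left_Ioi (fun u : ℝ => (u / 2) ^ (2 * r - 1) * wt u) 0
      (b := 2) two_pos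
    rw [mul_zero] at h
    have e1 : ∫ x in Set.Ioi (0 : ℝ), (fun u : ℝ => (u / 2) ^ (2 * r - 1) * wt u) (2 * x) =
        ∫ y in Set.Ioi (0 : ℝ), y ^ (2 * r - 1) * wt (2 * y) := by
      refine setIntegral_congr_fun measurableSet_Ioi (fun y _ => ?_)
      simp only [mul_div_cancel_left₀ y (two_ne_zero : (2 : ℝ) ≠ 0)]
    have e2 : ∫ u in Set.Ioi (0 : ℝ), (u / 2) ^ (2 * r - 1) * wt u =
        (1 / 2) ^ (2 * r - 1) * ∫ y in Set.Ioi (0 : ℝ), y ^ (2 * r - 1) * wt y := by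
      rw [← integral_const_mul]
      refine setIntegral_congr_fun measurableSet_Ioi (fun y _ => ?_)
      simp only [div_pow]
      ring
    rw [e1, e2] at h
    rw [h, smul_eq_mul, ← mul_assoc]
    congr 1
    obtain ⟨m, rfl⟩ : ∃ m, r = m + 1 := ⟨r - 1, by omega⟩
    have e3 : 2 * (m + 1) - 1 = 2 * m + 1 := by omega
    rw [e3, pow_succ (4 : ℝ), pow_succ (1 / 2 : ℝ), pow_mul]
    have e4 : ((1 / 2 : ℝ) ^ 2) = 1 / 4 := by norm_num
    rw [e4, one_div_pow, one_div, one_div, one_div, mul_inv (4 ^ m : ℝ) 4]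
    ring
  have h4 : ∫ y in Set.Ioi (0 : ℝ), y ^ (2 * r - 1) * wp y =
      (∫ y in Set.Ioi (0 : ℝ), y ^ (2 * r - 1) * wt y) -
        2 * ∫ y in Set.Ioi (0 : ℝ), y ^ (2 * r - 1) * wt (2 * y) := by
    rw [← integral_const_mul, ← integral_sub h1 (h3.const_mul 2)]
    refine setIntegral_congr_fun measurableSet_Ioi (fun y hy => ?_)
    simp only [wp_eq (show (0 : ℝ) < y from hy)]
    ring
  rw [h4, h2]
  ring

theorem moment_wp_one : ∫ y in Set.Ioi (0 : ℝ), y * wp y = 1 / 48 := by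
  have h := moment_wp 1 le_rfl
  simp only [mul_one, show 2 - 1 = 1 from rfl, pow_one] at h
  rw [h, moment_one]
  norm_num

end Pool.Agent.Helper83.SE
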