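import Pool.Agent.Helper83.SE.EM2
import Pool.Agent.Helper83.SE.Lin

/-!
Project SE, module Zone: exact sums over one zone.

Let `f(v) = (n + s v) B(hgt N M n s v)`.  Then `Tm 0 f = 2 ∫ KI N M n s B y wp y`
(`hgt` at `v = I y` is `zet N M n s y`), `f(v + k)` is the same polynomial for
`(M', n') = (M + n k + s k^2/2, n + s k)`, so `Tm k f = 2 ∫ KI N M' n' s B y wp y`, and
`∫_0^k f = (N/2) ∫_{hgt k}^{hgt 0} B`, `hgt 0 = 1 - 2M/N - s/(12N)`,
`hgt k = 1 - 2M'/N - s/(12N)`.  Use `em_mid`.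
`pole_zone`: `em_half` with `f(v) = 7 v B(1 - (7/N)(v^2 + 5/42))`; `f(J+1/2+v)` is the polynomial
of the zone end `(1 + 7J(J+1)/2, 7(J+1/2), 7)`.
`os_refl`: `s = 0`; the integrand is `n Im B(conj ..)`.
-/

set_option autoImplicit false

open MeasureTheory Real Pool.Agent.Helper83.SD

namespace Pool.Agent.Helper83.SE

namespace Zone

/-- the height as a polynomial in the parameter -/
noncomputable def hp (N M n s : ℝ) : Polynomial ℝ :=
  Polynomial.C (1 - (2 / N) * (M + s / 24)) - Polynomial.C (2 * n / N) * Polynomial.X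
    - Polynomial.C (s / N) * Polynomial.X ^ 2

/-- the summand as a polynomial in the parameter -/
noncomputable def fp (N M n s : ℝ) (B : Polynomial ℝ) : Polynomial ℝ :=
  (Polynomial.C n + Polynomial.C s * Polynomial.X) * B.comp (hp N M n s)

theorem hp_eval (N M n s v : ℝ) : (hp N M n s).eval v = hgt N M n s v := by
  simp only [hp, hgt, Polynomial.eval_sub, Polynomial.eval_mul, Polynomial.eval_C,
    Polynomial.eval_X, Polynomial.eval_pow]
  ring

theorem fp_eval (N M n s : ℝ) (B : Polynomial ℝ) (v : ℝ) :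
    (fp N M n s B).eval v = (n + s * v) * B.eval (hgt N M n s v) := by
  simp only [fp, Polynomial.eval_mul, Polynomial.eval_add, Polynomial.eval_C, Polynomial.eval_X,
    Polynomial.eval_comp, hp_eval]

theorem hp_aeval (N M n s a y : ℝ) :
    Polynomial.aeval ((a : ℂ) + Complex.I * (y : ℂ)) (hp N M n s) =
      zet N (M + n * a + s * a ^ 2 / 2) (n + s * a) s y := by
  have hI : Complex.I ^ 2 = -1 := Complex.I_sq
  simp only [hp, zet, map_sub, map_mul, map_pow, Polynomial.aeval_C, Polynomial.aeval_X,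
    Complex.coe_algebraMap]
  push_cast
  linear_combination (-(s : ℂ) / N * (y : ℂ) ^ 2) * hI

theorem fp_aeval (N M n s : ℝ) (B : Polynomial ℝ) (a y : ℝ) :
    (Polynomial.aeval ((a : ℂ) + Complex.I * (y : ℂ)) (fp N M n s B)).im =
      KI N (M + n * a + s * a ^ 2 / 2) (n + s * a) s B y := by
  simp only [fp, KI, map_mul, map_add, Polynomial.aeval_C, Polynomial.aeval_X,
    Polynomial.aeval_comp, hp_aeval, Complex.coe_algebraMap]
  congr 2
  push_cast
  ring

theorem tm_fp (N M n s : ℝ) (B : Polynomial ℝ) (a : ℝ) :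
    Tm a (fp N M n s B) = 2 * ∫ y in Set.Ioi (0 : ℝ),
      KI N (M + n * a + s * a ^ 2 / 2) (n + s * a) s B y * wp y := by
  simp only [Tm, fp_aeval]

theorem int_fp {N : ℝ} (hN : N ≠ 0) (M n s : ℝ) (B : Polynomial ℝ) (a b : ℝ) :
    (∫ v in a..b, (fp N M n s B).eval v) =
      (N / 2) * ∫ z in (hgt N M n s b)..(hgt N M n s a), B.eval z := by
  have h1 : (∫ v in a..b, ((fun z => B.eval z) ∘ (hgt N M n s)) v * (-(2 / N) * (n + s * v))) =
      ∫ z in (hgt N M n s a)..(hgt N M n s b), B.eval z := by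
    refine intervalIntegral.integral_comp_mul_deriv (fun x _ => ?_) ?_ B.continuous
    · have h := ((((hasDerivAt_id x).const_mul n).add
        ((((hasDerivAt_id x).pow 2).const_mul s).div_const 2)).const_add
          (M + s / 24)).const_mul (2 / N)
      have h' := h.const_sub 1
      have e1 : (fun v => 1 - (2 / N) * ((M + s / 24) + (n * id v + s * (id v) ^ 2 / 2))) =
          hgt N M n s := by
        funext v; simp only [hgt, id]; ring
      have h2 : HasDerivAt (fun v => 1 - (2 / N) * ((M + s / 24) + (n * id v + s * (id v) ^ 2 / 2)))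
          (-(2 / N) * (n + s * x)) x := by
        refine h'.congr_deriv ?_
        simp only [id]
        ring
      rw [e1] at h2
      exact h2
    · exact (continuous_const.mul (continuous_const.add (continuous_const.mul
        continuous_id))).continuousOn
  rw [intervalIntegral.integral_symm (hgt N M n s a) (hgt N M n s b), ← h1, ← intervalIntegral.integral_neg,
    ← intervalIntegral.integral_const_mul]
  refine intervalIntegral.integral_congr fun v _ => ?_
  simp only [fp_eval, Function.comp]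
  field_simp

end Zone

open Zone

theorem zone_sum {N : ℝ} (hN : N ≠ 0) (M n s : ℝ) (k : ℕ) (B : Polynomial ℝ) :
    ∑ i ∈ Finset.range k, (n + s * ((i : ℝ) + 1 / 2)) * B.eval (hgt N M n s ((i : ℝ) + 1 / 2)) =
      (N / 2) * (∫ z in (1 - 2 * (M + n * k + s * (k : ℝ) ^ 2 / 2) / N)..(1 - 2 * M / N),
          B.eval z)
        + OS N M n s B - OS N (M + n * k + s * (k : ℝ) ^ 2 / 2) (n + s * k) s B := by
  have h := em_mid (fp N M n s B) k
  simp only [fp_eval] at h
  rw [h]
  have h0 : (∫ v in (0 : ℝ)..(k : ℝ), (n + s * v) * B.eval (hgt N M n s v)) =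
      (N / 2) * ∫ z in (hgt N M n s (k : ℝ))..(hgt N M n s 0), B.eval z := by
    rw [← int_fp hN]
    simp only [fp_eval]
  rw [h0, tm_fp, tm_fp]
  have hii : ∀ a b : ℝ, IntervalIntegrable (fun z => B.eval z) volume a b :=
    fun a b => B.continuous.intervalIntegrable a b
  have e0 : hgt N M n s 0 = 1 - 2 * M / N - s / (12 * N) := by
    simp only [hgt]
    field_simp
    ring
  have e1 : hgt N M n s (k : ℝ) =
      1 - 2 * (M + n * k + s * (k : ℝ) ^ 2 / 2) / N - s / (12 * N) := by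
    simp only [hgt]
    field_simp
    ring
  have e2 : M + n * 0 + s * (0 : ℝ) ^ 2 / 2 = M := by ring
  have e3 : n + s * 0 = n := by ring
  rw [e0, e1, e2, e3]
  simp only [OS]
  set Z := 1 - 2 * M / N
  set Z' := 1 - 2 * (M + n * k + s * (k : ℝ) ^ 2 / 2) / N
  have c1 := intervalIntegral.integral_add_adjacent_intervals (hii Z' Z) (hii Z (Z - s / (12 * N)))
  have c2 := intervalIntegral.integral_add_adjacent_intervals (hii Z' (Z' - s / (12 * N)))
    (hii (Z' - s / (12 * N)) (Z - s / (12 * N)))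
  have c3 : (∫ z in (Z' - s / (12 * N))..(Z - s / (12 * N)), B.eval z) =
      (∫ z in Z'..Z, B.eval z) + (∫ z in Z..(Z - s / (12 * N)), B.eval z) -
        ∫ z in Z'..(Z' - s / (12 * N)), B.eval z := by linarith
  rw [c3]
  ring

theorem pole_zone {N : ℝ} (hN : N ≠ 0) (J : ℕ) (B : Polynomial ℝ) :
    B.eval 1 + ∑ j ∈ Finset.Icc 1 J, 7 * (j : ℝ) *
        B.eval (1 - (7 / N) * ((j : ℝ) ^ 2 + 5 / 42)) =
      (N / 2) * (∫ z in (1 - 2 * (1 + 7 * (J : ℝ) * ((J : ℝ) + 1) / 2) / N)..1, B.eval z)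
        + PF N B - OS N (1 + 7 * (J : ℝ) * ((J : ℝ) + 1) / 2) (7 * ((J : ℝ) + 1 / 2)) 7 B := by
  have hh : ∀ v : ℝ, hgt N (1 / 8) 0 7 v = 1 - (7 / N) * (v ^ 2 + 5 / 42) := by
    intro v
    simp only [hgt]
    ring
  have h := em_half (fp N (1 / 8) 0 7 B) J
  simp only [fp_eval, zero_add] at h
  have hs : ∑ j ∈ Finset.Icc 1 J, 7 * (j : ℝ) * B.eval (1 - (7 / N) * ((j : ℝ) ^ 2 + 5 / 42)) =
      ∑ j ∈ Finset.Icc 1 J, 7 * (j : ℝ) * B.eval (hgt N (1 / 8) 0 7 (j : ℝ)) :=
    Finset.sum_congr rfl fun j _ => by rw [hh]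
  rw [hs, h]
  have h0 : (∫ v in (0 : ℝ)..((J : ℝ) + 1 / 2), 7 * v * B.eval (hgt N (1 / 8) 0 7 v)) =
      (N / 2) * ∫ z in (hgt N (1 / 8) 0 7 ((J : ℝ) + 1 / 2))..(hgt N (1 / 8) 0 7 0), B.eval z := by
    rw [← int_fp hN]
    simp only [fp_eval, zero_add]
  have hL : Lam 0 (fp N (1 / 8) 0 7 B) =
      14 * ∫ y in Set.Ioi (0 : ℝ), y * B.eval (1 + (7 * y ^ 2 - 5 / 6) / N) * wt y := by
    have e : (14 : ℝ) = 2 * 7 := by norm_num
    have e' : (∫ y in Set.Ioi (0 : ℝ), (Polynomial.aeval (((0 : ℝ) : ℂ) + Complex.I * (y : ℂ))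
        (fp N (1 / 8) 0 7 B)).im * wt y) =
        ∫ y in Set.Ioi (0 : ℝ), 7 * (y * B.eval (1 + (7 * y ^ 2 - 5 / 6) / N) * wt y) := ?_
    · rw [Lam, e', integral_const_mul]
      ring
    refine setIntegral_congr_fun measurableSet_Ioi fun y _ => ?_
    simp only [fp_aeval]
    have hz : zet N (1 / 8 + 0 * 0 + 7 * (0 : ℝ) ^ 2 / 2) (0 + 7 * 0) 7 y =
        ((1 + (7 * y ^ 2 - 5 / 6) / N : ℝ) : ℂ) := by
      simp only [zet]
      push_cast
      ring
    simp only [KI, hz]
    have hr : Polynomial.aeval ((1 + (7 * y ^ 2 - 5 / 6) / N : ℝ) : ℂ) B =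
        ((B.eval (1 + (7 * y ^ 2 - 5 / 6) / N) : ℝ) : ℂ) := by
      have := Polynomial.aeval_algebraMap_apply ℂ (1 + (7 * y ^ 2 - 5 / 6) / N) B
      simpa using this
    rw [hr]
    simp only [Complex.mul_im, Complex.add_im, Complex.add_re, Complex.ofReal_im, Complex.ofReal_re,
      Complex.I_re, Complex.I_im, Complex.mul_re]
    ring
  rw [h0, tm_fp, hL]
  have hii : ∀ a b : ℝ, IntervalIntegrable (fun z => B.eval z) volume a b :=
    fun a b => B.continuous.intervalIntegrable a b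
  set M := 1 + 7 * (J : ℝ) * ((J : ℝ) + 1) / 2 with hM
  have e0 : hgt N (1 / 8) 0 7 0 = 1 - 5 / (6 * N) := by
    rw [hh]
    field_simp
    ring
  have e1 : hgt N (1 / 8) 0 7 ((J : ℝ) + 1 / 2) = 1 - 2 * M / N - 7 / (12 * N) := by
    rw [hh, hM]
    field_simp
    ring
  have e2 : 1 / 8 + 0 * ((J : ℝ) + 1 / 2) + 7 * ((J : ℝ) + 1 / 2) ^ 2 / 2 = M := by
    rw [hM]; ring
  rw [e0, e1, e2]
  simp only [OS, PF]
  set Z := 1 - 2 * M / N
  have c1 := intervalIntegral.integral_add_adjacent_intervals (hii Z (Z - 7 / (12 * N)))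
    (hii (Z - 7 / (12 * N)) (1 - 5 / (6 * N)))
  have c2 := intervalIntegral.integral_add_adjacent_intervals (hii Z (1 - 5 / (6 * N)))
    (hii (1 - 5 / (6 * N)) 1)
  have c3 : (∫ z in (Z - 7 / (12 * N))..(1 - 5 / (6 * N)), B.eval z) =
      (∫ z in Z..1, B.eval z) - (∫ z in (1 - 5 / (6 * N))..1, B.eval z) -
        ∫ z in Z..(Z - 7 / (12 * N)), B.eval z := by linarith
  rw [c3]
  ring_nf

theorem os_refl {N : ℝ} (hN : N ≠ 0) (M n : ℝ) (B : Polynomial ℝ) :
    OS N (N - M) n 0 (refl B) = -OS N M n 0 B := by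
  have hk : ∀ y : ℝ, KI N (N - M) n 0 (refl B) y = -KI N M n 0 B y := by
    intro y
    simp only [KI, refl_aeval]
    have hz : -zet N (N - M) n 0 y = (starRingEnd ℂ) (zet N M n 0 y) := by
      simp only [zet, map_sub, map_mul, Complex.conj_I, Complex.conj_ofReal]
      have hN' : (N : ℂ) ≠ 0 := by exact_mod_cast hN
      push_cast
      field_simp
      ring
    rw [hz, Polynomial.aeval_conj]
    simp
  simp only [OS, hk, neg_mul, zero_div, sub_zero, intervalIntegral.integral_same, mul_zero,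
    add_zero]
  rw [integral_neg]
  ring

end Pool.Agent.Helper83.SE
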